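import Pool.Agent.Lib.H16A.V0

/-!
# V1 (M): the additive valuations `ord w` of a number field, basic API

`ord w x = - log (w.valuation F x)`; use `WithZero.log_mul`, `WithZero.log_pow`,
`Valuation.map_add`, `HeightOneSpectrum.valuation_le_one`, `valuationOfNeZero_eq`,
`HeightOneSpectrum.valuation_lt_one_iff_mem`, `HeightOneSpectrum.valuation_exists_uniformizer`.
For `par_cls` unfold `par`, `valuationOfNeZeroMod` (as in Mathlib's `SelmerGroup.lean`).
-/

open Polynomial IsDedekindDomain NumberField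

namespace H16A

section Ord

variable {F : Type*} [Field F] [NumberField F] (w : HeightOneSpectrum (𝓞 F))

theorem v1_ne {x : F} (hx : x ≠ 0) : w.valuation F x ≠ 0 := (Valuation.ne_zero_iff _).2 hx

theorem ord_mul {x y : F} (hx : x ≠ 0) (hy : y ≠ 0) : ord w (x * y) = ord w x + ord w y := by
  unfold ord
  rw [map_mul, WithZero.log_mul (v1_ne w hx) (v1_ne w hy)]
  ring

theorem ord_one : ord w (1 : F) = 0 := by
  unfold ord
  rw [map_one, WithZero.log_one, neg_zero]

theorem ord_inv (x : F) : ord w x⁻¹ = - ord w x := by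
  unfold ord
  rw [map_inv₀, WithZero.log_inv]

theorem ord_div {x y : F} (hx : x ≠ 0) (hy : y ≠ 0) : ord w (x / y) = ord w x - ord w y := by
  rw [div_eq_mul_inv, ord_mul w hx (inv_ne_zero hy), ord_inv, sub_eq_add_neg]

theorem ord_pow (x : F) (n : ℕ) : ord w (x ^ n) = n * ord w x := by
  unfold ord
  rw [map_pow, WithZero.log_pow, nsmul_eq_mul]
  ring

theorem ord_neg (x : F) : ord w (-x) = ord w x := by
  unfold ord
  rw [Valuation.map_neg]

theorem ord_prod {ι : Type*} (s : Finset ι) (f : ι → F) (h : ∀ i ∈ s, f i ≠ 0) :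
    ord w (∏ i ∈ s, f i) = ∑ i ∈ s, ord w (f i) := by
  classical
  induction s using Finset.induction_on with
  | empty => simp [ord_one]
  | insert a s ha ih =>
    rw [Finset.prod_insert ha, Finset.sum_insert ha, ord_mul w (h a (Finset.mem_insert_self _ _))
      (Finset.prod_ne_zero_iff.2 fun i hi => h i (Finset.mem_insert_of_mem hi)),
      ih fun i hi => h i (Finset.mem_insert_of_mem hi)]

theorem v1_le_iff {x y : F} (hx : x ≠ 0) (hy : y ≠ 0) :
    ord w x ≤ ord w y ↔ w.valuation F y ≤ w.valuation F x := by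
  unfold ord
  rw [neg_le_neg_iff, WithZero.log_le_log (v1_ne w hy) (v1_ne w hx)]

theorem v1_lt_iff {x y : F} (hx : x ≠ 0) (hy : y ≠ 0) :
    ord w x < ord w y ↔ w.valuation F y < w.valuation F x := by
  unfold ord
  rw [neg_lt_neg_iff, WithZero.log_lt_log (v1_ne w hy) (v1_ne w hx)]

theorem le_ord_add {x y : F} (h : x + y ≠ 0) (hx : x ≠ 0) (hy : y ≠ 0) :
    min (ord w x) (ord w y) ≤ ord w (x + y) := by
  rw [min_le_iff, v1_le_iff w hx h, v1_le_iff w hy h]
  exact le_max_iff.1 ((w.valuation F).map_add x y)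

/-- if the two orders are different, the order of the sum is the minimum -/
theorem ord_add_of_lt {x y : F} (hx : x ≠ 0) (hy : y ≠ 0) (h : ord w x < ord w y) :
    x + y ≠ 0 ∧ ord w (x + y) = ord w x := by
  rw [v1_lt_iff w hx hy] at h
  have h1 : w.valuation F (x + y) = w.valuation F x := Valuation.map_add_eq_of_lt_left _ h
  refine ⟨?_, ?_⟩
  · intro h0
    rw [h0, map_zero] at h1
    exact v1_ne w hx h1.symm
  · unfold ord
    rw [h1]

theorem v1_nonneg_iff {x : F} (hx : x ≠ 0) : 0 ≤ ord w x ↔ w.valuation F x ≤ 1 := by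
  rw [← ord_one w, v1_le_iff w one_ne_zero hx, map_one]

theorem v1_pos_iff {x : F} (hx : x ≠ 0) : 0 < ord w x ↔ w.valuation F x < 1 := by
  rw [← ord_one w, v1_lt_iff w one_ne_zero hx, map_one]

theorem v1_ord_zero : ord w (0 : F) = 0 := by
  unfold ord
  rw [map_zero, WithZero.log_zero, neg_zero]

theorem ord_int_nonneg (x : 𝓞 F) : 0 ≤ ord w (x : F) := by
  by_cases hx : (x : F) = 0
  · rw [hx, v1_ord_zero]
  · rw [v1_nonneg_iff w hx]
    exact w.valuation_le_one x

theorem ord_int_pos_iff {x : 𝓞 F} (hx : x ≠ 0) : 0 < ord w (x : F) ↔ x ∈ w.asIdeal := by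
  have hx' : (x : F) ≠ 0 := fun h => hx (RingOfIntegers.ext h)
  rw [v1_pos_iff w hx']
  exact w.valuation_lt_one_iff_mem x

/-- an element with nonnegative order at `w` is a quotient of integers with denominator prime
to `w` -/
theorem exists_div_of_ord_nonneg {x : F} (h : 0 ≤ ord w x) :
    ∃ a b : 𝓞 F, b ∉ w.asIdeal ∧ x = (a : F) / (b : F) := by
  have hv : w.valuation F x ≤ 1 := by
    by_cases hx : x = 0
    · rw [hx, map_zero]
      exact zero_le_one
    · exact (v1_nonneg_iff w hx).1 h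
  obtain ⟨n, d, hd⟩ := w.exists_primeCompl_mul_eq_of_integer x hv
  refine ⟨n, d, d.2, ?_⟩
  have hd0 : ((d : 𝓞 F) : F) ≠ 0 := by
    intro h0
    have h1 : (d : 𝓞 F) = 0 := RingOfIntegers.ext h0
    exact d.2 (h1 ▸ w.asIdeal.zero_mem)
  rw [eq_div_iff hd0]
  exact hd

theorem exists_ord_eq_one : ∃ x : F, x ≠ 0 ∧ ord w x = 1 := by
  obtain ⟨π, hπ⟩ := w.valuation_exists_uniformizer F
  refine ⟨π, ?_, ?_⟩
  · intro h0
    rw [h0, map_zero] at hπ
    exact WithZero.exp_ne_zero hπ.symm
  · unfold ord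
    rw [hπ, WithZero.log_exp, neg_neg]

/-- the parity of a class -/
theorem par_cls {x : F} (hx : x ≠ 0) : par w (cls x) = Multiplicative.ofAdd ((ord w x : ℤ) : ZMod 2) := by
  rw [cls_eq hx]
  have h1 : par w (sqMk F (Units.mk0 x hx)) =
      Multiplicative.ofAdd ((Multiplicative.toAdd (w.valuationOfNeZero (Units.mk0 x hx)) : ℤ) :
        ZMod 2) := by
    rfl
  rw [h1]
  have h2 : ((w.valuationOfNeZero (Units.mk0 x hx) : Multiplicative ℤ) :
      WithZero (Multiplicative ℤ)) = w.valuation F x := w.valuationOfNeZero_eq (Units.mk0 x hx)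
  have h3 : Multiplicative.toAdd (w.valuationOfNeZero (Units.mk0 x hx)) = -ord w x := by
    unfold ord
    rw [← h2, neg_neg]
    rfl
  rw [h3]
  congr 1
  push_cast
  exact ZMod.neg_eq_self_mod_two _

theorem par_cls_eq_one_iff {x : F} (hx : x ≠ 0) : par w (cls x) = 1 ↔ Even (ord w x) := by
  rw [par_cls w hx]
  have h1 : (1 : Multiplicative (ZMod 2)) = Multiplicative.ofAdd 0 := rfl
  rw [h1, Multiplicative.ofAdd.injective.eq_iff]
  exact ZMod.intCast_eq_zero_iff_even

end Ord

end H16A
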