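import Mathlib

/-!
# C1 (M): the ring of integers of the completion `K_v` of a number field

* `isAdicComplete_integers`: `O_v` is a complete discrete valuation ring.  Mathlib proves this for
  `𝒪[K]` of a nonarchimedean local field (`Mathlib/NumberTheory/LocalField/Basic.lean`, the instance
  `IsAdicComplete 𝓂[K] 𝒪[K]`); either transport it, or directly: `K_v` is complete for the
  valuation topology, a Cauchy sequence for the `𝔪`-adic topology (`x_{n+1} - x_n ∈ 𝔪^n`) converges
  in `K_v`, and the ideals `𝔪^n = {x : v(x) ≤ exp(-n)}` are closed.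
* `finite_residueField`: the residue field is `𝓞 K / v`, finite: every element of `O_v` is congruent
  modulo `𝔪` to an element of `𝓞 K` (density), see
  `Mathlib/NumberTheory/NumberField/Completion/FinitePlace.lean`.
* `isAdicComplete_p`: `(p) = 𝔪^e` with `e ≥ 1`, so the `(p)`-adic and the `𝔪`-adic topologies
  coincide.
-/

open Polynomial IsDedekindDomain NumberField

namespace H16A

variable {K : Type*} [Field K] [NumberField K] (v : HeightOneSpectrum (𝓞 K))

open IsDedekindDomain.HeightOneSpectrum WithZeroMulInt in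
theorem C1_norm_le_iff (x y : v.adicCompletion K) : ‖x‖ ≤ ‖y‖ ↔ Valued.v x ≤ Valued.v y := by
  rw [FinitePlace.norm_def, FinitePlace.norm_def, NNReal.coe_le_coe]
  exact (toNNReal_strictMono (HeightOneSpectrum.one_lt_absNorm_nnreal v)).le_iff_le

theorem C1_norm_lt_one_iff (x : v.adicCompletion K) : ‖x‖ < 1 ↔ Valued.v x < 1 := by
  have h := C1_norm_le_iff v 1 x
  rw [norm_one, map_one] at h
  rw [← not_le, ← not_le, h]

theorem C1_norm_le_one_iff (x : v.adicCompletion K) : ‖x‖ ≤ 1 ↔ Valued.v x ≤ 1 := by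
  have h := C1_norm_le_iff v x 1
  rwa [norm_one, map_one] at h

theorem C1_mem_maximalIdeal (x : v.adicCompletionIntegers K) :
    x ∈ IsLocalRing.maximalIdeal (v.adicCompletionIntegers K) ↔ ‖(x : v.adicCompletion K)‖ < 1 := by
  rw [IsLocalRing.mem_maximalIdeal, mem_nonunits_iff,
    HeightOneSpectrum.adicCompletionIntegers.isUnit_iff_valued_eq_one, C1_norm_lt_one_iff]
  have h := x.2
  rw [HeightOneSpectrum.mem_adicCompletionIntegers] at h
  constructor
  · intro h1
    exact lt_of_le_of_ne h h1
  · intro h1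
    exact h1.ne

theorem C1_mem_span (x y : v.adicCompletionIntegers K) :
    x ∈ Ideal.span {y} ↔ ‖(x : v.adicCompletion K)‖ ≤ ‖(y : v.adicCompletion K)‖ := by
  rw [Ideal.mem_span_singleton, C1_norm_le_iff]
  exact (HeightOneSpectrum.adicCompletionIntegers.integers K v).dvd_iff_le

theorem C1_exists_uniformizer : ∃ ϖ : v.adicCompletionIntegers K, Irreducible ϖ ∧
    ‖(ϖ : v.adicCompletion K)‖ < 1 ∧ ∀ (n : ℕ) (x : v.adicCompletionIntegers K),
      x ∈ IsLocalRing.maximalIdeal (v.adicCompletionIntegers K) ^ n ↔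
        ‖(x : v.adicCompletion K)‖ ≤ ‖(ϖ : v.adicCompletion K)‖ ^ n := by
  obtain ⟨ϖ, hϖ⟩ := IsDiscreteValuationRing.exists_irreducible (v.adicCompletionIntegers K)
  refine ⟨ϖ, hϖ, ?_, fun n x => ?_⟩
  · rw [← C1_mem_maximalIdeal, hϖ.maximalIdeal_eq]
    exact Ideal.mem_span_singleton_self ϖ
  · rw [hϖ.maximalIdeal_eq, Ideal.span_singleton_pow, C1_mem_span]
    have h1 : ((ϖ ^ n : v.adicCompletionIntegers K) : v.adicCompletion K) =
      (ϖ : v.adicCompletion K) ^ n := rfl
    rw [h1, norm_pow]

theorem C1_limit {L : Type*} [NormedField L] [CompleteSpace L] {r : ℝ} (hr : r < 1) (g : ℕ → L)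
    (hg : ∀ m n : ℕ, m ≤ n → ‖g m - g n‖ ≤ r ^ m) : ∃ x : L, ∀ n, ‖g n - x‖ ≤ r ^ n := by
  have hc : CauchySeq g := by
    apply cauchySeq_of_le_geometric r 1 hr
    intro n
    rw [dist_eq_norm, one_mul]
    exact hg n (n + 1) (Nat.le_succ n)
  obtain ⟨x, hx⟩ := cauchySeq_tendsto_of_complete hc
  refine ⟨x, fun n => ?_⟩
  have h1 : Filter.Tendsto (fun m => ‖g n - g m‖) Filter.atTop (nhds ‖g n - x‖) :=
    (tendsto_const_nhds.sub hx).norm
  apply le_of_tendsto h1
  filter_upwards [Filter.eventually_ge_atTop n] with m hm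
  exact hg n m hm

theorem C1_limit' {r : ℝ} (hr : r < 1) (g : ℕ → v.adicCompletion K)
    (hg : ∀ m n : ℕ, m ≤ n → ‖g m - g n‖ ≤ r ^ m) :
    ∃ x : v.adicCompletion K, ∀ n, ‖g n - x‖ ≤ r ^ n :=
  C1_limit hr g hg

theorem C1_coe_sub (x y : v.adicCompletionIntegers K) :
    ((x - y : v.adicCompletionIntegers K) : v.adicCompletion K) =
      (x : v.adicCompletion K) - (y : v.adicCompletion K) := rfl

theorem isAdicComplete_integers :
    IsAdicComplete (IsLocalRing.maximalIdeal (v.adicCompletionIntegers K))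
      (v.adicCompletionIntegers K) := by
  obtain ⟨ϖ, hϖ, hϖ1, hpow⟩ := C1_exists_uniformizer v
  have htop : ∀ n : ℕ, (IsLocalRing.maximalIdeal (v.adicCompletionIntegers K) ^ n • ⊤ :
      Submodule (v.adicCompletionIntegers K) (v.adicCompletionIntegers K)) =
      IsLocalRing.maximalIdeal (v.adicCompletionIntegers K) ^ n := by
    intro n
    rw [smul_eq_mul, Ideal.mul_top]
  have hnn : 0 ≤ ‖(ϖ : v.adicCompletion K)‖ := norm_nonneg _
  have hlim : Filter.Tendsto (fun n : ℕ => ‖(ϖ : v.adicCompletion K)‖ ^ n) Filter.atTop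
      (nhds 0) := tendsto_pow_atTop_nhds_zero_of_lt_one hnn hϖ1
  refine { haus' := ?_, prec' := ?_ }
  · intro x hx
    have h1 : ∀ n : ℕ, ‖(x : v.adicCompletion K)‖ ≤ ‖(ϖ : v.adicCompletion K)‖ ^ n := by
      intro n
      have h2 := hx n
      rw [SModEq.zero, htop] at h2
      exact (hpow n x).1 h2
    have h2 : ‖(x : v.adicCompletion K)‖ ≤ 0 :=
      ge_of_tendsto hlim (Filter.Eventually.of_forall h1)
    have h3 : (x : v.adicCompletion K) = 0 := norm_le_zero_iff.1 h2
    exact Subtype.ext h3
  · intro f hf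
    have hf' : ∀ m n : ℕ, m ≤ n →
        ‖(f m : v.adicCompletion K) - (f n : v.adicCompletion K)‖ ≤
          ‖(ϖ : v.adicCompletion K)‖ ^ m := by
      intro m n hmn
      have h2 := hf hmn
      rw [SModEq.sub_mem, htop] at h2
      have h3 := (hpow m (f m - f n)).1 h2
      rw [C1_coe_sub] at h3
      exact h3
    obtain ⟨L, hL'⟩ := C1_limit' v hϖ1 (fun n => (f n : v.adicCompletion K)) hf'
    have hLm : L ∈ v.adicCompletionIntegers K := by
      have h1 := hL' 0
      rw [pow_zero, C1_norm_le_one_iff] at h1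
      have h2 : (f 0 : v.adicCompletion K) - L ∈ v.adicCompletionIntegers K := h1
      have h3 : L = (f 0 : v.adicCompletion K) - ((f 0 : v.adicCompletion K) - L) := by ring
      rw [h3]
      exact sub_mem (f 0).2 h2
    refine ⟨⟨L, hLm⟩, fun n => ?_⟩
    rw [SModEq.sub_mem, htop, hpow, C1_coe_sub]
    exact hL' n

theorem C1_valued_algebraMap (a : 𝓞 K) :
    Valued.v ((algebraMap (𝓞 K) (v.adicCompletionIntegers K) a : v.adicCompletionIntegers K) :
      v.adicCompletion K) = v.intValuation a := by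
  rw [← HeightOneSpectrum.valuation_of_algebraMap (K := K)]
  exact HeightOneSpectrum.valuedAdicCompletion_eq_valuation' v (algebraMap (𝓞 K) K a)

theorem C1_algebraMap_mem {a : 𝓞 K} (ha : a ∈ v.asIdeal) :
    algebraMap (𝓞 K) (v.adicCompletionIntegers K) a ∈
      IsLocalRing.maximalIdeal (v.adicCompletionIntegers K) := by
  rw [C1_mem_maximalIdeal, C1_norm_lt_one_iff, C1_valued_algebraMap]
  exact (v.intValuation_lt_one_iff_mem a).2 ha

theorem C1_dense (x : v.adicCompletionIntegers K) : ∃ a : 𝓞 K,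
    algebraMap (𝓞 K) (v.adicCompletionIntegers K) a - x ∈
      IsLocalRing.maximalIdeal (v.adicCompletionIntegers K) := by
  have hd := HeightOneSpectrum.denseRange_algebraMap K v
  rw [Metric.denseRange_iff] at hd
  obtain ⟨k, hk⟩ := hd (x : v.adicCompletion K) 1 one_pos
  rw [dist_eq_norm, C1_norm_lt_one_iff] at hk
  have h1 : Valued.v (algebraMap K (v.adicCompletion K) k) ≤ 1 := by
    have h2 : algebraMap K (v.adicCompletion K) k = (x : v.adicCompletion K) -
      ((x : v.adicCompletion K) - algebraMap K (v.adicCompletion K) k) := by ring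
    rw [h2]
    exact sub_mem (H := v.adicCompletionIntegers K) x.2 hk.le
  have h2 : v.valuation K k ≤ 1 := by
    rw [← HeightOneSpectrum.valuedAdicCompletion_eq_valuation' v k]
    exact h1
  obtain ⟨a, ha⟩ := HeightOneSpectrum.exists_valuation_sub_lt_of_integer v h2 1
  refine ⟨a, ?_⟩
  rw [C1_mem_maximalIdeal, C1_norm_lt_one_iff]
  have h3 : ((algebraMap (𝓞 K) (v.adicCompletionIntegers K) a - x : v.adicCompletionIntegers K) :
      v.adicCompletion K) = algebraMap K (v.adicCompletion K) (algebraMap (𝓞 K) K a - k) -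
        ((x : v.adicCompletion K) - algebraMap K (v.adicCompletion K) k) := by
    rw [map_sub]
    have h4 : ((algebraMap (𝓞 K) (v.adicCompletionIntegers K) a - x : v.adicCompletionIntegers K) :
      v.adicCompletion K) = algebraMap K (v.adicCompletion K) (algebraMap (𝓞 K) K a) -
        (x : v.adicCompletion K) := rfl
    rw [h4]
    ring
  rw [h3]
  have h5 : Valued.v (algebraMap K (v.adicCompletion K) (algebraMap (𝓞 K) K a - k)) < 1 := by
    have h6 := HeightOneSpectrum.valuedAdicCompletion_eq_valuation' v (algebraMap (𝓞 K) K a - k)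
    have h7 : Valued.v (algebraMap K (v.adicCompletion K) (algebraMap (𝓞 K) K a - k)) =
      v.valuation K (algebraMap (𝓞 K) K a - k) := h6
    rw [h7]
    simpa using ha
  exact lt_of_le_of_lt (Valuation.map_sub _ _ _) (max_lt h5 hk)

theorem finite_residueField :
    Finite (IsLocalRing.ResidueField (v.adicCompletionIntegers K)) := by
  let φ : 𝓞 K →+* IsLocalRing.ResidueField (v.adicCompletionIntegers K) :=
    (IsLocalRing.residue (v.adicCompletionIntegers K)).comp
      (algebraMap (𝓞 K) (v.adicCompletionIntegers K))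
  have hφ : Function.Surjective φ := by
    intro y
    obtain ⟨x, rfl⟩ := IsLocalRing.residue_surjective y
    obtain ⟨a, ha⟩ := C1_dense v x
    refine ⟨a, ?_⟩
    have h1 : IsLocalRing.residue (v.adicCompletionIntegers K)
        (algebraMap (𝓞 K) (v.adicCompletionIntegers K) a - x) = 0 := by
      rw [IsLocalRing.residue_eq_zero_iff]
      exact ha
    rw [map_sub, sub_eq_zero] at h1
    exact h1
  have hker : ∀ a ∈ v.asIdeal, φ a = 0 := by
    intro a ha
    exact (IsLocalRing.residue_eq_zero_iff _).2 (C1_algebraMap_mem v ha)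
  have hfin : Finite (𝓞 K ⧸ v.asIdeal) := Ideal.finiteQuotientOfFreeOfNeBot v.asIdeal v.ne_bot
  exact Finite.of_surjective (Ideal.Quotient.lift v.asIdeal φ hker)
    (Ideal.Quotient.lift_surjective_of_surjective v.asIdeal hker hφ)

theorem natCast_mem_maximalIdeal {p : ℕ} (hv : (p : 𝓞 K) ∈ v.asIdeal) :
    (p : v.adicCompletionIntegers K) ∈ IsLocalRing.maximalIdeal (v.adicCompletionIntegers K) := by
  have h := C1_algebraMap_mem v hv
  rwa [map_natCast] at h

theorem isUnit_intCast {p : ℕ} (hp : p.Prime) (hv : (p : 𝓞 K) ∈ v.asIdeal) {n : ℤ}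
    (hn : ¬ (p : ℤ) ∣ n) : IsUnit ((n : ℤ) : v.adicCompletionIntegers K) := by
  by_contra hu
  have h1 : ((n : ℤ) : v.adicCompletionIntegers K) ∈
      IsLocalRing.maximalIdeal (v.adicCompletionIntegers K) := by
    rw [IsLocalRing.mem_maximalIdeal]
    exact hu
  have hco : IsCoprime (p : ℤ) n := (Nat.prime_iff_prime_int.1 hp).coprime_iff_not_dvd.2 hn
  obtain ⟨a, b, hab⟩ := hco
  have h2 : (1 : v.adicCompletionIntegers K) ∈
      IsLocalRing.maximalIdeal (v.adicCompletionIntegers K) := by
    have h3 : (1 : v.adicCompletionIntegers K) =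
        (a : v.adicCompletionIntegers K) * (p : v.adicCompletionIntegers K) +
        (b : v.adicCompletionIntegers K) * (n : v.adicCompletionIntegers K) := by
      have h4 := congrArg (fun z : ℤ => (z : v.adicCompletionIntegers K)) hab
      simp only [Int.cast_add, Int.cast_mul, Int.cast_natCast, Int.cast_one] at h4
      exact h4.symm
    rw [h3]
    exact add_mem (Ideal.mul_mem_left _ _ (natCast_mem_maximalIdeal v hv))
      (Ideal.mul_mem_left _ _ h1)
  exact (Ideal.ne_top_iff_one _).1 (IsLocalRing.maximalIdeal.isMaximal _).ne_top h2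

/-- a power of a complete ideal is complete -/
theorem C1_pow {R : Type*} [CommRing R] {I : Ideal R} (h : IsAdicComplete I R) {e : ℕ}
    (he : 1 ≤ e) : IsAdicComplete (I ^ e) R := by
  have htop : ∀ (J : Ideal R), (J • ⊤ : Submodule R R) = J := by
    intro J
    rw [smul_eq_mul, Ideal.mul_top]
  refine { haus' := ?_, prec' := ?_ }
  · intro x hx
    apply h.haus'
    intro n
    have h1 := hx n
    rw [SModEq.zero, htop, ← pow_mul] at h1
    rw [SModEq.zero, htop]
    exact Ideal.pow_le_pow_right (Nat.le_mul_of_pos_left n he) h1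
  · intro f hf
    have hf' : ∀ {m n : ℕ}, m ≤ n → f m ≡ f n [SMOD (I ^ m • ⊤ : Submodule R R)] := by
      intro m n hmn
      have h1 := hf hmn
      rw [SModEq.sub_mem, htop, ← pow_mul] at h1
      rw [SModEq.sub_mem, htop]
      exact Ideal.pow_le_pow_right (Nat.le_mul_of_pos_left m he) h1
    obtain ⟨L, hL⟩ := h.prec' f hf'
    refine ⟨L, fun n => ?_⟩
    have h1 := hf (Nat.le_mul_of_pos_left n he)
    have h2 := hL (e * n)
    rw [SModEq.sub_mem, htop] at h1 h2 ⊢
    rw [← pow_mul] at h1 ⊢
    have h3 : f n - L = (f n - f (e * n)) + (f (e * n) - L) := by ring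
    rw [h3]
    exact add_mem h1 h2

theorem isAdicComplete_p {p : ℕ} (hp : p.Prime) (hv : (p : 𝓞 K) ∈ v.asIdeal) :
    IsAdicComplete (Ideal.span {(p : v.adicCompletionIntegers K)})
      (v.adicCompletionIntegers K) := by
  obtain ⟨ϖ, hϖ⟩ := IsDiscreteValuationRing.exists_irreducible (v.adicCompletionIntegers K)
  have hp0 : (p : v.adicCompletionIntegers K) ≠ 0 := by
    have h1 : (algebraMap (𝓞 K) (v.adicCompletionIntegers K) (p : 𝓞 K)) ≠ 0 := by
      rw [Ne, FaithfulSMul.algebraMap_eq_zero_iff]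
      exact_mod_cast hp.ne_zero
    rwa [map_natCast] at h1
  obtain ⟨e, he⟩ := IsDiscreteValuationRing.associated_pow_irreducible hp0 hϖ
  have h1 : Ideal.span {(p : v.adicCompletionIntegers K)} =
      IsLocalRing.maximalIdeal (v.adicCompletionIntegers K) ^ e := by
    rw [hϖ.maximalIdeal_eq, Ideal.span_singleton_pow, Ideal.span_singleton_eq_span_singleton]
    exact he
  have he1 : 1 ≤ e := by
    rcases Nat.eq_zero_or_pos e with h0 | h0
    · exfalso
      subst h0
      rw [pow_zero, Ideal.one_eq_top] at h1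
      have h2 : Ideal.span {(p : v.adicCompletionIntegers K)} ≤
          IsLocalRing.maximalIdeal (v.adicCompletionIntegers K) := by
        rw [Ideal.span_singleton_le_iff_mem]
        exact natCast_mem_maximalIdeal v hv
      rw [h1, top_le_iff] at h2
      exact (IsLocalRing.maximalIdeal.isMaximal _).ne_top h2
    · exact h0
  rw [h1]
  exact C1_pow (isAdicComplete_integers v) he1

end H16A
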