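import Mathlib

/-!
# C2 (M): Hensel's lemma in `O[X]/(f)`

`O` is `I`-adically complete, `f` monic, so `R = O[X]/(f)` is a finite free `O`-module (basis
`1, θ, ..`), hence `I R`-adically complete (coordinatewise: `(I R)^n = I^n R` consists of the elements
with coordinates in `I^n`), hence Henselian (`IsAdicComplete.henselianRing`, the instance in
`Mathlib/RingTheory/Henselian.lean`).
* `isSquare_lift`: if `2` is a unit of `O` and `u ∈ Rˣ` is a square modulo `I R`, then `u` is a
  square: `X² - u` has a root modulo `I R` with derivative `2 s`, a unit.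
* `isSquare_one_add_four`: if `m ∈ I R` then `1 + 4 m` is a square: `X² + X - m` has the root `0`
  modulo `I R` and the derivative `2·0 + 1 = 1` there; `(1 + 2X)² = 1 + 4 m`.
-/

open Polynomial

namespace H16A

variable {O : Type*} [CommRing O] [IsNoetherianRing O] (I : Ideal O) [IsAdicComplete I O]
  (f : O[X])

open TensorProduct in
/-- a finite module over an `I`-adically complete noetherian ring is `I`-adically complete -/
theorem C2_isAdicComplete_module.{v} {O : Type v} [CommRing O] [IsNoetherianRing O] (I : Ideal O)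
    [IsAdicComplete I O] (M : Type v) [AddCommGroup M] [Module O M] [Module.Finite O M] :
    IsAdicComplete I M := by
  rw [← AdicCompletion.of_bijective_iff]
  have h1 : Function.Bijective (AdicCompletion.of I O) :=
    AdicCompletion.of_bijective_iff.mpr inferInstance
  let e : O ≃ₗ[O] AdicCompletion I O := LinearEquiv.ofBijective (AdicCompletion.of I O) h1
  let g : M ≃ₗ[O] (AdicCompletion I O) ⊗[O] M :=
    (TensorProduct.lid O M).symm ≪≫ₗ (LinearEquiv.rTensor M e)
  have h2 : (AdicCompletion.of I M : M → AdicCompletion I M) =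
      (AdicCompletion.ofTensorProduct I M) ∘ g := by
    funext x
    have h3 : (AdicCompletion.of I O) (1 : O) = 1 := rfl
    simp [g, e, h3]
  rw [h2]
  exact (AdicCompletion.ofTensorProduct_bijective_of_finite_of_isNoetherian I M).comp g.bijective

theorem henselian_adjoinRoot (hf : f.Monic) :
    HenselianRing (AdjoinRoot f) (I.map (AdjoinRoot.of f)) := by
  have h1 : Module.Finite O (AdjoinRoot f) := hf.finite_adjoinRoot
  have h2 : IsAdicComplete I (AdjoinRoot f) := C2_isAdicComplete_module I (AdjoinRoot f)
  have h3 : IsAdicComplete (I.map (algebraMap O (AdjoinRoot f))) (AdjoinRoot f) :=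
    (IsAdicComplete.map_algebraMap_iff I (AdjoinRoot f)).mpr h2
  have h4 : algebraMap O (AdjoinRoot f) = AdjoinRoot.of f := rfl
  rw [h4] at h3
  infer_instance

theorem isSquare_lift (hf : f.Monic) (h2 : IsUnit (2 : O)) (u : (AdjoinRoot f)ˣ)
    (hu : ∃ s : AdjoinRoot f, s ^ 2 - (u : AdjoinRoot f) ∈ I.map (AdjoinRoot.of f)) :
    IsSquare (u : AdjoinRoot f) := by
  obtain ⟨s, hs⟩ := hu
  have hH := henselian_adjoinRoot I f hf
  set J := I.map (AdjoinRoot.of f) with hJ
  have h2' : IsUnit (2 : AdjoinRoot f) := by
    have := h2.map (AdjoinRoot.of f)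
    rwa [map_ofNat] at this
  have hsu : IsUnit (Ideal.Quotient.mk J s) := by
    have h5 : Ideal.Quotient.mk J s ^ 2 = Ideal.Quotient.mk J (u : AdjoinRoot f) := by
      rw [← map_pow, Ideal.Quotient.eq]
      exact hs
    have h6 : IsUnit (Ideal.Quotient.mk J s ^ 2) := by
      rw [h5]
      exact u.isUnit.map _
    exact (isUnit_pow_iff (by norm_num)).mp h6
  obtain ⟨a, ha, -⟩ := hH.is_henselian (X ^ 2 - C (u : AdjoinRoot f))
    (monic_X_pow_sub_C _ (by norm_num)) s (by simpa using hs) (by
      simp only [derivative_sub, derivative_X_pow, derivative_C, sub_zero, eval_mul,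
        eval_pow, eval_X, map_mul]
      refine IsUnit.mul ?_ ?_
      · have := h2'.map (Ideal.Quotient.mk J)
        simpa using this
      · simpa using hsu)
  refine ⟨a, ?_⟩
  have h7 : a ^ 2 - (u : AdjoinRoot f) = 0 := by
    have := ha
    simpa [IsRoot] using this
  have h8 : (u : AdjoinRoot f) = a ^ 2 := (sub_eq_zero.mp h7).symm
  rw [h8, sq]

theorem isSquare_one_add_four (hf : f.Monic) (m : AdjoinRoot f)
    (hm : m ∈ I.map (AdjoinRoot.of f)) : IsSquare (1 + 4 * m) := by
  have hH := henselian_adjoinRoot I f hf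
  have hmon : (X ^ 2 + X - C m : (AdjoinRoot f)[X]).Monic := by
    rcases subsingleton_or_nontrivial (AdjoinRoot f) with h | h
    · exact Subsingleton.elim _ _
    · have : (X ^ 2 + X - C m : (AdjoinRoot f)[X]) = X ^ 2 + (X - C m) := by ring
      rw [this]
      refine (monic_X_pow 2).add_of_left ?_
      rw [degree_X_sub_C, degree_X_pow]
      norm_num
  obtain ⟨a, ha, -⟩ := hH.is_henselian (X ^ 2 + X - C m) hmon 0 (by simpa using hm) (by simp)
  refine ⟨1 + 2 * a, ?_⟩
  have h7 : a ^ 2 + a - m = 0 := by
    have := ha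
    simpa [IsRoot] using this
  linear_combination (-4 : AdjoinRoot f) * h7

omit [IsNoetherianRing O] in
/-- Hensel's lemma in `O` itself: a simple root modulo `I` lifts -/
theorem exists_root_lift (g : O[X]) (hg : g.Monic) (x : O) (hx : g.eval x ∈ I)
    (hu : IsUnit (g.derivative.eval x)) : ∃ y : O, g.eval y = 0 ∧ y - x ∈ I := by
  obtain ⟨y, hy, hy'⟩ := HenselianRing.is_henselian (I := I) g hg x hx (hu.map _)
  exact ⟨y, hy, hy'⟩

end H16A
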