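import Pool.Agent.Lib.H16A.F2
import Pool.Agent.Lib.H16A.C2

/-!
# C3 (M/L): at a place of good reduction the units of square norm are in the image

`O` a complete discrete valuation ring with finite residue field `k`, `2` and `disc f` units of `O`,
`K'` the field of fractions, `u ∈ (O[θ])ˣ` with `N(u)` a square in `K'`.  Claim: `u ∈ imSub K'`.

Proof.  `N(u) ∈ Oˣ` is a square in `K'`, hence a square in `O` (`O` is integrally closed), so the residue
`ū ∈ (k[θ])ˣ` has square norm, and by F2 (and `mem_imSub_iff`) there is a point `P̄ ∈ E(k)` with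
`Rel ū P̄`.
* `P̄ = 0`: `ū` is a square, so `u` is a square (`isSquare_lift`, the kernel of `O[θ] → k[θ]` is
  `𝔪 O[θ]`).
* `P̄ = (x̄, ȳ)`, `ȳ ≠ 0`: lift `x̄` to `x ∈ O`; `f(x)` is congruent to the square `ȳ² ≠ 0`, so
  `f(x) = y²` with `y ∈ O` (`exists_root_lift` for `X² - f(x)`).  `x - θ` is a unit of `O[θ]` (norm
  `f(x)`), and `ū z̄² = x̄ - θ`, `z̄` a unit; `u/(x - θ)` is a square modulo `𝔪`, hence a square, and
  `u` lies in the class of `(x, y)`.
* `P̄ = (ē, 0)`: lift `ē` to a root `e ∈ O` of `f` (`f'(ē) ≠ 0` because `disc ≠ 0` in `k`),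
  `f = (X - e) g`, `g = X² + (a + e) X + (b + (a + e) e)`.  `u' = e - θ + g(θ)` satisfies
  `N(u') = g(e)²` (compute with `norm_eq`), a unit, and `u' ∈ imSub K'`: it lies in the class of
  `(e, 0)`, because `e - θ = u' (1 - g(θ)/g(e))²` (check at `θ = e`: `0 = 0`, and modulo `g(θ)`).
  The residue of `u'` lies in the class of `(ē, 0)`, so `ū/ū'` is a square (`rel_unique`), so `u/u'` is a
  square, and `u ∈ imSub K'`.
-/

open Polynomial

namespace H16A
namespace Cub

variable (E : Cub)

theorem c3_nonsing {L : Type*} [Field L] (x y : L) :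
    (WeierstrassCurve.Affine.baseChange E.W L).Nonsingular x y ↔
      y ^ 2 = E.val x ∧ (E.der x ≠ 0 ∨ 2 * y ≠ 0) := by
  rw [WeierstrassCurve.Affine.nonsingular_iff', WeierstrassCurve.Affine.equation_iff]
  have h1 : (WeierstrassCurve.Affine.baseChange E.W L).a₁ = 0 := by
    simp [WeierstrassCurve.Affine.baseChange, WeierstrassCurve.baseChange, W]
  have h2 : (WeierstrassCurve.Affine.baseChange E.W L).a₂ = (E.a : L) := by
    simp [WeierstrassCurve.Affine.baseChange, WeierstrassCurve.baseChange, W]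
  have h3 : (WeierstrassCurve.Affine.baseChange E.W L).a₃ = 0 := by
    simp [WeierstrassCurve.Affine.baseChange, WeierstrassCurve.baseChange, W]
  have h4 : (WeierstrassCurve.Affine.baseChange E.W L).a₄ = (E.b : L) := by
    simp [WeierstrassCurve.Affine.baseChange, WeierstrassCurve.baseChange, W]
  have h6 : (WeierstrassCurve.Affine.baseChange E.W L).a₆ = (E.c : L) := by
    simp [WeierstrassCurve.Affine.baseChange, WeierstrassCurve.baseChange, W]
  rw [h1, h2, h3, h4, h6]
  have e1 : (0 : L) * y - (3 * x ^ 2 + 2 * (E.a : L) * x + (E.b : L)) = -(E.der x) := by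
    unfold der; ring
  have e2 : 2 * y + 0 * x + (0 : L) = 2 * y := by ring
  have e3 : y ^ 2 + 0 * x * y + (0 : L) * y = y ^ 2 := by ring
  rw [e1, e2, e3, neg_ne_zero]
  rfl

theorem c3_eval₂ {R S : Type*} [CommRing R] [CommRing S] (φ : R →+* S) (x : S) :
    (E.poly R).eval₂ φ x = x ^ 3 + (E.a : S) * x ^ 2 + (E.b : S) * x + (E.c : S) := by
  simp only [poly, eval₂_add, eval₂_mul, eval₂_pow, eval₂_X, eval₂_C]
  simp only [map_intCast]

/-- `θ` is a root of `f` -/
theorem c3_th {R : Type*} [CommRing R] :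
    E.th R ^ 3 + (E.a : E.Alg R) * E.th R ^ 2 + (E.b : E.Alg R) * E.th R + (E.c : E.Alg R) = 0 := by
  have h : (E.poly R).eval₂ (AdjoinRoot.of (E.poly R)) (E.th R) = 0 := AdjoinRoot.eval₂_root _
  rw [← h]
  exact (E.c3_eval₂ _ _).symm

theorem c3_algMap_th {R R' : Type*} [CommRing R] [CommRing R'] (φ : R →+* R') :
    E.algMap φ (E.th R) = E.th R' := by
  unfold algMap th
  exact AdjoinRoot.map_root φ _ _ _

theorem c3_algMap_al {R R' : Type*} [CommRing R] [CommRing R'] (φ : R →+* R') (r : R) :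
    E.algMap φ (algebraMap R (E.Alg R) r) = algebraMap R' (E.Alg R') (φ r) := by
  unfold algMap
  exact AdjoinRoot.map_of φ _ _ _ r

theorem c3_algMap_mk {R R' : Type*} [CommRing R] [CommRing R'] (φ : R →+* R') (p : R[X]) :
    E.algMap φ (AdjoinRoot.mk (E.poly R) p) = AdjoinRoot.mk (E.poly R') (p.map φ) := by
  have h : (E.algMap φ).comp (AdjoinRoot.mk (E.poly R)) =
      (AdjoinRoot.mk (E.poly R')).comp (Polynomial.mapRingHom φ) := by
    apply Polynomial.ringHom_ext
    · intro r
      simp only [RingHom.comp_apply, Polynomial.coe_mapRingHom, Polynomial.map_C]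
      exact E.c3_algMap_al φ r
    · simp only [RingHom.comp_apply, Polynomial.coe_mapRingHom, Polynomial.map_X]
      exact E.c3_algMap_th φ
  exact RingHom.congr_fun h p

theorem c3_surj {R R' : Type*} [CommRing R] [CommRing R'] {φ : R →+* R'}
    (hφ : Function.Surjective φ) : Function.Surjective (E.algMap φ) := by
  intro z
  obtain ⟨p, rfl⟩ := AdjoinRoot.mk_surjective z
  obtain ⟨q, rfl⟩ := Polynomial.map_surjective φ hφ p
  exact ⟨AdjoinRoot.mk _ q, E.c3_algMap_mk φ q⟩

theorem c3_ker {R R' : Type*} [CommRing R] [CommRing R'] {φ : R →+* R'}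
    (hφ : Function.Surjective φ) {z : E.Alg R} (hz : E.algMap φ z = 0) :
    z ∈ (RingHom.ker φ).map (AdjoinRoot.of (E.poly R)) := by
  obtain ⟨p, rfl⟩ := AdjoinRoot.mk_surjective z
  rw [c3_algMap_mk, AdjoinRoot.mk_eq_zero] at hz
  obtain ⟨g', hg'⟩ := hz
  obtain ⟨g, rfl⟩ := Polynomial.map_surjective φ hφ g'
  have h1 : p - E.poly R * g ∈ RingHom.ker (Polynomial.mapRingHom φ) := by
    rw [RingHom.mem_ker, map_sub, map_mul]
    simp only [Polynomial.coe_mapRingHom]
    rw [hg', E.poly_map φ, sub_self]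
  rw [Polynomial.ker_mapRingHom] at h1
  have h2 := Ideal.mem_map_of_mem (AdjoinRoot.mk (E.poly R)) h1
  rw [Ideal.map_map, map_sub, map_mul, AdjoinRoot.mk_self, zero_mul, sub_zero] at h2
  exact h2

/-- coordinates over a ring -/
theorem c3_coords {R : Type*} [CommRing R] (u : E.Alg R) : ∃ α β γ : R,
    u = algebraMap R (E.Alg R) α + algebraMap R (E.Alg R) β * E.th R +
      algebraMap R (E.Alg R) γ * E.th R ^ 2 := by
  obtain ⟨p, rfl⟩ := AdjoinRoot.mk_surjective u
  have hm := E.poly_monic R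
  rcases subsingleton_or_nontrivial R with hR | hR
  · refine ⟨0, 0, 0, ?_⟩
    have : Subsingleton (E.Alg R) := by
      have h1 : (1 : E.Alg R) = 0 := by
        have h2 : (1 : R) = 0 := Subsingleton.elim _ _
        have h3 := congrArg (algebraMap R (E.Alg R)) h2
        simpa using h3
      exact subsingleton_of_zero_eq_one h1.symm
    exact Subsingleton.elim _ _
  have hdeg : (E.poly R).natDegree = 3 := by
    unfold poly
    compute_degree!
  have h1 : (p %ₘ E.poly R).natDegree < 3 := by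
    have h2 := Polynomial.natDegree_modByMonic_lt p hm (by
      intro h3
      rw [h3] at hdeg
      simp at hdeg)
    rwa [hdeg] at h2
  have h4 : AdjoinRoot.mk (E.poly R) p = AdjoinRoot.mk (E.poly R) (p %ₘ E.poly R) := by
    rw [AdjoinRoot.mk_eq_mk]
    have h5 := Polynomial.modByMonic_add_div p (E.poly R)
    exact ⟨p /ₘ E.poly R, by linear_combination -h5⟩
  refine ⟨(p %ₘ E.poly R).coeff 0, (p %ₘ E.poly R).coeff 1, (p %ₘ E.poly R).coeff 2, ?_⟩
  rw [h4]
  conv_lhs => rw [Polynomial.as_sum_range' _ 3 h1]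
  simp only [Finset.sum_range_succ, Finset.range_zero, Finset.sum_empty, zero_add,
    ← Polynomial.C_mul_X_pow_eq_monomial, map_add, map_mul, map_pow, AdjoinRoot.mk_X,
    pow_zero, pow_one, mul_one]
  rfl

/-- the explicit norm form -/
def c3NF {R : Type*} [CommRing R] (α β γ : R) : R :=
  α ^ 3 - α ^ 2 * β * E.a + α ^ 2 * γ * (E.a ^ 2 - 2 * E.b) + α * β ^ 2 * E.b
      + α * β * γ * (3 * E.c - E.a * E.b) + α * γ ^ 2 * (E.b ^ 2 - 2 * E.a * E.c)
      - β ^ 3 * E.c + β ^ 2 * γ * E.a * E.c - β * γ ^ 2 * E.b * E.c + γ ^ 3 * E.c ^ 2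

theorem c3_norm {R L : Type*} [CommRing R] [Field L] (φ : R →+* L) (α β γ : R) :
    Algebra.norm L (E.algMap φ (algebraMap R (E.Alg R) α + algebraMap R (E.Alg R) β * E.th R +
      algebraMap R (E.Alg R) γ * E.th R ^ 2)) = φ (E.c3NF α β γ) := by
  have h : E.algMap φ (algebraMap R (E.Alg R) α + algebraMap R (E.Alg R) β * E.th R +
      algebraMap R (E.Alg R) γ * E.th R ^ 2) = algebraMap L (E.Alg L) (φ α) +
      algebraMap L (E.Alg L) (φ β) * E.th L + algebraMap L (E.Alg L) (φ γ) * E.th L ^ 2 := by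
    rw [map_add, map_add, map_mul, map_mul, map_pow, c3_algMap_al, c3_algMap_al, c3_algMap_al,
      c3_algMap_th]
  rw [h, norm_eq]
  simp only [c3NF, map_add, map_sub, map_mul, map_pow, map_intCast, map_ofNat]

/-- the unit attached to a root `e` -/
noncomputable def c3w {R : Type*} [CommRing R] (e : R) : E.Alg R :=
  algebraMap R (E.Alg R) e - E.th R + (E.th R ^ 2 + ((E.a : E.Alg R) + algebraMap R (E.Alg R) e) *
    E.th R + ((E.b : E.Alg R) + ((E.a : E.Alg R) + algebraMap R (E.Alg R) e) *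
      algebraMap R (E.Alg R) e))

/-- its inverse, `d' = 1/f'(e)` -/
noncomputable def c3w' {R : Type*} [CommRing R] (e d : R) : E.Alg R :=
  (E.th R ^ 2 + ((E.a : E.Alg R) + algebraMap R (E.Alg R) e) *
    E.th R + ((E.b : E.Alg R) + ((E.a : E.Alg R) + algebraMap R (E.Alg R) e) *
      algebraMap R (E.Alg R) e)) * (algebraMap R (E.Alg R) d) ^ 2 +
  (1 - (E.th R ^ 2 + ((E.a : E.Alg R) + algebraMap R (E.Alg R) e) *
    E.th R + ((E.b : E.Alg R) + ((E.a : E.Alg R) + algebraMap R (E.Alg R) e) *
      algebraMap R (E.Alg R) e)) * algebraMap R (E.Alg R) d) *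
  (E.th R + 2 * algebraMap R (E.Alg R) e + E.a) * algebraMap R (E.Alg R) d

theorem c3_alg_aux {A : Type*} [CommRing A] (t e a b c d : A)
    (ht : t ^ 3 + a * t ^ 2 + b * t + c = 0) (he : e ^ 3 + a * e ^ 2 + b * e + c = 0)
    (hd : (3 * e ^ 2 + 2 * a * e + b) * d = 1) :
    (e - t + (t ^ 2 + (a + e) * t + (b + (a + e) * e))) *
      ((t ^ 2 + (a + e) * t + (b + (a + e) * e)) * d ^ 2 +
      (1 - (t ^ 2 + (a + e) * t + (b + (a + e) * e)) * d) * (t + 2 * e + a) * d) = 1 ∧
    (e - t + (t ^ 2 + (a + e) * t + (b + (a + e) * e))) *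
      (1 - (t ^ 2 + (a + e) * t + (b + (a + e) * e)) * d) ^ 2 = e - t := by
  obtain ⟨g, hg⟩ : ∃ g, g = t ^ 2 + (a + e) * t + (b + (a + e) * e) := ⟨_, rfl⟩
  obtain ⟨ge, hge⟩ : ∃ ge, ge = 3 * e ^ 2 + 2 * a * e + b := ⟨_, rfl⟩
  obtain ⟨r, hr⟩ : ∃ r, r = t + 2 * e + a := ⟨_, rfl⟩
  rw [← hg, ← hr]
  rw [← hge] at hd
  have h1 : (e - t) * g = 0 := by
    rw [hg]
    linear_combination he - ht
  have h3 : (t - e) * r = g - ge := by
    rw [hr, hg, hge]
    ring
  have h2 : g * g = ge * g := by
    linear_combination -(g) * h3 - r * h1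
  constructor
  · linear_combination d ^ 2 * h1 - d * (1 - g * d) * h3 + (2 * d ^ 2 - r * d ^ 2) * h2 +
      (1 + d * g - g * r * d) * hd
  · linear_combination (-2 * d + g * d ^ 2) * h1 + (-2 * d + d ^ 2 * g + d ^ 2 * ge) * h2 +
      g * (ge * d - 1) * hd

theorem c3_w_mul {R : Type*} [CommRing R] {e d : R} (he : E.val e = 0) (hd : E.der e * d = 1) :
    E.c3w e * E.c3w' e d = 1 := by
  have he' : (algebraMap R (E.Alg R) e) ^ 3 + (E.a : E.Alg R) * (algebraMap R (E.Alg R) e) ^ 2 +
      (E.b : E.Alg R) * (algebraMap R (E.Alg R) e) + (E.c : E.Alg R) = 0 := by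
    have h := congrArg (algebraMap R (E.Alg R)) he
    simpa only [val, map_add, map_mul, map_pow, map_intCast, map_zero] using h
  have hd' : (3 * (algebraMap R (E.Alg R) e) ^ 2 + 2 * (E.a : E.Alg R) *
      (algebraMap R (E.Alg R) e) + (E.b : E.Alg R)) * algebraMap R (E.Alg R) d = 1 := by
    have h := congrArg (algebraMap R (E.Alg R)) hd
    simpa only [der, map_add, map_mul, map_pow, map_intCast, map_one, map_ofNat] using h
  exact (c3_alg_aux (E.th R) _ _ _ _ _ E.c3_th he' hd').1

theorem c3_w_sq {R : Type*} [CommRing R] {e d : R} (he : E.val e = 0) (hd : E.der e * d = 1) :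
    ∃ z, E.c3w e * z ^ 2 = algebraMap R (E.Alg R) e - E.th R := by
  have he' : (algebraMap R (E.Alg R) e) ^ 3 + (E.a : E.Alg R) * (algebraMap R (E.Alg R) e) ^ 2 +
      (E.b : E.Alg R) * (algebraMap R (E.Alg R) e) + (E.c : E.Alg R) = 0 := by
    have h := congrArg (algebraMap R (E.Alg R)) he
    simpa only [val, map_add, map_mul, map_pow, map_intCast, map_zero] using h
  have hd' : (3 * (algebraMap R (E.Alg R) e) ^ 2 + 2 * (E.a : E.Alg R) *
      (algebraMap R (E.Alg R) e) + (E.b : E.Alg R)) * algebraMap R (E.Alg R) d = 1 := by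
    have h := congrArg (algebraMap R (E.Alg R)) hd
    simpa only [der, map_add, map_mul, map_pow, map_intCast, map_one, map_ofNat] using h
  exact ⟨_, (c3_alg_aux (E.th R) _ _ _ _ _ E.c3_th he' hd').2⟩

theorem c3_w_norm {L : Type*} [Field L] {e : L} (he : E.val e = 0) :
    Algebra.norm L (E.c3w e) = E.der e ^ 2 := by
  have h : E.c3w e = algebraMap L (E.Alg L) (e + E.b + (E.a + e) * e) +
      algebraMap L (E.Alg L) (E.a + e - 1) * E.th L + algebraMap L (E.Alg L) 1 * E.th L ^ 2 := by
    unfold c3w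
    simp only [map_add, map_mul, map_sub, map_one, map_intCast]
    ring
  have hc : (E.c : L) = -(e ^ 3 + E.a * e ^ 2 + E.b * e) := by
    unfold val at he
    linear_combination he
  rw [h, norm_eq, hc]
  unfold der
  ring

theorem c3_w_map {R R' : Type*} [CommRing R] [CommRing R'] (φ : R →+* R') (e : R) :
    E.algMap φ (E.c3w e) = E.c3w (φ e) := by
  unfold c3w
  simp only [map_add, map_mul, map_sub, map_pow, map_intCast, c3_algMap_al, c3_algMap_th]

theorem c3_w_rel {L : Type*} [Field L] {e : L} (he : E.val e = 0) (hd : E.der e ≠ 0)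
    (w : (E.Alg L)ˣ) (hw : (w : E.Alg L) = E.c3w e) (y : L)
    (h : (WeierstrassCurve.Affine.baseChange E.W L).Nonsingular e y) :
    E.Rel L w (.some e y h) := by
  refine ⟨⟨E.der e, ?_⟩, ?_⟩
  · rw [hw, E.c3_w_norm he]
    ring
  · obtain ⟨z, hz⟩ := E.c3_w_sq he (mul_inv_cancel₀ hd)
    exact ⟨z, by rw [hw, hz]⟩

section DVR

variable {O : Type*} [CommRing O] [IsDomain O] [IsDiscreteValuationRing O]
  [IsAdicComplete (IsLocalRing.maximalIdeal O) O]

omit [IsAdicComplete (IsLocalRing.maximalIdeal O) O] in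
theorem c3_ker_res {z : E.Alg O} (hz : E.algMap (IsLocalRing.residue O) z = 0) :
    z ∈ (IsLocalRing.maximalIdeal O).map (AdjoinRoot.of (E.poly O)) := by
  have h := E.c3_ker (φ := IsLocalRing.residue O) IsLocalRing.residue_surjective hz
  rwa [IsLocalRing.ker_residue] at h

theorem c3_isUnit {z : E.Alg O} (hz : IsUnit (E.algMap (IsLocalRing.residue O) z)) : IsUnit z := by
  obtain ⟨w', hw'⟩ := hz.exists_right_inv
  obtain ⟨w, rfl⟩ := E.c3_surj (φ := IsLocalRing.residue O) IsLocalRing.residue_surjective w'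
  have h1 : z * w - 1 ∈ (IsLocalRing.maximalIdeal O).map (AdjoinRoot.of (E.poly O)) := by
    apply c3_ker_res
    rw [map_sub, map_mul, hw', map_one, sub_self]
  have hH : HenselianRing (AdjoinRoot (E.poly O))
      ((IsLocalRing.maximalIdeal O).map (AdjoinRoot.of (E.poly O))) :=
    henselian_adjoinRoot (IsLocalRing.maximalIdeal O) (E.poly O) (E.poly_monic O)
  have h2 := hH.jac h1
  rw [Ideal.mem_jacobson_bot] at h2
  have h3 := h2 1
  rw [mul_one, sub_add_cancel] at h3
  exact isUnit_of_mul_isUnit_left h3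

theorem c3_isSquare (h2 : IsUnit (2 : O)) (u : (E.Alg O)ˣ)
    (hu : IsSquare (E.algMap (IsLocalRing.residue O) (u : E.Alg O))) :
    IsSquare (u : E.Alg O) := by
  obtain ⟨s', hs'⟩ := hu
  obtain ⟨s, rfl⟩ := E.c3_surj (φ := IsLocalRing.residue O) IsLocalRing.residue_surjective s'
  apply isSquare_lift (IsLocalRing.maximalIdeal O) (E.poly O) (E.poly_monic O) h2 u
  refine ⟨s, E.c3_ker_res ?_⟩
  rw [map_sub, map_pow, hs']
  ring

theorem c3_lift (h2 : IsUnit (2 : O)) (u w : (E.Alg O)ˣ)
    (h : ∃ z, E.algMap (IsLocalRing.residue O) (u : E.Alg O) * z ^ 2 =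
      E.algMap (IsLocalRing.residue O) (w : E.Alg O)) :
    ∃ z, (u : E.Alg O) * z ^ 2 = w := by
  obtain ⟨z, hz⟩ := h
  have h1 : IsSquare ((u * w : (E.Alg O)ˣ) : E.Alg O) := by
    apply E.c3_isSquare h2
    refine ⟨E.algMap (IsLocalRing.residue O) (u : E.Alg O) * z, ?_⟩
    rw [Units.val_mul, map_mul, ← hz]
    ring
  obtain ⟨s, hs⟩ := h1
  refine ⟨s * ((u⁻¹ : (E.Alg O)ˣ) : E.Alg O), ?_⟩
  have h3 : (u : E.Alg O) * ((u⁻¹ : (E.Alg O)ˣ) : E.Alg O) = 1 := by
    rw [← Units.val_mul, mul_inv_cancel, Units.val_one]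
  rw [Units.val_mul] at hs
  linear_combination (-((u⁻¹ : (E.Alg O)ˣ) : E.Alg O) ^ 2 * u) * hs +
    ((w : E.Alg O) * (u * ((u⁻¹ : (E.Alg O)ˣ) : E.Alg O) + 1)) * h3

omit [IsAdicComplete (IsLocalRing.maximalIdeal O) O] in
theorem c3_norm_res {K' : Type*} [Field K'] [Algebra O K'] [IsFractionRing O K']
    (u : E.Alg O) (hN : IsSquare (Algebra.norm K' (E.algMap (algebraMap O K') u))) :
    IsSquare (Algebra.norm (IsLocalRing.ResidueField O) (E.algMap (IsLocalRing.residue O) u)) := by
  obtain ⟨α, β, γ, rfl⟩ := E.c3_coords u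
  rw [c3_norm] at hN ⊢
  obtain ⟨s, hs⟩ := hN
  have h1 : IsIntegral O s := by
    refine ⟨X ^ 2 - C (E.c3NF α β γ), Polynomial.monic_X_pow_sub_C _ two_ne_zero, ?_⟩
    rw [eval₂_sub, eval₂_pow, eval₂_X, eval₂_C, hs]
    ring
  obtain ⟨t, rfl⟩ := IsIntegrallyClosed.isIntegral_iff.mp h1
  rw [← map_mul] at hs
  have h2 := IsFractionRing.injective O K' hs
  rw [h2]
  exact ⟨_, map_mul _ _ _⟩

end DVR

theorem c3_val_map {R R' : Type*} [CommRing R] [CommRing R'] (φ : R →+* R') (x : R) :
    φ (E.val x) = E.val (φ x) := by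
  simp only [val, map_add, map_mul, map_pow, map_intCast]

theorem c3_der_map {R R' : Type*} [CommRing R] [CommRing R'] (φ : R →+* R') (x : R) :
    φ (E.der x) = E.der (φ x) := by
  simp only [der, map_add, map_mul, map_pow, map_intCast, map_ofNat]

theorem c3_sub_th_mul {R : Type*} [CommRing R] (x : R) :
    (algebraMap R (E.Alg R) x - E.th R) * ((algebraMap R (E.Alg R) x) ^ 2 +
      algebraMap R (E.Alg R) x * E.th R + E.th R ^ 2 + (E.a : E.Alg R) *
      (algebraMap R (E.Alg R) x + E.th R) + (E.b : E.Alg R)) =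
    algebraMap R (E.Alg R) (E.val x) := by
  rw [c3_val_map]
  unfold val
  linear_combination -(E.c3_th (R := R))

theorem c3_mem_of_sq {L : Type*} [Field L] (v : (E.Alg L)ˣ) (h : IsSquare (v : E.Alg L)) :
    v ∈ E.imSub L := E.sqSub_le_imSub ((mem_sqSub_iff v).2 h)

theorem loc_unit {O K' : Type*} [CommRing O] [IsDomain O] [IsDiscreteValuationRing O] [Field K']
    [Algebra O K'] [IsFractionRing O K'] [IsAdicComplete (IsLocalRing.maximalIdeal O) O]
    [Finite (IsLocalRing.ResidueField O)] (h2 : IsUnit (2 : O)) (hd : IsUnit ((E.disc : ℤ) : O))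
    (u : (E.Alg O)ˣ)
    (hN : IsSquare (Algebra.norm K' ((E.uMap (algebraMap O K') u : (E.Alg K')ˣ) : E.Alg K'))) :
    E.uMap (algebraMap O K') u ∈ E.imSub K' := by
  classical
  have h2k : (2 : IsLocalRing.ResidueField O) ≠ 0 := by
    have h := h2.map (IsLocalRing.residue O)
    rw [map_ofNat] at h
    exact h.ne_zero
  have hdk : ((E.disc : ℤ) : IsLocalRing.ResidueField O) ≠ 0 := by
    have h := hd.map (IsLocalRing.residue O)
    rw [map_intCast] at h
    exact h.ne_zero
  have h2K : (2 : K') ≠ 0 := by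
    have h := h2.map (algebraMap O K')
    rw [map_ofNat] at h
    exact h.ne_zero
  have hu1 : ((E.uMap (algebraMap O K') u : (E.Alg K')ˣ) : E.Alg K') =
      E.algMap (algebraMap O K') (u : E.Alg O) := rfl
  have hu2 : ((E.uMap (IsLocalRing.residue O) u : (E.Alg (IsLocalRing.ResidueField O))ˣ) :
      E.Alg (IsLocalRing.ResidueField O)) = E.algMap (IsLocalRing.residue O) (u : E.Alg O) := rfl
  rw [hu1] at hN
  have hNk := E.c3_norm_res (u : E.Alg O) hN
  have hmem : E.uMap (IsLocalRing.residue O) u ∈ E.imSub (IsLocalRing.ResidueField O) :=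
    E.mem_imSub_of_finite h2k hdk _ hNk
  rw [E.mem_imSub_iff h2k hdk] at hmem
  obtain ⟨P, hP⟩ := hmem
  rcases P with _ | ⟨x, y, hxy⟩
  · -- the point at infinity
    have h3 : IsSquare (E.algMap (IsLocalRing.residue O) (u : E.Alg O)) := hP
    have h4 := E.c3_isSquare h2 u h3
    exact E.c3_mem_of_sq _ (h4.map (E.algMap (algebraMap O K')))
  · obtain ⟨x0, rfl⟩ := IsLocalRing.residue_surjective x
    obtain ⟨y0, rfl⟩ := IsLocalRing.residue_surjective y
    obtain ⟨-, z, hz⟩ := id hP
    rw [hu2] at hz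
    have hns := (E.c3_nonsing _ _).1 hxy
    by_cases hy : IsLocalRing.residue O y0 = 0
    · -- a point of order two
      have hder : E.der (IsLocalRing.residue O x0) ≠ 0 := by
        rcases hns.2 with h | h
        · exact h
        · rw [hy, mul_zero] at h
          exact absurd rfl h
      have hval : E.val (IsLocalRing.residue O x0) = 0 := by
        rw [← hns.1, hy]
        ring
      have hx0 : (E.poly O).eval x0 ∈ IsLocalRing.maximalIdeal O := by
        rw [eval_poly, ← IsLocalRing.residue_eq_zero_iff, c3_val_map, hval]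
      have hx1 : IsUnit ((E.poly O).derivative.eval x0) := by
        have h5 : (E.poly O).derivative.eval x0 = E.der x0 := by
          unfold poly der
          simp only [derivative_add, derivative_mul, derivative_X_pow, derivative_C, derivative_X,
            eval_add, eval_mul, eval_pow, eval_X, eval_C]
          simp
          ring
        rw [h5]
        by_contra h6
        have h7 : E.der x0 ∈ IsLocalRing.maximalIdeal O := h6
        rw [← IsLocalRing.residue_eq_zero_iff, c3_der_map] at h7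
        exact hder h7
      obtain ⟨e, he, hex⟩ := exists_root_lift (IsLocalRing.maximalIdeal O) (E.poly O)
        (E.poly_monic O) x0 hx0 hx1
      rw [eval_poly] at he
      have hres : IsLocalRing.residue O e = IsLocalRing.residue O x0 := by
        rw [← IsLocalRing.residue_eq_zero_iff, map_sub, sub_eq_zero] at hex
        exact hex
      have hdere : IsUnit (E.der e) := by
        by_contra h6
        have h7 : E.der e ∈ IsLocalRing.maximalIdeal O := h6
        rw [← IsLocalRing.residue_eq_zero_iff, c3_der_map, hres] at h7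
        exact hder h7
      obtain ⟨d, hd'⟩ := hdere.exists_right_inv
      have hw := E.c3_w_mul he hd'
      obtain ⟨w, hw1⟩ : ∃ w : (E.Alg O)ˣ, (w : E.Alg O) = E.c3w e :=
        ⟨Units.mkOfMulEqOne _ _ hw, rfl⟩
      -- the class of `w` over the residue field
      have hwk : E.Rel (IsLocalRing.ResidueField O) (E.uMap (IsLocalRing.residue O) w)
          (.some _ _ hxy) := by
        refine E.c3_w_rel hval hder _ ?_ _ hxy
        have h8 : ((E.uMap (IsLocalRing.residue O) w : (E.Alg (IsLocalRing.ResidueField O))ˣ) :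
          E.Alg (IsLocalRing.ResidueField O)) = E.algMap (IsLocalRing.residue O) (w : E.Alg O) := rfl
        rw [h8, hw1, c3_w_map, hres]
      have h9 := E.rel_unique h2k hdk hP hwk
      rw [← _root_.map_div, mem_sqSub_iff] at h9
      have h10 : IsSquare ((u / w : (E.Alg O)ˣ) : E.Alg O) := E.c3_isSquare h2 (u / w) h9
      have h11 : E.uMap (algebraMap O K') (u / w) ∈ E.imSub K' :=
        E.c3_mem_of_sq _ (h10.map (E.algMap (algebraMap O K')))
      have heK : E.val (algebraMap O K' e) = 0 := by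
        rw [← c3_val_map, he, map_zero]
      have hdK : E.der (algebraMap O K' e) ≠ 0 := by
        rw [← c3_der_map]
        exact (hdere.map (algebraMap O K')).ne_zero
      have hnsK : (WeierstrassCurve.Affine.baseChange E.W K').Nonsingular (algebraMap O K' e) 0 := by
        rw [c3_nonsing]
        refine ⟨?_, Or.inl hdK⟩
        rw [heK]
        ring
      have h12 : E.uMap (algebraMap O K') w ∈ E.imSub K' := by
        apply Subgroup.subset_closure
        refine ⟨.some _ _ hnsK, ?_⟩
        refine E.c3_w_rel heK hdK _ ?_ _ hnsK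
        have h8 : ((E.uMap (algebraMap O K') w : (E.Alg K')ˣ) :
          E.Alg K') = E.algMap (algebraMap O K') (w : E.Alg O) := rfl
        rw [h8, hw1, c3_w_map]
      have h13 := mul_mem h11 h12
      rw [← map_mul, div_mul_cancel] at h13
      exact h13
    · -- a general point
      have hx0 : (X ^ 2 - C (E.val x0) : O[X]).eval y0 ∈ IsLocalRing.maximalIdeal O := by
        rw [eval_sub, eval_pow, eval_X, eval_C, ← IsLocalRing.residue_eq_zero_iff, map_sub, map_pow,
          hns.1, c3_val_map, sub_self]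
      have hy0 : IsUnit y0 := by
        by_contra h6
        have h7 : y0 ∈ IsLocalRing.maximalIdeal O := h6
        rw [← IsLocalRing.residue_eq_zero_iff] at h7
        exact hy h7
      have hx1 : IsUnit ((X ^ 2 - C (E.val x0) : O[X]).derivative.eval y0) := by
        simp only [derivative_sub, derivative_X_pow, derivative_C, eval_mul, eval_pow,
          eval_X, eval_C, sub_zero]
        simp
        exact ⟨h2, hy0⟩
      obtain ⟨y1, hy1, hy2⟩ := exists_root_lift (IsLocalRing.maximalIdeal O)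
        (X ^ 2 - C (E.val x0)) (Polynomial.monic_X_pow_sub_C _ two_ne_zero) y0 hx0 hx1
      rw [eval_sub, eval_pow, eval_X, eval_C, sub_eq_zero] at hy1
      have hres : IsLocalRing.residue O y1 = IsLocalRing.residue O y0 := by
        rw [← IsLocalRing.residue_eq_zero_iff, map_sub, sub_eq_zero] at hy2
        exact hy2
      have hy1u : IsUnit y1 := by
        by_contra h6
        have h7 : y1 ∈ IsLocalRing.maximalIdeal O := h6
        rw [← IsLocalRing.residue_eq_zero_iff, hres] at h7
        exact hy h7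
      have hwu : IsUnit (algebraMap O (E.Alg O) x0 - E.th O) := by
        apply isUnit_of_mul_isUnit_left
        rw [c3_sub_th_mul, ← hy1]
        exact (hy1u.pow 2).map (algebraMap O (E.Alg O))
      obtain ⟨w, hw⟩ := hwu
      obtain ⟨z', hz'⟩ := E.c3_lift h2 u w ⟨z, by
        rw [hz, hw, map_sub, c3_algMap_al, c3_algMap_th]⟩
      have hnsK : (WeierstrassCurve.Affine.baseChange E.W K').Nonsingular (algebraMap O K' x0)
          (algebraMap O K' y1) := by
        rw [c3_nonsing]
        refine ⟨?_, Or.inr ?_⟩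
        · rw [← c3_val_map, ← hy1, map_pow]
        · exact mul_ne_zero h2K (hy1u.map (algebraMap O K')).ne_zero
      apply Subgroup.subset_closure
      refine ⟨.some _ _ hnsK, hN, E.algMap (algebraMap O K') z', ?_⟩
      rw [hu1, ← map_pow, ← map_mul, hz', hw, map_sub, c3_algMap_al, c3_algMap_th]

end Cub
end H16A
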