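import Pool.Agent.Lib.H16A.V1

/-!
# V2 (M): integrality, valuations of rational numbers, conjugate primes

* `isIntegral_of_ord_nonneg`: `HeightOneSpectrum.mem_integers_of_valuation_le_one`.
* `ord_rat`: `q = p^k m/n` with `m, n` prime to `p`, and integers prime to `p` are not in `w`.
* `ord_cj`: the valuation of `cj σ w` is the valuation of `w` composed with `σ` (factor
  `(x) = ∏ ...`, or: both are determined by the multiplicities of the ideals; `σ` transports the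
  factorisation).  One way: for `x ∈ 𝓞 F` nonzero, `ord w x ≥ n ↔ x ∈ w^n`
  (`HeightOneSpectrum.intValuation_le_pow_iff_mem`) and `comap` of `w^n` under a ring isomorphism
  is the `n`-th power of the comap; then pass to quotients.
* `exists_cj`: transitivity of the Galois group on the primes above `p`
  (`Ideal.exists_map_eq_of_isGalois` / `Algebra.IsInvariant.exists_smul_of_under_eq`).
-/

open Polynomial IsDedekindDomain NumberField

namespace H16A

section Ord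

variable {F : Type*} [Field F] [NumberField F] (w : HeightOneSpectrum (𝓞 F))

/-- if `ord w x ≥ 0` for all `w` then `x` is an algebraic integer -/
theorem isIntegral_of_ord_nonneg {x : F} (h : ∀ w : HeightOneSpectrum (𝓞 F), 0 ≤ ord w x) :
    ∃ a : 𝓞 F, (a : F) = x := by
  have h1 := HeightOneSpectrum.mem_integers_of_valuation_le_one F x (R := 𝓞 F) (by
    intro v
    by_cases hx : x = 0
    · rw [hx, map_zero]
      exact zero_le_one
    · exact (v1_nonneg_iff v hx).1 (h v))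
  exact h1

/-- a natural number prime to `p` is not in `w` -/
theorem v2_notMem {p n : ℕ} (hp : p.Prime) (hw : (p : 𝓞 F) ∈ w.asIdeal) (hn : ¬ p ∣ n) :
    (n : 𝓞 F) ∉ w.asIdeal := by
  intro hm
  have h1 : IsCoprime (p : ℤ) (n : ℤ) := Nat.isCoprime_iff_coprime.2 ((Nat.Prime.coprime_iff_not_dvd hp).2 hn)
  obtain ⟨a, b, hab⟩ := h1
  apply w.isPrime.ne_top
  rw [Ideal.eq_top_iff_one]
  have h2 : (1 : 𝓞 F) = (a : 𝓞 F) * (p : 𝓞 F) + (b : 𝓞 F) * (n : 𝓞 F) := by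
    have := congrArg (fun z : ℤ => (z : 𝓞 F)) hab
    push_cast at this
    exact this.symm
  rw [h2]
  exact w.asIdeal.add_mem (w.asIdeal.mul_mem_left _ hw) (w.asIdeal.mul_mem_left _ hm)

theorem v2_coe_nat (n : ℕ) : (((n : ℕ) : 𝓞 F) : F) = (n : F) :=
  map_natCast (algebraMap (𝓞 F) F) n

theorem v2_coe_zero : ((0 : 𝓞 F) : F) = 0 := map_zero (algebraMap (𝓞 F) F)

theorem ord_natCast_pos {p : ℕ} (hp : p.Prime) (hw : (p : 𝓞 F) ∈ w.asIdeal) : 0 < ord w (p : F) := by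
  have h0 : (p : 𝓞 F) ≠ 0 := Nat.cast_ne_zero.2 hp.ne_zero
  have h1 := (ord_int_pos_iff w h0).2 hw
  rwa [v2_coe_nat] at h1

theorem v2_ord_nat {p : ℕ} (hp : p.Prime) (hw : (p : 𝓞 F) ∈ w.asIdeal) {n : ℕ} (hn : n ≠ 0) :
    ord w (n : F) = padicValNat p n * ord w (p : F) := by
  haveI : Fact p.Prime := ⟨hp⟩
  obtain ⟨e, n', hn', rfl⟩ := Nat.exists_eq_pow_mul_and_not_dvd hn p hp.ne_one
  have hn0 : n' ≠ 0 := by
    rintro rfl
    exact hn' (dvd_zero p)
  have h1 : padicValNat p (p ^ e * n') = e := by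
    rw [padicValNat.mul (pow_ne_zero _ hp.ne_zero) hn0, padicValNat.prime_pow,
      padicValNat.eq_zero_of_not_dvd hn', add_zero]
  rw [h1]
  push_cast
  have hpF : (p : F) ≠ 0 := Nat.cast_ne_zero.2 hp.ne_zero
  have hnF : (n' : F) ≠ 0 := Nat.cast_ne_zero.2 hn0
  rw [ord_mul w (pow_ne_zero _ hpF) hnF, ord_pow]
  have h2 : ord w (n' : F) = 0 := by
    have h3 := ord_int_nonneg w (n' : 𝓞 F)
    have h4 : ¬ 0 < ord w (((n' : 𝓞 F)) : F) := by
      rw [ord_int_pos_iff w (Nat.cast_ne_zero.2 hn0)]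
      exact v2_notMem w hp hw hn'
    rw [v2_coe_nat] at h3 h4
    omega
  rw [h2, add_zero]

/-- more precisely the order is `padicValRat p q` times the order of `p` -/
theorem ord_rat {p : ℕ} (hp : p.Prime) (hw : (p : 𝓞 F) ∈ w.asIdeal) (q : ℚ) :
    ord w ((q : ℚ) : F) = padicValRat p q * ord w (p : F) := by
  by_cases hq : q = 0
  · subst hq
    rw [Rat.cast_zero, v1_ord_zero]
    simp
  have hnum : q.num ≠ 0 := Rat.num_ne_zero.2 hq
  have hnat : q.num.natAbs ≠ 0 := Int.natAbs_ne_zero.2 hnum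
  have h1 : ord w ((q.num : ℤ) : F) = padicValInt p q.num * ord w (p : F) := by
    have h2 : padicValInt p q.num = padicValNat p q.num.natAbs := rfl
    rw [h2, ← v2_ord_nat w hp hw hnat]
    rcases Int.natAbs_eq q.num with h3 | h3
    · conv_lhs => rw [h3]
      rw [Int.cast_natCast]
    · conv_lhs => rw [h3]
      rw [Int.cast_neg, Int.cast_natCast, ord_neg]
  rw [Rat.cast_def, ord_div w (Int.cast_ne_zero.2 hnum) (Nat.cast_ne_zero.2 q.den_ne_zero), h1,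
    v2_ord_nat w hp hw q.den_ne_zero, padicValRat_def]
  ring

/-- the valuation of a rational number above `p`: if `p ∈ w` then `ord w q > 0` iff `p | num q`,
`ord w q < 0` iff `p | den q` -/
theorem ord_rat_nonneg_iff {p : ℕ} (hp : p.Prime) (hw : (p : 𝓞 F) ∈ w.asIdeal) {q : ℚ} (hq : q ≠ 0) :
    0 ≤ ord w ((q : ℚ) : F) ↔ 0 ≤ padicValRat p q := by
  rw [ord_rat w hp hw]
  exact mul_nonneg_iff_of_pos_right (ord_natCast_pos w hp hw)

/-- every prime `w` contains exactly one prime number -/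
theorem exists_prime_mem : ∃ p : ℕ, p.Prime ∧ (p : 𝓞 F) ∈ w.asIdeal := by
  classical
  have hex : ∃ n : ℕ, 0 < n ∧ (n : 𝓞 F) ∈ w.asIdeal := by
    refine ⟨Ideal.absNorm w.asIdeal, ?_, Ideal.absNorm_mem _⟩
    rw [Nat.pos_iff_ne_zero, Ne, Ideal.absNorm_eq_zero_iff]
    exact w.ne_bot
  set n := Nat.find hex with hn
  obtain ⟨hn0, hnw⟩ := Nat.find_spec hex
  rw [← hn] at hn0 hnw
  have hn1 : n ≠ 1 := by
    intro h1
    rw [h1, Nat.cast_one] at hnw
    exact w.isPrime.ne_top ((Ideal.eq_top_iff_one _).2 hnw)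
  refine ⟨n.minFac, Nat.minFac_prime hn1, ?_⟩
  have h2 : n = n.minFac * (n / n.minFac) := (Nat.mul_div_cancel' (Nat.minFac_dvd n)).symm
  have h3 : ((n.minFac : ℕ) : 𝓞 F) * ((n / n.minFac : ℕ) : 𝓞 F) ∈ w.asIdeal := by
    rw [← Nat.cast_mul, ← h2]
    exact hnw
  rcases w.isPrime.mem_or_mem h3 with h4 | h4
  · exact h4
  · exfalso
    have h5 : 0 < n / n.minFac := Nat.div_pos (Nat.minFac_le hn0) (Nat.minFac_pos n)
    have h6 : n / n.minFac < n := Nat.div_lt_self hn0 (Nat.minFac_prime hn1).one_lt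
    exact Nat.find_min hex h6 ⟨h5, h4⟩

theorem prime_mem_unique {p q : ℕ} (hp : p.Prime) (hq : q.Prime) (h1 : (p : 𝓞 F) ∈ w.asIdeal)
    (h2 : (q : 𝓞 F) ∈ w.asIdeal) : p = q := by
  by_contra hne
  refine v2_notMem w hp h1 ?_ h2
  intro hd
  exact hne ((Nat.prime_dvd_prime_iff_eq hp hq).1 hd)

theorem v2_le_iff {x : 𝓞 F} (hx : x ≠ 0) (n : ℕ) : (n : ℤ) ≤ ord w (x : F) ↔ x ∈ w.asIdeal ^ n := by
  rw [← w.intValuation_le_pow_iff_mem, ← w.valuation_of_algebraMap (K := F)]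
  have hx' : (x : F) ≠ 0 := fun h => hx (RingOfIntegers.ext h)
  unfold ord
  rw [← WithZero.log_le_iff_le_exp (v1_ne w hx')]
  constructor <;> intro h <;> linarith

theorem v2_comap_pow (σ : F ≃ₐ[ℚ] F) (n : ℕ) : (cj σ w).asIdeal ^ n =
    (w.asIdeal ^ n).comap (RingOfIntegers.mapRingEquiv (σ : F ≃+* F) : 𝓞 F →+* 𝓞 F) := by
  have h1 : ∀ I : Ideal (𝓞 F),
      I.comap (RingOfIntegers.mapRingEquiv (σ : F ≃+* F) : 𝓞 F →+* 𝓞 F) =
      I.map (RingOfIntegers.mapRingEquiv (σ : F ≃+* F)).symm := fun I =>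
    (Ideal.map_symm (I := I) (RingOfIntegers.mapRingEquiv (σ : F ≃+* F))).symm
  change (w.asIdeal.comap (RingOfIntegers.mapRingEquiv (σ : F ≃+* F) : 𝓞 F →+* 𝓞 F)) ^ n = _
  rw [h1, h1, Ideal.map_pow]

theorem v2_ord_cj_int (σ : F ≃ₐ[ℚ] F) (x : 𝓞 F) : ord (cj σ w) (x : F) = ord w (σ (x : F)) := by
  by_cases hx : x = 0
  · subst hx
    rw [v2_coe_zero, map_zero, v1_ord_zero, v1_ord_zero]
  set y : 𝓞 F := RingOfIntegers.mapRingEquiv (σ : F ≃+* F) x with hy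
  have hyx : (y : F) = σ (x : F) := rfl
  have hy0 : y ≠ 0 := by
    rw [hy]
    exact (map_ne_zero_iff _ (RingEquiv.injective _)).2 hx
  rw [← hyx]
  have key : ∀ n : ℕ, (n : ℤ) ≤ ord (cj σ w) (x : F) ↔ (n : ℤ) ≤ ord w (y : F) := by
    intro n
    rw [v2_le_iff _ hx, v2_le_iff _ hy0, v2_comap_pow]
    exact Iff.rfl
  have h1 := ord_int_nonneg (cj σ w) x
  have h2 := ord_int_nonneg w y
  have h3 := (key (ord (cj σ w) (x : F)).toNat).1 (by rw [Int.toNat_of_nonneg h1])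
  have h4 := (key (ord w (y : F)).toNat).2 (by rw [Int.toNat_of_nonneg h2])
  rw [Int.toNat_of_nonneg h1] at h3
  rw [Int.toNat_of_nonneg h2] at h4
  exact le_antisymm h3 h4

/-- conjugation -/
theorem ord_cj (σ : F ≃ₐ[ℚ] F) (x : F) : ord (cj σ w) x = ord w (σ x) := by
  by_cases hx : x = 0
  · subst hx
    rw [map_zero, v1_ord_zero, v1_ord_zero]
  obtain ⟨a, b, hb, hab⟩ := IsFractionRing.div_surjective (A := 𝓞 F) x
  have hb0 : (b : F) ≠ 0 := by
    intro h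
    exact nonZeroDivisors.ne_zero hb (RingOfIntegers.ext h)
  have ha0 : (a : F) ≠ 0 := by
    intro h
    apply hx
    rw [← hab]
    have h1 : (algebraMap (𝓞 F) F) a = 0 := h
    rw [h1, zero_div]
  have hxab : x = (a : F) / (b : F) := hab.symm
  rw [hxab, map_div₀, ord_div _ ha0 hb0, ord_div _ ((map_ne_zero σ).2 ha0) ((map_ne_zero σ).2 hb0),
    v2_ord_cj_int, v2_ord_cj_int]

theorem cj_cj (σ τ : F ≃ₐ[ℚ] F) : cj σ (cj τ w) = cj (τ * σ) w := by
  apply HeightOneSpectrum.ext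
  ext x
  exact Iff.rfl

theorem mem_cj_iff (σ : F ≃ₐ[ℚ] F) (n : ℕ) :
    (n : 𝓞 F) ∈ (cj σ w).asIdeal ↔ (n : 𝓞 F) ∈ w.asIdeal := by
  change (n : 𝓞 F) ∈
    w.asIdeal.comap (RingOfIntegers.mapRingEquiv (σ : F ≃+* F) : 𝓞 F →+* 𝓞 F) ↔ _
  rw [Ideal.mem_comap, map_natCast]

theorem v2_primesOver {p : ℕ} (hp : p.Prime) (hw : (p : 𝓞 F) ∈ w.asIdeal) :
    w.asIdeal ∈ Ideal.primesOver (Ideal.span {(p : ℤ)}) (𝓞 F) := by
  refine ⟨w.isPrime, ⟨?_⟩⟩
  have hmax : (Ideal.span {(p : ℤ)}).IsMaximal :=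
    PrincipalIdealRing.isMaximal_of_irreducible (Nat.prime_iff_prime_int.1 hp).irreducible
  have h1 : Ideal.span {(p : ℤ)} ≤ w.asIdeal.under ℤ := by
    rw [Ideal.span_singleton_le_iff_mem]
    change algebraMap ℤ (𝓞 F) (p : ℤ) ∈ w.asIdeal
    simpa using hw
  have h2 : w.asIdeal.under ℤ ≠ ⊤ := by
    intro h
    have h3 : (1 : ℤ) ∈ w.asIdeal.under ℤ := by rw [h]; trivial
    have h4 : algebraMap ℤ (𝓞 F) 1 ∈ w.asIdeal := h3
    rw [map_one] at h4
    exact w.isPrime.ne_top ((Ideal.eq_top_iff_one _).2 h4)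
  exact hmax.eq_of_le h2 h1

/-- the Galois group acts transitively on the primes above `p` -/
theorem exists_cj [IsGalois ℚ F] {p : ℕ} (hp : p.Prime) {w w' : HeightOneSpectrum (𝓞 F)}
    (hw : (p : 𝓞 F) ∈ w.asIdeal) (hw' : (p : 𝓞 F) ∈ w'.asIdeal) :
    ∃ σ : F ≃ₐ[ℚ] F, w' = cj σ w := by
  obtain ⟨σ, hσ⟩ := Ideal.exists_comap_galRestrict_eq ℤ ℚ F (𝓞 F) (v2_primesOver w hp hw)
    (v2_primesOver w' hp hw')
  refine ⟨σ, ?_⟩
  apply HeightOneSpectrum.ext
  rw [← hσ]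
  ext x
  change galRestrict ℤ ℚ F (𝓞 F) σ x ∈ w.asIdeal ↔
    RingOfIntegers.mapRingEquiv (σ : F ≃+* F) x ∈ w.asIdeal
  have h1 : galRestrict ℤ ℚ F (𝓞 F) σ x = RingOfIntegers.mapRingEquiv (σ : F ≃+* F) x := by
    apply RingOfIntegers.ext
    exact algebraMap_galRestrict_apply ℤ σ x
  rw [h1]

end Ord

end H16A
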