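import Pool.Agent.Lib.H16A.C1
import Pool.Agent.Lib.H16A.C3
import Pool.Agent.Lib.H16A.V2

/-!
# C5 (M/L): the places above a prime `p ∈ T`

`K` a number field, `δ ∈ K`, `δ² = D`, `p ∥ D`, `p ∤ 2 disc f`, `f` has three distinct roots modulo `p`,
`v` a place of `K` above `p`.  Claim (`loc_ramified`): EVERY unit `h` of `ℚ[θ]` of square norm goes to
`imSub K_v`.

Proof.  (1) Valuations at `v` of rational numbers are even: `v(p) + v(D/p) = v(D) = 2 v(δ)`, `D/p` is
prime to `p`.
(2) By Hensel (`exists_root_lift`) the roots `m_i` of `f` modulo `p` lift to roots `ε_i ∈ O_v` of `f`,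
distinct modulo the maximal ideal; and for every `N` there are integers `m_{i,N}` with
`m_{i,N} ≡ m_i` mod `p` and `f(m_{i,N}) ≡ 0` mod `p^N` (Hensel in `ℤ`); since
`f(m_{i,N}) - f(ε_i) = (m_{i,N} - ε_i) · (unit)` (the other two factors `m_{i,N} - ε_j` are units),
`m_{i,N} ≡ ε_i` mod `p^N O_v`.
(3) `h = q(θ)`, `q ∈ ℚ[X]`; `q(ε_i) ≠ 0` (unit), and for large `N`, `q(m_{i,N}) - q(ε_i)` is divisible by a
large power of `p`, so `v(q(ε_i)) = v(q(m_{i,N}))`, which is even by (1): `v(q(ε_i)) = 2 k_i`.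
(4) Let `π` be a uniformizer of `K_v` and `ι_i = ∏_{j ≠ i} (θ - ε_j)/(ε_i - ε_j) ∈ O_v[θ]` the idempotents
(`f = ∏ (X - ε_i)`, the differences are units of `O_v`).  `t = Σ π^{-k_i} ι_i` is a unit of `K_v[θ]`
(inverse `Σ π^{k_i} ι_i`), `h t² = Σ q(ε_i) π^{-2 k_i} ι_i` and its inverse lie in `O_v[θ]`, so `h t²` comes
from a unit of `O_v[θ]`, of square norm.  By `loc_unit` (C3) it is in `imSub K_v`, and so is `h`.
-/

open Polynomial IsDedekindDomain NumberField

namespace H16A
namespace Cub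

variable (E : Cub)

/-- Lagrange interpolation at three points -/
theorem c5_lagrange {A : Type*} [CommRing A] (t e₀ e₁ e₂ V : A)
    (ht : (t - e₀) * (t - e₁) * (t - e₂) = 0)
    (hV : (e₀ - e₁) * (e₀ - e₂) * (e₁ - e₂) * V = 1) :
    ∃ i₀ i₁ i₂ : A, i₀ + i₁ + i₂ = 1 ∧ i₀ * i₀ = i₀ ∧ i₁ * i₁ = i₁ ∧ i₂ * i₂ = i₂ ∧ i₀ * i₁ = 0 ∧
      i₀ * i₂ = 0 ∧ i₁ * i₂ = 0 ∧ t * i₀ = e₀ * i₀ ∧ t * i₁ = e₁ * i₁ ∧ t * i₂ = e₂ * i₂ ∧
      i₀ = (t - e₁) * (t - e₂) * (e₁ - e₂) * V ∧ i₁ = -((t - e₀) * (t - e₂) * (e₀ - e₂) * V) ∧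
      i₂ = (t - e₀) * (t - e₁) * (e₀ - e₁) * V := by
  have h0 : t * ((t - e₁) * (t - e₂) * (e₁ - e₂) * V) =
      e₀ * ((t - e₁) * (t - e₂) * (e₁ - e₂) * V) := by
    linear_combination ((e₁ - e₂) * V) * ht
  have h1 : t * (-((t - e₀) * (t - e₂) * (e₀ - e₂) * V)) =
      e₁ * (-((t - e₀) * (t - e₂) * (e₀ - e₂) * V)) := by
    linear_combination (-(e₀ - e₂) * V) * ht
  have h2 : t * ((t - e₀) * (t - e₁) * (e₀ - e₁) * V) =
      e₂ * ((t - e₀) * (t - e₁) * (e₀ - e₁) * V) := by
    linear_combination ((e₀ - e₁) * V) * ht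
  have h01 : ((t - e₁) * (t - e₂) * (e₁ - e₂) * V) * (-((t - e₀) * (t - e₂) * (e₀ - e₂) * V)) = 0 := by
    linear_combination (-(t - e₂) * (e₁ - e₂) * V * (e₀ - e₂) * V) * ht
  have h02 : ((t - e₁) * (t - e₂) * (e₁ - e₂) * V) * ((t - e₀) * (t - e₁) * (e₀ - e₁) * V) = 0 := by
    linear_combination ((t - e₁) * (e₁ - e₂) * V * (e₀ - e₁) * V) * ht
  have h12 : (-((t - e₀) * (t - e₂) * (e₀ - e₂) * V)) * ((t - e₀) * (t - e₁) * (e₀ - e₁) * V) = 0 := by
    linear_combination (-(t - e₀) * (e₀ - e₂) * V * (e₀ - e₁) * V) * ht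
  have hs : ((t - e₁) * (t - e₂) * (e₁ - e₂) * V) + (-((t - e₀) * (t - e₂) * (e₀ - e₂) * V)) +
      ((t - e₀) * (t - e₁) * (e₀ - e₁) * V) = 1 := by
    linear_combination hV
  refine ⟨_, _, _, hs, ?_, ?_, ?_, h01, h02, h12, h0, h1, h2, rfl, rfl, rfl⟩
  · linear_combination ((t - e₁) * (t - e₂) * (e₁ - e₂) * V) * hs - h01 - h02
  · linear_combination (-((t - e₀) * (t - e₂) * (e₀ - e₂) * V)) * hs - h01 - h12
  · linear_combination ((t - e₀) * (t - e₁) * (e₀ - e₁) * V) * hs - h02 - h12

/-- three roots with invertible differences -/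
theorem c5_poly_roots {R : Type*} [CommRing R] (e : Fin 3 → R) (he : ∀ i, E.val (e i) = 0) (V : R)
    (hV : (e 0 - e 1) * (e 0 - e 2) * (e 1 - e 2) * V = 1) :
    (E.a : R) = -(e 0 + e 1 + e 2) ∧ (E.b : R) = e 0 * e 1 + e 0 * e 2 + e 1 * e 2 ∧
      (E.c : R) = -(e 0 * e 1 * e 2) := by
  have h0 := he 0
  have h1 := he 1
  have h2 := he 2
  unfold val at h0 h1 h2
  have u01 : IsUnit (e 0 - e 1) := by
    apply isUnit_of_mul_isUnit_left (y := (e 0 - e 2) * (e 1 - e 2) * V)
    rw [show (e 0 - e 1) * ((e 0 - e 2) * (e 1 - e 2) * V) = 1 by linear_combination hV]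
    exact isUnit_one
  have u02 : IsUnit (e 0 - e 2) := by
    apply isUnit_of_mul_isUnit_left (y := (e 0 - e 1) * (e 1 - e 2) * V)
    rw [show (e 0 - e 2) * ((e 0 - e 1) * (e 1 - e 2) * V) = 1 by linear_combination hV]
    exact isUnit_one
  have u12 : IsUnit (e 1 - e 2) := by
    apply isUnit_of_mul_isUnit_left (y := (e 0 - e 1) * (e 0 - e 2) * V)
    rw [show (e 1 - e 2) * ((e 0 - e 1) * (e 0 - e 2) * V) = 1 by linear_combination hV]
    exact isUnit_one
  have a1 : e 0 ^ 2 + e 0 * e 1 + e 1 ^ 2 + E.a * (e 0 + e 1) + E.b = 0 := by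
    apply u01.mul_left_cancel
    linear_combination h0 - h1
  have a2 : e 0 ^ 2 + e 0 * e 2 + e 2 ^ 2 + E.a * (e 0 + e 2) + E.b = 0 := by
    apply u02.mul_left_cancel
    linear_combination h0 - h2
  have a3 : e 0 + e 1 + e 2 + E.a = 0 := by
    apply u12.mul_left_cancel
    linear_combination a1 - a2
  have ha : (E.a : R) = -(e 0 + e 1 + e 2) := by linear_combination a3
  have hb : (E.b : R) = e 0 * e 1 + e 0 * e 2 + e 1 * e 2 := by
    rw [ha] at a1
    linear_combination a1
  refine ⟨ha, hb, ?_⟩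
  rw [ha, hb] at h0
  linear_combination h0

theorem c5_th_prod {R : Type*} [CommRing R] (e : Fin 3 → R) (he : ∀ i, E.val (e i) = 0) (V : R)
    (hV : (e 0 - e 1) * (e 0 - e 2) * (e 1 - e 2) * V = 1) :
    (E.th R - algebraMap R (E.Alg R) (e 0)) * (E.th R - algebraMap R (E.Alg R) (e 1)) *
      (E.th R - algebraMap R (E.Alg R) (e 2)) = 0 := by
  obtain ⟨ha, hb, hc⟩ := E.c5_poly_roots e he V hV
  have ha' := congrArg (algebraMap R (E.Alg R)) ha
  have hb' := congrArg (algebraMap R (E.Alg R)) hb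
  have hc' := congrArg (algebraMap R (E.Alg R)) hc
  simp only [map_neg, map_add, map_mul, map_intCast] at ha' hb' hc'
  have h := E.c3_th (R := R)
  rw [ha', hb', hc'] at h
  linear_combination h

/-- the ring homomorphism of Lagrange interpolation -/
structure C5Lag {R : Type*} [CommRing R] (e : Fin 3 → R) (ψ : (Fin 3 → R) → E.Alg R) : Prop where
  mul : ∀ r s, ψ (r * s) = ψ r * ψ s
  one : ψ 1 = 1
  ev : ∀ α β γ : R, ψ (fun i => α + β * e i + γ * e i ^ 2) = algebraMap R (E.Alg R) α +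
    algebraMap R (E.Alg R) β * E.th R + algebraMap R (E.Alg R) γ * E.th R ^ 2

/-- the interpolation map -/
noncomputable def c5psi {R : Type*} [CommRing R] (e : Fin 3 → R) (V : R) (r : Fin 3 → R) : E.Alg R :=
  algebraMap R (E.Alg R) (r 0) * ((E.th R - algebraMap R (E.Alg R) (e 1)) *
    (E.th R - algebraMap R (E.Alg R) (e 2)) * (algebraMap R (E.Alg R) (e 1) -
      algebraMap R (E.Alg R) (e 2)) * algebraMap R (E.Alg R) V) +
  algebraMap R (E.Alg R) (r 1) * (-((E.th R - algebraMap R (E.Alg R) (e 0)) *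
    (E.th R - algebraMap R (E.Alg R) (e 2)) * (algebraMap R (E.Alg R) (e 0) -
      algebraMap R (E.Alg R) (e 2)) * algebraMap R (E.Alg R) V)) +
  algebraMap R (E.Alg R) (r 2) * ((E.th R - algebraMap R (E.Alg R) (e 0)) *
    (E.th R - algebraMap R (E.Alg R) (e 1)) * (algebraMap R (E.Alg R) (e 0) -
      algebraMap R (E.Alg R) (e 1)) * algebraMap R (E.Alg R) V)

theorem c5_lag {R : Type*} [CommRing R] (e : Fin 3 → R) (he : ∀ i, E.val (e i) = 0) (V : R)
    (hV : (e 0 - e 1) * (e 0 - e 2) * (e 1 - e 2) * V = 1) : C5Lag E e (E.c5psi e V) := by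
  have hV' := congrArg (algebraMap R (E.Alg R)) hV
  simp only [map_mul, map_sub, map_one] at hV'
  obtain ⟨i₀, i₁, i₂, hs, h00, h11, h22, h01, h02, h12, t0, t1, t2, d0, d1, d2⟩ :=
    c5_lagrange _ _ _ _ _ (E.c5_th_prod e he V hV) hV'
  refine ⟨fun r s => ?_, ?_, fun α β γ => ?_⟩
  · unfold c5psi
    rw [← d0, ← d1, ← d2]
    simp only [Pi.mul_apply, map_mul]
    generalize algebraMap R (E.Alg R) (r 0) = x0
    generalize algebraMap R (E.Alg R) (r 1) = x1
    generalize algebraMap R (E.Alg R) (r 2) = x2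
    generalize algebraMap R (E.Alg R) (s 0) = y0
    generalize algebraMap R (E.Alg R) (s 1) = y1
    generalize algebraMap R (E.Alg R) (s 2) = y2
    linear_combination -(x0 * y0) * h00 - (x1 * y1) * h11 - (x2 * y2) * h22 -
      (x0 * y1 + x1 * y0) * h01 - (x0 * y2 + x2 * y0) * h02 - (x1 * y2 + x2 * y1) * h12
  · unfold c5psi
    rw [← d0, ← d1, ← d2]
    simp only [Pi.one_apply, map_one]
    linear_combination hs
  · unfold c5psi
    rw [← d0, ← d1, ← d2]
    simp only [map_mul, map_add, map_pow]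
    generalize algebraMap R (E.Alg R) α = x0 at *
    generalize algebraMap R (E.Alg R) β = x1 at *
    generalize algebraMap R (E.Alg R) γ = x2 at *
    generalize algebraMap R (E.Alg R) (e 0) = e0 at *
    generalize algebraMap R (E.Alg R) (e 1) = e1 at *
    generalize algebraMap R (E.Alg R) (e 2) = e2 at *
    generalize E.th R = t at *
    linear_combination (x0 + x1 * t + x2 * t ^ 2) * hs - (x1 + x2 * (t + e0)) * t0 -
      (x1 + x2 * (t + e1)) * t1 - (x1 + x2 * (t + e2)) * t2

theorem c5_psi_map {R R' : Type*} [CommRing R] [CommRing R'] (φ : R →+* R') (e : Fin 3 → R) (V : R)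
    (r : Fin 3 → R) :
    E.algMap φ (E.c5psi e V r) = E.c5psi (fun i => φ (e i)) (φ V) (fun i => φ (r i)) := by
  unfold c5psi
  simp only [map_add, map_mul, map_sub, map_neg, c3_algMap_al, c3_algMap_th]

/-- Hensel's lemma in the integers -/
theorem c5_hensel_int {p : ℕ} (m s : ℤ) (h0 : (p : ℤ) ∣ E.val m)
    (hs : (p : ℤ) ∣ s * E.der m - 1) (N : ℕ) :
    ∃ m' : ℤ, (p : ℤ) ^ (N + 1) ∣ E.val m' ∧ (p : ℤ) ∣ m' - m := by
  induction N with
  | zero => exact ⟨m, by simpa using h0, by simp⟩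
  | succ N ih =>
    obtain ⟨m', ⟨t, ht⟩, ⟨r, hr⟩⟩ := ih
    have hm' : m' = m + p * r := by linarith
    have hder : (p : ℤ) ∣ s * E.der m' - 1 := by
      have h1 : s * E.der m' - 1 = (s * E.der m - 1) +
          p * (s * (3 * (2 * m * r + p * r ^ 2) + 2 * E.a * r)) := by
        rw [hm']
        unfold der
        simp only [Int.cast_id]
        ring
      rw [h1]
      exact dvd_add hs (dvd_mul_right _ _)
    obtain ⟨q, hq⟩ := hder
    refine ⟨m' - s * E.val m', ?_, ?_⟩
    · have key : ∀ w : ℤ, E.val (m' - s * w) = E.val m' - w * s * E.der m' +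
          (s * w) ^ 2 * (3 * m' + E.a - s * w) := by
        intro w
        unfold val der
        simp only [Int.cast_id]
        ring
      rw [key, show E.val m' - E.val m' * s * E.der m' = -(E.val m' * (s * E.der m' - 1)) by ring, hq]
      have h4 : E.val m' = (p : ℤ) ^ (N + 1) * t := ht
      refine dvd_add (Dvd.dvd.neg_right ⟨t * q, ?_⟩) (Dvd.dvd.mul_right ?_ _)
      · rw [h4, pow_succ (p : ℤ) (N + 1)]
        ring
      · rw [h4]
        refine ⟨s ^ 2 * t ^ 2 * (p : ℤ) ^ N, ?_⟩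
        rw [pow_succ (p : ℤ) (N + 1), pow_succ (p : ℤ) N]
        ring
    · have h3 : m' - s * E.val m' - m = (m' - m) - s * E.val m' := by ring
      rw [h3]
      refine dvd_sub ⟨r, hr⟩ (Dvd.dvd.mul_left ?_ _)
      rw [ht]
      exact Dvd.dvd.mul_right (dvd_pow_self _ (by omega)) _

section Local

variable {K : Type*} [Field K] [NumberField K] (v : HeightOneSpectrum (𝓞 K))

theorem c5_ord_zpow (x : K) (n : ℤ) : ord v (x ^ n) = n * ord v x := by
  unfold ord
  rw [map_zpow₀, WithZero.log_zpow]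
  simp

theorem c5_val_one {x : K} (hx : x ≠ 0) (h : ord v x = 0) : v.valuation K x = 1 := by
  unfold ord at h
  have h1 : (v.valuation K x).log = 0 := by linarith
  have h2 : v.valuation K x ≠ 0 := (Valuation.ne_zero_iff _).2 hx
  rw [← WithZero.exp_log h2, h1, WithZero.exp_zero]

theorem c5_val_rat {δ : K} {D : ℤ} (hδ : δ ^ 2 = (D : K)) {p : ℕ} (hp : p.Prime)
    (hv : (p : 𝓞 K) ∈ v.asIdeal) (hpD : (p : ℤ) ∣ D) (hpD2 : ¬ (p : ℤ) ^ 2 ∣ D) {q : ℚ}
    (hq : q ≠ 0) :
    ∃ c : v.adicCompletion K, c ≠ 0 ∧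
      Valued.v (algebraMap ℚ (v.adicCompletion K) q * c ^ 2) = 1 := by
  have hD0 : D ≠ 0 := by
    rintro rfl
    exact hpD2 (dvd_zero _)
  have hδ0 : δ ≠ 0 := by
    rintro rfl
    rw [zero_pow two_ne_zero] at hδ
    exact hD0 (by exact_mod_cast hδ.symm)
  have hfact : Fact p.Prime := ⟨hp⟩
  have hval : padicValInt p D = 1 := by
    have h1 := (padicValInt_dvd_iff (p := p) 1 D).1 (by simpa using hpD)
    have h2 : ¬ (D = 0 ∨ 2 ≤ padicValInt p D) := fun h => hpD2 ((padicValInt_dvd_iff 2 D).2 h)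
    push Not at h2
    rcases h1 with h1 | h1
    · exact absurd h1 hD0
    · omega
  have h3 : ord v (((D : ℚ) : ℚ) : K) = 1 * ord v (p : K) := by
    rw [ord_rat v hp hv (D : ℚ), padicValRat.of_int, hval]
    simp
  have h4 : 2 * ord v δ = ord v (p : K) := by
    have h5 : ord v (δ ^ 2) = 2 * ord v δ := by
      rw [ord_pow]
      norm_num
    rw [← h5, hδ]
    rw [one_mul] at h3
    rw [← h3]
    congr 1
    simp
  have hqK : ((q : ℚ) : K) ≠ 0 := by exact_mod_cast hq
  have hcK : (δ ^ (-padicValRat p q)) ≠ 0 := zpow_ne_zero _ hδ0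
  refine ⟨algebraMap K (v.adicCompletion K) (δ ^ (-padicValRat p q)), ?_, ?_⟩
  · rw [Ne, map_eq_zero]
    exact hcK
  · have h6 : algebraMap ℚ (v.adicCompletion K) q = algebraMap K (v.adicCompletion K) (q : K) := by
      rw [eq_ratCast, map_ratCast]
    rw [h6, ← map_pow, ← map_mul]
    have h7 : Valued.v (algebraMap K (v.adicCompletion K) ((q : K) *
        (δ ^ (-padicValRat p q)) ^ 2)) = v.valuation K ((q : K) * (δ ^ (-padicValRat p q)) ^ 2) :=
      HeightOneSpectrum.valuedAdicCompletion_eq_valuation' v _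
    rw [h7]
    apply c5_val_one v (mul_ne_zero hqK (pow_ne_zero _ hcK))
    rw [ord_mul v hqK (pow_ne_zero _ hcK), ord_pow, c5_ord_zpow, ord_rat v hp hv, ← h4]
    push_cast
    ring

theorem c5_residue_intCast {p : ℕ} (hv : (p : 𝓞 K) ∈ v.asIdeal) {n : ℤ} (hn : (p : ℤ) ∣ n) :
    IsLocalRing.residue (v.adicCompletionIntegers K) (n : v.adicCompletionIntegers K) = 0 := by
  obtain ⟨k, rfl⟩ := hn
  rw [IsLocalRing.residue_eq_zero_iff]
  push_cast
  exact Ideal.mul_mem_right _ _ (natCast_mem_maximalIdeal v hv)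

theorem c5_residue_intCast_ne {p : ℕ} (hp : p.Prime) (hv : (p : 𝓞 K) ∈ v.asIdeal) {n : ℤ}
    (hn : ¬ (p : ℤ) ∣ n) :
    IsLocalRing.residue (v.adicCompletionIntegers K) (n : v.adicCompletionIntegers K) ≠ 0 := by
  rw [IsLocalRing.residue_ne_zero_iff_isUnit]
  exact isUnit_intCast v hp hv hn

theorem c5_val_lt {p : ℕ} (hv : (p : 𝓞 K) ∈ v.asIdeal) :
    Valued.v (p : v.adicCompletion K) < 1 := by
  have h1 := natCast_mem_maximalIdeal v hv
  have h2 : Valued.v ((p : v.adicCompletionIntegers K) : v.adicCompletion K) ≠ 1 := by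
    intro h3
    have h4 := HeightOneSpectrum.adicCompletionIntegers.isUnit_iff_valued_eq_one.2 h3
    exact ((IsLocalRing.mem_maximalIdeal _).1 h1) h4
  have h5 : Valued.v ((p : v.adicCompletionIntegers K) : v.adicCompletion K) ≤ 1 :=
    (p : v.adicCompletionIntegers K).2
  have h6 := lt_of_le_of_ne h5 h2
  simpa using h6

theorem c5_approx {p : ℕ} (hp : p.Prime) (hv : (p : 𝓞 K) ∈ v.asIdeal)
    (m : ℤ) (h0 : (p : ℤ) ∣ E.val m) (hder : ¬ (p : ℤ) ∣ E.der m)
    (e : v.adicCompletionIntegers K) (he : E.val e = 0)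
    (hem : IsLocalRing.residue _ e = IsLocalRing.residue _ (m : v.adicCompletionIntegers K)) (N : ℕ) :
    ∃ m' : ℤ, Valued.v ((e : v.adicCompletion K) - (m' : v.adicCompletion K)) ≤
      (Valued.v (p : v.adicCompletion K)) ^ (N + 1) := by
  have hcop : IsCoprime (E.der m) (p : ℤ) := by
    rw [isCoprime_comm]
    exact (Nat.prime_iff_prime_int.1 hp).coprime_iff_not_dvd.2 hder
  obtain ⟨s, t, hst⟩ := hcop
  obtain ⟨m', ⟨k, hk⟩, hm'⟩ := E.c5_hensel_int (p := p) m s h0 ⟨-t, by linear_combination hst⟩ N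
  refine ⟨m', ?_⟩
  have hres : IsLocalRing.residue _ (m' : v.adicCompletionIntegers K) =
      IsLocalRing.residue _ (m : v.adicCompletionIntegers K) := by
    rw [← sub_eq_zero, ← map_sub]
    have h1 := c5_residue_intCast v hv hm'
    push_cast at h1
    exact h1
  obtain ⟨G, hG⟩ : ∃ G : v.adicCompletionIntegers K,
    G = (m' : v.adicCompletionIntegers K) ^ 2 + m' * e + e ^ 2 + E.a * (m' + e) + E.b := ⟨_, rfl⟩
  have h2 : (e - m') * G = -E.val (m' : v.adicCompletionIntegers K) := by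
    rw [hG]
    unfold val at he ⊢
    linear_combination he
  have hGu : IsUnit G := by
    rw [← IsLocalRing.residue_ne_zero_iff_isUnit, hG]
    have h3 : IsLocalRing.residue _ ((m' : v.adicCompletionIntegers K) ^ 2 + m' * e + e ^ 2 +
        E.a * (m' + e) + E.b) = IsLocalRing.residue _ (E.der (m : v.adicCompletionIntegers K)) := by
      unfold der
      simp only [map_add, map_mul, map_pow]
      rw [hem, hres]
      simp only [map_ofNat]
      ring
    rw [h3]
    have h4 := c5_residue_intCast_ne v hp hv hder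
    have h5 : ((E.der m : ℤ) : v.adicCompletionIntegers K) =
        E.der (m : v.adicCompletionIntegers K) := by
      unfold der
      push_cast
      ring
    rwa [h5] at h4
  have hGv : Valued.v (G : v.adicCompletion K) = 1 :=
    HeightOneSpectrum.adicCompletionIntegers.isUnit_iff_valued_eq_one.1 hGu
  have h6 : ((e : v.adicCompletion K) - (m' : v.adicCompletion K)) * (G : v.adicCompletion K) =
      -((p : v.adicCompletion K) ^ (N + 1) * (k : v.adicCompletion K)) := by
    have h7 : E.val (m' : v.adicCompletionIntegers K) = (p : v.adicCompletionIntegers K) ^ (N + 1) * k := by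
      have h8 : ((E.val m' : ℤ) : v.adicCompletionIntegers K) = E.val (m' : v.adicCompletionIntegers K) := by
        unfold val
        push_cast
        ring
      rw [← h8, hk]
      push_cast
      ring
    rw [h7] at h2
    have h9 := congrArg (Subtype.val) h2
    simpa using h9
  have h10 := congrArg Valued.v h6
  rw [map_mul, hGv, mul_one, Valuation.map_neg, map_mul, map_pow] at h10
  rw [h10]
  have h11 : Valued.v (k : v.adicCompletion K) ≤ 1 := by
    have h12 : Valued.v ((k : v.adicCompletionIntegers K) : v.adicCompletion K) ≤ 1 :=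
      (k : v.adicCompletionIntegers K).2
    simpa using h12
  exact mul_le_of_le_one_right' h11

theorem c5_comp {δ : K} {D : ℤ} (hδ : δ ^ 2 = (D : K)) {p : ℕ} (hp : p.Prime)
    (hv : (p : 𝓞 K) ∈ v.asIdeal) (hpD : (p : ℤ) ∣ D) (hpD2 : ¬ (p : ℤ) ^ 2 ∣ D)
    (m : ℤ) (h0 : (p : ℤ) ∣ E.val m) (hder : ¬ (p : ℤ) ∣ E.der m)
    (e : v.adicCompletionIntegers K) (he : E.val e = 0)
    (hem : IsLocalRing.residue _ e = IsLocalRing.residue _ (m : v.adicCompletionIntegers K))
    (α β γ : ℚ) (h : v.adicCompletion K) (hh : h = algebraMap ℚ (v.adicCompletion K) α +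
      algebraMap ℚ (v.adicCompletion K) β * (e : v.adicCompletion K) +
      algebraMap ℚ (v.adicCompletion K) γ * (e : v.adicCompletion K) ^ 2) (hne : h ≠ 0) :
    ∃ c : v.adicCompletion K, c ≠ 0 ∧ Valued.v (h * c ^ 2) = 1 := by
  obtain ⟨M, hM⟩ : ∃ M, M = max 1 (max (Valued.v (algebraMap ℚ (v.adicCompletion K) β))
    (Valued.v (algebraMap ℚ (v.adicCompletion K) γ))) := ⟨_, rfl⟩
  have hM1 : 1 ≤ M := by rw [hM]; exact le_max_left _ _
  have hMb : Valued.v (algebraMap ℚ (v.adicCompletion K) β) ≤ M := by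
    rw [hM]; exact (le_max_left _ _).trans (le_max_right _ _)
  have hMc : Valued.v (algebraMap ℚ (v.adicCompletion K) γ) ≤ M := by
    rw [hM]; exact (le_max_right _ _).trans (le_max_right _ _)
  have hM0 : M ≠ 0 := (zero_lt_one.trans_le hM1).ne'
  have hv0 : Valued.v h ≠ 0 := (Valuation.ne_zero_iff _).2 hne
  obtain ⟨n, hn⟩ := exists_pow_lt₀ (c5_val_lt v hv) (Units.mk0 (Valued.v h / M) (div_ne_zero hv0 hM0))
  rw [Units.val_mk0] at hn
  obtain ⟨m', hm'⟩ := E.c5_approx v hp hv m h0 hder e he hem n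
  obtain ⟨q, hq⟩ : ∃ q : ℚ, q = α + β * m' + γ * m' ^ 2 := ⟨_, rfl⟩
  have hdiff : algebraMap ℚ (v.adicCompletion K) q - h =
      -(((e : v.adicCompletion K) - (m' : v.adicCompletion K)) *
        (algebraMap ℚ (v.adicCompletion K) β + algebraMap ℚ (v.adicCompletion K) γ *
          ((e : v.adicCompletion K) + (m' : v.adicCompletion K)))) := by
    rw [hq, hh]
    simp only [map_add, map_mul, map_pow, map_intCast]
    ring
  have hes : Valued.v ((e : v.adicCompletion K) + (m' : v.adicCompletion K)) ≤ 1 := by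
    have h1 : Valued.v (((e + (m' : v.adicCompletionIntegers K) : v.adicCompletionIntegers K)) :
      v.adicCompletion K) ≤ 1 := (e + (m' : v.adicCompletionIntegers K)).2
    simpa using h1
  have hbr : Valued.v (algebraMap ℚ (v.adicCompletion K) β + algebraMap ℚ (v.adicCompletion K) γ *
          ((e : v.adicCompletion K) + (m' : v.adicCompletion K))) ≤ M := by
    refine Valuation.map_add_le _ hMb ?_
    rw [map_mul]
    exact (mul_le_of_le_one_right' hes).trans hMc
  have hlt : Valued.v (algebraMap ℚ (v.adicCompletion K) q - h) < Valued.v h := by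
    rw [hdiff, Valuation.map_neg, map_mul]
    have h2 : Valued.v ((e : v.adicCompletion K) - (m' : v.adicCompletion K)) < Valued.v h / M := by
      refine hm'.trans_lt (lt_of_le_of_lt ?_ hn)
      rw [pow_succ]
      exact mul_le_of_le_one_right' (c5_val_lt v hv).le
    calc _ ≤ Valued.v ((e : v.adicCompletion K) - (m' : v.adicCompletion K)) * M :=
          mul_le_mul_right hbr _
      _ < Valued.v h := by
          rwa [← lt_div_iff₀ (zero_lt_iff.2 hM0)]
  have heq := Valuation.map_eq_of_sub_lt _ hlt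
  have hq0 : q ≠ 0 := by
    intro h3
    rw [h3, map_zero, map_zero] at heq
    exact hv0 heq.symm
  obtain ⟨c, hc0, hc⟩ := c5_val_rat v hδ hp hv hpD hpD2 hq0
  refine ⟨c, hc0, ?_⟩
  rw [map_mul, ← heq, ← map_mul]
  exact hc

end Local

theorem loc_ramified {K : Type*} [Field K] [NumberField K] (v : HeightOneSpectrum (𝓞 K)) (δ : K)
    (D : ℤ) (hδ : δ ^ 2 = (D : K)) {p : ℕ} (hp : p.Prime) (hv : (p : 𝓞 K) ∈ v.asIdeal)
    (hpD : (p : ℤ) ∣ D) (hpD2 : ¬ (p : ℤ) ^ 2 ∣ D) (hgood : ¬ (p : ℤ) ∣ 2 * E.disc)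
    (hroots : E.RootsMod p) (h : (E.Alg ℚ)ˣ) (hN : IsSquare (Algebra.norm ℚ (h : E.Alg ℚ))) :
    E.uMap (algebraMap ℚ (v.adicCompletion K)) h ∈ E.imSub (v.adicCompletion K) := by
  classical
  have hAC : IsAdicComplete (IsLocalRing.maximalIdeal (v.adicCompletionIntegers K))
      (v.adicCompletionIntegers K) := isAdicComplete_integers v
  have hfin : Finite (IsLocalRing.ResidueField (v.adicCompletionIntegers K)) :=
    finite_residueField v
  have hp2 : ¬ (p : ℤ) ∣ 2 := fun h1 => hgood (h1.mul_right _)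
  have hpd : ¬ (p : ℤ) ∣ E.disc := fun h1 => hgood (h1.mul_left _)
  have h2u : IsUnit (2 : v.adicCompletionIntegers K) := by
    have h1 := isUnit_intCast v hp hv hp2
    simpa using h1
  have hdu : IsUnit ((E.disc : ℤ) : v.adicCompletionIntegers K) := isUnit_intCast v hp hv hpd
  have hdk : ((E.disc : ℤ) : IsLocalRing.ResidueField (v.adicCompletionIntegers K)) ≠ 0 := by
    have h1 := c5_residue_intCast_ne v hp hv hpd
    rwa [map_intCast] at h1
  obtain ⟨m, hm, hmd⟩ := hroots
  have hvalk : ∀ i, E.val (IsLocalRing.residue (v.adicCompletionIntegers K) (m i)) = 0 := by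
    intro i
    have h1 := c5_residue_intCast v hv (hm i)
    have h2 : ((E.val (m i) : ℤ) : v.adicCompletionIntegers K) =
        E.val (m i : v.adicCompletionIntegers K) := by
      unfold val
      push_cast
      ring
    rw [← c3_val_map, ← h2, h1]
  have hderk : ∀ i, E.der (IsLocalRing.residue (v.adicCompletionIntegers K) (m i)) ≠ 0 :=
    fun i => E.der_ne_zero (hvalk i) hdk
  have hder : ∀ i, ¬ (p : ℤ) ∣ E.der (m i) := by
    intro i h1
    have h2 := c5_residue_intCast v hv h1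
    have h3 : ((E.der (m i) : ℤ) : v.adicCompletionIntegers K) =
        E.der (m i : v.adicCompletionIntegers K) := by
      unfold der
      push_cast
      ring
    rw [h3, c3_der_map] at h2
    exact hderk i h2
  -- the roots
  have hroot : ∀ i, ∃ e : v.adicCompletionIntegers K, E.val e = 0 ∧
      IsLocalRing.residue _ e = IsLocalRing.residue _ (m i : v.adicCompletionIntegers K) := by
    intro i
    have hx0 : (E.poly (v.adicCompletionIntegers K)).eval (m i : v.adicCompletionIntegers K) ∈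
        IsLocalRing.maximalIdeal (v.adicCompletionIntegers K) := by
      rw [eval_poly, ← IsLocalRing.residue_eq_zero_iff, c3_val_map]
      exact hvalk i
    have hx1 : IsUnit ((E.poly (v.adicCompletionIntegers K)).derivative.eval
        (m i : v.adicCompletionIntegers K)) := by
      have h5 : (E.poly (v.adicCompletionIntegers K)).derivative.eval
          (m i : v.adicCompletionIntegers K) = E.der (m i : v.adicCompletionIntegers K) := by
        unfold poly der
        simp only [derivative_add, derivative_mul, derivative_X_pow, derivative_C, derivative_X,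
          eval_add, eval_mul, eval_pow, eval_X, eval_C]
        simp
        ring
      rw [h5, ← IsLocalRing.residue_ne_zero_iff_isUnit, c3_der_map]
      exact hderk i
    obtain ⟨e, he, hex⟩ := exists_root_lift (IsLocalRing.maximalIdeal (v.adicCompletionIntegers K))
      (E.poly (v.adicCompletionIntegers K)) (E.poly_monic _) (m i) hx0 hx1
    rw [eval_poly] at he
    refine ⟨e, he, ?_⟩
    rw [← IsLocalRing.residue_eq_zero_iff, map_sub, sub_eq_zero] at hex
    exact hex
  choose e he hem using hroot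
  have hdiff : ∀ i j, i ≠ j → IsUnit (e i - e j) := by
    intro i j hij
    rw [← IsLocalRing.residue_ne_zero_iff_isUnit, map_sub, hem, hem, ← map_sub]
    have h1 := c5_residue_intCast_ne v hp hv (hmd i j hij)
    push_cast at h1
    exact h1
  have hVu : IsUnit ((e 0 - e 1) * (e 0 - e 2) * (e 1 - e 2)) :=
    ((hdiff 0 1 (by decide)).mul (hdiff 0 2 (by decide))).mul (hdiff 1 2 (by decide))
  obtain ⟨V, hV⟩ := hVu.exists_right_inv
  -- the components
  obtain ⟨α, β, γ, habc⟩ := E.c3_coords (h : E.Alg ℚ)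
  obtain ⟨hc, hhc⟩ : ∃ hc : Fin 3 → v.adicCompletion K, hc = fun i =>
      algebraMap ℚ (v.adicCompletion K) α + algebraMap ℚ (v.adicCompletion K) β *
        (e i : v.adicCompletion K) +
      algebraMap ℚ (v.adicCompletion K) γ * (e i : v.adicCompletion K) ^ 2 := ⟨_, rfl⟩
  have heK : ∀ i, E.val (e i : v.adicCompletion K) = 0 := by
    intro i
    have h1 := E.c3_val_map (algebraMap (v.adicCompletionIntegers K) (v.adicCompletion K)) (e i)
    rw [he i, map_zero] at h1
    exact h1.symm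
  have hne : ∀ i, hc i ≠ 0 := by
    intro i h0
    have h1 : E.evAt (algebraMap ℚ (v.adicCompletion K)) (e i : v.adicCompletion K) (heK i)
        (h : E.Alg ℚ) = hc i := by
      rw [habc, hhc]
      have h2 : ∀ r : ℚ, E.evAt (algebraMap ℚ (v.adicCompletion K)) (e i : v.adicCompletion K) (heK i)
          (algebraMap ℚ (E.Alg ℚ) r) = algebraMap ℚ (v.adicCompletion K) r := by
        intro r
        exact AdjoinRoot.lift_of _
      have h3 : E.evAt (algebraMap ℚ (v.adicCompletion K)) (e i : v.adicCompletion K) (heK i)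
          (E.th ℚ) = (e i : v.adicCompletion K) := AdjoinRoot.lift_root _
      rw [map_add, map_add, map_mul, map_mul, map_pow, h2, h2, h2, h3]
    have h4 := h.isUnit.map (E.evAt (algebraMap ℚ (v.adicCompletion K)) (e i : v.adicCompletion K)
      (heK i))
    rw [h1, h0] at h4
    exact not_isUnit_zero h4
  have hcomp : ∀ i, ∃ c : v.adicCompletion K, c ≠ 0 ∧ Valued.v (hc i * c ^ 2) = 1 := by
    intro i
    exact E.c5_comp v hδ hp hv hpD hpD2 (m i) (hm i) (hder i) (e i) (he i) (hem i) α β γ (hc i)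
      (by rw [hhc]) (hne i)
  choose c hc0 hc1 using hcomp
  obtain ⟨s, hs⟩ : ∃ s : Fin 3 → v.adicCompletionIntegers K, ∀ i,
      (s i : v.adicCompletion K) = hc i * c i ^ 2 :=
    ⟨fun i => ⟨hc i * c i ^ 2, (hc1 i).le⟩, fun i => rfl⟩
  obtain ⟨s', hs'⟩ : ∃ s' : Fin 3 → v.adicCompletionIntegers K, ∀ i,
      (s' i : v.adicCompletion K) = (hc i * c i ^ 2)⁻¹ :=
    ⟨fun i => ⟨(hc i * c i ^ 2)⁻¹, by
      rw [HeightOneSpectrum.mem_adicCompletionIntegers, map_inv₀, hc1 i, inv_one]⟩, fun i => rfl⟩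
  have hss : s * s' = 1 := by
    funext i
    apply Subtype.ext
    have h1 : ((s i * s' i : v.adicCompletionIntegers K) : v.adicCompletion K) = 1 := by
      have h2 : ((s i * s' i : v.adicCompletionIntegers K) : v.adicCompletion K) =
        (s i : v.adicCompletion K) * (s' i : v.adicCompletion K) := rfl
      rw [h2, hs, hs']
      exact mul_inv_cancel₀ (mul_ne_zero (hne i) (pow_ne_zero _ (hc0 i)))
    exact h1
  have hL := E.c5_lag e he V hV
  have hUU : E.c5psi e V s * E.c5psi e V s' = 1 := by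
    rw [← hL.mul, hss, hL.one]
  obtain ⟨U, hU⟩ : ∃ U : (E.Alg (v.adicCompletionIntegers K))ˣ,
      (U : E.Alg (v.adicCompletionIntegers K)) = E.c5psi e V s := ⟨Units.mkOfMulEqOne _ _ hUU, rfl⟩
  -- over the completion
  have hVK : ((e 0 : v.adicCompletion K) - e 1) * (e 0 - e 2) * (e 1 - e 2) *
      (V : v.adicCompletion K) = 1 := by
    have h1 := congrArg (Subtype.val) hV
    simpa using h1
  have hLK := E.c5_lag (fun i => (e i : v.adicCompletion K)) heK (V : v.adicCompletion K) hVK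
  have hcc : E.c5psi (fun i => (e i : v.adicCompletion K)) (V : v.adicCompletion K) c *
      E.c5psi (fun i => (e i : v.adicCompletion K)) (V : v.adicCompletion K) (fun i => (c i)⁻¹) = 1 := by
    rw [← hLK.mul, ← hLK.one]
    congr 1
    funext i
    exact mul_inv_cancel₀ (hc0 i)
  obtain ⟨T, hT⟩ : ∃ T : (E.Alg (v.adicCompletion K))ˣ, (T : E.Alg (v.adicCompletion K)) =
      E.c5psi (fun i => (e i : v.adicCompletion K)) (V : v.adicCompletion K) c :=
    ⟨Units.mkOfMulEqOne _ _ hcc, rfl⟩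
  have hhK : E.algMap (algebraMap ℚ (v.adicCompletion K)) (h : E.Alg ℚ) =
      E.c5psi (fun i => (e i : v.adicCompletion K)) (V : v.adicCompletion K) hc := by
    rw [hhc, hLK.ev, habc, map_add, map_add, map_mul, map_mul, map_pow, c3_algMap_al, c3_algMap_al,
      c3_algMap_al, c3_algMap_th]
  have hUK : E.uMap (algebraMap (v.adicCompletionIntegers K) (v.adicCompletion K)) U =
      E.uMap (algebraMap ℚ (v.adicCompletion K)) h * T ^ 2 := by
    apply Units.ext
    rw [Units.val_mul, Units.val_pow_eq_pow_val, hT]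
    have h1 : ((E.uMap (algebraMap (v.adicCompletionIntegers K) (v.adicCompletion K)) U :
        (E.Alg (v.adicCompletion K))ˣ) : E.Alg (v.adicCompletion K)) =
        E.algMap (algebraMap (v.adicCompletionIntegers K) (v.adicCompletion K)) U := rfl
    have h2 : ((E.uMap (algebraMap ℚ (v.adicCompletion K)) h :
        (E.Alg (v.adicCompletion K))ˣ) : E.Alg (v.adicCompletion K)) =
        E.algMap (algebraMap ℚ (v.adicCompletion K)) h := rfl
    rw [h1, h2, hhK, hU, c5_psi_map, sq, ← hLK.mul, ← hLK.mul]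
    congr 1
    funext i
    have h3 := hs i
    simp only [Pi.mul_apply]
    rw [← sq]
    exact h3
  have hNU : IsSquare (Algebra.norm (v.adicCompletion K)
      ((E.uMap (algebraMap (v.adicCompletionIntegers K) (v.adicCompletion K)) U :
        (E.Alg (v.adicCompletion K))ˣ) : E.Alg (v.adicCompletion K))) := by
    rw [hUK, Units.val_mul, Units.val_pow_eq_pow_val, map_mul, map_pow]
    refine IsSquare.mul ?_ ⟨_, sq _⟩
    have h2 : ((E.uMap (algebraMap ℚ (v.adicCompletion K)) h :
        (E.Alg (v.adicCompletion K))ˣ) : E.Alg (v.adicCompletion K)) =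
        E.algMap (algebraMap ℚ (v.adicCompletion K)) h := rfl
    rw [h2, habc, c3_norm]
    have h3 : Algebra.norm ℚ (h : E.Alg ℚ) = E.c3NF α β γ := by
      have h4 := E.c3_norm (RingHom.id ℚ) α β γ
      have h5 : E.algMap (RingHom.id ℚ) = RingHom.id (E.Alg ℚ) := by
        apply AdjoinRoot.ringHom_ext
        · ext r
          exact E.c3_algMap_al (RingHom.id ℚ) r
        · exact E.c3_algMap_th (RingHom.id ℚ)
      rw [h5, RingHom.id_apply, RingHom.id_apply, ← habc] at h4
      exact h4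
    rw [h3] at hN
    exact hN.map (algebraMap ℚ (v.adicCompletion K))
  have hmem := E.loc_unit (K' := v.adicCompletion K) h2u hdu U hNU
  rw [hUK] at hmem
  have hT2 : T ^ 2 ∈ E.imSub (v.adicCompletion K) := by
    apply E.c3_mem_of_sq
    rw [Units.val_pow_eq_pow_val]
    exact ⟨_, sq _⟩
  exact (Subgroup.mul_mem_cancel_right _ hT2).1 hmem

end Cub
end H16A
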