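import Pool.Agent.Lib.H16A.Defs

/-!
# D1 (S/M): group theory

`M` an abelian group with an endomorphism `σ`, `i : X → M` injective with `σ ∘ i = i` and
`m + σ m ∈ i(X)` for all `m`, `j : Y → M` with `{m : σ m = -m} ⊆ j(Y)`.  Then
`[M : 2M] ≤ [X : 2X]² [Y : 2Y]` (all finite).
Proof.  Let `N = {m : m + σ m ∈ i(2X)}`, the kernel of the homomorphism `M → X/2X`,
`m ↦ i⁻¹(m + σ m)`, so `[M : N] ≤ [X : 2X]`.  If `m ∈ N`, `m + σ m = 2 i(r)`, then `m' = m - i(r)`
satisfies `σ m' = -m'`, so `m ∈ i(X) + j(Y)`.  Hence `N ⊆ i(X) + j(Y)` and the image of `N` in `M/2M` is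
contained in the image of `X/2X × Y/2Y`, so it has at most `[X:2X][Y:2Y]` elements; and
`[M : 2M] ≤ [M : N] · |image of N in M/2M|`.
-/

namespace H16A

theorem index_bound {M X Y : Type*} [AddCommGroup M] [AddCommGroup X] [AddCommGroup Y]
    (σ : M →+ M) (i : X →+ M) (j : Y →+ M) (hi : Function.Injective i)
    (h1 : ∀ m, ∃ x, m + σ m = i x) (hσi : ∀ x, σ (i x) = i x)
    (h2 : ∀ m, σ m = -m → ∃ y, m = j y)
    (hX : (twoG X).index ≠ 0) (hY : (twoG Y).index ≠ 0) :
    (twoG M).index ≠ 0 ∧ (twoG M).index ≤ (twoG X).index ^ 2 * (twoG Y).index := by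
  choose t ht using h1
  let tr : M →+ X :=
    { toFun := t
      map_zero' := hi (by rw [← ht, map_zero, map_zero, add_zero])
      map_add' := fun m n => hi (by rw [← ht, map_add, map_add, ← ht, ← ht]; abel) }
  have htr : ∀ m, m + σ m = i (tr m) := ht
  let N : AddSubgroup M := (twoG X).comap tr
  -- the index of `N`
  have hN0 : N.index ≠ 0 ∧ N.index ≤ (twoG X).index := by
    have e : N.index = (twoG X).relIndex tr.range := AddSubgroup.index_comap _ _
    have d : (twoG X).relIndex tr.range ∣ (twoG X).index :=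
      AddSubgroup.relIndex_dvd_index_of_normal _ _
    rw [e]
    exact ⟨fun h0 => hX (by rw [h0] at d; exact zero_dvd_iff.1 d),
      Nat.le_of_dvd (Nat.pos_of_ne_zero hX) d⟩
  -- the sum map
  let f : X × Y →+ M := i.coprod j
  have hf : ((twoG X).prod (twoG Y)) ≤ (twoG M).comap f := by
    rintro ⟨x, y⟩ ⟨⟨x', hx⟩, ⟨y', hy⟩⟩
    have hx2 : x = 2 • x' := hx.symm
    have hy2 : y = 2 • y' := hy.symm
    refine ⟨i x' + j y', ?_⟩
    change 2 • (i x' + j y') = i x + j y
    rw [hx2, hy2, map_nsmul, map_nsmul, smul_add]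
  have hprod : ((twoG X).prod (twoG Y)).index = (twoG X).index * (twoG Y).index :=
    AddSubgroup.index_prod _ _
  have hd : ((twoG M).comap f).index ∣ (twoG X).index * (twoG Y).index := by
    rw [← hprod]
    exact AddSubgroup.index_dvd_of_le hf
  have hR : (twoG M).relIndex f.range ∣ (twoG X).index * (twoG Y).index := by
    rw [← AddSubgroup.index_comap]
    exact hd
  have hR0 : (twoG M).relIndex f.range ≠ 0 := fun h0 => by
    rw [h0] at hR
    exact mul_ne_zero hX hY (zero_dvd_iff.1 hR)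
  have hRle : (twoG M).relIndex f.range ≤ (twoG X).index * (twoG Y).index :=
    Nat.le_of_dvd (Nat.pos_of_ne_zero (mul_ne_zero hX hY)) hR
  have hNR : N ≤ f.range := by
    rintro m ⟨r, hr⟩
    have hr2 : tr m = 2 • r := hr.symm
    have h3 : σ (m - i r) = -(m - i r) := by
      have h4 : σ m = i (2 • r) - m := by rw [← hr2, ← htr]; abel
      rw [map_sub, hσi, h4, two_nsmul, map_add]
      abel
    obtain ⟨y, hy⟩ := h2 _ h3
    refine ⟨(r, y), ?_⟩
    change i r + j y = m
    rw [← hy]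
    abel
  have hNle := AddSubgroup.relIndex_le_of_le_right hNR hR0
  have hNrel0 : (twoG M).relIndex N ≠ 0 :=
    mt (AddSubgroup.relIndex_eq_zero_of_le_right hNR) hR0
  have h2N : twoG M ≤ N := by
    rintro m ⟨m', hm⟩
    have hm2 : m = 2 • m' := hm.symm
    refine ⟨tr m', ?_⟩
    change 2 • tr m' = tr m
    rw [hm2, map_nsmul]
  have hmul := AddSubgroup.relIndex_mul_index h2N
  rw [← hmul]
  refine ⟨mul_ne_zero hNrel0 hN0.1, ?_⟩
  calc (twoG M).relIndex N * N.index
      ≤ ((twoG X).index * (twoG Y).index) * (twoG X).index :=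
        Nat.mul_le_mul (hNle.trans hRle) hN0.2
    _ = (twoG X).index ^ 2 * (twoG Y).index := by ring

end H16A
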