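import Pool.Agent.Lib.H16A.D1

/-!
# D2 (M): the curve over a quadratic field and its twist

`K` a field of characteristic zero, `δ ∈ K`, `δ² = D ≠ 0`.
* `twistHom`: the homomorphism `E^D(K) → E(K)`, `(X, Y) ↦ (X/D, Y δ/D²)`
  (`(Y δ/D²)² = Y²/D³ = f(X/D)`).  Homomorphism: by the explicit formulas (slope, addX, addY scale),
  cases as in the definition of the addition.
* `index_quadratic`: `[K : ℚ] = 2`, `δ ∉ ℚ`, `σ` the automorphism with `σ δ = -δ`.  Apply D1 to
  `M = E(K)`, `σ = ptMap σ`, `i = ptMap (ℚ → K)`, `j = twistHom ∘ ptMap (ℚ → K)`.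
  `σ`-invariant points have rational coordinates; if `σ P = -P`, `P = (x, y)`, then `x ∈ ℚ` and
  `y = δ y'`, `y' ∈ ℚ`, so `P = j(D x, D² y')`.
-/

open Polynomial IsDedekindDomain NumberField

namespace H16A
namespace Cub

variable (E : Cub)

theorem d2_nonsingular_iff {L : Type*} [Field L] (x y : L) :
    (WeierstrassCurve.Affine.baseChange E.W L).Nonsingular x y ↔
      y ^ 2 = E.val x ∧ (E.der x ≠ 0 ∨ y ≠ -y) := by
  have ha1 : (WeierstrassCurve.Affine.baseChange E.W L).a₁ = 0 := by simp [W]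
  have ha2 : (WeierstrassCurve.Affine.baseChange E.W L).a₂ = (E.a : L) := by simp [W]
  have ha3 : (WeierstrassCurve.Affine.baseChange E.W L).a₃ = 0 := by simp [W]
  have ha4 : (WeierstrassCurve.Affine.baseChange E.W L).a₄ = (E.b : L) := by simp [W]
  have ha6 : (WeierstrassCurve.Affine.baseChange E.W L).a₆ = (E.c : L) := by simp [W]
  rw [WeierstrassCurve.Affine.nonsingular_iff, WeierstrassCurve.Affine.equation_iff,
    ha1, ha2, ha3, ha4, ha6]
  unfold val der
  have e1 : y ^ 2 + 0 * x * y + 0 * y = y ^ 2 := by ring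
  have e2 : -y - 0 * x - 0 = -y := by ring
  rw [e1, e2, zero_mul]
  constructor
  · rintro ⟨h1, h2⟩
    exact ⟨h1, h2.imp (fun h => h.symm) id⟩
  · rintro ⟨h1, h2⟩
    exact ⟨h1, h2.imp (fun h => h.symm) id⟩

theorem d2_negY {L : Type*} [Field L] (x y : L) :
    (WeierstrassCurve.Affine.baseChange E.W L).negY x y = -y := by
  have ha1 : (WeierstrassCurve.Affine.baseChange E.W L).a₁ = 0 := by simp [W]
  have ha3 : (WeierstrassCurve.Affine.baseChange E.W L).a₃ = 0 := by simp [W]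
  rw [WeierstrassCurve.Affine.negY, ha1, ha3]
  ring

theorem d2_twist_val {L : Type*} [Field L] (D : ℤ) (x : L) :
    (E.twist D).val ((D : L) * x) = (D : L) ^ 3 * E.val x := by
  simp only [val, twist]
  push_cast
  ring

theorem d2_twist_der {L : Type*} [Field L] (D : ℤ) (x : L) :
    (E.twist D).der ((D : L) * x) = (D : L) ^ 2 * E.der x := by
  simp only [der, twist]
  push_cast
  ring

theorem d2_nonsing {K : Type*} [Field K] [CharZero K] (δ : K) (D : ℤ)
    (hD : D ≠ 0) (hδ : δ ^ 2 = (D : K)) (x y : K) :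
    (WeierstrassCurve.Affine.baseChange (E.twist D).W K).Nonsingular x y ↔
    (WeierstrassCurve.Affine.baseChange E.W K).Nonsingular (x / D) (y * δ / D ^ 2) := by
  have hD' : (D : K) ≠ 0 := by exact_mod_cast hD
  have hδ0 : δ ≠ 0 := by
    rintro rfl
    apply hD'
    rw [← hδ]
    ring
  obtain ⟨x', rfl⟩ : ∃ x', x = (D : K) * x' := ⟨x / D, by field_simp⟩
  rw [d2_nonsingular_iff, d2_nonsingular_iff, d2_twist_val, d2_twist_der,
    mul_div_cancel_left₀ _ hD']
  have e1 : (y * δ / (D : K) ^ 2) ^ 2 = y ^ 2 / (D : K) ^ 3 := by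
    rw [div_pow, mul_pow, hδ]
    field_simp
  rw [e1, div_eq_iff (pow_ne_zero 3 hD'), mul_comm (E.val x')]
  have e2 : (D : K) ^ 2 * E.der x' ≠ 0 ↔ E.der x' ≠ 0 := by
    constructor
    · intro h h'
      exact h (by rw [h', mul_zero])
    · intro h
      exact mul_ne_zero (pow_ne_zero 2 hD') h
  have e3 : ∀ t : K, t ≠ -t ↔ t ≠ 0 := by
    intro t
    constructor
    · rintro h rfl
      exact h (by simp)
    · intro h h'
      apply h
      have : (2 : K) * t = 0 := by linear_combination h'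
      exact (mul_eq_zero.1 this).resolve_left two_ne_zero
  rw [e2, e3, e3]
  have e4 : y * δ / (D : K) ^ 2 ≠ 0 ↔ y ≠ 0 := by
    constructor
    · rintro h rfl
      exact h (by simp)
    · intro h
      exact div_ne_zero (mul_ne_zero h hδ0) (pow_ne_zero 2 hD')
  rw [e4]

theorem d2_slope {K : Type*} [Field K] [CharZero K] [DecidableEq K] (δ : K) (D : ℤ)
    (hD : D ≠ 0) (hδ : δ ^ 2 = (D : K)) {x₁ x₂ y₁ y₂ : K}
    (hxy : ¬(x₁ = x₂ ∧ y₁ = (WeierstrassCurve.Affine.baseChange (E.twist D).W K).negY x₂ y₂)) :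
    (WeierstrassCurve.Affine.baseChange E.W K).slope (x₁ / D) (x₂ / D) (y₁ * δ / D ^ 2)
      (y₂ * δ / D ^ 2) =
      (WeierstrassCurve.Affine.baseChange (E.twist D).W K).slope x₁ x₂ y₁ y₂ * δ / D := by
  have hD' : (D : K) ≠ 0 := by exact_mod_cast hD
  have hδ0 : δ ≠ 0 := by
    rintro rfl
    apply hD'
    rw [← hδ]
    ring
  have ha1 : (WeierstrassCurve.Affine.baseChange E.W K).a₁ = 0 := by simp [W]
  have ha2 : (WeierstrassCurve.Affine.baseChange E.W K).a₂ = (E.a : K) := by simp [W]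
  have ha4 : (WeierstrassCurve.Affine.baseChange E.W K).a₄ = (E.b : K) := by simp [W]
  have hb1 : (WeierstrassCurve.Affine.baseChange (E.twist D).W K).a₁ = 0 := by simp [W]
  have hb2 : (WeierstrassCurve.Affine.baseChange (E.twist D).W K).a₂ = (E.a : K) * D := by
    simp [W, twist]
  have hb4 : (WeierstrassCurve.Affine.baseChange (E.twist D).W K).a₄ = (E.b : K) * D ^ 2 := by
    simp [W, twist]
  by_cases hx : x₁ = x₂
  · have hy : y₁ ≠ (WeierstrassCurve.Affine.baseChange (E.twist D).W K).negY x₂ y₂ :=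
      fun h => hxy ⟨hx, h⟩
    have hy' : y₁ * δ / (D : K) ^ 2 ≠
        (WeierstrassCurve.Affine.baseChange E.W K).negY (x₂ / D) (y₂ * δ / D ^ 2) := by
      rw [d2_negY] at hy ⊢
      intro h
      apply hy
      have h1 : y₁ * δ = -(y₂ * δ) := by
        rw [← neg_div, div_left_inj' (pow_ne_zero 2 hD')] at h
        exact h
      have h2 : (y₁ + y₂) * δ = 0 := by linear_combination h1
      have h3 := (mul_eq_zero.1 h2).resolve_right hδ0
      linear_combination h3
    rw [WeierstrassCurve.Affine.slope_of_Y_ne hx hy,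
      WeierstrassCurve.Affine.slope_of_Y_ne (by rw [hx]) hy', d2_negY, d2_negY, ha1, ha2, ha4,
      hb1, hb2, hb4]
    by_cases h0 : y₁ = 0
    · rw [h0]
      simp
    · have h2 : (2 : K) * y₁ ≠ 0 := mul_ne_zero two_ne_zero h0
      have e1 : y₁ - -y₁ = 2 * y₁ := by ring
      have e2 : y₁ * δ / (D : K) ^ 2 - -(y₁ * δ / (D : K) ^ 2) = 2 * y₁ * δ / (D : K) ^ 2 := by ring
      rw [e1, e2, zero_mul, zero_mul, sub_zero, sub_zero]
      have hδD : (D : K) = δ ^ 2 := hδ.symm
      rw [hδD]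
      field_simp
  · have hx' : x₁ / (D : K) ≠ x₂ / D := by
      intro h
      exact hx ((div_left_inj' hD').1 h)
    rw [WeierstrassCurve.Affine.slope_of_X_ne hx, WeierstrassCurve.Affine.slope_of_X_ne hx']
    have h1 : x₁ - x₂ ≠ 0 := sub_ne_zero.2 hx
    have e1 : x₁ / (D : K) - x₂ / D = (x₁ - x₂) / D := by ring
    have e2 : y₁ * δ / (D : K) ^ 2 - y₂ * δ / D ^ 2 = (y₁ - y₂) * δ / D ^ 2 := by ring
    rw [e1, e2]
    field_simp

theorem exists_twistHom {K : Type*} [Field K] [CharZero K] [DecidableEq K] (δ : K) (D : ℤ)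
    (hD : D ≠ 0) (hδ : δ ^ 2 = (D : K)) :
    ∃ j : (E.twist D).Pt K →+ E.Pt K, ∀ X Y h, ∃ h',
      j (WeierstrassCurve.Affine.Point.some X Y h) =
        WeierstrassCurve.Affine.Point.some (X / D) (Y * δ / D ^ 2) h' := by
  have hD' : (D : K) ≠ 0 := by exact_mod_cast hD
  have hδ0 : δ ≠ 0 := by
    rintro rfl
    apply hD'
    rw [← hδ]
    ring
  have ha1 : (WeierstrassCurve.Affine.baseChange E.W K).a₁ = 0 := by simp [W]
  have ha2 : (WeierstrassCurve.Affine.baseChange E.W K).a₂ = (E.a : K) := by simp [W]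
  have hb1 : (WeierstrassCurve.Affine.baseChange (E.twist D).W K).a₁ = 0 := by simp [W]
  have hb2 : (WeierstrassCurve.Affine.baseChange (E.twist D).W K).a₂ = (E.a : K) * D := by
    simp [W, twist]
  refine ⟨{ toFun := fun P => match P with
              | .zero => .zero
              | .some x y h => .some (x / D) (y * δ / D ^ 2) ((E.d2_nonsing δ D hD hδ x y).1 h)
            map_zero' := rfl
            map_add' := ?_ }, fun X Y h => ⟨(E.d2_nonsing δ D hD hδ X Y).1 h, rfl⟩⟩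
  rintro (_ | ⟨x₁, y₁, h₁⟩) (_ | ⟨x₂, y₂, h₂⟩)
  · rfl
  · rfl
  · rfl
  · by_cases hxy : x₁ = x₂ ∧
        y₁ = (WeierstrassCurve.Affine.baseChange (E.twist D).W K).negY x₂ y₂
    · rw [WeierstrassCurve.Affine.Point.add_of_Y_eq hxy.1 hxy.2]
      have hxy' : x₁ / (D : K) = x₂ / D ∧ y₁ * δ / (D : K) ^ 2 =
          (WeierstrassCurve.Affine.baseChange E.W K).negY (x₂ / D) (y₂ * δ / D ^ 2) := by
        refine ⟨by rw [hxy.1], ?_⟩
        have h := hxy.2
        rw [d2_negY] at h ⊢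
        rw [h]
        ring
      exact (WeierstrassCurve.Affine.Point.add_of_Y_eq hxy'.1 hxy'.2).symm
    · have hxy' : ¬(x₁ / (D : K) = x₂ / D ∧ y₁ * δ / (D : K) ^ 2 =
          (WeierstrassCurve.Affine.baseChange E.W K).negY (x₂ / D) (y₂ * δ / D ^ 2)) := by
        rintro ⟨k1, k2⟩
        apply hxy
        refine ⟨(div_left_inj' hD').1 k1, ?_⟩
        rw [d2_negY] at k2 ⊢
        have h1 : y₁ * δ = -(y₂ * δ) := by
          rw [← neg_div, div_left_inj' (pow_ne_zero 2 hD')] at k2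
          exact k2
        have h2 : (y₁ + y₂) * δ = 0 := by linear_combination h1
        have h3 := (mul_eq_zero.1 h2).resolve_right hδ0
        linear_combination h3
      have hs := E.d2_slope δ D hD hδ hxy
      rw [WeierstrassCurve.Affine.Point.add_some hxy]
      refine Eq.trans ?_ (WeierstrassCurve.Affine.Point.add_some hxy').symm
      set l := (WeierstrassCurve.Affine.baseChange (E.twist D).W K).slope x₁ x₂ y₁ y₂ with hl
      have hX : (WeierstrassCurve.Affine.baseChange E.W K).addX (x₁ / D) (x₂ / D) (l * δ / D) =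
          (WeierstrassCurve.Affine.baseChange (E.twist D).W K).addX x₁ x₂ l / D := by
        rw [WeierstrassCurve.Affine.addX, WeierstrassCurve.Affine.addX, ha1, ha2, hb1, hb2]
        have : (l * δ / (D : K)) ^ 2 = l ^ 2 / D := by
          rw [div_pow, mul_pow, hδ]
          field_simp
        rw [this]
        field_simp
        ring
      have hY : (WeierstrassCurve.Affine.baseChange E.W K).addY (x₁ / D) (x₂ / D)
          (y₁ * δ / D ^ 2) (l * δ / D) =
          (WeierstrassCurve.Affine.baseChange (E.twist D).W K).addY x₁ x₂ y₁ l * δ / D ^ 2 := by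
        rw [WeierstrassCurve.Affine.addY, WeierstrassCurve.Affine.addY, d2_negY, d2_negY,
          WeierstrassCurve.Affine.negAddY, WeierstrassCurve.Affine.negAddY, hX]
        field_simp
      simp only [hs]
      simp only [WeierstrassCurve.Affine.Point.some.injEq]
      exact ⟨hX.symm, hY.symm⟩

theorem d2_ptMap_some {L L' : Type*} [Field L] [Field L'] [DecidableEq L] [DecidableEq L']
    (φ : L →+* L') (x y : L) (h : (WeierstrassCurve.Affine.baseChange E.W L).Nonsingular x y) :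
    ∃ h', E.ptMap φ (WeierstrassCurve.Affine.Point.some x y h) =
      WeierstrassCurve.Affine.Point.some (φ x) (φ y) h' :=
  ⟨_, WeierstrassCurve.Affine.Point.map_some _ h⟩

theorem d2_nonsing_map {L L' : Type*} [Field L] [Field L'] (φ : L →+* L') (x y : L) :
    (WeierstrassCurve.Affine.baseChange E.W L').Nonsingular (φ x) (φ y) ↔
      (WeierstrassCurve.Affine.baseChange E.W L).Nonsingular x y := by
  have h2 : φ 2 = 2 := map_ofNat φ 2
  have h3 : φ 3 = 3 := map_ofNat φ 3
  have hval : E.val (φ x) = φ (E.val x) := by simp [val]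
  have hder : E.der (φ x) = φ (E.der x) := by simp [der, h2, h3]
  rw [d2_nonsingular_iff, d2_nonsingular_iff, hval, hder, ← map_pow, ← map_neg, Ne, Ne, Ne, Ne,
    φ.injective.eq_iff, φ.injective.eq_iff, map_eq_zero]

theorem index_quadratic {K : Type*} [Field K] [NumberField K] [DecidableEq K]
    (hK : Module.finrank ℚ K = 2) (δ : K) (D : ℤ) (hD : D ≠ 0) (hδ : δ ^ 2 = (D : K))
    (hδQ : δ ∉ Set.range (algebraMap ℚ K)) (h1 : (twoG (E.Pt ℚ)).index ≠ 0)
    (h2 : (twoG ((E.twist D).Pt ℚ)).index ≠ 0) :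
    (twoG (E.Pt K)).index ≠ 0 ∧
      (twoG (E.Pt K)).index ≤ (twoG (E.Pt ℚ)).index ^ 2 * (twoG ((E.twist D).Pt ℚ)).index := by
  have hquad : Algebra.IsQuadraticExtension ℚ K := { finrank_eq_two' := hK }
  have hgal : IsGalois ℚ K := inferInstance
  have hD' : (D : K) ≠ 0 := by exact_mod_cast hD
  have hDQ : (D : ℚ) ≠ 0 := by exact_mod_cast hD
  have hδ0 : δ ≠ 0 := by
    rintro rfl
    apply hD'
    rw [← hδ]
    ring
  obtain ⟨σ, hσ⟩ : ∃ σ : Gal(K/ℚ), σ δ ≠ δ := by
    by_contra hcon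
    push Not at hcon
    exact hδQ ((IsGalois.mem_range_algebraMap_iff_fixed δ).2 hcon)
  have hσδ : σ δ = -δ := by
    have h3 : (σ δ) ^ 2 = δ ^ 2 := by
      rw [← map_pow, hδ, map_intCast]
    rcases sq_eq_sq_iff_eq_or_eq_neg.1 h3 with h | h
    · exact absurd h hσ
    · exact h
  have hσ1 : σ ≠ 1 := by
    rintro rfl
    exact hσ rfl
  have hcard : Nat.card (Gal(K/ℚ)) = 2 := by
    rw [IsGalois.card_aut_eq_finrank, hK]
  have hall : ∀ τ : Gal(K/ℚ), τ ≠ 1 → τ = σ := by
    intro τ hτ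
    exact ((Nat.card_eq_two_iff' (1 : Gal(K/ℚ))).1 hcard).unique hτ hσ1
  have hσσ : σ * σ = 1 := by
    by_contra h
    have h4 := hall _ h
    exact hσ1 (mul_eq_left.1 h4)
  have hσσ' : ∀ x, σ (σ x) = x := by
    intro x
    have h5 : (σ * σ) x = x := by rw [hσσ]; rfl
    exact h5
  have hfix : ∀ x : K, σ x = x → ∃ a : ℚ, algebraMap ℚ K a = x := by
    intro x hx
    refine (IsGalois.mem_range_algebraMap_iff_fixed x).2 fun τ => ?_
    by_cases hτ : τ = 1
    · rw [hτ]; rfl
    · rw [hall τ hτ]; exact hx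
  have hanti : ∀ y : K, σ y = -y → ∃ b : ℚ, algebraMap ℚ K b * δ = y := by
    intro y hy
    obtain ⟨b, hb⟩ := hfix (y / δ) (by rw [map_div₀, hy, hσδ, neg_div_neg_eq])
    exact ⟨b, by rw [hb, div_mul_cancel₀ _ hδ0]⟩
  obtain ⟨J, hJ⟩ := E.exists_twistHom δ D hD hδ
  have hσalg : ∀ a : ℚ, (σ : K →+* K) (algebraMap ℚ K a) = algebraMap ℚ K a := fun a => σ.commutes a
  have hinv : ∀ P : E.Pt K, E.ptMap (σ : K →+* K) P = P → ∃ Q : E.Pt ℚ,
      P = E.ptMap (algebraMap ℚ K) Q := by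
    rintro (_ | ⟨x, y, h⟩) hP
    · exact ⟨0, (map_zero (E.ptMap (algebraMap ℚ K))).symm⟩
    · obtain ⟨h', hP'⟩ := E.d2_ptMap_some (σ : K →+* K) x y h
      rw [hP', WeierstrassCurve.Affine.Point.some.injEq] at hP
      obtain ⟨a, rfl⟩ := hfix x hP.1
      obtain ⟨b, rfl⟩ := hfix y hP.2
      have hn := (E.d2_nonsing_map (algebraMap ℚ K) a b).1 h
      obtain ⟨h'', hQ⟩ := E.d2_ptMap_some (algebraMap ℚ K) a b hn
      exact ⟨_, hQ.symm⟩
  refine index_bound (E.ptMap (σ : K →+* K)) (E.ptMap (algebraMap ℚ K))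
    (J.comp ((E.twist D).ptMap (algebraMap ℚ K))) ?_ ?_ ?_ ?_ h1 h2
  · exact WeierstrassCurve.Affine.Point.map_injective _
  · intro m
    apply hinv
    rw [map_add, add_comm m]
    congr 1
    rcases m with _ | ⟨x, y, h⟩
    · exact (map_zero _)
    · obtain ⟨h', hP'⟩ := E.d2_ptMap_some (σ : K →+* K) x y h
      obtain ⟨h'', hP''⟩ := E.d2_ptMap_some (σ : K →+* K) _ _ h'
      rw [hP', hP'', WeierstrassCurve.Affine.Point.some.injEq]
      exact ⟨hσσ' x, hσσ' y⟩
  · rintro (_ | ⟨x, y, h⟩)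
    · exact (map_zero _)
    · obtain ⟨h', hP'⟩ := E.d2_ptMap_some (algebraMap ℚ K) x y h
      obtain ⟨h'', hP''⟩ := E.d2_ptMap_some (σ : K →+* K) _ _ h'
      rw [hP', hP'', WeierstrassCurve.Affine.Point.some.injEq]
      exact ⟨hσalg x, hσalg y⟩
  · rintro (_ | ⟨x, y, h⟩) hm
    · exact ⟨0, (map_zero _).symm⟩
    · obtain ⟨h', hP'⟩ := E.d2_ptMap_some (σ : K →+* K) x y h
      rw [hP', WeierstrassCurve.Affine.Point.neg_some, WeierstrassCurve.Affine.Point.some.injEq,
        d2_negY] at hm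
      obtain ⟨a, rfl⟩ := hfix x hm.1
      obtain ⟨b, rfl⟩ := hanti y hm.2
      have e1 : algebraMap ℚ K (D * a) / (D : K) = algebraMap ℚ K a := by
        rw [map_mul, map_intCast, mul_div_cancel_left₀ _ hD']
      have e2 : algebraMap ℚ K (D ^ 2 * b) * δ / (D : K) ^ 2 = algebraMap ℚ K b * δ := by
        rw [map_mul, map_pow, map_intCast, mul_assoc, mul_div_cancel_left₀ _ (pow_ne_zero 2 hD')]
      have hn : (WeierstrassCurve.Affine.baseChange (E.twist D).W ℚ).Nonsingular (D * a)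
          (D ^ 2 * b) := by
        rw [← d2_nonsing_map (E := E.twist D) (algebraMap ℚ K), E.d2_nonsing δ D hD hδ, e1, e2]
        exact h
      refine ⟨WeierstrassCurve.Affine.Point.some (D * a) (D ^ 2 * b) hn, ?_⟩
      rw [AddMonoidHom.comp_apply]
      obtain ⟨h'', hP''⟩ := (E.twist D).d2_ptMap_some (algebraMap ℚ K) _ _ hn
      obtain ⟨h3, hP3⟩ := hJ _ _ h''
      rw [hP'', hP3, WeierstrassCurve.Affine.Point.some.injEq]
      exact ⟨e1.symm, e2.symm⟩

end Cub
end H16A
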