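import Mathlib

/-!
# D3 (M): imaginary quadratic fields and the size of the discriminant

`D < 0` squarefree, `K = ℚ(√D)` (e.g. `AdjoinRoot (X² - C (D : ℚ))`, irreducible because `D < 0`).
`ℤ[δ] ⊆ 𝓞 K` has discriminant `4 D = m² disc(K)`, `m ∈ ℤ` the index
(`Algebra.discr_of_matrix_vecMul`, `NumberField.discr`).  So `|disc K| ≤ 4|D|`.  For odd primes `p | D`:
`p` divides `m² disc K` exactly once, so `p | disc K` and `p ∤ m`; so `m² | 4`, `|disc K| ≥ |D|`.
The sign: `m² disc(K) = 4 D < 0`.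
-/

open NumberField Polynomial

namespace H16A

theorem d3_irred {K : Type*} [Field K] [NumberField K] (D : ℤ) {δ : K} (hδ : δ ^ 2 = (D : K))
    (hr : δ ∉ Set.range (algebraMap ℚ K)) : Irreducible (X ^ 2 - C (D : ℚ)) := by
  have hm : (X ^ 2 - C (D : ℚ)).Monic := monic_X_pow_sub_C _ (by norm_num)
  have hd : (X ^ 2 - C (D : ℚ)).natDegree = 2 := natDegree_X_pow_sub_C
  rw [hm.irreducible_iff_roots_eq_zero_of_degree_le_three (by rw [hd]) (by rw [hd]; norm_num)]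
  rw [Multiset.eq_zero_iff_forall_notMem]
  intro r hr1
  rw [mem_roots hm.ne_zero, IsRoot.def, eval_sub, eval_pow, eval_X, eval_C, sub_eq_zero] at hr1
  have h1 : (δ - algebraMap ℚ K r) * (δ + algebraMap ℚ K r) = 0 := by
    have h2 : (algebraMap ℚ K r) ^ 2 = (D : K) := by
      rw [← map_pow, hr1]
      simp
    linear_combination hδ - h2
  rcases mul_eq_zero.1 h1 with h2 | h2
  · exact hr ⟨r, (sub_eq_zero.1 h2).symm⟩
  · exact hr ⟨-r, by rw [map_neg]; linear_combination -h2⟩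

theorem d3_minpoly {K : Type*} [Field K] [NumberField K] (D : ℤ) {δ : K} (hδ : δ ^ 2 = (D : K))
    (hr : δ ∉ Set.range (algebraMap ℚ K)) : minpoly ℚ δ = X ^ 2 - C (D : ℚ) := by
  refine (minpoly.eq_of_irreducible_of_monic (d3_irred D hδ hr) ?_
    (monic_X_pow_sub_C _ (by norm_num))).symm
  rw [map_sub, map_pow, aeval_X, aeval_C, hδ]
  simp

theorem d3_trace {K : Type*} [Field K] [NumberField K] (D : ℤ) {δ : K} (hδ : δ ^ 2 = (D : K))
    (hr : δ ∉ Set.range (algebraMap ℚ K)) : Algebra.trace ℚ K δ = 0 := by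
  rw [trace_eq_finrank_mul_minpoly_nextCoeff, d3_minpoly D hδ hr]
  have h1 : (X ^ 2 - C (D : ℚ)).nextCoeff = 0 := by
    have hd : (X ^ 2 - C (D : ℚ)).natDegree = 2 := natDegree_X_pow_sub_C
    rw [nextCoeff_of_natDegree_pos (by rw [hd]; norm_num), hd, coeff_sub, coeff_X_pow, coeff_C]
    norm_num
  rw [h1, neg_zero, mul_zero]

/-- the index formula -/
theorem d3_index {K : Type*} [Field K] [NumberField K] (hK : Module.finrank ℚ K = 2) (D : ℤ)
    {δ : K} (hδ : δ ^ 2 = (D : K)) (hr : δ ∉ Set.range (algebraMap ℚ K)) :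
    ∃ m : ℤ, 4 * D = m ^ 2 * discr K := by
  classical
  have hint : IsIntegral ℤ δ := by
    refine ⟨X ^ 2 - C D, monic_X_pow_sub_C _ (by norm_num), ?_⟩
    rw [eval₂_sub, eval₂_pow, eval₂_X, eval₂_C, hδ]
    simp
  obtain ⟨d, hd⟩ : ∃ d : 𝓞 K, (d : K) = δ := ⟨⟨δ, hint⟩, rfl⟩
  have hcard : Fintype.card (Module.Free.ChooseBasisIndex ℤ (𝓞 K)) = Fintype.card (Fin 2) := by
    rw [Fintype.card_fin, ← Module.finrank_eq_card_chooseBasisIndex, RingOfIntegers.rank, hK]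
  set b : Module.Basis (Fin 2) ℤ (𝓞 K) :=
    (RingOfIntegers.basis K).reindex (Fintype.equivOfCardEq hcard) with hb
  set v : Fin 2 → 𝓞 K := ![1, d] with hv
  have h1 := Algebra.discr_of_matrix_vecMul b (b.toMatrix v)
  rw [b.toMatrix_map_vecMul v, discr_eq_discr K b] at h1
  refine ⟨(b.toMatrix v).det, ?_⟩
  rw [← h1, Algebra.discr_def, Matrix.det_fin_two]
  simp only [Algebra.traceMatrix_apply, Algebra.traceForm_apply, hv, Matrix.cons_val_zero,
    Matrix.cons_val_one, one_mul, mul_one]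
  have hdd : d * d = algebraMap ℤ (𝓞 K) D := by
    apply RingOfIntegers.ext
    have h2 : ((d * d : 𝓞 K) : K) = δ ^ 2 := by
      rw [pow_two, ← hd]
      exact map_mul (algebraMap (𝓞 K) K) d d
    rw [h2, hδ]
    simp
  have ht1 : Algebra.trace ℤ (𝓞 K) (1 : 𝓞 K) = 2 := by
    have h2 : (1 : 𝓞 K) = algebraMap ℤ (𝓞 K) 1 := by simp
    rw [h2, Algebra.trace_algebraMap, RingOfIntegers.rank, hK]
    norm_num
  have ht2 : Algebra.trace ℤ (𝓞 K) d = 0 := by
    have h2 : ((Algebra.trace ℤ (𝓞 K) d : ℤ) : ℚ) = 0 := by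
      rw [Algebra.coe_trace_int, hd, d3_trace D hδ hr]
    exact_mod_cast h2
  have ht3 : Algebra.trace ℤ (𝓞 K) (d * d) = 2 * D := by
    rw [hdd, Algebra.trace_algebraMap, RingOfIntegers.rank, hK]
    norm_num
  rw [ht1, ht2, ht3]
  ring

/-- a square dividing `4 D`, `D` squarefree, divides `4` -/
theorem d3_dvd_two {m D : ℤ} (hD : D ≠ 0) (hsq : Squarefree D) (h : m ^ 2 ∣ 4 * D) : m ∣ 2 := by
  have hm0 : m ≠ 0 := by
    rintro rfl
    rw [zero_pow (by norm_num), zero_dvd_iff] at h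
    omega
  set g : ℤ := (Int.gcd m 2 : ℤ) with hg
  have hg0 : g ≠ 0 := by
    rw [hg]
    exact_mod_cast (Int.gcd_pos_of_ne_zero_left 2 hm0).ne'
  obtain ⟨m', hm'⟩ : g ∣ m := Int.gcd_dvd_left ..
  obtain ⟨c, hc⟩ : g ∣ 2 := Int.gcd_dvd_right ..
  have hcop : IsCoprime m' c := by
    rw [Int.isCoprime_iff_gcd_eq_one]
    have h1 : Int.gcd (g * m') (g * c) = Int.natAbs g * Int.gcd m' c := Int.gcd_mul_left g m' c
    rw [← hm', ← hc] at h1
    have h2 : Int.natAbs g = Int.gcd m 2 := by rw [hg]; exact Int.natAbs_natCast _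
    rw [h2] at h1
    have h3 : 0 < Int.gcd m 2 := Int.gcd_pos_of_ne_zero_left 2 hm0
    have h4 : Int.gcd m 2 * 1 = Int.gcd m 2 * Int.gcd m' c := by rw [mul_one]; exact h1
    exact (Nat.eq_of_mul_eq_mul_left h3 h4).symm
  have h1 : m' ^ 2 ∣ c ^ 2 * D := by
    have h2 : g ^ 2 * m' ^ 2 ∣ g ^ 2 * (c ^ 2 * D) := by
      have h3 : g ^ 2 * m' ^ 2 = m ^ 2 := by rw [hm']; ring
      have h4 : g ^ 2 * (c ^ 2 * D) = 4 * D := by
        have : g ^ 2 * (c ^ 2 * D) = (g * c) ^ 2 * D := by ring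
        rw [this, ← hc]
        ring
      rw [h3, h4]
      exact h
    exact (mul_dvd_mul_iff_left (pow_ne_zero 2 hg0)).1 h2
  have h2 : m' ^ 2 ∣ D := (hcop.pow : IsCoprime (m' ^ 2) (c ^ 2)).dvd_of_dvd_mul_left h1
  have h3 : IsUnit m' := hsq m' (by rw [← pow_two]; exact h2)
  obtain ⟨u, hu⟩ := h3
  refine ⟨c * ((u⁻¹ : ℤˣ) : ℤ), ?_⟩
  have h4 : m' * ((u⁻¹ : ℤˣ) : ℤ) = 1 := by rw [← hu]; exact u.mul_inv
  calc (2 : ℤ) = g * c := hc
    _ = g * c * (m' * ((u⁻¹ : ℤˣ) : ℤ)) := by rw [h4, mul_one]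
    _ = (g * m') * (c * ((u⁻¹ : ℤˣ) : ℤ)) := by ring
    _ = m * (c * ((u⁻¹ : ℤˣ) : ℤ)) := by rw [← hm']

theorem exists_imag_quadratic (D : ℤ) (hD : D < 0) (hsq : Squarefree D) :
    ∃ (K : Type) (_ : Field K) (_ : NumberField K) (δ : K), Module.finrank ℚ K = 2 ∧
      δ ^ 2 = (D : K) ∧ δ ∉ Set.range (algebraMap ℚ K) ∧ discr K < 0 ∧
      |discr K| ≤ 4 * |D| ∧ |D| ≤ |discr K| := by
  have hm : (X ^ 2 - C (D : ℚ)).Monic := monic_X_pow_sub_C _ (by norm_num)
  have hd : (X ^ 2 - C (D : ℚ)).natDegree = 2 := natDegree_X_pow_sub_C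
  have hirr : Irreducible (X ^ 2 - C (D : ℚ)) := by
    rw [hm.irreducible_iff_roots_eq_zero_of_degree_le_three (by rw [hd]) (by rw [hd]; norm_num)]
    rw [Multiset.eq_zero_iff_forall_notMem]
    intro r hr1
    rw [mem_roots hm.ne_zero, IsRoot.def, eval_sub, eval_pow, eval_X, eval_C, sub_eq_zero] at hr1
    have h1 : (D : ℚ) < 0 := by exact_mod_cast hD
    nlinarith [sq_nonneg r]
  have hf : Fact (Irreducible (X ^ 2 - C (D : ℚ))) := ⟨hirr⟩
  have hδ : (AdjoinRoot.root (X ^ 2 - C (D : ℚ))) ^ 2 = (D : AdjoinRoot (X ^ 2 - C (D : ℚ))) := by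
    have h1 := AdjoinRoot.eval₂_root (X ^ 2 - C (D : ℚ))
    rw [eval₂_sub, eval₂_pow, eval₂_X, eval₂_C, sub_eq_zero] at h1
    rw [h1]
    simp
  have hr : (AdjoinRoot.root (X ^ 2 - C (D : ℚ))) ∉
      Set.range (algebraMap ℚ (AdjoinRoot (X ^ 2 - C (D : ℚ)))) := by
    rintro ⟨r, hr1⟩
    rw [← hr1] at hδ
    have h1 : algebraMap ℚ (AdjoinRoot (X ^ 2 - C (D : ℚ))) (r ^ 2) =
        algebraMap ℚ (AdjoinRoot (X ^ 2 - C (D : ℚ))) (D : ℚ) := by
      rw [map_pow, hδ]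
      simp
    have h2 := (algebraMap ℚ (AdjoinRoot (X ^ 2 - C (D : ℚ)))).injective h1
    have h3 : (D : ℚ) < 0 := by exact_mod_cast hD
    nlinarith [sq_nonneg r]
  have hfr : Module.finrank ℚ (AdjoinRoot (X ^ 2 - C (D : ℚ))) = 2 := by
    rw [(AdjoinRoot.powerBasis hirr.ne_zero).finrank, AdjoinRoot.powerBasis_dim, hd]
  obtain ⟨m, hm1⟩ := d3_index hfr D hδ hr
  have hm2 : m ∣ 2 := d3_dvd_two hD.ne hsq ⟨_, hm1⟩
  have hm0 : m ≠ 0 := by
    rintro rfl
    rw [zero_pow (by norm_num), zero_mul] at hm1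
    omega
  have hmle : m ^ 2 ≤ 4 := by
    have h1 := Int.le_of_dvd (by norm_num) ((abs_dvd m 2).2 hm2)
    have h2 := abs_nonneg m
    rw [← sq_abs]
    nlinarith
  have hmge : 1 ≤ m ^ 2 := by
    have := sq_pos_of_ne_zero hm0
    omega
  refine ⟨AdjoinRoot (X ^ 2 - C (D : ℚ)), inferInstance, inferInstance,
    AdjoinRoot.root (X ^ 2 - C (D : ℚ)), hfr, hδ, hr, ?_⟩
  set Δ := discr (AdjoinRoot (X ^ 2 - C (D : ℚ))) with hΔ
  have hneg : Δ < 0 := by
    by_contra h1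
    push Not at h1
    nlinarith
  refine ⟨hneg, ?_, ?_⟩
  · rw [abs_of_neg hneg, abs_of_neg hD]
    nlinarith
  · rw [abs_of_neg hneg, abs_of_neg hD]
    nlinarith

/-- every quadratic field is generated by the square root of a squarefree integer `D`, and the odd
primes dividing `D` divide the discriminant -/
theorem exists_sqrt_of_quadratic (K : Type*) [Field K] [NumberField K]
    (hK : Module.finrank ℚ K = 2) :
    ∃ (D : ℤ) (δ : K), Squarefree D ∧ D ≠ 1 ∧ δ ^ 2 = (D : K) ∧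
      δ ∉ Set.range (algebraMap ℚ K) ∧
      ∀ p : ℕ, p.Prime → p ≠ 2 → (p : ℤ) ∣ D → (p : ℤ) ∣ discr K := by
  -- an element outside the rational numbers
  obtain ⟨x, hx⟩ : ∃ x : K, x ∉ Set.range (algebraMap ℚ K) := by
    by_contra hcon
    push Not at hcon
    have h1 : (⊥ : Subalgebra ℚ K) = ⊤ := by
      rw [eq_top_iff]
      intro y _
      exact Algebra.mem_bot.2 (hcon y)
    have h2 := Subalgebra.bot_eq_top_iff_finrank_eq_one.1 h1
    omega
  have hxi : IsIntegral ℚ x := IsIntegral.of_finite ℚ x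
  have hle : (minpoly ℚ x).natDegree ≤ 2 := by
    rw [← hK]
    exact minpoly.natDegree_le x
  have hge : 2 ≤ (minpoly ℚ x).natDegree := (minpoly.two_le_natDegree_iff hxi).2 hx
  have hdeg : (minpoly ℚ x).natDegree = 2 := le_antisymm hle hge
  have hmon := minpoly.monic hxi
  set a : ℚ := (minpoly ℚ x).coeff 1 with ha
  set b : ℚ := (minpoly ℚ x).coeff 0 with hb
  have hxeq : x ^ 2 + algebraMap ℚ K a * x + algebraMap ℚ K b = 0 := by
    have h1 := minpoly.aeval ℚ x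
    rw [aeval_eq_sum_range, hdeg] at h1
    have h2 : (minpoly ℚ x).coeff 2 = 1 := by
      have := hmon.coeff_natDegree
      rwa [hdeg] at this
    simp only [Finset.sum_range_succ, Finset.sum_range_zero, zero_add, pow_zero, pow_one, h2,
      Algebra.smul_def, mul_one, map_one, one_mul] at h1
    linear_combination h1
  set r : ℚ := a ^ 2 - 4 * b with hr
  set y : K := 2 * x + algebraMap ℚ K a with hy
  have hyr : y ^ 2 = algebraMap ℚ K r := by
    rw [hy, hr, map_sub, map_pow, map_mul, map_ofNat]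
    linear_combination 4 * hxeq
  have hyQ : y ∉ Set.range (algebraMap ℚ K) := by
    rintro ⟨s, hs⟩
    apply hx
    refine ⟨(s - a) / 2, ?_⟩
    rw [map_div₀, map_sub, hs, hy, map_ofNat]
    ring
  have hy0 : y ≠ 0 := by
    intro h
    apply hyQ
    exact ⟨0, by rw [map_zero, h]⟩
  have hr0 : r ≠ 0 := by
    intro h
    rw [h, map_zero] at hyr
    exact hy0 (pow_eq_zero_iff (by norm_num)|>.1 hyr)
  -- squarefree part
  set n : ℤ := r.num * r.den with hn
  have hn0 : n ≠ 0 := mul_ne_zero (Rat.num_ne_zero.2 hr0) (by exact_mod_cast r.den_ne_zero)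
  obtain ⟨c, s, hcs, hcsq⟩ := Nat.sq_mul_squarefree n.natAbs
  have hs0 : s ≠ 0 := by
    rintro rfl
    rw [zero_pow (by norm_num), zero_mul] at hcs
    exact hn0 (Int.natAbs_eq_zero.1 hcs.symm)
  set D : ℤ := n.sign * c with hD
  have hnD : n = D * (s : ℤ) ^ 2 := by
    have h1 : n = n.sign * (n.natAbs : ℤ) := (Int.sign_mul_natAbs n).symm
    conv_lhs => rw [h1, ← hcs]
    rw [hD]
    push_cast
    ring
  have hDsq : Squarefree D := by
    have h1 : IsUnit n.sign := by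
      rw [Int.isUnit_iff]
      rcases lt_or_gt_of_ne hn0 with h | h
      · exact Or.inr (Int.sign_eq_neg_one_of_neg h)
      · exact Or.inl (Int.sign_eq_one_of_pos h)
    have h2 : Squarefree (c : ℤ) := Int.squarefree_natCast.2 hcsq
    have h3 : Associated (c : ℤ) D := by
      obtain ⟨u, hu⟩ := h1
      exact ⟨u, by rw [hD, hu]; ring⟩
    exact (Associated.squarefree_iff h3).1 h2
  have hD0 : D ≠ 0 := hDsq.ne_zero
  -- δ
  have hden : (algebraMap ℚ K (r.den : ℚ)) ≠ 0 := by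
    rw [Ne, map_eq_zero]
    exact_mod_cast r.den_ne_zero
  have hsK : (algebraMap ℚ K (s : ℚ)) ≠ 0 := by
    rw [Ne, map_eq_zero]
    exact_mod_cast hs0
  set t : ℚ := (r.den : ℚ) / s with ht
  have ht0 : t ≠ 0 := by
    rw [ht]
    have h1 : (r.den : ℚ) ≠ 0 := by exact_mod_cast r.den_ne_zero
    have h2 : (s : ℚ) ≠ 0 := by exact_mod_cast hs0
    exact div_ne_zero h1 h2
  have hrt : r * t ^ 2 = (D : ℚ) := by
    have h1 : (r.den : ℚ) ≠ 0 := by exact_mod_cast r.den_ne_zero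
    have h2 : (s : ℚ) ≠ 0 := by exact_mod_cast hs0
    have h3 : (r.num : ℚ) * r.den = (D : ℚ) * (s : ℚ) ^ 2 := by exact_mod_cast hnD
    have h4 : r * r.den = r.num := Rat.mul_den_eq_num r
    rw [ht, div_pow, mul_div_assoc', div_eq_iff (pow_ne_zero 2 h2), ← h3, ← h4]
    ring
  set δ : K := y * algebraMap ℚ K t with hδ
  have hδ2 : δ ^ 2 = (D : K) := by
    rw [hδ, mul_pow, hyr, ← map_pow, ← map_mul, hrt]
    simp
  have hδQ : δ ∉ Set.range (algebraMap ℚ K) := by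
    rintro ⟨q, hq⟩
    apply hyQ
    refine ⟨q / t, ?_⟩
    have htK : algebraMap ℚ K t ≠ 0 := by
      rw [Ne, map_eq_zero]
      exact ht0
    rw [map_div₀, hq, hδ, mul_div_assoc, div_self htK, mul_one]
  refine ⟨D, δ, hDsq, ?_, hδ2, hδQ, ?_⟩
  · intro h1
    rw [h1, Int.cast_one] at hδ2
    have h2 : (δ - 1) * (δ + 1) = 0 := by linear_combination hδ2
    rcases mul_eq_zero.1 h2 with h3 | h3
    · exact hδQ ⟨1, by rw [map_one]; exact (sub_eq_zero.1 h3).symm⟩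
    · exact hδQ ⟨-1, by rw [map_neg, map_one]; linear_combination -h3⟩
  · intro p hp hp2 hpD
    obtain ⟨m, hm⟩ := d3_index hK D hδ2 hδQ
    have hpi : Prime (p : ℤ) := Nat.prime_iff_prime_int.1 hp
    have h1 : (p : ℤ) ∣ m ^ 2 * discr K := by
      rw [← hm]
      exact Dvd.dvd.mul_left hpD 4
    rcases hpi.dvd_or_dvd h1 with h2 | h2
    · exfalso
      have h3 : (p : ℤ) ∣ m := hpi.dvd_of_dvd_pow h2
      have h4 : m ∣ 2 := d3_dvd_two hD0 hDsq ⟨_, hm⟩
      have h5 : (p : ℤ) ∣ 2 := h3.trans h4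
      have h6 : p ∣ 2 := by exact_mod_cast h5
      exact hp2 ((Nat.prime_dvd_prime_iff_eq hp Nat.prime_two).1 h6)
    · exact h2

end H16A
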