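import Mathlib

/-!
# H16A: definitions

`E : Cub` is the integral monic cubic `f = X³ + a X² + b X + c`; the elliptic curve is
`y² = x³ + a x² + b x + c` (`E.disc ≠ 0`).  Every elliptic curve over `ℚ` has such a model.

For a ring `L`, `E.Alg L = L[X]/(f)`, `E.th L` is the class `θ` of `X`.
For a field `L` the descent map of the curve sends `P = (x, y)` to the class of `x - θ` in
`(L[θ])ˣ / squares`; `E.Rel L u P` says that the unit `u` of `L[θ]` lies in the class of `P`:
the norm of `u` is a square and `u z² = x - θ` for some `z ∈ L[θ]` (this determines the class of `u`,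
also if `P` is a `2`-torsion point).
-/

open Polynomial IsDedekindDomain NumberField

namespace H16A

/-- The integral monic cubic `X³ + a X² + b X + c`. -/
@[ext] structure Cub where
  /-- coefficient of `X²` -/
  a : ℤ
  /-- coefficient of `X` -/
  b : ℤ
  /-- constant coefficient -/
  c : ℤ

/-- The group of square classes of a field. -/
def SqC (M : Type*) [Field M] : Type _ := Mˣ ⧸ (powMonoidHom 2 : Mˣ →* Mˣ).range

noncomputable instance SqC.instCommGroup (M : Type*) [Field M] : CommGroup (SqC M) :=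
  QuotientGroup.Quotient.commGroup _

/-- The class of a unit. -/
def sqMk (M : Type*) [Field M] : Mˣ →* SqC M where
  toFun u := (QuotientGroup.mk u : Mˣ ⧸ (powMonoidHom 2 : Mˣ →* Mˣ).range)
  map_one' := rfl
  map_mul' _ _ := rfl

theorem sqMk_surjective (M : Type*) [Field M] : Function.Surjective (sqMk M) :=
  fun x => Quotient.exists_rep x

theorem sqMk_eq_one_iff {M : Type*} [Field M] (u : Mˣ) : sqMk M u = 1 ↔ IsSquare (u : M) := by
  have h : sqMk M u = 1 ↔ u ∈ (powMonoidHom 2 : Mˣ →* Mˣ).range :=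
    QuotientGroup.eq_one_iff (N := (powMonoidHom 2 : Mˣ →* Mˣ).range) u
  rw [h]
  constructor
  · rintro ⟨v, rfl⟩
    exact ⟨(v : M), by simp [powMonoidHom, pow_two]⟩
  · rintro ⟨m, hm⟩
    have hm0 : m ≠ 0 := by
      rintro rfl
      exact u.ne_zero (by simp at hm)
    exact ⟨Units.mk0 m hm0, Units.ext (by simp [powMonoidHom, pow_two, hm])⟩

/-- The square class of `m` (`1` if `m = 0`). -/
noncomputable def cls {M : Type*} [Field M] (m : M) : SqC M :=
  open Classical in if h : m = 0 then 1 else sqMk M (Units.mk0 m h)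

/-- The map of the groups of square classes induced by a homomorphism of fields. -/
noncomputable def sqMap {L L' : Type*} [Field L] [Field L'] (φ : L →+* L') : SqC L →* SqC L' :=
  let g : (Lˣ ⧸ (powMonoidHom 2 : Lˣ →* Lˣ).range) →* (L'ˣ ⧸ (powMonoidHom 2 : L'ˣ →* L'ˣ).range) :=
    QuotientGroup.map _ _ (Units.map (φ : L →* L')) (by
      rintro _ ⟨u, rfl⟩
      exact ⟨Units.map (φ : L →* L') u, by simp⟩)
  { toFun := g
    map_one' := map_one g
    map_mul' := map_mul g }

theorem sqMap_mk {L L' : Type*} [Field L] [Field L'] (φ : L →+* L') (u : Lˣ) :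
    sqMap φ (sqMk L u) = sqMk L' (Units.map (φ : L →* L') u) := rfl

/-- The subgroup of the squares in the group of units of a ring. -/
def sqSub (A : Type*) [CommRing A] : Subgroup Aˣ := (powMonoidHom 2 : Aˣ →* Aˣ).range

/-- The subgroup `2 G` of an additive group. -/
def twoG (G : Type*) [AddCommGroup G] : AddSubgroup G := (nsmulAddMonoidHom 2 : G →+ G).range

namespace Cub

variable (E : Cub)

/-- The discriminant of `X³ + a X² + b X + c`. -/
def disc : ℤ :=
  E.a ^ 2 * E.b ^ 2 - 4 * E.b ^ 3 - 4 * E.a ^ 3 * E.c - 27 * E.c ^ 2 + 18 * E.a * E.b * E.c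

/-- The cubic `f` over a commutative ring. -/
noncomputable def poly (L : Type*) [CommRing L] : L[X] :=
  X ^ 3 + C (E.a : L) * X ^ 2 + C (E.b : L) * X + C (E.c : L)

/-- The value `f(x)`. -/
def val {L : Type*} [CommRing L] (x : L) : L := x ^ 3 + E.a * x ^ 2 + E.b * x + E.c

/-- The value `f'(x)`. -/
def der {L : Type*} [CommRing L] (x : L) : L := 3 * x ^ 2 + 2 * E.a * x + E.b

/-- The Weierstrass curve `y² = x³ + a x² + b x + c` over `ℤ`. -/
def W : WeierstrassCurve.Affine ℤ where
  a₁ := 0
  a₂ := E.a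
  a₃ := 0
  a₄ := E.b
  a₆ := E.c

/-- The points of the curve over the field `L` (Mathlib's type of points). -/
abbrev Pt (L : Type*) [Field L] : Type _ :=
  (WeierstrassCurve.Affine.baseChange E.W L).Point

/-- The quadratic twist `y² = x³ + a d x² + b d² x + c d³`. -/
def twist (d : ℤ) : Cub := ⟨E.a * d, E.b * d ^ 2, E.c * d ^ 3⟩

/-- The algebra `L[θ] = L[X]/(f)`. -/
abbrev Alg (L : Type*) [CommRing L] : Type _ := AdjoinRoot (E.poly L)

/-- The class `θ` of `X` in `L[X]/(f)`. -/
noncomputable def th (L : Type*) [CommRing L] : E.Alg L := AdjoinRoot.root (E.poly L)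

theorem poly_map {L L' : Type*} [CommRing L] [CommRing L'] (φ : L →+* L') :
    (E.poly L).map φ = E.poly L' := by
  simp [poly, Polynomial.map_add, Polynomial.map_mul]

theorem poly_monic (L : Type*) [CommRing L] : (E.poly L).Monic := by
  unfold poly
  monicity!

theorem eval_poly {L : Type*} [CommRing L] (x : L) : (E.poly L).eval x = E.val x := by
  simp only [poly, val, eval_add, eval_mul, eval_pow, eval_X, eval_C]

/-- The ring homomorphism `L[θ] → L'[θ]` induced by `φ : L → L'`. -/
noncomputable def algMap {L L' : Type*} [CommRing L] [CommRing L'] (φ : L →+* L') :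
    E.Alg L →+* E.Alg L' :=
  AdjoinRoot.map φ (E.poly L) (E.poly L') (by rw [E.poly_map φ])

/-- The ring homomorphism `L[θ] → L'`, `θ ↦ e`, for a ring homomorphism `φ : L → L'` and a root
`e` of `f` in `L'`. -/
noncomputable def evAt {L L' : Type*} [CommRing L] [CommRing L'] (φ : L →+* L') (e : L')
    (he : E.val e = 0) : E.Alg L →+* L' :=
  AdjoinRoot.lift φ e (by
    simp only [poly, eval₂_add, eval₂_mul, eval₂_pow, eval₂_X, eval₂_C]
    simp only [map_intCast]
    exact he)

/-- `E.Rel L u P`: the unit `u` of `L[θ]` lies in the class of the point `P`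
(see the head of the file). -/
def Rel (L : Type*) [Field L] (u : (E.Alg L)ˣ) : E.Pt L → Prop
  | .zero => IsSquare (u : E.Alg L)
  | .some x _ _ => IsSquare (Algebra.norm L (u : E.Alg L)) ∧
      ∃ z : E.Alg L, (u : E.Alg L) * z ^ 2 = algebraMap L (E.Alg L) x - E.th L

/-- The image of the descent map: the subgroup of the units of `L[θ]` generated by the classes of
the points of `E(L)` (it is the union of these classes, see `mem_imSub_iff`). -/
noncomputable def imSub (L : Type*) [Field L] : Subgroup (E.Alg L)ˣ :=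
  Subgroup.closure {u | ∃ P : E.Pt L, E.Rel L u P}

/-- The homomorphism of groups of units `(L[θ])ˣ → (L'[θ])ˣ` induced by `φ : L → L'`. -/
noncomputable def uMap {L L' : Type*} [CommRing L] [CommRing L'] (φ : L →+* L') :
    (E.Alg L)ˣ →* (E.Alg L')ˣ :=
  Units.map (E.algMap φ : E.Alg L →* E.Alg L')

/-- The units of `L[θ]` whose norm is a square.  (Modulo squares this is `H¹(L, E[2])`.) -/
noncomputable def normSq (L : Type*) [Field L] : Subgroup (E.Alg L)ˣ where
  carrier := {u | IsSquare (Algebra.norm L (u : E.Alg L))}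
  one_mem' := by simp
  mul_mem' := by
    intro u v hu hv
    simp only [Set.mem_ofPred_eq, Units.val_mul, map_mul] at *
    exact hu.mul hv
  inv_mem' := by
    intro u hu
    simp only [Set.mem_ofPred_eq] at *
    have h1 : Algebra.norm L (u : E.Alg L) * Algebra.norm L ((u⁻¹ : (E.Alg L)ˣ) : E.Alg L) = 1 := by
      rw [← map_mul, Units.mul_inv, map_one]
    obtain ⟨r, hr⟩ := hu
    have h2 : Algebra.norm L ((u⁻¹ : (E.Alg L)ˣ) : E.Alg L) = (Algebra.norm L (u : E.Alg L))⁻¹ :=
      (eq_inv_of_mul_eq_one_right h1)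
    rw [h2, hr]
    exact ⟨r⁻¹, by rw [mul_inv]⟩

/-- The `2`-Selmer group of the curve over the number field `K`, as a subgroup of the units of
`K[θ]` containing the squares: the units of square norm that lie in the image of the descent map
over every completion of `K`. -/
noncomputable def selSub (K : Type*) [Field K] [NumberField K] : Subgroup (E.Alg K)ˣ :=
  E.normSq K ⊓ ((⨅ v : HeightOneSpectrum (𝓞 K),
    (E.imSub (v.adicCompletion K)).comap (E.uMap (algebraMap K (v.adicCompletion K)))) ⊓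
  (⨅ v : InfinitePlace K,
    (E.imSub v.Completion).comap (E.uMap (algebraMap K v.Completion))))

/-- The group `Ш(E/K)[2]`: the `2`-Selmer group modulo the image of `E(K)`. -/
abbrev Sha2 (K : Type*) [Field K] [NumberField K] : Type _ :=
  ↥(E.selSub K) ⧸ (E.imSub K).subgroupOf (E.selSub K)

/-- `f` has three distinct roots modulo `p`. -/
def RootsMod (p : ℕ) : Prop :=
  ∃ m : Fin 3 → ℤ, (∀ i, (p : ℤ) ∣ E.val (m i)) ∧ ∀ i j, i ≠ j → ¬ (p : ℤ) ∣ m i - m j

/-- The unit `h` of `ℚ[θ]` is a unit of `ℤ_(p)[θ]` for all primes `p` outside `T` and prime to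
`2 disc(f)`. -/
def GoodAway (T : Finset ℕ) (h : (E.Alg ℚ)ˣ) : Prop :=
  ∀ p : ℕ, p.Prime → ¬ (p : ℤ) ∣ 2 * E.disc → p ∉ T → ∃ n : ℕ, ¬ p ∣ n ∧ ∃ k k' : ℤ[X],
    (n : E.Alg ℚ) * (h : E.Alg ℚ) = aeval (E.th ℚ) k ∧
    (n : E.Alg ℚ) * ((h⁻¹ : (E.Alg ℚ)ˣ) : E.Alg ℚ) = aeval (E.th ℚ) k'

/-- The unit `h` of `ℚ[θ]` is congruent to `1` modulo `8 disc(f)` at the primes dividing
`2 disc(f)`. -/
def OneAt (h : (E.Alg ℚ)ˣ) : Prop :=
  ∃ n : ℕ, IsCoprime (n : ℤ) (2 * E.disc) ∧ ∃ k : ℤ[X],
    (n : E.Alg ℚ) * ((h : E.Alg ℚ) - 1) = 8 * (E.disc : E.Alg ℚ) * aeval (E.th ℚ) k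

/-- The homomorphism `E(L) → E(L')` induced by a homomorphism of fields. -/
noncomputable def ptMap {L L' : Type*} [Field L] [Field L'] [DecidableEq L] [DecidableEq L']
    (φ : L →+* L') : E.Pt L →+ E.Pt L' :=
  WeierstrassCurve.Affine.Point.map (W' := E.W) φ.toIntAlgHom

/-- The component of the descent map at the root `e` of `f`: the class of `x - e`, and the class of
`f'(e)` at the point `(e, 0)`. -/
noncomputable def dl {M : Type*} [Field M] (e : M) : E.Pt M → SqC M
  | .zero => 1
  | .some x _ _ => open Classical in if x = e then cls (E.der e) else cls (x - e)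

end Cub

section NumberField

variable {F : Type*} [Field F] [NumberField F]

/-- The normalised additive valuation at `w` (`0` at `x = 0`). -/
noncomputable def ord (w : HeightOneSpectrum (𝓞 F)) (x : F) : ℤ := -(w.valuation F x).log

/-- The parity of the valuation at `w` of a square class. -/
noncomputable def par (w : HeightOneSpectrum (𝓞 F)) : SqC F →* Multiplicative (ZMod 2) where
  toFun := w.valuationOfNeZeroMod 2
  map_one' := map_one (w.valuationOfNeZeroMod 2 : (Fˣ ⧸ (powMonoidHom 2 : Fˣ →* Fˣ).range) →* _)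
  map_mul' := map_mul (w.valuationOfNeZeroMod 2 : (Fˣ ⧸ (powMonoidHom 2 : Fˣ →* Fˣ).range) →* _)

end NumberField

/-- The number field `F` is the splitting field of `f`, with the roots `e 0, e 1, e 2`. -/
structure Split (E : Cub) (F : Type) [Field F] [NumberField F] where
  /-- the roots -/
  e : Fin 3 → F
  poly_eq : E.poly F = ∏ i, (X - C (e i))
  inj : Function.Injective e
  gen : IntermediateField.adjoin ℚ (Set.range e) = ⊤

namespace Split

variable {E : Cub} {F : Type} [Field F] [NumberField F] (S : Split E F)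

include S in
theorem root (i : Fin 3) : E.val (S.e i) = 0 := by
  rw [← E.eval_poly, S.poly_eq, eval_prod]
  exact Finset.prod_eq_zero (Finset.mem_univ i) (by simp)

/-- The homomorphism `ℚ[θ] → F`, `θ ↦ e i`. -/
noncomputable def ev (i : Fin 3) : E.Alg ℚ →+* F := E.evAt (algebraMap ℚ F) (S.e i) (S.root i)

theorem exists_perm (σ : F ≃ₐ[ℚ] F) : ∃ π : Equiv.Perm (Fin 3), ∀ i, σ (S.e i) = S.e (π i) := by
  have h : ∀ i, ∃ j, σ (S.e i) = S.e j := by
    intro i
    have h1 : E.val (σ (S.e i)) = 0 := by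
      have h2 := congrArg σ (S.root i)
      simpa [Cub.val] using h2
    rw [← E.eval_poly, S.poly_eq, eval_prod, Finset.prod_eq_zero_iff] at h1
    obtain ⟨j, -, hj⟩ := h1
    refine ⟨j, ?_⟩
    simpa [sub_eq_zero] using hj
  choose f hf using h
  have hinj : Function.Injective f := by
    intro i j hij
    have h3 : σ (S.e i) = σ (S.e j) := by rw [hf, hf, hij]
    exact S.inj (σ.injective h3)
  exact ⟨Equiv.ofBijective f ⟨hinj, Finite.surjective_of_injective hinj⟩, hf⟩

/-- The permutation of the roots induced by `σ`: `σ (e i) = e (perm σ i)`. -/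
noncomputable def perm (σ : F ≃ₐ[ℚ] F) : Equiv.Perm (Fin 3) := (S.exists_perm σ).choose

theorem perm_spec (σ : F ≃ₐ[ℚ] F) (i : Fin 3) : σ (S.e i) = S.e (S.perm σ i) :=
  (S.exists_perm σ).choose_spec i

/-- `c_J(α)_i = ∏_{j ∈ J} ∏_{σ : σ e_j = e_i} σ(α)`. -/
noncomputable def cJ (J : Finset (Fin 3)) (α : F) (i : Fin 3) : F :=
  open Classical in
  ∏ j ∈ J, ∏ σ ∈ (Finset.univ : Finset (F ≃ₐ[ℚ] F)).filter (fun σ => S.perm σ j = i), σ α

/-- `p` is a prime, prime to `2 disc(f)`, and `w` is a prime of `F` above `p` of degree one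
(then `f` splits completely modulo `p`, and `p` splits completely in `F`). -/
structure SplP (S : Split E F) (p : ℕ) (w : HeightOneSpectrum (𝓞 F)) : Prop where
  prime : p.Prime
  good : ¬ (p : ℤ) ∣ 2 * E.disc
  ker : ∃ φ : 𝓞 F →+* ZMod p, RingHom.ker φ = w.asIdeal

/-- The three components over `F` of the descent map of the twist `E^D` on `E^D(ℚ)`. -/
noncomputable def beta (D : ℤ) (P : (E.twist D).Pt ℚ) (i : Fin 3) : SqC F :=
  open Classical in
  (E.twist D).dl ((D : F) * S.e i) ((E.twist D).ptMap (algebraMap ℚ F) P)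

/-- The image of `E^D(ℚ)` (the subgroup generated by it; it is equal to the image). -/
noncomputable def G (D : ℤ) : Subgroup (Fin 3 → SqC F) :=
  Subgroup.closure (Set.range fun P : (E.twist D).Pt ℚ => S.beta D P)

/-- The triples of square classes with product one, compatible with the Galois action and
unramified outside `2 disc(f)` and the primes of `T`. -/
noncomputable def Hs (T : Finset ℕ) : Subgroup (Fin 3 → SqC F) where
  carrier := {b | ∏ i, b i = 1 ∧
    (∀ (σ : F ≃ₐ[ℚ] F) (i : Fin 3), sqMap (σ : F →+* F) (b i) = b (S.perm σ i)) ∧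
    ∀ w : HeightOneSpectrum (𝓞 F),
      (∀ p : ℕ, p.Prime → (p : 𝓞 F) ∈ w.asIdeal → ¬ (p : ℤ) ∣ 2 * E.disc ∧ p ∉ T) →
      ∀ i, par w (b i) = 1}
  one_mem' := by
    refine ⟨by simp, fun σ i => by simp, fun w _ i => by simp⟩
  mul_mem' := by
    rintro b c ⟨h1, h2, h3⟩ ⟨k1, k2, k3⟩
    refine ⟨?_, fun σ i => ?_, fun w hw i => ?_⟩
    · have h4 : ∏ i, (b * c) i = (∏ i, b i) * ∏ i, c i := Finset.prod_mul_distrib
      rw [h4, h1, k1]
      exact one_mul 1
    · simp only [Pi.mul_apply, map_mul, h2, k2]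
    · simp only [Pi.mul_apply, map_mul, h3 w hw i, k3 w hw i, mul_one]
  inv_mem' := by
    rintro b ⟨h1, h2, h3⟩
    refine ⟨?_, fun σ i => ?_, fun w hw i => ?_⟩
    · have h4 : ∏ i, (b⁻¹ * b) i = (∏ i, b⁻¹ i) * ∏ i, b i := Finset.prod_mul_distrib
      rw [h1, inv_mul_cancel] at h4
      have h5 : ∏ i : Fin 3, (1 : Fin 3 → SqC F) i = 1 := Finset.prod_const_one
      rw [h5] at h4
      exact ((mul_one _).symm.trans h4.symm)
    · simp only [Pi.inv_apply, map_inv, h2]
    · simp only [Pi.inv_apply, map_inv, h3 w hw i, inv_one]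

end Split

/-- The conjugate prime `σ⁻¹(w)`. -/
noncomputable def cj {F : Type*} [Field F] [NumberField F] (σ : F ≃ₐ[ℚ] F)
    (w : HeightOneSpectrum (𝓞 F)) : HeightOneSpectrum (𝓞 F) where
  asIdeal := w.asIdeal.comap (RingOfIntegers.mapRingEquiv (σ : F ≃+* F) : 𝓞 F →+* 𝓞 F)
  isPrime := by
    have := w.isPrime
    exact Ideal.comap_isPrime _ _
  ne_bot := by
    intro h
    apply w.ne_bot
    rw [eq_bot_iff]
    intro x hx
    have h1 : (RingOfIntegers.mapRingEquiv (σ : F ≃+* F)).symm x ∈
        w.asIdeal.comap (RingOfIntegers.mapRingEquiv (σ : F ≃+* F) : 𝓞 F →+* 𝓞 F) := by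
      rw [Ideal.mem_comap]
      simpa using hx
    rw [h] at h1
    have h2 : (RingOfIntegers.mapRingEquiv (σ : F ≃+* F)).symm x = 0 := by simpa using h1
    have h3 := congrArg (RingOfIntegers.mapRingEquiv (σ : F ≃+* F)) h2
    simpa using h3

end H16A
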