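import Pool.Agent.Lib.H16A.H4

/-!
# F1 (M): finite fields, the number of square roots of one in `k[θ]`

`A = k[X]/(f)`, `f` separable.  `card_sqrt_one`: the number of `ε ∈ A` with `ε² = 1` is at most
`2 (1 + number of roots of f in k)`.
Let `ε² = 1`, `ε ≠ ± 1`, `ε = h(θ)`.  Then `f | (h - 1)(h + 1)`, the factors are coprime (`2 ≠ 0`), so
`f = gcd(f, h - 1) gcd(f, h + 1)` (up to a unit), both factors of positive degree (otherwise `ε = ± 1`),
so exactly one of them has degree one: there are a root `e` of `f` and a sign `s` with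
`ε(e) = s` and `ε = - s` modulo `g = f/(X - e)`, and `(e, s)` determine `ε`.
(So `ε = -s (1 - 2 g(θ)/g(e))`.)  Hence at most `2 + 2 · #roots` elements.
-/

open Polynomial

namespace H16A
namespace Cub

variable (E : Cub) {k : Type*} [Field k]

/-- an element killed by `θ - e` is a multiple of `g(θ)` -/
theorem f1_ann {e : k} {u : E.Alg k} (h : (E.th k - algebraMap k (E.Alg k) e) * u = 0) :
    ∃ c : k, u = algebraMap k (E.Alg k) c * (E.th k ^ 2 +
      algebraMap k (E.Alg k) (E.a + e) * E.th k + algebraMap k (E.Alg k) (E.b + e * (E.a + e))) := by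
  obtain ⟨u₀, u₁, u₂, rfl⟩ := E.exists_coords u
  have hth := E.h4_th (L := k)
  have h3 : algebraMap k (E.Alg k) (-E.c * u₂ - e * u₀) +
      algebraMap k (E.Alg k) (u₀ - E.b * u₂ - e * u₁) * E.th k +
      algebraMap k (E.Alg k) (u₁ - E.a * u₂ - e * u₂) * E.th k ^ 2 = 0 := by
    simp only [map_add, map_sub, map_mul, map_neg]
    linear_combination h - algebraMap k (E.Alg k) u₂ * hth
  obtain ⟨-, hA1, hA2⟩ := E.h4_coeff h3
  refine ⟨u₂, ?_⟩
  have h4 : u₁ = (E.a + e) * u₂ := by linear_combination hA2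
  have h5 : u₀ = (E.b + e * (E.a + e)) * u₂ := by
    rw [h4] at hA1
    linear_combination hA1
  rw [h4, h5]
  simp only [map_add, map_mul]
  ring

theorem f1_unique (h2 : (2 : k) ≠ 0) {e s : k} (hs : s ^ 2 = 1) {u u' : E.Alg k}
    (h : (E.th k - algebraMap k (E.Alg k) e) * (u + algebraMap k (E.Alg k) s) = 0)
    (h' : (E.th k - algebraMap k (E.Alg k) e) * (u' + algebraMap k (E.Alg k) s) = 0)
    (hu : u ^ 2 = 1) (hu' : u' ^ 2 = 1) (hn : u ≠ - algebraMap k (E.Alg k) s)
    (hn' : u' ≠ - algebraMap k (E.Alg k) s) : u = u' := by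
  obtain ⟨c, hc⟩ := E.f1_ann h
  obtain ⟨c', hc'⟩ := E.f1_ann h'
  have hs' : (algebraMap k (E.Alg k) s) ^ 2 = 1 := by rw [← map_pow, hs, map_one]
  set G : E.Alg k := E.th k ^ 2 +
      algebraMap k (E.Alg k) (E.a + e) * E.th k + algebraMap k (E.Alg k) (E.b + e * (E.a + e))
    with hG
  have hc0 : c ≠ 0 := by
    rintro rfl
    apply hn
    rw [map_zero, zero_mul] at hc
    linear_combination hc
  have hc0' : c' ≠ 0 := by
    rintro rfl
    apply hn'
    rw [map_zero, zero_mul] at hc'
    linear_combination hc'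
  have h3 : (algebraMap k (E.Alg k) c * G) ^ 2 = 2 * algebraMap k (E.Alg k) s *
      (algebraMap k (E.Alg k) c * G) := by
    rw [← hc]
    linear_combination hu - hs'
  have h3' : (algebraMap k (E.Alg k) c' * G) ^ 2 = 2 * algebraMap k (E.Alg k) s *
      (algebraMap k (E.Alg k) c' * G) := by
    rw [← hc']
    linear_combination hu' - hs'
  have h4 : algebraMap k (E.Alg k) (2 * s * c * c' * (c' - c)) * G = 0 := by
    simp only [map_mul, map_sub, map_ofNat]
    linear_combination - (algebraMap k (E.Alg k) c') ^ 2 * h3 +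
      (algebraMap k (E.Alg k) c) ^ 2 * h3'
  have hs0 : s ≠ 0 := by
    rintro rfl
    simp at hs
  have h5 : (2 * s * c * c' * (c' - c)) = 0 := by
    by_contra h6
    have h7 : algebraMap k (E.Alg k) c * G = 0 := by
      have h8 : algebraMap k (E.Alg k) (2 * s * c * c' * (c' - c))⁻¹ *
        (algebraMap k (E.Alg k) (2 * s * c * c' * (c' - c)) * G) = 0 := by rw [h4, mul_zero]
      rw [← mul_assoc, ← map_mul, inv_mul_cancel₀ h6, map_one, one_mul] at h8
      rw [h8, mul_zero]
    apply hn
    rw [h7] at hc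
    linear_combination hc
  have h6 : c' = c := by
    rcases mul_eq_zero.1 h5 with h7 | h7
    · exfalso
      have : 2 * s * c * c' ≠ 0 := by simp [h2, hs0, hc0, hc0']
      exact this h7
    · exact sub_eq_zero.1 h7
  rw [h6, ← hc] at hc'
  linear_combination - hc'

theorem f1_exists (u : E.Alg k) (hu : u ^ 2 = 1) (h1 : u ≠ 1) (h1' : u ≠ -1) :
    ∃ (b : Bool) (e : k), E.val e = 0 ∧
      (E.th k - algebraMap k (E.Alg k) e) * (u + algebraMap k (E.Alg k) (if b then 1 else -1)) = 0
      ∧ u ≠ - algebraMap k (E.Alg k) (if b then 1 else -1) := by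
  obtain ⟨h, rfl⟩ := AdjoinRoot.mk_surjective u
  have hdvd : E.poly k ∣ (h - 1) * (h + 1) := by
    rw [← AdjoinRoot.mk_eq_zero]
    simp only [map_mul, map_sub, map_add, map_one]
    linear_combination hu
  obtain ⟨d₁, d₂, hd1, hd2, hf⟩ := exists_dvd_and_dvd_of_dvd_mul hdvd
  have hdeg : (E.poly k).natDegree = 3 := by
    unfold poly
    compute_degree!
  have hf0 : E.poly k ≠ 0 := (E.poly_monic k).ne_zero
  have hd10 : d₁ ≠ 0 := by rintro rfl; apply hf0; rw [hf, zero_mul]
  have hd20 : d₂ ≠ 0 := by rintro rfl; apply hf0; rw [hf, mul_zero]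
  have hsum : d₁.natDegree + d₂.natDegree = 3 := by
    rw [← natDegree_mul hd10 hd20, ← hf, hdeg]
  have hpos1 : d₁.natDegree ≠ 0 := by
    intro h0
    have hun : IsUnit d₁ := by
      rw [Polynomial.isUnit_iff_degree_eq_zero, degree_eq_natDegree hd10, h0]
      rfl
    apply h1'
    have h3 : E.poly k ∣ h + 1 := by
      rw [hf]
      exact (hun.mul_left_dvd).2 hd2
    rw [← AdjoinRoot.mk_eq_zero] at h3
    simp only [map_add, map_one] at h3
    linear_combination h3
  have hpos2 : d₂.natDegree ≠ 0 := by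
    intro h0
    have hun : IsUnit d₂ := by
      rw [Polynomial.isUnit_iff_degree_eq_zero, degree_eq_natDegree hd20, h0]
      rfl
    apply h1
    have h3 : E.poly k ∣ h - 1 := by
      rw [hf]
      exact (hun.mul_right_dvd).2 hd1
    rw [← AdjoinRoot.mk_eq_zero] at h3
    simp only [map_sub, map_one] at h3
    linear_combination h3
  have key : ∀ d d' q : k[X], E.poly k = d * d' → d.natDegree = 1 → d' ∣ q →
      ∃ e : k, E.val e = 0 ∧ AdjoinRoot.mk (E.poly k) ((X - C e) * q) = 0 := by
    intro d d' q hdd hd hq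
    have hd0 : d ≠ 0 := by rintro rfl; simp at hd
    obtain ⟨e, he⟩ := Polynomial.exists_root_of_degree_eq_one
      (show d.degree = 1 by rw [degree_eq_natDegree hd0, hd]; rfl)
    obtain ⟨c, hc⟩ := Polynomial.dvd_iff_isRoot.2 he
    have hc0 : c ≠ 0 := by rintro rfl; apply hd0; rw [hc, mul_zero]
    have hcu : IsUnit c := by
      rw [Polynomial.isUnit_iff_degree_eq_zero, degree_eq_natDegree hc0]
      have h4 := natDegree_mul (X_sub_C_ne_zero e) hc0
      rw [← hc, hd, natDegree_X_sub_C] at h4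
      have h5 : c.natDegree = 0 := by omega
      rw [h5]
      rfl
    refine ⟨e, ?_, ?_⟩
    · rw [← E.eval_poly, hdd, eval_mul, he, zero_mul]
    · rw [AdjoinRoot.mk_eq_zero, hdd, hc, mul_assoc]
      apply mul_dvd_mul_left
      exact (hcu.mul_left_dvd).2 hq
  rcases (show d₁.natDegree = 1 ∨ d₂.natDegree = 1 by omega) with h3 | h3
  · obtain ⟨e, he, h4⟩ := key d₁ d₂ (h + 1) hf h3 hd2
    refine ⟨true, e, he, ?_, ?_⟩
    · rw [← h4]
      simp only [map_mul, map_sub, map_add, map_one, if_true, AdjoinRoot.mk_X, AdjoinRoot.mk_C]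
      rfl
    · simpa using h1'
  · obtain ⟨e, he, h4⟩ := key d₂ d₁ (h - 1) (by rw [hf, mul_comm]) h3 hd1
    refine ⟨false, e, he, ?_, ?_⟩
    · rw [← h4]
      simp only [map_mul, map_sub, map_one, Bool.false_eq_true, if_false, map_neg,
        AdjoinRoot.mk_X, AdjoinRoot.mk_C, ← sub_eq_add_neg]
      rfl
    · simpa using h1

theorem card_sqrt_one [Finite k] (h2 : (2 : k) ≠ 0) (hd : ((E.disc : ℤ) : k) ≠ 0) :
    Nat.card {ε : (E.Alg k)ˣ // ε ^ 2 = 1} ≤ 2 * (1 + Nat.card {x : k // E.val x = 0}) := by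
  classical
  let S := {ε : (E.Alg k)ˣ // ε ^ 2 = 1}
  let R := {x : k // E.val x = 0}
  have hS : ∀ ε : S, ((ε.1 : (E.Alg k)ˣ) : E.Alg k) ^ 2 = 1 := by
    intro ε
    have := congrArg (fun t : (E.Alg k)ˣ => (t : E.Alg k)) ε.2
    simpa using this
  have hex : ∀ ε : S, ∃ p : Bool × Option R,
      (p.2 = none ∧ ((ε.1 : (E.Alg k)ˣ) : E.Alg k) = if p.1 then 1 else -1) ∨
      ∃ r : R, p.2 = some r ∧ (E.th k - algebraMap k (E.Alg k) r.1) *
        (((ε.1 : (E.Alg k)ˣ) : E.Alg k) + algebraMap k (E.Alg k) (if p.1 then 1 else -1)) = 0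
      ∧ ((ε.1 : (E.Alg k)ˣ) : E.Alg k) ≠ - algebraMap k (E.Alg k) (if p.1 then 1 else -1) := by
    intro ε
    by_cases h1 : ((ε.1 : (E.Alg k)ˣ) : E.Alg k) = 1
    · exact ⟨(true, none), Or.inl ⟨rfl, by simpa using h1⟩⟩
    by_cases h1' : ((ε.1 : (E.Alg k)ˣ) : E.Alg k) = -1
    · exact ⟨(false, none), Or.inl ⟨rfl, by simpa using h1'⟩⟩
    obtain ⟨b, e, he, h3, h4⟩ := E.f1_exists _ (hS ε) h1 h1'
    exact ⟨(b, some ⟨e, he⟩), Or.inr ⟨⟨e, he⟩, rfl, h3, h4⟩⟩
  choose Φ hΦ using hex
  have hinj : Function.Injective Φ := by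
    intro ε ε' h
    have h5 := hΦ ε
    have h6 := hΦ ε'
    rw [← h] at h6
    apply Subtype.ext
    apply Units.ext
    rcases h5 with ⟨h7, h8⟩ | ⟨r, h7, h8, h9⟩
    · rcases h6 with ⟨-, h8'⟩ | ⟨r', h7', -⟩
      · rw [h8, h8']
      · rw [h7] at h7'
        cases h7'
    · rcases h6 with ⟨h7', h8'⟩ | ⟨r', h7', h8', h9'⟩
      · rw [h7] at h7'
        cases h7'
      · rw [h7] at h7'
        cases h7'
        refine E.f1_unique h2 (s := if (Φ ε).1 then 1 else -1) ?_ h8 h8' (hS ε) (hS ε') h9 h9'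
        split_ifs <;> simp
  have hfin : Finite (Bool × Option R) := inferInstance
  have h7 := Nat.card_le_card_of_injective Φ hinj
  have h8 : Nat.card (Bool × Option R) = 2 * (1 + Nat.card R) := by
    rw [Nat.card_prod, Finite.card_option]
    simp [Nat.card_eq_fintype_card, add_comm]
  rw [h8] at h7
  exact h7

/-- the points of order two -/
theorem card_two_torsion [Finite k] [DecidableEq k] (h2 : (2 : k) ≠ 0)
    (hd : ((E.disc : ℤ) : k) ≠ 0) :
    Nat.card {P : E.Pt k // P + P = 0} = 1 + Nat.card {x : k // E.val x = 0} := by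
  classical
  have hns : ∀ x : k, E.val x = 0 →
      (WeierstrassCurve.Affine.baseChange E.W k).Nonsingular x 0 := by
    intro x hx
    rw [WeierstrassCurve.Affine.nonsingular_iff]
    refine ⟨(E.h4_eq_iff x 0).2 (by simp [hx]), Or.inl ?_⟩
    intro h1
    apply E.der_ne_zero hx hd
    have h3 : 0 = 3 * x ^ 2 + 2 * (E.a : k) * x + E.b := by
      simpa [WeierstrassCurve.Affine.baseChange, WeierstrassCurve.baseChange, W] using h1
    exact h3.symm
  have hneg : ∀ x y : k, (WeierstrassCurve.Affine.baseChange E.W k).negY x y = - y := by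
    intro x y
    simp [WeierstrassCurve.Affine.negY, WeierstrassCurve.Affine.baseChange,
      WeierstrassCurve.baseChange, W]
  have hy0 : ∀ x y : k, ∀ h : (WeierstrassCurve.Affine.baseChange E.W k).Nonsingular x y,
      (WeierstrassCurve.Affine.Point.some x y h : E.Pt k) + .some x y h = 0 → y = 0 := by
    intro x y h h3
    by_contra hy
    have hy' : y ≠ (WeierstrassCurve.Affine.baseChange E.W k).negY x y := by
      rw [hneg]
      intro h4
      have h5 : 2 * y = 0 := by linear_combination h4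
      rcases mul_eq_zero.1 h5 with h6 | h6
      · exact h2 h6
      · exact hy h6
    rw [WeierstrassCurve.Affine.Point.add_self_of_Y_ne hy'] at h3
    exact WeierstrassCurve.Affine.Point.some_ne_zero _ h3
  let F : Option {x : k // E.val x = 0} → {P : E.Pt k // P + P = 0} := fun o =>
    match o with
    | none => ⟨0, add_zero 0⟩
    | some r => ⟨.some r.1 0 (hns r.1 r.2),
        WeierstrassCurve.Affine.Point.add_self_of_Y_eq (by rw [hneg, neg_zero])⟩
  have hF : Function.Bijective F := by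
    constructor
    · rintro (_ | r) (_ | r') h
      · rfl
      · exfalso
        have h3 := congrArg Subtype.val h
        exact (WeierstrassCurve.Affine.Point.some_ne_zero _) h3.symm
      · exfalso
        have h3 := congrArg Subtype.val h
        exact (WeierstrassCurve.Affine.Point.some_ne_zero _) h3
      · have h3 : (WeierstrassCurve.Affine.Point.some r.1 0 (hns r.1 r.2) : E.Pt k) =
          .some r'.1 0 (hns r'.1 r'.2) := congrArg Subtype.val h
        rw [WeierstrassCurve.Affine.Point.some.injEq] at h3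
        congr 1
        exact Subtype.ext h3.1
    · rintro ⟨P, hP⟩
      cases P with
      | zero => exact ⟨none, rfl⟩
      | some x y h =>
        have hy := hy0 x y h hP
        subst hy
        have hx : E.val x = 0 := by
          have := (E.h4_eq_iff x 0).1 h.1
          simpa using this.symm
        exact ⟨some ⟨x, hx⟩, rfl⟩
  rw [← Nat.card_eq_of_bijective F hF, Finite.card_option, add_comm]

end Cub
end H16A
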