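import Pool.Agent.Lib.H16A.H2

/-!
# H4 (M): the kernel of the descent map is `2 E(L)`

`two_div_of_sq`: `P = (x, y)`, `x - θ = z²` in `A = L[θ]`.  Write `z = z₀ + z₁ θ + z₂ θ²`.
* `z₂ ≠ 0`: otherwise the coefficient of `θ²` in `z²` is `z₁²`, so `z₁ = 0`, and the coefficient of `θ`
  is `0`, not `-1`.
* Put `α = (z₁ - a z₂)/z₂`.  Then the `θ²`-coefficient of `(α - θ) z` is `α z₂ - z₁ + a z₂ = 0`, so
  `(α - θ) z = β θ + γ`, and `(x - θ)(α - θ)² = (β θ + γ)²`.
* The polynomial `(x - X)(α - X)² - (β X + γ)² + f(X)` has degree `≤ 2` and vanishes at `θ`, so it is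
  `0`: `f(X) = (X - x)(X - α)² + (β X + γ)²`.
* `w := β α + γ` satisfies `f(α) = w²`; `w ≠ 0`, since otherwise `β X + γ = β (X - α)` and
  `f = (X - α)² (X - x + β²)` has a double root, contradicting `disc f ≠ 0`.
* `f'(α) = 2 β w`, so for `Q = (α, w)` the slope of the tangent is `β`, and `x(2Q) = β² - a - 2α = x`
  (compare the coefficients of `X²`); `2Q = (x, -(β x + γ))`, `y² = f(x) = (β x + γ)²`, so
  `P = ± 2 Q`.

`two_div_of_split`: the split case, `x - e_i = z_i²`: after changing the sign of `z₀` we may assume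
`y = - z₀ z₁ z₂`... (if some `z_i = 0` then `y = 0` and any signs are good); put
`Q = (x + z₀ z₁ + z₀ z₂ + z₁ z₂, (z₀ + z₁)(z₀ + z₂)(z₁ + z₂))`; `z_i + z_j ≠ 0` because
`z_i² ≠ z_j²`; check `f(x_Q) = y_Q²` (`x_Q - e_i = (z_i + z_j)(z_i + z_k)`), slope `z₀ + z₁ + z₂`,
`x(2Q) = x`, `y(2Q) = ± z₀z₁z₂`; take `± Q`.  (It can also be deduced from `two_div_of_sq`, because
`A → L³` is an isomorphism.)
-/

open Polynomial

namespace H16A
namespace Cub

variable (E : Cub) {L : Type*} [Field L] [DecidableEq L]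

omit [DecidableEq L] in
theorem h4_eq_iff (x y : L) : (WeierstrassCurve.Affine.baseChange E.W L).Equation x y ↔
    y ^ 2 = E.val x := by
  rw [WeierstrassCurve.Affine.equation_iff]
  simp [WeierstrassCurve.Affine.baseChange, WeierstrassCurve.baseChange, W, val]

omit [DecidableEq L] in
theorem h4_ns (h2 : (2 : L) ≠ 0) {x y : L} (h : y ^ 2 = E.val x) (hy : y ≠ 0) :
    (WeierstrassCurve.Affine.baseChange E.W L).Nonsingular x y := by
  rw [WeierstrassCurve.Affine.nonsingular_iff]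
  refine ⟨(E.h4_eq_iff x y).2 h, Or.inr ?_⟩
  intro h1
  have h3 : y = -y := by
    simpa [WeierstrassCurve.Affine.baseChange, WeierstrassCurve.baseChange, W] using h1
  have h4 : 2 * y = 0 := by linear_combination h3
  rcases mul_eq_zero.1 h4 with h5 | h5
  · exact h2 h5
  · exact hy h5

theorem h4_double (h2 : (2 : L) ≠ 0) {α w s x y : L} (hw : w ^ 2 = E.val α) (hw0 : w ≠ 0)
    (hs : 2 * w * s = E.der α) (hx : x = s ^ 2 - E.a - 2 * α)
    (h : (WeierstrassCurve.Affine.baseChange E.W L).Nonsingular x y) :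
    ∃ Q : E.Pt L, (WeierstrassCurve.Affine.Point.some x y h : E.Pt L) = Q + Q := by
  have hns := E.h4_ns h2 hw hw0
  have hneg : (WeierstrassCurve.Affine.baseChange E.W L).negY α w = - w := by
    simp [WeierstrassCurve.Affine.negY, WeierstrassCurve.Affine.baseChange,
      WeierstrassCurve.baseChange, W]
  have hy : w ≠ (WeierstrassCurve.Affine.baseChange E.W L).negY α w := by
    rw [hneg]
    intro h3
    have h4 : 2 * w = 0 := by linear_combination h3
    rcases mul_eq_zero.1 h4 with h5 | h5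
    · exact h2 h5
    · exact hw0 h5
  have hsl : (WeierstrassCurve.Affine.baseChange E.W L).slope α α w w = s := by
    rw [WeierstrassCurve.Affine.slope_of_Y_ne rfl hy, hneg]
    have h3 : w - -w ≠ 0 := by
      intro h4
      have h5 : 2 * w = 0 := by linear_combination h4
      rcases mul_eq_zero.1 h5 with h5 | h5
      · exact h2 h5
      · exact hw0 h5
    rw [div_eq_iff h3]
    have h6 : s * (w - -w) = E.der α := by rw [← hs]; ring
    rw [h6]
    simp [WeierstrassCurve.Affine.baseChange, WeierstrassCurve.baseChange, W, der]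
  have hadd := WeierstrassCurve.Affine.Point.add_self_of_Y_ne (h₁ := hns) hy
  have hX : x = (WeierstrassCurve.Affine.baseChange E.W L).addX α α
      ((WeierstrassCurve.Affine.baseChange E.W L).slope α α w w) := by
    rw [hsl, hx]
    simp [WeierstrassCurve.Affine.addX, WeierstrassCurve.Affine.baseChange,
      WeierstrassCurve.baseChange, W]
    ring
  rcases (WeierstrassCurve.Affine.Point.X_eq_iff (h₁ := h) (h₂ :=
      WeierstrassCurve.Affine.nonsingular_add hns hns fun hxy => hy hxy.right)).1 hX with h3 | h3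
  · exact ⟨_, h3.trans hadd.symm⟩
  · refine ⟨-(WeierstrassCurve.Affine.Point.some α w hns : E.Pt L), ?_⟩
    rw [h3, ← hadd, neg_add]

omit [DecidableEq L] in
theorem h4_coeff {p q r : L}
    (h : algebraMap L (E.Alg L) p + algebraMap L (E.Alg L) q * E.th L +
      algebraMap L (E.Alg L) r * E.th L ^ 2 = 0) : p = 0 ∧ q = 0 ∧ r = 0 := by
  have h1 : AdjoinRoot.mk (E.poly L) (C p + C q * X + C r * X ^ 2) = 0 := by
    rw [← h]
    simp [th, AdjoinRoot.algebraMap_eq]
  rw [AdjoinRoot.mk_eq_zero] at h1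
  have h2 : (E.poly L).natDegree = 3 := by
    unfold poly
    compute_degree!
  have h3 : (C p + C q * X + C r * X ^ 2 : L[X]) = 0 := by
    by_contra h4
    have h5 := Polynomial.natDegree_le_of_dvd h1 h4
    have h6 : (C p + C q * X + C r * X ^ 2 : L[X]).natDegree ≤ 2 := by compute_degree
    omega
  refine ⟨?_, ?_, ?_⟩
  · simpa using congrArg (fun g : L[X] => g.coeff 0) h3
  · simpa [coeff_X, coeff_C] using congrArg (fun g : L[X] => g.coeff 1) h3
  · simpa [coeff_X, coeff_C] using congrArg (fun g : L[X] => g.coeff 2) h3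

omit [DecidableEq L] in
theorem h4_th : E.th L ^ 3 = - (algebraMap L (E.Alg L) E.a * E.th L ^ 2) -
    algebraMap L (E.Alg L) E.b * E.th L - algebraMap L (E.Alg L) E.c := by
  have h := AdjoinRoot.mk_self (f := E.poly L)
  have h1 : E.th L ^ 3 + algebraMap L (E.Alg L) E.a * E.th L ^ 2 +
      algebraMap L (E.Alg L) E.b * E.th L + algebraMap L (E.Alg L) E.c = 0 := by
    rw [← h]
    have h2 : AdjoinRoot.mk (E.poly L) (E.poly L) = AdjoinRoot.mk (E.poly L)
      (X ^ 3 + C (E.a : L) * X ^ 2 + C (E.b : L) * X + C (E.c : L)) := rfl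
    rw [h2]
    simp only [map_add, map_mul, map_pow, AdjoinRoot.mk_X, AdjoinRoot.mk_C]
    rfl
  linear_combination h1

omit [DecidableEq L] in
theorem h4_coef3 {p q r p' q' r' : L} (h : (X ^ 3 + C p * X ^ 2 + C q * X + C r : L[X]) =
    X ^ 3 + C p' * X ^ 2 + C q' * X + C r') : p = p' ∧ q = q' := by
  constructor
  · simpa [coeff_X, coeff_C] using congrArg (fun g : L[X] => g.coeff 2) h
  · simpa [coeff_X, coeff_C] using congrArg (fun g : L[X] => g.coeff 1) h

theorem two_div_of_sq (h2 : (2 : L) ≠ 0) (hd : ((E.disc : ℤ) : L) ≠ 0) {x y : L}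
    (h : (WeierstrassCurve.Affine.baseChange E.W L).Nonsingular x y) (z : E.Alg L)
    (hz : z ^ 2 = algebraMap L (E.Alg L) x - E.th L) :
    ∃ Q : E.Pt L, (WeierstrassCurve.Affine.Point.some x y h : E.Pt L) = Q + Q := by
  obtain ⟨z₀, z₁, z₂, rfl⟩ := E.exists_coords z
  have hth := E.h4_th (L := L)
  have h3 : algebraMap L (E.Alg L) (z₀ ^ 2 - 2 * E.c * z₁ * z₂ + E.a * E.c * z₂ ^ 2 - x) +
      algebraMap L (E.Alg L) (2 * z₀ * z₁ - 2 * E.b * z₁ * z₂ + (E.a * E.b - E.c) * z₂ ^ 2 + 1) *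
        E.th L +
      algebraMap L (E.Alg L) (z₁ ^ 2 + 2 * z₀ * z₂ - 2 * E.a * z₁ * z₂ +
        (E.a ^ 2 - E.b) * z₂ ^ 2) * E.th L ^ 2 = 0 := by
    simp only [map_add, map_sub, map_mul, map_pow, map_one, map_ofNat]
    linear_combination hz - (2 * algebraMap L (E.Alg L) z₁ * algebraMap L (E.Alg L) z₂ +
      algebraMap L (E.Alg L) z₂ ^ 2 * (E.th L - algebraMap L (E.Alg L) E.a)) * hth
  obtain ⟨hA0, hA1, hA2⟩ := E.h4_coeff h3
  have hz2 : z₂ ≠ 0 := by
    rintro rfl
    have h4 : z₁ = 0 := by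
      have h5 : z₁ ^ 2 = 0 := by linear_combination hA2
      exact pow_eq_zero_iff (two_ne_zero) |>.1 h5
    rw [h4] at hA1
    simp at hA1
  obtain ⟨α, hα⟩ : ∃ α : L, z₁ = (α + E.a) * z₂ := ⟨z₁ / z₂ - E.a, by field_simp; ring⟩
  subst hα
  have h5 : 2 * z₀ = z₂ * (E.b - α ^ 2) := by
    have h6 : z₂ * (2 * z₀ - z₂ * (E.b - α ^ 2)) = 0 := by linear_combination hA2
    rcases mul_eq_zero.1 h6 with h7 | h7
    · exact absurd h7 hz2
    · linear_combination h7
  have h6 : z₂ ^ 2 * E.val α = 1 := by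
    unfold val
    linear_combination (-1 : L) * hA1 + (α + E.a) * z₂ * h5
  have hw : (z₂⁻¹) ^ 2 = E.val α := by
    field_simp
    linear_combination (-1 : L) * h6
  refine E.h4_double h2 (α := α) (w := z₂⁻¹) (s := z₂ * E.der α / 2) hw (inv_ne_zero hz2) ?_ ?_ h
  · field_simp
  · have h7 : 4 * x = (2 * z₀) ^ 2 - 4 * (2 * E.c * ((α + E.a) * z₂) * z₂ - E.a * E.c * z₂ ^ 2) := by
      linear_combination (-4 : L) * hA0
    rw [h5] at h7
    have h8 : (4 : L) ≠ 0 := by
      have : (4 : L) = 2 * 2 := by norm_num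
      rw [this]
      exact mul_ne_zero h2 h2
    apply mul_left_cancel₀ h8
    rw [h7]
    have h9 : (4 : L) * ((z₂ * E.der α / 2) ^ 2 - E.a - 2 * α) =
        (z₂ * E.der α) ^ 2 - 4 * (E.a + 2 * α) * (z₂ ^ 2 * E.val α) := by
      rw [h6]
      field_simp
      ring
    rw [h9]
    unfold val der
    ring

theorem two_div_of_rel_one (h2 : (2 : L) ≠ 0) (hd : ((E.disc : ℤ) : L) ≠ 0) {P : E.Pt L}
    (hP : E.Rel L 1 P) : ∃ Q : E.Pt L, P = Q + Q := by
  cases P with
  | zero => exact ⟨0, (add_zero (0 : E.Pt L)).symm⟩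
  | some x y h =>
    obtain ⟨-, z, hz⟩ := hP
    refine E.two_div_of_sq h2 hd h z ?_
    simpa using hz

omit [DecidableEq L] in
theorem h4_cls {m : L} (h : cls m = 1) : IsSquare m := by
  unfold cls at h
  split_ifs at h with h0
  · exact ⟨0, by simp [h0]⟩
  · rw [sqMk_eq_one_iff] at h
    simpa using h

theorem two_div_of_split (h2 : (2 : L) ≠ 0) (e : Fin 3 → L) (he : Function.Injective e)
    (hp : E.poly L = ∏ i, (X - C (e i))) (P : E.Pt L) (h : ∀ i, E.dl (e i) P = 1) :
    ∃ Q : E.Pt L, P = Q + Q := by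
  cases P with
  | zero => exact ⟨0, (add_zero (0 : E.Pt L)).symm⟩
  | some x y hn =>
    have h3 : ∀ i, ∃ z : L, x - e i = z ^ 2 := by
      intro i
      have h4 := h i
      simp only [dl] at h4
      split_ifs at h4 with h5
      · exact ⟨0, by simp [h5]⟩
      · obtain ⟨z, hz⟩ := h4_cls h4
        exact ⟨z, by rw [hz]; ring⟩
    choose z hz using h3
    have hp' : E.poly L = (X - C (e 0)) * (X - C (e 1)) * (X - C (e 2)) := by
      rw [hp, Fin.prod_univ_three]
    have hva : ∀ t : L, E.val t = (t - e 0) * (t - e 1) * (t - e 2) := by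
      intro t
      rw [← E.eval_poly, hp']
      simp
    have hcoef : (E.a : L) = -(e 0 + e 1 + e 2) ∧ (E.b : L) = e 0 * e 1 + e 0 * e 2 + e 1 * e 2 := by
      have h4 : (X ^ 3 + C (E.a : L) * X ^ 2 + C (E.b : L) * X + C (E.c : L) : L[X]) =
          X ^ 3 + C (-(e 0 + e 1 + e 2)) * X ^ 2 + C (e 0 * e 1 + e 0 * e 2 + e 1 * e 2) * X +
            C (-(e 0 * e 1 * e 2)) := by
        have h5 : (X ^ 3 + C (E.a : L) * X ^ 2 + C (E.b : L) * X + C (E.c : L) : L[X]) =
          E.poly L := rfl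
        rw [h5, hp']
        simp only [map_neg, map_add, map_mul]
        ring
      exact h4_coef3 h4
    have hne : ∀ i j, i ≠ j → z i + z j ≠ 0 := by
      intro i j hij h5
      apply hij
      apply he
      have h6 : z i = - z j := by linear_combination h5
      have h7 : x - e i = x - e j := by rw [hz, hz, h6]; ring
      linear_combination (-1 : L) * h7
    have hxe : ∀ i, e i = x - z i ^ 2 := by
      intro i
      rw [← hz i]
      ring
    refine E.h4_double h2 (α := x + z 0 * z 1 + z 0 * z 2 + z 1 * z 2)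
      (w := (z 0 + z 1) * (z 0 + z 2) * (z 1 + z 2)) (s := z 0 + z 1 + z 2) ?_ ?_ ?_ ?_ hn
    · rw [hva, hxe 0, hxe 1, hxe 2]
      ring
    · exact mul_ne_zero (mul_ne_zero (hne 0 1 (by decide)) (hne 0 2 (by decide)))
        (hne 1 2 (by decide))
    · unfold der
      rw [hcoef.1, hcoef.2, hxe 0, hxe 1, hxe 2]
      ring
    · rw [hcoef.1, hxe 0, hxe 1, hxe 2]
      ring

end Cub
end H16A
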