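import Pool.Agent.Lib.H16A.H3
import Pool.Agent.Lib.H16A.H4

/-!
# H5 (M): `E(L)/2E(L)` is the image of the descent map modulo squares; functoriality

* `relIndex_eq`: the relation `Rel u P` is the graph of an isomorphism
  `imSub L / squares ≅ E(L)/2E(L)` (`rel_add`, `exists_rel`, `rel_unique`, `rel_zero_iff`,
  `two_div_of_rel_one`, `mem_imSub_iff`).  In Lean: choose for every `P` a unit `u(P)` with
  `Rel u(P) P`; the map `E(L) → (E.Alg L)ˣ ⧸ sqSub`, `P ↦ [u(P)]`, is a homomorphism
  (`Multiplicative (E.Pt L) →* _`) with kernel `2E(L)` and image the image of `imSub`; then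
  `Subgroup.relIndex`/`AddSubgroup.index` are the cardinalities of isomorphic groups.
* `rel_map`: apply the ring homomorphism `E.algMap φ` to the equations; the norm is compatible
  (`norm_eq` of H2, or `Algebra.norm` and base change), `algMap (x - θ) = φ x - θ`.
* `imSub_le_selSub`: `rel_map` for the embeddings of `K` into its completions.
-/

open Polynomial IsDedekindDomain NumberField

namespace H16A
namespace Cub

variable (E : Cub) {L : Type*} [Field L]

theorem H5_gen {G H : Type*} [AddCommGroup G] [CommGroup H] (f : G → H)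
    (hf : ∀ P Q, f (P + Q) = f P * f Q) (S : AddSubgroup G) (hS : ∀ P, P ∈ S ↔ f P = 1)
    (T : Subgroup H) (hT : ∀ x, x ∈ T ↔ ∃ P, f P = x) : S.index = Nat.card T := by
  have h0 : f 0 = 1 := by
    have h1 := hf 0 0
    rw [add_zero] at h1
    exact (mul_eq_left.1 h1.symm)
  let ψ : G →+ Additive H :=
    { toFun := fun P => Additive.ofMul (f P)
      map_zero' := congrArg Additive.ofMul h0
      map_add' := fun P Q => congrArg Additive.ofMul (hf P Q) }
  have hψ : ∀ P, ψ P = Additive.ofMul (f P) := fun P => rfl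
  have hker : ψ.ker = S := by
    ext P
    rw [AddMonoidHom.mem_ker, hψ, hS]
    exact Iff.rfl
  rw [← hker, AddSubgroup.index_ker]
  refine Nat.card_congr (Equiv.subtypeEquiv Additive.toMul fun x => ?_)
  rw [hT]
  constructor
  · rintro ⟨P, rfl⟩
    exact ⟨P, rfl⟩
  · rintro ⟨P, hP⟩
    exact ⟨P, congrArg Additive.ofMul hP⟩

theorem relIndex_eq [DecidableEq L] (h2 : (2 : L) ≠ 0) (hd : ((E.disc : ℤ) : L) ≠ 0) :
    (sqSub (E.Alg L)).relIndex (E.imSub L) = (twoG (E.Pt L)).index := by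
  classical
  have hex := fun P : E.Pt L => exists_rel E h2 hd P
  choose u hu using hex
  have hmul : ∀ P Q, (QuotientGroup.mk (u (P + Q)) : (E.Alg L)ˣ ⧸ sqSub (E.Alg L)) =
      QuotientGroup.mk (u P) * QuotientGroup.mk (u Q) := by
    intro P Q
    rw [← QuotientGroup.mk_mul, eq_comm, QuotientGroup.eq, inv_mul_eq_div]
    exact rel_unique E h2 hd (hu (P + Q)) (rel_add E h2 hd (hu P) (hu Q))
  have hker : ∀ P, P ∈ twoG (E.Pt L) ↔
      (QuotientGroup.mk (u P) : (E.Alg L)ˣ ⧸ sqSub (E.Alg L)) = 1 := by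
    intro P
    rw [QuotientGroup.eq_one_iff]
    constructor
    · rintro ⟨Q, hQ⟩
      have h5 : P = Q + Q := by rw [← hQ]; exact two_nsmul Q
      have h6 := rel_add E h2 hd (hu Q) (hu Q)
      rw [← h5] at h6
      have h7 := rel_unique E h2 hd (hu P) h6
      have h8 : u Q * u Q ∈ sqSub (E.Alg L) := ⟨u Q, by rw [powMonoidHom_apply, pow_two]⟩
      have h9 := Subgroup.mul_mem _ h7 h8
      rwa [div_mul_cancel] at h9
    · intro h
      have h4 : E.Rel L 1 P := by
        have := rel_mul_sq E h2 hd (hu P) (Subgroup.inv_mem _ h)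
        rwa [mul_inv_cancel] at this
      obtain ⟨Q, hQ⟩ := two_div_of_rel_one E h2 hd h4
      exact ⟨Q, by rw [hQ]; exact two_nsmul Q⟩
  have h11 := Subgroup.relIndex_ker (E.imSub L) (QuotientGroup.mk' (sqSub (E.Alg L)))
  rw [QuotientGroup.ker_mk'] at h11
  rw [h11]
  symm
  refine H5_gen (fun P : E.Pt L => (QuotientGroup.mk (u P) : (E.Alg L)ˣ ⧸ sqSub (E.Alg L)))
    hmul (twoG (E.Pt L)) hker _ fun x => ?_
  constructor
  · rintro ⟨v, hv, rfl⟩
    obtain ⟨P, hP⟩ := (mem_imSub_iff E h2 hd v).1 hv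
    refine ⟨P, ?_⟩
    change (QuotientGroup.mk (u P) : (E.Alg L)ˣ ⧸ sqSub (E.Alg L)) = QuotientGroup.mk v
    rw [eq_comm, QuotientGroup.eq, inv_mul_eq_div]
    exact rel_unique E h2 hd (hu P) hP
  · rintro ⟨P, hP⟩
    exact ⟨u P, (mem_imSub_iff E h2 hd _).2 ⟨P, hu P⟩, hP⟩

/-- compatibility of the norm with base change -/
theorem norm_algMap {L' : Type*} [Field L'] (φ : L →+* L') (u : E.Alg L) :
    Algebra.norm L' (E.algMap φ u) = φ (Algebra.norm L u) := by
  obtain ⟨α, β, γ, rfl⟩ := exists_coords E u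
  have h1 : ∀ x : L, E.algMap φ (algebraMap L (E.Alg L) x) =
      algebraMap L' (E.Alg L') (φ x) := fun x => AdjoinRoot.map_of _ _ _ _ x
  have h2 : E.algMap φ (E.th L) = E.th L' := AdjoinRoot.map_root _ _ _ _
  have h3 : E.algMap φ (algebraMap L (E.Alg L) α + algebraMap L (E.Alg L) β * E.th L +
      algebraMap L (E.Alg L) γ * E.th L ^ 2) = algebraMap L' (E.Alg L') (φ α) +
        algebraMap L' (E.Alg L') (φ β) * E.th L' + algebraMap L' (E.Alg L') (φ γ) * E.th L' ^ 2 := by
    rw [map_add, map_add, map_mul, map_mul, map_pow, h1, h1, h1, h2]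
  rw [h3, norm_eq, norm_eq]
  simp only [map_add, map_sub, map_mul, map_pow, map_intCast, map_ofNat]

theorem algMap_th {L' : Type*} [Field L'] (φ : L →+* L') : E.algMap φ (E.th L) = E.th L' := by
  exact AdjoinRoot.map_root _ _ _ _

theorem algMap_algebraMap {L' : Type*} [Field L'] (φ : L →+* L') (x : L) :
    E.algMap φ (algebraMap L (E.Alg L) x) = algebraMap L' (E.Alg L') (φ x) := by
  exact AdjoinRoot.map_of _ _ _ _ x

theorem algMap_comp {L' L'' : Type*} [Field L'] [Field L''] (φ : L →+* L') (ψ : L' →+* L'')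
    (u : E.Alg L) : E.algMap ψ (E.algMap φ u) = E.algMap (ψ.comp φ) u := by
  have h : (E.algMap ψ).comp (E.algMap φ) = E.algMap (ψ.comp φ) := by
    apply AdjoinRoot.ringHom_ext
    · ext x
      simp only [RingHom.comp_apply]
      have h1 : E.algMap φ (AdjoinRoot.of (E.poly L) x) = AdjoinRoot.of (E.poly L') (φ x) :=
        AdjoinRoot.map_of _ _ _ _ x
      have h2 : E.algMap ψ (AdjoinRoot.of (E.poly L') (φ x)) =
          AdjoinRoot.of (E.poly L'') (ψ (φ x)) := AdjoinRoot.map_of _ _ _ _ _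
      have h3 : E.algMap (ψ.comp φ) (AdjoinRoot.of (E.poly L) x) =
          AdjoinRoot.of (E.poly L'') ((ψ.comp φ) x) := AdjoinRoot.map_of _ _ _ _ x
      rw [h1, h2, h3]
      rfl
    · simp only [RingHom.comp_apply]
      have h1 : E.algMap φ (AdjoinRoot.root (E.poly L)) = AdjoinRoot.root (E.poly L') :=
        AdjoinRoot.map_root _ _ _ _
      have h2 : E.algMap ψ (AdjoinRoot.root (E.poly L')) = AdjoinRoot.root (E.poly L'') :=
        AdjoinRoot.map_root _ _ _ _
      have h3 : E.algMap (ψ.comp φ) (AdjoinRoot.root (E.poly L)) =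
          AdjoinRoot.root (E.poly L'') := AdjoinRoot.map_root _ _ _ _
      rw [h1, h2, h3]
  exact congrArg (fun f : E.Alg L →+* E.Alg L'' => f u) h

theorem rel_map [DecidableEq L] {L' : Type*} [Field L'] [DecidableEq L'] (φ : L →+* L')
    {u : (E.Alg L)ˣ} {P : E.Pt L} (h : E.Rel L u P) :
    E.Rel L' (E.uMap φ u) (E.ptMap φ P) := by
  match P, h with
  | .zero, h =>
    obtain ⟨s, hs⟩ := h
    refine ⟨E.algMap φ s, ?_⟩
    change E.algMap φ (u : E.Alg L) = _
    rw [hs, map_mul]
  | .some x y hn, h =>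
    obtain ⟨⟨m, hm⟩, z, hz⟩ := h
    refine ⟨⟨φ m, ?_⟩, E.algMap φ z, ?_⟩
    · change Algebra.norm L' (E.algMap φ (u : E.Alg L)) = _
      rw [norm_algMap, hm, map_mul]
    · change E.algMap φ (u : E.Alg L) * _ = algebraMap L' (E.Alg L') (φ x) - E.th L'
      rw [← map_pow, ← map_mul, hz, map_sub, algMap_algebraMap, algMap_th]

theorem uMap_mem_imSub {L' : Type*} [Field L'] (φ : L →+* L') {u : (E.Alg L)ˣ}
    (h : u ∈ E.imSub L) : E.uMap φ u ∈ E.imSub L' := by
  classical
  have h1 : E.imSub L ≤ (E.imSub L').comap (E.uMap φ) := by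
    refine (Subgroup.closure_le _).2 ?_
    rintro v ⟨P, hP⟩
    exact Subgroup.subset_closure ⟨E.ptMap φ P, rel_map E φ hP⟩
  exact h1 h

theorem imSub_le_selSub (K : Type*) [Field K] [NumberField K] : E.imSub K ≤ E.selSub K := by
  refine le_inf ?_ (le_inf (le_iInf fun v => ?_) (le_iInf fun v => ?_))
  · rw [imSub, Subgroup.closure_le]
    rintro u ⟨P, hP⟩
    cases P with
    | zero =>
      obtain ⟨r, hr⟩ := (hP : IsSquare (u : E.Alg K))
      change IsSquare (Algebra.norm K (u : E.Alg K))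
      rw [hr, map_mul]
      exact ⟨_, rfl⟩
    | some x y h => exact hP.1
  · intro u hu
    exact uMap_mem_imSub E _ hu
  · intro u hu
    exact uMap_mem_imSub E _ hu

end Cub
end H16A
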