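import Pool.Agent.Lib.H16A.F1
import Pool.Agent.Lib.H16A.H5

/-!
# F2 (M): finite fields, every unit of square norm is in the image of the descent map

`k` a finite field, `2 ≠ 0`, `disc f ≠ 0`, `A = k[θ]` (a finite ring).
For a finite abelian group `G` the index of `G²` (or `2G`) is the number of elements of order
dividing two: `index_sq_eq`.  So
* `[Aˣ : squares] = #{ε ∈ Aˣ : ε² = 1} ≤ 2 (1 + r)`, `r` = number of roots of `f` in `k` (F1);
* `[E(k) : 2E(k)] = #E(k)[2] = 1 + r` (F1);
* `X = {u ∈ Aˣ : N(u) a square in k}` has index at least `2` in `Aˣ`: for `a ∈ kˣ ⊆ Aˣ` we have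
  `N(a) = a³`, which is a nonsquare if `a` is (`k` has nonsquares since `2 ≠ 0`).
* `imSub ≤ X` and `[imSub : squares] = [E(k) : 2E(k)] = 1 + r` (H5), `[X : squares] ≤ (1/2) 2 (1 + r)`.
Hence `imSub = X`.
-/

open Polynomial

namespace H16A
namespace Cub

variable (E : Cub) {k : Type*} [Field k]

/-- the index of the squares in a finite commutative group -/
theorem f2_index_sq (G : Type*) [CommGroup G] [Finite G] :
    (powMonoidHom 2 : G →* G).range.index = Nat.card {g : G // g ^ 2 = 1} := by
  have h1 := (powMonoidHom 2 : G →* G).range.card_mul_index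
  have h2 := (powMonoidHom 2 : G →* G).ker.card_mul_index
  rw [Subgroup.index_ker] at h2
  have h3 : Nat.card (powMonoidHom 2 : G →* G).ker = Nat.card {g : G // g ^ 2 = 1} :=
    Nat.card_congr (Equiv.subtypeEquivRight fun g => Iff.rfl)
  rw [h3] at h2
  have h4 : 0 < Nat.card (powMonoidHom 2 : G →* G).range := Nat.card_pos
  apply Nat.eq_of_mul_eq_mul_left h4
  rw [h1, ← h2, mul_comm]

/-- the index of `2 G` in a finite commutative group -/
theorem f2_index_two (G : Type*) [AddCommGroup G] [Finite G] :
    (twoG G).index = Nat.card {g : G // g + g = 0} := by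
  unfold twoG
  have h1 := (nsmulAddMonoidHom 2 : G →+ G).range.card_mul_index
  have h2 := (nsmulAddMonoidHom 2 : G →+ G).ker.card_mul_index
  rw [AddSubgroup.index_ker] at h2
  have h3 : Nat.card (nsmulAddMonoidHom 2 : G →+ G).ker = Nat.card {g : G // g + g = 0} :=
    Nat.card_congr (Equiv.subtypeEquivRight fun g => by
      rw [AddMonoidHom.mem_ker, nsmulAddMonoidHom_apply, two_nsmul])
  rw [h3] at h2
  have h4 : 0 < Nat.card (nsmulAddMonoidHom 2 : G →+ G).range := Nat.card_pos
  apply Nat.eq_of_mul_eq_mul_left h4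
  rw [h1, ← h2, mul_comm]

/-- the units of square norm -/
noncomputable def f2_X (k : Type*) [Field k] : Subgroup (E.Alg k)ˣ where
  carrier := {u | IsSquare (Algebra.norm k (u : E.Alg k))}
  one_mem' := by
    show IsSquare (Algebra.norm k ((1 : (E.Alg k)ˣ) : E.Alg k))
    rw [Units.val_one, map_one]
    exact IsSquare.one
  mul_mem' := by
    intro u v hu hv
    show IsSquare (Algebra.norm k ((u * v : (E.Alg k)ˣ) : E.Alg k))
    rw [Units.val_mul, map_mul]
    exact IsSquare.mul hu hv
  inv_mem' := by
    intro u hu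
    show IsSquare (Algebra.norm k ((u⁻¹ : (E.Alg k)ˣ) : E.Alg k))
    have h1 : Algebra.norm k ((u⁻¹ : (E.Alg k)ˣ) : E.Alg k) * Algebra.norm k (u : E.Alg k) = 1 := by
      rw [← map_mul, Units.inv_mul, map_one]
    rw [eq_inv_of_mul_eq_one_left h1]
    exact IsSquare.inv hu

theorem f2_finite [Finite k] : Finite (E.Alg k) := by
  have := (E.poly_monic k).finite_adjoinRoot
  exact Module.finite_of_finite k

theorem f2_point_finite [Finite k] : Finite (E.Pt k) := by
  classical
  apply Finite.of_injective (fun P : E.Pt k => match P with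
    | .zero => (none : Option (k × k))
    | .some x y _ => some (x, y))
  intro P Q h
  rcases P with _ | ⟨x, y, hP⟩ <;> rcases Q with _ | ⟨x', y', hQ⟩
  · rfl
  · exact absurd h (by simp)
  · exact absurd h (by simp)
  · simp only [Option.some.injEq, Prod.mk.injEq] at h
    obtain ⟨rfl, rfl⟩ := h
    rfl

theorem mem_imSub_of_finite [Finite k] (h2 : (2 : k) ≠ 0) (hd : ((E.disc : ℤ) : k) ≠ 0)
    (u : (E.Alg k)ˣ) (hu : IsSquare (Algebra.norm k (u : E.Alg k))) : u ∈ E.imSub k := by
  classical
  have hfin := E.f2_finite (k := k)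
  have hpf := E.f2_point_finite (k := k)
  have hX : E.imSub k ≤ E.f2_X k := fun v hv => E.isSquare_norm_of_mem h2 hd hv
  have hS : sqSub (E.Alg k) ≤ E.imSub k := E.sqSub_le_imSub
  -- the index of `X` is at least two
  have hXi : 2 ≤ (E.f2_X k).index := by
    have hne0 : (E.f2_X k).index ≠ 0 := Subgroup.index_ne_zero_of_finite
    have hne1 : (E.f2_X k).index ≠ 1 := by
      rw [Ne, Subgroup.index_eq_one]
      intro htop
      have hchar : ringChar k ≠ 2 := by
        intro h
        apply h2
        have := ringChar.spec k 2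
        rw [h] at this
        exact_mod_cast this.mpr dvd_rfl
      obtain ⟨a, ha⟩ := FiniteField.exists_nonsquare hchar
      have ha0 : a ≠ 0 := by
        rintro rfl
        exact ha IsSquare.zero
      have hmem : Units.map (algebraMap k (E.Alg k) : k →* E.Alg k) (Units.mk0 a ha0) ∈
          E.f2_X k := by
        rw [htop]
        trivial
      have h5 : IsSquare (Algebra.norm k (algebraMap k (E.Alg k) a)) := hmem
      have h6 := E.norm_eq a 0 0
      simp only [map_zero, zero_mul, add_zero] at h6
      rw [h6] at h5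
      apply ha
      obtain ⟨c, hc⟩ := h5
      refine ⟨c / a, ?_⟩
      field_simp
      linear_combination hc
    omega
  have hi1 : (sqSub (E.Alg k)).index ≤ 2 * (1 + Nat.card {x : k // E.val x = 0}) := by
    have h3 := E.card_sqrt_one h2 hd
    unfold sqSub
    rw [f2_index_sq]
    exact h3
  have hi2 : (sqSub (E.Alg k)).relIndex (E.imSub k) = 1 + Nat.card {x : k // E.val x = 0} := by
    rw [E.relIndex_eq h2 hd, f2_index_two, E.card_two_torsion h2 hd]
  have hi3 : (sqSub (E.Alg k)).relIndex (E.imSub k) * (E.imSub k).index =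
      (sqSub (E.Alg k)).index := Subgroup.relIndex_mul_index hS
  have hi4 : (E.imSub k).relIndex (E.f2_X k) * (E.f2_X k).index = (E.imSub k).index :=
    Subgroup.relIndex_mul_index hX
  have hle : (E.imSub k).index ≤ 2 := by
    rw [hi2] at hi3
    have hpos : 0 < 1 + Nat.card {x : k // E.val x = 0} := by omega
    have h7 : (1 + Nat.card {x : k // E.val x = 0}) * (E.imSub k).index ≤
        (1 + Nat.card {x : k // E.val x = 0}) * 2 := by
      rw [hi3]
      omega
    exact Nat.le_of_mul_le_mul_left h7 hpos
  have hne : (E.imSub k).index ≠ 0 := Subgroup.index_ne_zero_of_finite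
  have hrel : (E.imSub k).relIndex (E.f2_X k) = 1 := by
    have h8 : (E.imSub k).relIndex (E.f2_X k) ≠ 0 := by
      intro h
      rw [h, zero_mul] at hi4
      exact hne hi4.symm
    have h9 : (E.imSub k).relIndex (E.f2_X k) * 2 ≤ 2 := by
      calc (E.imSub k).relIndex (E.f2_X k) * 2 ≤
          (E.imSub k).relIndex (E.f2_X k) * (E.f2_X k).index := Nat.mul_le_mul_left _ hXi
        _ = (E.imSub k).index := hi4
        _ ≤ 2 := hle
    omega
  exact (Subgroup.relIndex_eq_one.mp hrel) hu

end Cub
end H16A
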