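import Pool.Agent.Lib.H16A.N1
import Pool.Agent.Lib.H16A.V2

/-!
# N7 (M): the split primes

`hw : S.SplP p w`, `φ : 𝓞 F → ℤ/p` with kernel `w`.
* `rootsMod`: let `a_i ∈ 𝓞 F` be the roots; `f = ∏ (X - a_i)` goes to `∏ (X - φ(a_i))` modulo `p`, so
  integers `m_i` lifting `φ(a_i)` are roots modulo `p`; `φ(a_i) ≠ φ(a_j)` since
  `∏ (φ(a_i) - φ(a_j))² = disc ≠ 0` mod `p`.
* `cj_ne`: if `cj σ w = w`, then `σ` induces an automorphism of `𝓞 F/w ≅ ℤ/p` (via `φ` surjective),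
  which is the identity: `φ(σ x) = φ(x)`.  So `φ(a_{σ i}) = φ(a_i)`, hence `perm σ = 1`, `σ = 1`.
* `ord_p`: `e = 1`: the `|G| = [F:ℚ]` conjugates `cj σ w` are distinct primes above `p`, and
  `Σ e f = [F:ℚ]`.  (Mathlib: `Ideal.ncard_primesOver_mul_ramificationIdxIn_mul_inertiaDegIn`, or
  `Ideal.sum_ramification_inertia`.)  Alternatively without counting: `disc ≠ 0` mod `p` gives `e = 1`:
  if `p ∈ w²`, every `x ∈ 𝓞 F` satisfies ... (use the first way.)
* `isSquare_of_ord`: `t = a/b` with `a, b ∉ w` (`exists_div_of_ord_nonneg`: `ord w t = 0` because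
  `ord w (q t² - 1) > 0`; note `q` is an integer; if `ord w t < 0` use `ord w q ≥ 0`, then
  `ord w (q t²) = 0` gives `ord w q > 0` ...: the hypothesis `p ∤ q` is there to exclude this), so
  `q a² ≡ b²` mod `w`; apply `φ`.
* `exists_splP_of_norm`: if `N(w) = p` then `𝓞 F/w` has `p` elements, so it is `ℤ/p`.
-/

open Polynomial IsDedekindDomain NumberField

namespace H16A
namespace Split

variable {E : Cub} {F : Type} [Field F] [NumberField F] (S : Split E F)

variable {S} in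
theorem SplP.mem {p : ℕ} {w : HeightOneSpectrum (𝓞 F)} (hw : S.SplP p w) :
    (p : 𝓞 F) ∈ w.asIdeal := by
  obtain ⟨φ, hφ⟩ := hw.ker
  rw [← hφ, RingHom.mem_ker, map_natCast]
  exact ZMod.natCast_self p

theorem n7_coe_int (n : ℤ) : (((n : ℤ) : 𝓞 F) : F) = (n : F) :=
  map_intCast (algebraMap (𝓞 F) F) n

theorem n7_disc (a : Fin 3 → 𝓞 F) (ha : ∀ i, (a i : F) = S.e i) :
    (E.disc : 𝓞 F) = ((a 0 - a 1) * (a 0 - a 2) * (a 1 - a 2)) ^ 2 := by
  apply RingOfIntegers.ext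
  rw [n7_coe_int, S.disc_eq, ← ha, ← ha, ← ha]
  push_cast
  rfl

variable {S} in
theorem n7_phi_inj {p : ℕ} {w : HeightOneSpectrum (𝓞 F)} (hw : S.SplP p w)
    (φ : 𝓞 F →+* ZMod p) (a : Fin 3 → 𝓞 F) (ha : ∀ i, (a i : F) = S.e i) :
    Function.Injective fun i => φ (a i) := by
  have : Fact p.Prime := ⟨hw.prime⟩
  have hd : (E.disc : ZMod p) ≠ 0 := by
    intro h
    rw [ZMod.intCast_zmod_eq_zero_iff_dvd] at h
    exact hw.good (Dvd.dvd.mul_left h 2)
  have h1 := congrArg φ (S.n7_disc a ha)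
  rw [map_intCast, map_pow, map_mul, map_mul, map_sub, map_sub, map_sub] at h1
  rw [h1] at hd
  have h2 := pow_ne_zero_iff (n := 2) two_ne_zero |>.1 hd
  have h01 : φ (a 0) ≠ φ (a 1) := by
    intro h; apply h2; rw [h]; ring
  have h02 : φ (a 0) ≠ φ (a 2) := by
    intro h; apply h2; rw [h]; ring
  have h12 : φ (a 1) ≠ φ (a 2) := by
    intro h; apply h2; rw [h]; ring
  intro i j hij
  change φ (a i) = φ (a j) at hij
  fin_cases i <;> fin_cases j <;> first | rfl | (exfalso; first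
    | exact h01 hij | exact h02 hij | exact h12 hij
    | exact h01 hij.symm | exact h02 hij.symm | exact h12 hij.symm)

theorem n7_val_zero (a : Fin 3 → 𝓞 F) (ha : ∀ i, (a i : F) = S.e i) (i : Fin 3) :
    E.val (a i) = 0 := by
  apply RingOfIntegers.ext
  have h := S.root i
  rw [← ha] at h
  unfold Cub.val at h ⊢
  push_cast
  exact h

theorem n7_val_map {R R' : Type*} [CommRing R] [CommRing R'] (φ : R →+* R') (x : R) :
    φ (E.val x) = E.val (φ x) := by
  unfold Cub.val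
  simp

variable {S} in
theorem SplP.rootsMod {p : ℕ} {w : HeightOneSpectrum (𝓞 F)} (hw : S.SplP p w) : E.RootsMod p := by
  have : Fact p.Prime := ⟨hw.prime⟩
  choose a ha using S.e_integral
  obtain ⟨φ, hφ⟩ := hw.ker
  have hinj := n7_phi_inj hw φ a ha
  have hcast : ∀ i, (((φ (a i)).val : ℤ) : ZMod p) = φ (a i) := by
    intro i
    rw [Int.cast_natCast, ZMod.natCast_zmod_val]
  refine ⟨fun i => ((φ (a i)).val : ℤ), fun i => ?_, fun i j hij h => ?_⟩
  · rw [← ZMod.intCast_zmod_eq_zero_iff_dvd]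
    have h1 := n7_val_map (E := E) (Int.castRingHom (ZMod p)) ((φ (a i)).val : ℤ)
    rw [eq_intCast, eq_intCast, hcast, ← n7_val_map φ, S.n7_val_zero a ha, map_zero] at h1
    exact h1
  · rw [← ZMod.intCast_zmod_eq_zero_iff_dvd, Int.cast_sub, hcast, hcast, sub_eq_zero] at h
    exact hij (hinj h)

variable {S} in
theorem SplP.cj_ne {p : ℕ} {w : HeightOneSpectrum (𝓞 F)} (hw : S.SplP p w) {σ : F ≃ₐ[ℚ] F}
    (hσ : σ ≠ 1) : cj σ w ≠ w := by
  intro hcj
  have : Fact p.Prime := ⟨hw.prime⟩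
  choose a ha using S.e_integral
  obtain ⟨φ, hφ⟩ := hw.ker
  have hinj := n7_phi_inj hw φ a ha
  have hmem : ∀ x : 𝓞 F, x ∈ w.asIdeal →
      RingOfIntegers.mapRingEquiv (σ : F ≃+* F) x ∈ w.asIdeal := by
    intro x hx
    rw [← hcj] at hx
    exact hx
  have key : ∀ x : 𝓞 F, φ (RingOfIntegers.mapRingEquiv (σ : F ≃+* F) x) = φ x := by
    intro x
    have h1 : x - ((φ x).val : 𝓞 F) ∈ w.asIdeal := by
      rw [← hφ, RingHom.mem_ker, map_sub, map_natCast, ZMod.natCast_zmod_val, sub_self]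
    have h2 := hmem _ h1
    rw [← hφ, RingHom.mem_ker, map_sub, map_sub, map_natCast, map_natCast,
      ZMod.natCast_zmod_val, sub_eq_zero] at h2
    exact h2
  have hperm : ∀ i, RingOfIntegers.mapRingEquiv (σ : F ≃+* F) (a i) = a (S.perm σ i) := by
    intro i
    apply RingOfIntegers.ext
    have h1 : ((RingOfIntegers.mapRingEquiv (σ : F ≃+* F) (a i) : 𝓞 F) : F) = σ (a i : F) := rfl
    rw [h1, ha, ha]
    exact S.perm_spec σ i
  apply hσ
  apply S.perm_injective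
  rw [S.perm_one]
  ext1 i
  rw [Equiv.Perm.one_apply]
  apply hinj
  change φ (a (S.perm σ i)) = φ (a i)
  rw [← hperm, key]

theorem n7_card {p : ℕ} (hp : p.Prime) (I : Ideal (𝓞 F)) (φ : 𝓞 F →+* ZMod p)
    (hφ : RingHom.ker φ = I) : Ideal.absNorm I = p := by
  have h1 : Ideal.absNorm I = Nat.card (𝓞 F ⧸ I) := rfl
  rw [h1, ← hφ, Nat.card_congr (RingHom.quotientKerEquivOfSurjective
    (ZMod.ringHom_surjective φ)).toEquiv, Nat.card_zmod]

variable {S} in
theorem SplP.ord_p {p : ℕ} {w : HeightOneSpectrum (𝓞 F)} (hw : S.SplP p w) :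
    ord w (p : F) = 1 := by
  classical
  have := S.isGalois
  have hp := hw.prime
  have h1 : 0 < ord w (p : F) := ord_natCast_pos w hp hw.mem
  by_contra hne
  have h2 : (2 : ℕ) ≤ ord w (p : F) := by
    push_cast
    omega
  obtain ⟨φ, hφ⟩ := hw.ker
  have hp0 : (p : 𝓞 F) ≠ 0 := Nat.cast_ne_zero.2 hp.ne_zero
  -- the squares of the conjugate primes divide `p`
  have hdvd : (∏ σ : (F ≃ₐ[ℚ] F), (cj σ w).asIdeal ^ 2) ∣ Ideal.span {(p : 𝓞 F)} := by
    apply Fintype.prod_dvd_of_coprime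
    · intro σ τ hστ
      change IsCoprime ((cj σ w).asIdeal ^ 2) ((cj τ w).asIdeal ^ 2)
      apply IsCoprime.pow
      have := (cj σ w).isMaximal
      have := (cj τ w).isMaximal
      apply Ideal.isCoprime_of_isMaximal
      intro h
      have h3 : cj σ w = cj τ w := HeightOneSpectrum.ext h
      have h4 := congrArg (cj τ⁻¹) h3
      rw [cj_cj, cj_cj, mul_inv_cancel] at h4
      have h5 : cj (1 : F ≃ₐ[ℚ] F) w = w := by
        apply HeightOneSpectrum.ext
        ext x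
        exact Iff.rfl
      rw [h5] at h4
      refine hw.cj_ne (σ := σ * τ⁻¹) ?_ h4
      intro h6
      exact hστ (mul_inv_eq_one.1 h6)
    · intro σ
      rw [Ideal.dvd_span_singleton, ← v2_le_iff (cj σ w) hp0, v2_coe_nat, ord_cj, map_natCast]
      exact h2
  have hnorm : ∀ σ : (F ≃ₐ[ℚ] F), Ideal.absNorm (cj σ w).asIdeal = p := by
    intro σ
    apply n7_card hp _ (φ.comp (RingOfIntegers.mapRingEquiv (σ : F ≃+* F) : 𝓞 F →+* 𝓞 F))
    ext x
    rw [RingHom.mem_ker, RingHom.comp_apply, ← RingHom.mem_ker, hφ]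
    exact Iff.rfl
  have h3 := Ideal.absNorm_dvd_absNorm_of_le (Ideal.dvd_iff_le.1 hdvd)
  rw [Ideal.absNorm_span_natCast, RingOfIntegers.rank, map_prod] at h3
  have h4 : ∏ σ : (F ≃ₐ[ℚ] F), Ideal.absNorm ((cj σ w).asIdeal ^ 2) =
      p ^ (2 * Module.finrank ℚ F) := by
    rw [Finset.prod_congr rfl (fun σ _ => by rw [map_pow, hnorm σ]), Finset.prod_const,
      ← pow_mul, Finset.card_univ, ← Nat.card_eq_fintype_card, IsGalois.card_aut_eq_finrank]
  rw [h4, Nat.pow_dvd_pow_iff_le_right hp.one_lt] at h3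
  have h5 : 0 < Module.finrank ℚ F := Module.finrank_pos
  omega

theorem n7_ord_of_phi {p : ℕ} {w : HeightOneSpectrum (𝓞 F)} (φ : 𝓞 F →+* ZMod p)
    (hφ : RingHom.ker φ = w.asIdeal) {x : 𝓞 F} (hx : φ x ≠ 0) : ord w (x : F) = 0 := by
  have h0 : x ≠ 0 := by
    rintro rfl
    exact hx (map_zero φ)
  have h1 := ord_int_nonneg w x
  have h2 : ¬ 0 < ord w (x : F) := by
    rw [ord_int_pos_iff w h0, ← hφ, RingHom.mem_ker]
    exact hx
  omega

variable {S} in
theorem SplP.ord_int {p : ℕ} {w : HeightOneSpectrum (𝓞 F)} (hw : S.SplP p w) {D : ℤ}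
    (h1 : (p : ℤ) ∣ D) (h2 : ¬ (p : ℤ) ^ 2 ∣ D) : ord w (D : F) = 1 := by
  obtain ⟨φ, hφ⟩ := hw.ker
  obtain ⟨m, rfl⟩ := h1
  have hm : ¬ (p : ℤ) ∣ m := by
    rintro ⟨m', rfl⟩
    exact h2 ⟨m', by ring⟩
  have hφm : φ (m : 𝓞 F) ≠ 0 := by
    rw [map_intCast, Ne, ZMod.intCast_zmod_eq_zero_iff_dvd]
    exact hm
  have h3 := n7_ord_of_phi φ hφ hφm
  rw [n7_coe_int] at h3
  have hm0 : (m : F) ≠ 0 := by
    intro h
    apply hm
    rw [Int.cast_eq_zero] at h
    rw [h]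
    exact dvd_zero _
  have hp0 : (p : F) ≠ 0 := Nat.cast_ne_zero.2 hw.prime.ne_zero
  rw [Int.cast_mul, Int.cast_natCast, ord_mul w hp0 hm0, hw.ord_p, h3]
  rfl

variable {S} in
theorem SplP.ord_sub {p : ℕ} {w : HeightOneSpectrum (𝓞 F)} (hw : S.SplP p w) {i j : Fin 3}
    (hij : i ≠ j) : ord w (S.e i - S.e j) = 0 := by
  choose a ha using S.e_integral
  obtain ⟨φ, hφ⟩ := hw.ker
  have hinj := n7_phi_inj hw φ a ha
  have h1 : φ (a i - a j) ≠ 0 := by
    rw [map_sub, sub_ne_zero]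
    exact fun h => hij (hinj h)
  have h2 := n7_ord_of_phi φ hφ h1
  have h3 : ((a i - a j : 𝓞 F) : F) = S.e i - S.e j := by
    rw [← ha, ← ha]
    rfl
  rwa [h3] at h2

variable {S} in
theorem SplP.isSquare_of_ord {p : ℕ} {w : HeightOneSpectrum (𝓞 F)} (hw : S.SplP p w) {q : ℤ}
    (hq : ¬ (p : ℤ) ∣ q) {t : F} (h : (q : F) * t ^ 2 = 1 ∨ 0 < ord w ((q : F) * t ^ 2 - 1)) :
    IsSquare ((q : ℤ) : ZMod p) := by
  have : Fact p.Prime := ⟨hw.prime⟩
  obtain ⟨φ, hφ⟩ := hw.ker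
  have hφq : φ (q : 𝓞 F) ≠ 0 := by
    rw [map_intCast, Ne, ZMod.intCast_zmod_eq_zero_iff_dvd]
    exact hq
  have hoq : ord w (q : F) = 0 := by
    have := n7_ord_of_phi φ hφ hφq
    rwa [n7_coe_int] at this
  have hq0 : (q : F) ≠ 0 := by
    intro h0
    apply hq
    rw [Int.cast_eq_zero] at h0
    rw [h0]
    exact dvd_zero _
  have ht0 : t ≠ 0 := by
    rintro rfl
    rcases h with h | h
    · rw [zero_pow two_ne_zero, mul_zero] at h
      exact zero_ne_one h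
    · rw [zero_pow two_ne_zero, mul_zero, zero_sub, ord_neg, ord_one] at h
      exact lt_irrefl _ h
  have hprod : ord w ((q : F) * t ^ 2) = 0 := by
    rcases h with h | h
    · rw [h, ord_one]
    · have hne : (q : F) * t ^ 2 - 1 ≠ 0 := by
        intro h0
        rw [h0, v1_ord_zero] at h
        exact lt_irrefl _ h
      have h3 := (ord_add_of_lt w one_ne_zero hne (by rw [ord_one]; exact h)).2
      rw [add_sub_cancel, ord_one] at h3
      exact h3
  have hot : ord w t = 0 := by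
    rw [ord_mul w hq0 (pow_ne_zero 2 ht0), ord_pow, hoq] at hprod
    push_cast at hprod
    omega
  obtain ⟨a, b, hb, hab⟩ := exists_div_of_ord_nonneg w (le_of_eq hot.symm)
  have hb0 : b ≠ 0 := by
    rintro rfl
    exact hb (Ideal.zero_mem _)
  have hbF : (b : F) ≠ 0 := fun h0 => hb0 (RingOfIntegers.ext h0)
  have hφb : φ b ≠ 0 := by
    intro h0
    apply hb
    rw [← hφ, RingHom.mem_ker]
    exact h0
  have hobr : ord w (b : F) = 0 := n7_ord_of_phi φ hφ hφb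
  -- `q a² - b²` is in `w`
  have hmem : (q : 𝓞 F) * a ^ 2 - b ^ 2 ∈ w.asIdeal := by
    by_cases hz : (q : 𝓞 F) * a ^ 2 - b ^ 2 = 0
    · rw [hz]
      exact Ideal.zero_mem _
    · rw [← ord_int_pos_iff w hz]
      have e1 : (((q : 𝓞 F) * a ^ 2 - b ^ 2 : 𝓞 F) : F) = (b : F) ^ 2 * ((q : F) * t ^ 2 - 1) := by
        have e2 : (((q : 𝓞 F) * a ^ 2 - b ^ 2 : 𝓞 F) : F) =
            (((q : ℤ) : 𝓞 F) : F) * (a : F) ^ 2 - (b : F) ^ 2 := by
          push_cast
          rfl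
        rw [e2, n7_coe_int, hab]
        field_simp
      rw [e1]
      have hzF : (b : F) ^ 2 * ((q : F) * t ^ 2 - 1) ≠ 0 := by
        rw [← e1]
        exact fun h0 => hz (RingOfIntegers.ext h0)
      have hne : (q : F) * t ^ 2 - 1 ≠ 0 := right_ne_zero_of_mul hzF
      rcases h with h | h
      · exact absurd (by rw [h, sub_self]) hne
      · rw [ord_mul w (pow_ne_zero 2 hbF) hne, ord_pow, hobr, mul_zero, zero_add]
        exact h
  rw [← hφ, RingHom.mem_ker, map_sub, map_mul, map_pow, map_pow, map_intCast, sub_eq_zero] at hmem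
  have hφa : φ a ≠ 0 := by
    intro h0
    rw [h0, zero_pow two_ne_zero, mul_zero] at hmem
    exact hφb (pow_eq_zero_iff two_ne_zero |>.1 hmem.symm)
  refine ⟨φ b / φ a, ?_⟩
  field_simp
  exact hmem

theorem exists_splP_of_norm {p : ℕ} (hp : p.Prime) (hgood : ¬ (p : ℤ) ∣ 2 * E.disc)
    (w : HeightOneSpectrum (𝓞 F)) (hw : Ideal.absNorm w.asIdeal = p) : S.SplP p w := by
  refine ⟨hp, hgood, ?_⟩
  have h1 : Nat.card (𝓞 F ⧸ w.asIdeal) = p := hw
  have : Finite (𝓞 F ⧸ w.asIdeal) := Nat.finite_of_card_ne_zero (by rw [h1]; exact hp.ne_zero)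
  haveI : Fintype (𝓞 F ⧸ w.asIdeal) := Fintype.ofFinite _
  have h2 : Fintype.card (𝓞 F ⧸ w.asIdeal) = p := by rw [← Nat.card_eq_fintype_card, h1]
  let ψ := (ZMod.ringEquivOfPrime (𝓞 F ⧸ w.asIdeal) hp h2).symm
  refine ⟨(ψ : (𝓞 F ⧸ w.asIdeal) →+* ZMod p).comp (Ideal.Quotient.mk w.asIdeal), ?_⟩
  ext x
  rw [RingHom.mem_ker, RingHom.comp_apply]
  constructor
  · intro h
    rw [← Ideal.Quotient.eq_zero_iff_mem]
    exact ψ.injective (h.trans (map_zero ψ).symm)
  · intro h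
    rw [Ideal.Quotient.eq_zero_iff_mem.2 h, map_zero]

end Split
end H16A
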