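import Pool.Agent.Lib.H16A.N2
import Pool.Agent.Lib.H16A.N7

/-!
# N4 (M): the triples `c_J(α)`

`c_J(α)_i = ∏_{j ∈ J} ∏_{σ : σ e_j = e_i} σ(α)`.
* `cJ_galois`: `τ` maps `{σ : σ e_j = e_i}` bijectively to `{σ' : σ' e_j = τ e_i}` (`perm_mul`).
* `cJ_prod`: `∏_i ∏_{σ : σ e_j = e_i} σ(α) = ∏_σ σ(α) = N(α)` for every `j`.
* `ord_cJ`: additivity of `ord`, `ord w (σ α) = ord (cj σ w) α`.
* `ord_cJ_split`: only `σ = 1` contributes, because `cj σ w ≠ w` for `σ ≠ 1` and `cj σ w` lies above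
  `p`; `perm 1 = 1`, so it contributes to `i` iff `i ∈ J`.
* `exists_unit`, `isSquare_norm`: `exists_of_galois`, `norm_ev`, `cJ_prod`: the norm is
  `N(α)^{|J|}`.
-/

open Polynomial IsDedekindDomain NumberField

namespace H16A
namespace Split

variable {E : Cub} {F : Type} [Field F] [NumberField F] (S : Split E F)

theorem cJ_galois (τ : F ≃ₐ[ℚ] F) (J : Finset (Fin 3)) (α : F) (i : Fin 3) :
    τ (S.cJ J α i) = S.cJ J α (S.perm τ i) := by
  classical
  unfold cJ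
  rw [map_prod]
  refine Finset.prod_congr rfl fun j _ => ?_
  rw [map_prod]
  refine Finset.prod_nbij' (fun σ => τ * σ) (fun σ => τ⁻¹ * σ) ?_ ?_ ?_ ?_ ?_
  · intro σ hσ
    rw [Finset.mem_filter] at hσ ⊢
    refine ⟨Finset.mem_univ _, ?_⟩
    rw [S.perm_mul, Equiv.Perm.mul_apply, hσ.2]
  · intro σ hσ
    rw [Finset.mem_filter] at hσ ⊢
    refine ⟨Finset.mem_univ _, ?_⟩
    have h1 : S.perm τ⁻¹ * S.perm τ = 1 := by
      rw [← S.perm_mul, inv_mul_cancel, S.perm_one]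
    rw [S.perm_mul, Equiv.Perm.mul_apply, hσ.2, ← Equiv.Perm.mul_apply, h1, Equiv.Perm.one_apply]
  · intro σ _
    exact inv_mul_cancel_left τ σ
  · intro σ _
    exact mul_inv_cancel_left τ σ
  · intro σ _
    rfl

theorem cJ_mul (J : Finset (Fin 3)) (α β : F) (i : Fin 3) :
    S.cJ J (α * β) i = S.cJ J α i * S.cJ J β i := by
  unfold cJ
  simp only [map_mul, Finset.prod_mul_distrib]

theorem cJ_ne_zero (J : Finset (Fin 3)) {α : F} (hα : α ≠ 0) (i : Fin 3) : S.cJ J α i ≠ 0 := by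
  unfold cJ
  exact Finset.prod_ne_zero_iff.2 fun j _ => Finset.prod_ne_zero_iff.2 fun σ _ =>
    (map_ne_zero σ).2 hα

theorem cJ_prod (J : Finset (Fin 3)) (α : F) :
    ∏ i, S.cJ J α i = algebraMap ℚ F (Algebra.norm ℚ α) ^ J.card := by
  classical
  have hG : IsGalois ℚ F := S.isGalois
  unfold cJ
  rw [Finset.prod_comm]
  rw [← Finset.prod_const]
  refine Finset.prod_congr rfl fun j _ => ?_
  rw [Finset.prod_fiberwise, Algebra.norm_eq_prod_automorphisms]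

open Classical in
theorem ord_cJ (w : HeightOneSpectrum (𝓞 F)) (J : Finset (Fin 3)) {α : F} (hα : α ≠ 0)
    (i : Fin 3) :
    ord w (S.cJ J α i) = ∑ j ∈ J,
      ∑ σ ∈ (Finset.univ : Finset (F ≃ₐ[ℚ] F)).filter (fun σ => S.perm σ j = i),
        ord (cj σ w) α := by
  unfold cJ
  rw [ord_prod w _ _ fun j _ => Finset.prod_ne_zero_iff.2 fun σ _ => (map_ne_zero σ).2 hα]
  refine Finset.sum_congr rfl fun j _ => ?_
  rw [ord_prod w _ _ fun σ _ => (map_ne_zero σ).2 hα]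
  refine Finset.sum_congr rfl fun σ _ => ?_
  rw [ord_cj]

theorem n4_cj_one (w : HeightOneSpectrum (𝓞 F)) : cj (1 : F ≃ₐ[ℚ] F) w = w := by
  apply HeightOneSpectrum.ext
  ext x
  exact Iff.rfl

theorem ord_cJ_split {p : ℕ} {w : HeightOneSpectrum (𝓞 F)} (hw : S.SplP p w)
    (J : Finset (Fin 3)) {α : F} (hα : α ≠ 0)
    (h : ∀ w' : HeightOneSpectrum (𝓞 F), (p : 𝓞 F) ∈ w'.asIdeal → w' ≠ w → ord w' α = 0)
    (i : Fin 3) : ord w (S.cJ J α i) = if i ∈ J then ord w α else 0 := by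
  classical
  rw [S.ord_cJ w J hα i]
  have h1 : ∀ j ∈ J, ∑ σ ∈ (Finset.univ : Finset (F ≃ₐ[ℚ] F)).filter (fun σ => S.perm σ j = i),
      ord (cj σ w) α = if i = j then ord w α else 0 := by
    intro j _
    have h2 : ∀ σ ∈ (Finset.univ : Finset (F ≃ₐ[ℚ] F)).filter (fun σ => S.perm σ j = i),
        ord (cj σ w) α = if σ = 1 then ord w α else 0 := by
      intro σ _
      by_cases hσ : σ = 1
      · rw [if_pos hσ, hσ, n4_cj_one]
      · rw [if_neg hσ]
        exact h _ ((mem_cj_iff w σ p).2 hw.mem) (hw.cj_ne hσ)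
    rw [Finset.sum_congr rfl h2, Finset.sum_ite_eq']
    by_cases hij : i = j
    · rw [if_pos hij, if_pos]
      rw [Finset.mem_filter, S.perm_one]
      exact ⟨Finset.mem_univ _, hij.symm⟩
    · rw [if_neg hij, if_neg]
      rw [Finset.mem_filter, S.perm_one]
      exact fun h3 => hij h3.2.symm
  rw [Finset.sum_congr rfl h1, Finset.sum_ite_eq]

theorem exists_unit (J : Finset (Fin 3)) {α : F} (hα : α ≠ 0) :
    ∃ h : (E.Alg ℚ)ˣ, ∀ i, S.ev i (h : E.Alg ℚ) = S.cJ J α i := by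
  obtain ⟨h, hh⟩ := S.exists_of_galois (S.cJ J α) fun σ i => S.cJ_galois σ J α i
  have hu : IsUnit h := S.isUnit_of_ev h fun i => by
    rw [hh i]
    exact S.cJ_ne_zero J hα i
  exact ⟨hu.unit, fun i => hh i⟩

theorem isSquare_norm {J : Finset (Fin 3)} (hJ : Even J.card) {α : F} {h : E.Alg ℚ}
    (hh : ∀ i, S.ev i h = S.cJ J α i) : IsSquare (Algebra.norm ℚ h) := by
  obtain ⟨m, hm⟩ := hJ
  refine ⟨Algebra.norm ℚ α ^ m, ?_⟩
  apply (algebraMap ℚ F).injective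
  rw [S.norm_ev h, Finset.prod_congr rfl fun i _ => hh i, S.cJ_prod, hm, map_mul, map_pow,
    pow_add]

end Split
end H16A
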