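import Pool.Agent.Lib.H16A.N2
import Pool.Agent.Lib.H16A.V2

/-!
# N5 (M): integrality away from `T`, congruence at the primes dividing `2 disc`

* `goodAway`: let `p ∉ T`, `p ∤ 2 disc`, so all the `h(e_i)` have order `0` at all the primes above `p`.
  There is an integer `n₀` prime to `p` with `n₀ h(e_i) ∈ 𝓞 F` for all `i` (the denominator ideals
  are prime to `p`; e.g. `𝓞 F`-module `{x : x h(e_i) ∈ 𝓞 F ∀ i}` is an ideal not contained in any
  prime above `p`, so it is coprime to `(p)` and contains `1 + p y`; take a norm).  By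
  `exists_int_poly` (`m = 1`) `disc · n₀ h = k(θ)`, and `n = |disc| n₀` is prime to `p` (change the sign
  of `k` if necessary).  The same for `h⁻¹`, with the same `n` after multiplying.
* `oneAt`: `M = 8 disc²`, `h(e_i) = A_i/B_i`, `A_i ≡ B_i` mod `M`, `B_i` invertible mod `M`.  Let
  `n = |N_{F/ℚ}(B_0 B_1 B_2)|`: prime to `M` (hence to `2 disc`), and `n/B_i ∈ 𝓞 F`.  Then
  `n (h(e_i) - 1) = (n/B_i)(A_i - B_i) ∈ M 𝓞 F`, so by `exists_int_poly`
  `disc · n (h - 1) = M k(θ)`, and dividing by `disc`: `n (h - 1) = 8 disc k(θ)`.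
-/

open Polynomial IsDedekindDomain NumberField

namespace H16A

section

variable {F : Type*} [Field F] [NumberField F]

/-- the denominator of an element which is integral above the primes dividing `d` can be taken
prime to `d` -/
theorem n5_den_aux (x : F) (hx : x ≠ 0) (d : ℕ)
    (H : ∀ (w : HeightOneSpectrum (𝓞 F)) (q : ℕ), q.Prime → q ∣ d → (q : 𝓞 F) ∈ w.asIdeal →
      0 ≤ ord w x) : ∀ N : ℕ, N ≠ 0 → (∃ a : 𝓞 F, (N : F) * x = (a : F)) →
    ∃ n : ℕ, n ≠ 0 ∧ n.Coprime d ∧ ∃ a : 𝓞 F, (n : F) * x = (a : F) := by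
  intro N
  induction N using Nat.strong_induction_on with
  | _ N ih =>
    intro hN hint
    by_cases hc : N.Coprime d
    · exact ⟨N, hN, hc, hint⟩
    · obtain ⟨q, hq, hqN, hqd⟩ := Nat.Prime.not_coprime_iff_dvd.1 hc
      obtain ⟨N', rfl⟩ := hqN
      have hN' : N' ≠ 0 := by
        rintro rfl
        exact hN (mul_zero _)
      have hlt : N' < q * N' := by
        have := hq.two_le
        have h1 : 0 < N' := Nat.pos_of_ne_zero hN'
        nlinarith
      refine ih N' hlt hN' ?_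
      obtain ⟨a, ha⟩ := hint
      have hqF : (q : F) ≠ 0 := Nat.cast_ne_zero.2 hq.ne_zero
      have hN'F : (N' : F) ≠ 0 := Nat.cast_ne_zero.2 hN'
      obtain ⟨b, hb⟩ := isIntegral_of_ord_nonneg (x := (N' : F) * x) (fun w => by
        by_cases hw : (q : 𝓞 F) ∈ w.asIdeal
        · rw [ord_mul w hN'F hx]
          have h1 := H w q hq hqd hw
          have h2 : 0 ≤ ord w (N' : F) := by
            have := ord_int_nonneg w (N' : 𝓞 F)
            rwa [v2_coe_nat] at this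
          omega
        · have h1 : ord w ((q : F) * ((N' : F) * x)) = ord w (q : F) + ord w ((N' : F) * x) :=
            ord_mul w hqF (mul_ne_zero hN'F hx)
          have h2 : (q : F) * ((N' : F) * x) = (a : F) := by
            rw [← ha]
            push_cast
            ring
          rw [h2] at h1
          have h3 : 0 ≤ ord w (a : F) := ord_int_nonneg w a
          have h4 : ¬ 0 < ord w (q : F) := by
            intro h5
            apply hw
            have hq0 : ((q : ℕ) : 𝓞 F) ≠ 0 := Nat.cast_ne_zero.2 hq.ne_zero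
            rw [← ord_int_pos_iff w hq0, v2_coe_nat]
            exact h5
          omega)
      exact ⟨b, hb.symm⟩

theorem n5_den (x : F) (d : ℕ)
    (H : ∀ (w : HeightOneSpectrum (𝓞 F)) (q : ℕ), q.Prime → q ∣ d → (q : 𝓞 F) ∈ w.asIdeal →
      0 ≤ ord w x) : ∃ n : ℕ, n ≠ 0 ∧ n.Coprime d ∧ ∃ a : 𝓞 F, (n : F) * x = (a : F) := by
  by_cases hx : x = 0
  · exact ⟨1, one_ne_zero, Nat.coprime_one_left d, 0, by rw [hx, mul_zero, v2_coe_zero]⟩
  · have hal : IsAlgebraic ℤ x := by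
      have h1 : IsAlgebraic ℚ x := Algebra.IsAlgebraic.isAlgebraic x
      exact (IsFractionRing.isAlgebraic_iff ℤ ℚ F).2 h1
    obtain ⟨y, hy, hint⟩ := hal.exists_integral_multiple
    refine n5_den_aux x hx d H y.natAbs (Int.natAbs_ne_zero.2 hy) ?_
    let a : 𝓞 F := ⟨y • x, hint⟩
    have ha : (a : F) = (y : F) * x := by
      show y • x = _
      rw [zsmul_eq_mul]
    rcases Int.natAbs_eq y with h | h
    · refine ⟨a, ?_⟩
      rw [ha]
      have : (y : F) = (y.natAbs : F) := by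
        have := congrArg (Int.cast : ℤ → F) h
        rwa [Int.cast_natCast] at this
      rw [this]
    · refine ⟨-a, ?_⟩
      have h2 : ((-a : 𝓞 F) : F) = -(a : F) := map_neg (algebraMap (𝓞 F) F) a
      rw [h2, ha]
      have : (y : F) = -(y.natAbs : F) := by
        have := congrArg (Int.cast : ℤ → F) h
        rwa [Int.cast_neg, Int.cast_natCast] at this
      rw [this]
      ring

/-- common denominator of finitely many elements -/
theorem n5_den_fin {κ : Type*} [Fintype κ] (x : κ → F) (d : ℕ)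
    (H : ∀ (w : HeightOneSpectrum (𝓞 F)) (q : ℕ), q.Prime → q ∣ d → (q : 𝓞 F) ∈ w.asIdeal →
      ∀ i, 0 ≤ ord w (x i)) :
    ∃ n : ℕ, n ≠ 0 ∧ n.Coprime d ∧ ∀ i, ∃ a : 𝓞 F, (n : F) * x i = (a : F) := by
  classical
  choose n hn0 hnc a ha using fun i => n5_den (x i) d (fun w q hq hqd hw => H w q hq hqd hw i)
  refine ⟨∏ i, n i, Finset.prod_ne_zero_iff.2 fun i _ => hn0 i,
    Nat.Coprime.prod_left fun i _ => hnc i, fun i => ?_⟩
  refine ⟨((∏ j ∈ Finset.univ.erase i, n j : ℕ) : 𝓞 F) * a i, ?_⟩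
  have h1 : (((((∏ j ∈ Finset.univ.erase i, n j : ℕ) : 𝓞 F) * a i : 𝓞 F)) : F) =
      ((∏ j ∈ Finset.univ.erase i, n j : ℕ) : F) * (a i : F) := by
    rw [← v2_coe_nat]
    exact map_mul (algebraMap (𝓞 F) F) _ _
  rw [h1, ← ha i, ← Finset.mul_prod_erase Finset.univ n (Finset.mem_univ i)]
  push_cast
  ring

end

namespace Split

variable {E : Cub} {F : Type} [Field F] [NumberField F] (S : Split E F)

theorem n5_ev_ne (h : (E.Alg ℚ)ˣ) (i : Fin 3) : S.ev i (h : E.Alg ℚ) ≠ 0 :=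
  (h.isUnit.map (S.ev i)).ne_zero

theorem n5_ev_inv (h : (E.Alg ℚ)ˣ) (i : Fin 3) :
    S.ev i ((h⁻¹ : (E.Alg ℚ)ˣ) : E.Alg ℚ) = (S.ev i (h : E.Alg ℚ))⁻¹ := by
  have h1 : S.ev i (h : E.Alg ℚ) * S.ev i ((h⁻¹ : (E.Alg ℚ)ˣ) : E.Alg ℚ) = 1 := by
    rw [← map_mul, Units.mul_inv, map_one]
  exact eq_inv_of_mul_eq_one_right h1

include S in
theorem n5_poly (x : E.Alg ℚ) (n : ℕ) (H : ∀ i, ∃ a : 𝓞 F, (n : F) * S.ev i x = (a : F)) :
    ∃ k : ℤ[X], ((E.disc.natAbs * n : ℕ) : E.Alg ℚ) * x = aeval (E.th ℚ) k := by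
  obtain ⟨k, hk⟩ := S.exists_int_poly 1 ((n : E.Alg ℚ) * x) (fun i => by
    obtain ⟨a, ha⟩ := H i
    refine ⟨a, ?_⟩
    rw [map_mul, map_natCast, ha]
    push_cast
    ring)
  rcases Int.natAbs_eq E.disc with h | h
  · refine ⟨k, ?_⟩
    have h1 : (E.disc : E.Alg ℚ) = (E.disc.natAbs : E.Alg ℚ) := by
      have := congrArg (Int.cast : ℤ → E.Alg ℚ) h
      rwa [Int.cast_natCast] at this
    rw [h1] at hk
    push_cast at hk ⊢
    linear_combination hk
  · refine ⟨-k, ?_⟩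
    have h1 : (E.disc : E.Alg ℚ) = -(E.disc.natAbs : E.Alg ℚ) := by
      have := congrArg (Int.cast : ℤ → E.Alg ℚ) h
      rwa [Int.cast_neg, Int.cast_natCast] at this
    rw [h1] at hk
    rw [map_neg]
    push_cast at hk ⊢
    linear_combination -hk

theorem goodAway (T : Finset ℕ) (h : (E.Alg ℚ)ˣ)
    (H : ∀ w : HeightOneSpectrum (𝓞 F),
      (∀ p : ℕ, p.Prime → (p : 𝓞 F) ∈ w.asIdeal → ¬ (p : ℤ) ∣ 2 * E.disc ∧ p ∉ T) →
      ∀ i, ord w (S.ev i (h : E.Alg ℚ)) = 0) : E.GoodAway T h := by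
  intro p hp hpd hpT
  have hw0 : ∀ (w : HeightOneSpectrum (𝓞 F)) (q : ℕ), q.Prime → q ∣ p → (q : 𝓞 F) ∈ w.asIdeal →
      ∀ i, ord w (S.ev i (h : E.Alg ℚ)) = 0 := by
    intro w q hq hqp hw i
    have hqp' : q = p := (Nat.prime_dvd_prime_iff_eq hq hp).1 hqp
    subst hqp'
    refine H w (fun p' hp' hw' => ?_) i
    have : p' = q := prime_mem_unique w hp' hq hw' hw
    subst this
    exact ⟨hpd, hpT⟩
  obtain ⟨n, hn0, hnc, hn⟩ := n5_den_fin
    (fun s : Fin 3 ⊕ Fin 3 => Sum.elim (fun i => S.ev i (h : E.Alg ℚ))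
      (fun i => S.ev i ((h⁻¹ : (E.Alg ℚ)ˣ) : E.Alg ℚ)) s) p (by
      intro w q hq hqp hw s
      rcases s with i | i
      · exact (hw0 w q hq hqp hw i).ge
      · show 0 ≤ ord w (S.ev i ((h⁻¹ : (E.Alg ℚ)ˣ) : E.Alg ℚ))
        rw [S.n5_ev_inv, ord_inv, hw0 w q hq hqp hw i, neg_zero])
  obtain ⟨k, hk⟩ := S.n5_poly (h : E.Alg ℚ) n (fun i => hn (Sum.inl i))
  obtain ⟨k', hk'⟩ := S.n5_poly ((h⁻¹ : (E.Alg ℚ)ˣ) : E.Alg ℚ) n (fun i => hn (Sum.inr i))
  refine ⟨E.disc.natAbs * n, ?_, k, k', hk, hk'⟩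
  rw [hp.dvd_mul, not_or]
  refine ⟨fun h1 => hpd ?_, fun h1 => ?_⟩
  · exact Dvd.dvd.mul_left (Int.natCast_dvd.2 h1) 2
  · have := (Nat.Prime.coprime_iff_not_dvd hp).1 hnc.symm
    exact this h1

theorem oneAt (h : (E.Alg ℚ)ˣ) (A B : Fin 3 → 𝓞 F)
    (hB : ∀ i, ∃ b : 𝓞 F, ((8 * E.disc.natAbs ^ 2 : ℕ) : 𝓞 F) ∣ B i * b - 1)
    (hAB : ∀ i, ((8 * E.disc.natAbs ^ 2 : ℕ) : 𝓞 F) ∣ A i - B i)
    (hev : ∀ i, S.ev i (h : E.Alg ℚ) = (A i : F) / (B i : F)) : E.OneAt h := by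
  have hd0 : E.disc ≠ 0 := S.disc_ne_zero
  have hB0 : ∀ i, (B i : F) ≠ 0 := by
    intro i h0
    apply S.n5_ev_ne h i
    rw [hev i, h0, div_zero]
  have hBne : ∀ i, B i ≠ 0 := by
    intro i h0
    apply hB0 i
    rw [h0, v2_coe_zero]
  obtain ⟨n, hn0, hnc, hn⟩ := n5_den_fin (fun i => ((B i : F))⁻¹) (2 * E.disc.natAbs) (by
    intro w q hq hqd hw i
    have h1 : B i ∉ w.asIdeal := by
      intro hmem
      obtain ⟨b, hb⟩ := hB i
      have hq8 : (q : 𝓞 F) ∣ ((8 * E.disc.natAbs ^ 2 : ℕ) : 𝓞 F) := by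
        apply Nat.cast_dvd_cast
        refine hqd.trans ⟨4 * E.disc.natAbs, ?_⟩
        ring
      have h2 : B i * b - 1 ∈ w.asIdeal := by
        obtain ⟨c, hc⟩ := hq8.trans hb
        rw [hc]
        exact w.asIdeal.mul_mem_right _ hw
      have h3 : (1 : 𝓞 F) ∈ w.asIdeal := by
        have := w.asIdeal.sub_mem (w.asIdeal.mul_mem_right b hmem) h2
        have e : B i * b - (B i * b - 1) = 1 := by ring
        rwa [e] at this
      exact w.isPrime.ne_top ((Ideal.eq_top_iff_one _).2 h3)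
    rw [ord_inv]
    have h4 : ¬ 0 < ord w (B i : F) := fun h5 => h1 ((ord_int_pos_iff w (hBne i)).1 h5)
    omega)
  obtain ⟨k, hk⟩ := S.exists_int_poly (8 * E.disc.natAbs ^ 2)
    ((n : E.Alg ℚ) * ((h : E.Alg ℚ) - 1)) (fun i => by
      obtain ⟨c, hc⟩ := hAB i
      obtain ⟨a, ha⟩ := hn i
      refine ⟨a * c, ?_⟩
      have h1 : ((a * c : 𝓞 F) : F) = (a : F) * (c : F) := map_mul (algebraMap (𝓞 F) F) a c
      have h2 : (A i : F) - (B i : F) = ((8 * E.disc.natAbs ^ 2 : ℕ) : F) * (c : F) := by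
        have := congrArg (algebraMap (𝓞 F) F) hc
        rw [map_sub, map_mul, map_natCast] at this
        exact this
      rw [map_mul, map_natCast, map_sub, map_one, hev i, h1, ← ha]
      have h3 : (n : F) * ((A i : F) / (B i : F) - 1) =
          ((n : F) * ((B i : F))⁻¹) * ((A i : F) - (B i : F)) := by
        have := hB0 i
        field_simp
      rw [h3, h2]
      ring)
  refine ⟨n, ?_, k, ?_⟩
  · have h1 : IsCoprime (n : ℤ) ((2 * E.disc.natAbs : ℕ) : ℤ) := Nat.isCoprime_iff_coprime.2 hnc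
    rcases Int.natAbs_eq E.disc with h | h
    · rw [h]
      push_cast at h1 ⊢
      exact h1
    · rw [h]
      push_cast at h1 ⊢
      rw [mul_neg, IsCoprime.neg_right_iff]
      exact h1
  · have hu : IsUnit (E.disc : E.Alg ℚ) := by
      have h1 : IsUnit ((E.disc : ℤ) : ℚ) := (Int.cast_ne_zero.2 hd0).isUnit
      have h2 := h1.map (algebraMap ℚ (E.Alg ℚ))
      rwa [map_intCast] at h2
    apply hu.mul_left_cancel
    have h3 : ((E.disc.natAbs : ℕ) : E.Alg ℚ) ^ 2 = (E.disc : E.Alg ℚ) ^ 2 := by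
      rcases Int.natAbs_eq E.disc with h4 | h4
      · have h5 := congrArg (Int.cast : ℤ → E.Alg ℚ) h4
        rw [Int.cast_natCast] at h5
        rw [h5]
      · have h5 := congrArg (Int.cast : ℤ → E.Alg ℚ) h4
        rw [Int.cast_neg, Int.cast_natCast] at h5
        rw [h5, neg_sq]
    rw [hk]
    push_cast
    rw [h3]
    ring

end Split
end H16A
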