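import Pool.Agent.Lib.H16A.N3
import Pool.Agent.Lib.H16A.N4
import Pool.Agent.Lib.H16A.N5

/-!
# N10 (M/L): many classes in `ℚ[θ]`

`M = 8 |disc|²`, `K₃` from `exists_alpha` (N3), `K₄ = K₃²`.  Given `T`, `w`: the primes `w p`, `p ∈ T`, are
distinct and prime to `M`; `W = {w p : p ∈ T}`, `|W| = |T|`.  Take `Φ, a, t₁` from N3 and
`α_t = a_t/a_{t₁}` for `t ∈ Φ`.  For `(t, t') ∈ Φ²` let `h_{t,t'}` be the unit of `ℚ[θ]` with
`h(e_i) = c_{01}(α_t)_i c_{02}(α_{t'})_i` (`exists_unit` for `J = {0,1}` and `J = {0,2}`).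
* square norm: `isSquare_norm`, `|J| = 2`.
* `GoodAway`: if `w'` lies above no `p` with `p ∣ 2 disc` or `p ∈ T`, the same is true for its conjugates
  (`mem_cj_iff`), which are not in `W`, so `α_t`, `α_{t'}` have order `0` there; `ord_cJ`, `goodAway` (N5).
* `OneAt`: `A_i`, `B_i` the products of the `σ(a_t)`, `σ(a_{t'})`, respectively of the `σ(a_{t₁})`, over
  the same index sets; `σ(a_t) ≡ σ(a_{t₁})` mod `M`; `oneAt` (N5).
* separation: at `w p`: `ord h(e_1) = ord α_t = [w p ∈ t] - [w p ∈ t₁]`,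
  `ord h(e_2) = ord α_{t'} = [w p ∈ t'] - [w p ∈ t₁]` (`ord_cJ_split`; the other primes above `p` are
  not in `W`).  So the parities at all `p ∈ T`, `i = 1, 2`, determine `t` and `t'`; `Ψ` is the image of
  `Φ²`, with `|Ψ| = |Φ|²`.
-/

open Polynomial IsDedekindDomain NumberField

namespace H16A
namespace Split

variable {E : Cub} {F : Type} [Field F] [NumberField F] (S : Split E F)

/-- the integral version of `cJ` -/
noncomputable def n10_c (J : Finset (Fin 3)) (x : 𝓞 F) (i : Fin 3) : 𝓞 F :=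
  open Classical in
  ∏ j ∈ J, ∏ σ ∈ (Finset.univ : Finset (F ≃ₐ[ℚ] F)).filter (fun σ => S.perm σ j = i),
    RingOfIntegers.mapRingEquiv (σ : F ≃+* F) x

theorem n10_c_coe (J : Finset (Fin 3)) (x : 𝓞 F) (i : Fin 3) :
    ((S.n10_c J x i : 𝓞 F) : F) = S.cJ J (x : F) i := by
  classical
  have h : algebraMap (𝓞 F) F (S.n10_c J x i) = S.cJ J (x : F) i := by
    unfold n10_c cJ
    rw [map_prod]
    refine Finset.prod_congr rfl fun j _ => ?_
    rw [map_prod]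
    refine Finset.prod_congr ?_ fun σ _ => rfl
    congr
  exact h

theorem n10_c_mul (J : Finset (Fin 3)) (x y : 𝓞 F) (i : Fin 3) :
    S.n10_c J (x * y) i = S.n10_c J x i * S.n10_c J y i := by
  unfold n10_c
  rw [← Finset.prod_mul_distrib]
  refine Finset.prod_congr rfl fun j _ => ?_
  rw [← Finset.prod_mul_distrib]
  exact Finset.prod_congr rfl fun σ _ => map_mul _ _ _

theorem n10_c_one (J : Finset (Fin 3)) (i : Fin 3) : S.n10_c J 1 i = 1 := by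
  unfold n10_c
  refine Finset.prod_eq_one fun j _ => Finset.prod_eq_one fun σ _ => map_one _

omit [NumberField F] in
theorem n10_prod_dvd {ι : Type*} (s : Finset ι) (M : 𝓞 F) (f g : ι → 𝓞 F)
    (h : ∀ i ∈ s, M ∣ f i - g i) : M ∣ ∏ i ∈ s, f i - ∏ i ∈ s, g i := by
  classical
  rw [← Ideal.mem_span_singleton, ← Ideal.Quotient.eq, map_prod, map_prod]
  refine Finset.prod_congr rfl fun i hi => ?_
  rw [Ideal.Quotient.eq, Ideal.mem_span_singleton]
  exact h i hi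

theorem n10_c_dvd (M : ℕ) (J : Finset (Fin 3)) {x y : 𝓞 F} (h : (M : 𝓞 F) ∣ x - y) (i : Fin 3) :
    (M : 𝓞 F) ∣ S.n10_c J x i - S.n10_c J y i := by
  classical
  unfold n10_c
  refine n10_prod_dvd J _ _ _ fun j _ => n10_prod_dvd _ _ _ _ fun σ _ => ?_
  have h1 := map_dvd (RingOfIntegers.mapRingEquiv (σ : F ≃+* F)) h
  rw [map_natCast, map_sub] at h1
  exact h1

/-- the order of the quotient -/
theorem n10_ord_zero {W : Finset (HeightOneSpectrum (𝓞 F))} {t t₁ : Finset (HeightOneSpectrum (𝓞 F))}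
    (ht : t ⊆ W) (ht₁ : t₁ ⊆ W) {α : F} {v : HeightOneSpectrum (𝓞 F)}
    (h : open Classical in ord v α = (if v ∈ t then 1 else 0) - (if v ∈ t₁ then 1 else 0))
    (hv : v ∉ W) : ord v α = 0 := by
  classical
  rw [h, if_neg (fun h' => hv (ht h')), if_neg (fun h' => hv (ht₁ h'))]
  simp

theorem n10_mem_iff {t s t₁ : Finset (HeightOneSpectrum (𝓞 F))} {α β : F}
    {v : HeightOneSpectrum (𝓞 F)}
    (h : open Classical in ord v α = (if v ∈ t then 1 else 0) - (if v ∈ t₁ then 1 else 0))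
    (h' : open Classical in ord v β = (if v ∈ s then 1 else 0) - (if v ∈ t₁ then 1 else 0))
    (he : Even (ord v α - ord v β)) : v ∈ t ↔ v ∈ s := by
  classical
  rw [h, h'] at he
  by_cases h1 : v ∈ t <;> by_cases h2 : v ∈ s <;> by_cases h3 : v ∈ t₁ <;>
    simp [h1, h2, h3] at he ⊢

theorem n10_coprime {p M : ℕ} (hp : p.Prime) (w : HeightOneSpectrum (𝓞 F))
    (hw : (p : 𝓞 F) ∈ w.asIdeal) (hM : ¬ p ∣ M) :
    IsCoprime w.asIdeal (Ideal.span {(M : 𝓞 F)}) := by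
  have h1 := v2_notMem w hp hw hM
  rw [Ideal.isCoprime_iff_sup_eq]
  have hmax : w.asIdeal.IsMaximal := w.isMaximal
  apply hmax.1.2
  refine lt_of_le_of_ne le_sup_left fun h => h1 ?_
  rw [h]
  exact Ideal.mem_sup_right (Ideal.mem_span_singleton_self _)

theorem exists_classes (hd : E.disc ≠ 0) : ∃ K₄ : ℕ, 0 < K₄ ∧
    ∀ (T : Finset ℕ) (w : ℕ → HeightOneSpectrum (𝓞 F)), (∀ p ∈ T, S.SplP p (w p)) →
    ∃ Ψ : Finset (E.Alg ℚ)ˣ, 4 ^ T.card ≤ K₄ * Ψ.card ∧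
      (∀ h ∈ Ψ, IsSquare (Algebra.norm ℚ (h : E.Alg ℚ)) ∧ E.GoodAway T h ∧ E.OneAt h) ∧
      ∀ h ∈ Ψ, ∀ h' ∈ Ψ,
        (∀ p ∈ T, ∀ i, Even (ord (w p) (S.ev i (h : E.Alg ℚ)) -
          ord (w p) (S.ev i (h' : E.Alg ℚ)))) → h = h' := by
  classical
  set M : ℕ := 8 * E.disc.natAbs ^ 2 with hM
  have hM0 : 0 < M := by
    have : 0 < E.disc.natAbs := Int.natAbs_pos.2 hd
    positivity
  obtain ⟨K₃, hK₃, hK⟩ := exists_alpha F M hM0
  refine ⟨K₃ ^ 2, by positivity, fun T w hw => ?_⟩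
  have hmem : ∀ p ∈ T, (p : 𝓞 F) ∈ (w p).asIdeal := fun p hp => (hw p hp).mem
  set W : Finset (HeightOneSpectrum (𝓞 F)) := T.image w with hW
  have hinj : Set.InjOn w (T : Set ℕ) := by
    intro p hp q hq hpq
    refine prime_mem_unique (w p) (hw p hp).prime (hw q hq).prime (hmem p hp) ?_
    rw [hpq]
    exact hmem q hq
  have hWc : W.card = T.card := Finset.card_image_of_injOn hinj
  have hWmem : ∀ v ∈ W, ∃ p ∈ T, w p = v := fun v hv => Finset.mem_image.1 hv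
  have hcop : ∀ v ∈ W, IsCoprime v.asIdeal (Ideal.span {(M : 𝓞 F)}) := by
    intro v hv
    obtain ⟨p, hp, rfl⟩ := hWmem v hv
    have hpp := (hw p hp).prime
    refine n10_coprime hpp (w p) (hmem p hp) fun hpM => (hw p hp).good ?_
    rw [hM] at hpM
    rcases hpp.dvd_mul.1 hpM with h1 | h1
    · have h2 : p ∣ 2 := by
        have : (8 : ℕ) = 2 ^ 3 := by norm_num
        rw [this] at h1
        exact hpp.dvd_of_dvd_pow h1
      exact dvd_mul_of_dvd_left (by exact_mod_cast h2) _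
    · have h2 : p ∣ E.disc.natAbs := hpp.dvd_of_dvd_pow h1
      exact dvd_mul_of_dvd_right (Int.natCast_dvd.2 h2) _
  obtain ⟨Φ, a, t₁, ht₁, hcard, hΦ⟩ := hK W hcop
  have ha0 : ∀ t ∈ Φ, ((a t : 𝓞 F) : F) ≠ 0 := fun t ht h0 => (hΦ t ht).2.1 (RingOfIntegers.ext h0)
  have hα0 : ∀ t ∈ Φ, (a t : F) / (a t₁ : F) ≠ 0 := fun t ht => div_ne_zero (ha0 t ht) (ha0 t₁ ht₁)
  have hord := fun t ht => (hΦ t ht).2.2.2.2
  have hsub := fun t ht => (hΦ t ht).1
  have hex : ∀ (J : Finset (Fin 3)) (t : Finset (HeightOneSpectrum (𝓞 F))), ∃ u : (E.Alg ℚ)ˣ, t ∈ Φ →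
      ∀ i, S.ev i (u : E.Alg ℚ) = S.cJ J ((a t : F) / (a t₁ : F)) i := by
    intro J t
    by_cases ht : t ∈ Φ
    · obtain ⟨u, hu⟩ := S.exists_unit J (hα0 t ht)
      exact ⟨u, fun _ => hu⟩
    · exact ⟨1, fun h => absurd h ht⟩
  choose u hu using hex
  have hev : ∀ t ∈ Φ, ∀ s ∈ Φ, ∀ i, S.ev i ((u {0, 1} t * u {0, 2} s : (E.Alg ℚ)ˣ) : E.Alg ℚ) =
      S.cJ {0, 1} ((a t : F) / (a t₁ : F)) i * S.cJ {0, 2} ((a s : F) / (a t₁ : F)) i := by
    intro t ht s hs i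
    rw [Units.val_mul, map_mul, hu _ t ht, hu _ s hs]
  have hord1 : ∀ t ∈ Φ, ∀ s ∈ Φ, ∀ p ∈ T,
      ord (w p) (S.ev 1 ((u {0, 1} t * u {0, 2} s : (E.Alg ℚ)ˣ) : E.Alg ℚ)) =
        ord (w p) ((a t : F) / (a t₁ : F)) ∧
      ord (w p) (S.ev 2 ((u {0, 1} t * u {0, 2} s : (E.Alg ℚ)ˣ) : E.Alg ℚ)) =
        ord (w p) ((a s : F) / (a t₁ : F)) := by
    intro t ht s hs p hp
    have hz : ∀ r ∈ Φ, ∀ w' : HeightOneSpectrum (𝓞 F), (p : 𝓞 F) ∈ w'.asIdeal → w' ≠ w p →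
        ord w' ((a r : F) / (a t₁ : F)) = 0 := by
      intro r hr w' hpw' hne
      refine n10_ord_zero (hsub r hr) (hsub t₁ ht₁) (hord r hr w') fun hW' => ?_
      obtain ⟨q, hq, rfl⟩ := hWmem w' hW'
      apply hne
      rw [prime_mem_unique (w q) (hw p hp).prime (hw q hq).prime hpw' (hmem q hq)]
    have h1 : ∀ (J : Finset (Fin 3)) r, r ∈ Φ → ∀ i, ord (w p) (S.cJ J ((a r : F) / (a t₁ : F)) i) =
        if i ∈ J then ord (w p) ((a r : F) / (a t₁ : F)) else 0 :=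
      fun J r hr i => S.ord_cJ_split (hw p hp) J (hα0 r hr) (hz r hr) i
    constructor
    · rw [hev t ht s hs, ord_mul _ (S.cJ_ne_zero _ (hα0 t ht) _) (S.cJ_ne_zero _ (hα0 s hs) _),
        h1 _ t ht, h1 _ s hs, if_pos (by decide), if_neg (by decide), add_zero]
    · rw [hev t ht s hs, ord_mul _ (S.cJ_ne_zero _ (hα0 t ht) _) (S.cJ_ne_zero _ (hα0 s hs) _),
        h1 _ t ht, h1 _ s hs, if_neg (by decide), if_pos (by decide), zero_add]
  -- the separation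
  have hsep : ∀ t ∈ Φ, ∀ s ∈ Φ, ∀ t' ∈ Φ, ∀ s' ∈ Φ,
      (∀ p ∈ T, ∀ i, Even (ord (w p) (S.ev i ((u {0, 1} t * u {0, 2} s : (E.Alg ℚ)ˣ) : E.Alg ℚ)) -
        ord (w p) (S.ev i ((u {0, 1} t' * u {0, 2} s' : (E.Alg ℚ)ˣ) : E.Alg ℚ)))) →
      t = t' ∧ s = s' := by
    intro t ht s hs t' ht' s' hs' H
    have key : ∀ r ∈ Φ, ∀ r' ∈ Φ, (∀ p ∈ T, Even (ord (w p) ((a r : F) / (a t₁ : F)) -
        ord (w p) ((a r' : F) / (a t₁ : F)))) → r = r' := by
      intro r hr r' hr' H'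
      ext v
      by_cases hv : v ∈ W
      · obtain ⟨p, hp, rfl⟩ := hWmem v hv
        exact n10_mem_iff (hord r hr (w p)) (hord r' hr' (w p)) (H' p hp)
      · exact ⟨fun h => absurd (hsub r hr h) hv, fun h => absurd (hsub r' hr' h) hv⟩
    constructor
    · refine key t ht t' ht' fun p hp => ?_
      have h1 := H p hp 1
      rw [(hord1 t ht s hs p hp).1, (hord1 t' ht' s' hs' p hp).1] at h1
      exact h1
    · refine key s hs s' hs' fun p hp => ?_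
      have h1 := H p hp 2
      rw [(hord1 t ht s hs p hp).2, (hord1 t' ht' s' hs' p hp).2] at h1
      exact h1
  set g : Finset (HeightOneSpectrum (𝓞 F)) × Finset (HeightOneSpectrum (𝓞 F)) → (E.Alg ℚ)ˣ :=
    fun x => u {0, 1} x.1 * u {0, 2} x.2 with hg
  have hginj : Set.InjOn g ((Φ ×ˢ Φ : Finset _) : Set _) := by
    rintro ⟨t, s⟩ hx ⟨t', s'⟩ hy hxy
    rw [Finset.mem_coe, Finset.mem_product] at hx hy
    obtain ⟨h1, h2⟩ := hsep t hx.1 s hx.2 t' hy.1 s' hy.2 (by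
      intro p hp i
      have h3 : u {0, 1} t * u {0, 2} s = u {0, 1} t' * u {0, 2} s' := hxy
      rw [h3, sub_self]
      exact Even.zero)
    rw [h1, h2]
  refine ⟨(Φ ×ˢ Φ).image g, ?_, ?_, ?_⟩
  · rw [Finset.card_image_of_injOn hginj, Finset.card_product]
    have h1 : (4 : ℕ) ^ T.card = (2 ^ W.card) ^ 2 := by
      rw [hWc, ← pow_mul, mul_comm, pow_mul]
      norm_num
    rw [h1]
    calc (2 ^ W.card) ^ 2 ≤ (K₃ * Φ.card) ^ 2 := Nat.pow_le_pow_left hcard 2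
      _ = K₃ ^ 2 * (Φ.card * Φ.card) := by ring
  · intro h hh
    obtain ⟨⟨t, s⟩, hts, rfl⟩ := Finset.mem_image.1 hh
    obtain ⟨ht, hs⟩ := Finset.mem_product.1 hts
    simp only at ht hs
    refine ⟨?_, ?_, ?_⟩
    · have h1 : ((g (t, s) : (E.Alg ℚ)ˣ) : E.Alg ℚ) =
          ((u {0, 1} t : (E.Alg ℚ)ˣ) : E.Alg ℚ) * ((u {0, 2} s : (E.Alg ℚ)ˣ) : E.Alg ℚ) := by
        rw [hg, Units.val_mul]
      rw [h1, map_mul]
      exact (S.isSquare_norm (by decide) (hu _ t ht)).mul (S.isSquare_norm (by decide) (hu _ s hs))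
    · apply S.goodAway
      intro v hv i
      have hz : ∀ (σ : F ≃ₐ[ℚ] F), ∀ r ∈ Φ, ord (cj σ v) ((a r : F) / (a t₁ : F)) = 0 := by
        intro σ r hr
        refine n10_ord_zero (hsub r hr) (hsub t₁ ht₁) (hord r hr _) fun hW' => ?_
        obtain ⟨q, hq, hqe⟩ := hWmem _ hW'
        have h1 : (q : 𝓞 F) ∈ (cj σ v).asIdeal := by
          rw [← hqe]
          exact hmem q hq
        rw [mem_cj_iff] at h1
        exact (hv q (hw q hq).prime h1).2 hq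
      have h1 : ∀ (J : Finset (Fin 3)) r, r ∈ Φ → ord v (S.cJ J ((a r : F) / (a t₁ : F)) i) = 0 := by
        intro J r hr
        rw [S.ord_cJ v J (hα0 r hr)]
        exact Finset.sum_eq_zero fun j _ => Finset.sum_eq_zero fun σ _ => hz σ r hr
      have h2 := hev t ht s hs i
      change ord v (S.ev i ((u {0, 1} t * u {0, 2} s : (E.Alg ℚ)ˣ) : E.Alg ℚ)) = 0
      rw [h2, ord_mul _ (S.cJ_ne_zero _ (hα0 t ht) _) (S.cJ_ne_zero _ (hα0 s hs) _),
        h1 _ t ht, h1 _ s hs, add_zero]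
    · refine S.oneAt _ (fun i => S.n10_c {0, 1} (a t) i * S.n10_c {0, 2} (a s) i)
        (fun i => S.n10_c {0, 1} (a t₁) i * S.n10_c {0, 2} (a t₁) i) ?_ ?_ ?_
      · intro i
        obtain ⟨b, hb⟩ := (hΦ t₁ ht₁).2.2.1
        refine ⟨S.n10_c {0, 1} b i * S.n10_c {0, 2} b i, ?_⟩
        have h1 := S.n10_c_dvd M {0, 1} hb i
        have h2 := S.n10_c_dvd M {0, 2} hb i
        rw [n10_c_mul, n10_c_one] at h1 h2
        rw [← hM]
        have h3 := dvd_add (dvd_mul_of_dvd_left h1 (S.n10_c {0, 2} (a t₁) i * S.n10_c {0, 2} b i)) h2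
        refine h3.trans (dvd_of_eq ?_)
        ring
      · intro i
        rw [← hM]
        have h1 := S.n10_c_dvd M {0, 1} (hΦ t ht).2.2.2.1 i
        have h2 := S.n10_c_dvd M {0, 2} (hΦ s hs).2.2.2.1 i
        have h3 := dvd_add (dvd_mul_of_dvd_left h1 (S.n10_c {0, 2} (a s) i))
          (dvd_mul_of_dvd_right h2 (S.n10_c {0, 1} (a t₁) i))
        refine h3.trans (dvd_of_eq ?_)
        ring
      · intro i
        have h2 := hev t ht s hs i
        have hdiv : ∀ (J : Finset (Fin 3)) r, r ∈ Φ → S.cJ J ((a r : F) / (a t₁ : F)) i =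
            ((S.n10_c J (a r) i : 𝓞 F) : F) / ((S.n10_c J (a t₁) i : 𝓞 F) : F) := by
          intro J r hr
          rw [n10_c_coe, n10_c_coe, eq_div_iff (S.cJ_ne_zero J (ha0 t₁ ht₁) i), ← S.cJ_mul,
            div_mul_cancel₀ _ (ha0 t₁ ht₁)]
        change S.ev i ((u {0, 1} t * u {0, 2} s : (E.Alg ℚ)ˣ) : E.Alg ℚ) = _
        rw [h2, hdiv _ t ht, hdiv _ s hs, div_mul_div_comm]
        congr 1
  · intro h hh h' hh' H
    obtain ⟨⟨t, s⟩, hts, rfl⟩ := Finset.mem_image.1 hh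
    obtain ⟨ht, hs⟩ := Finset.mem_product.1 hts
    obtain ⟨⟨t', s'⟩, hts', rfl⟩ := Finset.mem_image.1 hh'
    obtain ⟨ht', hs'⟩ := Finset.mem_product.1 hts'
    obtain ⟨h1, h2⟩ := hsep t ht s hs t' ht' s' hs' H
    rw [h1, h2]

end Split
end H16A
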