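import Pool.Agent.Lib.H16A.C1
import Pool.Agent.Lib.H16A.C3

/-!
# S2 (M): the finite places outside `T`

`v` a place of the number field `K` above the prime `p`, `h` a unit of `ℚ[θ]`.
* `mem_imSub_bad`, `p ∣ 2 disc`, `OneAt h`: in `K_v[θ]`, `h = 1 + 8 disc n⁻¹ k(θ)`, `n` a unit of `O_v`
  (`isUnit_intCast`: `n` is prime to `2 disc`, hence to `p`), so `h` is the image of `1 + 4 m`,
  `m = 2 disc n⁻¹ k(θ) ∈ p O_v[θ]`, a square by `isSquare_one_add_four` (C2) and `isAdicComplete_p`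
  (C1); squares are in `imSub` (`sqSub_le_imSub`).
* `mem_imSub_good`, `p ∤ 2 disc`: the image of `h` comes from a unit of `O_v[θ]` (`n⁻¹ k(θ)` with inverse
  `n⁻¹ k'(θ)`), apply C3 and C1.
The embedding of `ℚ[θ]` into `K_v[θ]` maps `aeval (th ℚ) k` to `aeval (th K_v) k`.
-/

open Polynomial IsDedekindDomain NumberField

namespace H16A
namespace Cub

variable (E : Cub)

theorem s2_th {L L' : Type*} [CommRing L] [CommRing L'] (φ : L →+* L') :
    E.algMap φ (E.th L) = E.th L' := by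
  unfold algMap th
  exact AdjoinRoot.map_root _ _ _ _

/-- the value of an integral polynomial at the class of `X` -/
noncomputable def s2_ae (L : Type*) [CommRing L] (k : ℤ[X]) : E.Alg L := aeval (E.th L) k

theorem s2_aeval {L L' : Type*} [CommRing L] [CommRing L'] (φ : L →+* L') (k : ℤ[X]) :
    E.algMap φ (E.s2_ae L k) = E.s2_ae L' k := by
  unfold s2_ae
  rw [aeval_def, aeval_def, hom_eval₂, s2_th]
  congr 1
  exact RingHom.ext_int _ _

theorem s2_mk (L : Type*) [CommRing L] (q : ℤ[X]) :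
    E.s2_ae L q = AdjoinRoot.mk (E.poly L) (q.map (Int.castRingHom L)) := by
  unfold s2_ae
  rw [← AdjoinRoot.aeval_eq, aeval_def, aeval_def, eval₂_map]
  rfl

theorem s2_sq {L : Type*} [Field L] (u : (E.Alg L)ˣ) (hu : IsSquare (u : E.Alg L)) :
    u ∈ E.imSub L := by
  classical
  exact E.sqSub_le_imSub ((E.rel_zero_iff u).mp hu)

theorem s2_sub {L : Type*} [CommRing L] (p q : ℤ[X]) :
    E.s2_ae L (p - q) = E.s2_ae L p - E.s2_ae L q := map_sub _ _ _

theorem s2_mul {L : Type*} [CommRing L] (p q : ℤ[X]) :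
    E.s2_ae L (p * q) = E.s2_ae L p * E.s2_ae L q := map_mul _ _ _

theorem s2_C {L : Type*} [CommRing L] (n : ℤ) : E.s2_ae L (C n) = (n : E.Alg L) := by
  unfold s2_ae
  rw [aeval_C, eq_intCast]

theorem mem_imSub_bad {K : Type*} [Field K] [NumberField K] (v : HeightOneSpectrum (𝓞 K))
    {p : ℕ} (hp : p.Prime) (hv : (p : 𝓞 K) ∈ v.asIdeal) (hbad : (p : ℤ) ∣ 2 * E.disc)
    (h : (E.Alg ℚ)ˣ) (h1 : E.OneAt h) :
    E.uMap (algebraMap ℚ (v.adicCompletion K)) h ∈ E.imSub (v.adicCompletion K) := by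
  obtain ⟨n, hn, k, hk⟩ := h1
  have hpn : ¬ (p : ℤ) ∣ (n : ℤ) := by
    intro hpn
    have hu := hn.isUnit_of_dvd' hpn hbad
    have := Int.isUnit_iff.mp hu
    have hp2 := hp.two_le
    omega
  set O := v.adicCompletionIntegers K with hO
  have hun : IsUnit (((n : ℤ) : ℤ) : O) := isUnit_intCast v hp hv hpn
  obtain ⟨ν, hν⟩ := hun.exists_right_inv
  have hcomp : IsAdicComplete (Ideal.span {(p : O)}) O := isAdicComplete_p v hp hv
  obtain ⟨c, hc⟩ := hbad
  set m : E.Alg O := (p : E.Alg O) * ((c : E.Alg O) *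
    (algebraMap O (E.Alg O) ν * E.s2_ae O k)) with hm
  have hmem : m ∈ (Ideal.span {(p : O)}).map (AdjoinRoot.of (E.poly O)) := by
    rw [hm]
    apply Ideal.mul_mem_right
    have h2 : (p : E.Alg O) = AdjoinRoot.of (E.poly O) (p : O) := (map_natCast _ p).symm
    rw [h2]
    exact Ideal.mem_map_of_mem _ (Ideal.mem_span_singleton_self _)
  have hsq := isSquare_one_add_four (Ideal.span {(p : O)}) (E.poly O) (E.poly_monic O) m hmem
  apply E.s2_sq
  have hval : ((E.uMap (algebraMap ℚ (v.adicCompletion K)) h : (E.Alg (v.adicCompletion K))ˣ) :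
      E.Alg (v.adicCompletion K)) = E.algMap (algebraMap O (v.adicCompletion K)) (1 + 4 * m) := by
    have e1 : ((E.uMap (algebraMap ℚ (v.adicCompletion K)) h : (E.Alg (v.adicCompletion K))ˣ) :
      E.Alg (v.adicCompletion K)) = E.algMap (algebraMap ℚ (v.adicCompletion K)) (h : E.Alg ℚ) := rfl
    have hk2 : (n : E.Alg ℚ) * ((h : E.Alg ℚ) - 1) = 8 * (E.disc : E.Alg ℚ) * E.s2_ae ℚ k := hk
    have e2 := congrArg (E.algMap (algebraMap ℚ (v.adicCompletion K))) hk2
    rw [map_mul, map_mul, map_mul, map_sub, map_one, map_natCast, map_ofNat, map_intCast,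
      s2_aeval, ← e1] at e2
    have e3 : (n : E.Alg (v.adicCompletion K)) *
        E.algMap (algebraMap O (v.adicCompletion K)) (algebraMap O (E.Alg O) ν) = 1 := by
      have e4 := congrArg (fun z : O => E.algMap (algebraMap O (v.adicCompletion K))
        (algebraMap O (E.Alg O) z)) hν
      simp only [map_mul, map_one, Int.cast_natCast, map_natCast] at e4
      exact e4
    have hc' : 2 * (E.disc : E.Alg (v.adicCompletion K)) = (p : E.Alg (v.adicCompletion K)) *
        (c : E.Alg (v.adicCompletion K)) := by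
      exact_mod_cast congrArg (Int.cast : ℤ → E.Alg (v.adicCompletion K)) hc
    rw [hm]
    simp only [map_add, map_mul, map_one, map_natCast, map_intCast, map_ofNat, s2_aeval]
    set H := ((E.uMap (algebraMap ℚ (v.adicCompletion K)) h : (E.Alg (v.adicCompletion K))ˣ) :
      E.Alg (v.adicCompletion K))
    set N' := E.algMap (algebraMap O (v.adicCompletion K)) (algebraMap O (E.Alg O) ν)
    linear_combination N' * e2 + (1 - H) * e3 +
      4 * N' * (E.s2_ae (v.adicCompletion K) k) * hc'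
  rw [hval]
  exact hsq.map _

theorem mem_imSub_good {K : Type*} [Field K] [NumberField K] (v : HeightOneSpectrum (𝓞 K))
    {p : ℕ} (hp : p.Prime) (hv : (p : 𝓞 K) ∈ v.asIdeal) (hgood : ¬ (p : ℤ) ∣ 2 * E.disc)
    (h : (E.Alg ℚ)ˣ) (hN : IsSquare (Algebra.norm ℚ (h : E.Alg ℚ)))
    (hh : ∃ n : ℕ, ¬ p ∣ n ∧ ∃ k k' : ℤ[X],
      (n : E.Alg ℚ) * (h : E.Alg ℚ) = aeval (E.th ℚ) k ∧
      (n : E.Alg ℚ) * ((h⁻¹ : (E.Alg ℚ)ˣ) : E.Alg ℚ) = aeval (E.th ℚ) k') :
    E.uMap (algebraMap ℚ (v.adicCompletion K)) h ∈ E.imSub (v.adicCompletion K) := by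
  obtain ⟨n, hn, k, k', hk0, hk0'⟩ := hh
  have hk : (n : E.Alg ℚ) * (h : E.Alg ℚ) = E.s2_ae ℚ k := hk0
  have hk' : (n : E.Alg ℚ) * ((h⁻¹ : (E.Alg ℚ)ˣ) : E.Alg ℚ) = E.s2_ae ℚ k' := hk0'
  have hpn : ¬ (p : ℤ) ∣ (n : ℤ) := by exact_mod_cast hn
  set O := v.adicCompletionIntegers K with hO
  have hun : IsUnit (((n : ℤ) : ℤ) : O) := isUnit_intCast v hp hv hpn
  obtain ⟨ν, hν⟩ := hun.exists_right_inv
  have hac : IsAdicComplete (IsLocalRing.maximalIdeal O) O := isAdicComplete_integers v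
  have hfr : Finite (IsLocalRing.ResidueField O) := finite_residueField v
  -- the product of the two polynomials modulo `f`
  have hdvd : E.poly ℤ ∣ k * k' - C ((n : ℤ) ^ 2) := by
    rw [← Polynomial.map_dvd_map (Int.castRingHom ℚ) Int.cast_injective (E.poly_monic ℤ)]
    rw [E.poly_map, ← AdjoinRoot.mk_eq_zero]
    rw [← s2_mk, E.s2_sub, E.s2_mul, ← hk, ← hk', E.s2_C]
    have e2 : (h : E.Alg ℚ) * ((h⁻¹ : (E.Alg ℚ)ˣ) : E.Alg ℚ) = 1 := Units.mul_inv h
    push_cast
    linear_combination (n : E.Alg ℚ) ^ 2 * e2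
  have hprod : E.s2_ae O k * E.s2_ae O k' = ((n : ℤ) : E.Alg O) ^ 2 := by
    obtain ⟨q, hq⟩ := hdvd
    have e1 := congrArg (E.s2_ae O) hq
    have e2 : E.s2_ae O (E.poly ℤ) = 0 := by
      rw [s2_mk, E.poly_map, AdjoinRoot.mk_self]
    rw [E.s2_sub, E.s2_mul, E.s2_mul, e2, zero_mul, E.s2_C] at e1
    simp only [Int.cast_pow] at e1
    linear_combination e1
  have hν' : ((n : ℤ) : E.Alg O) * algebraMap O (E.Alg O) ν = 1 := by
    have e4 := congrArg (algebraMap O (E.Alg O)) hν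
    rw [map_mul, map_one, map_intCast] at e4
    exact e4
  set u : (E.Alg O)ˣ := ⟨algebraMap O (E.Alg O) ν * E.s2_ae O k,
    algebraMap O (E.Alg O) ν * E.s2_ae O k', by
      linear_combination (algebraMap O (E.Alg O) ν) ^ 2 * hprod +
        (((n : ℤ) : E.Alg O) * algebraMap O (E.Alg O) ν + 1) * hν', by
      linear_combination (algebraMap O (E.Alg O) ν) ^ 2 * hprod +
        (((n : ℤ) : E.Alg O) * algebraMap O (E.Alg O) ν + 1) * hν'⟩ with hu
  have heq : E.uMap (algebraMap O (v.adicCompletion K)) u =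
      E.uMap (algebraMap ℚ (v.adicCompletion K)) h := by
    apply Units.ext
    have e1 : ((E.uMap (algebraMap ℚ (v.adicCompletion K)) h : (E.Alg (v.adicCompletion K))ˣ) :
      E.Alg (v.adicCompletion K)) = E.algMap (algebraMap ℚ (v.adicCompletion K)) (h : E.Alg ℚ) := rfl
    have e5 : ((E.uMap (algebraMap O (v.adicCompletion K)) u : (E.Alg (v.adicCompletion K))ˣ) :
      E.Alg (v.adicCompletion K)) = E.algMap (algebraMap O (v.adicCompletion K))
        (algebraMap O (E.Alg O) ν * E.s2_ae O k) := rfl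
    have e2 := congrArg (E.algMap (algebraMap ℚ (v.adicCompletion K))) hk
    rw [map_mul, map_natCast, s2_aeval, ← e1] at e2
    have e3 := congrArg (E.algMap (algebraMap O (v.adicCompletion K))) hν'
    rw [map_mul, map_one, map_intCast, Int.cast_natCast] at e3
    rw [e5, map_mul, s2_aeval, ← e2]
    linear_combination ((E.uMap (algebraMap ℚ (v.adicCompletion K)) h :
      (E.Alg (v.adicCompletion K))ˣ) : E.Alg (v.adicCompletion K)) * e3
  rw [← heq]
  have h2p : ¬ (p : ℤ) ∣ 2 := fun h => hgood (h.mul_right _)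
  have hdp : ¬ (p : ℤ) ∣ E.disc := fun h => hgood (h.mul_left _)
  have hu2 : IsUnit (2 : O) := by
    have := isUnit_intCast v hp hv h2p
    simpa using this
  have hud : IsUnit ((E.disc : ℤ) : O) := isUnit_intCast v hp hv hdp
  apply E.loc_unit hu2 hud
  rw [heq]
  show IsSquare (Algebra.norm (v.adicCompletion K)
    (E.algMap (algebraMap ℚ (v.adicCompletion K)) (h : E.Alg ℚ)))
  rw [E.norm_algMap]
  exact hN.map _

end Cub
end H16A
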