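import Pool.Agent.Lib.H16A.S1
import Pool.Agent.Lib.H16A.S2
import Pool.Agent.Lib.H16A.C5

/-!
# S3 (S): explicit elements of the Selmer group over `K = ℚ(√-∏T)`

`h` a unit of `ℚ[θ]` of square norm, `GoodAway T h`, `OneAt h`.  Claim (`mem_selSub`): the image of `h` in
`K[θ]` is in the Selmer group.  Let `v` be a place of `K`.
* `v` infinite: S1 (`δ² = -∏T < 0`).
* `v` above `p` (`exists_prime_mem` of V2), `p ∣ 2 disc`: S2; `p ∈ T`: C5 (`D = -∏T`, `p ∥ D`); otherwise
  S2 with `GoodAway`.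
The embedding `ℚ → K_v` is the composition of `ℚ → K → K_v` (all ring homomorphisms from `ℚ` are
equal), `algMap_comp` (H5).
-/

open Polynomial IsDedekindDomain NumberField

namespace H16A
namespace Cub

variable (E : Cub)

theorem mem_selSub (hd : E.disc ≠ 0) (K : Type*) [Field K] [NumberField K] (δ : K)
    (T : Finset ℕ) (hδ : δ ^ 2 = -(∏ p ∈ T, (p : K)))
    (hT : ∀ p ∈ T, p.Prime ∧ ¬ (p : ℤ) ∣ 2 * E.disc ∧ E.RootsMod p) (h : (E.Alg ℚ)ˣ)
    (hN : IsSquare (Algebra.norm ℚ (h : E.Alg ℚ))) (hg : E.GoodAway T h) (h1 : E.OneAt h) :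
    E.uMap (algebraMap ℚ K) h ∈ E.selSub K := by
  have hcomp : ∀ {L : Type _} [Field L] [CharZero L] (ψ : K →+* L) (χ : ℚ →+* L),
      E.uMap ψ (E.uMap (algebraMap ℚ K) h) = E.uMap χ h := by
    intro L _ _ ψ χ
    apply Units.ext
    change E.algMap ψ (E.algMap (algebraMap ℚ K) (h : E.Alg ℚ)) = E.algMap χ (h : E.Alg ℚ)
    rw [E.algMap_comp, Subsingleton.elim (ψ.comp (algebraMap ℚ K)) χ]
  have hpos : 0 < ∏ p ∈ T, (p : ℤ) :=
    Finset.prod_pos fun p hp => by exact_mod_cast (hT p hp).1.pos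
  have hδ' : δ ^ 2 = ((-(∏ p ∈ T, (p : ℤ)) : ℤ) : K) := by
    rw [hδ]
    push_cast
    rfl
  rw [selSub, Subgroup.mem_inf, Subgroup.mem_inf]
  refine ⟨?_, ?_, ?_⟩
  · change IsSquare (Algebra.norm K (E.algMap (algebraMap ℚ K) (h : E.Alg ℚ)))
    rw [E.norm_algMap]
    exact hN.map (algebraMap ℚ K)
  · rw [Subgroup.mem_iInf]
    intro v
    rw [Subgroup.mem_comap]
    have hcv : CharZero (v.adicCompletion K) :=
      charZero_of_injective_algebraMap (algebraMap K (v.adicCompletion K)).injective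
    have key : ∀ χ : ℚ →+* v.adicCompletion K, E.uMap χ h ∈ E.imSub (v.adicCompletion K) →
        E.uMap (algebraMap K (v.adicCompletion K)) (E.uMap (algebraMap ℚ K) h) ∈
          E.imSub (v.adicCompletion K) := by
      intro χ hχ
      rw [hcomp (algebraMap K (v.adicCompletion K)) χ]
      exact hχ
    obtain ⟨p, hp, hv⟩ := exists_prime_mem v
    by_cases hbad : (p : ℤ) ∣ 2 * E.disc
    · exact key _ (E.mem_imSub_bad v hp hv hbad h h1)
    · by_cases hpT : p ∈ T
      · have hD1 : (∏ q ∈ T, (q : ℤ)) = (p : ℤ) * ∏ q ∈ T.erase p, (q : ℤ) :=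
          (Finset.mul_prod_erase T (fun q => (q : ℤ)) hpT).symm
        refine key _ (E.loc_ramified v δ _ hδ' hp hv ?_ ?_ hbad (hT p hpT).2.2 h hN)
        · rw [hD1]
          exact (dvd_mul_right _ _).neg_right
        · rw [hD1, dvd_neg, sq]
          intro hdvd
          have hp0 : (p : ℤ) ≠ 0 := by exact_mod_cast hp.ne_zero
          have h2 : (p : ℤ) ∣ ∏ q ∈ T.erase p, (q : ℤ) := (mul_dvd_mul_iff_left hp0).mp hdvd
          have hpp : Prime (p : ℤ) := Nat.prime_iff_prime_int.mp hp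
          obtain ⟨q, hq, hpq⟩ := hpp.exists_mem_finset_dvd h2
          have h3 : p ∣ q := by exact_mod_cast hpq
          have hqT := Finset.mem_of_mem_erase hq
          have h4 : p = q := (Nat.prime_dvd_prime_iff_eq hp (hT q hqT).1).mp h3
          exact (Finset.ne_of_mem_erase hq) h4.symm
      · exact key _ (E.mem_imSub_good v hp hv hbad h hN (hg p hp hbad hpT))
  · rw [Subgroup.mem_iInf]
    intro v
    rw [Subgroup.mem_comap]
    exact E.mem_imSub_complex K v
      (isComplex_of_neg K δ _ (by linarith) hδ' v) hd _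

end Cub
end H16A
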