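import Pool.Agent.Lib.H16A.N9
import Pool.Agent.Lib.H16A.N10
import Pool.Agent.Lib.H16A.S3

/-!
# N11 (M): lower bound for the Selmer group over `K = ℚ(√-∏T)`

Take `Ψ₀` from N10, map it to `K[θ]` by `uMap`; the images are in `selSub K` (S3: `mem_selSub`,
`rootsMod`).  For fixed `h₀ ∈ Ψ₀` the elements `h ∈ Ψ₀` whose image is in the class of the image of `h₀`
modulo squares are determined by `ρ(h/h₀) ∈ (Fin 2)³` (N9 for `D = -∏T`, and the separation
property of N10), so there are at most `8` of them.  Choose one element in every class: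
`|Ψ| ≥ |Ψ₀|/8`.  `K₅ = 8 K₄`.
-/

open Polynomial IsDedekindDomain NumberField

namespace H16A
namespace Split

variable {E : Cub} {F : Type} [Field F] [NumberField F] (S : Split E F)

/-- A finite set with fibres of size at most `8` over a group has a large transversal. -/
theorem n11_transversal {A B : Type*} [DecidableEq A] [Group B] (N : Subgroup B) [N.Normal]
    (Ψ : Finset A) (f : A → B)
    (hf : ∀ a₀ ∈ Ψ, ∃ ρ : A → (Fin 3 → Fin 2), ∀ a ∈ Ψ, ∀ a' ∈ Ψ, f a / f a₀ ∈ N →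
      f a' / f a₀ ∈ N → ρ a = ρ a' → a = a') :
    ∃ R : Finset B, Ψ.card ≤ 8 * R.card ∧ (∀ u ∈ R, ∃ a ∈ Ψ, f a = u) ∧
      ∀ u ∈ R, ∀ v ∈ R, u / v ∈ N → u = v := by
  classical
  let g : A → B ⧸ N := fun a => (f a : B ⧸ N)
  have hg : ∀ a b : A, g a = g b ↔ f a / f b ∈ N := by
    intro a b
    have h1 : (f a : B ⧸ N) = (f b : B ⧸ N) ↔ (f a)⁻¹ * f b ∈ N := QuotientGroup.eq
    change (f a : B ⧸ N) = (f b : B ⧸ N) ↔ _
    rw [eq_comm, QuotientGroup.eq, div_eq_mul_inv]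
    exact (inferInstance : N.Normal).mem_comm_iff
  set I := Ψ.image g with hI
  have hrep : ∀ c : B ⧸ N, ∃ b : B, c ∈ I → (∃ a ∈ Ψ, f a = b) ∧ (b : B ⧸ N) = c := by
    intro c
    by_cases hc : c ∈ I
    · rw [hI, Finset.mem_image] at hc
      obtain ⟨a, ha, hac⟩ := hc
      exact ⟨f a, fun _ => ⟨⟨a, ha, rfl⟩, hac⟩⟩
    · exact ⟨1, fun h => absurd h hc⟩
  choose r hr using hrep
  refine ⟨I.image r, ?_, ?_, ?_⟩
  · have hcard : (I.image r).card = I.card := by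
      apply Finset.card_image_of_injOn
      intro c hc c' hc' h
      have h1 := (hr c hc).2
      have h2 := (hr c' hc').2
      rw [← h1, ← h2, h]
    rw [hcard]
    have h8 : ∀ c ∈ I, (Ψ.filter (fun a => g a = c)).card ≤ 8 := by
      intro c hc
      rw [hI, Finset.mem_image] at hc
      obtain ⟨a₀, ha₀, hac⟩ := hc
      obtain ⟨ρ, hρ⟩ := hf a₀ ha₀
      have h1 : (Ψ.filter (fun a => g a = c)).card ≤ (Finset.univ : Finset (Fin 3 → Fin 2)).card := by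
        apply Finset.card_le_card_of_injOn ρ
        · intro a _
          exact Finset.mem_coe.mpr (Finset.mem_univ _)
        · intro a ha a' ha' h
          rw [Finset.mem_coe, Finset.mem_filter] at ha ha'
          refine hρ a ha.1 a' ha'.1 ?_ ?_ h
          · rw [← hg, ha.2, hac]
          · rw [← hg, ha'.2, hac]
      refine h1.trans ?_
      simp
    exact Finset.card_le_mul_card_image Ψ 8 (fun c hc => h8 c hc)
  · intro u hu
    rw [Finset.mem_image] at hu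
    obtain ⟨c, hc, rfl⟩ := hu
    exact (hr c hc).1
  · intro u hu v hv huv
    rw [Finset.mem_image] at hu hv
    obtain ⟨c, hc, rfl⟩ := hu
    obtain ⟨c', hc', rfl⟩ := hv
    have h1 : ((r c : B) : B ⧸ N) = ((r c' : B) : B ⧸ N) := by
      rw [eq_comm, QuotientGroup.eq]
      exact (inferInstance : N.Normal).mem_comm_iff.mp (by rw [← div_eq_mul_inv]; exact huv)
    rw [(hr c hc).2, (hr c' hc').2] at h1
    rw [h1]

theorem sel_lower (hd : E.disc ≠ 0) : ∃ K₅ : ℕ, 0 < K₅ ∧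
    ∀ (T : Finset ℕ) (w : ℕ → HeightOneSpectrum (𝓞 F)), (∀ p ∈ T, S.SplP p (w p)) →
    ∀ (K : Type) [Field K] [NumberField K], Module.finrank ℚ K = 2 →
    ∀ δ : K, δ ^ 2 = -(∏ p ∈ T, (p : K)) →
    ∃ Ψ : Finset (E.Alg K)ˣ, 4 ^ T.card ≤ K₅ * Ψ.card ∧ (∀ u ∈ Ψ, u ∈ E.selSub K) ∧
      ∀ u ∈ Ψ, ∀ v ∈ Ψ, u / v ∈ sqSub (E.Alg K) → u = v := by
  classical
  obtain ⟨K₄, hK₄, hcl⟩ := S.exists_classes hd
  refine ⟨8 * K₄, by positivity, ?_⟩
  intro T w hT K _ _ hfin δ hδ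
  obtain ⟨Ψ₀, hcard, hprop, hsep⟩ := hcl T w hT
  set D : ℤ := -(∏ p ∈ T, (p : ℤ)) with hD
  have hδD : δ ^ 2 = (D : K) := by
    rw [hδ, hD]
    push_cast
    rfl
  have hTD : ∀ p ∈ T, S.SplP p (w p) ∧ (p : ℤ) ∣ D ∧ ¬ (p : ℤ) ^ 2 ∣ D := by
    intro p hpT
    have hD1 : (∏ q ∈ T, (q : ℤ)) = (p : ℤ) * ∏ q ∈ T.erase p, (q : ℤ) :=
      (Finset.mul_prod_erase T (fun q => (q : ℤ)) hpT).symm
    refine ⟨hT p hpT, ?_, ?_⟩
    · rw [hD, hD1]
      exact (dvd_mul_right _ _).neg_right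
    · rw [hD, hD1, dvd_neg, sq]
      intro hdvd
      have hp := (hT p hpT).prime
      have hp0 : (p : ℤ) ≠ 0 := by exact_mod_cast hp.ne_zero
      have h2 : (p : ℤ) ∣ ∏ q ∈ T.erase p, (q : ℤ) := (mul_dvd_mul_iff_left hp0).mp hdvd
      have hpp : Prime (p : ℤ) := Nat.prime_iff_prime_int.mp hp
      obtain ⟨q, hq, hpq⟩ := hpp.exists_mem_finset_dvd h2
      have h3 : p ∣ q := by exact_mod_cast hpq
      have hqT := Finset.mem_of_mem_erase hq
      have h4 : p = q := (Nat.prime_dvd_prime_iff_eq hp (hT q hqT).prime).mp h3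
      exact (Finset.ne_of_mem_erase hq) h4.symm
  have hev : ∀ (i : Fin 3) (h : (E.Alg ℚ)ˣ), S.ev i (h : E.Alg ℚ) ≠ 0 := by
    intro i h h0
    have h1 := congrArg (S.ev i) (h.mul_inv)
    rw [map_mul, h0, zero_mul, map_one] at h1
    exact zero_ne_one h1
  have hev_div : ∀ (i : Fin 3) (h h₀ : (E.Alg ℚ)ˣ) (v : HeightOneSpectrum (𝓞 F)),
      ord v (S.ev i ((h / h₀ : (E.Alg ℚ)ˣ) : E.Alg ℚ)) =
        ord v (S.ev i (h : E.Alg ℚ)) - ord v (S.ev i (h₀ : E.Alg ℚ)) := by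
    intro i h h₀ v
    have h1 : S.ev i ((h / h₀ : (E.Alg ℚ)ˣ) : E.Alg ℚ) =
        S.ev i (h : E.Alg ℚ) / S.ev i (h₀ : E.Alg ℚ) := by
      rw [eq_div_iff (hev i h₀), ← map_mul, ← Units.val_mul, div_mul_cancel]
    rw [h1, ord_div v (hev i h) (hev i h₀)]
  obtain ⟨R, hRcard, hRmem, hRinj⟩ := n11_transversal (sqSub (E.Alg K)) Ψ₀
    (fun h => E.uMap (algebraMap ℚ K) h) (by
      intro h₀ hh₀
      have hex : ∀ h : (E.Alg ℚ)ˣ, ∃ ρ : Fin 3 → Fin 2,
          E.uMap (algebraMap ℚ K) h / E.uMap (algebraMap ℚ K) h₀ ∈ sqSub (E.Alg K) →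
          ∀ p ∈ T, ∀ i, Even (ord (w p) (S.ev i ((h / h₀ : (E.Alg ℚ)ˣ) : E.Alg ℚ)) -
            (ρ i : ℕ)) := by
        intro h
        by_cases hm : E.uMap (algebraMap ℚ K) h / E.uMap (algebraMap ℚ K) h₀ ∈ sqSub (E.Alg K)
        · rw [← _root_.map_div] at hm
          obtain ⟨ρ, hρ⟩ := S.parity_const K hfin δ D hδD T w hTD (h / h₀) hm
          exact ⟨ρ, fun _ => hρ⟩
        · exact ⟨fun _ => 0, fun h => absurd h hm⟩
      choose ρ hρ using hex
      refine ⟨ρ, fun h hh h' hh' hN hN' heq => hsep h hh h' hh' ?_⟩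
      intro p hp i
      have e1 := hρ h hN p hp i
      have e2 := hρ h' hN' p hp i
      rw [← heq] at e2
      rw [hev_div] at e1 e2
      have e3 := e1.sub e2
      have e4 : ord (w p) (S.ev i (h : E.Alg ℚ)) - ord (w p) (S.ev i (h' : E.Alg ℚ)) =
          (ord (w p) (S.ev i (h : E.Alg ℚ)) - ord (w p) (S.ev i (h₀ : E.Alg ℚ)) - (ρ h i : ℕ)) -
          (ord (w p) (S.ev i (h' : E.Alg ℚ)) - ord (w p) (S.ev i (h₀ : E.Alg ℚ)) - (ρ h i : ℕ)) := by
        ring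
      rw [e4]
      exact e3)
  refine ⟨R, ?_, ?_, hRinj⟩
  · calc 4 ^ T.card ≤ K₄ * Ψ₀.card := hcard
      _ ≤ K₄ * (8 * R.card) := Nat.mul_le_mul_left _ hRcard
      _ = 8 * K₄ * R.card := by ring
  · intro u hu
    obtain ⟨h, hh, rfl⟩ := hRmem u hu
    obtain ⟨hN, hg, h1⟩ := hprop h hh
    exact E.mem_selSub hd K δ T hδ
      (fun p hp => ⟨(hT p hp).prime, (hT p hp).good, (hT p hp).rootsMod⟩) h hN hg h1

end Split
end H16A
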