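import Pool.Agent.Lib.H16A.U1
import Pool.Agent.Lib.H16A.H4

/-!
# U5 (M): the kernel of `β_D` is bounded modulo `2 E^D(ℚ)`

`D ≠ 0`, `G_D` finite.  Let `N = ker β_D ⊇ 2 E^D(ℚ)` (`β_D` has values in a group of exponent two).  If
`P ∈ N`, then by `two_div_of_split` (H4) over `F` for `E.twist D`: `P = 2R`, `R ∈ E^D(F)`.  For `σ` in the
Galois group `σ R - R` has order dividing two.  There are at most `4` points of order dividing two
(`0` and `(D e_i, 0)`).  If `P = 2R`, `P' = 2R'` give the same function `σ ↦ σ R - R`, then `R - R'` is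
Galois invariant, so it comes from `E^D(ℚ)`, and `P - P' ∈ 2 E^D(ℚ)`.  Hence
`[N : 2 E^D(ℚ)] ≤ 4^{[F:ℚ]} =: K₇` and `[E^D(ℚ) : 2 E^D(ℚ)] ≤ K₇ |G_D|`.
(The Galois action on points is `ptMap σ`; invariance of a point `(x, y)` means `x, y ∈ ℚ`.)
-/

open Polynomial IsDedekindDomain NumberField

namespace H16A
namespace Split

variable {E : Cub} {F : Type} [Field F] [NumberField F] (S : Split E F)

include S in
theorem u5_fixed {t : F} (ht : ∀ σ : F ≃ₐ[ℚ] F, σ t = t) : ∃ q : ℚ, algebraMap ℚ F q = t := by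
  have hG := S.isGalois
  have h1 := (IsGalois.mem_bot_iff_fixed t).2 ht
  exact IntermediateField.mem_bot.1 h1

open Classical in
/-- the points of order dividing two -/
theorem u5_tors {D : ℤ} (Q : (E.twist D).Pt F) (hQ : Q + Q = 0) :
    Q = 0 ∨ ∃ i, ∃ h, Q = WeierstrassCurve.Affine.Point.some ((D : F) * S.e i) 0 h := by
  rcases Q with _ | ⟨x, y, h⟩
  · exact Or.inl rfl
  · right
    have h1 := eq_neg_of_add_eq_zero_left hQ
    rw [WeierstrassCurve.Affine.Point.neg_some] at h1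
    have h2 := (WeierstrassCurve.Affine.Point.some.inj h1).2
    have h3 : (WeierstrassCurve.Affine.baseChange (E.twist D).W F).negY x y = -y := by
      simp [WeierstrassCurve.Affine.negY, WeierstrassCurve.Affine.baseChange,
        WeierstrassCurve.baseChange, Cub.W]
    rw [h3] at h2
    have hy : y = 0 := by
      have h4 : (2 : F) * y = 0 := by linear_combination h2
      rcases mul_eq_zero.1 h4 with h5 | h5
      · exact absurd h5 two_ne_zero
      · exact h5
    subst hy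
    have h4 := u1_eqn (E.twist D) h
    rw [u1_val (E.twist D) (S.twist_poly D), zero_pow two_ne_zero] at h4
    have h5 := h4.symm
    rw [mul_eq_zero, mul_eq_zero, sub_eq_zero, sub_eq_zero, sub_eq_zero] at h5
    rcases h5 with (h5 | h5) | h5
    · subst h5; exact ⟨0, h, rfl⟩
    · subst h5; exact ⟨1, h, rfl⟩
    · subst h5; exact ⟨2, h, rfl⟩

open Classical in
include S in
theorem u5_card (D : ℤ) : Finite {Q : (E.twist D).Pt F // Q + Q = 0} ∧
    Nat.card {Q : (E.twist D).Pt F // Q + Q = 0} ≤ 4 := by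
  have hex : ∀ Q : {Q : (E.twist D).Pt F // Q + Q = 0}, ∃ o : Option (Fin 3),
      (o = none → Q.1 = 0) ∧ ∀ i, o = some i → ∃ h, Q.1 =
        WeierstrassCurve.Affine.Point.some ((D : F) * S.e i) 0 h := by
    rintro ⟨Q, hQ⟩
    rcases S.u5_tors Q hQ with h | ⟨i, h⟩
    · exact ⟨none, fun _ => h, fun i hi => absurd hi (by simp)⟩
    · refine ⟨some i, fun h => absurd h (by simp), fun j hj => ?_⟩
      rw [← Option.some.inj hj]
      exact h
  choose f hf1 hf2 using hex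
  have hinj : Function.Injective f := by
    intro Q Q' hQ
    apply Subtype.ext
    rcases ho : f Q with _ | i
    · rw [hf1 Q ho, hf1 Q' (hQ ▸ ho)]
    · obtain ⟨h, h1⟩ := hf2 Q i ho
      obtain ⟨h', h1'⟩ := hf2 Q' i (hQ ▸ ho)
      rw [h1, h1']
  refine ⟨Finite.of_injective f hinj, ?_⟩
  have h1 := Nat.card_le_card_of_injective f hinj
  simpa using h1

open Classical in
include S in
/-- Galois descent for points -/
theorem u5_descent {D : ℤ} (R : (E.twist D).Pt F)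
    (hR : ∀ σ : F ≃ₐ[ℚ] F, (E.twist D).ptMap (σ : F →+* F) R = R) :
    ∃ Q : (E.twist D).Pt ℚ, (E.twist D).ptMap (algebraMap ℚ F) Q = R := by
  rcases R with _ | ⟨x, y, h⟩
  · exact ⟨0, map_zero _⟩
  · have hx : ∀ σ : F ≃ₐ[ℚ] F, σ x = x := fun σ =>
      (WeierstrassCurve.Affine.Point.some.inj (hR σ)).1
    have hy : ∀ σ : F ≃ₐ[ℚ] F, σ y = y := fun σ =>
      (WeierstrassCurve.Affine.Point.some.inj (hR σ)).2
    obtain ⟨x', rfl⟩ := S.u5_fixed hx
    obtain ⟨y', rfl⟩ := S.u5_fixed hy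
    have h' : (WeierstrassCurve.Affine.baseChange (E.twist D).W ℚ).Nonsingular x' y' :=
      ((E.twist D).W.baseChange_nonsingular (f := (algebraMap ℚ F).toIntAlgHom)
        (algebraMap ℚ F).injective x' y').1 h
    exact ⟨WeierstrassCurve.Affine.Point.some x' y' h', rfl⟩

open Classical in
theorem u5_inj (D : ℤ) : Function.Injective ((E.twist D).ptMap (algebraMap ℚ F)) := by
  unfold Cub.ptMap
  exact WeierstrassCurve.Affine.Point.map_injective (S := ℤ) (F := ℚ) (K := F) (algebraMap ℚ F).toIntAlgHom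

/-- `β_D` as a homomorphism -/
noncomputable def u5_hom {D : ℤ} (hD : D ≠ 0) :
    (E.twist D).Pt ℚ →+ Additive (Fin 3 → SqC F) where
  toFun P := Additive.ofMul (S.beta D P)
  map_zero' := by rw [S.beta_zero D]; rfl
  map_add' P Q := by rw [S.beta_add hD]; rfl

theorem u5_mem_ker {D : ℤ} (hD : D ≠ 0) (P : (E.twist D).Pt ℚ) :
    P ∈ (S.u5_hom hD).ker ↔ S.beta D P = 1 := by
  rw [AddMonoidHom.mem_ker]
  rfl

open Classical in
theorem u5_half {D : ℤ} (hD : D ≠ 0) {P : (E.twist D).Pt ℚ} (hP : P ∈ (S.u5_hom hD).ker) :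
    ∃ R : (E.twist D).Pt F, (E.twist D).ptMap (algebraMap ℚ F) P = R + R := by
  rw [u5_mem_ker] at hP
  refine (E.twist D).two_div_of_split two_ne_zero _ (S.u1_inj hD) (S.twist_poly D) _ ?_
  intro i
  have h1 := congrFun hP i
  unfold beta at h1
  exact h1

theorem u5_le {D : ℤ} (hD : D ≠ 0) : twoG ((E.twist D).Pt ℚ) ≤ (S.u5_hom hD).ker := by
  rintro _ ⟨Q, rfl⟩
  rw [u5_mem_ker]
  have h1 : (nsmulAddMonoidHom 2 : (E.twist D).Pt ℚ →+ _) Q = Q + Q := two_nsmul Q
  rw [h1, S.beta_add hD]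
  funext i
  exact sqC_mul_self _

theorem u5_rel {D : ℤ} (hD : D ≠ 0) :
    (twoG ((E.twist D).Pt ℚ)).relIndex (S.u5_hom hD).ker ≠ 0 ∧
    (twoG ((E.twist D).Pt ℚ)).relIndex (S.u5_hom hD).ker ≤ 4 ^ Nat.card (F ≃ₐ[ℚ] F) := by
  classical
  obtain ⟨hfin, hcard⟩ := S.u5_card D
  have hex : ∀ P : (S.u5_hom hD).ker, ∃ R : (E.twist D).Pt F,
      (E.twist D).ptMap (algebraMap ℚ F) P.1 = R + R := fun P => S.u5_half hD P.2
  choose R hR using hex
  let c : (S.u5_hom hD).ker → (F ≃ₐ[ℚ] F) → {Q : (E.twist D).Pt F // Q + Q = 0} := fun P σ =>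
    ⟨(E.twist D).ptMap (σ : F →+* F) (R P) - R P, by
      have h1 := congrArg ((E.twist D).ptMap (σ : F →+* F)) (hR P)
      rw [u1_ptMap, map_add, hR P] at h1
      rw [sub_add_sub_comm, ← h1, sub_self]⟩
  have hc : ∀ P P', c P = c P' → P.1 - P'.1 ∈ twoG ((E.twist D).Pt ℚ) := by
    intro P P' h
    have h1 : ∀ σ : F ≃ₐ[ℚ] F, (E.twist D).ptMap (σ : F →+* F) (R P - R P') = R P - R P' := by
      intro σ
      have h2 := congrArg Subtype.val (congrFun h σ)
      simp only [c] at h2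
      rw [map_sub]
      exact sub_eq_sub_iff_sub_eq_sub.1 h2
    obtain ⟨Q, hQ⟩ := S.u5_descent (R P - R P') h1
    refine ⟨Q, ?_⟩
    apply u5_inj (F := F) D
    have h3 : (nsmulAddMonoidHom 2 : (E.twist D).Pt ℚ →+ _) Q = Q + Q := two_nsmul Q
    rw [h3, map_add, hQ, map_sub, hR P, hR P']
    abel
  have hinj : Function.Injective (fun q : (S.u5_hom hD).ker ⧸
      (twoG ((E.twist D).Pt ℚ)).addSubgroupOf (S.u5_hom hD).ker => c (Quotient.out q)) := by
    intro q q' h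
    have h1 := hc _ _ h.symm
    rw [← QuotientAddGroup.out_eq' q, ← QuotientAddGroup.out_eq' q', QuotientAddGroup.eq,
      AddSubgroup.mem_addSubgroupOf]
    have h2 : ((-(Quotient.out q) + Quotient.out q' : (S.u5_hom hD).ker) : (E.twist D).Pt ℚ) =
      (Quotient.out q').1 - (Quotient.out q).1 := by
      rw [AddSubgroup.coe_add, AddSubgroup.coe_neg]
      abel
    rw [h2]
    exact h1
  have hF : Finite ((S.u5_hom hD).ker ⧸
      (twoG ((E.twist D).Pt ℚ)).addSubgroupOf (S.u5_hom hD).ker) := Finite.of_injective _ hinj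
  constructor
  · exact Nat.card_pos.ne'
  · refine (Nat.card_le_card_of_injective _ hinj).trans ?_
    rw [Nat.card_fun]
    exact Nat.pow_le_pow_left hcard _

theorem index_le : ∃ K₇ : ℕ, 0 < K₇ ∧ ∀ D : ℤ, D ≠ 0 → Finite (S.G D) →
    (twoG ((E.twist D).Pt ℚ)).index ≠ 0 ∧
    (twoG ((E.twist D).Pt ℚ)).index ≤ K₇ * Nat.card (S.G D) := by
  refine ⟨4 ^ Nat.card (F ≃ₐ[ℚ] F), by positivity, fun D hD hfin => ?_⟩
  obtain ⟨h1, h2⟩ := S.u5_rel hD
  have h3 := AddSubgroup.relIndex_mul_index (S.u5_le hD)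
  have h4 : (S.u5_hom hD).ker.index = Nat.card (S.G D) := by
    rw [AddSubgroup.index_ker]
    apply Nat.card_congr
    refine ⟨fun x => ⟨x.1.toMul, ?_⟩, fun b => ⟨Additive.ofMul b.1, ?_⟩, fun x => rfl, fun b => rfl⟩
    · obtain ⟨P, hP⟩ := x.2
      exact (S.mem_G_iff hD _).2 ⟨P, congrArg Additive.toMul hP⟩
    · obtain ⟨P, hP⟩ := (S.mem_G_iff hD _).1 b.2
      exact ⟨P, congrArg Additive.ofMul hP⟩
  rw [← h3, h4]
  have h5 : 0 < Nat.card (S.G D) := Nat.card_pos
  exact ⟨mul_ne_zero h1 h5.ne', Nat.mul_le_mul_right _ h2⟩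

end Split
end H16A
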