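import Mathlib

/-!
# U7 (M/L): the bilinear estimate for Legendre symbols of primes up to `x`

`T` a set of odd primes `≤ x`, `P = |T|`, `s_p = Σ_{q ∈ T} (q/p)`.
(1) For real signs `ε_p`, `X(n) = Σ_{p ∈ T} ε_p (n/p)`: `Σ_{n < N} X(n)² ≤ P N + P² x²` for every `N`: the
   diagonal terms give `≤ P N`; for `p ≠ p'` the function `n ↦ (n/p)(n/p')` has period `p p'` and sum
   zero over a period (Chinese remainder theorem, `Σ_{n mod p} (n/p) = 0`), so the sum over `n < N` is at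
   most `p p' ≤ x²` in absolute value.
(2) `N = x³ + 1`: `Σ_p ε_p s_p³ = Σ_{(q₁,q₂,q₃) ∈ T³} X(q₁q₂q₃) = Σ_n r(n) X(n)` with
   `r(n) = #{(q₁,q₂,q₃) : q₁q₂q₃ = n} ≤ 6` and `Σ r(n) = P³`, so by Cauchy-Schwarz
   `(Σ_p ε_p s_p³)² ≤ 6 P³ (P (x³+1) + P² x²) ≤ 18 P⁴ x³` (`P ≤ x`).  With `ε_p = sign s_p`:
   `(Σ_p |s_p|³)² ≤ 18 P⁴ x³`.
(3) Power means: `(Σ|s_p|)³ ≤ P² Σ|s_p|³`, so `(Σ_p |s_p|)⁶ ≤ 18 P⁸ x³`.
   If `P ≥ x^(4/5)`, then `x³ ≤ P^(15/4)`, so `(Σ_p|s_p|)⁶ ≤ 18 P^(47/4) = 18 P^12 P^(-1/4)`: it is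
   `≤ (η P²)⁶` as soon as `P^(1/4) ≥ 18 η^(-6)`.
(4) `#{(q, p) ∈ T² : (q/p) = -1} = Σ_{q ≠ p} (1 - (q/p))/2 ≥ (P² - P)/2 - (1/2) Σ_p |s_p|` (the
   diagonal terms of `s_p` are `(p/p) = 0`).
Use `jacobiSym` (or `legendreSym`); for the sum over a period, `jacobiSym.mod_left` and
`MulChar.sum_eq_zero_of_ne_one` / `quadraticChar_sum_zero` and the Chinese remainder theorem.
-/

namespace H16A

open Finset

theorem U7_period {M : ℕ} [NeZero M] (F : ZMod M → ℝ) (h0 : ∑ z, F z = 0) (h1 : ∀ z, |F z| ≤ 1) :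
    ∀ N : ℕ, |∑ n ∈ range N, F (n : ZMod M)| ≤ M := by
  have hM : ∑ n ∈ range M, F (n : ZMod M) = 0 := by
    rw [← h0]
    refine Finset.sum_nbij' (fun n => (n : ZMod M)) (fun z => z.val) ?_ ?_ ?_ ?_ ?_
    · intro n _; exact mem_univ _
    · intro z _; exact mem_range.2 (ZMod.val_lt z)
    · intro n hn; exact ZMod.val_cast_of_lt (mem_range.1 hn)
    · intro z _; exact ZMod.natCast_zmod_val z
    · intro n _; rfl
  intro N
  induction N using Nat.strong_induction_on with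
  | _ N ih =>
    by_cases hN : N ≤ M
    · calc |∑ n ∈ range N, F (n : ZMod M)| ≤ ∑ n ∈ range N, |F (n : ZMod M)| :=
            Finset.abs_sum_le_sum_abs _ _
        _ ≤ ∑ n ∈ range N, (1 : ℝ) := Finset.sum_le_sum fun n _ => h1 _
        _ = N := by simp
        _ ≤ M := by exact_mod_cast hN
    · obtain ⟨K, rfl⟩ : ∃ K, N = M + K := ⟨N - M, by omega⟩
      rw [Finset.sum_range_add, hM, zero_add]
      have h2 : ∀ n ∈ range K, F ((M + n : ℕ) : ZMod M) = F (n : ZMod M) := by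
        intro n _
        congr 1
        push_cast
        simp
      rw [Finset.sum_congr rfl h2]
      have hMpos := NeZero.pos M
      exact ih K (by omega)

theorem U7_leg {p : ℕ} [Fact p.Prime] (n : ℕ) :
    jacobiSym (n : ℤ) p = quadraticChar (ZMod p) (n : ZMod p) := by
  rw [← jacobiSym.legendreSym.to_jacobiSym, legendreSym]
  simp

theorem U7_sum_zero {p : ℕ} [Fact p.Prime] (hp : p ≠ 2) :
    ∑ a : ZMod p, (quadraticChar (ZMod p) a : ℝ) = 0 := by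
  have h := quadraticChar_sum_zero (F := ZMod p) (by rwa [ZMod.ringChar_zmod_n])
  exact_mod_cast congrArg (Int.cast : ℤ → ℝ) h

theorem U7_abs_le (a : ℤ) (p : ℕ) : |(jacobiSym a p : ℝ)| ≤ 1 := by
  rcases jacobiSym.trichotomy a p with h | h | h <;> rw [h] <;> simp

theorem U7_off {p q : ℕ} (hp : p.Prime) (hq : q.Prime) (hp2 : p ≠ 2) (hpq : p ≠ q)
    (N : ℕ) : |∑ n ∈ range N, (jacobiSym (n : ℤ) p : ℝ) * (jacobiSym (n : ℤ) q : ℝ)| ≤ (p * q : ℕ) := by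
  have := Fact.mk hp
  have := Fact.mk hq
  have hcop : p.Coprime q := (Nat.coprime_primes hp hq).2 hpq
  have : NeZero (p * q) := ⟨Nat.mul_ne_zero hp.ne_zero hq.ne_zero⟩
  let e := ZMod.chineseRemainder hcop
  let F : ZMod (p * q) → ℝ := fun z =>
    (quadraticChar (ZMod p) (e z).1 : ℝ) * (quadraticChar (ZMod q) (e z).2 : ℝ)
  have hF : ∀ n : ℕ, (jacobiSym (n : ℤ) p : ℝ) * (jacobiSym (n : ℤ) q : ℝ) = F (n : ZMod (p * q)) := by
    intro n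
    rw [U7_leg, U7_leg]
    simp only [F, map_natCast, Prod.fst_natCast, Prod.snd_natCast]
  have h0 : ∑ z, F z = 0 := by
    rw [← e.toEquiv.symm.sum_comp]
    have h1 : ∀ y : ZMod p × ZMod q, F (e.toEquiv.symm y) =
        (quadraticChar (ZMod p) y.1 : ℝ) * (quadraticChar (ZMod q) y.2 : ℝ) := by
      intro y
      have h2 : e (e.toEquiv.symm y) = y := e.toEquiv.apply_symm_apply y
      simp only [F, h2]
    rw [Finset.sum_congr rfl fun y _ => h1 y, Fintype.sum_prod_type]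
    simp only
    rw [← Finset.sum_mul_sum, U7_sum_zero hp2, zero_mul]
  have h1 : ∀ z, |F z| ≤ 1 := by
    intro z
    have h2 : F z = F ((z.val : ℕ) : ZMod (p * q)) := by rw [ZMod.natCast_zmod_val]
    rw [h2, ← hF, abs_mul]
    exact mul_le_one₀ (U7_abs_le _ _) (abs_nonneg _) (U7_abs_le _ _)
  have h2 := U7_period F h0 h1 N
  rw [Finset.sum_congr rfl fun n _ => hF n]
  exact h2

open scoped List

/-- step (1) -/
theorem U7_step1 (x : ℕ) (T : Finset ℕ) (hT : ∀ p ∈ T, p.Prime ∧ p ≠ 2 ∧ p ≤ x) (ε : ℕ → ℝ)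
    (hε : ∀ p, |ε p| ≤ 1) (N : ℕ) :
    ∑ n ∈ range N, (∑ p ∈ T, ε p * (jacobiSym (n : ℤ) p : ℝ)) ^ 2 ≤
      (T.card : ℝ) * N + (T.card : ℝ) ^ 2 * (x : ℝ) ^ 2 := by
  have h1 : ∀ n : ℕ, (∑ p ∈ T, ε p * (jacobiSym (n : ℤ) p : ℝ)) ^ 2 =
      ∑ p ∈ T, ∑ q ∈ T, ε p * ε q * ((jacobiSym (n : ℤ) p : ℝ) * (jacobiSym (n : ℤ) q : ℝ)) := by
    intro n
    rw [sq, Finset.sum_mul_sum]
    refine Finset.sum_congr rfl fun p _ => Finset.sum_congr rfl fun q _ => ?_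
    ring
  rw [Finset.sum_congr rfl fun n _ => h1 n, Finset.sum_comm]
  have h2 : ∀ p ∈ T, ∀ q ∈ T, ∑ n ∈ range N,
      ε p * ε q * ((jacobiSym (n : ℤ) p : ℝ) * (jacobiSym (n : ℤ) q : ℝ)) ≤
      (if p = q then (N : ℝ) else 0) + (x : ℝ) ^ 2 := by
    intro p hp q hq
    obtain ⟨hp1, hp2, hp3⟩ := hT p hp
    obtain ⟨hq1, hq2, hq3⟩ := hT q hq
    rw [← Finset.mul_sum]
    have h3 : |ε p * ε q| ≤ 1 := by
      rw [abs_mul]
      exact mul_le_one₀ (hε p) (abs_nonneg _) (hε q)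
    refine (le_abs_self _).trans ?_
    rw [abs_mul]
    by_cases hpq : p = q
    · subst hpq
      rw [if_pos rfl]
      have h4 : |∑ n ∈ range N, (jacobiSym (n : ℤ) p : ℝ) * (jacobiSym (n : ℤ) p : ℝ)| ≤ N := by
        calc _ ≤ ∑ n ∈ range N, |(jacobiSym (n : ℤ) p : ℝ) * (jacobiSym (n : ℤ) p : ℝ)| :=
              Finset.abs_sum_le_sum_abs _ _
          _ ≤ ∑ n ∈ range N, (1 : ℝ) := by
              refine Finset.sum_le_sum fun n _ => ?_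
              rw [abs_mul]
              exact mul_le_one₀ (U7_abs_le _ _) (abs_nonneg _) (U7_abs_le _ _)
          _ = N := by simp
      have h5 : |ε p * ε p| *
          |∑ n ∈ range N, (jacobiSym (n : ℤ) p : ℝ) * (jacobiSym (n : ℤ) p : ℝ)| ≤ 1 * N :=
        mul_le_mul h3 h4 (abs_nonneg _) zero_le_one
      have h6 : (0 : ℝ) ≤ (x : ℝ) ^ 2 := by positivity
      linarith
    · rw [if_neg hpq]
      have h4 := U7_off hp1 hq1 hp2 hpq N
      have h5 : ((p * q : ℕ) : ℝ) ≤ (x : ℝ) ^ 2 := by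
        rw [sq]
        exact_mod_cast Nat.mul_le_mul hp3 hq3
      have h6 : |ε p * ε q| *
          |∑ n ∈ range N, (jacobiSym (n : ℤ) p : ℝ) * (jacobiSym (n : ℤ) q : ℝ)| ≤ 1 * (x : ℝ) ^ 2 :=
        mul_le_mul h3 (h4.trans h5) (abs_nonneg _) zero_le_one
      linarith
  calc _ = ∑ p ∈ T, ∑ q ∈ T, ∑ n ∈ range N,
        ε p * ε q * ((jacobiSym (n : ℤ) p : ℝ) * (jacobiSym (n : ℤ) q : ℝ)) :=
        Finset.sum_congr rfl fun p _ => Finset.sum_comm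
    _ ≤ ∑ p ∈ T, ∑ q ∈ T, ((if p = q then (N : ℝ) else 0) + (x : ℝ) ^ 2) :=
        Finset.sum_le_sum fun p hp => Finset.sum_le_sum fun q hq => h2 p hp q hq
    _ = (T.card : ℝ) * N + (T.card : ℝ) ^ 2 * (x : ℝ) ^ 2 := by
        simp only [Finset.sum_add_distrib, Finset.sum_const, nsmul_eq_mul, Finset.sum_ite_eq]
        rw [Finset.sum_ite_mem, Finset.inter_self, Finset.sum_const, nsmul_eq_mul]
        ring

/-- at most six triples of primes have a given product -/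
theorem U7_fiber (T : Finset ℕ) (hT : ∀ p ∈ T, p.Prime) (n : ℕ) :
    ((T ×ˢ T ×ˢ T).filter fun t => t.1 * t.2.1 * t.2.2 = n).card ≤ 6 := by
  rcases ((T ×ˢ T ×ˢ T).filter fun t => t.1 * t.2.1 * t.2.2 = n).eq_empty_or_nonempty with h | h
  · rw [h]; simp
  have hperm : ∀ t ∈ (T ×ˢ T ×ˢ T).filter (fun t => t.1 * t.2.1 * t.2.2 = n),
      [t.1, t.2.1, t.2.2] ~ Nat.primeFactorsList n := by
    intro t ht
    rw [mem_filter, mem_product, mem_product] at ht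
    obtain ⟨⟨h1, h2, h3⟩, h4⟩ := ht
    refine Nat.primeFactorsList_unique ?_ ?_
    · simp only [List.prod_cons, List.prod_nil, mul_one]
      rw [← mul_assoc]; exact h4
    · intro p hp
      simp only [List.mem_cons, List.not_mem_nil, or_false] at hp
      rcases hp with rfl | rfl | rfl
      · exact hT _ h1
      · exact hT _ h2
      · exact hT _ h3
  obtain ⟨t0, ht0⟩ := h
  have hlen : (Nat.primeFactorsList n).length = 3 := by
    rw [← (hperm t0 ht0).length_eq]; rfl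
  calc _ = (((T ×ˢ T ×ˢ T).filter fun t => t.1 * t.2.1 * t.2.2 = n).image
        fun t : ℕ × ℕ × ℕ => [t.1, t.2.1, t.2.2]).card := by
        rw [Finset.card_image_of_injective]
        intro a b hab
        simp only [List.cons.injEq, and_true] at hab
        exact Prod.ext hab.1 (Prod.ext hab.2.1 hab.2.2)
    _ ≤ ((Nat.primeFactorsList n).permutations.toFinset).card := by
        refine Finset.card_le_card ?_
        intro l hl
        rw [mem_image] at hl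
        obtain ⟨t, ht, rfl⟩ := hl
        rw [List.mem_toFinset, List.mem_permutations]
        exact hperm t ht
    _ ≤ (Nat.primeFactorsList n).permutations.length := List.toFinset_card_le _
    _ = 6 := by rw [List.length_permutations, hlen]; rfl

theorem U7_step2 (x : ℕ) (T : Finset ℕ) (hT : ∀ p ∈ T, p.Prime ∧ p ≠ 2 ∧ p ≤ x) (ε : ℕ → ℝ)
    (hε : ∀ p, |ε p| ≤ 1) :
    (∑ p ∈ T, ε p * (∑ q ∈ T, (jacobiSym (q : ℤ) p : ℝ)) ^ 3) ^ 2 ≤
      18 * (T.card : ℝ) ^ 4 * (x : ℝ) ^ 3 := by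
  rcases T.eq_empty_or_nonempty with rfl | hne
  · simp
  obtain ⟨p0, hp0⟩ := hne
  have hx1 : 1 ≤ x := (hT p0 hp0).1.one_lt.le.trans (hT p0 hp0).2.2
  have hPx : T.card ≤ x := by
    have : T ⊆ Finset.Icc 1 x := fun p hp => by
      rw [Finset.mem_Icc]; exact ⟨(hT p hp).1.one_lt.le, (hT p hp).2.2⟩
    simpa using Finset.card_le_card this
  let X : ℕ → ℝ := fun n => ∑ p ∈ T, ε p * (jacobiSym (n : ℤ) p : ℝ)
  let f : ℕ × ℕ × ℕ → ℕ := fun t => t.1 * t.2.1 * t.2.2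
  have h1 : ∑ p ∈ T, ε p * (∑ q ∈ T, (jacobiSym (q : ℤ) p : ℝ)) ^ 3 =
      ∑ t ∈ T ×ˢ T ×ˢ T, X (f t) := by
    simp only [X]
    rw [Finset.sum_comm]
    refine Finset.sum_congr rfl fun p _ => ?_
    rw [← Finset.mul_sum]
    congr 1
    have h2 : ∀ t : ℕ × ℕ × ℕ, (jacobiSym (f t : ℤ) p : ℝ) =
        (jacobiSym (t.1 : ℤ) p : ℝ) * ((jacobiSym (t.2.1 : ℤ) p : ℝ) *
          (jacobiSym (t.2.2 : ℤ) p : ℝ)) := by
      intro t
      simp only [f]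
      push_cast
      rw [jacobiSym.mul_left, jacobiSym.mul_left]
      push_cast
      ring
    rw [Finset.sum_congr rfl fun t _ => h2 t, Finset.sum_product]
    simp only [Finset.sum_product]
    simp only [← Finset.mul_sum, ← Finset.sum_mul]
    ring
  rw [h1]
  have hmaps : ∀ t ∈ T ×ˢ T ×ˢ T, f t ∈ range (x ^ 3 + 1) := by
    intro t ht
    rw [mem_product, mem_product] at ht
    rw [mem_range, Nat.lt_succ_iff]
    calc t.1 * t.2.1 * t.2.2 ≤ x * x * x :=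
          Nat.mul_le_mul (Nat.mul_le_mul (hT _ ht.1).2.2 (hT _ ht.2.1).2.2) (hT _ ht.2.2).2.2
      _ = x ^ 3 := by ring
  have h3 : ∑ t ∈ T ×ˢ T ×ˢ T, X (f t) ^ 2 ≤ 6 * ∑ n ∈ range (x ^ 3 + 1), X n ^ 2 := by
    rw [← Finset.sum_fiberwise_of_maps_to' hmaps (fun n => X n ^ 2), Finset.mul_sum]
    refine Finset.sum_le_sum fun n _ => ?_
    rw [Finset.sum_const, nsmul_eq_mul]
    refine mul_le_mul_of_nonneg_right ?_ (sq_nonneg _)
    exact_mod_cast U7_fiber T (fun p hp => (hT p hp).1) n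
  have h4 := U7_step1 x T hT ε hε (x ^ 3 + 1)
  have h5 : (∑ t ∈ T ×ˢ T ×ˢ T, X (f t)) ^ 2 ≤ ((T ×ˢ T ×ˢ T).card : ℝ) *
      ∑ t ∈ T ×ˢ T ×ˢ T, X (f t) ^ 2 := sq_sum_le_card_mul_sum_sq
  rw [Finset.card_product, Finset.card_product] at h5
  have hP1 : (1 : ℝ) ≤ x := by exact_mod_cast hx1
  have hP2 : (T.card : ℝ) ≤ x := by exact_mod_cast hPx
  have hP0 : (0 : ℝ) ≤ T.card := by positivity
  have h6 : ∑ n ∈ range (x ^ 3 + 1), X n ^ 2 ≤ 3 * (T.card : ℝ) * (x : ℝ) ^ 3 := by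
    refine h4.trans ?_
    push_cast
    have e1 : (1 : ℝ) ≤ (x : ℝ) ^ 3 := one_le_pow₀ hP1
    have e2 : (T.card : ℝ) ^ 2 * (x : ℝ) ^ 2 ≤ (T.card : ℝ) * (x : ℝ) ^ 3 := by
      have : (T.card : ℝ) * ((x : ℝ) ^ 2 * (T.card : ℝ)) ≤ (T.card : ℝ) * ((x : ℝ) ^ 2 * x) := by
        gcongr
      nlinarith
    nlinarith
  calc (∑ t ∈ T ×ˢ T ×ˢ T, X (f t)) ^ 2 ≤ ((T.card * (T.card * T.card) : ℕ) : ℝ) *
      ∑ t ∈ T ×ˢ T ×ˢ T, X (f t) ^ 2 := h5
    _ ≤ ((T.card * (T.card * T.card) : ℕ) : ℝ) * (6 * (3 * (T.card : ℝ) * (x : ℝ) ^ 3)) := by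
        refine mul_le_mul_of_nonneg_left ?_ (by positivity)
        exact h3.trans (by linarith)
    _ = 18 * (T.card : ℝ) ^ 4 * (x : ℝ) ^ 3 := by push_cast; ring

theorem bilinear_aux (x : ℕ) (T : Finset ℕ) (hT : ∀ p ∈ T, p.Prime ∧ p ≠ 2 ∧ p ≤ x) :
    (∑ p ∈ T, |∑ q ∈ T, (jacobiSym (q : ℤ) p : ℝ)|) ^ 6 ≤ 18 * (T.card : ℝ) ^ 8 * (x : ℝ) ^ 3 := by
  let s : ℕ → ℝ := fun p => ∑ q ∈ T, (jacobiSym (q : ℤ) p : ℝ)
  let ε : ℕ → ℝ := fun p => if 0 ≤ s p then 1 else -1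
  have hε : ∀ p, |ε p| ≤ 1 := by
    intro p
    simp only [ε]
    split_ifs <;> simp
  have h1 := U7_step2 x T hT ε hε
  have h2 : ∀ p ∈ T, ε p * (∑ q ∈ T, (jacobiSym (q : ℤ) p : ℝ)) ^ 3 = |s p| ^ 3 := by
    intro p _
    change (if 0 ≤ s p then (1 : ℝ) else -1) * s p ^ 3 = |s p| ^ 3
    split_ifs with h
    · rw [abs_of_nonneg h, one_mul]
    · rw [abs_of_neg (not_le.1 h)]; ring
  rw [Finset.sum_congr rfl h2] at h1
  have h3 : (∑ p ∈ T, |s p|) ^ 3 ≤ (T.card : ℝ) ^ 2 * ∑ p ∈ T, |s p| ^ 3 :=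
    pow_sum_le_card_mul_sum_pow (fun p _ => abs_nonneg (s p)) 2
  have h4 : 0 ≤ ∑ p ∈ T, |s p| := Finset.sum_nonneg fun p _ => abs_nonneg _
  have h5 : 0 ≤ ∑ p ∈ T, |s p| ^ 3 := Finset.sum_nonneg fun p _ => by positivity
  calc (∑ p ∈ T, |s p|) ^ 6 = ((∑ p ∈ T, |s p|) ^ 3) ^ 2 := by ring
    _ ≤ ((T.card : ℝ) ^ 2 * ∑ p ∈ T, |s p| ^ 3) ^ 2 := by
        exact pow_le_pow_left₀ (by positivity) h3 2
    _ = (T.card : ℝ) ^ 4 * (∑ p ∈ T, |s p| ^ 3) ^ 2 := by ring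
    _ ≤ (T.card : ℝ) ^ 4 * (18 * (T.card : ℝ) ^ 4 * (x : ℝ) ^ 3) := by
        exact mul_le_mul_of_nonneg_left h1 (by positivity)
    _ = 18 * (T.card : ℝ) ^ 8 * (x : ℝ) ^ 3 := by ring

theorem U7_count (T : Finset ℕ) (hT : ∀ p ∈ T, p.Prime) :
    (T.card : ℝ) ^ 2 / 2 - (T.card : ℝ) / 2 -
      (∑ p ∈ T, |∑ q ∈ T, (jacobiSym (q : ℤ) p : ℝ)|) / 2 ≤
      ∑ q ∈ T, (((T.erase q).filter (fun p => jacobiSym (q : ℤ) p = -1)).card : ℝ) := by
  have h1 : ∀ q ∈ T, ∑ p ∈ T, (1 - (jacobiSym (q : ℤ) p : ℝ)) / 2 - 1 / 2 ≤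
      (((T.erase q).filter (fun p => jacobiSym (q : ℤ) p = -1)).card : ℝ) := by
    intro q hq
    have h2 : (jacobiSym (q : ℤ) q : ℝ) = 0 := by
      have hne : NeZero q := ⟨(hT q hq).ne_zero⟩
      have : jacobiSym (q : ℤ) q = 0 := by
        rw [jacobiSym.eq_zero_iff_not_coprime]
        simpa using (hT q hq).ne_one
      rw [this]; simp
    rw [← Finset.add_sum_erase T _ hq, h2]
    have h3 : ∀ p ∈ T.erase q, (1 - (jacobiSym (q : ℤ) p : ℝ)) / 2 =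
        if jacobiSym (q : ℤ) p = -1 then (1 : ℝ) else 0 := by
      intro p hp
      rw [Finset.mem_erase] at hp
      have hgcd : ((q : ℤ)).gcd p = 1 := by
        rw [Int.gcd_natCast_natCast]
        exact (Nat.coprime_primes (hT q hq) (hT p hp.2)).2 (Ne.symm hp.1)
      rcases jacobiSym.eq_one_or_neg_one hgcd with h | h
      · rw [h, if_neg (by norm_num)]; norm_num
      · rw [h, if_pos rfl]; norm_num
    rw [Finset.sum_congr rfl h3, ← Finset.sum_filter, Finset.sum_const, nsmul_eq_mul, mul_one]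
    linarith
  have h4 : ∑ q ∈ T, ∑ p ∈ T, (jacobiSym (q : ℤ) p : ℝ) ≤
      ∑ p ∈ T, |∑ q ∈ T, (jacobiSym (q : ℤ) p : ℝ)| := by
    rw [Finset.sum_comm]
    exact Finset.sum_le_sum fun p _ => le_abs_self _
  have h5 : ∑ q ∈ T, (∑ p ∈ T, (1 - (jacobiSym (q : ℤ) p : ℝ)) / 2 - 1 / 2) =
      (T.card : ℝ) ^ 2 / 2 - (T.card : ℝ) / 2 -
        (∑ q ∈ T, ∑ p ∈ T, (jacobiSym (q : ℤ) p : ℝ)) / 2 := by
    simp only [← Finset.sum_div, Finset.sum_sub_distrib, Finset.sum_const, nsmul_eq_mul]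
    ring
  have h6 := Finset.sum_le_sum h1
  rw [h5] at h6
  linarith

theorem bilinear {η : ℝ} (hη : 0 < η) : ∃ x₁ : ℕ, ∀ x : ℕ, x₁ ≤ x → ∀ T : Finset ℕ,
    (∀ p ∈ T, p.Prime ∧ p ≠ 2 ∧ p ≤ x) → (x : ℝ) ^ ((4 : ℝ) / 5) ≤ (T.card : ℝ) →
    (1 / 2 - η) * (T.card : ℝ) ^ 2 ≤
      ∑ q ∈ T, (((T.erase q).filter (fun p => jacobiSym (q : ℤ) p = -1)).card : ℝ) := by
  have ht : Filter.Tendsto (fun x : ℕ => (x : ℝ) ^ ((4 : ℝ) / 5)) Filter.atTop Filter.atTop :=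
    (tendsto_rpow_atTop (by norm_num)).comp tendsto_natCast_atTop_atTop
  obtain ⟨x₁, hx₁⟩ := Filter.eventually_atTop.1
    (ht.eventually_ge_atTop (18 ^ 4 / η ^ 24 + 1 / η))
  refine ⟨x₁, fun x hx T hT hcard => ?_⟩
  have hB := (hx₁ x hx).trans hcard
  set P : ℝ := (T.card : ℝ) with hP
  set S : ℝ := ∑ p ∈ T, |∑ q ∈ T, (jacobiSym (q : ℤ) p : ℝ)| with hS
  have hb1 : 0 < 1 / η := by positivity
  have hb2 : 0 < 18 ^ 4 / η ^ 24 := by positivity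
  have hP0 : 0 < P := by linarith
  have hP1 : 1 ≤ η * P := by
    have : 1 / η ≤ P := by linarith
    rw [div_le_iff₀ hη] at this
    linarith
  have hP2 : 18 ^ 4 ≤ η ^ 24 * P := by
    have : 18 ^ 4 / η ^ 24 ≤ P := by linarith
    rw [div_le_iff₀ (by positivity)] at this
    linarith
  have haux := bilinear_aux x T hT
  rw [← hS, ← hP] at haux
  have hS0 : 0 ≤ S := Finset.sum_nonneg fun p _ => abs_nonneg _
  have hx4 : (x : ℝ) ^ 4 ≤ P ^ 5 := by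
    have h1 : ((x : ℝ) ^ ((4 : ℝ) / 5)) ^ 5 ≤ P ^ 5 := pow_le_pow_left₀ (by positivity) hcard 5
    have h2 : ((x : ℝ) ^ ((4 : ℝ) / 5)) ^ 5 = (x : ℝ) ^ 4 := by
      rw [← Real.rpow_natCast, ← Real.rpow_mul (by positivity)]
      norm_num
    rwa [h2] at h1
  have hS24 : S ^ 24 ≤ 18 ^ 4 * P ^ 47 := by
    calc S ^ 24 = (S ^ 6) ^ 4 := by ring
      _ ≤ (18 * P ^ 8 * (x : ℝ) ^ 3) ^ 4 := pow_le_pow_left₀ (by positivity) haux 4
      _ = 18 ^ 4 * P ^ 32 * ((x : ℝ) ^ 4) ^ 3 := by ring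
      _ ≤ 18 ^ 4 * P ^ 32 * (P ^ 5) ^ 3 := by
          refine mul_le_mul_of_nonneg_left ?_ (by positivity)
          exact pow_le_pow_left₀ (by positivity) hx4 3
      _ = 18 ^ 4 * P ^ 47 := by ring
  have hSP : S ≤ η * P ^ 2 := by
    by_contra hcon
    push Not at hcon
    have h1 : (η * P ^ 2) ^ 24 < S ^ 24 := pow_lt_pow_left₀ hcon (by positivity) (by norm_num)
    have h2 : (η * P ^ 2) ^ 24 = (η ^ 24 * P) * P ^ 47 := by ring
    have h3 : 18 ^ 4 * P ^ 47 ≤ (η ^ 24 * P) * P ^ 47 :=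
      mul_le_mul_of_nonneg_right hP2 (by positivity)
    linarith
  have hcount := U7_count T fun p hp => (hT p hp).1
  rw [← hS, ← hP] at hcount
  have hPP : P ≤ η * P ^ 2 := by nlinarith
  nlinarith

end H16A
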