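import Pool.Agent.Lib.H16A.U4
import Pool.Agent.Lib.H16A.U7

/-!
# U8 (M): some `D` has a small group `G_D`

`κ < 1/2`, `η = (1/2 - κ)/2 > 0`.  `T` a set of split primes `≤ x`, `n = |T| ≥ x^(4/5)`, `x` large.
Suppose `|G_{D(T)}| > 2^((2-κ) n)` and `|G_{D(T-q)}| > 2^((2-κ) n)` for all `q ∈ T`, `D(T) = -∏ T`.
Both groups are in `Hs T` (`G_le_Hs`), of order `≤ K₆ 4^n` (U4), so
`|G_{D(T)} ∩ G_{D(T-q)}| ≥ |G_{D(T)}| |G_{D(T-q)}| / |Hs T| ≥ 2^((4-2κ)n)/(K₆ 4^n)`.
By `inter_le` (U2) and U4 it is `≤ K₆ 4^(n - N_q)`, where `N_q = #{p ∈ T - q : (q/p) = -1}` (the filter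
with `≠ -1` has `n - 1 - N_q` elements).  So `4^(N_q) ≤ K₆² 2^(2κn)`, `N_q ≤ κ n + log₄ (K₆²)`; sum over `q`:
`Σ N_q ≤ κ n² + n log₄(K₆²)`, but `Σ N_q ≥ (1/2 - η) n²` (U7; split primes are odd), contradiction when
`n η > log₄ (K₆²)`.
-/

open Polynomial IsDedekindDomain NumberField

namespace H16A

theorem u8_card {G : Type*} [Group G] (A B H : Subgroup G) [Finite H] (hA : A ≤ H) (hB : B ≤ H) :
    Nat.card A * Nat.card B ≤ Nat.card (A ⊓ B : Subgroup G) * Nat.card H := by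
  have eA : Nat.card (A.subgroupOf H) = Nat.card A :=
    Nat.card_congr (Subgroup.subgroupOfEquivOfLe hA).toEquiv
  have eB : Nat.card (B.subgroupOf H) = Nat.card B :=
    Nat.card_congr (Subgroup.subgroupOfEquivOfLe hB).toEquiv
  have eI : Nat.card ((A ⊓ B).subgroupOf H) = Nat.card (A ⊓ B : Subgroup G) :=
    Nat.card_congr (Subgroup.subgroupOfEquivOfLe (inf_le_left.trans hA)).toEquiv
  have eI2 : (A ⊓ B).subgroupOf H = A.subgroupOf H ⊓ B.subgroupOf H := rfl
  have iA := (A.subgroupOf H).card_mul_index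
  have iB := (B.subgroupOf H).card_mul_index
  have iI := ((A ⊓ B).subgroupOf H).card_mul_index
  have hle : ((A ⊓ B).subgroupOf H).index ≤ (A.subgroupOf H).index * (B.subgroupOf H).index := by
    rw [eI2]
    exact Subgroup.index_inf_le
  have pA : 0 < (A.subgroupOf H).index := Nat.pos_of_ne_zero Subgroup.index_ne_zero_of_finite
  have pB : 0 < (B.subgroupOf H).index := Nat.pos_of_ne_zero Subgroup.index_ne_zero_of_finite
  rw [← eA, ← eB, ← eI]
  generalize Nat.card (A.subgroupOf H) = a at *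
  generalize Nat.card (B.subgroupOf H) = b at *
  generalize Nat.card ((A ⊓ B).subgroupOf H) = c at *
  generalize (A.subgroupOf H).index = x at *
  generalize (B.subgroupOf H).index = y at *
  generalize ((A ⊓ B).subgroupOf H).index = z at *
  generalize Nat.card H = h at *
  have h1 : (a * b) * (x * y) ≤ (c * h) * (x * y) := by
    calc (a * b) * (x * y) = (a * x) * (b * y) := by ring
      _ = (c * z) * h := by rw [iA, iB, iI]
      _ = (c * h) * z := by ring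
      _ ≤ (c * h) * (x * y) := Nat.mul_le_mul_left _ hle
  exact Nat.le_of_mul_le_mul_right h1 (Nat.mul_pos pA pB)

/-- the inequality for one `q` -/
theorem u8_log {κ : ℝ} {n m N : ℕ} {K : ℕ} (hK : 0 < K) (hmN : m + N + 1 = n) {a b c h : ℕ}
    (ha : (2 : ℝ) ^ ((2 - κ) * (n : ℝ)) < (a : ℝ)) (hb : (2 : ℝ) ^ ((2 - κ) * (n : ℝ)) < (b : ℝ))
    (hab : a * b ≤ c * h) (hc : c ≤ K * 4 ^ m) (hh : h ≤ K * 4 ^ n) :
    (N : ℝ) ≤ κ * n + Real.log K / Real.log 2 := by
  have h2 : (0 : ℝ) < Real.log 2 := Real.log_pos one_lt_two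
  have hK' : (0 : ℝ) < (K : ℝ) := by exact_mod_cast hK
  have h1 : (2 : ℝ) ^ ((2 - κ) * (n : ℝ)) * (2 : ℝ) ^ ((2 - κ) * (n : ℝ)) <
      ((K : ℝ) * 4 ^ m) * ((K : ℝ) * 4 ^ n) := by
    have e1 : (2 : ℝ) ^ ((2 - κ) * (n : ℝ)) * (2 : ℝ) ^ ((2 - κ) * (n : ℝ)) < (a : ℝ) * b :=
      mul_lt_mul'' ha hb (by positivity) (by positivity)
    have e2 : a * b ≤ (K * 4 ^ m) * (K * 4 ^ n) := hab.trans (Nat.mul_le_mul hc hh)
    have e3 : (a : ℝ) * b ≤ ((K : ℝ) * 4 ^ m) * ((K : ℝ) * 4 ^ n) := by exact_mod_cast e2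
    exact e1.trans_le e3
  have h3 := Real.log_lt_log (by positivity) h1
  have h4 : Real.log (4 : ℝ) = 2 * Real.log 2 := by
    rw [show (4 : ℝ) = 2 ^ 2 by norm_num, Real.log_pow]
    norm_num
  rw [Real.log_mul (by positivity) (by positivity), Real.log_rpow (by norm_num),
    Real.log_mul (by positivity) (by positivity), Real.log_mul (by positivity) (by positivity),
    Real.log_mul (by positivity) (by positivity), Real.log_pow, Real.log_pow, h4] at h3
  have hn : (n : ℝ) = m + N + 1 := by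
    rw [← hmN]
    push_cast
    ring
  rw [← sub_le_iff_le_add', le_div_iff₀ h2]
  have h5 : (m : ℝ) = n - N - 1 := by linarith
  rw [h5] at h3
  nlinarith

namespace Split

variable {E : Cub} {F : Type} [Field F] [NumberField F] (S : Split E F)

theorem u8_le (T' T : Finset ℕ) (hT : ∀ p ∈ T, p.Prime) (h : T' ⊆ T) :
    S.G (-(∏ p ∈ T', (p : ℤ))) ≤ S.Hs T := by
  refine S.G_le_Hs ?_ T ?_
  · rw [neg_ne_zero, Finset.prod_ne_zero_iff]
    intro p hp
    exact_mod_cast (hT p (h hp)).ne_zero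
  · intro p hp hpd _
    rw [Int.dvd_neg] at hpd
    obtain ⟨q, hq, hpq⟩ := (Prime.dvd_finsetProd_iff (Nat.prime_iff_prime_int.1 hp) _).1 hpd
    have h1 : p ∣ q := by exact_mod_cast hpq
    rw [(Nat.prime_dvd_prime_iff_eq hp (hT q (h hq))).1 h1]
    exact h hq

theorem exists_small {κ : ℝ} (hκ : κ < 1 / 2) : ∃ x₂ : ℕ, ∀ x : ℕ, x₂ ≤ x →
    ∀ (T : Finset ℕ) (w : ℕ → HeightOneSpectrum (𝓞 F)), (∀ p ∈ T, S.SplP p (w p) ∧ p ≤ x) →
    (x : ℝ) ^ ((4 : ℝ) / 5) ≤ (T.card : ℝ) →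
    ∃ T' ⊆ T, T.card ≤ T'.card + 1 ∧ Finite (S.G (-(∏ p ∈ T', (p : ℤ)))) ∧
      (Nat.card (S.G (-(∏ p ∈ T', (p : ℤ)))) : ℝ) ≤ 2 ^ ((2 - κ) * (T.card : ℝ)) := by
  obtain ⟨K, hK, hcard⟩ := S.card_Hs
  have hη : 0 < (1 / 2 - κ) / 2 := by linarith
  obtain ⟨x₁, hx₁⟩ := bilinear hη
  -- the bound for `n`
  have hlim : Filter.Tendsto (fun x : ℕ => (x : ℝ) ^ ((4 : ℝ) / 5)) Filter.atTop Filter.atTop :=
    (tendsto_rpow_atTop (by norm_num)).comp tendsto_natCast_atTop_atTop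
  obtain ⟨x₃, hx₃⟩ := Filter.eventually_atTop.1
    (hlim.eventually_gt_atTop (max 0 (Real.log K / Real.log 2 / ((1 / 2 - κ) / 2))))
  refine ⟨max x₁ x₃, fun x hx T w hT hTx => ?_⟩
  have hprime : ∀ p ∈ T, p.Prime := fun p hp => (hT p hp).1.prime
  have hodd : ∀ p ∈ T, p.Prime ∧ p ≠ 2 ∧ p ≤ x := by
    intro p hp
    refine ⟨hprime p hp, ?_, (hT p hp).2⟩
    rintro rfl
    exact (hT 2 hp).1.good ⟨E.disc, by push_cast; ring⟩
  have hfin : ∀ T' ⊆ T, Finite (S.G (-(∏ p ∈ T', (p : ℤ)))) := by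
    intro T' hT'
    haveI := (hcard T hprime).1
    exact Finite.of_injective _ (Subgroup.inclusion_injective (S.u8_le T' T hprime hT'))
  by_contra hcon
  have hbig : ∀ T' ⊆ T, T.card ≤ T'.card + 1 →
      (2 : ℝ) ^ ((2 - κ) * (T.card : ℝ)) < (Nat.card (S.G (-(∏ p ∈ T', (p : ℤ)))) : ℝ) := by
    intro T' h1 h2
    by_contra h3
    exact hcon ⟨T', h1, h2, hfin T' h1, not_lt.1 h3⟩
  have hn := hx₃ x ((le_max_right _ _).trans hx)
  have hn1 : max 0 (Real.log K / Real.log 2 / ((1 / 2 - κ) / 2)) < (T.card : ℝ) := hn.trans_le hTx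
  have hn0 : (0 : ℝ) < T.card := (le_max_left _ _).trans_lt hn1
  have hn2 : Real.log K / Real.log 2 / ((1 / 2 - κ) / 2) < (T.card : ℝ) :=
    (le_max_right _ _).trans_lt hn1
  rw [div_lt_iff₀ hη] at hn2
  have hbil := hx₁ x ((le_max_left _ _).trans hx) T hodd hTx
  have hq : ∀ q ∈ T, (((T.erase q).filter (fun p => jacobiSym (q : ℤ) p = -1)).card : ℝ) ≤
      κ * T.card + Real.log K / Real.log 2 := by
    intro q hqT
    haveI := (hcard T hprime).1
    have hprime' : ∀ p ∈ (T.erase q).filter (fun p => jacobiSym (q : ℤ) p ≠ -1), p.Prime :=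
      fun p hp => hprime p (Finset.mem_of_mem_erase (Finset.mem_filter.1 hp).1)
    have hce : (T.erase q).card + 1 = T.card := Finset.card_erase_add_one hqT
    have hsplit : ((T.erase q).filter (fun p => jacobiSym (q : ℤ) p = -1)).card +
        ((T.erase q).filter (fun p => ¬ jacobiSym (q : ℤ) p = -1)).card = (T.erase q).card :=
      Finset.card_filter_add_card_filter_not _
    have hcap := S.inter_le T w (fun p hp => (hT p hp).1) hqT
    have hinter : Nat.card (S.G (-(∏ p ∈ T, (p : ℤ))) ⊓ S.G (-(∏ p ∈ T.erase q, (p : ℤ))) :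
        Subgroup (Fin 3 → SqC F)) ≤
        K * 4 ^ ((T.erase q).filter (fun p => ¬ jacobiSym (q : ℤ) p = -1)).card := by
      haveI := (hcard _ hprime').1
      exact (Nat.card_le_card_of_injective _ (Subgroup.inclusion_injective hcap)).trans
        (hcard _ hprime').2
    refine u8_log hK (m := ((T.erase q).filter (fun p => ¬ jacobiSym (q : ℤ) p = -1)).card)
      (by omega) (hbig T (Finset.Subset.refl _) (by omega))
      (hbig (T.erase q) (Finset.erase_subset _ _) (by omega))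
      (u8_card _ _ (S.Hs T) (S.u8_le T T hprime (Finset.Subset.refl _))
        (S.u8_le _ T hprime (Finset.erase_subset _ _))) hinter (hcard T hprime).2
  have hsum : ∑ q ∈ T, (((T.erase q).filter (fun p => jacobiSym (q : ℤ) p = -1)).card : ℝ) ≤
      T.card * (κ * T.card + Real.log K / Real.log 2) := by
    rw [← nsmul_eq_mul]
    exact Finset.sum_le_card_nsmul _ _ _ hq
  have := hbil.trans hsum
  nlinarith

end Split
end H16A
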