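import Pool.Agent.Lib.H16A.N8
import Pool.Agent.Lib.H16A.N11
import Pool.Agent.Lib.H16A.U5
import Pool.Agent.Lib.H16A.U8
import Pool.Agent.Lib.H16A.D2
import Pool.Agent.Lib.H16A.D3

/-!
# FIN1 (M/L): the lower bound for `Ш(E/K)[2]`

`κ < 1/2` and `B` given.  Choose `κ < κ' < 1/2` (`κ' > 0`) and `η < 1`, `η ≥ 4/5`, with `κ' η > κ`.  Let
`F` be the splitting field (N1).  By N8 there are arbitrarily large `x` and a set `T` of split primes `≤ x`
with `n = |T| ≥ x^η ≥ x^(4/5)`; choose `w p`.  By U8 (for `κ'`) there is `T' ⊆ T`, `|T'| ≥ n - 1`,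
`D = -∏T'`, `|G_D| ≤ 2^((2-κ') n)`.  `K = ℚ(√D)` (D3; `D` is squarefree, negative).
* `#E(ℚ)/2E(ℚ) =: I₀` is finite: U5 for `D = 1` and the curve `E.twist 1 = E` (`G_1 ≤ Hs ∅` finite by U4).
* `#E^D(ℚ)/2E^D(ℚ) ≤ K₇ |G_D|` (U5).
* `#E(K)/2E(K) ≤ I₀² K₇ 2^((2-κ')n)` (D2), and this is the index of the squares in `imSub K` (H5).
* `Ψ` (N11): at least `4^(n-1)/K₅` elements of `selSub K`, pairwise inequivalent modulo squares.
Every class of `selSub K/imSub K` contains at most `[imSub K : squares]` of them, so there are at least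
`4^(n-1)/(K₅ I₀² K₇ 2^((2-κ')n)) = 2^(κ' n)/(4 K₅ I₀² K₇)` different classes in `Sha2`.
* `|D| ≤ |disc K| ≤ 4|D| ≤ 4 x^n`, so `log|disc K| ≤ log 4 + n log x`; and
  `|disc K| ≥ |D| ≥ 2^(n-1)`, `loglog|disc K| ≥ log((n-1) log 2) ≥ (η - small) log x` for large `x`.
  So `log|disc K|/loglog|disc K| ≤ (n log x + log 4)/((η - small) log x) ≤ n/(η - 2 small)`, and
  `κ log|disc K|/loglog|disc K| ≤ κ n/(η - 2 small) < κ' n - log₂(4 K₅ I₀² K₇)` for large `x` (so `n` large).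
  And `|disc K| ≥ 2^(n-1) > B`.
(If `κ ≤ 0` the statement is weaker than for `κ = 1/4`.)
-/

open Polynomial IsDedekindDomain NumberField

namespace H16A

/-- the real estimate -/
theorem fin1_real {κ₁ κ' η : ℝ} (h0 : 0 < κ₁) (h1 : κ₁ < κ' * η) (h2 : κ' < 1 / 2) (hη0 : 0 < η)
    (hη1 : η < 1) {C : ℝ} (hC : 0 < C) (B : ℝ) :
    ∃ x₀ : ℕ, ∀ x n : ℕ, x₀ ≤ x → (x : ℝ) ^ η ≤ n → ∀ Δ : ℝ, (2 : ℝ) ^ (n - 1) ≤ Δ →
      Δ ≤ 4 * (x : ℝ) ^ n →
      B < Δ ∧ 0 ≤ Real.log Δ / Real.log (Real.log Δ) ∧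
      C * (2 : ℝ) ^ (κ₁ * (Real.log Δ / Real.log (Real.log Δ))) ≤ (2 : ℝ) ^ (κ' * (n : ℝ)) := by
  have hκ' : 0 < κ' := by
    by_contra h
    push Not at h
    nlinarith
  set δ := κ' * η - κ₁ with hδ
  have hδ0 : 0 < δ := by rw [hδ]; linarith
  set c : ℝ := max (Real.logb 2 C) 0 with hc
  have hc0 : 0 ≤ c := le_max_right _ _
  -- thresholds
  set L0 : ℝ := max (max 1 (2 * κ' * Real.log 3 / δ)) (2 * Real.log 3 / η) with hL0
  set N0 : ℝ := max (max 10 (2 * (1 + c) / δ)) (4 + 2 * |B|) with hN0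
  have e1 : ∀ᶠ x : ℕ in Filter.atTop, L0 ≤ Real.log x :=
    (Real.tendsto_log_atTop.comp tendsto_natCast_atTop_atTop).eventually_ge_atTop L0
  have e2 : ∀ᶠ x : ℕ in Filter.atTop, N0 ≤ (x : ℝ) ^ η :=
    ((tendsto_rpow_atTop hη0).comp tendsto_natCast_atTop_atTop).eventually_ge_atTop N0
  obtain ⟨x₀, hx₀⟩ := Filter.eventually_atTop.1 (e1.and (e2.and (Filter.eventually_ge_atTop 2)))
  refine ⟨x₀, fun x n hx hn Δ hΔ1 hΔ2 => ?_⟩
  obtain ⟨hL, hN, hx2⟩ := hx₀ x hx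
  have hxr : (2 : ℝ) ≤ x := by exact_mod_cast hx2
  have hL1 : 1 ≤ Real.log x := (le_max_left _ _).trans ((le_max_left _ _).trans hL)
  have hL2 : 2 * κ' * Real.log 3 / δ ≤ Real.log x :=
    (le_max_right _ _).trans ((le_max_left _ _).trans hL)
  have hL3 : 2 * Real.log 3 / η ≤ Real.log x := (le_max_right _ _).trans hL
  have hn10 : (10 : ℝ) ≤ n := ((le_max_left _ _).trans (le_max_left _ _)).trans (hN.trans hn)
  have hn2 : 2 * (1 + c) / δ ≤ n := ((le_max_right _ _).trans (le_max_left _ _)).trans (hN.trans hn)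
  have hn3 : 4 + 2 * |B| ≤ n := (le_max_right _ _).trans (hN.trans hn)
  have hn1 : 1 ≤ n := by
    have : (1 : ℝ) ≤ n := by linarith
    exact_mod_cast this
  have hlog2 : (0.69 : ℝ) < Real.log 2 := by
    have := Real.log_two_gt_d9
    linarith
  have hcast : ((n - 1 : ℕ) : ℝ) = n - 1 := by
    rw [Nat.cast_sub hn1, Nat.cast_one]
  have hpow : (n : ℝ) / 2 < (2 : ℝ) ^ (n - 1) := by
    have h := Nat.lt_two_pow_self (n := n - 1)
    have h' : ((n - 1 : ℕ) : ℝ) < (2 : ℝ) ^ (n - 1) := by exact_mod_cast h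
    rw [hcast] at h'
    linarith
  have hΔpos : 0 < Δ := lt_of_lt_of_le (by positivity) hΔ1
  have hB : B < Δ := by
    have := le_abs_self B
    linarith
  -- log Δ
  have hlΔ1 : (n - 1) * Real.log 2 ≤ Real.log Δ := by
    have h := Real.log_le_log (by positivity) hΔ1
    rw [Real.log_pow, hcast] at h
    exact h
  have hlΔ2 : Real.log Δ ≤ Real.log 4 + n * Real.log x := by
    have h := Real.log_le_log hΔpos hΔ2
    rw [Real.log_mul (by norm_num) (by positivity), Real.log_pow] at h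
    exact h
  have hthird : (n : ℝ) / 3 ≤ (n - 1) * Real.log 2 := by nlinarith
  have hlΔ3 : (x : ℝ) ^ η / 3 ≤ Real.log Δ := by linarith
  have hll : η * Real.log x - Real.log 3 ≤ Real.log (Real.log Δ) := by
    have hxη : 0 < (x : ℝ) ^ η := by positivity
    have h := Real.log_le_log (by positivity) hlΔ3
    rw [Real.log_div (by positivity) (by norm_num), Real.log_rpow (by linarith)] at h
    exact h
  have hlog3 : 0 < Real.log 3 := Real.log_pos (by norm_num)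
  have hden : 0 < η * Real.log x - Real.log 3 := by
    rw [div_le_iff₀ hη0] at hL3
    nlinarith
  have hlΔpos : 0 < Real.log Δ := by
    have : 0 < (n : ℝ) / 3 := by linarith
    linarith
  have hnum : 0 ≤ Real.log 4 + n * Real.log x := by linarith
  refine ⟨hB, div_nonneg hlΔpos.le (hden.le.trans hll), ?_⟩
  -- the ratio
  have hr : Real.log Δ / Real.log (Real.log Δ)
      ≤ (Real.log 4 + n * Real.log x) / (η * Real.log x - Real.log 3) :=
    div_le_div₀ hnum hlΔ2 hden hll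
  have hlog4 : Real.log 4 ≤ 2 := by
    have : Real.log 4 = 2 * Real.log 2 := by
      rw [show (4 : ℝ) = 2 ^ 2 by norm_num, Real.log_pow]; norm_num
    have h2 := Real.log_two_lt_d9
    rw [this]; linarith
  have key : κ₁ * ((Real.log 4 + n * Real.log x) / (η * Real.log x - Real.log 3)) + c
      ≤ κ' * n := by
    rw [← le_sub_iff_add_le, ← mul_div_assoc, div_le_iff₀ hden]
    set L := Real.log x with hLdef
    have a1 : 2 * κ' * Real.log 3 ≤ L * δ := by rwa [div_le_iff₀ hδ0] at hL2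
    have a2 : 2 * (1 + c) ≤ n * δ := by rwa [div_le_iff₀ hδ0] at hn2
    have hn0 : (0 : ℝ) ≤ n := by linarith
    have a3 : κ₁ ≤ 1 / 2 := by
      have : κ' * η ≤ κ' * 1 := mul_le_mul_of_nonneg_left hη1.le hκ'.le
      linarith
    have a4 : κ₁ * Real.log 4 ≤ 1 := by
      have : 0 ≤ Real.log 4 := Real.log_nonneg (by norm_num)
      have h5 : κ₁ * Real.log 4 ≤ 1 / 2 * 2 := mul_le_mul a3 hlog4 this (by norm_num)
      linarith
    -- n (δ L - κ' log 3) ≥ n δ L / 2 ≥ (1 + c) L ≥ 1 + c L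
    have a5 : n * (L * δ / 2) ≤ n * (δ * L - κ' * Real.log 3) :=
      mul_le_mul_of_nonneg_left (by linarith) hn0
    have a6 : (1 + c) * L ≤ (n * δ / 2) * L :=
      mul_le_mul_of_nonneg_right (by linarith) (by linarith)
    have a7 : κ₁ * Real.log 4 + c * (η * L - Real.log 3) ≤ (1 + c) * L := by
      have h8 : η * L ≤ 1 * L := mul_le_mul_of_nonneg_right hη1.le (by linarith)
      have : c * (η * L - Real.log 3) ≤ c * L :=
        mul_le_mul_of_nonneg_left (by linarith) hc0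
      linarith
    have a8 : n * (δ * L - κ' * Real.log 3)
        = κ' * n * (η * L - Real.log 3) - κ₁ * (n * L) := by rw [hδ]; ring
    have a9 : n * (L * δ / 2) = (n * δ / 2) * L := by ring
    have a10 : κ₁ * (Real.log 4 + n * L) = κ₁ * Real.log 4 + κ₁ * (n * L) := by ring
    have a11 : (κ' * n - c) * (η * L - Real.log 3)
        = κ' * n * (η * L - Real.log 3) - c * (η * L - Real.log 3) := by ring
    rw [a10, a11]
    linarith
  have hexp : κ₁ * (Real.log Δ / Real.log (Real.log Δ)) + c ≤ κ' * n := by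
    have := mul_le_mul_of_nonneg_left hr h0.le
    linarith
  calc C * (2 : ℝ) ^ (κ₁ * (Real.log Δ / Real.log (Real.log Δ)))
      = (2 : ℝ) ^ (Real.logb 2 C) * (2 : ℝ) ^ (κ₁ * (Real.log Δ / Real.log (Real.log Δ))) := by
        rw [Real.rpow_logb (by norm_num) (by norm_num) hC]
    _ ≤ (2 : ℝ) ^ c * (2 : ℝ) ^ (κ₁ * (Real.log Δ / Real.log (Real.log Δ))) := by
        refine mul_le_mul_of_nonneg_right ?_ (by positivity)
        exact Real.rpow_le_rpow_of_exponent_le (by norm_num) (le_max_left _ _)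
    _ = (2 : ℝ) ^ (κ₁ * (Real.log Δ / Real.log (Real.log Δ)) + c) := by
        rw [Real.rpow_add (by norm_num)]; ring
    _ ≤ (2 : ℝ) ^ (κ' * (n : ℝ)) := Real.rpow_le_rpow_of_exponent_le (by norm_num) hexp

/-- counting classes -/
theorem fin1_count {G : Type*} [CommGroup G] (A I Q : Subgroup G) (hI : Q.relIndex I ≠ 0)
    (Ψ : Finset G) (hA : ∀ u ∈ Ψ, u ∈ A) (hsep : ∀ u ∈ Ψ, ∀ v ∈ Ψ, u / v ∈ Q → u = v) :
    ∃ s : Finset (↥A ⧸ I.subgroupOf A), Ψ.card ≤ Q.relIndex I * s.card := by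
  classical
  set g : G → (↥A ⧸ I.subgroupOf A) := fun u =>
    if h : u ∈ A then QuotientGroup.mk ⟨u, h⟩ else 1 with hg
  refine ⟨Ψ.image g, Finset.card_le_mul_card_image Ψ _ ?_⟩
  intro a ha
  obtain ⟨u₀, hu₀, rfl⟩ := Finset.mem_image.1 ha
  have hfin : Finite (↥I ⧸ Q.subgroupOf I) := Nat.finite_of_card_ne_zero hI
  have hmem : ∀ x ∈ Ψ.filter (fun x => g x = g u₀), x / u₀ ∈ I := by
    intro x hx
    obtain ⟨hxΨ, hxg⟩ := Finset.mem_filter.1 hx
    rw [hg] at hxg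
    simp only [dif_pos (hA x hxΨ), dif_pos (hA u₀ hu₀)] at hxg
    rw [QuotientGroup.eq, Subgroup.mem_subgroupOf] at hxg
    have h1 : x⁻¹ * u₀ ∈ I := hxg
    have h2 : x / u₀ = (x⁻¹ * u₀)⁻¹ := by
      rw [mul_inv, inv_inv, div_eq_mul_inv]
    rw [h2]
    exact I.inv_mem h1
  have h3 : Nat.card (↥(Ψ.filter (fun x => g x = g u₀))) ≤ Nat.card (↥I ⧸ Q.subgroupOf I) := by
    refine Nat.card_le_card_of_injective
      (fun x : ↥(Ψ.filter (fun x => g x = g u₀)) =>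
        (QuotientGroup.mk (⟨x.1 / u₀, hmem x.1 x.2⟩ : ↥I) : ↥I ⧸ Q.subgroupOf I)) ?_
    intro x y hxy
    have hxy' : (QuotientGroup.mk (⟨x.1 / u₀, hmem x.1 x.2⟩ : ↥I) : ↥I ⧸ Q.subgroupOf I)
      = QuotientGroup.mk (⟨y.1 / u₀, hmem y.1 y.2⟩ : ↥I) := hxy
    rw [QuotientGroup.eq, Subgroup.mem_subgroupOf] at hxy'
    have h4 : (x.1 / u₀)⁻¹ * (y.1 / u₀) ∈ Q := hxy'
    have h5 : (x.1 / u₀)⁻¹ * (y.1 / u₀) = y.1 / x.1 := by
      rw [inv_div]
      rw [div_mul_div_comm, mul_comm u₀ y.1, mul_div_mul_right_eq_div]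
    rw [h5] at h4
    exact (Subtype.ext (hsep y.1 (Finset.mem_filter.1 y.2).1 x.1 (Finset.mem_filter.1 x.2).1
      h4)).symm
  rw [Nat.card_eq_fintype_card, Fintype.card_coe] at h3
  exact h3

namespace Cub

variable (E : Cub)

theorem fin1_twist_one : E.twist 1 = E := by
  ext <;> simp [twist]

theorem sha_lower (hd : E.disc ≠ 0) {κ : ℝ} (hκ : κ < 1 / 2) (B : ℝ) :
    ∃ (K : Type) (_ : Field K) (_ : NumberField K), Module.finrank ℚ K = 2 ∧ discr K < 0 ∧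
      B < |(discr K : ℝ)| ∧ ∃ s : Finset (E.Sha2 K),
        (2 : ℝ) ^ (κ * (Real.log |(discr K : ℝ)| / Real.log (Real.log |(discr K : ℝ)|))) ≤
          (s.card : ℝ) := by
  classical
  -- parameters
  set κ₁ : ℝ := max κ (1 / 4) with hκ₁
  have h10 : 1 / 4 ≤ κ₁ := le_max_right _ _
  have h11 : κ₁ < 1 / 2 := max_lt hκ (by norm_num)
  set κ' : ℝ := (κ₁ + 1 / 2) / 2 with hκ'
  have h12 : κ₁ < κ' := by rw [hκ']; linarith
  have h13 : κ' < 1 / 2 := by rw [hκ']; linarith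
  set η : ℝ := max (4 / 5) ((1 + κ₁ / κ') / 2) with hη
  have hκ'0 : 0 < κ' := by linarith
  have h14 : κ₁ / κ' < 1 := by rw [div_lt_one hκ'0]; exact h12
  have hη1 : η < 1 := max_lt (by norm_num) (by linarith)
  have hη45 : 4 / 5 ≤ η := le_max_left _ _
  have hη0 : 0 < η := by linarith
  have h15 : κ₁ < κ' * η := by
    have h16 : κ₁ / κ' < η := lt_of_lt_of_le (by linarith) (le_max_right _ _)
    rwa [div_lt_iff₀' hκ'0] at h16
  -- the splitting field and the constants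
  obtain ⟨F, _, _, ⟨S⟩⟩ := exists_split E hd
  obtain ⟨K₅, hK₅, hsel⟩ := S.sel_lower hd
  obtain ⟨K₆, hK₆, hHs⟩ := S.card_Hs
  obtain ⟨K₇, hK₇, hidx⟩ := S.index_le
  obtain ⟨x₂, hsmall⟩ := S.exists_small h13
  -- E(ℚ)/2E(ℚ) is finite
  have hI₀ : (twoG (E.Pt ℚ)).index ≠ 0 := by
    have hle : S.G 1 ≤ S.Hs ∅ := S.G_le_Hs one_ne_zero ∅ (fun p hp h1 _ => by
      exfalso
      have := Int.natAbs_dvd_natAbs.2 h1
      simp only [Int.natAbs_natCast, Int.natAbs_one, Nat.dvd_one] at this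
      exact hp.one_lt.ne' this)
    have hfin : Finite (S.Hs ∅) := (hHs ∅ (by simp)).1
    have hG : Finite (S.G 1) := Finite.of_injective (Subgroup.inclusion hle)
      (Subgroup.inclusion_injective hle)
    have := (hidx 1 one_ne_zero hG).1
    rwa [E.fin1_twist_one] at this
  set I₀ := (twoG (E.Pt ℚ)).index with hI₀def
  set C : ℝ := 4 * K₅ * (I₀ : ℝ) ^ 2 * K₇ with hC
  have hCpos : 0 < C := by
    have h1 : (0 : ℝ) < K₅ := by exact_mod_cast hK₅
    have h2 : (0 : ℝ) < K₇ := by exact_mod_cast hK₇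
    have h3 : (0 : ℝ) < I₀ := by exact_mod_cast Nat.pos_of_ne_zero hI₀
    positivity
  obtain ⟨x₀, hreal⟩ := fin1_real (by linarith : 0 < κ₁) h15 h13 hη0 hη1 hCpos B
  obtain ⟨x, hx, T, hT, hTcard⟩ := S.supply hd hη0 hη1 (max (max x₀ x₂) 2)
  have hx0 : x₀ ≤ x := ((le_max_left _ _).trans (le_max_left _ _)).trans hx
  have hx2 : x₂ ≤ x := ((le_max_right _ _).trans (le_max_left _ _)).trans hx
  have hx22 : 2 ≤ x := (le_max_right _ _).trans hx
  have hxr : (2 : ℝ) ≤ x := by exact_mod_cast hx22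
  have hTpos : 0 < T.card := by
    have h1 : 0 < (x : ℝ) ^ η := by positivity
    have h2 : (0 : ℝ) < T.card := lt_of_lt_of_le h1 hTcard
    exact_mod_cast h2
  obtain ⟨p₀, hp₀⟩ := Finset.card_pos.1 hTpos
  obtain ⟨w₀, -⟩ := (hT p₀ hp₀).2
  set w : ℕ → HeightOneSpectrum (𝓞 F) := fun p =>
    if h : ∃ w, S.SplP p w then h.choose else w₀ with hw
  have hwT : ∀ p ∈ T, S.SplP p (w p) := by
    intro p hp
    have h := (hT p hp).2
    rw [hw]
    simp only [dif_pos h]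
    exact h.choose_spec
  have hT45 : (x : ℝ) ^ ((4 : ℝ) / 5) ≤ (T.card : ℝ) :=
    (Real.rpow_le_rpow_of_exponent_le (by linarith) hη45).trans hTcard
  obtain ⟨T', hT'T, hT'card, hGfin, hGcard⟩ := hsmall x hx2 T w
    (fun p hp => ⟨hwT p hp, (hT p hp).1⟩) hT45
  set D : ℤ := -(∏ p ∈ T', (p : ℤ)) with hD
  have hprime : ∀ p ∈ T', p.Prime := fun p hp => (hwT p (hT'T hp)).prime
  have hprodpos : 0 < ∏ p ∈ T', (p : ℤ) :=
    Finset.prod_pos fun p hp => by exact_mod_cast (hprime p hp).pos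
  have hDneg : D < 0 := by rw [hD]; linarith
  have hDne : D ≠ 0 := hDneg.ne
  have hsqf : Squarefree D := by
    rw [hD]
    rw [← Int.squarefree_natAbs, Int.natAbs_neg]
    have h1 : (∏ p ∈ T', (p : ℤ)).natAbs = ∏ p ∈ T', p := by
      rw [← Nat.cast_prod, Int.natAbs_natCast]
    rw [h1]
    refine Finset.squarefree_prod_of_pairwise_isCoprime ?_ (fun p hp => (hprime p hp).squarefree)
    intro p hp q hq hpq
    exact Nat.coprime_iff_isRelPrime.1
      ((Nat.coprime_primes (hprime p hp) (hprime q hq)).2 hpq)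
  obtain ⟨K, _, _, δ, hK2, hδ, hδQ, hdneg, hdle, hdge⟩ := exists_imag_quadratic D hDneg hsqf
  -- index of 2 E(K)
  obtain ⟨hiD, hiDle⟩ := hidx D hDne hGfin
  obtain ⟨hiK, hiKle⟩ := E.index_quadratic hK2 δ D hDne hδ hδQ hI₀ hiD
  have h2K : (2 : K) ≠ 0 := two_ne_zero
  have hdK : ((E.disc : ℤ) : K) ≠ 0 := by exact_mod_cast hd
  have hrel := E.relIndex_eq (L := K) h2K hdK
  have hrel0 : (sqSub (E.Alg K)).relIndex (E.imSub K) ≠ 0 := by rw [hrel]; exact hiK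
  -- the elements of the Selmer group
  obtain ⟨Ψ, hΨcard, hΨsel, hΨsep⟩ := hsel T' w (fun p hp => hwT p (hT'T hp)) K hK2 δ (by
    rw [hδ, hD]
    push_cast
    rfl)
  obtain ⟨s, hs⟩ := fin1_count (E.selSub K) (E.imSub K) (sqSub (E.Alg K)) hrel0 Ψ hΨsel hΨsep
  set n := T.card with hn
  have habs : |(discr K : ℝ)| = ((|discr K| : ℤ) : ℝ) := by rw [Int.cast_abs]
  have hDabs : |D| = ∏ p ∈ T', (p : ℤ) := by rw [hD, abs_neg, abs_of_pos hprodpos]
  have hlow : (2 : ℝ) ^ (n - 1) ≤ |(discr K : ℝ)| := by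
    rw [habs]
    have h1 : (2 : ℤ) ^ T'.card ≤ |D| := by
      rw [hDabs, ← Finset.prod_const]
      exact Finset.prod_le_prod (fun _ _ => by norm_num) fun p hp => by
        exact_mod_cast (hprime p hp).two_le
    have h2 : (2 : ℤ) ^ (n - 1) ≤ 2 ^ T'.card := pow_le_pow_right₀ (by norm_num) (by omega)
    have h3 := (h2.trans h1).trans hdge
    exact_mod_cast h3
  have hupp : |(discr K : ℝ)| ≤ 4 * (x : ℝ) ^ n := by
    rw [habs]
    have h1 : |D| ≤ (x : ℤ) ^ T'.card := by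
      rw [hDabs, ← Finset.prod_const]
      exact Finset.prod_le_prod (fun _ _ => by positivity) fun p hp => by
        exact_mod_cast (hT p (hT'T hp)).1
    have h2 : (x : ℤ) ^ T'.card ≤ (x : ℤ) ^ n :=
      pow_le_pow_right₀ (by exact_mod_cast (by omega : 1 ≤ x)) (Finset.card_le_card hT'T)
    have h3 : |discr K| ≤ 4 * (x : ℤ) ^ n := by linarith
    exact_mod_cast h3
  obtain ⟨hB, hr0, hfinal⟩ := hreal x n hx0 hTcard _ hlow hupp
  refine ⟨K, inferInstance, inferInstance, hK2, hdneg, hB, s, ?_⟩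
  set r : ℝ := Real.log |(discr K : ℝ)| / Real.log (Real.log |(discr K : ℝ)|) with hr
  have hmono : (2 : ℝ) ^ (κ * r) ≤ (2 : ℝ) ^ (κ₁ * r) :=
    Real.rpow_le_rpow_of_exponent_le (by norm_num)
      (mul_le_mul_of_nonneg_right (le_max_left _ _) hr0)
  refine hmono.trans ?_
  -- numbers
  have hR : ((sqSub (E.Alg K)).relIndex (E.imSub K) : ℝ)
      ≤ (I₀ : ℝ) ^ 2 * (K₇ * (2 : ℝ) ^ ((2 - κ') * (n : ℝ))) := by
    have h1 : (sqSub (E.Alg K)).relIndex (E.imSub K)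
        ≤ I₀ ^ 2 * (K₇ * Nat.card (S.G D)) := by
      rw [hrel]
      exact hiKle.trans (Nat.mul_le_mul_left _ hiDle)
    have h2 : ((sqSub (E.Alg K)).relIndex (E.imSub K) : ℝ)
        ≤ (I₀ : ℝ) ^ 2 * (K₇ * (Nat.card (S.G D) : ℝ)) := by exact_mod_cast h1
    refine h2.trans ?_
    exact mul_le_mul_of_nonneg_left (mul_le_mul_of_nonneg_left hGcard (by positivity))
      (by positivity)
  have h4 : (4 : ℝ) ^ (n - 1) ≤ K₅ * ((I₀ : ℝ) ^ 2 * (K₇ * (2 : ℝ) ^ ((2 - κ') * (n : ℝ))) *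
      s.card) := by
    have h5 : (4 : ℝ) ^ (n - 1) ≤ 4 ^ T'.card := pow_le_pow_right₀ (by norm_num) (by omega)
    have h6 : (4 : ℝ) ^ T'.card ≤ K₅ * (Ψ.card : ℝ) := by exact_mod_cast hΨcard
    have h7 : (Ψ.card : ℝ) ≤ ((sqSub (E.Alg K)).relIndex (E.imSub K) : ℝ) * s.card := by
      exact_mod_cast hs
    refine (h5.trans h6).trans (mul_le_mul_of_nonneg_left (h7.trans ?_) (by positivity))
    exact mul_le_mul_of_nonneg_right hR (by positivity)
  have h8 : (4 : ℝ) ^ (n - 1) = (2 : ℝ) ^ (2 * (n : ℝ)) / 4 := by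
    have hn1 : 1 ≤ n := hTpos
    have h9 : (2 : ℝ) ^ (2 * (n : ℝ)) = (4 : ℝ) ^ n := by
      rw [Real.rpow_mul (by norm_num), Real.rpow_natCast]
      norm_num
    rw [h9, eq_div_iff (by norm_num), ← pow_succ, Nat.sub_add_cancel hn1]
  have h10' : (2 : ℝ) ^ (2 * (n : ℝ)) = (2 : ℝ) ^ (κ' * (n : ℝ)) * (2 : ℝ) ^ ((2 - κ') * (n : ℝ)) := by
    rw [← Real.rpow_add (by norm_num)]
    congr 1
    ring
  have h11' : (2 : ℝ) ^ (κ' * (n : ℝ)) ≤ C * s.card := by
    rw [h8, h10', div_le_iff₀ (by norm_num)] at h4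
    have hq : 0 < (2 : ℝ) ^ ((2 - κ') * (n : ℝ)) := by positivity
    refine le_of_mul_le_mul_right ?_ hq
    refine h4.trans (le_of_eq ?_)
    rw [hC]
    ring
  exact le_of_mul_le_mul_left (hfinal.trans h11') hCpos

end Cub
end H16A
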