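import Pool.Agent.Lib.H16A.FIN1

/-!
# FIN3: the core of the lower bounds, for a given set `T` of split primes
(the argument of FIN1 of helper88, stated for every `T`)
-/

open Polynomial IsDedekindDomain NumberField

namespace H16A
namespace Split

variable {E : Cub} {F : Type} [Field F] [NumberField F] (S : Split E F)

/-- the field `ℚ(√-∏T)` -/
theorem fin3_field (x : ℕ) (T : Finset ℕ) (hT : ∀ p ∈ T, p ≤ x ∧ p.Prime) :
    ∃ (K : Type) (_ : Field K) (_ : NumberField K) (δ : K), Module.finrank ℚ K = 2 ∧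
      δ ^ 2 = ((-(∏ p ∈ T, (p : ℤ)) : ℤ) : K) ∧ δ ∉ Set.range (algebraMap ℚ K) ∧ discr K < 0 ∧
      (2 : ℝ) ^ T.card ≤ |(discr K : ℝ)| ∧ |(discr K : ℝ)| ≤ 4 * (x : ℝ) ^ T.card := by
  set D : ℤ := -(∏ p ∈ T, (p : ℤ)) with hD
  have hprime : ∀ p ∈ T, p.Prime := fun p hp => (hT p hp).2
  have hprodpos : 0 < ∏ p ∈ T, (p : ℤ) :=
    Finset.prod_pos fun p hp => by exact_mod_cast (hprime p hp).pos
  have hDneg : D < 0 := by rw [hD]; linarith
  have hsqf : Squarefree D := by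
    rw [hD]
    rw [← Int.squarefree_natAbs, Int.natAbs_neg]
    have h1 : (∏ p ∈ T, (p : ℤ)).natAbs = ∏ p ∈ T, p := by
      rw [← Nat.cast_prod, Int.natAbs_natCast]
    rw [h1]
    refine Finset.squarefree_prod_of_pairwise_isCoprime ?_ (fun p hp => (hprime p hp).squarefree)
    intro p hp q hq hpq
    exact Nat.coprime_iff_isRelPrime.1
      ((Nat.coprime_primes (hprime p hp) (hprime q hq)).2 hpq)
  obtain ⟨K, _, _, δ, hK2, hδ, hδQ, hdneg, hdle, hdge⟩ := exists_imag_quadratic D hDneg hsqf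
  have habs : |(discr K : ℝ)| = ((|discr K| : ℤ) : ℝ) := by rw [Int.cast_abs]
  have hDabs : |D| = ∏ p ∈ T, (p : ℤ) := by rw [hD, abs_neg, abs_of_pos hprodpos]
  refine ⟨K, inferInstance, inferInstance, δ, hK2, hδ, hδQ, hdneg, ?_, ?_⟩
  · rw [habs]
    have h1 : (2 : ℤ) ^ T.card ≤ |D| := by
      rw [hDabs, ← Finset.prod_const]
      exact Finset.prod_le_prod (fun _ _ => by norm_num) fun p hp => by
        exact_mod_cast (hprime p hp).two_le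
    exact_mod_cast h1.trans hdge
  · rw [habs]
    have h1 : |D| ≤ (x : ℤ) ^ T.card := by
      rw [hDabs, ← Finset.prod_const]
      exact Finset.prod_le_prod (fun _ _ => by positivity) fun p hp => by
        exact_mod_cast (hT p hp).1
    have h3 : |discr K| ≤ 4 * (x : ℤ) ^ T.card := by linarith
    exact_mod_cast h3

/-- a choice of the primes `w p` -/
theorem fin3_choice (T : Finset ℕ) (hT : ∀ p ∈ T, ∃ w, S.SplP p w) (h0 : 0 < T.card) :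
    ∃ w : ℕ → HeightOneSpectrum (𝓞 F), ∀ p ∈ T, S.SplP p (w p) := by
  classical
  obtain ⟨p₀, hp₀⟩ := Finset.card_pos.1 h0
  obtain ⟨w₀, -⟩ := hT p₀ hp₀
  refine ⟨fun p => if h : ∃ w, S.SplP p w then h.choose else w₀, fun p hp => ?_⟩
  have h := hT p hp
  simp only [dif_pos h]
  exact h.choose_spec

/-- lower bound for the Selmer group -/
theorem sel_core (hd : E.disc ≠ 0) : ∃ C : ℝ, 0 < C ∧
    ∀ x : ℕ, ∀ T : Finset ℕ, (∀ p ∈ T, p ≤ x ∧ ∃ w, S.SplP p w) → 0 < T.card →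
      ∃ (K : Type) (_ : Field K) (_ : NumberField K), Module.finrank ℚ K = 2 ∧ discr K < 0 ∧
        |(discr K : ℝ)| ≤ 4 * (x : ℝ) ^ T.card ∧
        ∃ Ψ : Finset (E.Alg K)ˣ, (∀ u ∈ Ψ, u ∈ E.selSub K) ∧
          (∀ u ∈ Ψ, ∀ v ∈ Ψ, u / v ∈ sqSub (E.Alg K) → u = v) ∧
          (2 : ℝ) ^ (2 * (T.card : ℝ)) ≤ C * (Ψ.card : ℝ) := by
  obtain ⟨K₅, hK₅, hsel⟩ := S.sel_lower hd
  refine ⟨K₅, by exact_mod_cast hK₅, fun x T hT h0 => ?_⟩
  obtain ⟨w, hw⟩ := S.fin3_choice T (fun p hp => (hT p hp).2) h0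
  obtain ⟨K, _, _, δ, hK2, hδ, hδQ, hdneg, hlow, hupp⟩ :=
    fin3_field x T (fun p hp => ⟨(hT p hp).1, (hw p hp).prime⟩)
  obtain ⟨Ψ, hΨcard, hΨsel, hΨsep⟩ := hsel T w hw K hK2 δ (by
    rw [hδ]
    push_cast
    rfl)
  refine ⟨K, inferInstance, inferInstance, hK2, hdneg, hupp, Ψ, hΨsel, hΨsep, ?_⟩
  have h9 : (2 : ℝ) ^ (2 * (T.card : ℝ)) = (4 : ℝ) ^ T.card := by
    rw [Real.rpow_mul (by norm_num), Real.rpow_natCast]
    norm_num
  rw [h9]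
  exact_mod_cast hΨcard

/-- lower bound for `Ш` -/
theorem sha_core (hd : E.disc ≠ 0) {κ' : ℝ} (hκ'0 : 0 < κ') (h13 : κ' < 1 / 2) :
    ∃ (C : ℝ) (x₂ : ℕ), 0 < C ∧
      ∀ x : ℕ, x₂ ≤ x → ∀ T : Finset ℕ, (∀ p ∈ T, p ≤ x ∧ ∃ w, S.SplP p w) → 0 < T.card →
        (x : ℝ) ^ ((4 : ℝ) / 5) ≤ (T.card : ℝ) →
        ∃ (K : Type) (_ : Field K) (_ : NumberField K), Module.finrank ℚ K = 2 ∧ discr K < 0 ∧
          |(discr K : ℝ)| ≤ 4 * (x : ℝ) ^ T.card ∧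
          ∃ s : Finset (E.Sha2 K), (2 : ℝ) ^ (κ' * (T.card : ℝ)) ≤ C * (s.card : ℝ) := by
  classical
  -- the splitting field and the constants
  obtain ⟨K₅, hK₅, hsel⟩ := S.sel_lower hd
  obtain ⟨K₆, hK₆, hHs⟩ := S.card_Hs
  obtain ⟨K₇, hK₇, hidx⟩ := S.index_le
  obtain ⟨x₂, hsmall⟩ := S.exists_small h13
  -- E(ℚ)/2E(ℚ) is finite
  have hI₀ : (twoG (E.Pt ℚ)).index ≠ 0 := by
    have hle : S.G 1 ≤ S.Hs ∅ := S.G_le_Hs one_ne_zero ∅ (fun p hp h1 _ => by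
      exfalso
      have := Int.natAbs_dvd_natAbs.2 h1
      simp only [Int.natAbs_natCast, Int.natAbs_one, Nat.dvd_one] at this
      exact hp.one_lt.ne' this)
    have hfin : Finite (S.Hs ∅) := (hHs ∅ (by simp)).1
    have hG : Finite (S.G 1) := Finite.of_injective (Subgroup.inclusion hle)
      (Subgroup.inclusion_injective hle)
    have := (hidx 1 one_ne_zero hG).1
    rwa [E.fin1_twist_one] at this
  set I₀ := (twoG (E.Pt ℚ)).index with hI₀def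
  set C : ℝ := 4 * K₅ * (I₀ : ℝ) ^ 2 * K₇ with hC
  have hCpos : 0 < C := by
    have h1 : (0 : ℝ) < K₅ := by exact_mod_cast hK₅
    have h2 : (0 : ℝ) < K₇ := by exact_mod_cast hK₇
    have h3 : (0 : ℝ) < I₀ := by exact_mod_cast Nat.pos_of_ne_zero hI₀
    positivity
  refine ⟨C, x₂, hCpos, fun x hx2 T hT hTpos hT45 => ?_⟩
  obtain ⟨w, hwT⟩ := S.fin3_choice T (fun p hp => (hT p hp).2) hTpos
  obtain ⟨T', hT'T, hT'card, hGfin, hGcard⟩ := hsmall x hx2 T w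
    (fun p hp => ⟨hwT p hp, (hT p hp).1⟩) hT45
  have hprime : ∀ p ∈ T', p.Prime := fun p hp => (hwT p (hT'T hp)).prime
  set D : ℤ := -(∏ p ∈ T', (p : ℤ)) with hD
  have hprodpos : 0 < ∏ p ∈ T', (p : ℤ) :=
    Finset.prod_pos fun p hp => by exact_mod_cast (hprime p hp).pos
  have hDneg : D < 0 := by rw [hD]; linarith
  have hDne : D ≠ 0 := hDneg.ne
  obtain ⟨K, _, _, δ, hK2, hδ, hδQ, hdneg, hlow, hupp⟩ :=
    fin3_field x T' (fun p hp => ⟨(hT p (hT'T hp)).1, hprime p hp⟩)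
  -- index of 2 E(K)
  obtain ⟨hiD, hiDle⟩ := hidx D hDne hGfin
  obtain ⟨hiK, hiKle⟩ := E.index_quadratic hK2 δ D hDne hδ hδQ hI₀ hiD
  have h2K : (2 : K) ≠ 0 := two_ne_zero
  have hdK : ((E.disc : ℤ) : K) ≠ 0 := by exact_mod_cast hd
  have hrel := E.relIndex_eq (L := K) h2K hdK
  have hrel0 : (sqSub (E.Alg K)).relIndex (E.imSub K) ≠ 0 := by rw [hrel]; exact hiK
  -- the elements of the Selmer group
  obtain ⟨Ψ, hΨcard, hΨsel, hΨsep⟩ := hsel T' w (fun p hp => hwT p (hT'T hp)) K hK2 δ (by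
    rw [hδ]
    push_cast
    rfl)
  obtain ⟨s, hs⟩ := fin1_count (E.selSub K) (E.imSub K) (sqSub (E.Alg K)) hrel0 Ψ hΨsel hΨsep
  set n := T.card with hn
  have hx1 : 1 ≤ x := by
    obtain ⟨p₀, hp₀⟩ := Finset.card_pos.1 hTpos
    exact (hwT p₀ hp₀).prime.pos.trans_le (hT p₀ hp₀).1
  have hupp' : |(discr K : ℝ)| ≤ 4 * (x : ℝ) ^ T.card := by
    refine hupp.trans (mul_le_mul_of_nonneg_left ?_ (by norm_num))
    exact pow_le_pow_right₀ (by exact_mod_cast hx1) (Finset.card_le_card hT'T)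
  refine ⟨K, inferInstance, inferInstance, hK2, hdneg, hupp', s, ?_⟩
  -- numbers
  have hR : ((sqSub (E.Alg K)).relIndex (E.imSub K) : ℝ)
      ≤ (I₀ : ℝ) ^ 2 * (K₇ * (2 : ℝ) ^ ((2 - κ') * (n : ℝ))) := by
    have h1 : (sqSub (E.Alg K)).relIndex (E.imSub K)
        ≤ I₀ ^ 2 * (K₇ * Nat.card (S.G D)) := by
      rw [hrel]
      exact hiKle.trans (Nat.mul_le_mul_left _ hiDle)
    have h2 : ((sqSub (E.Alg K)).relIndex (E.imSub K) : ℝ)
        ≤ (I₀ : ℝ) ^ 2 * (K₇ * (Nat.card (S.G D) : ℝ)) := by exact_mod_cast h1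
    refine h2.trans ?_
    exact mul_le_mul_of_nonneg_left (mul_le_mul_of_nonneg_left hGcard (by positivity))
      (by positivity)
  have h4 : (4 : ℝ) ^ (n - 1) ≤ K₅ * ((I₀ : ℝ) ^ 2 * (K₇ * (2 : ℝ) ^ ((2 - κ') * (n : ℝ))) *
      s.card) := by
    have h5 : (4 : ℝ) ^ (n - 1) ≤ 4 ^ T'.card := pow_le_pow_right₀ (by norm_num) (by omega)
    have h6 : (4 : ℝ) ^ T'.card ≤ K₅ * (Ψ.card : ℝ) := by exact_mod_cast hΨcard
    have h7 : (Ψ.card : ℝ) ≤ ((sqSub (E.Alg K)).relIndex (E.imSub K) : ℝ) * s.card := by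
      exact_mod_cast hs
    refine (h5.trans h6).trans (mul_le_mul_of_nonneg_left (h7.trans ?_) (by positivity))
    exact mul_le_mul_of_nonneg_right hR (by positivity)
  have h8 : (4 : ℝ) ^ (n - 1) = (2 : ℝ) ^ (2 * (n : ℝ)) / 4 := by
    have hn1 : 1 ≤ n := hTpos
    have h9 : (2 : ℝ) ^ (2 * (n : ℝ)) = (4 : ℝ) ^ n := by
      rw [Real.rpow_mul (by norm_num), Real.rpow_natCast]
      norm_num
    rw [h9, eq_div_iff (by norm_num), ← pow_succ, Nat.sub_add_cancel hn1]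
  have h10' : (2 : ℝ) ^ (2 * (n : ℝ)) = (2 : ℝ) ^ (κ' * (n : ℝ)) * (2 : ℝ) ^ ((2 - κ') * (n : ℝ)) := by
    rw [← Real.rpow_add (by norm_num)]
    congr 1
    ring
  have h11' : (2 : ℝ) ^ (κ' * (n : ℝ)) ≤ C * s.card := by
    rw [h8, h10', div_le_iff₀ (by norm_num)] at h4
    have hq : 0 < (2 : ℝ) ^ ((2 - κ') * (n : ℝ)) := by positivity
    refine le_of_mul_le_mul_right ?_ hq
    refine h4.trans (le_of_eq ?_)
    rw [hC]
    ring
  exact h11'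

end Split
end H16A
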