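import Pool.Agent.Lib.H59.PrimeIdealSums

/-!
# PI1 (L): the sum of `log p / p` over the primes of degree one, with relative error `ε`

`F` a number field, `A(t)` = number of nonzero ideals of `𝓞 F` of norm `≤ t`.
Mathlib (`NumberField.Ideal.tendsto_norm_le_div_atTop₀`, file
`Mathlib/NumberTheory/NumberField/Ideal/Asymptotics.lean`): `A(t)/t → κ > 0`.  So `A(t) ≤ C t` for `t ≥ 1`.
(1) `L(x) = ∑_{N(I) ≤ x} log N(I) = (1 + o(1)) κ x log x`: upper bound `A(x) log x`; lower bound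
    `(A(x) - A(x/B)) log (x/B)` with `B` large.
(2) `log N(I) = ∑_{P^k | I, k ≥ 1} log N(P)` (unique factorisation), so
    `L(x) = ∑_P ∑_{k ≥ 1} log N(P) A(x/N(P)^k)`, and the terms with `k ≥ 2` contribute
    `≤ C x ∑_P ∑_{k ≥ 2} log N(P)/N(P)^k = O(x)`.
(3) For `N(P) ≤ x/B`: `|A(x/N(P)) - κ x/N(P)| ≤ ε κ x/N(P)` (`B` large).  For `x/B < N(P) ≤ x`:
    `A(x/N(P)) ≤ C B` and `∑_{N(P) ≤ x} log N(P) = O(x)` (Chebyshev `θ(x) ≤ log 4 · x`,
    `Mathlib/NumberTheory/Chebyshev.lean`; there are at most `[F:ℚ]` primes `P` above every `p`,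
    `card_filter_below_le`, and their norms are powers of `p`).
(4) Hence `∑_{N(P) ≤ x} log N(P)/N(P) = (1 + o(1)) log x`, and the primes of degree `≥ 2` contribute
    `O(1)`; the primes of norm exactly `p` are counted by `degOne F p`.
-/

open Set Module Filter Topology NumberField Pool.Agent.Lib.H59
open Ideal (absNorm)
open UniqueFactorizationMonoid IsDedekindDomain

namespace H16A

section PI1

variable (F : Type*) [Field F] [NumberField F]

theorem PI1_fin (x : ℕ) : {I : Ideal (𝓞 F) | I ≠ ⊥ ∧ absNorm I ≤ x}.Finite :=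
  (Ideal.finite_setOfPred_absNorm_le (S := 𝓞 F) x).subset fun _ h => h.2

/-- nonzero ideals of norm at most `x` -/
noncomputable def PI1_IS (x : ℕ) : Finset (Ideal (𝓞 F)) := (PI1_fin F x).toFinset

variable {F} in
theorem PI1_mem {x : ℕ} {I : Ideal (𝓞 F)} : I ∈ PI1_IS F x ↔ I ≠ ⊥ ∧ absNorm I ≤ x := by
  simp [PI1_IS]

theorem PI1_finP (x : ℕ) : {P : HeightOneSpectrum (𝓞 F) | absNorm P.asIdeal ≤ x}.Finite := by
  refine Set.Finite.of_finite_image (f := fun P => P.asIdeal) ?_ ?_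
  · refine (PI1_fin F x).subset ?_
    rintro _ ⟨P, hP, rfl⟩
    exact ⟨P.ne_bot, hP⟩
  · intro P _ Q _ h
    exact HeightOneSpectrum.ext h

/-- prime ideals of norm at most `x` -/
noncomputable def PI1_PS (x : ℕ) : Finset (HeightOneSpectrum (𝓞 F)) := (PI1_finP F x).toFinset

variable {F} in
theorem PI1_memP {x : ℕ} {P : HeightOneSpectrum (𝓞 F)} :
    P ∈ PI1_PS F x ↔ absNorm P.asIdeal ≤ x := by
  simp [PI1_PS]

theorem PI1_card_eq (x : ℕ) : (PI1_IS F x).card =
    Nat.card {I : nonZeroDivisors (Ideal (𝓞 F)) //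
      ((absNorm (I : Ideal (𝓞 F)) : ℕ) : ℝ) ≤ ((x : ℕ) : ℝ)} := by
  have h1 : (PI1_IS F x).card = Nat.card {I : Ideal (𝓞 F) // I ∈ PI1_IS F x} := by
    rw [Nat.card_eq_fintype_card, Fintype.card_coe]
  rw [h1]
  refine Nat.card_congr ⟨fun I => ⟨⟨I.1, mem_nonZeroDivisors_iff_ne_zero.2 (PI1_mem.1 I.2).1⟩,
    ?_⟩, fun I => ⟨I.1.1, ?_⟩, ?_, ?_⟩
  · exact_mod_cast (PI1_mem.1 I.2).2
  · exact PI1_mem.2 ⟨mem_nonZeroDivisors_iff_ne_zero.1 I.1.2, by exact_mod_cast I.2⟩
  · intro I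
    rfl
  · intro I
    rfl

theorem PI1_lim : ∃ κ : ℝ, 0 < κ ∧
    Tendsto (fun n : ℕ => ((PI1_IS F n).card : ℝ) / n) atTop (𝓝 κ) := by
  refine ⟨(2 ^ InfinitePlace.nrRealPlaces F * (2 * Real.pi) ^ InfinitePlace.nrComplexPlaces F *
    Units.regulator F * classNumber F) / (Units.torsionOrder F * Real.sqrt |discr F|), ?_, ?_⟩
  rotate_left
  · have h := (NumberField.Ideal.tendsto_norm_le_div_atTop₀ F).comp tendsto_natCast_atTop_atTop
    refine h.congr fun n => ?_
    simp only [Function.comp_apply]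
    rw [PI1_card_eq]
  · have h1 := NumberField.Units.regulator_pos F
    have h2 : 0 < NumberField.classNumber F := NumberField.classNumber_pos F
    have h3 : 0 < NumberField.Units.torsionOrder F := NumberField.Units.torsionOrder_pos F
    have h4 : (0 : ℝ) < |((NumberField.discr F : ℤ) : ℝ)| := by
      rw [abs_pos]
      exact_mod_cast NumberField.discr_ne_zero F
    have h5 := Real.pi_pos
    positivity

theorem PI1_IS_zero : PI1_IS F 0 = ∅ := by
  rw [Finset.eq_empty_iff_forall_notMem]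
  intro I hI
  obtain ⟨h1, h2⟩ := PI1_mem.1 hI
  exact h1 (Ideal.absNorm_eq_zero_iff.1 (by omega))

/-- the constant -/
theorem PI1_asym : ∃ κ : ℝ, 0 < κ ∧ ∀ ε : ℝ, 0 < ε → ∃ K : ℝ, 0 ≤ K ∧ ∀ n : ℕ,
    |((PI1_IS F n).card : ℝ) - κ * n| ≤ ε * n + K := by
  obtain ⟨κ, hκ, hlim⟩ := PI1_lim F
  refine ⟨κ, hκ, fun ε hε => ?_⟩
  have h1 := Metric.tendsto_atTop.1 hlim ε hε
  obtain ⟨B, hB⟩ := h1
  refine ⟨∑ n ∈ Finset.range (B + 1), |((PI1_IS F n).card : ℝ) - κ * n|,
    Finset.sum_nonneg fun _ _ => abs_nonneg _, fun n => ?_⟩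
  rcases le_or_gt n B with h | h
  · have h2 : |((PI1_IS F n).card : ℝ) - κ * n| ≤
        ∑ n ∈ Finset.range (B + 1), |((PI1_IS F n).card : ℝ) - κ * n| :=
      Finset.single_le_sum (f := fun n : ℕ => |((PI1_IS F n).card : ℝ) - κ * n|)
        (fun _ _ => abs_nonneg _) (Finset.mem_range.2 (by omega))
    have : 0 ≤ ε * n := by positivity
    linarith
  · have h2 := hB n h.le
    rw [Real.dist_eq] at h2
    have hn : (0 : ℝ) < n := by exact_mod_cast (by omega : 0 < n)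
    have h3 : ((PI1_IS F n).card : ℝ) - κ * n = n * (((PI1_IS F n).card : ℝ) / n - κ) := by
      field_simp
    rw [h3, abs_mul, abs_of_pos hn]
    have h4 : (n : ℝ) * |((PI1_IS F n).card : ℝ) / n - κ| ≤ n * ε :=
      mul_le_mul_of_nonneg_left h2.le hn.le
    have h5 : 0 ≤ ∑ n ∈ Finset.range (B + 1), |((PI1_IS F n).card : ℝ) - κ * n| :=
      Finset.sum_nonneg fun _ _ => abs_nonneg _
    linarith

theorem PI1_upper : ∃ C : ℝ, 0 < C ∧ ∀ n : ℕ, ((PI1_IS F n).card : ℝ) ≤ C * n := by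
  obtain ⟨κ, hκ, h⟩ := PI1_asym F
  obtain ⟨K, hK, h1⟩ := h 1 one_pos
  refine ⟨κ + 1 + K, by positivity, fun n => ?_⟩
  rcases Nat.eq_zero_or_pos n with h0 | h0
  · rw [h0, PI1_IS_zero]
    simp
  · have h2 := (abs_le.1 (h1 n)).2
    have hn : (1 : ℝ) ≤ n := by exact_mod_cast h0
    nlinarith

/-- multiplicity of `P` in `I` -/
noncomputable def PI1_v {F : Type*} [Field F] [NumberField F] (P : HeightOneSpectrum (𝓞 F))
    (I : Ideal (𝓞 F)) : ℕ := by
  classical exact (normalizedFactors I).count P.asIdeal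

variable {F}

theorem PI1_v_mul (P : HeightOneSpectrum (𝓞 F)) {J : Ideal (𝓞 F)} (hJ : J ≠ ⊥) :
    PI1_v P (P.asIdeal * J) = 1 + PI1_v P J := by
  classical
  unfold PI1_v
  have h1 : (P.asIdeal : Ideal (𝓞 F)) ≠ 0 := P.ne_bot
  have h2 : Irreducible P.asIdeal := P.irreducible
  rw [normalizedFactors_mul h1 hJ, Multiset.count_add, normalizedFactors_irreducible h2,
    normalize_eq, Multiset.count_singleton_self]

theorem PI1_v_zero (P : HeightOneSpectrum (𝓞 F)) {I : Ideal (𝓞 F)} (h : ¬ P.asIdeal ∣ I) :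
    PI1_v P I = 0 := by
  classical
  unfold PI1_v
  rw [Multiset.count_eq_zero]
  intro h1
  exact h (dvd_of_mem_normalizedFactors h1)

theorem PI1_two_le (P : HeightOneSpectrum (𝓞 F)) : 2 ≤ absNorm P.asIdeal := by
  obtain ⟨f, hf1, hf⟩ := absNorm_eq_below_pow P
  have h1 := (below_prime P).two_le
  calc 2 ≤ below P := h1
    _ = below P ^ 1 := (pow_one _).symm
    _ ≤ below P ^ f := Nat.pow_le_pow_right (by omega) hf1
    _ = _ := hf.symm

/-- the factorisation -/
theorem PI1_log {x : ℕ} {I : Ideal (𝓞 F)} (hI : I ∈ PI1_IS F x) :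
    Real.log (absNorm I) =
      ∑ P ∈ PI1_PS F x, (PI1_v P I : ℝ) * Real.log (absNorm P.asIdeal) := by
  classical
  obtain ⟨h0, hx⟩ := PI1_mem.1 hI
  have hprod := Ideal.prod_normalizedFactors_eq_self h0
  have h1 : absNorm I = ((normalizedFactors I).map absNorm).prod := by
    conv_lhs => rw [← hprod]
    exact map_multiset_prod absNorm _
  have hne : ∀ J ∈ normalizedFactors I, (absNorm J) ≠ 0 := by
    intro J hJ h
    rw [Ideal.absNorm_eq_zero_iff] at h
    exact (irreducible_of_normalized_factor J hJ).ne_zero h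
  have h2 : Real.log (absNorm I) =
      ((normalizedFactors I).map (fun J => Real.log (absNorm J))).sum := by
    rw [h1]
    have key : ∀ s : Multiset (Ideal (𝓞 F)), (∀ J ∈ s, absNorm J ≠ 0) →
        Real.log (((s.map absNorm).prod : ℕ) : ℝ) =
          (s.map (fun J => Real.log (absNorm J))).sum := by
      intro s
      induction s using Multiset.induction_on with
      | empty => simp
      | cons a s ih =>
        intro hs
        rw [Multiset.map_cons, Multiset.prod_cons, Multiset.map_cons, Multiset.sum_cons,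
          Nat.cast_mul, Real.log_mul, ih fun J hJ => hs J (Multiset.mem_cons_of_mem hJ)]
        · exact_mod_cast hs a (Multiset.mem_cons_self a s)
        · have : (s.map absNorm).prod ≠ 0 := by
            rw [Ne, Multiset.prod_eq_zero_iff, Multiset.mem_map]
            rintro ⟨J, hJ, h⟩
            exact hs J (Multiset.mem_cons_of_mem hJ) h
          exact_mod_cast this
    exact key _ hne
  rw [h2, Finset.sum_multiset_map_count]
  have h3 : ∀ P ∈ PI1_PS F x, PI1_v P I ≠ 0 → P.asIdeal ∈ (normalizedFactors I).toFinset := by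
    intro P _ hP
    unfold PI1_v at hP
    rw [Multiset.mem_toFinset]
    exact Multiset.count_ne_zero.1 hP
  symm
  rw [← Finset.sum_filter_of_ne (p := fun P => PI1_v P I ≠ 0) (fun P _ h => by
    intro h0
    exact h (by rw [h0]; simp))]
  refine Finset.sum_bij (fun P _ => P.asIdeal) ?_ ?_ ?_ ?_
  · intro P hP
    rw [Finset.mem_filter] at hP
    exact h3 P hP.1 hP.2
  · intro P _ Q _ h
    exact HeightOneSpectrum.ext h
  · intro J hJ
    rw [Multiset.mem_toFinset] at hJ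
    have hJp : Prime J := prime_of_normalized_factor J hJ
    have hJI : J ∣ I := dvd_of_mem_normalizedFactors hJ
    refine ⟨⟨J, Ideal.isPrime_of_prime hJp, hJp.ne_zero⟩, ?_, rfl⟩
    rw [Finset.mem_filter, PI1_memP]
    refine ⟨?_, ?_⟩
    · refine (Nat.le_of_dvd ?_ (map_dvd absNorm hJI)).trans hx
      exact Nat.pos_of_ne_zero fun h => h0 (Ideal.absNorm_eq_zero_iff.1 h)
    · unfold PI1_v
      exact Multiset.count_ne_zero.2 hJ
  · intro P _
    unfold PI1_v
    rw [nsmul_eq_mul]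

/-- sum of the multiplicities -/
noncomputable def PI1_V (P : HeightOneSpectrum (𝓞 F)) (x : ℕ) : ℝ :=
  ∑ I ∈ PI1_IS F x, (PI1_v P I : ℝ)

theorem PI1_V_rec (P : HeightOneSpectrum (𝓞 F)) (x : ℕ) :
    PI1_V P x = ((PI1_IS F (x / absNorm P.asIdeal)).card : ℝ) +
      PI1_V P (x / absNorm P.asIdeal) := by
  classical
  have hP2 := PI1_two_le P
  unfold PI1_V
  rw [← Finset.sum_filter_of_ne (p := fun I => P.asIdeal ∣ I) (fun I _ h => by
    by_contra h0
    exact h (by rw [PI1_v_zero P h0]; simp))]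
  have h1 : ((PI1_IS F (x / absNorm P.asIdeal)).card : ℝ) +
      ∑ I ∈ PI1_IS F (x / absNorm P.asIdeal), (PI1_v P I : ℝ) =
      ∑ I ∈ PI1_IS F (x / absNorm P.asIdeal), (PI1_v P (P.asIdeal * I) : ℝ) := by
    rw [Finset.card_eq_sum_ones, Nat.cast_sum, ← Finset.sum_add_distrib]
    refine Finset.sum_congr rfl fun I hI => ?_
    rw [PI1_v_mul P (PI1_mem.1 hI).1]
    push_cast
    ring
  rw [h1]
  symm
  refine Finset.sum_bij (fun I _ => P.asIdeal * I) ?_ ?_ ?_ ?_
  · intro I hI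
    obtain ⟨h2, h3⟩ := PI1_mem.1 hI
    rw [Finset.mem_filter, PI1_mem]
    refine ⟨⟨?_, ?_⟩, dvd_mul_right _ _⟩
    · exact mul_ne_zero P.ne_bot h2
    · rw [map_mul]
      rw [Nat.le_div_iff_mul_le (by omega)] at h3
      rw [mul_comm]
      exact h3
  · intro I _ J _ h
    exact mul_left_cancel₀ (a := P.asIdeal) P.ne_bot h
  · intro I hI
    rw [Finset.mem_filter, PI1_mem] at hI
    obtain ⟨⟨h2, h3⟩, J, rfl⟩ := hI
    refine ⟨J, ?_, rfl⟩
    rw [PI1_mem]
    refine ⟨fun h => h2 (by rw [h]; simp), ?_⟩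
    rw [Nat.le_div_iff_mul_le (by omega)]
    rw [map_mul, mul_comm] at h3
    exact h3
  · intro I _
    rfl

theorem PI1_V_zero (P : HeightOneSpectrum (𝓞 F)) : PI1_V P 0 = 0 := by
  unfold PI1_V
  rw [PI1_IS_zero]
  simp

theorem PI1_V_nonneg (P : HeightOneSpectrum (𝓞 F)) (x : ℕ) : 0 ≤ PI1_V P x :=
  Finset.sum_nonneg fun _ _ => Nat.cast_nonneg _

theorem PI1_V_le {C : ℝ} (hC : 0 < C) (h : ∀ n : ℕ, ((PI1_IS F n).card : ℝ) ≤ C * n)
    (P : HeightOneSpectrum (𝓞 F)) (x : ℕ) :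
    PI1_V P x ≤ C * x / ((absNorm P.asIdeal : ℝ) - 1) := by
  have hP2 := PI1_two_le P
  have hP2' : (2 : ℝ) ≤ absNorm P.asIdeal := by exact_mod_cast hP2
  set N : ℝ := (absNorm P.asIdeal : ℝ) with hN
  induction x using Nat.strong_induction_on with
  | _ x ih =>
    rcases Nat.eq_zero_or_pos x with h0 | h0
    · rw [h0, PI1_V_zero]
      simp
    · have h1 : x / absNorm P.asIdeal < x := Nat.div_lt_self h0 hP2
      have h2 := ih _ h1
      rw [PI1_V_rec]
      have h3 := h (x / absNorm P.asIdeal)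
      have h4 : ((x / absNorm P.asIdeal : ℕ) : ℝ) ≤ x / N := Nat.cast_div_le
      have h5 : C * ((x / absNorm P.asIdeal : ℕ) : ℝ) ≤ C * (x / N) :=
        mul_le_mul_of_nonneg_left h4 hC.le
      have h6 : C * ((x / absNorm P.asIdeal : ℕ) : ℝ) / (N - 1) ≤ C * (x / N) / (N - 1) :=
        div_le_div_of_nonneg_right h5 (by linarith)
      have h7 : C * (x / N) + C * (x / N) / (N - 1) = C * x / (N - 1) := by
        have : N - 1 ≠ 0 := by linarith
        have : N ≠ 0 := by linarith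
        field_simp
        ring
      linarith

/-- `V(x)` against `κ x / N(P)`. -/
theorem PI1_V_approx {C κ ε K : ℝ} (hC : 0 < C) (hκ : 0 < κ) (hε : 0 < ε)
    (h : ∀ n : ℕ, ((PI1_IS F n).card : ℝ) ≤ C * n)
    (hK : ∀ n : ℕ, |((PI1_IS F n).card : ℝ) - κ * n| ≤ ε * n + K)
    (P : HeightOneSpectrum (𝓞 F)) (x : ℕ) :
    |PI1_V P x - κ * x / (absNorm P.asIdeal : ℝ)| ≤
      ε * x / (absNorm P.asIdeal : ℝ) + (K + κ) +
        2 * C * x / (absNorm P.asIdeal : ℝ) ^ 2 := by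
  have hP2 := PI1_two_le P
  have hP2' : (2 : ℝ) ≤ absNorm P.asIdeal := by exact_mod_cast hP2
  rw [PI1_V_rec]
  have h1 := PI1_V_le hC h P (x / absNorm P.asIdeal)
  have h2 := PI1_V_nonneg P (x / absNorm P.asIdeal)
  have h3 := hK (x / absNorm P.asIdeal)
  set m := x / absNorm P.asIdeal with hm
  have hx0 : (0 : ℝ) ≤ x := Nat.cast_nonneg x
  set N : ℝ := (absNorm P.asIdeal : ℝ) with hN
  have h4 : (m : ℝ) ≤ x / N := Nat.cast_div_le
  have h5 : (x : ℝ) / N < m + 1 := by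
    rw [div_lt_iff₀ (by linarith)]
    have h6 : x < (m + 1) * absNorm P.asIdeal :=
      (Nat.div_lt_iff_lt_mul (by omega)).mp (Nat.lt_succ_self _)
    have h7 : ((x : ℕ) : ℝ) < (((m + 1) * absNorm P.asIdeal : ℕ) : ℝ) := by exact_mod_cast h6
    push_cast at h7
    exact h7
  have h6 : C * m / (N - 1) ≤ 2 * C * x / N ^ 2 := by
    have h7 : C * m ≤ C * (x / N) := mul_le_mul_of_nonneg_left h4 hC.le
    have h8 : C * m / (N - 1) ≤ C * (x / N) / (N - 1) :=
      div_le_div_of_nonneg_right h7 (by linarith)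
    refine h8.trans ?_
    rw [div_le_div_iff₀ (by linarith) (by positivity)]
    have h9 : C * (x / N) * N ^ 2 = C * x * N := by
      field_simp
    rw [h9]
    have h10 : 0 ≤ C * x := by positivity
    nlinarith
  have e1 : ε * (x : ℝ) / N = ε * (x / N) := by ring
  have e2 : κ * (x : ℝ) / N = κ * (x / N) := by ring
  rw [e1, e2]
  obtain ⟨h7, h8⟩ := abs_le.1 h3
  have h9 : ε * (m : ℝ) ≤ ε * (x / N) := mul_le_mul_of_nonneg_left h4 hε.le
  have h10 : κ * (m : ℝ) ≤ κ * (x / N) := mul_le_mul_of_nonneg_left h4 hκ.le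
  have h11 : κ * ((x : ℝ) / N) ≤ κ * (m + 1) := mul_le_mul_of_nonneg_left h5.le hκ.le
  have h12 : 0 ≤ 2 * C * x / N ^ 2 := by positivity
  rw [abs_le]
  constructor <;> nlinarith

/-- The sum of the logarithms of the norms. -/
noncomputable def PI1_L (F : Type*) [Field F] [NumberField F] (x : ℕ) : ℝ :=
  ∑ I ∈ PI1_IS F x, Real.log (absNorm I)

theorem PI1_L_eq (x : ℕ) :
    PI1_L F x = ∑ P ∈ PI1_PS F x, Real.log (absNorm P.asIdeal) * PI1_V P x := by
  unfold PI1_L PI1_V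
  rw [Finset.sum_congr rfl fun I hI => PI1_log hI, Finset.sum_comm]
  refine Finset.sum_congr rfl fun P _ => ?_
  rw [Finset.mul_sum]
  refine Finset.sum_congr rfl fun I _ => ?_
  ring

theorem PI1_L_upper (x : ℕ) (hx : 1 ≤ x) :
    PI1_L F x ≤ ((PI1_IS F x).card : ℝ) * Real.log x := by
  have _ := hx
  unfold PI1_L
  rw [← nsmul_eq_mul]
  refine Finset.sum_le_card_nsmul _ _ _ fun I hI => ?_
  obtain ⟨h1, h2⟩ := PI1_mem.1 hI
  have h3 : 0 < absNorm I := Nat.pos_of_ne_zero fun h => h1 (Ideal.absNorm_eq_zero_iff.1 h)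
  exact Real.log_le_log (by exact_mod_cast h3) (by exact_mod_cast h2)

theorem PI1_L_nonneg (x : ℕ) : 0 ≤ PI1_L F x :=
  Finset.sum_nonneg fun _ _ => Real.log_natCast_nonneg _

theorem PI1_L_lower (x B : ℕ) (hx : 1 ≤ x) (hB : 1 ≤ B) :
    (((PI1_IS F x).card : ℝ) - ((PI1_IS F (x / B)).card : ℝ)) * (Real.log x - Real.log B) ≤
      PI1_L F x := by
  classical
  have hsub : PI1_IS F (x / B) ⊆ PI1_IS F x := by
    intro I hI
    obtain ⟨h1, h2⟩ := PI1_mem.1 hI
    exact PI1_mem.2 ⟨h1, h2.trans (Nat.div_le_self x B)⟩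
  have h1 : (((PI1_IS F x).card : ℝ) - ((PI1_IS F (x / B)).card : ℝ)) =
      ((PI1_IS F x \ PI1_IS F (x / B)).card : ℝ) := by
    rw [Finset.card_sdiff_of_subset hsub, Nat.cast_sub (Finset.card_le_card hsub)]
  rw [h1]
  have h2 : ∑ I ∈ PI1_IS F x \ PI1_IS F (x / B), Real.log (absNorm I) ≤ PI1_L F x := by
    refine Finset.sum_le_sum_of_subset_of_nonneg Finset.sdiff_subset fun I _ _ => ?_
    exact Real.log_natCast_nonneg _
  refine le_trans ?_ h2
  rw [← nsmul_eq_mul]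
  refine Finset.card_nsmul_le_sum _ _ _ fun I hI => ?_
  rw [Finset.mem_sdiff] at hI
  obtain ⟨h3, h4⟩ := PI1_mem.1 hI.1
  have h5 : ¬ absNorm I ≤ x / B := fun h => hI.2 (PI1_mem.2 ⟨h3, h⟩)
  have h6 : x < absNorm I * B := by
    rw [Nat.le_div_iff_mul_le (by omega)] at h5
    omega
  have hxp : (0 : ℝ) < x := by exact_mod_cast hx
  have hBp : (0 : ℝ) < B := by exact_mod_cast hB
  rw [← Real.log_div hxp.ne' hBp.ne']
  apply Real.log_le_log (by positivity)
  rw [div_le_iff₀ hBp]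
  exact_mod_cast h6.le

theorem PI1_norm_le (P : HeightOneSpectrum (𝓞 F)) :
    absNorm P.asIdeal ≤ below P ^ finrank ℚ F := by
  have h1 : ((below P : ℕ) : 𝓞 F) ∈ P.asIdeal := by
    have h2 : ((absNorm (Ideal.under ℤ P.asIdeal) : ℕ) : ℤ) ∈ Ideal.under ℤ P.asIdeal :=
      Ideal.absNorm_mem _
    have h3 : algebraMap ℤ (𝓞 F) ((absNorm (Ideal.under ℤ P.asIdeal) : ℕ) : ℤ) ∈ P.asIdeal := h2
    rw [map_natCast] at h3
    exact h3
  have h3 : Ideal.span {((below P : ℕ) : 𝓞 F)} ≤ P.asIdeal := by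
    rw [Ideal.span_singleton_le_iff_mem]
    exact h1
  have h4 := Ideal.absNorm_dvd_absNorm_of_le h3
  have h5 : absNorm (Ideal.span {((below P : ℕ) : 𝓞 F)}) = below P ^ finrank ℚ F := by
    rw [Ideal.absNorm_span_singleton]
    have h6 : ((below P : ℕ) : 𝓞 F) = algebraMap ℤ (𝓞 F) ((below P : ℕ) : ℤ) := by simp
    rw [h6, Algebra.norm_algebraMap, RingOfIntegers.rank, Int.natAbs_pow, Int.natAbs_natCast]
  rw [h5] at h4
  exact Nat.le_of_dvd (pow_pos (below_prime P).pos _) h4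

theorem PI1_log_le (P : HeightOneSpectrum (𝓞 F)) :
    Real.log (absNorm P.asIdeal) ≤ finrank ℚ F * Real.log (below P) := by
  have h1 := PI1_norm_le P
  have h2 := PI1_two_le P
  rw [← Real.log_pow]
  apply Real.log_le_log (by exact_mod_cast (by omega : 0 < absNorm P.asIdeal))
  exact_mod_cast h1

theorem PI1_below_le (P : HeightOneSpectrum (𝓞 F)) : below P ≤ absNorm P.asIdeal := by
  obtain ⟨f, hf1, hf⟩ := absNorm_eq_below_pow P
  rw [hf]
  calc below P = below P ^ 1 := (pow_one _).symm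
    _ ≤ below P ^ f := Nat.pow_le_pow_right (below_prime P).pos hf1

theorem PI1_sumP (x : ℕ) (S : Finset (HeightOneSpectrum (𝓞 F))) (hS : S ⊆ PI1_PS F x)
    (h : ℕ → ℝ) (hh : ∀ p, 0 ≤ h p) :
    ∑ P ∈ S, h (below P) ≤
      finrank ℚ F * ∑ p ∈ (Finset.range (x + 1)).filter Nat.Prime, h p := by
  classical
  have hmaps : ∀ P ∈ S, below P ∈ (Finset.range (x + 1)).filter Nat.Prime := by
    intro P hP
    rw [Finset.mem_filter, Finset.mem_range]
    have h1 := PI1_memP.1 (hS hP)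
    have h2 := PI1_below_le P
    exact ⟨by omega, below_prime P⟩
  rw [← Finset.sum_fiberwise_of_maps_to hmaps, Finset.mul_sum]
  refine Finset.sum_le_sum fun p _ => ?_
  rw [Finset.sum_congr rfl (g := fun _ => h p) fun P hP => by
    rw [Finset.mem_filter] at hP
    rw [hP.2]]
  rw [Finset.sum_const, nsmul_eq_mul]
  refine mul_le_mul_of_nonneg_right ?_ (hh p)
  exact_mod_cast card_filter_below_le S p

theorem PI1_theta (x : ℕ) :
    ∑ p ∈ (Finset.range (x + 1)).filter Nat.Prime, Real.log p ≤ Real.log 4 * x := by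
  have h1 := Chebyshev.theta_le_log4_mul_x (x := (x : ℝ)) (Nat.cast_nonneg x)
  rw [Chebyshev.theta_eq_sum_Icc, Nat.floor_natCast] at h1
  have h2 : (Finset.range (x + 1)).filter Nat.Prime = (Finset.Icc 0 x).filter Nat.Prime := by
    ext p
    simp only [Finset.mem_filter, Finset.mem_range, Finset.mem_Icc]
    exact and_congr_left fun _ => by omega
  rw [h2]
  exact h1

theorem PI1_logsq : ∃ C : ℝ, 0 ≤ C ∧ ∀ T : Finset ℕ, ∑ p ∈ T, Real.log p / (p : ℝ) ^ 2 ≤ C := by
  have h1 : Summable fun n : ℕ => 2 * ((n : ℝ) ^ (3 / 2 : ℝ))⁻¹ :=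
    (Real.summable_nat_rpow_inv.2 (by norm_num)).mul_left 2
  refine ⟨∑' n : ℕ, 2 * ((n : ℝ) ^ (3 / 2 : ℝ))⁻¹, tsum_nonneg fun n => by positivity,
    fun T => ?_⟩
  refine le_trans (Finset.sum_le_sum fun n _ => ?_)
    (h1.sum_le_tsum T fun n _ => by positivity)
  rcases Nat.eq_zero_or_pos n with h0 | h0
  · rw [h0]
    norm_num
  · have hn : (0 : ℝ) < n := by exact_mod_cast h0
    have h2 : Real.log n ≤ 2 * (n : ℝ) ^ (1 / 2 : ℝ) := by
      have := Real.log_le_rpow_div hn.le (ε := 1 / 2) (by norm_num)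
      linarith
    have h3 : (n : ℝ) ^ 2 = (n : ℝ) ^ (1 / 2 : ℝ) * (n : ℝ) ^ (3 / 2 : ℝ) := by
      rw [← Real.rpow_add hn]
      norm_num
    rw [h3, div_le_iff₀ (by positivity)]
    have h4 : (n : ℝ) ^ (3 / 2 : ℝ) ≠ 0 := by positivity
    have h5 : 2 * ((n : ℝ) ^ (3 / 2 : ℝ))⁻¹ * ((n : ℝ) ^ (1 / 2 : ℝ) * (n : ℝ) ^ (3 / 2 : ℝ)) =
        2 * (n : ℝ) ^ (1 / 2 : ℝ) := by
      field_simp
    rw [h5]
    exact h2

/-- Chebyshev for prime ideals. -/
theorem PI1_thetaF (x : ℕ) : ∑ P ∈ PI1_PS F x, Real.log (absNorm P.asIdeal) ≤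
    finrank ℚ F * (finrank ℚ F * (Real.log 4 * x)) := by
  have h1 : ∑ P ∈ PI1_PS F x, Real.log (absNorm P.asIdeal) ≤
      ∑ P ∈ PI1_PS F x, (fun p : ℕ => finrank ℚ F * Real.log p) (below P) :=
    Finset.sum_le_sum fun P _ => PI1_log_le P
  refine h1.trans ((PI1_sumP x _ (Finset.Subset.refl _)
    (fun p : ℕ => finrank ℚ F * Real.log p) (fun p => by positivity)).trans ?_)
  rw [← Finset.mul_sum]
  gcongr
  exact PI1_theta x

theorem PI1_sqF : ∃ C : ℝ, 0 ≤ C ∧ ∀ x : ℕ,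
    ∑ P ∈ PI1_PS F x, Real.log (absNorm P.asIdeal) / (absNorm P.asIdeal : ℝ) ^ 2 ≤ C := by
  obtain ⟨C, hC, h⟩ := PI1_logsq
  refine ⟨finrank ℚ F * (finrank ℚ F * C), by positivity, fun x => ?_⟩
  have h1 : ∑ P ∈ PI1_PS F x, Real.log (absNorm P.asIdeal) / (absNorm P.asIdeal : ℝ) ^ 2 ≤
      ∑ P ∈ PI1_PS F x, (fun p : ℕ => finrank ℚ F * (Real.log p / (p : ℝ) ^ 2)) (below P) := by
    refine Finset.sum_le_sum fun P _ => ?_
    have h2 := PI1_log_le P
    have h3 : (below P : ℝ) ≤ absNorm P.asIdeal := by exact_mod_cast PI1_below_le P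
    have h4 : (0 : ℝ) < below P := by exact_mod_cast (below_prime P).pos
    have h5 : (0 : ℝ) ≤ Real.log (absNorm P.asIdeal) := Real.log_natCast_nonneg _
    calc Real.log (absNorm P.asIdeal) / (absNorm P.asIdeal : ℝ) ^ 2
        ≤ Real.log (absNorm P.asIdeal) / (below P : ℝ) ^ 2 := by gcongr
      _ ≤ (finrank ℚ F * Real.log (below P)) / (below P : ℝ) ^ 2 := by gcongr
      _ = _ := by ring
  refine h1.trans ((PI1_sumP x _ (Finset.Subset.refl _)
    (fun p : ℕ => finrank ℚ F * (Real.log p / (p : ℝ) ^ 2)) (fun p => by positivity)).trans ?_)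
  rw [← Finset.mul_sum]
  gcongr
  exact h _

/-- the sum over the prime ideals -/
noncomputable def PI1_M (F : Type*) [Field F] [NumberField F] (x : ℕ) : ℝ :=
  ∑ P ∈ PI1_PS F x, Real.log (absNorm P.asIdeal) / (absNorm P.asIdeal : ℝ)

theorem PI1_M_nonneg (x : ℕ) : 0 ≤ PI1_M F x :=
  Finset.sum_nonneg fun P _ => div_nonneg (Real.log_natCast_nonneg _) (Nat.cast_nonneg _)

/-- the degree one part -/
theorem PI1_D (F : Type*) [Field F] [NumberField F] : ∃ C : ℝ, 0 ≤ C ∧ ∀ x : ℕ,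
    ∑ p ∈ (Finset.range (x + 1)).filter Nat.Prime, (degOne F p : ℝ) * (Real.log p / p) ≤
      PI1_M F x ∧
    PI1_M F x ≤ ∑ p ∈ (Finset.range (x + 1)).filter Nat.Prime,
      (degOne F p : ℝ) * (Real.log p / p) + C := by
  classical
  obtain ⟨C, hC, h⟩ := PI1_logsq
  refine ⟨finrank ℚ F * (finrank ℚ F * C), by positivity, fun x => ?_⟩
  have hsplit : PI1_M F x = ∑ P ∈ (PI1_PS F x).filter (fun P => absNorm P.asIdeal = below P),
      Real.log (absNorm P.asIdeal) / (absNorm P.asIdeal : ℝ) +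
      ∑ P ∈ (PI1_PS F x).filter (fun P => ¬ absNorm P.asIdeal = below P),
      Real.log (absNorm P.asIdeal) / (absNorm P.asIdeal : ℝ) := by
    unfold PI1_M
    rw [Finset.sum_filter_add_sum_filter_not]
  have h1 : ∑ P ∈ (PI1_PS F x).filter (fun P => absNorm P.asIdeal = below P),
      Real.log (absNorm P.asIdeal) / (absNorm P.asIdeal : ℝ) =
      ∑ p ∈ (Finset.range (x + 1)).filter Nat.Prime, (degOne F p : ℝ) * (Real.log p / p) := by
    have hmaps : ∀ P ∈ (PI1_PS F x).filter (fun P => absNorm P.asIdeal = below P),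
        below P ∈ (Finset.range (x + 1)).filter Nat.Prime := by
      intro P hP
      rw [Finset.mem_filter] at hP
      rw [Finset.mem_filter, Finset.mem_range]
      have h1 := PI1_memP.1 hP.1
      have h2 := PI1_below_le P
      exact ⟨by omega, below_prime P⟩
    rw [← Finset.sum_fiberwise_of_maps_to hmaps]
    refine Finset.sum_congr rfl fun p hp => ?_
    rw [Finset.mem_filter, Finset.mem_range] at hp
    rw [Finset.sum_congr rfl (g := fun _ => Real.log p / p) fun P hP => by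
      rw [Finset.mem_filter, Finset.mem_filter] at hP
      rw [hP.1.2, hP.2]]
    rw [Finset.sum_const, nsmul_eq_mul, ← card_degOneSet]
    congr 2
    refine congrArg Finset.card ?_
    ext P
    rw [Finset.mem_filter, Finset.mem_filter, mem_degOneSet, PI1_memP]
    constructor
    · rintro ⟨⟨_, h2⟩, h3⟩
      rw [h2, h3]
    · intro h2
      have h3 := below_eq_of_absNorm_eq hp.2 h2
      exact ⟨⟨by omega, by rw [h2, h3]⟩, h3⟩
  have h2 : ∑ P ∈ (PI1_PS F x).filter (fun P => ¬ absNorm P.asIdeal = below P),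
      Real.log (absNorm P.asIdeal) / (absNorm P.asIdeal : ℝ) ≤
        finrank ℚ F * (finrank ℚ F * C) := by
    have h3 : ∑ P ∈ (PI1_PS F x).filter (fun P => ¬ absNorm P.asIdeal = below P),
        Real.log (absNorm P.asIdeal) / (absNorm P.asIdeal : ℝ) ≤
        ∑ P ∈ (PI1_PS F x).filter (fun P => ¬ absNorm P.asIdeal = below P),
          (fun p : ℕ => finrank ℚ F * (Real.log p / (p : ℝ) ^ 2)) (below P) := by
      refine Finset.sum_le_sum fun P hP => ?_
      rw [Finset.mem_filter] at hP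
      have h2 := PI1_log_le P
      have h3 : (below P : ℝ) ^ 2 ≤ absNorm P.asIdeal := by
        obtain ⟨f, hf1, hf⟩ := absNorm_eq_below_pow P
        have hf2 : 2 ≤ f := by
          by_contra hcon
          have : f = 1 := by omega
          rw [this, pow_one] at hf
          exact hP.2 hf
        have h4 : below P ^ 2 ≤ absNorm P.asIdeal := by
          rw [hf]
          exact Nat.pow_le_pow_right (below_prime P).pos hf2
        exact_mod_cast h4
      have h4 : (0 : ℝ) < below P := by exact_mod_cast (below_prime P).pos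
      have h5 : (0 : ℝ) ≤ Real.log (absNorm P.asIdeal) := Real.log_natCast_nonneg _
      calc Real.log (absNorm P.asIdeal) / (absNorm P.asIdeal : ℝ)
          ≤ Real.log (absNorm P.asIdeal) / (below P : ℝ) ^ 2 := by gcongr
        _ ≤ (finrank ℚ F * Real.log (below P)) / (below P : ℝ) ^ 2 := by gcongr
        _ = _ := by ring
    refine h3.trans ((PI1_sumP x _ (Finset.filter_subset _ _)
      (fun p : ℕ => finrank ℚ F * (Real.log p / (p : ℝ) ^ 2)) (fun p => by positivity)).trans ?_)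
    rw [← Finset.mul_sum]
    gcongr
    exact h _
  have h3 : 0 ≤ ∑ P ∈ (PI1_PS F x).filter (fun P => ¬ absNorm P.asIdeal = below P),
      Real.log (absNorm P.asIdeal) / (absNorm P.asIdeal : ℝ) :=
    Finset.sum_nonneg fun P _ => div_nonneg (Real.log_natCast_nonneg _) (Nat.cast_nonneg _)
  rw [hsplit, h1]
  constructor <;> linarith

/-- Comparison of `L` and `M`. -/
theorem PI1_LM {C κ : ℝ} (hC : 0 < C) (hκ : 0 < κ)
    (h : ∀ n : ℕ, ((PI1_IS F n).card : ℝ) ≤ C * n)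
    (hK : ∀ ε : ℝ, 0 < ε → ∃ K : ℝ, 0 ≤ K ∧ ∀ n : ℕ,
      |((PI1_IS F n).card : ℝ) - κ * n| ≤ ε * n + K) {ε : ℝ} (hε : 0 < ε) :
    ∃ K : ℝ, 0 ≤ K ∧ ∀ x : ℕ,
      |PI1_L F x - κ * x * PI1_M F x| ≤ ε * x * PI1_M F x + K * x := by
  obtain ⟨K, hK0, hK1⟩ := hK ε hε
  obtain ⟨C2, hC2, h2⟩ := PI1_sqF (F := F)
  refine ⟨(K + κ) * (finrank ℚ F * (finrank ℚ F * Real.log 4)) + 2 * C * C2, ?_, fun x => ?_⟩
  · have := Real.log_nonneg (show (1 : ℝ) ≤ 4 by norm_num)
    positivity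
  · have hx0 : (0 : ℝ) ≤ x := Nat.cast_nonneg x
    have h3 : PI1_L F x - κ * x * PI1_M F x = ∑ P ∈ PI1_PS F x, Real.log (absNorm P.asIdeal) *
        (PI1_V P x - κ * x / (absNorm P.asIdeal : ℝ)) := by
      rw [PI1_L_eq, PI1_M, Finset.mul_sum, ← Finset.sum_sub_distrib]
      refine Finset.sum_congr rfl fun P _ => ?_
      ring
    rw [h3]
    calc |∑ P ∈ PI1_PS F x, Real.log (absNorm P.asIdeal) *
          (PI1_V P x - κ * x / (absNorm P.asIdeal : ℝ))|
        ≤ ∑ P ∈ PI1_PS F x, |Real.log (absNorm P.asIdeal) *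
          (PI1_V P x - κ * x / (absNorm P.asIdeal : ℝ))| := Finset.abs_sum_le_sum_abs _ _
      _ ≤ ∑ P ∈ PI1_PS F x, Real.log (absNorm P.asIdeal) *
          (ε * x / (absNorm P.asIdeal : ℝ) + (K + κ) +
            2 * C * x / (absNorm P.asIdeal : ℝ) ^ 2) := by
          refine Finset.sum_le_sum fun P _ => ?_
          rw [abs_mul, abs_of_nonneg (Real.log_natCast_nonneg _)]
          exact mul_le_mul_of_nonneg_left (PI1_V_approx hC hκ hε h hK1 P x)
            (Real.log_natCast_nonneg _)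
      _ = ε * x * PI1_M F x + (K + κ) * ∑ P ∈ PI1_PS F x, Real.log (absNorm P.asIdeal) +
          2 * C * x * ∑ P ∈ PI1_PS F x,
            Real.log (absNorm P.asIdeal) / (absNorm P.asIdeal : ℝ) ^ 2 := by
          rw [PI1_M, Finset.mul_sum, Finset.mul_sum, Finset.mul_sum, ← Finset.sum_add_distrib,
            ← Finset.sum_add_distrib]
          refine Finset.sum_congr rfl fun P _ => ?_
          ring
      _ ≤ ε * x * PI1_M F x + (K + κ) * (finrank ℚ F * (finrank ℚ F * (Real.log 4 * x))) +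
          2 * C * x * C2 := by
          have h4 := PI1_thetaF (F := F) x
          have h5 := h2 x
          have h6 : 0 ≤ K + κ := by positivity
          have h7 : 0 ≤ 2 * C * x := by positivity
          have h8 := mul_le_mul_of_nonneg_left h4 h6
          have h9 := mul_le_mul_of_nonneg_left h5 h7
          linarith
      _ = _ := by ring

/-- `L(x)` from below. -/
theorem PI1_L_ge {C κ : ℝ} (hC : 0 < C) (hκ : 0 < κ)
    (h : ∀ n : ℕ, ((PI1_IS F n).card : ℝ) ≤ C * n)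
    (hK : ∀ ε : ℝ, 0 < ε → ∃ K : ℝ, 0 ≤ K ∧ ∀ n : ℕ,
      |((PI1_IS F n).card : ℝ) - κ * n| ≤ ε * n + K) {ε : ℝ} (hε : 0 < ε) (hεκ : 2 * ε ≤ κ) :
    ∃ K : ℝ, 0 ≤ K ∧ ∀ x : ℕ, 1 ≤ x →
      (κ - 2 * ε) * x * Real.log x - K * x ≤ PI1_L F x := by
  obtain ⟨K, hK0, hK1⟩ := hK ε hε
  obtain ⟨B, hB⟩ := exists_nat_ge (C / ε + 1)
  have hB1 : (1 : ℝ) ≤ B := by
    have : 0 ≤ C / ε := by positivity
    linarith
  have hB1' : 1 ≤ B := by exact_mod_cast hB1
  have hlB : 0 ≤ Real.log B := Real.log_natCast_nonneg _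
  refine ⟨κ * Real.log B + K, by positivity, fun x hx => ?_⟩
  have hx1 : (1 : ℝ) ≤ x := by exact_mod_cast hx
  have hlx : 0 ≤ Real.log x := Real.log_natCast_nonneg _
  have hlxx : Real.log x ≤ x := by
    have := Real.log_le_sub_one_of_pos (show (0 : ℝ) < x by linarith)
    linarith
  rcases le_total (Real.log B) (Real.log x) with hc | hc
  · have h1 := PI1_L_lower (F := F) x B hx hB1'
    refine le_trans ?_ h1
    have h2 := (abs_le.1 (hK1 x)).1
    have h3 := h (x / B)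
    have h4 : ((x / B : ℕ) : ℝ) ≤ x / B := Nat.cast_div_le
    have h5 : C * ((x / B : ℕ) : ℝ) ≤ ε * x := by
      have h6 : C * ((x / B : ℕ) : ℝ) ≤ C * (x / B) := mul_le_mul_of_nonneg_left h4 hC.le
      refine h6.trans ?_
      have h7 : C ≤ ε * B := by
        have h8 : C / ε ≤ B := by linarith
        rw [div_le_iff₀ hε] at h8
        linarith
      have h9 : C * ((x : ℝ) / B) = C * x / B := by ring
      rw [h9, div_le_iff₀ (by linarith)]
      nlinarith
    have h6 : (κ - 2 * ε) * x - K ≤ ((PI1_IS F x).card : ℝ) - ((PI1_IS F (x / B)).card : ℝ) := by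
      linarith
    have h7 : 0 ≤ Real.log x - Real.log B := by linarith
    have h8 := mul_le_mul_of_nonneg_right h6 h7
    refine le_trans ?_ h8
    have h9 : (κ - 2 * ε) * x * Real.log B ≤ κ * Real.log B * x := by
      have : 0 ≤ ε * (x * Real.log B) := by positivity
      nlinarith
    have h10 : K * (Real.log x - Real.log B) ≤ K * x := by
      apply mul_le_mul_of_nonneg_left _ hK0
      linarith
    nlinarith
  · have h1 := PI1_L_nonneg (F := F) x
    refine le_trans ?_ h1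
    have h2 : (κ - 2 * ε) * x * Real.log x ≤ κ * Real.log B * x := by
      have h3 : (κ - 2 * ε) * x * Real.log x ≤ κ * x * Real.log x := by
        have : 0 ≤ ε * (x * Real.log x) := by positivity
        nlinarith
      have h4 : κ * x * Real.log x ≤ κ * x * Real.log B :=
        mul_le_mul_of_nonneg_left hc (by positivity)
      linarith
    have h3 : 0 ≤ K * (x : ℝ) := by positivity
    linarith

theorem PI1_L_le {κ : ℝ}
    (hK : ∀ ε : ℝ, 0 < ε → ∃ K : ℝ, 0 ≤ K ∧ ∀ n : ℕ,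
      |((PI1_IS F n).card : ℝ) - κ * n| ≤ ε * n + K) {ε : ℝ} (hε : 0 < ε) :
    ∃ K : ℝ, 0 ≤ K ∧ ∀ x : ℕ, 1 ≤ x →
      PI1_L F x ≤ (κ + ε) * x * Real.log x + K * x := by
  obtain ⟨K, hK0, hK1⟩ := hK ε hε
  refine ⟨K, hK0, fun x hx => ?_⟩
  have hx1 : (1 : ℝ) ≤ x := by exact_mod_cast hx
  have hlx : 0 ≤ Real.log x := Real.log_natCast_nonneg _
  have hlxx : Real.log x ≤ x := by
    have := Real.log_le_sub_one_of_pos (show (0 : ℝ) < x by linarith)
    linarith
  have h1 := PI1_L_upper (F := F) x hx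
  have h2 := (abs_le.1 (hK1 x)).2
  have h3 : ((PI1_IS F x).card : ℝ) ≤ (κ + ε) * x + K := by linarith
  have h4 := mul_le_mul_of_nonneg_right h3 hlx
  have h5 : K * Real.log x ≤ K * x := mul_le_mul_of_nonneg_left hlxx hK0
  nlinarith

/-- `M(x) ~ log x`. -/
theorem PI1_M_asym (F : Type*) [Field F] [NumberField F] {ε : ℝ} (hε : 0 < ε) (hε1 : ε ≤ 1) :
    ∃ K : ℝ, 0 ≤ K ∧ ∀ x : ℕ, 1 ≤ x →
      (1 - ε) * Real.log x - K ≤ PI1_M F x ∧ PI1_M F x ≤ (1 + ε) * Real.log x + K := by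
  obtain ⟨κ, hκ, hK⟩ := PI1_asym F
  obtain ⟨C, hC, h⟩ := PI1_upper F
  have he : 0 < κ * (ε / 8) := by positivity
  obtain ⟨K1, hK1, h1⟩ := PI1_LM hC hκ h hK he
  obtain ⟨K2, hK2, h2⟩ := PI1_L_ge hC hκ h hK he (by nlinarith)
  obtain ⟨K3, hK3, h3⟩ := PI1_L_le hK he
  refine ⟨2 * (K1 + K2 + K3) / κ, by positivity, fun x hx => ?_⟩
  have hx1 : (1 : ℝ) ≤ x := by exact_mod_cast hx
  have hx0 : (0 : ℝ) < x := by linarith
  have hlx : 0 ≤ Real.log x := Real.log_natCast_nonneg _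
  have hM := PI1_M_nonneg (F := F) x
  obtain ⟨a1, a2⟩ := abs_le.1 (h1 x)
  have a3 := h2 x hx
  have a4 := h3 x hx
  set M := PI1_M F x with hMdef
  set l := Real.log x with hl
  set a := ε / 8 with ha
  have ha0 : 0 < a := by positivity
  have ha8 : a ≤ 1 / 8 := by rw [ha]; linarith
  -- divide by x
  have b1 : κ * (1 - a) * M ≤ κ * (1 + a) * l + (K1 + K3) := by
    have : (κ * (1 - a) * M) * x ≤ (κ * (1 + a) * l + (K1 + K3)) * x := by nlinarith
    exact le_of_mul_le_mul_right this hx0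
  have b2 : κ * (1 - 2 * a) * l - (K1 + K2) ≤ κ * (1 + a) * M := by
    have : (κ * (1 - 2 * a) * l - (K1 + K2)) * x ≤ (κ * (1 + a) * M) * x := by nlinarith
    exact le_of_mul_le_mul_right this hx0
  have hK : κ * (2 * (K1 + K2 + K3) / κ) = 2 * (K1 + K2 + K3) := by field_simp
  set K := 2 * (K1 + K2 + K3) / κ with hKdef
  have hK0 : 0 ≤ K := by positivity
  constructor
  · -- lower bound
    have c1 : κ * (1 + a) * ((1 - ε) * l - K) ≤ κ * (1 + a) * M := by
      refine le_trans ?_ b2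
      have c2 : (1 + a) * (1 - ε) ≤ 1 - 2 * a := by rw [ha]; nlinarith
      have c3 : (1 + a) * (1 - ε) * l ≤ (1 - 2 * a) * l := mul_le_mul_of_nonneg_right c2 hlx
      have c4 : κ * ((1 + a) * (1 - ε) * l) ≤ κ * ((1 - 2 * a) * l) :=
        mul_le_mul_of_nonneg_left c3 hκ.le
      have c5 : κ * K ≤ κ * (1 + a) * K := by nlinarith [mul_nonneg hκ.le hK0]
      nlinarith
    exact le_of_mul_le_mul_left c1 (by positivity)
  · have c1 : κ * (1 - a) * M ≤ κ * (1 - a) * ((1 + ε) * l + K) := by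
      refine le_trans b1 ?_
      have c2 : 1 + a ≤ (1 - a) * (1 + ε) := by rw [ha]; nlinarith
      have c3 : (1 + a) * l ≤ (1 - a) * (1 + ε) * l := mul_le_mul_of_nonneg_right c2 hlx
      have c4 : κ * ((1 + a) * l) ≤ κ * ((1 - a) * (1 + ε) * l) :=
        mul_le_mul_of_nonneg_left c3 hκ.le
      have c5 : κ * K / 2 ≤ κ * (1 - a) * K := by nlinarith [mul_nonneg hκ.le hK0]
      nlinarith
    exact le_of_mul_le_mul_left c1 (by nlinarith)

end PI1

theorem degOne_sum (F : Type*) [Field F] [NumberField F] {ε : ℝ} (hε : 0 < ε) :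
    ∃ x₀ : ℕ, ∀ x : ℕ, x₀ ≤ x →
      (1 - ε) * Real.log x ≤
        ∑ p ∈ (Finset.range (x + 1)).filter Nat.Prime, (degOne F p : ℝ) * (Real.log p / p) ∧
      ∑ p ∈ (Finset.range (x + 1)).filter Nat.Prime, (degOne F p : ℝ) * (Real.log p / p) ≤
        (1 + ε) * Real.log x := by
  set e := min ε 1 / 2 with he
  have he0 : 0 < e := by
    have : 0 < min ε 1 := lt_min hε one_pos
    positivity
  have he1 : e ≤ 1 := by
    have : min ε 1 ≤ 1 := min_le_right _ _
    rw [he]; linarith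
  have he2 : 2 * e ≤ ε := by
    have : min ε 1 ≤ ε := min_le_left _ _
    rw [he]; linarith
  obtain ⟨K, hK, h1⟩ := PI1_M_asym F he0 he1
  obtain ⟨C, hC, h2⟩ := PI1_D F
  have h3 : ∀ᶠ x : ℕ in atTop, (K + C) / e ≤ Real.log x :=
    (Real.tendsto_log_atTop.comp tendsto_natCast_atTop_atTop).eventually_ge_atTop _
  obtain ⟨x₀, hx₀⟩ := Filter.eventually_atTop.1 h3
  refine ⟨max x₀ 1, fun x hx => ?_⟩
  have h4 := hx₀ x ((le_max_left _ _).trans hx)
  rw [div_le_iff₀ he0] at h4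
  have hlx : 0 ≤ Real.log x := Real.log_natCast_nonneg _
  obtain ⟨h5, h6⟩ := h1 x ((le_max_right _ _).trans hx)
  obtain ⟨h7, h8⟩ := h2 x
  have h9 : 2 * e * Real.log x ≤ ε * Real.log x := mul_le_mul_of_nonneg_right he2 hlx
  constructor <;> nlinarith

end H16A
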