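import Pool.Agent.Lib.H16A.N7
import Pool.Agent.Lib.H16A.PI1

/-!
# N12 (M): many split primes up to EVERY large `x`

`η < 1`.  By PI1 at `x` and at `y = ⌊x^η'⌋`, `η < η' < 1`, with `ε` small: `∑_{y < p ≤ x} degOne F p log p/p ≥
(1 - ε) log x - (1 + ε) η' log x ≥ c log x`, `c > 0`.  Every term is `≤ [F:ℚ] log x / y`
(`degOne_le`), so there are at least `c y/[F:ℚ]` primes `p ≤ x` with `degOne F p > 0`, all but finitely
many of them prime to `2 disc`, and they satisfy `∃ w, S.SplP p w` (`exists_splP_of_norm`).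
-/

open Polynomial IsDedekindDomain NumberField

namespace H16A
namespace Split

variable {E : Cub} {F : Type} [Field F] [NumberField F] (S : Split E F)

theorem n12_A {p : ℕ} (hp : p.Prime) (hgood : ¬ (p : ℤ) ∣ 2 * E.disc)
    (h : Pool.Agent.Lib.H59.degOne F p ≠ 0) : ∃ w, S.SplP p w := by
  have hpos : 0 < (Pool.Agent.Lib.H59.degOneSet F p).card := by
    rw [Pool.Agent.Lib.H59.card_degOneSet]
    exact Nat.pos_of_ne_zero h
  obtain ⟨w, hw⟩ := Finset.card_pos.mp hpos
  rw [Pool.Agent.Lib.H59.mem_degOneSet] at hw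
  exact ⟨w, S.exists_splP_of_norm hp hgood w hw⟩

theorem supply_all (hd : E.disc ≠ 0) {η : ℝ} (h0 : 0 < η) (h1 : η < 1) :
    ∃ x₀ : ℕ, ∀ x : ℕ, x₀ ≤ x → ∃ T : Finset ℕ, (∀ p ∈ T, p ≤ x ∧ ∃ w, S.SplP p w) ∧
      (x : ℝ) ^ η ≤ (T.card : ℝ) := by
  classical
  set A : ℕ → Prop := fun p => ∃ w, S.SplP p w with hA
  obtain ⟨η', hη'⟩ : ∃ η' : ℝ, η' = (1 + η) / 2 := ⟨_, rfl⟩
  have hη1 : η' < 1 := by linarith
  have hη2 : η < η' := by linarith
  obtain ⟨ε, hεd⟩ : ∃ ε : ℝ, ε = (1 - η') / 4 := ⟨_, rfl⟩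
  have hε : 0 < ε := by linarith
  obtain ⟨x₁, hx₁⟩ := degOne_sum F hε
  obtain ⟨d, hdd⟩ : ∃ d : ℝ, d = (Module.finrank ℚ F : ℝ) := ⟨_, rfl⟩
  have hd0 : 0 < d := by
    rw [hdd]
    exact_mod_cast (Module.finrank_pos : 0 < Module.finrank ℚ F)
  have t1 : Filter.Tendsto (fun x : ℕ => (x : ℝ) ^ η') Filter.atTop Filter.atTop :=
    (tendsto_rpow_atTop (by linarith)).comp tendsto_natCast_atTop_atTop
  have t2 : Filter.Tendsto (fun x : ℕ => (x : ℝ) ^ (η' - η)) Filter.atTop Filter.atTop :=
    (tendsto_rpow_atTop (by linarith)).comp tendsto_natCast_atTop_atTop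
  have e1 := t1.eventually_ge_atTop (((max x₁ (2 * E.disc).natAbs : ℕ) : ℝ) + 1)
  have e2 := t2.eventually_ge_atTop (2 * d / (1 - η'))
  have e3 := Filter.eventually_ge_atTop (α := ℕ) (max x₁ 2)
  obtain ⟨x₀, hx₀⟩ := Filter.eventually_atTop.1 (e1.and (e2.and e3))
  refine ⟨x₀, fun x hx => ?_⟩
  obtain ⟨g1, g2, g3⟩ := hx₀ x hx
  have hxx₁ : x₁ ≤ x := le_trans (le_max_left _ _) g3
  have hx2 : 2 ≤ x := le_trans (le_max_right _ _) g3
  have hx1R : (1 : ℝ) ≤ x := by exact_mod_cast (by omega : 1 ≤ x)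
  have hx0R : (0 : ℝ) < x := by linarith
  have hlogx : 0 < Real.log x := Real.log_pos (by exact_mod_cast (by omega : 1 < x))
  obtain ⟨Y, hY⟩ : ∃ Y : ℝ, Y = (x : ℝ) ^ η' := ⟨_, rfl⟩
  have hY0 : 0 < Y := by rw [hY]; exact Real.rpow_pos_of_pos hx0R _
  have hYx : Y ≤ x := by
    rw [hY]
    calc (x : ℝ) ^ η' ≤ (x : ℝ) ^ (1 : ℝ) := Real.rpow_le_rpow_of_exponent_le hx1R hη1.le
      _ = x := Real.rpow_one _
  rw [← hY] at g1
  obtain ⟨y, hy⟩ : ∃ y : ℕ, y = ⌊Y⌋₊ := ⟨_, rfl⟩
  have hyM : max x₁ (2 * E.disc).natAbs ≤ y := by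
    rw [hy]
    exact Nat.le_floor (by linarith)
  have hyY : (y : ℝ) ≤ Y := by rw [hy]; exact Nat.floor_le hY0.le
  have hyx : y ≤ x := by exact_mod_cast hyY.trans hYx
  have hyp : ∀ p : ℕ, y < p → Y < p := by
    intro p hp
    rw [hy] at hp
    exact Nat.lt_of_floor_lt hp
  have hlogy : Real.log y ≤ η' * Real.log x := by
    rcases Nat.eq_zero_or_pos y with h | h
    · rw [h]
      simp only [Nat.cast_zero, Real.log_zero]
      have : 0 ≤ η' := by linarith
      positivity
    · have h2 : Real.log y ≤ Real.log Y := Real.log_le_log (by exact_mod_cast h) hyY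
      rwa [hY, Real.log_rpow hx0R] at h2
  have s1 := (hx₁ x hxx₁).1
  have s2 := (hx₁ y (le_trans (le_max_left _ _) hyM)).2
  set g : ℕ → ℝ := fun p => (Pool.Agent.Lib.H59.degOne F p : ℝ) * (Real.log p / p) with hg
  have hsplit := Finset.sum_filter_add_sum_filter_not ((Finset.range (x + 1)).filter Nat.Prime)
    (fun p => p ≤ y) g
  have hfirst : ((Finset.range (x + 1)).filter Nat.Prime).filter (fun p => p ≤ y) =
      (Finset.range (y + 1)).filter Nat.Prime := by
    ext p
    simp only [Finset.mem_filter, Finset.mem_range]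
    constructor
    · rintro ⟨⟨-, h2⟩, h3⟩
      exact ⟨by omega, h2⟩
    · rintro ⟨h2, h3⟩
      exact ⟨⟨by omega, h3⟩, by omega⟩
  rw [hfirst] at hsplit
  set T : Finset ℕ := (Finset.range (x + 1)).filter A with hT
  have hsecond : ∑ p ∈ ((Finset.range (x + 1)).filter Nat.Prime).filter (fun p => ¬ p ≤ y), g p ≤
      (T.card : ℝ) * (d * (Real.log x / Y)) := by
    have hK : 0 ≤ d * (Real.log x / Y) := by positivity
    calc ∑ p ∈ ((Finset.range (x + 1)).filter Nat.Prime).filter (fun p => ¬ p ≤ y), g p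
        ≤ ∑ p ∈ ((Finset.range (x + 1)).filter Nat.Prime).filter (fun p => ¬ p ≤ y),
          (if A p then d * (Real.log x / Y) else 0) := by
          refine Finset.sum_le_sum fun p hp => ?_
          rw [Finset.mem_filter, Finset.mem_filter, Finset.mem_range] at hp
          obtain ⟨⟨hp1, hp2⟩, hp3⟩ := hp
          have hp3' : y < p := by omega
          have hpY := hyp p hp3'
          have hp0 : (0 : ℝ) < p := lt_trans hY0 hpY
          have hlogp : 0 ≤ Real.log p := Real.log_natCast_nonneg p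
          split_ifs with hAp
          · refine mul_le_mul ?_ ?_ (by positivity) hd0.le
            · rw [hdd]
              exact Nat.cast_le.mpr (Pool.Agent.Lib.H59.degOne_le (K := F) hp2)
            · refine div_le_div₀ hlogx.le ?_ hY0 hpY.le
              exact Real.log_le_log hp0 (by exact_mod_cast (by omega : p ≤ x))
          · have hz : Pool.Agent.Lib.H59.degOne F p = 0 := by
              by_contra hne
              apply hAp
              refine S.n12_A hp2 (fun hdvd => ?_) hne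
              have h5 : p ∣ (2 * E.disc).natAbs := Int.natCast_dvd.1 hdvd
              have h6 : (2 * E.disc).natAbs ≠ 0 :=
                Int.natAbs_ne_zero.mpr (mul_ne_zero two_ne_zero hd)
              have h7 := Nat.le_of_dvd (Nat.pos_of_ne_zero h6) h5
              have h8 := le_trans (le_max_right x₁ _) hyM
              omega
            have hz' : g p = 0 := by
              simp only [hg, hz, Nat.cast_zero, zero_mul]
            rw [hz']
      _ = ((((Finset.range (x + 1)).filter Nat.Prime).filter (fun p => ¬ p ≤ y)).filter A).card *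
          (d * (Real.log x / Y)) := by
          rw [← Finset.sum_filter, Finset.sum_const, nsmul_eq_mul]
      _ ≤ (T.card : ℝ) * (d * (Real.log x / Y)) := by
          refine mul_le_mul_of_nonneg_right ?_ hK
          refine Nat.cast_le.mpr (Finset.card_le_card ?_)
          intro p hp
          rw [Finset.mem_filter, Finset.mem_filter, Finset.mem_filter] at hp
          rw [hT, Finset.mem_filter]
          exact ⟨hp.1.1.1, hp.2⟩
  have hmain : (1 - η') / 2 * Real.log x ≤ (T.card : ℝ) * (d * (Real.log x / Y)) := by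
    have h5 : (1 + ε) * Real.log y ≤ (1 + ε) * (η' * Real.log x) :=
      mul_le_mul_of_nonneg_left hlogy (by linarith)
    have h6 : (1 - η') / 2 * Real.log x ≤ (1 - ε) * Real.log x - (1 + ε) * (η' * Real.log x) := by
      have h7 : (1 - ε) * Real.log x - (1 + ε) * (η' * Real.log x) - (1 - η') / 2 * Real.log x =
          ((1 - η') * ε) * Real.log x + ((1 - η') / 2 - 2 * ε) * Real.log x := by ring
      have h8 : ((1 - η') / 2 - 2 * ε) = 0 := by rw [hεd]; ring
      rw [h8, zero_mul, add_zero] at h7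
      have h9 : 0 ≤ ((1 - η') * ε) * Real.log x := by
        have : 0 ≤ 1 - η' := by linarith
        positivity
      linarith
    linarith
  refine ⟨T, ?_, ?_⟩
  · intro p hp
    rw [hT, Finset.mem_filter, Finset.mem_range] at hp
    exact ⟨by omega, hp.2⟩
  · have h5 : (1 - η') / 2 * Y ≤ (T.card : ℝ) * d := by
      have h6 : (T.card : ℝ) * (d * (Real.log x / Y)) = ((T.card : ℝ) * d / Y) * Real.log x := by
        ring
      rw [h6] at hmain
      have h7 := le_of_mul_le_mul_right hmain hlogx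
      rwa [le_div_iff₀ hY0] at h7
    have h6 : (x : ℝ) ^ η * (2 * d / (1 - η')) ≤ Y := by
      have h7 : Y = (x : ℝ) ^ η * (x : ℝ) ^ (η' - η) := by
        rw [hY, ← Real.rpow_add hx0R]
        congr 1
        ring
      rw [h7]
      exact mul_le_mul_of_nonneg_left g2 (Real.rpow_nonneg hx0R.le _)
    have h1η : 0 < 1 - η' := by linarith
    have h7 : (x : ℝ) ^ η * d ≤ (T.card : ℝ) * d := by
      calc (x : ℝ) ^ η * d = (1 - η') / 2 * ((x : ℝ) ^ η * (2 * d / (1 - η'))) := by
            field_simp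
        _ ≤ (1 - η') / 2 * Y := mul_le_mul_of_nonneg_left h6 (by linarith)
        _ ≤ (T.card : ℝ) * d := h5
    exact le_of_mul_le_mul_right h7 hd0

end Split
end H16A
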