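import Pool.Agent.Lib.H16A.FIN3
import Pool.Agent.Lib.H16A.N12

/-!
# FIN4 (M/L): the lower bounds for every large `X`

`fin4_real`: let `0 < κ < κ' `, choose `η < 1`, `4/5 < η`, close to one, and `θ > 1` close to one with
`θ η ≥ 1` and `κ'/θ > κ`, `1/θ > 4/5` (e.g. `θ = (1 + κ'/κ)/2` if this is `< 5/4`, otherwise `9/8`; `η = 1/θ`
enlarged a little).  For large real `X` put `x = ⌈(log X)^θ⌉` and `n = ⌊log(X/4)/log x⌋` (natural numbers).
Then `4 x^n ≤ X`, `n ≤ log X ≤ x^(1/θ) ≤ x^η`, `n ≥ x^(4/5)` (because `n ~ log X/(θ loglog X)` and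
`(4/5) θ < 1`), `n ≥ 1`, `x ≥ x₂`, and
`κ' n ≥ κ log X/loglog X + c` for the given constant `c` and large `X` (`log x ~ θ loglog X`).

`sha_lower_all`: given `κ < 1/2` (w.l.o.g. `κ ≥ 1/4`), `κ' = (κ + 1/2)/2`, `S` from `exists_split`, `C, x₂` from
`sha_core`, `x₀` from `supply_all` (N12, exponent `η`), for large `X` take `x`, `n` from `fin4_real`, and a subset
`T` with exactly `n ≤ x^η` elements of the set given by `supply_all`.  `sel_lower_all` in the same way from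
`sel_core`, with `κ < 2` and `κ' = (κ + 2)/2` and `κ' n ≤ 2 n`.
-/

open Polynomial IsDedekindDomain NumberField

namespace H16A

/-- The numbers for one value of `L = log X`. -/
theorem fin4_one {κ κ' θ δ c : ℝ} (h0 : 0 < κ) (h1 : κ < κ') (hθ1 : 1 < θ) (hθ2 : θ ≤ 9 / 8)
    (hδ0 : 0 < δ) {X L l : ℝ} (hX : 0 < X) (hL : L = Real.log X) (hl : l = Real.log L) {y : ℕ}
    (e1 : (κ + δ) * (θ * l + 1) ≤ κ' * l) (e2 : 3 * κ' + |c| ≤ δ * (L / l))
    (e3 : 10 * l ≤ L ^ ((1 : ℝ) / 10)) (e4 : (y : ℝ) + 10 ≤ L) (e5 : 1 ≤ l) :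
    ∃ x n : ℕ, y ≤ x ∧ 0 < n ∧
      (n : ℝ) ≤ (x : ℝ) ^ (1 / θ) ∧ (x : ℝ) ^ ((4 : ℝ) / 5) ≤ (n : ℝ) ∧ 4 * (x : ℝ) ^ n ≤ X ∧
      κ * (L / l) + c ≤ κ' * (n : ℝ) := by
  have hy0 : (0 : ℝ) ≤ y := Nat.cast_nonneg y
  have hL10 : 10 ≤ L := by linarith
  have hL0 : 0 < L := by linarith
  have hθ0 : 0 < θ := by linarith
  have hLθ : L ≤ L ^ θ := by
    calc L = L ^ (1 : ℝ) := (Real.rpow_one L).symm
      _ ≤ L ^ θ := Real.rpow_le_rpow_of_exponent_le (by linarith) hθ1.le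
  obtain ⟨x, hx⟩ : ∃ x : ℕ, x = ⌈L ^ θ⌉₊ := ⟨_, rfl⟩
  have hx1 : L ^ θ ≤ x := by rw [hx]; exact Nat.le_ceil _
  have hx2 : (x : ℝ) < L ^ θ + 1 := by rw [hx]; exact Nat.ceil_lt_add_one (by positivity)
  have hx10 : (10 : ℝ) ≤ x := by linarith
  have hx0 : (0 : ℝ) < x := by linarith
  have hlogx1 : l ≤ Real.log x := by
    rw [hl]
    exact Real.log_le_log hL0 (by linarith)
  have hlogx2 : Real.log x ≤ θ * l + 1 := by
    have h2 : (x : ℝ) ≤ 2 * L ^ θ := by linarith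
    have h3 := Real.log_le_log hx0 h2
    rw [Real.log_mul (by norm_num) (by positivity), Real.log_rpow hL0, ← hl] at h3
    linarith [Real.log_two_lt_d9]
  have hlogx0 : 0 < Real.log x := by linarith
  have hlog4 : Real.log (X / 4) = L - Real.log 4 := by
    rw [Real.log_div hX.ne' (by norm_num), hL]
  have hlog42 : Real.log 4 ≤ 2 := by
    have : Real.log 4 = 2 * Real.log 2 := by
      rw [show (4 : ℝ) = 2 ^ 2 by norm_num, Real.log_pow]
      norm_num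
    rw [this]
    linarith [Real.log_two_lt_d9]
  have hlog40 : 0 ≤ Real.log 4 := Real.log_nonneg (by norm_num)
  obtain ⟨n, hn⟩ : ∃ n : ℕ, n = ⌊Real.log (X / 4) / Real.log x⌋₊ := ⟨_, rfl⟩
  have hq0 : 0 ≤ Real.log (X / 4) / Real.log x := by
    apply div_nonneg _ hlogx0.le
    linarith
  have hn1 : (n : ℝ) ≤ Real.log (X / 4) / Real.log x := by rw [hn]; exact Nat.floor_le hq0
  have hn2 : Real.log (X / 4) / Real.log x < n + 1 := by rw [hn]; exact Nat.lt_floor_add_one _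
  have hden : 0 < θ * l + 1 := by positivity
  have hn3 : (L - 2) / (θ * l + 1) - 1 ≤ n := by
    have h2 : (L - 2) / (θ * l + 1) ≤ Real.log (X / 4) / Real.log x :=
      div_le_div₀ (by linarith) (by linarith) hlogx0 hlogx2
    linarith
  have h45 : (x : ℝ) ^ ((4 : ℝ) / 5) ≤ (n : ℝ) := by
    have h2 : (x : ℝ) ^ ((4 : ℝ) / 5) ≤ 2 * L ^ ((9 : ℝ) / 10) := by
      calc (x : ℝ) ^ ((4 : ℝ) / 5) ≤ (2 * L ^ θ) ^ ((4 : ℝ) / 5) :=
            Real.rpow_le_rpow hx0.le (by linarith) (by norm_num)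
        _ = 2 ^ ((4 : ℝ) / 5) * L ^ (θ * ((4 : ℝ) / 5)) := by
            rw [Real.mul_rpow (by norm_num) (by positivity), ← Real.rpow_mul hL0.le]
        _ ≤ 2 * L ^ ((9 : ℝ) / 10) := by
            apply mul_le_mul
            · calc (2 : ℝ) ^ ((4 : ℝ) / 5) ≤ 2 ^ (1 : ℝ) :=
                    Real.rpow_le_rpow_of_exponent_le (by norm_num) (by norm_num)
                _ = 2 := Real.rpow_one 2
            · exact Real.rpow_le_rpow_of_exponent_le (by linarith) (by linarith)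
            · positivity
            · norm_num
    have h3 : 2 * L ^ ((9 : ℝ) / 10) ≤ (L - 2) / (θ * l + 1) - 1 := by
      rw [le_sub_iff_add_le, le_div_iff₀ hden]
      have h4 : 1 ≤ L ^ ((9 : ℝ) / 10) := Real.one_le_rpow (by linarith) (by norm_num)
      have h5 : L ^ ((9 : ℝ) / 10) * L ^ ((1 : ℝ) / 10) = L := by
        rw [← Real.rpow_add hL0]
        norm_num
      have h6 : (2 * L ^ ((9 : ℝ) / 10) + 1) * (θ * l + 1) ≤ (3 * L ^ ((9 : ℝ) / 10)) * (3 * l) :=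
        mul_le_mul (by linarith) (by nlinarith) hden.le (by positivity)
      have h7 : L ^ ((9 : ℝ) / 10) * (10 * l) ≤ L ^ ((9 : ℝ) / 10) * L ^ ((1 : ℝ) / 10) :=
        mul_le_mul_of_nonneg_left e3 (by positivity)
      rw [h5] at h7
      have h8 : 2 ≤ L ^ ((9 : ℝ) / 10) * l := by
        have h9 : (2 : ℝ) ≤ L ^ ((9 : ℝ) / 10) := by
          calc (2 : ℝ) ≤ 4 ^ ((9 : ℝ) / 10) := by
                have : (4 : ℝ) ^ ((9 : ℝ) / 10) ≥ 4 ^ ((1 : ℝ) / 2) :=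
                  Real.rpow_le_rpow_of_exponent_le (by norm_num) (by norm_num)
                have h10 : (4 : ℝ) ^ ((1 : ℝ) / 2) = 2 := by
                  rw [show (4 : ℝ) = 2 ^ (2 : ℝ) by norm_num, ← Real.rpow_mul (by norm_num)]
                  norm_num
                linarith
            _ ≤ L ^ ((9 : ℝ) / 10) := Real.rpow_le_rpow (by norm_num) (by linarith) (by norm_num)
        nlinarith
      nlinarith
    linarith
  have hxx : y ≤ x := by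
    have : (y : ℝ) ≤ x := by linarith
    exact_mod_cast this
  have hnpos : (0 : ℝ) < n := lt_of_lt_of_le (by positivity) h45
  refine ⟨x, n, hxx, by exact_mod_cast hnpos, ?_, h45, ?_, ?_⟩
  · calc (n : ℝ) ≤ Real.log (X / 4) / Real.log x := hn1
      _ ≤ L := by
          rw [div_le_iff₀ hlogx0, hlog4]
          nlinarith
      _ = (L ^ θ) ^ (1 / θ) := by
          rw [← Real.rpow_mul hL0.le, mul_one_div_cancel hθ0.ne', Real.rpow_one]
      _ ≤ (x : ℝ) ^ (1 / θ) := Real.rpow_le_rpow (by positivity) hx1 (by positivity)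
  · have h2 : (n : ℝ) * Real.log x ≤ Real.log (X / 4) := by
      rwa [le_div_iff₀ hlogx0] at hn1
    have h3 : (x : ℝ) ^ n ≤ X / 4 := by
      rw [← Real.exp_log (by positivity : 0 < (x : ℝ) ^ n),
        ← Real.exp_log (by positivity : 0 < X / 4), Real.log_pow]
      exact Real.exp_le_exp.2 h2
    linarith
  · have h2 : (κ + δ) / l ≤ κ' / (θ * l + 1) := by
      rw [div_le_div_iff₀ (by linarith) hden]
      exact e1
    have h3 : (κ + δ) / l * L ≤ κ' / (θ * l + 1) * L := mul_le_mul_of_nonneg_right h2 hL0.le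
    have h4 : κ' * ((L - 2) / (θ * l + 1) - 1) ≤ κ' * n :=
      mul_le_mul_of_nonneg_left hn3 (by linarith)
    have h5 : κ' * ((L - 2) / (θ * l + 1) - 1) =
        κ' / (θ * l + 1) * L - 2 * (κ' / (θ * l + 1)) - κ' := by
      field_simp
    have h6 : κ' / (θ * l + 1) ≤ κ' := div_le_self (by linarith) (by nlinarith)
    have h7 : (κ + δ) / l * L = κ * (L / l) + δ * (L / l) := by ring
    have h8 := le_abs_self c
    linarith

theorem fin4_real {κ κ' : ℝ} (h0 : 0 < κ) (h1 : κ < κ') (C : ℝ) (hC : 0 < C) :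
    ∃ η : ℝ, 0 < η ∧ η < 1 ∧ ∀ y : ℕ, ∃ X₀ : ℝ, ∀ X : ℝ, X₀ ≤ X → ∃ x n : ℕ, y ≤ x ∧ 0 < n ∧
      (n : ℝ) ≤ (x : ℝ) ^ η ∧ (x : ℝ) ^ ((4 : ℝ) / 5) ≤ (n : ℝ) ∧ 4 * (x : ℝ) ^ n ≤ X ∧
      C * (2 : ℝ) ^ (κ * (Real.log X / Real.log (Real.log X))) ≤ (2 : ℝ) ^ (κ' * (n : ℝ)) := by
  obtain ⟨θ, hθ1, hθ2, hθ3⟩ : ∃ θ : ℝ, 1 < θ ∧ θ ≤ 9 / 8 ∧ κ * θ < κ' := by
    refine ⟨min ((1 + κ' / κ) / 2) (9 / 8), ?_, min_le_right _ _, ?_⟩
    · rw [lt_min_iff]
      refine ⟨?_, by norm_num⟩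
      have : 1 < κ' / κ := by rwa [one_lt_div h0]
      linarith
    · have h2 : κ * min ((1 + κ' / κ) / 2) (9 / 8) ≤ κ * ((1 + κ' / κ) / 2) :=
        mul_le_mul_of_nonneg_left (min_le_left _ _) h0.le
      have h3 : κ * ((1 + κ' / κ) / 2) = (κ + κ') / 2 := by field_simp
      linarith
  have hθ0 : 0 < θ := by linarith
  obtain ⟨δ, hδ⟩ : ∃ δ : ℝ, δ = (κ' / θ - κ) / 2 := ⟨_, rfl⟩
  have hδ0 : 0 < δ := by
    have : κ < κ' / θ := by rwa [lt_div_iff₀ hθ0]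
    linarith
  have hκ' : κ' = θ * (κ + 2 * δ) := by
    rw [hδ]
    field_simp
    ring
  refine ⟨1 / θ, by positivity, by rwa [div_lt_one hθ0], fun y => ?_⟩
  obtain ⟨c, hc⟩ : ∃ c : ℝ, c = Real.logb 2 C := ⟨_, rfl⟩
  have e1 : ∀ᶠ L : ℝ in Filter.atTop, (κ + δ) * (θ * Real.log L + 1) ≤ κ' * Real.log L := by
    have h2 := Real.tendsto_log_atTop.eventually_ge_atTop ((κ + δ) / (θ * δ))
    filter_upwards [h2] with L h2
    rw [div_le_iff₀ (by positivity)] at h2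
    rw [hκ']
    nlinarith
  have e2 : ∀ᶠ L : ℝ in Filter.atTop, 3 * κ' + |c| ≤ δ * (L / Real.log L) := by
    obtain ⟨M, hM⟩ : ∃ M : ℝ, M = (3 * κ' + |c|) / δ := ⟨_, rfl⟩
    have hM0 : 0 < M := by
      rw [hM]
      have : 0 < 3 * κ' + |c| := by
        have := abs_nonneg c
        linarith
      positivity
    have h2 : ∀ᶠ y : ℝ in Filter.atTop, ‖Real.log y‖ ≤ (1 / M) * ‖y‖ :=
      Real.isLittleO_log_id_atTop.def (by positivity)
    filter_upwards [h2, Filter.eventually_ge_atTop (3 : ℝ)] with L h2 h3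
    have hl : 0 < Real.log L := Real.log_pos (by linarith)
    rw [Real.norm_of_nonneg hl.le, Real.norm_of_nonneg (by linarith)] at h2
    have h4 : M ≤ L / Real.log L := by
      rw [le_div_iff₀ hl]
      calc M * Real.log L ≤ M * ((1 / M) * L) := mul_le_mul_of_nonneg_left h2 hM0.le
        _ = L := by field_simp
    calc 3 * κ' + |c| = δ * M := by rw [hM]; field_simp
      _ ≤ δ * (L / Real.log L) := mul_le_mul_of_nonneg_left h4 hδ0.le
  have e3 : ∀ᶠ L : ℝ in Filter.atTop, 10 * Real.log L ≤ L ^ ((1 : ℝ) / 10) := by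
    have h2 : ∀ᶠ y : ℝ in Filter.atTop, ‖Real.log y‖ ≤ (1 / 10) * ‖y ^ ((1 : ℝ) / 10)‖ :=
      (isLittleO_log_rpow_atTop (by norm_num : (0 : ℝ) < 1 / 10)).def (by norm_num)
    filter_upwards [h2, Filter.eventually_ge_atTop (3 : ℝ)] with L h2 h3
    have hl : 0 < Real.log L := Real.log_pos (by linarith)
    rw [Real.norm_of_nonneg hl.le, Real.norm_of_nonneg (by positivity)] at h2
    linarith
  have e4 : ∀ᶠ L : ℝ in Filter.atTop, (y : ℝ) + 10 ≤ L := Filter.eventually_ge_atTop _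
  have e5 : ∀ᶠ L : ℝ in Filter.atTop, 1 ≤ Real.log L :=
    Real.tendsto_log_atTop.eventually_ge_atTop 1
  have e6 := Real.tendsto_log_atTop.eventually (e1.and (e2.and (e3.and (e4.and e5))))
  obtain ⟨X₀, hX₀⟩ := Filter.eventually_atTop.1 (e6.and (Filter.eventually_gt_atTop (0 : ℝ)))
  refine ⟨X₀, fun X hX => ?_⟩
  obtain ⟨⟨g1, g2, g3, g4, g5⟩, g6⟩ := hX₀ X hX
  obtain ⟨x, n, k1, k2, k3, k4, k5, k6⟩ := fin4_one h0 h1 hθ1 hθ2 hδ0 g6 rfl rfl g1 g2 g3 g4 g5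
  refine ⟨x, n, k1, k2, k3, k4, k5, ?_⟩
  have h2 : C = (2 : ℝ) ^ c := by
    rw [hc]
    exact (Real.rpow_logb (by norm_num) (by norm_num) hC).symm
  rw [h2, ← Real.rpow_add (by norm_num)]
  exact Real.rpow_le_rpow_of_exponent_le (by norm_num) (by linarith)

theorem fin4_mono {κ κ₁ X : ℝ} (h : κ ≤ κ₁) (hX : Real.exp (Real.exp 1) ≤ X) :
    (2 : ℝ) ^ (κ * (Real.log X / Real.log (Real.log X))) ≤
      (2 : ℝ) ^ (κ₁ * (Real.log X / Real.log (Real.log X))) := by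
  have h1 : Real.exp 1 ≤ Real.log X := by
    rw [← Real.log_exp (Real.exp 1)]
    exact Real.log_le_log (Real.exp_pos _) hX
  have h2 : 1 ≤ Real.log (Real.log X) := by
    rw [← Real.log_exp 1]
    exact Real.log_le_log (Real.exp_pos _) h1
  have h3 : 0 < Real.log X := lt_of_lt_of_le (Real.exp_pos 1) h1
  apply Real.rpow_le_rpow_of_exponent_le (by norm_num)
  apply mul_le_mul_of_nonneg_right h
  positivity

namespace Cub

variable (E : Cub)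

theorem sha_lower_all (hd : E.disc ≠ 0) {κ : ℝ} (hκ : κ < 1 / 2) : ∃ X₀ : ℝ, ∀ X : ℝ, X₀ ≤ X →
    ∃ (K : Type) (_ : Field K) (_ : NumberField K), Module.finrank ℚ K = 2 ∧ discr K < 0 ∧
      |(discr K : ℝ)| ≤ X ∧ ∃ s : Finset (E.Sha2 K),
        (2 : ℝ) ^ (κ * (Real.log X / Real.log (Real.log X))) ≤ (s.card : ℝ) := by
  obtain ⟨κ₁, hκ₁⟩ : ∃ κ₁ : ℝ, κ₁ = max κ (1 / 4) := ⟨_, rfl⟩
  have a1 : κ ≤ κ₁ := by rw [hκ₁]; exact le_max_left _ _
  have a2 : 0 < κ₁ := by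
    rw [hκ₁]
    exact lt_of_lt_of_le (by norm_num) (le_max_right _ _)
  have a3 : κ₁ < 1 / 2 := by
    rw [hκ₁]
    exact max_lt hκ (by norm_num)
  obtain ⟨κ', hκ'⟩ : ∃ κ' : ℝ, κ' = (κ₁ + 1 / 2) / 2 := ⟨_, rfl⟩
  obtain ⟨F, _, _, ⟨S⟩⟩ := exists_split E hd
  obtain ⟨C, x₂, hC, hcore⟩ := S.sha_core hd (κ' := κ') (by linarith) (by linarith)
  obtain ⟨η, hη0, hη1, hreal⟩ := fin4_real a2 (by linarith : κ₁ < κ') C hC
  obtain ⟨x₀, hsup⟩ := S.supply_all hd hη0 hη1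
  obtain ⟨X₀, hX₀⟩ := hreal (max x₀ x₂)
  refine ⟨max X₀ (Real.exp (Real.exp 1)), fun X hX => ?_⟩
  obtain ⟨x, n, b1, b2, b3, b4, b5, b6⟩ := hX₀ X ((le_max_left _ _).trans hX)
  obtain ⟨T, hT1, hT2⟩ := hsup x ((le_max_left _ _).trans b1)
  have hnT : n ≤ T.card := by
    have : (n : ℝ) ≤ T.card := b3.trans hT2
    exact_mod_cast this
  obtain ⟨T', hT', hT'c⟩ := Finset.exists_subset_card_eq hnT
  obtain ⟨K, _, _, c1, c2, c3, s, c4⟩ := hcore x ((le_max_right _ _).trans b1) T'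
    (fun p hp => hT1 p (hT' hp)) (by rw [hT'c]; exact b2) (by rw [hT'c]; exact b4)
  rw [hT'c] at c3 c4
  refine ⟨K, inferInstance, inferInstance, c1, c2, c3.trans b5, s, ?_⟩
  have h1 := fin4_mono a1 ((le_max_right _ _).trans hX)
  have h2 : C * (2 : ℝ) ^ (κ₁ * (Real.log X / Real.log (Real.log X))) ≤ C * (s.card : ℝ) :=
    b6.trans c4
  exact h1.trans (le_of_mul_le_mul_left h2 hC)

theorem sel_lower_all (hd : E.disc ≠ 0) {κ : ℝ} (hκ : κ < 2) : ∃ X₀ : ℝ, ∀ X : ℝ, X₀ ≤ X →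
    ∃ (K : Type) (_ : Field K) (_ : NumberField K), Module.finrank ℚ K = 2 ∧ discr K < 0 ∧
      |(discr K : ℝ)| ≤ X ∧ ∃ Ψ : Finset (E.Alg K)ˣ, (∀ u ∈ Ψ, u ∈ E.selSub K) ∧
        (∀ u ∈ Ψ, ∀ v ∈ Ψ, u / v ∈ sqSub (E.Alg K) → u = v) ∧
        (2 : ℝ) ^ (κ * (Real.log X / Real.log (Real.log X))) ≤ (Ψ.card : ℝ) := by
  obtain ⟨κ₁, hκ₁⟩ : ∃ κ₁ : ℝ, κ₁ = max κ 1 := ⟨_, rfl⟩
  have a1 : κ ≤ κ₁ := by rw [hκ₁]; exact le_max_left _ _
  have a2 : 0 < κ₁ := by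
    rw [hκ₁]
    exact lt_of_lt_of_le (by norm_num) (le_max_right _ _)
  have a3 : κ₁ < 2 := by
    rw [hκ₁]
    exact max_lt hκ (by norm_num)
  obtain ⟨F, _, _, ⟨S⟩⟩ := exists_split E hd
  obtain ⟨C, hC, hcore⟩ := S.sel_core hd
  obtain ⟨η, hη0, hη1, hreal⟩ := fin4_real a2 a3 C hC
  obtain ⟨x₀, hsup⟩ := S.supply_all hd hη0 hη1
  obtain ⟨X₀, hX₀⟩ := hreal x₀
  refine ⟨max X₀ (Real.exp (Real.exp 1)), fun X hX => ?_⟩
  obtain ⟨x, n, b1, b2, b3, b4, b5, b6⟩ := hX₀ X ((le_max_left _ _).trans hX)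
  obtain ⟨T, hT1, hT2⟩ := hsup x b1
  have hnT : n ≤ T.card := by
    have : (n : ℝ) ≤ T.card := b3.trans hT2
    exact_mod_cast this
  obtain ⟨T', hT', hT'c⟩ := Finset.exists_subset_card_eq hnT
  obtain ⟨K, _, _, c1, c2, c3, Ψ, c4, c5, c6⟩ := hcore x T'
    (fun p hp => hT1 p (hT' hp)) (by rw [hT'c]; exact b2)
  rw [hT'c] at c3 c6
  refine ⟨K, inferInstance, inferInstance, c1, c2, c3.trans b5, Ψ, c4, c5, ?_⟩
  have h1 := fin4_mono a1 ((le_max_right _ _).trans hX)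
  have h2 : C * (2 : ℝ) ^ (κ₁ * (Real.log X / Real.log (Real.log X))) ≤ C * (Ψ.card : ℝ) :=
    b6.trans c6
  exact h1.trans (le_of_mul_le_mul_left h2 hC)

end Cub
end H16A
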