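import Pool.Agent.Lib.H16A.W4
import Pool.Agent.Lib.H16A.FIN4

/-!
# FIN5: the lower bound for `Ш[2]` with every constant `κ < 1`
(the arguments of FIN3 and FIN4 with `exists_small'` of W4 instead of `exists_small` of U8)
-/

open Polynomial IsDedekindDomain NumberField

namespace H16A
namespace Split

variable {E : Cub} {F : Type} [Field F] [NumberField F] (S : Split E F)

theorem sha_core' (hd : E.disc ≠ 0) {κ' : ℝ} (hκ'0 : 0 < κ') (h13 : κ' < 1) :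
    ∃ (C : ℝ) (x₂ : ℕ), 0 < C ∧
      ∀ x : ℕ, x₂ ≤ x → ∀ T : Finset ℕ, (∀ p ∈ T, p ≤ x ∧ ∃ w, S.SplP p w) → 0 < T.card →
        (x : ℝ) ^ ((4 : ℝ) / 5) ≤ (T.card : ℝ) →
        ∃ (K : Type) (_ : Field K) (_ : NumberField K), Module.finrank ℚ K = 2 ∧ discr K < 0 ∧
          |(discr K : ℝ)| ≤ 4 * (x : ℝ) ^ T.card ∧
          ∃ s : Finset (E.Sha2 K), (2 : ℝ) ^ (κ' * (T.card : ℝ)) ≤ C * (s.card : ℝ) := by
  classical
  -- the splitting field and the constants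
  obtain ⟨K₅, hK₅, hsel⟩ := S.sel_lower hd
  obtain ⟨K₆, hK₆, hHs⟩ := S.card_Hs
  obtain ⟨K₇, hK₇, hidx⟩ := S.index_le
  obtain ⟨x₂, hsmall⟩ := S.exists_small' h13
  -- E(ℚ)/2E(ℚ) is finite
  have hI₀ : (twoG (E.Pt ℚ)).index ≠ 0 := by
    have hle : S.G 1 ≤ S.Hs ∅ := S.G_le_Hs one_ne_zero ∅ (fun p hp h1 _ => by
      exfalso
      have := Int.natAbs_dvd_natAbs.2 h1
      simp only [Int.natAbs_natCast, Int.natAbs_one, Nat.dvd_one] at this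
      exact hp.one_lt.ne' this)
    have hfin : Finite (S.Hs ∅) := (hHs ∅ (by simp)).1
    have hG : Finite (S.G 1) := Finite.of_injective (Subgroup.inclusion hle)
      (Subgroup.inclusion_injective hle)
    have := (hidx 1 one_ne_zero hG).1
    rwa [E.fin1_twist_one] at this
  set I₀ := (twoG (E.Pt ℚ)).index with hI₀def
  set C : ℝ := 4 * K₅ * (I₀ : ℝ) ^ 2 * K₇ with hC
  have hCpos : 0 < C := by
    have h1 : (0 : ℝ) < K₅ := by exact_mod_cast hK₅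
    have h2 : (0 : ℝ) < K₇ := by exact_mod_cast hK₇
    have h3 : (0 : ℝ) < I₀ := by exact_mod_cast Nat.pos_of_ne_zero hI₀
    positivity
  refine ⟨C, x₂, hCpos, fun x hx2 T hT hTpos hT45 => ?_⟩
  obtain ⟨w, hwT⟩ := S.fin3_choice T (fun p hp => (hT p hp).2) hTpos
  obtain ⟨T', hT'T, hT'card, hGfin, hGcard⟩ := hsmall x hx2 T w
    (fun p hp => ⟨hwT p hp, (hT p hp).1⟩) hT45
  have hprime : ∀ p ∈ T', p.Prime := fun p hp => (hwT p (hT'T hp)).prime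
  set D : ℤ := -(∏ p ∈ T', (p : ℤ)) with hD
  have hprodpos : 0 < ∏ p ∈ T', (p : ℤ) :=
    Finset.prod_pos fun p hp => by exact_mod_cast (hprime p hp).pos
  have hDneg : D < 0 := by rw [hD]; linarith
  have hDne : D ≠ 0 := hDneg.ne
  obtain ⟨K, _, _, δ, hK2, hδ, hδQ, hdneg, hlow, hupp⟩ :=
    fin3_field x T' (fun p hp => ⟨(hT p (hT'T hp)).1, hprime p hp⟩)
  -- index of 2 E(K)
  obtain ⟨hiD, hiDle⟩ := hidx D hDne hGfin
  obtain ⟨hiK, hiKle⟩ := E.index_quadratic hK2 δ D hDne hδ hδQ hI₀ hiD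
  have h2K : (2 : K) ≠ 0 := two_ne_zero
  have hdK : ((E.disc : ℤ) : K) ≠ 0 := by exact_mod_cast hd
  have hrel := E.relIndex_eq (L := K) h2K hdK
  have hrel0 : (sqSub (E.Alg K)).relIndex (E.imSub K) ≠ 0 := by rw [hrel]; exact hiK
  -- the elements of the Selmer group
  obtain ⟨Ψ, hΨcard, hΨsel, hΨsep⟩ := hsel T' w (fun p hp => hwT p (hT'T hp)) K hK2 δ (by
    rw [hδ]
    push_cast
    rfl)
  obtain ⟨s, hs⟩ := fin1_count (E.selSub K) (E.imSub K) (sqSub (E.Alg K)) hrel0 Ψ hΨsel hΨsep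
  set n := T.card with hn
  have hx1 : 1 ≤ x := by
    obtain ⟨p₀, hp₀⟩ := Finset.card_pos.1 hTpos
    exact (hwT p₀ hp₀).prime.pos.trans_le (hT p₀ hp₀).1
  have hupp' : |(discr K : ℝ)| ≤ 4 * (x : ℝ) ^ T.card := by
    refine hupp.trans (mul_le_mul_of_nonneg_left ?_ (by norm_num))
    exact pow_le_pow_right₀ (by exact_mod_cast hx1) (Finset.card_le_card hT'T)
  refine ⟨K, inferInstance, inferInstance, hK2, hdneg, hupp', s, ?_⟩
  -- numbers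
  have hR : ((sqSub (E.Alg K)).relIndex (E.imSub K) : ℝ)
      ≤ (I₀ : ℝ) ^ 2 * (K₇ * (2 : ℝ) ^ ((2 - κ') * (n : ℝ))) := by
    have h1 : (sqSub (E.Alg K)).relIndex (E.imSub K)
        ≤ I₀ ^ 2 * (K₇ * Nat.card (S.G D)) := by
      rw [hrel]
      exact hiKle.trans (Nat.mul_le_mul_left _ hiDle)
    have h2 : ((sqSub (E.Alg K)).relIndex (E.imSub K) : ℝ)
        ≤ (I₀ : ℝ) ^ 2 * (K₇ * (Nat.card (S.G D) : ℝ)) := by exact_mod_cast h1
    refine h2.trans ?_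
    exact mul_le_mul_of_nonneg_left (mul_le_mul_of_nonneg_left hGcard (by positivity))
      (by positivity)
  have h4 : (4 : ℝ) ^ (n - 1) ≤ K₅ * ((I₀ : ℝ) ^ 2 * (K₇ * (2 : ℝ) ^ ((2 - κ') * (n : ℝ))) *
      s.card) := by
    have h5 : (4 : ℝ) ^ (n - 1) ≤ 4 ^ T'.card := pow_le_pow_right₀ (by norm_num) (by omega)
    have h6 : (4 : ℝ) ^ T'.card ≤ K₅ * (Ψ.card : ℝ) := by exact_mod_cast hΨcard
    have h7 : (Ψ.card : ℝ) ≤ ((sqSub (E.Alg K)).relIndex (E.imSub K) : ℝ) * s.card := by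
      exact_mod_cast hs
    refine (h5.trans h6).trans (mul_le_mul_of_nonneg_left (h7.trans ?_) (by positivity))
    exact mul_le_mul_of_nonneg_right hR (by positivity)
  have h8 : (4 : ℝ) ^ (n - 1) = (2 : ℝ) ^ (2 * (n : ℝ)) / 4 := by
    have hn1 : 1 ≤ n := hTpos
    have h9 : (2 : ℝ) ^ (2 * (n : ℝ)) = (4 : ℝ) ^ n := by
      rw [Real.rpow_mul (by norm_num), Real.rpow_natCast]
      norm_num
    rw [h9, eq_div_iff (by norm_num), ← pow_succ, Nat.sub_add_cancel hn1]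
  have h10' : (2 : ℝ) ^ (2 * (n : ℝ)) = (2 : ℝ) ^ (κ' * (n : ℝ)) * (2 : ℝ) ^ ((2 - κ') * (n : ℝ)) := by
    rw [← Real.rpow_add (by norm_num)]
    congr 1
    ring
  have h11' : (2 : ℝ) ^ (κ' * (n : ℝ)) ≤ C * s.card := by
    rw [h8, h10', div_le_iff₀ (by norm_num)] at h4
    have hq : 0 < (2 : ℝ) ^ ((2 - κ') * (n : ℝ)) := by positivity
    refine le_of_mul_le_mul_right ?_ hq
    refine h4.trans (le_of_eq ?_)
    rw [hC]
    ring
  exact h11'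

end Split

namespace Cub

variable (E : Cub)

theorem sha_lower_all' (hd : E.disc ≠ 0) {κ : ℝ} (hκ : κ < 1) : ∃ X₀ : ℝ, ∀ X : ℝ, X₀ ≤ X →
    ∃ (K : Type) (_ : Field K) (_ : NumberField K), Module.finrank ℚ K = 2 ∧ discr K < 0 ∧
      |(discr K : ℝ)| ≤ X ∧ ∃ s : Finset (E.Sha2 K),
        (2 : ℝ) ^ (κ * (Real.log X / Real.log (Real.log X))) ≤ (s.card : ℝ) := by
  obtain ⟨κ₁, hκ₁⟩ : ∃ κ₁ : ℝ, κ₁ = max κ (1 / 2) := ⟨_, rfl⟩
  have a1 : κ ≤ κ₁ := by rw [hκ₁]; exact le_max_left _ _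
  have a2 : 0 < κ₁ := by
    rw [hκ₁]
    exact lt_of_lt_of_le (by norm_num) (le_max_right _ _)
  have a3 : κ₁ < 1 := by
    rw [hκ₁]
    exact max_lt hκ (by norm_num)
  obtain ⟨κ', hκ'⟩ : ∃ κ' : ℝ, κ' = (κ₁ + 1) / 2 := ⟨_, rfl⟩
  obtain ⟨F, _, _, ⟨S⟩⟩ := exists_split E hd
  obtain ⟨C, x₂, hC, hcore⟩ := S.sha_core' hd (κ' := κ') (by linarith) (by linarith)
  obtain ⟨η, hη0, hη1, hreal⟩ := fin4_real a2 (by linarith : κ₁ < κ') C hC
  obtain ⟨x₀, hsup⟩ := S.supply_all hd hη0 hη1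
  obtain ⟨X₀, hX₀⟩ := hreal (max x₀ x₂)
  refine ⟨max X₀ (Real.exp (Real.exp 1)), fun X hX => ?_⟩
  obtain ⟨x, n, b1, b2, b3, b4, b5, b6⟩ := hX₀ X ((le_max_left _ _).trans hX)
  obtain ⟨T, hT1, hT2⟩ := hsup x ((le_max_left _ _).trans b1)
  have hnT : n ≤ T.card := by
    have : (n : ℝ) ≤ T.card := b3.trans hT2
    exact_mod_cast this
  obtain ⟨T', hT', hT'c⟩ := Finset.exists_subset_card_eq hnT
  obtain ⟨K, _, _, c1, c2, c3, s, c4⟩ := hcore x ((le_max_right _ _).trans b1) T'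
    (fun p hp => hT1 p (hT' hp)) (by rw [hT'c]; exact b2) (by rw [hT'c]; exact b4)
  rw [hT'c] at c3 c4
  refine ⟨K, inferInstance, inferInstance, c1, c2, c3.trans b5, s, ?_⟩
  have h1 := fin4_mono a1 ((le_max_right _ _).trans hX)
  have h2 : C * (2 : ℝ) ^ (κ₁ * (Real.log X / Real.log (Real.log X))) ≤ C * (s.card : ℝ) :=
    b6.trans c4
  exact h1.trans (le_of_mul_le_mul_left h2 hC)

end Cub
end H16A
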