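import Pool.Agent.Lib.H16A.M1

/-!
# M2 (M): Mordell-Weil from the finiteness of `E(K)/2E(K)`

`K` a number field, `h(P) = logHeight P.xRep` (`Height.logHeight` of `![x, 1]`, `![1, 0]` at the point
`0`).
* parallelogram law `|h(P+Q) + h(P-Q) - 2(h(P) + h(Q))| ≤ C`: Mathlib's
  `abs_logHeight_addSubMap_sub_two_mul_logHeight_le` (needs `IsElliptic`, i.e. `disc ≠ 0`), M1, the
  invariance of `logHeight` under scaling, and `Height.abs_logHeight_sym2_sub_le` for both pairs.
* Northcott: `h(P) ≤ B` leaves finitely many `x` (`Height.Northcott` for number fields: `mulHeight₁` /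
  `finite_setOfPred_logHeight₁_le`), and at most two `y` for every `x`.
* `AddCommGroup.fg_of_descent'`.
* `two_pow_finrank_le`: for a finitely generated abelian group `G` of rank `r`, `[G : 2G] ≥ 2^r`
  (`G → G/torsion ≅ ℤ^r → (ℤ/2)^r` is surjective).
-/

open IsDedekindDomain NumberField

namespace H16A

theorem m2_index_ne_zero (G : Type*) [AddCommGroup G] [Module.Finite ℤ G] :
    (twoG G).index ≠ 0 := by
  have h1 : Finite (G ⧸ twoG G) := by
    have h2 : AddGroup.FG G := Module.Finite.iff_addGroup_fg.1 inferInstance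
    have h3 : AddGroup.FG (G ⧸ twoG G) :=
      AddGroup.fg_of_surjective (QuotientAddGroup.mk'_surjective (twoG G))
    have h4 : Module.Finite ℤ (G ⧸ twoG G) := Module.Finite.iff_addGroup_fg.2 h3
    apply Module.finite_of_fg_torsion
    intro x
    obtain ⟨g, rfl⟩ := QuotientAddGroup.mk'_surjective (twoG G) x
    refine ⟨⟨2, mem_nonZeroDivisors_of_ne_zero two_ne_zero⟩, ?_⟩
    change (2 : ℤ) • (QuotientAddGroup.mk' (twoG G) g) = 0
    rw [← map_zsmul]
    apply (QuotientAddGroup.eq_zero_iff _).2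
    exact ⟨g, by
      change 2 • g = (2 : ℤ) • g
      rw [two_nsmul, two_zsmul]⟩
  exact AddSubgroup.index_ne_zero_of_finite

theorem two_pow_finrank_le (G : Type*) [AddCommGroup G] [Module.Finite ℤ G] :
    2 ^ Module.finrank ℤ G ≤ (twoG G).index := by
  classical
  have h0 := m2_index_ne_zero G
  have h1 : Module.finrank ℤ (G ⧸ Submodule.torsion ℤ G) = Module.finrank ℤ G :=
    finrank_quotient_eq_of_le_torsion le_rfl
  obtain ⟨b⟩ : Nonempty (Module.Basis (Fin (Module.finrank ℤ G)) ℤ (G ⧸ Submodule.torsion ℤ G)) := by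
    rw [← h1]
    exact ⟨Module.finBasis ℤ _⟩
  let f1 : G →+ (G ⧸ Submodule.torsion ℤ G) := (Submodule.torsion ℤ G).mkQ.toAddMonoidHom
  let f2 : (G ⧸ Submodule.torsion ℤ G) →+ (Fin (Module.finrank ℤ G) → ℤ) :=
    b.equivFun.toLinearMap.toAddMonoidHom
  let f3 : (Fin (Module.finrank ℤ G) → ℤ) →+ (Fin (Module.finrank ℤ G) → ZMod 2) :=
    (Int.castAddHom (ZMod 2)).compLeft _
  have hs1 : Function.Surjective f1 := Submodule.mkQ_surjective _
  have hs2 : Function.Surjective f2 := b.equivFun.surjective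
  have hs3 : Function.Surjective f3 := by
    intro v
    choose w hw using fun i => ZMod.intCast_surjective (v i)
    exact ⟨w, funext hw⟩
  let f := (f3.comp f2).comp f1
  have hs : Function.Surjective f := (hs3.comp hs2).comp hs1
  have hle : twoG G ≤ f.ker := by
    rintro _ ⟨g, rfl⟩
    rw [AddMonoidHom.mem_ker]
    change f (2 • g) = 0
    rw [map_nsmul]
    funext i
    rw [Pi.smul_apply, two_nsmul, Pi.zero_apply]
    exact CharTwo.add_self_eq_zero _
  have hidx : f.ker.index = 2 ^ Module.finrank ℤ G := by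
    rw [AddSubgroup.index_ker, AddMonoidHom.range_eq_top.2 hs, AddSubgroup.card_top,
      Nat.card_fun, Nat.card_zmod, Nat.card_eq_fintype_card, Fintype.card_fin]
  rw [← hidx]
  exact Nat.le_of_dvd (Nat.pos_of_ne_zero h0) (AddSubgroup.index_dvd_of_le hle)

namespace Cub

variable (E : Cub)

open Height WeierstrassCurve

theorem m2_elliptic (hd : E.disc ≠ 0) (K : Type*) [Field K] [CharZero K] :
    (WeierstrassCurve.Affine.baseChange E.W K).IsElliptic := by
  refine ⟨?_⟩
  have h1 : (WeierstrassCurve.Affine.baseChange E.W K).Δ = 16 * ((E.disc : ℤ) : K) := by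
    simp [WeierstrassCurve.Affine.baseChange, WeierstrassCurve.baseChange, W, disc,
      WeierstrassCurve.Δ, WeierstrassCurve.b₂, WeierstrassCurve.b₄, WeierstrassCurve.b₆,
      WeierstrassCurve.b₈]
    ring
  rw [h1, isUnit_iff_ne_zero]
  have h2 : ((E.disc : ℤ) : K) ≠ 0 := Int.cast_ne_zero.2 hd
  exact mul_ne_zero (by norm_num) h2

/-- the naive height -/
noncomputable def m2_h {K : Type*} [Field K] [AdmissibleAbsValues K] (P : E.Pt K) : ℝ :=
  logHeight P.xRep

theorem m2_par (hd : E.disc ≠ 0) (K : Type*) [Field K] [NumberField K] [DecidableEq K] :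
    ∃ C : ℝ, ∀ P Q : E.Pt K,
      |E.m2_h (P + Q) + E.m2_h (P - Q) - 2 * (E.m2_h P + E.m2_h Q)| ≤ C := by
  have hE := E.m2_elliptic hd K
  obtain ⟨C₁, h1⟩ := abs_logHeight_addSubMap_sub_two_mul_logHeight_le
    (WeierstrassCurve.Affine.baseChange E.W K)
  obtain ⟨C₂, h2⟩ := abs_logHeight_sym2_sub_le K
  have hx : ∀ P : E.Pt K, P.xRep = ![P.xRep 0, P.xRep 1] := by
    intro P
    funext i
    fin_cases i <;> rfl
  have h3 : ∀ P Q : E.Pt K, |logHeight (P.sym2x Q) - (E.m2_h P + E.m2_h Q)| ≤ C₂ := by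
    intro P Q
    have h4 := h2 (a := P.xRep 0) (b := P.xRep 1) (c := Q.xRep 0) (d := Q.xRep 1)
      (by rw [← hx]; exact P.xRep_ne_zero) (by rw [← hx]; exact Q.xRep_ne_zero)
    rw [← hx, ← hx] at h4
    exact h4
  refine ⟨C₁ + 3 * C₂, fun P Q => ?_⟩
  obtain ⟨t, ht, h5⟩ := E.addSub_sym2x (K := K) two_ne_zero P Q
  have h6 := h1 (P.sym2x Q)
  rw [h5, logHeight_smul_eq_logHeight _ ht] at h6
  have h7 := h3 P Q
  have h8 := h3 (P + Q) (P - Q)
  rw [abs_le] at h6 h7 h8 ⊢
  constructor <;> linarith [h6.1, h6.2, h7.1, h7.2, h8.1, h8.2]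

theorem m2_northcott (K : Type*) [Field K] [NumberField K] :
    Northcott (fun P : E.Pt K => E.m2_h P) := by
  refine ⟨fun B => ?_⟩
  have h1 := NumberField.finite_setOfPred_logHeight₁_le K B
  have h2 : ((fun x : K => ![x, 1]) '' {x : K | logHeight₁ x ≤ B} ∪ {![1, 0]}).Finite :=
    (h1.image _).union (Set.finite_singleton _)
  refine Set.Finite.subset (Set.Finite.preimage' (f := fun P : E.Pt K => P.xRep) h2 ?_) ?_
  · intro b _
    by_cases h : ∃ P : E.Pt K, P.xRep = b
    · obtain ⟨P, rfl⟩ := h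
      refine Set.Finite.subset (Set.toFinite {P, -P}) ?_
      intro Q hQ
      exact WeierstrassCurve.Affine.Point.xRep_eq_xRep_iff.1 hQ
    · refine Set.Finite.subset Set.finite_empty ?_
      intro Q hQ
      exact h ⟨Q, hQ⟩
  · intro P hP
    rcases P with _ | ⟨x, y, h⟩
    · exact Or.inr rfl
    · refine Or.inl ⟨x, ?_, rfl⟩
      change logHeight₁ x ≤ B
      rw [logHeight₁_eq_logHeight]
      exact hP

theorem mordell_weil (hd : E.disc ≠ 0) (K : Type*) [Field K] [NumberField K] [DecidableEq K]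
    (hw : (twoG (E.Pt K)).index ≠ 0) : Module.Finite ℤ (E.Pt K) := by
  obtain ⟨C, hC⟩ := E.m2_par hd K
  have hN := E.m2_northcott K
  have h1 : AddGroup.FG (E.Pt K) := by
    refine AddCommGroup.fg_of_descent' (h := fun P : E.Pt K => E.m2_h P) (C := C) ⟨hw⟩ ?_ hC
    intro P
    unfold m2_h
    rw [logHeight_eq_log_mulHeight]
    exact Real.log_nonneg (one_le_mulHeight _)
  exact Module.Finite.iff_addGroup_fg.2 h1

end Cub
end H16A
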