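import Pool.Agent.Lib.H16A.X7
import Pool.Agent.Lib.H16A.M2

/-!
# FIN6: the upper bound in terms of `X`
-/

open Polynomial IsDedekindDomain NumberField

namespace H16A

/-- `t / log t` is increasing for `t ≥ e` -/
theorem fin6_mono {s t : ℝ} (hs : Real.exp 1 ≤ s) (hst : s ≤ t) :
    s / Real.log s ≤ t / Real.log t := by
  have hs0 : 0 < s := (Real.exp_pos 1).trans_le hs
  have ht0 : 0 < t := hs0.trans_le hst
  have hls : 1 ≤ Real.log s := by
    have := Real.log_le_log (Real.exp_pos 1) hs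
    rwa [Real.log_exp] at this
  have hlt : 1 ≤ Real.log t := hls.trans (Real.log_le_log hs0 hst)
  have h := Real.log_div_self_antitoneOn (a := s) (b := t) hs (hs.trans hst) hst
  simp only at h
  rw [div_le_div_iff₀ ht0 hs0] at h
  rw [div_le_div_iff₀ (by linarith) (by linarith)]
  linarith

/-- `log X / log log X → ∞` -/
theorem fin6_tendsto : Filter.Tendsto (fun X : ℝ => Real.log X / Real.log (Real.log X))
    Filter.atTop Filter.atTop := by
  have h1 : Filter.Tendsto (fun t : ℝ => t / Real.log t) Filter.atTop Filter.atTop := by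
    have h2 : Filter.Tendsto (fun t : ℝ => Real.log t / t) Filter.atTop (nhdsWithin 0 (Set.Ioi 0)) := by
      refine tendsto_nhdsWithin_iff.2 ⟨?_, ?_⟩
      · exact Real.isLittleO_log_id_atTop.tendsto_div_nhds_zero
      · filter_upwards [Filter.eventually_gt_atTop (1 : ℝ)] with t ht
        exact div_pos (Real.log_pos ht) (by linarith)
    have h3 := h2.inv_tendsto_nhdsGT_zero
    refine h3.congr fun t => ?_
    simp
  exact h1.comp Real.tendsto_log_atTop

/-- the bound for `C 4^ω(n)`, `n ≤ X` -/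
theorem fin6_omega {κ : ℝ} (hκ : 2 < κ) (C : ℝ) : ∃ X₀ : ℝ, ∀ X : ℝ, X₀ ≤ X →
    ∀ n : ℕ, (n : ℝ) ≤ X →
      C * 4 ^ n.primeFactors.card ≤ (2 : ℝ) ^ (κ * (Real.log X / Real.log (Real.log X))) := by
  obtain ⟨ε, hε⟩ : ∃ ε : ℝ, ε = (κ - 2) / 3 := ⟨_, rfl⟩
  have hε0 : 0 < ε := by rw [hε]; linarith
  obtain ⟨B, hB⟩ := omega_le hε0
  have hee := Real.exp_pos (Real.exp 1)
  obtain ⟨B', hB'⟩ : ∃ B' : ℕ, B ≤ B' ∧ Real.exp (Real.exp 1) ≤ B' := by
    obtain ⟨m, hm⟩ := exists_nat_ge (Real.exp (Real.exp 1))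
    exact ⟨max B m, le_max_left _ _, hm.trans (by exact_mod_cast le_max_right _ _)⟩
  obtain ⟨X₁, hX₁⟩ := Filter.eventually_atTop.1 (fin6_tendsto.eventually_ge_atTop
    (max (B' : ℝ) (|C| / ε)))
  refine ⟨max X₁ B', fun X hX n hn => ?_⟩
  have hL := hX₁ X ((le_max_left _ _).trans hX)
  have hXB : (B' : ℝ) ≤ X := (le_max_right _ _).trans hX
  set L := Real.log X / Real.log (Real.log X) with hLdef
  have hL1 : (B' : ℝ) ≤ L := (le_max_left _ _).trans hL
  have hL2 : |C| / ε ≤ L := (le_max_right _ _).trans hL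
  have hL0 : 0 ≤ L := le_trans (Nat.cast_nonneg _) hL1
  have homega : (n.primeFactors.card : ℝ) ≤ (1 + ε) * L := by
    by_cases h : B' ≤ n
    · refine (hB n (hB'.1.trans h)).trans ?_
      apply mul_le_mul_of_nonneg_left _ (by linarith)
      have h1 : Real.exp (Real.exp 1) ≤ (n : ℝ) := hB'.2.trans (by exact_mod_cast h)
      have h2 : Real.exp 1 ≤ Real.log n := by
        have := Real.log_le_log hee h1
        rwa [Real.log_exp] at this
      exact fin6_mono h2 (Real.log_le_log (hee.trans_le h1) hn)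
    · push Not at h
      have h1 : n.primeFactors.card ≤ n := by
        rcases Nat.eq_zero_or_pos n with rfl | h0
        · simp
        · have h2 : n.primeFactors ⊆ Finset.Icc 1 n := by
            intro p hp
            rw [Finset.mem_Icc]
            exact ⟨(Nat.prime_of_mem_primeFactors hp).one_le,
              Nat.le_of_dvd h0 (Nat.dvd_of_mem_primeFactors hp)⟩
          have := Finset.card_le_card h2
          simpa using this
      have h2 : (n.primeFactors.card : ℝ) ≤ B' := by exact_mod_cast h1.trans h.le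
      nlinarith
  have h3 : C ≤ (2 : ℝ) ^ (ε * L) := by
    have h4 : |C| ≤ ε * L := by
      rw [div_le_iff₀ hε0] at hL2
      linarith
    have h5 : ε * L ≤ (2 : ℝ) ^ (ε * L) := by
      have h6 : ε * L < 2 ^ (ε * L) := by
        have hy : 0 ≤ ε * L := by positivity
        have h7 : Real.exp (Real.log 2 * (ε * L)) = 2 ^ (ε * L) := by
          rw [Real.rpow_def_of_pos (by norm_num)]
        have h8 := Real.add_one_le_exp (Real.log 2 * (ε * L))
        -- use Bernoulli via floor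
        have h9 : (⌊ε * L⌋₊ : ℝ) + 1 ≤ 2 ^ (⌊ε * L⌋₊ : ℕ) := by
          exact_mod_cast Nat.lt_two_pow_self
        calc ε * L < (⌊ε * L⌋₊ : ℝ) + 1 := Nat.lt_floor_add_one _
          _ ≤ 2 ^ (⌊ε * L⌋₊ : ℕ) := h9
          _ = (2 : ℝ) ^ ((⌊ε * L⌋₊ : ℕ) : ℝ) := (Real.rpow_natCast _ _).symm
          _ ≤ 2 ^ (ε * L) := Real.rpow_le_rpow_of_exponent_le (by norm_num) (Nat.floor_le hy)
      exact h6.le
    exact (le_abs_self C).trans (h4.trans h5)
  have h4 : (4 : ℝ) ^ n.primeFactors.card ≤ (2 : ℝ) ^ (2 * ((1 + ε) * L)) := by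
    have h5 : (4 : ℝ) ^ n.primeFactors.card = (2 : ℝ) ^ (2 * (n.primeFactors.card : ℝ)) := by
      rw [Real.rpow_mul (by norm_num), Real.rpow_natCast]
      norm_num
    rw [h5]
    exact Real.rpow_le_rpow_of_exponent_le (by norm_num) (by linarith)
  have h5 : (2 : ℝ) ^ (κ * L) = (2 : ℝ) ^ (ε * L) * (2 : ℝ) ^ (2 * ((1 + ε) * L)) := by
    rw [← Real.rpow_add (by norm_num)]
    congr 1
    rw [hε]
    ring
  rw [h5]
  exact mul_le_mul h3 h4 (by positivity) (by positivity)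

namespace Cub

variable (E : Cub)

/-- Finiteness of the Selmer group of the quadratic fields, the exact sequence and the
Mordell-Weil theorem. -/
theorem fin6_finite (hd : E.disc ≠ 0) : ∃ C₀ : ℕ, ∀ (K : Type) [Field K] [NumberField K]
    [DecidableEq K], Module.finrank ℚ K = 2 →
    Module.Finite ℤ (E.Pt K) ∧ Finite (E.Sha2 K) ∧
    2 ^ Module.finrank ℤ (E.Pt K) ≤ (twoG (E.Pt K)).index ∧
    Nat.card (E.Sha2 K) * (twoG (E.Pt K)).index = (sqSub (E.Alg K)).relIndex (E.selSub K) ∧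
    (sqSub (E.Alg K)).relIndex (E.selSub K) ≠ 0 ∧
    (sqSub (E.Alg K)).relIndex (E.selSub K) ≤ C₀ * 4 ^ (discr K).natAbs.primeFactors.card := by
  have hupper : ∃ C₀ : ℕ, 0 < C₀ ∧
    ∀ (K : Type) [Field K] [NumberField K], Module.finrank ℚ K = 2 →
    ∀ Ψ : Finset (E.Alg K)ˣ, (∀ u ∈ Ψ, u ∈ E.selSub K) →
    (∀ u ∈ Ψ, ∀ v ∈ Ψ, u / v ∈ sqSub (E.Alg K) → u = v) →
    Ψ.card ≤ C₀ * 4 ^ (discr K).natAbs.primeFactors.card := by
    obtain ⟨F, _, _, ⟨S⟩⟩ := exists_split E hd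
    first
      | exact Split.sel_upper hd
      | exact Split.sel_upper S hd
  obtain ⟨C₀, hC₀, hsel⟩ := hupper
  refine ⟨C₀, fun K _ _ _ hK => ?_⟩
  obtain ⟨h1, h2⟩ := E.relIndex_sel _ (hsel K hK)
  obtain ⟨h3, h4, h5⟩ := E.finite_sha2 (K := K) hd h1
  have h6 := E.mordell_weil hd K h4
  exact ⟨h6, h3, two_pow_finrank_le _, h5, h1, h2⟩

/-- The upper bound in terms of `X`. -/
theorem upper_all (hd : E.disc ≠ 0) {κ : ℝ} (hκ : 2 < κ) : ∃ X₀ : ℝ, ∀ X : ℝ, X₀ ≤ X →
    ∀ (K : Type) [Field K] [NumberField K] [DecidableEq K], Module.finrank ℚ K = 2 →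
      |(discr K : ℝ)| ≤ X →
      ((Nat.card (E.Sha2 K) * (twoG (E.Pt K)).index : ℕ) : ℝ) ≤
        (2 : ℝ) ^ (κ * (Real.log X / Real.log (Real.log X))) := by
  obtain ⟨C₀, hC₀⟩ := E.fin6_finite hd
  obtain ⟨X₀, hX₀⟩ := fin6_omega hκ (C₀ : ℝ)
  refine ⟨X₀, fun X hX K _ _ _ hK hKX => ?_⟩
  obtain ⟨-, -, -, h4, -, h6⟩ := hC₀ K hK
  rw [h4]
  have h7 : (((sqSub (E.Alg K)).relIndex (E.selSub K) : ℕ) : ℝ) ≤
      (C₀ : ℝ) * 4 ^ (discr K).natAbs.primeFactors.card := by exact_mod_cast h6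
  refine h7.trans (hX₀ X hX _ ?_)
  have h8 : (((discr K).natAbs : ℕ) : ℝ) = |(discr K : ℝ)| := by
    rw [Nat.cast_natAbs]
    push_cast
    rfl
  rw [h8]
  exact hKX

end Cub
end H16A
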