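import Pool.Agent.Lib.H16A.V0

/-!
# H1 (M): the component of the descent map at a root is a homomorphism

`M` is a field with `2 ≠ 0`, `e` a root of `f` in `M` with `f'(e) ≠ 0`; `E.dl e P` is the class of
`x(P) - e`, the class of `f'(e)` if `x(P) = e`, and `1` for `P = 0`.

Proof of `dl_add`.  `dl e (-P) = dl e P` and all classes have square one, so it is enough to show
`dl e P * dl e Q * dl e R = 1` if `P + Q + R = 0`.  If one of the points is `0` the other two are
opposite: clear.  Otherwise none of the points is `0`, and they lie on a line `y = λ x + μ` (slope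
`λ`), so that `f(T) - (λ T + μ)² = (T - x_P)(T - x_Q)(T - x_R)`.
* Put `T = e`: `(x_P - e)(x_Q - e)(x_R - e) = (λ e + μ)²`.  This is what we want if no `x` is `e`.
* If `x_P = e`, say, then `y_P = 0`, hence `λ e + μ = 0`, `λ T + μ = λ (T - e)`; write
  `f(T) = (T - e) g(T)`, `g(e) = f'(e)`; divide by `T - e`:
  `g(T) - λ² (T - e) = (T - x_Q)(T - x_R)`, and `T = e` gives `f'(e) = (x_Q - e)(x_R - e)`, so
  `x_Q, x_R ≠ e` and the product of the three classes is the class of `f'(e)²`.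
In Lean: cases on `P`, `Q`; the formulas for the sum are `Point.add_some`, `addX`, `slope`
(`slope_of_X_ne`, `slope_of_Y_ne`), and with `a₁ = a₃ = 0` everything is `field_simp; ring` /
`linear_combination`.
-/

open Polynomial

namespace H16A
namespace Cub

variable (E : Cub) {M : Type*} [Field M]

theorem dl_zero (e : M) : E.dl e (0 : E.Pt M) = 1 := rfl

open Classical in
theorem h1_dl_some (e x y : M)
    (h : (WeierstrassCurve.Affine.baseChange E.W M).Nonsingular x y) :
    E.dl e (WeierstrassCurve.Affine.Point.some x y h : E.Pt M) =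
      if x = e then cls (E.der e) else cls (x - e) := rfl

theorem dl_neg (e : M) (P : E.Pt M) : E.dl e (-P) = E.dl e P := by
  rcases P with _ | ⟨x, y, h⟩
  · rfl
  · rw [WeierstrassCurve.Affine.Point.neg_some]
    rfl

theorem h1_coeffs (R : Type*) [CommRing R] :
    E.poly R = Cubic.toPoly ⟨1, (E.a : R), (E.b : R), (E.c : R)⟩ := by
  simp [poly, Cubic.toPoly]

theorem h1_line [DecidableEq M] {x₁ y₁ x₂ y₂ : M}
    (h₁ : (WeierstrassCurve.Affine.baseChange E.W M).Nonsingular x₁ y₁)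
    (h₂ : (WeierstrassCurve.Affine.baseChange E.W M).Nonsingular x₂ y₂)
    (hxy : ¬(x₁ = x₂ ∧ y₁ = (WeierstrassCurve.Affine.baseChange E.W M).negY x₂ y₂)) :
    ∃ l x₃ y₃ : M, (∃ h₃ : (WeierstrassCurve.Affine.baseChange E.W M).Nonsingular x₃ y₃,
      (WeierstrassCurve.Affine.Point.some x₁ y₁ h₁ : E.Pt M) +
        WeierstrassCurve.Affine.Point.some x₂ y₂ h₂ =
        WeierstrassCurve.Affine.Point.some x₃ y₃ h₃) ∧
      (∀ T : M, E.val T - (l * (T - x₁) + y₁) ^ 2 = (T - x₁) * (T - x₂) * (T - x₃)) ∧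
      (∀ T : M, E.der T - 2 * l * (l * (T - x₁) + y₁) =
        3 * T ^ 2 - 2 * (x₁ + x₂ + x₃) * T + (x₁ * x₂ + x₁ * x₃ + x₂ * x₃)) := by
  obtain ⟨l, hl⟩ : ∃ l, l = (WeierstrassCurve.Affine.baseChange E.W M).slope x₁ x₂ y₁ y₂ := ⟨_, rfl⟩
  obtain ⟨x₃, hx₃⟩ : ∃ x₃, x₃ = (WeierstrassCurve.Affine.baseChange E.W M).addX x₁ x₂
    ((WeierstrassCurve.Affine.baseChange E.W M).slope x₁ x₂ y₁ y₂) := ⟨_, rfl⟩
  have key := WeierstrassCurve.Affine.addPolynomial_slope h₁.1 h₂.1 hxy
  rw [WeierstrassCurve.Affine.addPolynomial_eq, ← hl, neg_inj, Cubic.prod_X_sub_C_eq,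
    Cubic.toPoly_injective, hl, ← hx₃, ← hl] at key
  have ha1 : (WeierstrassCurve.Affine.baseChange E.W M).a₁ = 0 := by simp [W]
  have ha2 : (WeierstrassCurve.Affine.baseChange E.W M).a₂ = (E.a : M) := by simp [W]
  have ha3 : (WeierstrassCurve.Affine.baseChange E.W M).a₃ = 0 := by simp [W]
  have ha4 : (WeierstrassCurve.Affine.baseChange E.W M).a₄ = (E.b : M) := by simp [W]
  have ha6 : (WeierstrassCurve.Affine.baseChange E.W M).a₆ = (E.c : M) := by simp [W]
  rw [ha1, ha2, ha3, ha4, ha6] at key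
  simp only [Cubic.mk.injEq, true_and] at key
  obtain ⟨k1, k2, k3⟩ := key
  refine ⟨l, x₃, (WeierstrassCurve.Affine.baseChange E.W M).addY x₁ x₂ y₁
    ((WeierstrassCurve.Affine.baseChange E.W M).slope x₁ x₂ y₁ y₂), ?_, fun T => ?_, fun T => ?_⟩
  · subst hx₃
    exact ⟨_, WeierstrassCurve.Affine.Point.add_some hxy⟩
  · unfold val
    linear_combination T ^ 2 * k1 + T * k2 + k3
  · unfold der
    linear_combination 2 * T * k1 + k2

theorem dl_add [DecidableEq M] (h2 : (2 : M) ≠ 0) (e : M) (he : E.val e = 0) (hd : E.der e ≠ 0)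
    (P Q : E.Pt M) : E.dl e (P + Q) = E.dl e P * E.dl e Q := by
  rcases P with _ | ⟨x₁, y₁, h₁⟩
  · change E.dl e (0 + Q) = E.dl e 0 * _
    rw [zero_add, dl_zero, one_mul]
  rcases Q with _ | ⟨x₂, y₂, h₂⟩
  · change E.dl e (_ + 0) = _ * E.dl e 0
    rw [add_zero, dl_zero, mul_one]
  by_cases hxy : x₁ = x₂ ∧ y₁ = (WeierstrassCurve.Affine.baseChange E.W M).negY x₂ y₂
  · rw [WeierstrassCurve.Affine.Point.add_of_Y_eq hxy.1 hxy.2, dl_zero, h1_dl_some, h1_dl_some,
      hxy.1, sqC_mul_self]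
  · obtain ⟨l, x₃, y₃, ⟨h₃, hsum⟩, hK, hD⟩ := E.h1_line h₁ h₂ hxy
    rw [hsum, h1_dl_some, h1_dl_some, h1_dl_some]
    have hKe := hK e
    have hDe := hD e
    rw [he] at hKe
    have hL : (x₁ = e ∨ x₂ = e ∨ x₃ = e) → l * (e - x₁) + y₁ = 0 := by
      rintro (rfl | rfl | rfl)
      · have : (l * (x₁ - x₁) + y₁) ^ 2 = 0 := by linear_combination -hKe
        exact pow_eq_zero_iff (two_ne_zero) |>.1 this
      · have : (l * (x₂ - x₁) + y₁) ^ 2 = 0 := by linear_combination -hKe
        exact pow_eq_zero_iff (two_ne_zero) |>.1 this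
      · have : (l * (x₃ - x₁) + y₁) ^ 2 = 0 := by linear_combination -hKe
        exact pow_eq_zero_iff (two_ne_zero) |>.1 this
    by_cases e1 : x₁ = e
    · have hL' := hL (Or.inl e1)
      have hder : E.der e = (x₂ - e) * (x₃ - e) := by
        rw [hL'] at hDe
        rw [e1] at hDe
        linear_combination hDe
      have hne := mul_ne_zero_iff.1 (hder ▸ hd)
      have e2 : x₂ ≠ e := fun h => hne.1 (by rw [h, sub_self])
      have e3 : x₃ ≠ e := fun h => hne.2 (by rw [h, sub_self])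
      rw [if_pos e1, if_neg e2, if_neg e3, ← cls_mul hd hne.1,
        cls_eq_cls_iff hne.2 (mul_ne_zero hd hne.1)]
      exact ⟨E.der e, by rw [hder]; ring⟩
    · have n1 : x₁ - e ≠ 0 := sub_ne_zero.2 e1
      by_cases e2 : x₂ = e
      · have hL' := hL (Or.inr (Or.inl e2))
        have hder : E.der e = (x₁ - e) * (x₃ - e) := by
          rw [hL'] at hDe
          rw [e2] at hDe
          linear_combination hDe
        have hne := mul_ne_zero_iff.1 (hder ▸ hd)
        have e3 : x₃ ≠ e := fun h => hne.2 (by rw [h, sub_self])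
        rw [if_neg e1, if_pos e2, if_neg e3, ← cls_mul hne.1 hd,
          cls_eq_cls_iff hne.2 (mul_ne_zero hne.1 hd)]
        exact ⟨E.der e, by rw [hder]; ring⟩
      · have n2 : x₂ - e ≠ 0 := sub_ne_zero.2 e2
        by_cases e3 : x₃ = e
        · have hL' := hL (Or.inr (Or.inr e3))
          have hder : E.der e = (x₁ - e) * (x₂ - e) := by
            rw [hL'] at hDe
            rw [e3] at hDe
            linear_combination hDe
          rw [if_neg e1, if_neg e2, if_pos e3, hder, cls_mul n1 n2]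
        · have n3 : x₃ - e ≠ 0 := sub_ne_zero.2 e3
          rw [if_neg e1, if_neg e2, if_neg e3, ← cls_mul n1 n2,
            cls_eq_cls_iff n3 (mul_ne_zero n1 n2)]
          exact ⟨l * (e - x₁) + y₁, by linear_combination hKe⟩

/-- compatibility with homomorphisms of fields -/
theorem dl_ptMap {L : Type*} [Field L] [DecidableEq M] [DecidableEq L] (φ : M →+* L) (e : M)
    (P : E.Pt M) : E.dl (φ e) (E.ptMap φ P) = sqMap φ (E.dl e P) := by
  rcases P with _ | ⟨x, y, h⟩
  · change (1 : SqC L) = sqMap φ 1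
    rw [map_one]
  · unfold ptMap
    rw [WeierstrassCurve.Affine.Point.map_some, h1_dl_some, h1_dl_some]
    have hx : (φ.toIntAlgHom : M → L) x = φ x := rfl
    rw [hx]
    by_cases hxe : x = e
    · rw [if_pos hxe, if_pos (congrArg φ hxe), sqMap_cls]
      congr 1
      have k3 : φ 3 = 3 := map_ofNat φ 3
      have k2 : φ 2 = 2 := map_ofNat φ 2
      simp [der, k2, k3]
    · rw [if_neg hxe, if_neg (fun h => hxe (φ.injective h)), sqMap_cls, map_sub]

/-- the discriminant in terms of the roots -/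
theorem disc_eq_of_roots {R : Type*} [CommRing R] [IsDomain R] {e₀ e₁ e₂ : R}
    (h : E.poly R = (X - C e₀) * (X - C e₁) * (X - C e₂)) :
    (E.disc : R) = ((e₀ - e₁) * (e₀ - e₂) * (e₁ - e₂)) ^ 2 := by
  rw [h1_coeffs, Cubic.prod_X_sub_C_eq, Cubic.toPoly_injective] at h
  simp only [Cubic.mk.injEq, true_and] at h
  obtain ⟨k1, k2, k3⟩ := h
  unfold disc
  push_cast
  rw [k1, k2, k3]
  ring

theorem der_eq_of_roots {R : Type*} [CommRing R] {e₀ e₁ e₂ : R}
    (h : E.poly R = (X - C e₀) * (X - C e₁) * (X - C e₂)) :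
    E.der e₀ = (e₀ - e₁) * (e₀ - e₂) ∧ E.der e₁ = (e₁ - e₀) * (e₁ - e₂) ∧
      E.der e₂ = (e₂ - e₀) * (e₂ - e₁) := by
  rw [h1_coeffs, Cubic.prod_X_sub_C_eq, Cubic.toPoly_injective] at h
  simp only [Cubic.mk.injEq, true_and] at h
  obtain ⟨k1, k2, k3⟩ := h
  unfold der
  rw [k1, k2]
  refine ⟨by ring, by ring, by ring⟩

/-- `disc = - f'(e) (...)`: if the discriminant is not zero then `f'(e) ≠ 0` at every root -/
theorem der_ne_zero {e : M} (he : E.val e = 0) (hd : ((E.disc : ℤ) : M) ≠ 0) : E.der e ≠ 0 := by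
  intro h0
  apply hd
  have hc : (E.c : M) = -(e ^ 3 + E.a * e ^ 2 + E.b * e) := by
    unfold val at he
    linear_combination he
  have hdisc : ((E.disc : ℤ) : M) =
      ((E.a + e) ^ 2 - 4 * (E.b + E.a * e + e ^ 2)) * (E.der e) ^ 2 := by
    unfold disc der
    push_cast
    rw [hc]
    ring
  rw [hdisc, h0]
  ring

theorem disc_twist (D : ℤ) : (E.twist D).disc = E.disc * D ^ 6 := by
  simp only [twist, disc]
  ring

end Cub
end H16A
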