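import Pool.Agent.Lib.H16A.H1

/-!
# H2 (M/L): the descent relation is local at the maximal ideals of `L[θ]`

`L` a field with `2 ≠ 0`, `disc f ≠ 0`, `A = L[θ] = L[X]/(f)`.  `f` is separable, so `A` is reduced and
is the product of the fields `A/𝔪` (Chinese remainder theorem).

(1) `isSquare_iff_local`, `exists_sq_iff_local`: for `u ∈ Aˣ`, `a ∈ A`: there is `z` with `u z² = a` iff
    this holds in every `A/𝔪` (choose `z` modulo every `𝔪`).
(2) `norm_of_root`: if `f = (X - e)(X² + pX + q)` over `L` and `u = α + βθ + γθ²`, then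
    `N(u) = (α + βe + γe²) · N_g(u)` where `N_g` is the norm of `L[X]/(X² + pX + q)`: explicitly with
    `α' = α - γq`, `β' = β - γp` (the residue of `u` mod `g` is `α' + β'X`):
    `N_g(u) = α'² - p α' β' + q β'²`.
(3) `rel_iff`: for `P = (x, y)` and a unit `u`: `Rel u P` iff in every field quotient `φ : A → M`
    the class of `φ(u)` is `dl (φ θ) (φ P)`.
    (⟸): `z` exists locally (`z = 0` if `x = φ θ`), so globally by (1).  Norm: if `y ≠ 0`,
    `N(u) N(z)² = N(x - θ) = f(x) = y²` with `N(z) ≠ 0`.  If `y = 0`, `x = e` is a root of `f` in `L`,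
    `f = (X - e) g`, and by (2) `N(u) = u(e) N_g(u)`, `N_g(u) N_g(z)² = N_g(e - θ) = g(e) = f'(e)`, while
    `u(e) ~ f'(e)`; so `N(u)` is a square.
    (⟹): if `x ≠ φ θ` clear.  If `x = φ θ`, then `M = L` (φ is `θ ↦ e = x`), `y = 0`, and
    `u(e) N_g(u) = □`, `N_g(u) N_g(z)² = f'(e)`, `N_g(z) ≠ 0`, hence `u(e) ~ f'(e)`.
    For `P = 0` this is (1).
-/

open Polynomial

namespace H16A
namespace Cub

universe v

variable (E : Cub) {L : Type v} [Field L]

theorem h2_separable (hd : ((E.disc : ℤ) : L) ≠ 0) : (E.poly L).Separable := by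
  have hder : derivative (E.poly L) = 3 * X ^ 2 + 2 * C (E.a : L) * X + C (E.b : L) := by
    simp only [poly, derivative_add, derivative_mul, derivative_X_pow, derivative_C, derivative_X]
    simp only [map_natCast]
    push_cast
    ring
  have hC : ∀ n : ℤ, (C (n : L) : L[X]) = (n : L[X]) := fun n => by simp
  have key : C ((E.disc : ℤ) : L) =
      ((18 * C (E.b : L) - 6 * C (E.a : L) ^ 2) * X +
        (15 * C (E.a : L) * C (E.b : L) - 4 * C (E.a : L) ^ 3 - 27 * C (E.c : L))) * E.poly L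
      + (-((6 * C (E.b : L) - 2 * C (E.a : L) ^ 2) * X ^ 2 +
        (7 * C (E.a : L) * C (E.b : L) - 2 * C (E.a : L) ^ 3 - 9 * C (E.c : L)) * X +
        (4 * C (E.b : L) ^ 2 - C (E.a : L) ^ 2 * C (E.b : L) - 3 * C (E.a : L) * C (E.c : L)))) *
        derivative (E.poly L) := by
    rw [hder]
    unfold poly disc
    simp only [hC]
    push_cast
    ring
  have h1 : (C (((E.disc : ℤ) : L)⁻¹) : L[X]) * C ((E.disc : ℤ) : L) = 1 := by
    rw [← C_mul, inv_mul_cancel₀ hd, C_1]
  refine ⟨C (((E.disc : ℤ) : L)⁻¹) * ((18 * C (E.b : L) - 6 * C (E.a : L) ^ 2) * X +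
        (15 * C (E.a : L) * C (E.b : L) - 4 * C (E.a : L) ^ 3 - 27 * C (E.c : L))),
    C (((E.disc : ℤ) : L)⁻¹) * (-((6 * C (E.b : L) - 2 * C (E.a : L) ^ 2) * X ^ 2 +
        (7 * C (E.a : L) * C (E.b : L) - 2 * C (E.a : L) ^ 3 - 9 * C (E.c : L)) * X +
        (4 * C (E.b : L) ^ 2 - C (E.a : L) ^ 2 * C (E.b : L) - 3 * C (E.a : L) * C (E.c : L)))), ?_⟩
  rw [← h1, key]
  ring

theorem h2_reduced (hd : ((E.disc : ℤ) : L) ≠ 0) : IsReduced (E.Alg L) := by
  have h1 : IsRadical (E.poly L) := (E.h2_separable hd).squarefree.isRadical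
  rw [isRadical_iff_span_singleton] at h1
  exact (Ideal.isRadical_iff_quotient_reduced _).1 h1

theorem h2_artinian : IsArtinianRing (E.Alg L) := by
  have : Module.Finite L (E.Alg L) := (E.poly_monic L).finite_adjoinRoot
  exact IsArtinianRing.of_finite L (E.Alg L)

theorem h2_crt (hd : ((E.disc : ℤ) : L) ≠ 0)
    (z : ∀ m : MaximalSpectrum (E.Alg L), E.Alg L ⧸ m.asIdeal) :
    ∃ z₀ : E.Alg L, ∀ m, Ideal.Quotient.mk m.asIdeal z₀ = z m := by
  have := E.h2_artinian (L := L)
  have := E.h2_reduced hd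
  obtain ⟨z₀, hz⟩ := (IsArtinianRing.equivPi (E.Alg L)).surjective z
  exact ⟨z₀, fun m => by rw [← hz]; rfl⟩

theorem h2_ext (hd : ((E.disc : ℤ) : L) ≠ 0) (x y : E.Alg L)
    (h : ∀ m : MaximalSpectrum (E.Alg L), Ideal.Quotient.mk m.asIdeal x =
      Ideal.Quotient.mk m.asIdeal y) : x = y := by
  have := E.h2_artinian (L := L)
  have := E.h2_reduced hd
  apply (IsArtinianRing.equivPi (E.Alg L)).injective
  funext m
  exact h m

theorem isSquare_iff_local (hd : ((E.disc : ℤ) : L) ≠ 0) (u : E.Alg L) :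
    IsSquare u ↔ ∀ (M : Type v) [Field M] (φ : E.Alg L →+* M), Function.Surjective φ →
      IsSquare (φ u) := by
  constructor
  · intro h M _ φ _
    exact h.map φ
  · intro h
    have h1 : ∀ m : MaximalSpectrum (E.Alg L), ∃ z : E.Alg L ⧸ m.asIdeal,
        Ideal.Quotient.mk m.asIdeal u = z * z := fun m => by
      have := m.isMaximal
      letI := Ideal.Quotient.field m.asIdeal
      obtain ⟨z, hz⟩ := h (E.Alg L ⧸ m.asIdeal) (Ideal.Quotient.mk m.asIdeal)
        Ideal.Quotient.mk_surjective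
      exact ⟨z, hz⟩
    choose z hz using h1
    obtain ⟨z₀, hz₀⟩ := E.h2_crt hd z
    refine ⟨z₀, E.h2_ext hd _ _ fun m => ?_⟩
    rw [hz m, map_mul, hz₀]

theorem exists_sq_iff_local (hd : ((E.disc : ℤ) : L) ≠ 0) (u : (E.Alg L)ˣ) (a : E.Alg L) :
    (∃ z, (u : E.Alg L) * z ^ 2 = a) ↔ ∀ (M : Type v) [Field M] (φ : E.Alg L →+* M),
      Function.Surjective φ → ∃ z, φ u * z ^ 2 = φ a := by
  constructor
  · rintro ⟨z, hz⟩ M _ φ _
    exact ⟨φ z, by rw [← map_pow, ← map_mul, hz]⟩
  · intro h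
    have h1 : ∀ m : MaximalSpectrum (E.Alg L), ∃ z : E.Alg L ⧸ m.asIdeal,
        Ideal.Quotient.mk m.asIdeal (u : E.Alg L) * z ^ 2 = Ideal.Quotient.mk m.asIdeal a := fun m => by
      have := m.isMaximal
      letI := Ideal.Quotient.field m.asIdeal
      obtain ⟨z, hz⟩ := h (E.Alg L ⧸ m.asIdeal) (Ideal.Quotient.mk m.asIdeal)
        Ideal.Quotient.mk_surjective
      exact ⟨z, hz⟩
    choose z hz using h1
    obtain ⟨z₀, hz₀⟩ := E.h2_crt hd z
    refine ⟨z₀, E.h2_ext hd _ _ fun m => ?_⟩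
    rw [map_mul, map_pow, hz₀, hz]

theorem h2_eval₂ {S : Type*} [CommRing S] (g : L →+* S) (t : S) :
    (E.poly L).eval₂ g t = t ^ 3 + g (E.a : L) * t ^ 2 + g (E.b : L) * t + g (E.c : L) := by
  simp only [poly, eval₂_add, eval₂_mul, eval₂_pow, eval₂_X, eval₂_C]

theorem h2_th_rel : E.th L ^ 3 + algebraMap L (E.Alg L) (E.a : L) * E.th L ^ 2 +
    algebraMap L (E.Alg L) (E.b : L) * E.th L + algebraMap L (E.Alg L) (E.c : L) = 0 := by
  have h : (E.poly L).eval₂ (algebraMap L (E.Alg L)) (E.th L) = 0 := AdjoinRoot.eval₂_root _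
  rw [h2_eval₂] at h
  exact h

theorem h2_natDegree : (E.poly L).natDegree = 3 := by
  unfold poly
  compute_degree!

/-- The basis `1, θ, θ²`. -/
theorem h2_basis : ∃ b : Module.Basis (Fin 3) L (E.Alg L), ∀ i : Fin 3, b i = E.th L ^ (i : ℕ) := by
  let pb := AdjoinRoot.powerBasis' (E.poly_monic L)
  have hdim : pb.dim = 3 := E.h2_natDegree
  refine ⟨pb.basis.reindex (finCongr hdim), fun i => ?_⟩
  rw [Module.Basis.reindex_apply, pb.basis_eq_pow]
  rfl

/-- explicit norm -/
theorem norm_eq (α β γ : L) :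
    Algebra.norm L (algebraMap L (E.Alg L) α + algebraMap L (E.Alg L) β * E.th L +
      algebraMap L (E.Alg L) γ * E.th L ^ 2) =
    α ^ 3 - α ^ 2 * β * E.a + α ^ 2 * γ * (E.a ^ 2 - 2 * E.b) + α * β ^ 2 * E.b
      + α * β * γ * (3 * E.c - E.a * E.b) + α * γ ^ 2 * (E.b ^ 2 - 2 * E.a * E.c)
      - β ^ 3 * E.c + β ^ 2 * γ * E.a * E.c - β * γ ^ 2 * E.b * E.c + γ ^ 3 * E.c ^ 2 := by
  obtain ⟨b, hb⟩ := E.h2_basis (L := L)
  have hrel := E.h2_th_rel (L := L)
  obtain ⟨g, hg⟩ : ∃ g : L →+* E.Alg L, g = algebraMap L (E.Alg L) := ⟨_, rfl⟩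
  have hs : ∀ (r : L) (a : E.Alg L), r • a = g r * a := fun r a => by rw [hg, Algebra.smul_def]
  rw [← hg] at hrel ⊢
  have hM : Algebra.leftMulMatrix b (g α + g β * E.th L + g γ * E.th L ^ 2) =
      !![α, -(γ * E.c), -((β - γ * E.a) * E.c);
        β, α - γ * E.b, -(γ * E.c) - (β - γ * E.a) * E.b;
        γ, β - γ * E.a, α - γ * E.b - (β - γ * E.a) * E.a] := by
    ext i j
    rw [Algebra.leftMulMatrix_eq_repr_mul]
    have hj : (g α + g β * E.th L + g γ * E.th L ^ 2) * b j = ∑ k,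
        (!![α, -(γ * E.c), -((β - γ * E.a) * E.c);
        β, α - γ * E.b, -(γ * E.c) - (β - γ * E.a) * E.b;
        γ, β - γ * E.a, α - γ * E.b - (β - γ * E.a) * E.a] : Matrix (Fin 3) (Fin 3) L) k j • b k := by
      rw [Fin.sum_univ_three, hb, hb, hb, hb]
      simp only [hs]
      simp only [map_intCast] at hrel
      fin_cases j
      · simp
      · simp
        linear_combination g γ * hrel
      · simp
        linear_combination (g γ * E.th L + g β - g γ * (E.a : E.Alg L)) * hrel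
    rw [hj, Module.Basis.repr_sum_self]
  rw [Algebra.norm_eq_matrix_det b, hM, Matrix.det_fin_three]
  simp
  ring

theorem exists_coords (u : E.Alg L) : ∃ α β γ : L,
    u = algebraMap L (E.Alg L) α + algebraMap L (E.Alg L) β * E.th L +
      algebraMap L (E.Alg L) γ * E.th L ^ 2 := by
  obtain ⟨b, hb⟩ := E.h2_basis (L := L)
  refine ⟨b.repr u 0, b.repr u 1, b.repr u 2, ?_⟩
  have h := b.sum_repr u
  rw [Fin.sum_univ_three, hb, hb, hb] at h
  simpa [Algebra.smul_def] using h.symm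

theorem norm_sub_th (x : L) :
    Algebra.norm L (algebraMap L (E.Alg L) x - E.th L) = E.val x := by
  have h := E.norm_eq x (-1) 0
  have h1 : algebraMap L (E.Alg L) x + algebraMap L (E.Alg L) (-1) * E.th L +
      algebraMap L (E.Alg L) 0 * E.th L ^ 2 = algebraMap L (E.Alg L) x - E.th L := by
    simp
    ring
  rw [h1] at h
  rw [h]
  unfold val
  ring

open Classical in
theorem h2_dl_map {M : Type*} [Field M] [DecidableEq M] [DecidableEq L] (φ : E.Alg L →+* M)
    (x y : L) (h : (WeierstrassCurve.Affine.baseChange E.W L).Nonsingular x y) :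
    E.dl (φ (E.th L)) (E.ptMap (φ.comp (algebraMap L (E.Alg L)))
      (WeierstrassCurve.Affine.Point.some x y h : E.Pt L)) =
      if φ (algebraMap L (E.Alg L) x) = φ (E.th L) then cls (E.der (φ (E.th L)))
      else cls (φ (algebraMap L (E.Alg L) x) - φ (E.th L)) := by
  unfold ptMap
  rw [WeierstrassCurve.Affine.Point.map_some, h1_dl_some]
  have hx : (φ.comp (algebraMap L (E.Alg L))).toIntAlgHom x = φ (algebraMap L (E.Alg L) x) := rfl
  rw [hx]
  split_ifs <;> rfl

theorem h2_quad_sq (p q : L) : ((⟨0, 1⟩ : QuadraticAlgebra L (-q) (-p)) * ⟨0, 1⟩) = ⟨-q, -p⟩ := by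
  rw [QuadraticAlgebra.mk_mul_mk]
  congr 1 <;> ring

theorem h2_quad_mk {p q : L} (α β γ : L) :
    algebraMap L (QuadraticAlgebra L (-q) (-p)) α +
      algebraMap L (QuadraticAlgebra L (-q) (-p)) β * ⟨0, 1⟩ +
      algebraMap L (QuadraticAlgebra L (-q) (-p)) γ * ⟨-q, -p⟩ = ⟨α - γ * q, β - γ * p⟩ := by
  simp only [← QuadraticAlgebra.C_eq_algebraMap]
  ext
  · simp only [QuadraticAlgebra.re_add, QuadraticAlgebra.re_mul, QuadraticAlgebra.re_C,
      QuadraticAlgebra.im_C]
    ring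
  · simp only [QuadraticAlgebra.im_add, QuadraticAlgebra.im_mul, QuadraticAlgebra.re_C,
      QuadraticAlgebra.im_C]
    ring

/-- If `e` is a root of `f`, the norm factors. -/
theorem h2_norm_factor {e : L} (he : E.val e = 0) :
    ∃ n : E.Alg L →* L, (∀ u : E.Alg L, Algebra.norm L u = E.evAt (RingHom.id L) e he u * n u) ∧
      n (algebraMap L (E.Alg L) e - E.th L) = E.der e := by
  obtain ⟨p, hp⟩ : ∃ p, p = (E.a : L) + e := ⟨_, rfl⟩
  obtain ⟨q, hq⟩ : ∃ q, q = (E.b : L) + e * p := ⟨_, rfl⟩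
  have hc : (E.c : L) = -(e * q) := by
    rw [hq, hp]
    unfold val at he
    linear_combination he
  have hb : (E.b : L) = q - e * p := by rw [hq]; ring
  have ha : (E.a : L) = p - e := by rw [hp]; ring
  have hroot : (E.poly L).eval₂ (algebraMap L (QuadraticAlgebra L (-q) (-p))) ⟨0, 1⟩ = 0 := by
    have h3 : (⟨0, 1⟩ : QuadraticAlgebra L (-q) (-p)) ^ 3 = ⟨p * q, p ^ 2 - q⟩ := by
      rw [pow_succ, pow_two, h2_quad_sq, QuadraticAlgebra.mk_mul_mk]
      congr 1 <;> ring
    rw [h2_eval₂, h3, pow_two (⟨0, 1⟩ : QuadraticAlgebra L (-q) (-p)), h2_quad_sq, ha, hb, hc]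
    simp only [← QuadraticAlgebra.C_eq_algebraMap]
    ext
    · simp only [QuadraticAlgebra.re_add, QuadraticAlgebra.re_mul, QuadraticAlgebra.re_C,
        QuadraticAlgebra.im_C, QuadraticAlgebra.re_zero]
      ring
    · simp only [QuadraticAlgebra.im_add, QuadraticAlgebra.im_mul, QuadraticAlgebra.re_C,
        QuadraticAlgebra.im_C, QuadraticAlgebra.im_zero]
      ring
  obtain ⟨ψ, hψa, hψt⟩ : ∃ ψ : E.Alg L →+* QuadraticAlgebra L (-q) (-p),
      (∀ x : L, ψ (algebraMap L (E.Alg L) x) = algebraMap L _ x) ∧ ψ (E.th L) = ⟨0, 1⟩ :=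
    ⟨AdjoinRoot.lift _ _ hroot, fun x => AdjoinRoot.lift_of hroot, AdjoinRoot.lift_root hroot⟩
  have hea : ∀ x : L, E.evAt (RingHom.id L) e he (algebraMap L (E.Alg L) x) = x := fun x =>
    AdjoinRoot.lift_of _
  have het : E.evAt (RingHom.id L) e he (E.th L) = e := AdjoinRoot.lift_root _
  refine ⟨(QuadraticAlgebra.norm : QuadraticAlgebra L (-q) (-p) →* L).comp (ψ : E.Alg L →* _),
    fun u => ?_, ?_⟩
  · obtain ⟨α, β, γ, rfl⟩ := E.exists_coords u
    rw [norm_eq]
    simp only [map_add, map_mul, map_pow, hea, het, MonoidHom.comp_apply, MonoidHom.coe_coe, hψa, hψt]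
    rw [pow_two (⟨0, 1⟩ : QuadraticAlgebra L (-q) (-p)), h2_quad_sq, h2_quad_mk,
      QuadraticAlgebra.norm_def, ha, hb, hc]
    ring
  · have h1 : ψ (algebraMap L (E.Alg L) e - E.th L) = ⟨e - 0 * q, -1 - 0 * p⟩ := by
      rw [map_sub, hψa, hψt, ← h2_quad_mk]
      simp only [map_neg, map_one, map_zero, zero_mul, add_zero]
      ring
    simp only [MonoidHom.comp_apply, MonoidHom.coe_coe, h1]
    rw [QuadraticAlgebra.norm_def]
    unfold der
    rw [ha, hb]
    ring

theorem h2_map_der {M : Type*} [Field M] (g : L →+* M) (x : L) : g (E.der x) = E.der (g x) := by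
  simp only [der, map_add, map_mul, map_pow, map_intCast, map_ofNat]

theorem h2_cls_of_sq {M : Type*} [Field M] {u a z : M} (hu : u ≠ 0) (ha : a ≠ 0)
    (h : u * z ^ 2 = a) : cls u = cls a := by
  rw [cls_eq_cls_iff hu ha]
  exact ⟨u * z, by rw [← h]; ring⟩

theorem h2_sq_of_cls {M : Type*} [Field M] {u a : M} (hu : u ≠ 0) (ha : a ≠ 0)
    (h : cls u = cls a) : ∃ z, u * z ^ 2 = a := by
  rw [cls_eq_cls_iff hu ha] at h
  obtain ⟨s, hs⟩ := h
  refine ⟨s / u, ?_⟩
  field_simp
  linear_combination -hs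

theorem rel_iff [DecidableEq L] (h2 : (2 : L) ≠ 0) (hd : ((E.disc : ℤ) : L) ≠ 0)
    (u : (E.Alg L)ˣ) (P : E.Pt L) :
    E.Rel L u P ↔ ∀ (M : Type v) [Field M] [DecidableEq M] (φ : E.Alg L →+* M),
      Function.Surjective φ →
      cls (φ u) = E.dl (φ (E.th L)) (E.ptMap (φ.comp (algebraMap L (E.Alg L))) P) := by
  classical
  rcases P with _ | ⟨x, y, h⟩
  · have h0 : ∀ (M : Type v) [Field M] [DecidableEq M] (φ : E.Alg L →+* M),
        (cls (φ u) = E.dl (φ (E.th L)) (E.ptMap (φ.comp (algebraMap L (E.Alg L)))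
          (WeierstrassCurve.Affine.Point.zero : E.Pt L)) ↔ IsSquare (φ u)) := by
      intro M _ _ φ
      have : E.dl (φ (E.th L)) (E.ptMap (φ.comp (algebraMap L (E.Alg L)))
          (WeierstrassCurve.Affine.Point.zero : E.Pt L)) = 1 := rfl
      rw [this]
      exact cls_eq_one_iff (u.isUnit.map φ).ne_zero
    change IsSquare (u : E.Alg L) ↔ _
    rw [E.isSquare_iff_local hd]
    constructor
    · intro hh M _ _ φ hφ
      exact (h0 M φ).2 (hh M φ hφ)
    · intro hh M _ φ hφ
      exact (h0 M φ).1 (hh M φ hφ)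
  · have hy2 : y ^ 2 = E.val x := by
      have := (WeierstrassCurve.Affine.equation_iff x y).1 h.1
      unfold val
      simp [W] at this
      linear_combination this
    have hval : ∀ {M : Type v} [Field M] (φ : E.Alg L →+* M), E.val (φ (E.th L)) = 0 := by
      intro M _ φ
      have h3 := congrArg φ (E.h2_th_rel (L := L))
      unfold val
      simpa using h3
    change (IsSquare (Algebra.norm L (u : E.Alg L)) ∧
      ∃ z : E.Alg L, (u : E.Alg L) * z ^ 2 = algebraMap L (E.Alg L) x - E.th L) ↔ _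
    have hu0 : ∀ {M : Type v} [Field M] (φ : E.Alg L →+* M), φ u ≠ 0 := fun φ =>
      (u.isUnit.map φ).ne_zero
    have hNu : Algebra.norm L (u : E.Alg L) ≠ 0 := (u.isUnit.map (Algebra.norm L)).ne_zero
    constructor
    · rintro ⟨hN, z, hz⟩ M _ _ φ hφ
      rw [h2_dl_map]
      have hzφ : φ u * φ z ^ 2 = φ (algebraMap L (E.Alg L) x) - φ (E.th L) := by
        rw [← map_pow, ← map_mul, hz, map_sub]
      by_cases hx : φ (algebraMap L (E.Alg L) x) = φ (E.th L)
      · rw [if_pos hx]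
        have hxroot : E.val x = 0 := by
          apply (φ.comp (algebraMap L (E.Alg L))).injective
          have h4 : (φ.comp (algebraMap L (E.Alg L))) (E.val x) =
              E.val (φ (algebraMap L (E.Alg L) x)) := by simp [val]
          rw [h4, hx, hval φ, map_zero]
        obtain ⟨n, hn1, hn2⟩ := E.h2_norm_factor hxroot
        have hn3 : n u * n z ^ 2 = E.der x := by
          rw [← hn2, ← map_pow, ← map_mul, hz]
        have hder : E.der x ≠ 0 := E.der_ne_zero hxroot hd
        have hnu : n u ≠ 0 := by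
          intro h5
          rw [h5, zero_mul] at hn3
          exact hder hn3.symm
        have hue : E.evAt (RingHom.id L) x hxroot u ≠ 0 := (u.isUnit.map _).ne_zero
        have hcls : cls (E.evAt (RingHom.id L) x hxroot u) = cls (E.der x) := by
          rw [← h2_cls_of_sq hnu hder hn3, cls_eq_cls_iff hue hnu, ← hn1]
          exact hN
        -- transport by `φ`
        have hφev : ∀ a : E.Alg L, φ a = φ (algebraMap L (E.Alg L)
            (E.evAt (RingHom.id L) x hxroot a)) := by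
          intro a
          obtain ⟨α, β, γ, rfl⟩ := E.exists_coords a
          have hea : ∀ t : L, E.evAt (RingHom.id L) x hxroot (algebraMap L (E.Alg L) t) = t := fun t =>
            AdjoinRoot.lift_of _
          have het : E.evAt (RingHom.id L) x hxroot (E.th L) = x := AdjoinRoot.lift_root _
          simp only [map_add, map_mul, map_pow, hea, het, hx]
        have h6 := congrArg (sqMap (φ.comp (algebraMap L (E.Alg L)))) hcls
        rw [sqMap_cls, sqMap_cls, RingHom.comp_apply, ← hφev] at h6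
        rw [h6, E.h2_map_der, RingHom.comp_apply, hx]
      · rw [if_neg hx]
        exact h2_cls_of_sq (hu0 φ) (sub_ne_zero.2 hx) hzφ
    · intro hloc
      have hz : ∃ z : E.Alg L, (u : E.Alg L) * z ^ 2 = algebraMap L (E.Alg L) x - E.th L := by
        rw [E.exists_sq_iff_local hd]
        intro M _ φ hφ
        have h7 := hloc M φ hφ
        rw [h2_dl_map] at h7
        rw [map_sub]
        by_cases hx : φ (algebraMap L (E.Alg L) x) = φ (E.th L)
        · exact ⟨0, by rw [hx]; ring⟩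
        · rw [if_neg hx] at h7
          exact h2_sq_of_cls (hu0 φ) (sub_ne_zero.2 hx) h7
      refine ⟨?_, hz⟩
      obtain ⟨z, hz⟩ := hz
      by_cases hy : y = 0
      · have hxroot : E.val x = 0 := by rw [← hy2, hy]; ring
        obtain ⟨n, hn1, hn2⟩ := E.h2_norm_factor hxroot
        have hn3 : n u * n z ^ 2 = E.der x := by
          rw [← hn2, ← map_pow, ← map_mul, hz]
        have hder : E.der x ≠ 0 := E.der_ne_zero hxroot hd
        have hnu : n u ≠ 0 := by
          intro h5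
          rw [h5, zero_mul] at hn3
          exact hder hn3.symm
        have hue : E.evAt (RingHom.id L) x hxroot u ≠ 0 := (u.isUnit.map _).ne_zero
        have hea : ∀ t : L, E.evAt (RingHom.id L) x hxroot (algebraMap L (E.Alg L) t) = t := fun t =>
          AdjoinRoot.lift_of _
        have het : E.evAt (RingHom.id L) x hxroot (E.th L) = x := AdjoinRoot.lift_root _
        have h8 := hloc L (E.evAt (RingHom.id L) x hxroot) fun t => ⟨_, hea t⟩
        rw [h2_dl_map, hea, het, if_pos rfl] at h8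
        rw [hn1, ← cls_eq_cls_iff hue hnu, h8, h2_cls_of_sq hnu hder hn3]
      · have h9 : Algebra.norm L (u : E.Alg L) * Algebra.norm L z ^ 2 = y ^ 2 := by
          rw [hy2, ← E.norm_sub_th x, ← map_pow, ← map_mul, hz]
        have hy' : y ^ 2 ≠ 0 := pow_ne_zero 2 hy
        rw [← cls_eq_one_iff hNu, h2_cls_of_sq hNu hy' h9, cls_eq_one_iff hy']
        exact ⟨y, by ring⟩

end Cub
end H16A
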