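import Pool.Agent.Lib.H16A.H2

/-!
# H3 (M): the descent relation is a homomorphism `E(L) → (L[θ])ˣ / squares`

All statements follow quickly from `rel_iff` (H2), `dl_add`, `dl_neg`, `dl_ptMap` (H1), and the local
criterion `isSquare_iff_local`.
* `rel_add`: multiply the local classes.
* `exists_rel`: if `y ≠ 0` take `u = x - θ` (a unit, because its norm `f(x) = y²` is not `0`).  If
  `y = 0`, then `x = e` is a root, `f = (X - e) g`, take `u = e - θ + g(θ)`,
  `g = X² + (a + e) X + (b + (a + e) e)`: locally, at `θ ↦ e` it is `g(e) = f'(e)`, at the other fields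
  `g(θ) = 0` and it is `e - θ`.
* `rel_unique`: `Rel (u v⁻¹) (P - P) `, or locally: the classes of `u` and `v` coincide.
* `mem_imSub_iff`: the set of all `u` with `∃ P, Rel u P` is already a subgroup.
-/

open Polynomial

namespace H16A
namespace Cub

variable (E : Cub) {L : Type*} [Field L] [DecidableEq L]

omit [DecidableEq L] in
theorem H3_eval {S : Type*} [CommRing S] (i : L →+* S) (x : S) :
    (E.poly L).eval₂ i x = E.val x := by
  simp only [poly, val, eval₂_add, eval₂_mul, eval₂_pow, eval₂_X, eval₂_C]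
  simp only [map_intCast]

omit [DecidableEq L] in
theorem H3_val_th : E.val (E.th L) = 0 := by
  rw [← H3_eval E (AdjoinRoot.of (E.poly L))]
  exact AdjoinRoot.eval₂_root (E.poly L)

omit [DecidableEq L] in
theorem H3_eqn {x y : L} (h : (WeierstrassCurve.Affine.baseChange E.W L).Nonsingular x y) :
    y ^ 2 = E.val x := by
  have h1 := (WeierstrassCurve.Affine.equation_iff x y).1 h.1
  simp [WeierstrassCurve.Affine.baseChange, W] at h1
  unfold val
  linear_combination h1

theorem H3_dl_pos {M : Type*} [Field M] [DecidableEq M] (ψ : L →+* M) {x y : L}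
    (h : (WeierstrassCurve.Affine.baseChange E.W L).Nonsingular x y) (t : M) (ht : ψ x = t) :
    E.dl t (E.ptMap ψ (WeierstrassCurve.Affine.Point.some x y h)) = cls (E.der t) :=
  if_pos ht

theorem H3_dl_neg {M : Type*} [Field M] [DecidableEq M] (ψ : L →+* M) {x y : L}
    (h : (WeierstrassCurve.Affine.baseChange E.W L).Nonsingular x y) (t : M) (ht : ψ x ≠ t) :
    E.dl t (E.ptMap ψ (WeierstrassCurve.Affine.Point.some x y h)) = cls (ψ x - t) :=
  if_neg ht

omit [DecidableEq L] in
theorem H3_val_map {M : Type*} [Field M] (φ : E.Alg L →+* M) : E.val (φ (E.th L)) = 0 := by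
  have h := congrArg φ (H3_val_th E (L := L))
  simpa [val] using h

omit [DecidableEq L] in
theorem H3_two {M : Type*} [Field M] (φ : E.Alg L →+* M) (h2 : (2 : L) ≠ 0) : (2 : M) ≠ 0 := by
  have h := (map_ne_zero (φ.comp (algebraMap L (E.Alg L)))).2 h2
  rwa [map_ofNat] at h

omit [DecidableEq L] in
theorem H3_disc {M : Type*} [Field M] (φ : E.Alg L →+* M) (hd : ((E.disc : ℤ) : L) ≠ 0) :
    ((E.disc : ℤ) : M) ≠ 0 := by
  have h := (map_ne_zero (φ.comp (algebraMap L (E.Alg L)))).2 hd
  rwa [map_intCast] at h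

omit [DecidableEq L] in
theorem H3_unit_ne {M : Type*} [Field M] (φ : E.Alg L →+* M) (u : (E.Alg L)ˣ) :
    φ (u : E.Alg L) ≠ 0 := (u.isUnit.map φ).ne_zero

omit [DecidableEq L] in
theorem H3_isUnit {A : Type*} [CommRing A] (a : A)
    (h : ∀ (m : Ideal A), m.IsMaximal → a ∉ m) : IsUnit a := by
  by_contra hu
  obtain ⟨m, hm, ham⟩ := exists_max_ideal_of_mem_nonunits hu
  exact h m hm ham

theorem rel_add (h2 : (2 : L) ≠ 0) (hd : ((E.disc : ℤ) : L) ≠ 0) {u v : (E.Alg L)ˣ} {P Q : E.Pt L}
    (hu : E.Rel L u P) (hv : E.Rel L v Q) : E.Rel L (u * v) (P + Q) := by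
  rw [rel_iff E h2 hd] at hu hv ⊢
  intro M _ _ φ hφ
  have h2' := H3_two E φ h2
  have hd' := H3_disc E φ hd
  have hv' := H3_val_map E φ
  rw [Units.val_mul, map_mul, cls_mul (H3_unit_ne E φ u) (H3_unit_ne E φ v), hu M φ hφ, hv M φ hφ,
    map_add, dl_add E h2' _ hv' (der_ne_zero E hv' hd')]

theorem rel_zero_iff (u : (E.Alg L)ˣ) : E.Rel L u 0 ↔ u ∈ sqSub (E.Alg L) := by
  rw [mem_sqSub_iff]
  exact Iff.rfl

theorem rel_neg (h2 : (2 : L) ≠ 0) (hd : ((E.disc : ℤ) : L) ≠ 0) {u : (E.Alg L)ˣ} {P : E.Pt L}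
    (hu : E.Rel L u P) : E.Rel L u⁻¹ (-P) := by
  rw [rel_iff E h2 hd] at hu ⊢
  intro M _ _ φ hφ
  rw [map_neg, dl_neg, ← hu M φ hφ]
  have h1 : φ ((u⁻¹ : (E.Alg L)ˣ) : E.Alg L) * φ (u : E.Alg L) = 1 := by
    rw [← map_mul, Units.inv_mul, map_one]
  rw [cls_eq_cls_iff (H3_unit_ne E φ _) (H3_unit_ne E φ _), h1]
  exact IsSquare.one

theorem exists_rel (h2 : (2 : L) ≠ 0) (hd : ((E.disc : ℤ) : L) ≠ 0) (P : E.Pt L) :
    ∃ u, E.Rel L u P := by
  match P with
  | .zero => exact ⟨1, (rel_zero_iff E 1).2 (one_mem _)⟩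
  | .some x y h =>
    classical
    have heq := H3_eqn E h
    by_cases hy : y = 0
    · have hx : E.val x = 0 := by rw [← heq, hy]; ring
      set gx : E.Alg L := E.th L ^ 2 + algebraMap L (E.Alg L) (E.a + x) * E.th L +
        algebraMap L (E.Alg L) (E.b + (E.a + x) * x) with hgx
      have hloc : ∀ (M : Type _) [Field M] (φ : E.Alg L →+* M),
          (φ (algebraMap L (E.Alg L) x) = φ (E.th L) →
            φ (algebraMap L (E.Alg L) x - E.th L + gx) = E.der (φ (E.th L)) ∧
            E.der (φ (E.th L)) ≠ 0) ∧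
          (φ (algebraMap L (E.Alg L) x) ≠ φ (E.th L) →
            φ (algebraMap L (E.Alg L) x - E.th L + gx) =
              φ (algebraMap L (E.Alg L) x) - φ (E.th L)) := by
        intro M _ φ
        have hval := H3_val_map E φ
        have hd' := H3_disc E φ hd
        have hx' : E.val (φ (algebraMap L (E.Alg L) x)) = 0 := by
          have := congrArg (φ.comp (algebraMap L (E.Alg L))) hx
          simpa [val] using this
        have hg : φ gx = φ (E.th L) ^ 2 + (E.a + φ (algebraMap L (E.Alg L) x)) * φ (E.th L) +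
            (E.b + (E.a + φ (algebraMap L (E.Alg L) x)) * φ (algebraMap L (E.Alg L) x)) := by
          rw [hgx]
          simp only [map_add, map_mul, map_pow, map_intCast]
        constructor
        · intro ht
          refine ⟨?_, der_ne_zero E hval hd'⟩
          rw [map_add, map_sub, hg, ht]
          unfold der
          ring
        · intro ht
          have h3 : (φ (algebraMap L (E.Alg L) x) - φ (E.th L)) * φ gx = 0 := by
            rw [hg]
            unfold val at hx' hval
            linear_combination hx' - hval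
          have h4 : φ gx = 0 := (mul_eq_zero.1 h3).resolve_left (sub_ne_zero.2 ht)
          rw [map_add, map_sub, h4, add_zero]
      have hunit : IsUnit (algebraMap L (E.Alg L) x - E.th L + gx) := by
        refine H3_isUnit _ fun m hm hmem => ?_
        let _ : Field (E.Alg L ⧸ m) := Ideal.Quotient.field m
        have h5 := hloc (E.Alg L ⧸ m) (Ideal.Quotient.mk m)
        have h6 : Ideal.Quotient.mk m (algebraMap L (E.Alg L) x - E.th L + gx) = 0 :=
          Ideal.Quotient.eq_zero_iff_mem.2 hmem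
        by_cases ht : Ideal.Quotient.mk m (algebraMap L (E.Alg L) x) =
            Ideal.Quotient.mk m (E.th L)
        · have h7 := h5.1 ht
          rw [h6] at h7
          exact h7.2 h7.1.symm
        · have h7 := h5.2 ht
          rw [h6] at h7
          exact ht (sub_eq_zero.1 h7.symm)
      refine ⟨hunit.unit, (rel_iff E h2 hd _ _).2 ?_⟩
      intro M _ _ φ hφ
      rw [IsUnit.unit_spec]
      by_cases ht : φ (algebraMap L (E.Alg L) x) = φ (E.th L)
      · rw [((hloc M φ).1 ht).1, H3_dl_pos E _ h _ ht]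
      · rw [(hloc M φ).2 ht, H3_dl_neg E _ h _ ht]
        rfl
    · have hne : ∀ (M : Type _) [Field M] (φ : E.Alg L →+* M),
          φ (algebraMap L (E.Alg L) x) ≠ φ (E.th L) := by
        intro M _ φ ht
        have hval := H3_val_map E φ
        rw [← ht] at hval
        have h3 : (φ.comp (algebraMap L (E.Alg L))) (y ^ 2) = 0 := by
          rw [heq]
          rw [← hval]
          simp [val]
        rw [map_eq_zero] at h3
        exact hy (pow_eq_zero_iff (two_ne_zero) |>.1 h3)
      have hunit : IsUnit (algebraMap L (E.Alg L) x - E.th L) := by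
        refine H3_isUnit _ fun m hm hmem => ?_
        let _ : Field (E.Alg L ⧸ m) := Ideal.Quotient.field m
        have h6 : Ideal.Quotient.mk m (algebraMap L (E.Alg L) x - E.th L) = 0 :=
          Ideal.Quotient.eq_zero_iff_mem.2 hmem
        rw [map_sub] at h6
        exact hne _ (Ideal.Quotient.mk m) (sub_eq_zero.1 h6)
      refine ⟨hunit.unit, (rel_iff E h2 hd _ _).2 ?_⟩
      intro M _ _ φ hφ
      rw [IsUnit.unit_spec, H3_dl_neg E _ h _ (hne M φ), map_sub]
      rfl

theorem rel_unique (h2 : (2 : L) ≠ 0) (hd : ((E.disc : ℤ) : L) ≠ 0) {u v : (E.Alg L)ˣ} {P : E.Pt L}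
    (hu : E.Rel L u P) (hv : E.Rel L v P) : u / v ∈ sqSub (E.Alg L) := by
  rw [← rel_zero_iff, div_eq_mul_inv, ← add_neg_cancel P]
  exact rel_add E h2 hd hu (rel_neg E h2 hd hv)

theorem rel_mul_sq (h2 : (2 : L) ≠ 0) (hd : ((E.disc : ℤ) : L) ≠ 0) {u s : (E.Alg L)ˣ} {P : E.Pt L}
    (hu : E.Rel L u P) (hs : s ∈ sqSub (E.Alg L)) : E.Rel L (u * s) P := by
  have h := rel_add E h2 hd hu ((rel_zero_iff E s).2 hs)
  rwa [add_zero] at h

omit [DecidableEq L] in
theorem mem_imSub_iff (h2 : (2 : L) ≠ 0) (hd : ((E.disc : ℤ) : L) ≠ 0) (u : (E.Alg L)ˣ) :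
    u ∈ E.imSub L ↔ ∃ P, E.Rel L u P := by
  classical
  constructor
  · intro h
    refine Subgroup.closure_induction (p := fun u _ => ∃ P, E.Rel L u P) ?_ ?_ ?_ ?_ h
    · exact fun _ hx => hx
    · exact ⟨0, (rel_zero_iff E 1).2 (one_mem _)⟩
    · rintro a b _ _ ⟨P, hP⟩ ⟨Q, hQ⟩
      exact ⟨P + Q, rel_add E h2 hd hP hQ⟩
    · rintro a _ ⟨P, hP⟩
      exact ⟨-P, rel_neg E h2 hd hP⟩
  · exact fun h => Subgroup.subset_closure h

omit [DecidableEq L] in
theorem sqSub_le_imSub : sqSub (E.Alg L) ≤ E.imSub L := by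
  classical
  intro u hu
  exact Subgroup.subset_closure ⟨0, (rel_zero_iff E u).2 hu⟩

omit [DecidableEq L] in
theorem isSquare_norm_of_mem (h2 : (2 : L) ≠ 0) (hd : ((E.disc : ℤ) : L) ≠ 0) {u : (E.Alg L)ˣ}
    (hu : u ∈ E.imSub L) : IsSquare (Algebra.norm L (u : E.Alg L)) := by
  obtain ⟨P, hP⟩ := (mem_imSub_iff E h2 hd u).1 hu
  match P, hP with
  | .zero, hP =>
    obtain ⟨s, hs⟩ := hP
    exact ⟨Algebra.norm L s, by rw [hs, map_mul]⟩
  | .some x y h, hP => exact hP.1

end Cub
end H16A
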