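import Pool.Agent.Lib.H16A.Defs

/-!
# M1 (M): the addition-and-subtraction map on x-coordinates

Mathlib (`AlgebraicGeometry/EllipticCurve/Affine/AddSubMap.lean`) defines `addSubMap W` and
`Point.sym2x P Q = ![x(P)x(Q), x(P)+x(Q), 1]` (with the obvious modifications at the point `0`), but does
not prove that `addSubMap` maps `sym2x P Q` to a multiple of `sym2x (P + Q) (P - Q)`.
Proof for `y² = x³ + a x² + b x + c` by cases.
* `P = 0` or `Q = 0`: `sym2x 0 Q = ![x, 1, 0]`, `addSubMap = ![x², 2x, 1]`, `P ± Q = ± Q`.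
* `x(P) ≠ x(Q)`: `x(P ± Q) = ((y_P ∓ y_Q)/(x_P - x_Q))² - a - x_P - x_Q`; the sum and the product are
  rational functions of `x_P, x_Q` (use `y² = f(x)`), the factor is `(x_P - x_Q)²`.
* `x(P) = x(Q)`, so `Q = ± P`: one of `P ± Q` is `0` and the other is `2P`; `sym2x = ![x(2P), 1, 0]` if
  `2P ≠ 0` (`x(2P) = (f'(x)/(2y))² - a - 2x`, factor `4 f(x)`), `![1, 0, 0]` if `2P = 0`, i.e. `y = 0`
  (factor `f'(x)² ≠ 0`).
-/

open WeierstrassCurve

namespace H16A
namespace Cub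

section M1

variable {K : Type*} [Field K] [DecidableEq K] (W : WeierstrassCurve.Affine K)

omit [DecidableEq K] in
theorem M1_eval (s t u : K) :
    (fun i => (addSubMap W i).eval ![s, t, u]) =
      ![s ^ 2 - W.b₄ * s * u - W.b₆ * t * u - W.b₈ * u ^ 2,
        2 * t * s + W.b₂ * s * u + W.b₄ * t * u + W.b₆ * u ^ 2, t ^ 2 - 4 * s * u] := by
  funext i
  fin_cases i <;> simp [addSubMap]

variable {W} (ha1 : W.a₁ = 0) (ha3 : W.a₃ = 0)
include ha1 ha3

omit [DecidableEq K] in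
theorem M1_eval' (s t u : K) :
    (fun i => (addSubMap W i).eval ![s, t, u]) =
      ![s ^ 2 - 2 * W.a₄ * s * u - 4 * W.a₆ * t * u - (4 * W.a₂ * W.a₆ - W.a₄ ^ 2) * u ^ 2,
        2 * t * s + 4 * W.a₂ * s * u + 2 * W.a₄ * t * u + 4 * W.a₆ * u ^ 2,
        t ^ 2 - 4 * s * u] := by
  rw [M1_eval]
  have e2 : W.b₂ = 4 * W.a₂ := by rw [WeierstrassCurve.b₂, ha1]; ring
  have e4 : W.b₄ = 2 * W.a₄ := by rw [WeierstrassCurve.b₄, ha1]; ring
  have e6 : W.b₆ = 4 * W.a₆ := by rw [WeierstrassCurve.b₆, ha3]; ring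
  have e8 : W.b₈ = 4 * W.a₂ * W.a₆ - W.a₄ ^ 2 := by rw [WeierstrassCurve.b₈, ha1, ha3]; ring
  rw [e2, e4, e6, e8]

omit [DecidableEq K] in
theorem M1_equation {x y : K} (h : W.Nonsingular x y) :
    y ^ 2 = x ^ 3 + W.a₂ * x ^ 2 + W.a₄ * x + W.a₆ := by
  have := (W.equation_iff x y).1 h.1
  rw [ha1, ha3] at this
  linear_combination this

omit [DecidableEq K] in
theorem M1_negY (x y : K) : W.negY x y = -y := by
  rw [WeierstrassCurve.Affine.negY, ha1, ha3]; ring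

theorem M1_ne {x1 y1 x2 y2 : K} (h1 : W.Nonsingular x1 y1) (h2 : W.Nonsingular x2 y2)
    (hx : x1 ≠ x2) : ∃ t : K, t ≠ 0 ∧
      (fun i => (addSubMap W i).eval
        ((WeierstrassCurve.Affine.Point.some x1 y1 h1).sym2x
          (WeierstrassCurve.Affine.Point.some x2 y2 h2))) =
        t • ((WeierstrassCurve.Affine.Point.some x1 y1 h1 +
          WeierstrassCurve.Affine.Point.some x2 y2 h2).sym2x
          (WeierstrassCurve.Affine.Point.some x1 y1 h1 -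
          WeierstrassCurve.Affine.Point.some x2 y2 h2)) := by
  have hxy : x1 - x2 ≠ 0 := sub_ne_zero.2 hx
  refine ⟨(x1 - x2) ^ 2, pow_ne_zero 2 hxy, ?_⟩
  rw [sub_eq_add_neg (WeierstrassCurve.Affine.Point.some x1 y1 h1),
    WeierstrassCurve.Affine.Point.neg_some,
    WeierstrassCurve.Affine.Point.add_of_X_ne hx, WeierstrassCurve.Affine.Point.add_of_X_ne hx,
    WeierstrassCurve.Affine.Point.sym2x_some_some, WeierstrassCurve.Affine.Point.sym2x_some_some,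
    M1_eval' ha1 ha3, WeierstrassCurve.Affine.slope_of_X_ne hx,
    WeierstrassCurve.Affine.slope_of_X_ne hx, M1_negY ha1 ha3]
  have E1 := M1_equation ha1 ha3 h1
  have E2 := M1_equation ha1 ha3 h2
  simp only [WeierstrassCurve.Affine.addX, ha1]
  have key0 : (y1 ^ 2 + y2 ^ 2 - (W.a₂ + x1 + x2) * (x1 - x2) ^ 2) ^ 2 - 4 * y1 ^ 2 * y2 ^ 2 =
      (x1 - x2) ^ 2 * ((x1 * x2) ^ 2 - 2 * W.a₄ * (x1 * x2) * 1 - 4 * W.a₆ * (x1 + x2) * 1 -
        (4 * W.a₂ * W.a₆ - W.a₄ ^ 2) * 1 ^ 2) := by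
    rw [E1, E2]; ring
  have key1 : 2 * (y1 ^ 2 + y2 ^ 2 - (W.a₂ + x1 + x2) * (x1 - x2) ^ 2) =
      2 * (x1 + x2) * (x1 * x2) + 4 * W.a₂ * (x1 * x2) * 1 + 2 * W.a₄ * (x1 + x2) * 1 +
        4 * W.a₆ * 1 ^ 2 := by
    rw [E1, E2]; ring
  have f0 : (x1 - x2) ^ 2 * ((((y1 - y2) / (x1 - x2)) ^ 2 + 0 * ((y1 - y2) / (x1 - x2)) - W.a₂ -
      x1 - x2) * (((y1 - -y2) / (x1 - x2)) ^ 2 + 0 * ((y1 - -y2) / (x1 - x2)) - W.a₂ - x1 - x2)) =
      (x1 * x2) ^ 2 - 2 * W.a₄ * (x1 * x2) * 1 - 4 * W.a₆ * (x1 + x2) * 1 -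
        (4 * W.a₂ * W.a₆ - W.a₄ ^ 2) * 1 ^ 2 := by
    have h3 : (x1 - x2) ^ 2 * ((x1 - x2) ^ 2 * ((((y1 - y2) / (x1 - x2)) ^ 2 +
        0 * ((y1 - y2) / (x1 - x2)) - W.a₂ - x1 - x2) * (((y1 - -y2) / (x1 - x2)) ^ 2 +
        0 * ((y1 - -y2) / (x1 - x2)) - W.a₂ - x1 - x2))) =
        (y1 ^ 2 + y2 ^ 2 - (W.a₂ + x1 + x2) * (x1 - x2) ^ 2) ^ 2 - 4 * y1 ^ 2 * y2 ^ 2 := by
      field_simp
      ring
    rw [key0] at h3
    exact mul_left_cancel₀ (pow_ne_zero 2 hxy) h3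
  have f1 : (x1 - x2) ^ 2 * ((((y1 - y2) / (x1 - x2)) ^ 2 + 0 * ((y1 - y2) / (x1 - x2)) - W.a₂ -
      x1 - x2) + (((y1 - -y2) / (x1 - x2)) ^ 2 + 0 * ((y1 - -y2) / (x1 - x2)) - W.a₂ - x1 - x2)) =
      2 * (x1 + x2) * (x1 * x2) + 4 * W.a₂ * (x1 * x2) * 1 + 2 * W.a₄ * (x1 + x2) * 1 +
        4 * W.a₆ * 1 ^ 2 := by
    rw [← key1]
    field_simp
    ring
  rw [Matrix.smul_vec3, smul_eq_mul, smul_eq_mul, smul_eq_mul, f0, f1]
  congr 3
  ring

theorem M1_same (h2 : (2 : K) ≠ 0) {x y : K} (h : W.Nonsingular x y) : ∃ t : K, t ≠ 0 ∧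
      (fun i => (addSubMap W i).eval ![x * x, x + x, 1]) =
        t • ((WeierstrassCurve.Affine.Point.some x y h +
          WeierstrassCurve.Affine.Point.some x y h).sym2x 0) := by
  have E1 := M1_equation ha1 ha3 h
  rw [M1_eval' ha1 ha3]
  by_cases hy : y = 0
  · subst hy
    have hy' : (0 : K) = W.negY x 0 := by rw [M1_negY ha1 ha3, neg_zero]
    rw [WeierstrassCurve.Affine.Point.add_self_of_Y_eq hy',
      WeierstrassCurve.Affine.Point.sym2x_zero_zero]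
    have hd : 3 * x ^ 2 + 2 * W.a₂ * x + W.a₄ ≠ 0 := by
      rcases ((W.nonsingular_iff x 0).1 h).2 with h3 | h3
      · rw [ha1, zero_mul] at h3
        exact h3.symm
      · rw [ha1, ha3] at h3
        exact absurd (by ring) h3
    refine ⟨(3 * x ^ 2 + 2 * W.a₂ * x + W.a₄) ^ 2, pow_ne_zero 2 hd, ?_⟩
    rw [Matrix.smul_vec3, smul_eq_mul, smul_eq_mul]
    have e6 : W.a₆ = -(x ^ 3 + W.a₂ * x ^ 2 + W.a₄ * x) := by linear_combination -E1
    rw [e6]
    congr 1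
    · ring
    · congr 1
      · ring
      · congr 1
        ring
  · have hy2 : y ≠ W.negY x y := by
      rw [M1_negY ha1 ha3]
      intro h3
      apply hy
      have : 2 * y = 0 := by linear_combination h3
      exact (mul_eq_zero.1 this).resolve_left h2
    rw [WeierstrassCurve.Affine.Point.add_self_of_Y_ne hy2,
      WeierstrassCurve.Affine.Point.sym2x_some_zero,
      WeierstrassCurve.Affine.slope_of_Y_ne rfl hy2, M1_negY ha1 ha3]
    refine ⟨4 * y ^ 2, mul_ne_zero (by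
      have : (4 : K) = 2 * 2 := by norm_num
      rw [this]; exact mul_ne_zero h2 h2) (pow_ne_zero 2 hy), ?_⟩
    simp only [WeierstrassCurve.Affine.addX, ha1]
    have f0 : 4 * y ^ 2 * (((3 * x ^ 2 + 2 * W.a₂ * x + W.a₄ - 0 * y) / (y - -y)) ^ 2 +
        0 * ((3 * x ^ 2 + 2 * W.a₂ * x + W.a₄ - 0 * y) / (y - -y)) - W.a₂ - x - x) =
        (x * x) ^ 2 - 2 * W.a₄ * (x * x) * 1 - 4 * W.a₆ * (x + x) * 1 -
        (4 * W.a₂ * W.a₆ - W.a₄ ^ 2) * 1 ^ 2 := by
      have h4 : y - -y = 2 * y := by ring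
      rw [h4]
      have h5 : 4 * y ^ 2 * (((3 * x ^ 2 + 2 * W.a₂ * x + W.a₄ - 0 * y) / (2 * y)) ^ 2 +
        0 * ((3 * x ^ 2 + 2 * W.a₂ * x + W.a₄ - 0 * y) / (2 * y)) - W.a₂ - x - x) =
        (3 * x ^ 2 + 2 * W.a₂ * x + W.a₄) ^ 2 - 4 * (W.a₂ + 2 * x) * y ^ 2 := by
        field_simp
        ring
      rw [h5, E1]
      ring
    rw [Matrix.smul_vec3, smul_eq_mul, smul_eq_mul, smul_eq_mul, f0]
    congr 1
    congr 1
    · have h6 : 4 * y ^ 2 * 1 = 4 * (x ^ 3 + W.a₂ * x ^ 2 + W.a₄ * x + W.a₆) := by rw [E1]; ring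
      rw [h6]
      ring
    · congr 1
      ring

theorem M1_gen (h2 : (2 : K) ≠ 0) (P Q : W.Point) : ∃ t : K, t ≠ 0 ∧
      (fun i => (addSubMap W i).eval (P.sym2x Q)) = t • ((P + Q).sym2x (P - Q)) := by
  rcases P with _ | ⟨x1, y1, h1⟩
  · rw [← WeierstrassCurve.Affine.Point.zero_def, zero_add, zero_sub]
    refine ⟨1, one_ne_zero, ?_⟩
    rw [one_smul, WeierstrassCurve.Affine.Point.sym2x_neg_right]
    rcases Q with _ | ⟨x2, y2, h2'⟩
    · rw [← WeierstrassCurve.Affine.Point.zero_def,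
        WeierstrassCurve.Affine.Point.sym2x_zero_zero, M1_eval' ha1 ha3]
      congr 1
      · ring
      · congr 1
        · ring
        · congr 1
          ring
    · rw [WeierstrassCurve.Affine.Point.sym2x_zero_some,
        WeierstrassCurve.Affine.Point.sym2x_some_some, M1_eval' ha1 ha3]
      congr 1
      · ring
      · congr 1
        · ring
        · congr 1
          ring
  · rcases Q with _ | ⟨x2, y2, h2'⟩
    · rw [← WeierstrassCurve.Affine.Point.zero_def, add_zero, sub_zero]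
      refine ⟨1, one_ne_zero, ?_⟩
      rw [one_smul, WeierstrassCurve.Affine.Point.sym2x_some_zero,
        WeierstrassCurve.Affine.Point.sym2x_some_some, M1_eval' ha1 ha3]
      congr 1
      · ring
      · congr 1
        · ring
        · congr 1
          ring
    · by_cases hx : x1 = x2
      · rcases WeierstrassCurve.Affine.Point.X_eq_iff.1 hx with h3 | h3
        · rw [← h3, sub_self, WeierstrassCurve.Affine.Point.sym2x_some_some]
          exact M1_same ha1 ha3 h2 h1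
        · have h4 : WeierstrassCurve.Affine.Point.some x2 y2 h2' =
              -WeierstrassCurve.Affine.Point.some x1 y1 h1 := by rw [h3, neg_neg]
          rw [h4, sub_neg_eq_add, add_neg_cancel, WeierstrassCurve.Affine.Point.sym2x_neg_right,
            WeierstrassCurve.Affine.Point.sym2x_comm 0,
            WeierstrassCurve.Affine.Point.sym2x_some_some]
          exact M1_same ha1 ha3 h2 h1
      · exact M1_ne ha1 ha3 h1 h2' hx

end M1

variable (E : Cub)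

theorem addSub_sym2x {K : Type*} [Field K] [DecidableEq K] (h2 : (2 : K) ≠ 0) (P Q : E.Pt K) :
    ∃ t : K, t ≠ 0 ∧
      (fun i => (addSubMap (WeierstrassCurve.Affine.baseChange E.W K) i).eval (P.sym2x Q)) =
        t • ((P + Q).sym2x (P - Q)) :=
  M1_gen (W := WeierstrassCurve.Affine.baseChange E.W K) (by simp [W]) (by simp [W]) h2 P Q

end Cub
end H16A
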