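import Pool.Agent.Lib.H16A.H2

/-!
# N1 (S/M): existence of the splitting field

`exists_split`: take the splitting field of `E.poly ℚ` (separable because `disc ≠ 0`), with its three
distinct roots (`disc_eq_of_roots`).  `isGalois`: `F` is generated by all the roots of the separable
polynomial `E.poly ℚ`, which splits in `F`: `IsGalois.of_separable_splitting_field`.
`e_integral`: the roots of a monic integral polynomial are algebraic integers.
-/

open Polynomial IsDedekindDomain NumberField

namespace H16A

theorem n1_split {F : Type} [Field F] [NumberField F] (E : Cub) (hd : E.disc ≠ 0)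
    (hs : (E.poly F).Splits) (hg : Algebra.adjoin ℚ ((E.poly ℚ).rootSet F : Set F) = ⊤) :
    Nonempty (Split E F) := by
  classical
  have hdF : ((E.disc : ℤ) : F) ≠ 0 := by exact_mod_cast hd
  have hsep := E.h2_separable hdF
  have hm := E.poly_monic F
  have hdeg : (E.poly F).natDegree = 3 := E.h2_natDegree
  have hnd := nodup_roots hsep
  have hcard : (E.poly F).roots.toFinset.card = 3 := by
    rw [Multiset.toFinset_card_of_nodup hnd, ← hs.natDegree_eq_card_roots, hdeg]
  set R := (E.poly F).roots.toFinset with hR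
  let eq : R ≃ Fin 3 := R.equivFinOfCardEq hcard
  have hprod : E.poly F = ∏ i : Fin 3, (X - C ((eq.symm i : R) : F)) := by
    rw [eq.symm.prod_comp (fun r : R => X - C (r : F))]
    rw [Finset.prod_coe_sort R (fun r => X - C r)]
    have h1 := hs.eq_prod_roots_of_monic hm
    have h2 : R.val = (E.poly F).roots := by
      rw [hR, Multiset.toFinset_val, Multiset.dedup_eq_self.2 hnd]
    show E.poly F = (R.val.map (fun r => X - C r)).prod
    rw [h2]
    exact h1
  have hmem : ∀ x, x ∈ R ↔ (E.poly F).eval x = 0 := by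
    intro x
    rw [hR, Multiset.mem_toFinset, mem_roots hm.ne_zero, IsRoot.def]
  refine ⟨⟨fun i => ((eq.symm i : R) : F), hprod, ?_, ?_⟩⟩
  · intro i j hij
    exact eq.symm.injective (Subtype.ext hij)
  · apply IntermediateField.adjoin_eq_top_of_algebra
    rw [← hg]
    congr 1
    ext x
    constructor
    · rintro ⟨i, rfl⟩
      have h2 := (hmem _).1 (eq.symm i).2
      rw [mem_rootSet']
      refine ⟨?_, ?_⟩
      · rw [E.poly_map]
        exact hm.ne_zero
      · rw [← eval_map_algebraMap, E.poly_map]
        exact h2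
    · intro hx
      rw [mem_rootSet'] at hx
      have h3 : x ∈ R := by
        rw [hmem]
        have h4 := hx.2
        rw [← eval_map_algebraMap, E.poly_map] at h4
        exact h4
      exact ⟨eq ⟨x, h3⟩, by simp⟩

theorem exists_split (E : Cub) (hd : E.disc ≠ 0) :
    ∃ (F : Type) (_ : Field F) (_ : NumberField F), Nonempty (Split E F) := by
  have hnf : NumberField (E.poly ℚ).SplittingField := ⟨⟩
  refine ⟨(E.poly ℚ).SplittingField, inferInstance, hnf, ?_⟩
  refine n1_split E hd ?_ ?_
  · have h1 := (IsSplittingField.splittingField (E.poly ℚ)).splits'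
    rwa [E.poly_map] at h1
  · exact (IsSplittingField.splittingField (E.poly ℚ)).adjoin_rootSet'

namespace Split

variable {E : Cub} {F : Type} [Field F] [NumberField F] (S : Split E F)

theorem e_integral (i : Fin 3) : ∃ a : 𝓞 F, (a : F) = S.e i := by
  have h : IsIntegral ℤ (S.e i) := by
    refine ⟨E.poly ℤ, E.poly_monic ℤ, ?_⟩
    rw [eval₂_eq_eval_map, E.poly_map, E.eval_poly]
    exact S.root i
  exact ⟨⟨S.e i, h⟩, rfl⟩

/-- `disc = ((e₀ - e₁)(e₀ - e₂)(e₁ - e₂))²` -/
theorem disc_eq : (E.disc : F) = ((S.e 0 - S.e 1) * (S.e 0 - S.e 2) * (S.e 1 - S.e 2)) ^ 2 := by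
  apply E.disc_eq_of_roots
  rw [S.poly_eq, Fin.prod_univ_three]

include S in
theorem disc_ne_zero : E.disc ≠ 0 := by
  intro h
  have h1 := S.disc_eq
  rw [h, Int.cast_zero] at h1
  have h2 := pow_eq_zero_iff (two_ne_zero) |>.1 h1.symm
  rcases mul_eq_zero.1 h2 with h3 | h3
  · rcases mul_eq_zero.1 h3 with h4 | h4
    · exact absurd (S.inj (sub_eq_zero.1 h4)) (by decide)
    · exact absurd (S.inj (sub_eq_zero.1 h4)) (by decide)
  · exact absurd (S.inj (sub_eq_zero.1 h3)) (by decide)

include S in
theorem isGalois : IsGalois ℚ F := by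
  have hd : ((E.disc : ℤ) : ℚ) ≠ 0 := by exact_mod_cast S.disc_ne_zero
  have hsep := E.h2_separable hd
  have hsf : (E.poly ℚ).IsSplittingField ℚ F := by
    refine ⟨?_, ?_⟩
    · rw [E.poly_map, S.poly_eq]
      exact Splits.prod fun i _ => Splits.X_sub_C _
    · have h1 := S.gen
      have h2 : Algebra.adjoin ℚ (Set.range S.e) = ⊤ := by
        have h3 := IntermediateField.adjoin_toSubalgebra_of_isAlgebraic (F := ℚ) (E := F)
          (S := Set.range S.e) (fun x _ => Algebra.IsAlgebraic.isAlgebraic x)
        rw [← h3, h1]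
        rfl
      rw [eq_top_iff, ← h2]
      apply Algebra.adjoin_mono
      rintro _ ⟨i, rfl⟩
      rw [mem_rootSet']
      refine ⟨?_, ?_⟩
      · rw [E.poly_map]
        exact (E.poly_monic F).ne_zero
      · rw [← eval_map_algebraMap, E.poly_map, E.eval_poly]
        exact S.root i
  exact IsGalois.of_separable_splitting_field hsep

theorem perm_one : S.perm 1 = 1 := by
  ext i
  have h := S.perm_spec 1 i
  rw [AlgEquiv.one_apply] at h
  have h1 := S.inj h
  rw [← h1]
  rfl

theorem perm_mul (σ τ : F ≃ₐ[ℚ] F) : S.perm (σ * τ) = S.perm σ * S.perm τ := by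
  have h : ∀ i, S.perm (σ * τ) i = S.perm σ (S.perm τ i) := by
    intro i
    apply S.inj
    rw [← S.perm_spec, ← S.perm_spec, ← S.perm_spec]
    rfl
  ext i
  rw [h i]
  rfl

theorem perm_injective : Function.Injective S.perm := by
  intro σ τ h
  ext x
  have hx : x ∈ IntermediateField.adjoin ℚ (Set.range S.e) := by
    rw [S.gen]
    exact IntermediateField.mem_top
  induction hx using IntermediateField.adjoin_induction with
  | mem x hx =>
    obtain ⟨i, rfl⟩ := hx
    rw [S.perm_spec, S.perm_spec, h]
  | algebraMap q => rw [σ.commutes, τ.commutes]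
  | add x y _ _ hx hy => rw [map_add, map_add, hx, hy]
  | inv x _ hx => rw [map_inv₀, map_inv₀, hx]
  | mul x y _ _ hx hy => rw [map_mul, map_mul, hx, hy]

end Split
end H16A
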