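import Pool.Agent.Lib.H16A.N1

/-!
# N2 (M/L): `ℚ[θ]` as the algebra of the Galois-equivariant triples of elements of `F`

* `ev_inj`: a polynomial of degree `≤ 2` with three distinct zeros `e_i` is zero (`exists_coords`).
* `norm_ev`: `N(h) = ∏ h(e_i)` (explicit formula `norm_eq` of H2, symmetric functions of the `e_i` from
  `poly_eq`; or the resultant).
* `exists_of_galois`: Lagrange interpolation: `q = Σ c_i L_i(X)`, `L_i = ∏_{j ≠ i}(X - e_j)/(e_i - e_j)`,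
  `q ∈ F[X]` is fixed by the Galois group (`σ` maps `c_i` to `c_{σ i}` and `L_i` to `L_{σ i}`), so its
  coefficients are rational; `h = q(θ)`.
* `exists_int_poly`: if moreover all `h(e_i)` are in `m 𝓞 F`, then, since
  `disc · L_i ∈ 𝓞 F[X]` (`disc = ∏_{i<j} (e_i - e_j)²`), the coefficients of `disc · q` are in
  `m 𝓞 F ∩ ℚ = m ℤ`.
* `isUnit_of_ev`: the norm is nonzero; or the inverse triple is also equivariant.
-/

open Polynomial IsDedekindDomain NumberField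

namespace H16A
namespace Split

variable {E : Cub} {F : Type} [Field F] [NumberField F] (S : Split E F)

theorem ev_th (i : Fin 3) : S.ev i (E.th ℚ) = S.e i := by
  unfold ev Cub.evAt Cub.th
  exact AdjoinRoot.lift_root _

theorem ev_algebraMap (i : Fin 3) (q : ℚ) :
    S.ev i (algebraMap ℚ (E.Alg ℚ) q) = algebraMap ℚ F q := by
  unfold ev Cub.evAt
  rw [AdjoinRoot.algebraMap_eq]
  exact AdjoinRoot.lift_of _

theorem n2_ev (i : Fin 3) (α β γ : ℚ) :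
    S.ev i (algebraMap ℚ (E.Alg ℚ) α + algebraMap ℚ (E.Alg ℚ) β * E.th ℚ +
      algebraMap ℚ (E.Alg ℚ) γ * E.th ℚ ^ 2) =
      (α : F) + (β : F) * S.e i + (γ : F) * S.e i ^ 2 := by
  rw [map_add, map_add, map_mul, map_mul, map_pow, S.ev_th, S.ev_algebraMap, S.ev_algebraMap,
    S.ev_algebraMap]
  simp only [eq_ratCast]

theorem n2_ne {i j : Fin 3} (h : i ≠ j) : S.e i - S.e j ≠ 0 := by
  intro h0
  exact h (S.inj (sub_eq_zero.1 h0))

theorem n2_uniq {x y z : F} (h : ∀ i, x + y * S.e i + z * S.e i ^ 2 = 0) :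
    x = 0 ∧ y = 0 ∧ z = 0 := by
  have h0 := h 0
  have h1 := h 1
  have h2 := h 2
  have d01 := S.n2_ne (i := 0) (j := 1) (by decide)
  have d02 := S.n2_ne (i := 0) (j := 2) (by decide)
  have d12 := S.n2_ne (i := 1) (j := 2) (by decide)
  have a1 : (S.e 0 - S.e 1) * (y + z * (S.e 0 + S.e 1)) = 0 := by linear_combination h0 - h1
  have a2 : (S.e 0 - S.e 2) * (y + z * (S.e 0 + S.e 2)) = 0 := by linear_combination h0 - h2
  have b1 := (mul_eq_zero.1 a1).resolve_left d01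
  have b2 := (mul_eq_zero.1 a2).resolve_left d02
  have a3 : (S.e 1 - S.e 2) * z = 0 := by linear_combination b1 - b2
  have hz := (mul_eq_zero.1 a3).resolve_left d12
  have hy : y = 0 := by
    rw [hz, zero_mul, add_zero] at b1
    exact b1
  have hx : x = 0 := by
    rw [hy, hz] at h0
    linear_combination h0
  exact ⟨hx, hy, hz⟩

theorem ev_inj {h h' : E.Alg ℚ} (H : ∀ i, S.ev i h = S.ev i h') : h = h' := by
  obtain ⟨α, β, γ, hu⟩ := E.exists_coords (h - h')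
  have h1 : ∀ i, (α : F) + (β : F) * S.e i + (γ : F) * S.e i ^ 2 = 0 := by
    intro i
    rw [← S.n2_ev, ← hu, map_sub, H i, sub_self]
  obtain ⟨ha, hb, hc⟩ := S.n2_uniq h1
  have ha' : α = 0 := by exact_mod_cast ha
  have hb' : β = 0 := by exact_mod_cast hb
  have hc' : γ = 0 := by exact_mod_cast hc
  rw [ha', hb', hc'] at hu
  simp only [map_zero, zero_mul, add_zero] at hu
  exact sub_eq_zero.1 hu

theorem ev_galois (σ : F ≃ₐ[ℚ] F) (i : Fin 3) (h : E.Alg ℚ) :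
    σ (S.ev i h) = S.ev (S.perm σ i) h := by
  obtain ⟨α, β, γ, rfl⟩ := E.exists_coords h
  rw [S.n2_ev, S.n2_ev, map_add, map_add, map_mul, map_mul, map_pow, S.perm_spec]
  simp only [map_ratCast]

theorem n2_symm : (E.a : F) = -(S.e 0 + S.e 1 + S.e 2) ∧
    (E.b : F) = S.e 0 * S.e 1 + S.e 0 * S.e 2 + S.e 1 * S.e 2 ∧
    (E.c : F) = -(S.e 0 * S.e 1 * S.e 2) := by
  have h := S.poly_eq
  rw [Fin.prod_univ_three, E.h1_coeffs, Cubic.prod_X_sub_C_eq, Cubic.toPoly_injective] at h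
  simp only [Cubic.mk.injEq, true_and] at h
  exact h

theorem norm_ev (h : E.Alg ℚ) : algebraMap ℚ F (Algebra.norm ℚ h) = ∏ i, S.ev i h := by
  obtain ⟨α, β, γ, rfl⟩ := E.exists_coords h
  rw [E.norm_eq, Fin.prod_univ_three, S.n2_ev, S.n2_ev, S.n2_ev, eq_ratCast]
  obtain ⟨ha, hb, hc⟩ := S.n2_symm
  push_cast
  rw [ha, hb, hc]
  ring

theorem isUnit_of_ev (h : E.Alg ℚ) (H : ∀ i, S.ev i h ≠ 0) : IsUnit h := by
  have hA : IsArtinianRing (E.Alg ℚ) := E.h2_artinian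
  apply IsArtinianRing.isUnit_of_mem_nonZeroDivisors
  rw [mem_nonZeroDivisors_iff_right]
  intro x hx
  apply S.ev_inj
  intro i
  have h1 : S.ev i x * S.ev i h = 0 := by rw [← map_mul, hx, map_zero]
  rw [map_zero]
  exact (mul_eq_zero.1 h1).resolve_right (H i)

/-- the dual basis, multiplied by the discriminant -/
theorem n2_dual (x y z : F) (c : Fin 3 → F) (h : ∀ i, x + y * S.e i + z * S.e i ^ 2 = c i) :
    (E.disc : F) * z = c 0 * ((S.e 0 - S.e 1) * (S.e 0 - S.e 2) * (S.e 1 - S.e 2) ^ 2) -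
      c 1 * ((S.e 0 - S.e 1) * (S.e 0 - S.e 2) ^ 2 * (S.e 1 - S.e 2)) +
      c 2 * ((S.e 0 - S.e 1) ^ 2 * (S.e 0 - S.e 2) * (S.e 1 - S.e 2)) ∧
    (E.disc : F) * y = -(c 0 * ((S.e 0 - S.e 1) * (S.e 0 - S.e 2) * (S.e 1 - S.e 2) ^ 2) *
        (S.e 1 + S.e 2)) +
      c 1 * ((S.e 0 - S.e 1) * (S.e 0 - S.e 2) ^ 2 * (S.e 1 - S.e 2)) * (S.e 0 + S.e 2) -
      c 2 * ((S.e 0 - S.e 1) ^ 2 * (S.e 0 - S.e 2) * (S.e 1 - S.e 2)) * (S.e 0 + S.e 1) ∧
    (E.disc : F) * x = c 0 * ((S.e 0 - S.e 1) * (S.e 0 - S.e 2) * (S.e 1 - S.e 2) ^ 2) *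
        (S.e 1 * S.e 2) -
      c 1 * ((S.e 0 - S.e 1) * (S.e 0 - S.e 2) ^ 2 * (S.e 1 - S.e 2)) * (S.e 0 * S.e 2) +
      c 2 * ((S.e 0 - S.e 1) ^ 2 * (S.e 0 - S.e 2) * (S.e 1 - S.e 2)) * (S.e 0 * S.e 1) := by
  rw [← h 0, ← h 1, ← h 2, S.disc_eq]
  refine ⟨by ring, by ring, by ring⟩

theorem n2_exists (c : Fin 3 → F) : ∃ x y z : F, ∀ i, x + y * S.e i + z * S.e i ^ 2 = c i := by
  have d01 := S.n2_ne (i := 0) (j := 1) (by decide)
  have d02 := S.n2_ne (i := 0) (j := 2) (by decide)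
  have d12 := S.n2_ne (i := 1) (j := 2) (by decide)
  have hall : ∀ P : Fin 3 → Prop, P 0 → P 1 → P 2 → ∀ i, P i := by
    intro P h0 h1 h2 i
    fin_cases i
    · exact h0
    · exact h1
    · exact h2
  refine ⟨(c 0 * (S.e 1 - S.e 2) * (S.e 1 * S.e 2) - c 1 * (S.e 0 - S.e 2) * (S.e 0 * S.e 2) +
      c 2 * (S.e 0 - S.e 1) * (S.e 0 * S.e 1)) /
      ((S.e 0 - S.e 1) * (S.e 0 - S.e 2) * (S.e 1 - S.e 2)),
    (-(c 0 * (S.e 1 - S.e 2) * (S.e 1 + S.e 2)) + c 1 * (S.e 0 - S.e 2) * (S.e 0 + S.e 2) -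
      c 2 * (S.e 0 - S.e 1) * (S.e 0 + S.e 1)) /
      ((S.e 0 - S.e 1) * (S.e 0 - S.e 2) * (S.e 1 - S.e 2)),
    (c 0 * (S.e 1 - S.e 2) - c 1 * (S.e 0 - S.e 2) + c 2 * (S.e 0 - S.e 1)) /
      ((S.e 0 - S.e 1) * (S.e 0 - S.e 2) * (S.e 1 - S.e 2)), ?_⟩
  apply hall
  · field_simp
    ring
  · field_simp
    ring
  · field_simp
    ring

theorem exists_of_galois (c : Fin 3 → F) (hc : ∀ (σ : F ≃ₐ[ℚ] F) i, σ (c i) = c (S.perm σ i)) :
    ∃ h : E.Alg ℚ, ∀ i, S.ev i h = c i := by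
  have hG := S.isGalois
  obtain ⟨x, y, z, h⟩ := S.n2_exists c
  have hσ : ∀ σ : F ≃ₐ[ℚ] F, σ x = x ∧ σ y = y ∧ σ z = z := by
    intro σ
    have h1 : ∀ i, (σ x - x) + (σ y - y) * S.e i + (σ z - z) * S.e i ^ 2 = 0 := by
      intro i
      obtain ⟨j, rfl⟩ := (S.perm σ).surjective i
      have h2 := congrArg σ (h j)
      rw [map_add, map_add, map_mul, map_mul, map_pow, S.perm_spec, hc, ← h (S.perm σ j)] at h2
      linear_combination h2
    obtain ⟨a1, a2, a3⟩ := S.n2_uniq h1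
    exact ⟨sub_eq_zero.1 a1, sub_eq_zero.1 a2, sub_eq_zero.1 a3⟩
  have key : ∀ t : F, (∀ σ : F ≃ₐ[ℚ] F, σ t = t) → ∃ q : ℚ, (q : F) = t := by
    intro t ht
    have h1 := (IsGalois.mem_bot_iff_fixed (F := ℚ) t).2 ht
    obtain ⟨q, hq⟩ := IntermediateField.mem_bot.1 h1
    exact ⟨q, by rw [← hq, eq_ratCast]⟩
  obtain ⟨α, hα⟩ := key x (fun σ => (hσ σ).1)
  obtain ⟨β, hβ⟩ := key y (fun σ => (hσ σ).2.1)
  obtain ⟨γ, hγ⟩ := key z (fun σ => (hσ σ).2.2)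
  refine ⟨algebraMap ℚ (E.Alg ℚ) α + algebraMap ℚ (E.Alg ℚ) β * E.th ℚ +
      algebraMap ℚ (E.Alg ℚ) γ * E.th ℚ ^ 2, fun i => ?_⟩
  rw [S.n2_ev, hα, hβ, hγ, h i]

theorem n2_int (q : ℚ) (m : ℕ) (hm : m ≠ 0) (b : 𝓞 F) (h : (E.disc : F) * (q : F) = m * (b : F)) :
    ∃ A : ℤ, (E.disc : ℚ) * q = m * A := by
  have hmF : (m : F) ≠ 0 := by exact_mod_cast hm
  have hmQ : (m : ℚ) ≠ 0 := by exact_mod_cast hm
  have h1 : algebraMap ℚ F ((E.disc : ℚ) * q / m) = (b : F) := by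
    rw [eq_ratCast]
    push_cast
    rw [h]
    field_simp
  have h2 : IsIntegral ℤ (algebraMap ℚ F ((E.disc : ℚ) * q / m)) := by
    rw [h1]
    exact b.isIntegral_coe
  rw [isIntegral_algebraMap_iff (algebraMap ℚ F).injective, IsIntegrallyClosed.isIntegral_iff] at h2
  obtain ⟨A, hA⟩ := h2
  refine ⟨A, ?_⟩
  have h3 : ((A : ℤ) : ℚ) = (E.disc : ℚ) * q / m := hA
  rw [h3]
  field_simp

theorem exists_int_poly (m : ℕ) (h : E.Alg ℚ) (H : ∀ i, ∃ a : 𝓞 F, S.ev i h = (m : F) * (a : F)) :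
    ∃ k : ℤ[X], (E.disc : E.Alg ℚ) * h = (m : E.Alg ℚ) * aeval (E.th ℚ) k := by
  by_cases hm : m = 0
  · refine ⟨0, ?_⟩
    have h0 : h = 0 := by
      apply S.ev_inj
      intro i
      obtain ⟨a, ha⟩ := H i
      rw [ha, hm, Nat.cast_zero, zero_mul, map_zero]
    rw [h0, mul_zero, map_zero, mul_zero]
  · obtain ⟨α, β, γ, rfl⟩ := E.exists_coords h
    choose a ha using H
    choose e' he' using S.e_integral
    have h1 : ∀ i, (α : F) + (β : F) * S.e i + (γ : F) * S.e i ^ 2 = (m : F) * (a i : F) := by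
      intro i
      rw [← ha i, S.n2_ev]
    obtain ⟨c1, c2, c3⟩ := S.n2_dual _ _ _ _ h1
    obtain ⟨G, hG⟩ := n2_int (E := E) γ m hm
      (a 0 * ((e' 0 - e' 1) * (e' 0 - e' 2) * (e' 1 - e' 2) ^ 2) -
      a 1 * ((e' 0 - e' 1) * (e' 0 - e' 2) ^ 2 * (e' 1 - e' 2)) +
      a 2 * ((e' 0 - e' 1) ^ 2 * (e' 0 - e' 2) * (e' 1 - e' 2))) (by
        rw [c1]
        simp only [map_add, map_sub, map_mul, map_pow, he']
        ring)
    obtain ⟨B, hB⟩ := n2_int (E := E) β m hm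
      (-(a 0 * ((e' 0 - e' 1) * (e' 0 - e' 2) * (e' 1 - e' 2) ^ 2) * (e' 1 + e' 2)) +
      a 1 * ((e' 0 - e' 1) * (e' 0 - e' 2) ^ 2 * (e' 1 - e' 2)) * (e' 0 + e' 2) -
      a 2 * ((e' 0 - e' 1) ^ 2 * (e' 0 - e' 2) * (e' 1 - e' 2)) * (e' 0 + e' 1)) (by
        rw [c2]
        simp only [map_add, map_sub, map_neg, map_mul, map_pow, he']
        ring)
    obtain ⟨A, hA⟩ := n2_int (E := E) α m hm
      (a 0 * ((e' 0 - e' 1) * (e' 0 - e' 2) * (e' 1 - e' 2) ^ 2) * (e' 1 * e' 2) -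
      a 1 * ((e' 0 - e' 1) * (e' 0 - e' 2) ^ 2 * (e' 1 - e' 2)) * (e' 0 * e' 2) +
      a 2 * ((e' 0 - e' 1) ^ 2 * (e' 0 - e' 2) * (e' 1 - e' 2)) * (e' 0 * e' 1)) (by
        rw [c3]
        simp only [map_add, map_sub, map_mul, map_pow, he']
        ring)
    refine ⟨C A + C B * X + C G * X ^ 2, ?_⟩
    have k1 : (E.disc : E.Alg ℚ) * algebraMap ℚ (E.Alg ℚ) α = (m : E.Alg ℚ) * (A : E.Alg ℚ) := by
      have := congrArg (algebraMap ℚ (E.Alg ℚ)) hA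
      simpa using this
    have k2 : (E.disc : E.Alg ℚ) * algebraMap ℚ (E.Alg ℚ) β = (m : E.Alg ℚ) * (B : E.Alg ℚ) := by
      have := congrArg (algebraMap ℚ (E.Alg ℚ)) hB
      simpa using this
    have k3 : (E.disc : E.Alg ℚ) * algebraMap ℚ (E.Alg ℚ) γ = (m : E.Alg ℚ) * (G : E.Alg ℚ) := by
      have := congrArg (algebraMap ℚ (E.Alg ℚ)) hG
      simpa using this
    have k4 : aeval (E.th ℚ) (C A + C B * X + C G * X ^ 2 : ℤ[X]) =
        (A : E.Alg ℚ) + (B : E.Alg ℚ) * E.th ℚ + (G : E.Alg ℚ) * E.th ℚ ^ 2 := by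
      simp
    rw [k4]
    linear_combination k1 + k2 * E.th ℚ + k3 * E.th ℚ ^ 2

end Split
end H16A
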