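import Pool.Agent.Lib.H16A.V1

/-!
# N3 (M/L): the pigeonhole lemma (finiteness of the class group)

`F` a number field with `h` ideal classes, `M ≥ 1`.  Let `W` be a finite set of primes of `F`, prime to
`M`.  For `t ⊆ W` let `I_t = ∏_{w ∈ t} w`.  Some ideal class `C` contains `I_t` for all `t` of a family
`Φ₀` with `|Φ₀| ≥ 2^{|W|}/h`.  Fix `t₀ ∈ Φ₀`.  For `t ∈ Φ₀` the ideal `I_t I_{t₀}^{h-1}` is in the class
`C^h = 1`, so it is generated by some `a_t ∈ 𝓞 F`, `a_t ≠ 0`, prime to `M` (so `a_t b ≡ 1` mod `M` for some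
`b`).  By the pigeonhole principle in the finite ring `𝓞 F/M` there is `Φ ⊆ Φ₀`,
`|Φ| ≥ |Φ₀|/#(𝓞 F/M)`, such that all `a_t`, `t ∈ Φ`, are congruent modulo `M`.  Take any `t₁ ∈ Φ`:
`(a_t/a_{t₁}) = I_t/I_{t₁}`, whence the orders (the order of `I_t` at `w` is `1` or `0`).
`K₃ = h · #(𝓞 F/M)`.
-/

open Polynomial IsDedekindDomain NumberField

namespace H16A

theorem n3_pigeon {α β : Type*} [DecidableEq β] (s : Finset α) (t : Finset β) (f : α → β)
    (hf : ∀ a ∈ s, f a ∈ t) (ht : t.Nonempty) :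
    ∃ y ∈ t, s.card ≤ t.card * (s.filter (fun a => f a = y)).card := by
  by_contra hcon
  push Not at hcon
  have h1 : s.card = ∑ y ∈ t, (s.filter (fun a => f a = y)).card :=
    Finset.card_eq_sum_card_fiberwise hf
  have h2 : t.card * s.card < t.card * s.card := by
    calc t.card * s.card = ∑ y ∈ t, t.card * (s.filter (fun a => f a = y)).card := by
          conv_lhs => rw [h1]
          rw [Finset.mul_sum]
      _ < ∑ _y ∈ t, s.card := Finset.sum_lt_sum_of_nonempty ht fun y hy => hcon y hy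
      _ = t.card * s.card := by rw [Finset.sum_const, smul_eq_mul]
  exact lt_irrefl _ h2

section

variable {F : Type*} [Field F] [NumberField F]

theorem n3_ord (w : HeightOneSpectrum (𝓞 F)) {a : 𝓞 F} (ha : a ≠ 0) :
    ord w (a : F) = FractionalIdeal.count F w
      ((Ideal.span {a} : Ideal (𝓞 F)) : FractionalIdeal (nonZeroDivisors (𝓞 F)) F) := by
  classical
  have hs : (Ideal.span {a} : Ideal (𝓞 F)) ≠ 0 := by
    rw [Ne, Ideal.zero_eq_bot, Ideal.span_singleton_eq_bot]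
    exact ha
  rw [FractionalIdeal.count_coe F w hs]
  unfold ord
  have h1 : w.valuation F (a : F) = w.intValuation a := w.valuation_of_algebraMap a
  rw [h1, w.intValuation_if_neg ha, WithZero.log_exp, neg_neg]

theorem n3_count (w : HeightOneSpectrum (𝓞 F)) [DecidableEq (HeightOneSpectrum (𝓞 F))]
    (t : Finset (HeightOneSpectrum (𝓞 F))) :
    FractionalIdeal.count F w
      ((∏ v ∈ t, v.asIdeal : Ideal (𝓞 F)) : FractionalIdeal (nonZeroDivisors (𝓞 F)) F) =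
      if w ∈ t then 1 else 0 := by
  induction t using Finset.induction_on with
  | empty =>
    rw [Finset.prod_empty, if_neg (Finset.notMem_empty w), Ideal.one_eq_top,
      FractionalIdeal.coeIdeal_top]
    exact FractionalIdeal.count_one F w
  | insert v t hv ih =>
    have h1 : (v.asIdeal : FractionalIdeal (nonZeroDivisors (𝓞 F)) F) ≠ 0 :=
      FractionalIdeal.coeIdeal_ne_zero.2 v.ne_bot
    have h2 : ((∏ v ∈ t, v.asIdeal : Ideal (𝓞 F)) :
        FractionalIdeal (nonZeroDivisors (𝓞 F)) F) ≠ 0 := by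
      rw [FractionalIdeal.coeIdeal_ne_zero]
      exact Finset.prod_ne_zero_iff.2 fun i _ => i.ne_bot
    rw [Finset.prod_insert hv, FractionalIdeal.coeIdeal_mul, FractionalIdeal.count_mul F w h1 h2,
      ih, FractionalIdeal.count_maximal]
    by_cases h3 : v = w
    · rw [if_pos h3, ← h3, if_neg hv, if_pos (Finset.mem_insert_self _ _), add_zero]
    · rw [if_neg h3, zero_add]
      by_cases h4 : w ∈ t
      · rw [if_pos h4, if_pos (Finset.mem_insert_of_mem h4)]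
      · rw [if_neg h4, if_neg]
        intro h5
        rcases Finset.mem_insert.1 h5 with h6 | h6
        · exact h3 h6.symm
        · exact h4 h6

end

open Classical in
theorem exists_alpha (F : Type*) [Field F] [NumberField F] (M : ℕ) (hM : 0 < M) :
    ∃ K₃ : ℕ, 0 < K₃ ∧ ∀ W : Finset (HeightOneSpectrum (𝓞 F)),
      (∀ w ∈ W, IsCoprime w.asIdeal (Ideal.span {(M : 𝓞 F)})) →
      ∃ (Φ : Finset (Finset (HeightOneSpectrum (𝓞 F))))
        (a : Finset (HeightOneSpectrum (𝓞 F)) → 𝓞 F) (t₁ : Finset (HeightOneSpectrum (𝓞 F))),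
        t₁ ∈ Φ ∧ 2 ^ W.card ≤ K₃ * Φ.card ∧
        ∀ t ∈ Φ, t ⊆ W ∧ a t ≠ 0 ∧ (∃ b : 𝓞 F, (M : 𝓞 F) ∣ a t * b - 1) ∧
          (M : 𝓞 F) ∣ a t - a t₁ ∧
          ∀ w, ord w ((a t : F) / (a t₁ : F)) = (if w ∈ t then 1 else 0) - (if w ∈ t₁ then 1 else 0) := by
  have hM0 : (M : 𝓞 F) ≠ 0 := Nat.cast_ne_zero.2 hM.ne'
  have hMb : (Ideal.span {(M : 𝓞 F)}) ≠ ⊥ := by
    rw [Ne, Ideal.span_singleton_eq_bot]
    exact hM0
  have hfin : Finite (𝓞 F ⧸ Ideal.span {(M : 𝓞 F)}) := Ideal.finiteQuotientOfFreeOfNeBot _ hMb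
  have hft : Fintype (𝓞 F ⧸ Ideal.span {(M : 𝓞 F)}) := Fintype.ofFinite _
  set h : ℕ := Fintype.card (ClassGroup (𝓞 F)) with hh
  set q : ℕ := Fintype.card (𝓞 F ⧸ Ideal.span {(M : 𝓞 F)}) with hq
  have hh0 : 0 < h := Fintype.card_pos
  have hq0 : 0 < q := Fintype.card_pos
  refine ⟨h * q, Nat.mul_pos hh0 hq0, fun W hW => ?_⟩
  set I : Finset (HeightOneSpectrum (𝓞 F)) → Ideal (𝓞 F) := fun t => ∏ w ∈ t, w.asIdeal with hI
  have hI0 : ∀ t, I t ≠ 0 := fun t => Finset.prod_ne_zero_iff.2 fun i _ => i.ne_bot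
  set I' : Finset (HeightOneSpectrum (𝓞 F)) → nonZeroDivisors (Ideal (𝓞 F)) := fun t =>
    ⟨I t, mem_nonZeroDivisors_iff_ne_zero.2 (hI0 t)⟩ with hI'
  set cl : Finset (HeightOneSpectrum (𝓞 F)) → ClassGroup (𝓞 F) := fun t =>
    ClassGroup.mk0 (I' t) with hcl
  -- first pigeonhole
  obtain ⟨C, -, hC⟩ := n3_pigeon W.powerset Finset.univ cl (fun _ _ => Finset.mem_univ _)
    ⟨1, Finset.mem_univ 1⟩
  set Φ₀ := W.powerset.filter (fun t => cl t = C) with hΦ₀
  rw [Finset.card_powerset, Finset.card_univ, ← hh] at hC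
  have hΦ₀ne : Φ₀.Nonempty := by
    rw [← Finset.card_pos]
    by_contra h1
    have h2 : Φ₀.card = 0 := by omega
    rw [h2, mul_zero] at hC
    have h3 : 0 < 2 ^ W.card := by positivity
    omega
  obtain ⟨t₀, ht₀⟩ := hΦ₀ne
  have hmem : ∀ t ∈ Φ₀, t ⊆ W ∧ cl t = C := by
    intro t ht
    rw [hΦ₀, Finset.mem_filter, Finset.mem_powerset] at ht
    exact ht
  set J : Ideal (𝓞 F) := I t₀ ^ (h - 1) with hJ
  have hJ0 : J ≠ 0 := pow_ne_zero _ (hI0 t₀)
  have hprin : ∀ t, ∃ a : 𝓞 F, t ∈ Φ₀ → Ideal.span {a} = I t * J := by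
    intro t
    by_cases ht : t ∈ Φ₀
    · have h1 : ClassGroup.mk0 (I' t * I' t₀ ^ (h - 1)) = 1 := by
        rw [map_mul, map_pow]
        have h2 : ClassGroup.mk0 (I' t) = C := (hmem t ht).2
        have h3 : ClassGroup.mk0 (I' t₀) = C := (hmem t₀ ht₀).2
        rw [h2, h3, ← pow_succ', Nat.sub_add_cancel hh0, hh, pow_card_eq_one]
      have h2 : (I t * J).IsPrincipal := by
        have h3 : I' t * I' t₀ ^ (h - 1) =
            ⟨I t * J, mem_nonZeroDivisors_iff_ne_zero.2 (mul_ne_zero (hI0 t) hJ0)⟩ := by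
          apply Subtype.ext
          rfl
        rw [h3] at h1
        exact (ClassGroup.mk0_eq_one_iff _).1 h1
      obtain ⟨a, ha⟩ := h2
      exact ⟨a, fun _ => ha.symm⟩
    · exact ⟨0, fun h1 => absurd h1 ht⟩
  choose a ha using hprin
  have ha0 : ∀ t ∈ Φ₀, a t ≠ 0 := by
    intro t ht h1
    have h2 := ha t ht
    rw [h1] at h2
    have h3 : I t * J = 0 := by
      rw [← h2, Ideal.zero_eq_bot, Ideal.span_singleton_eq_bot]
    exact mul_ne_zero (hI0 t) hJ0 h3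
  have hcop : ∀ t ∈ Φ₀, ∃ b : 𝓞 F, (M : 𝓞 F) ∣ a t * b - 1 := by
    intro t ht
    have h1 : ∀ t, t ⊆ W → IsCoprime (I t) (Ideal.span {(M : 𝓞 F)}) := fun t ht =>
      IsCoprime.prod_left fun i hi => hW i (ht hi)
    have h2 : IsCoprime (Ideal.span {a t}) (Ideal.span {(M : 𝓞 F)}) := by
      rw [ha t ht]
      exact (h1 t (hmem t ht).1).mul_left ((h1 t₀ (hmem t₀ ht₀).1).pow_left)
    rw [Ideal.isCoprime_span_singleton_iff] at h2
    obtain ⟨b, c, hbc⟩ := h2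
    exact ⟨b, -c, by linear_combination hbc⟩
  -- second pigeonhole
  obtain ⟨y, -, hy⟩ := n3_pigeon Φ₀ Finset.univ
    (fun t => Ideal.Quotient.mk (Ideal.span {(M : 𝓞 F)}) (a t)) (fun _ _ => Finset.mem_univ _)
    ⟨0, Finset.mem_univ 0⟩
  set Φ := Φ₀.filter (fun t => Ideal.Quotient.mk (Ideal.span {(M : 𝓞 F)}) (a t) = y) with hΦ
  rw [Finset.card_univ, ← hq] at hy
  have hΦne : Φ.Nonempty := by
    rw [← Finset.card_pos]
    by_contra h1
    have h2 : Φ.card = 0 := by omega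
    rw [h2, mul_zero] at hy
    have h3 : 0 < Φ₀.card := Finset.card_pos.2 ⟨t₀, ht₀⟩
    omega
  obtain ⟨t₁, ht₁⟩ := hΦne
  have hmemΦ : ∀ t ∈ Φ, t ∈ Φ₀ ∧ Ideal.Quotient.mk (Ideal.span {(M : 𝓞 F)}) (a t) = y := by
    intro t ht
    rw [hΦ, Finset.mem_filter] at ht
    exact ht
  refine ⟨Φ, a, t₁, ht₁, ?_, fun t ht => ?_⟩
  · calc 2 ^ W.card ≤ h * Φ₀.card := hC
      _ ≤ h * (q * Φ.card) := Nat.mul_le_mul_left _ hy
      _ = h * q * Φ.card := by ring
  · obtain ⟨h1, h2⟩ := hmemΦ t ht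
    obtain ⟨h3, h4⟩ := hmemΦ t₁ ht₁
    refine ⟨(hmem t h1).1, ha0 t h1, hcop t h1, ?_, fun w => ?_⟩
    · rw [← Ideal.mem_span_singleton, ← Ideal.Quotient.eq, h2, h4]
    · have h5 : ∀ t ∈ Φ₀, ord w (a t : F) = (if w ∈ t then 1 else 0) +
          FractionalIdeal.count F w (J : FractionalIdeal (nonZeroDivisors (𝓞 F)) F) := by
        intro t ht
        rw [n3_ord w (ha0 t ht), ha t ht, FractionalIdeal.coeIdeal_mul,
          FractionalIdeal.count_mul F w (FractionalIdeal.coeIdeal_ne_zero.2 (hI0 t))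
            (FractionalIdeal.coeIdeal_ne_zero.2 hJ0), n3_count]
      have h6 : (a t : F) ≠ 0 := fun h => ha0 t h1 (RingOfIntegers.ext h)
      have h7 : (a t₁ : F) ≠ 0 := fun h => ha0 t₁ h3 (RingOfIntegers.ext h)
      rw [ord_div w h6 h7, h5 t h1, h5 t₁ h3]
      ring

end H16A
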