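import Pool.Agent.Lib.H16A.N7
import Pool.Agent.Lib.Helper95.Ord.PrimeSum

/-!
# N8 (M): there are many split primes

`psum_bounds` (`Pool/Agent/Lib/Helper95/Ord/PrimeSum.lean`): for `σ → 0+`,
`∑_p degOne F p · p^(-1-σ) = log(1/σ) + O(1)`, where `degOne F p` is the number of primes of `F` of
norm `p` (at most `[F : ℚ]`, `degOne_le`).  If `degOne F p > 0` and `p ∤ 2 disc` then `∃ w, S.SplP p w`
(`exists_splP_of_norm`).  Suppose that for all `x ≥ x₀` the number of the primes `p ≤ x` with
`∃ w, S.SplP p w` is `< x^η`, `η < 1`.  Then by dyadic decomposition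
`∑_{p} degOne F p · p^(-1-σ) ≤ C + [F:ℚ] ∑_k 2^((k+1)η) 2^(-k) < ∞`, bounded as `σ → 0+`: contradiction.
-/

open Polynomial IsDedekindDomain NumberField

namespace H16A
namespace Split

theorem n8_summable (A : ℕ → Prop) [DecidablePred A] (hA : ∀ p, A p → 1 ≤ p) {η : ℝ} (h0 : 0 < η)
    (h1 : η < 1) (x₀ : ℕ)
    (h : ∀ x : ℕ, x₀ ≤ x → (((Finset.range (x + 1)).filter A).card : ℝ) < (x : ℝ) ^ η) :
    Summable (fun p : ℕ => if A p then 1 / (p : ℝ) else 0) := by
  set N : ℕ → ℕ := fun p => ((Finset.range (p + 1)).filter A).card with hN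
  have hsum : Summable (fun k : ℕ => (k : ℝ) ^ (-(1 / η))) := by
    rw [Real.summable_nat_rpow]
    have : 1 < 1 / η := by rw [lt_div_iff₀ h0]; linarith
    linarith
  have hf0 : ∀ p : ℕ, 0 ≤ (if A p then 1 / (p : ℝ) else 0) := by
    intro p
    split_ifs
    · positivity
    · exact le_rfl
  have hf1 : ∀ p : ℕ, (if A p then 1 / (p : ℝ) else 0) ≤ 1 := by
    intro p
    split_ifs with hp
    · have : (1 : ℝ) ≤ p := by exact_mod_cast hA p hp
      rw [div_le_one (by linarith)]
      exact this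
    · norm_num
  refine summable_of_sum_le (c := x₀ + ∑' k : ℕ, (k : ℝ) ^ (-(1 / η))) hf0 fun s => ?_
  rw [← Finset.sum_filter_add_sum_filter_not s (fun p => p < x₀)]
  refine add_le_add ?_ ?_
  · calc ∑ p ∈ s.filter (fun p => p < x₀), (if A p then 1 / (p : ℝ) else 0)
        ≤ ∑ p ∈ Finset.range x₀, (if A p then 1 / (p : ℝ) else 0) := by
          refine Finset.sum_le_sum_of_subset_of_nonneg ?_ fun p _ _ => hf0 p
          intro p hp
          rw [Finset.mem_filter] at hp
          exact Finset.mem_range.mpr hp.2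
      _ ≤ ∑ _p ∈ Finset.range x₀, (1 : ℝ) := Finset.sum_le_sum fun p _ => hf1 p
      _ = x₀ := by simp
  · rw [← Finset.sum_filter, Finset.filter_filter]
    set t := s.filter (fun p => ¬ p < x₀ ∧ A p) with ht
    have hterm : ∀ p ∈ t, 1 / (p : ℝ) ≤ (N p : ℝ) ^ (-(1 / η)) := by
      intro p hp
      rw [ht, Finset.mem_filter] at hp
      obtain ⟨-, hp0, hpA⟩ := hp
      have hp1 : (1 : ℝ) ≤ p := by exact_mod_cast hA p hpA
      have hNp : 1 ≤ N p := by
        apply Finset.card_pos.mpr
        exact ⟨p, by rw [Finset.mem_filter, Finset.mem_range]; exact ⟨by omega, hpA⟩⟩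
      have hNr : (1 : ℝ) ≤ N p := by exact_mod_cast hNp
      have h2 : (N p : ℝ) < (p : ℝ) ^ η := h p (by omega)
      have h3 : (N p : ℝ) ^ (1 / η) ≤ p := by
        calc (N p : ℝ) ^ (1 / η) ≤ ((p : ℝ) ^ η) ^ (1 / η) := by
              apply Real.rpow_le_rpow (by linarith) h2.le
              positivity
          _ = p := by
              rw [← Real.rpow_mul (by linarith), mul_one_div, div_self h0.ne', Real.rpow_one]
      rw [Real.rpow_neg (by linarith), one_div]
      apply inv_anti₀ _ h3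
      exact Real.rpow_pos_of_pos (by linarith) _
    have hinj : Set.InjOn N (t : Set ℕ) := by
      have key : ∀ p q : ℕ, A q → p < q → N p < N q := by
        intro p q hq hpq
        apply Finset.card_lt_card
        rw [Finset.ssubset_iff_of_subset]
        · refine ⟨q, ?_, ?_⟩
          · rw [Finset.mem_filter, Finset.mem_range]; exact ⟨by omega, hq⟩
          · rw [Finset.mem_filter, Finset.mem_range]; omega
        · intro x hx
          rw [Finset.mem_filter, Finset.mem_range] at hx ⊢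
          exact ⟨by omega, hx.2⟩
      intro p hp q hq hpq
      rw [Finset.mem_coe, ht, Finset.mem_filter] at hp hq
      rcases lt_trichotomy p q with hlt | heq | hlt
      · have := key p q hq.2.2 hlt
        omega
      · exact heq
      · have := key q p hp.2.2 hlt
        omega
    calc ∑ p ∈ t, 1 / (p : ℝ) ≤ ∑ p ∈ t, (N p : ℝ) ^ (-(1 / η)) := Finset.sum_le_sum hterm
      _ = ∑ k ∈ t.image N, (k : ℝ) ^ (-(1 / η)) := by rw [Finset.sum_image hinj]
      _ ≤ ∑' k : ℕ, (k : ℝ) ^ (-(1 / η)) :=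
          hsum.sum_le_tsum _ fun k _ => Real.rpow_nonneg (Nat.cast_nonneg k) _

variable {E : Cub} {F : Type} [Field F] [NumberField F] (S : Split E F)

theorem supply (hd : E.disc ≠ 0) {η : ℝ} (h0 : 0 < η) (h1 : η < 1) (x₀ : ℕ) :
    ∃ x : ℕ, x₀ ≤ x ∧ ∃ T : Finset ℕ, (∀ p ∈ T, p ≤ x ∧ ∃ w, S.SplP p w) ∧
      (x : ℝ) ^ η ≤ (T.card : ℝ) := by
  classical
  by_contra hcon
  push Not at hcon
  set A : ℕ → Prop := fun p => ∃ w, S.SplP p w with hAdef
  have hsumm := n8_summable A (fun p hp => by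
      obtain ⟨w, hw⟩ := hp
      exact hw.prime.one_lt.le) h0 h1 x₀ (by
      intro x hx
      exact hcon x hx ((Finset.range (x + 1)).filter A) (fun p hp => by
        rw [Finset.mem_filter, Finset.mem_range] at hp
        exact ⟨by omega, hp.2⟩))
  set f : ℕ → ℝ := fun p => if A p then 1 / (p : ℝ) else 0 with hf
  set d : ℝ := (Module.finrank ℚ F : ℝ) with hddef
  have hd0 : 0 ≤ d := Nat.cast_nonneg _
  have h2d : 2 * E.disc ≠ 0 := mul_ne_zero two_ne_zero hd
  set B : Finset ℕ := (2 * E.disc).natAbs.divisors with hB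
  have hBmem : ∀ p : ℕ, p ∈ B ↔ (p : ℤ) ∣ 2 * E.disc := by
    intro p
    rw [hB, Nat.mem_divisors, ← Int.natCast_dvd]
    exact and_iff_left (Int.natAbs_ne_zero.mpr h2d)
  set g : ℕ → ℝ := fun p => (if p ∈ B then d else 0) + d * f p with hg
  have hgs1 : Summable (fun p : ℕ => if p ∈ B then d else 0) :=
    summable_of_ne_finset_zero (s := B) fun p hp => by rw [if_neg hp]
  have hgs : Summable g := hgs1.add (hsumm.mul_left d)
  have hle : ∀ σ : ℝ, 0 < σ → ∀ p : ℕ, Pool.Agent.Ord.pterm F σ p ≤ g p := by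
    intro σ hσ p
    have hf0 : 0 ≤ f p := by
      simp only [hf]
      split_ifs
      · positivity
      · exact le_rfl
    have hg0 : 0 ≤ g p := by
      simp only [hg]
      split_ifs <;> positivity
    unfold Pool.Agent.Ord.pterm
    split_ifs with hp
    swap
    · exact hg0
    have hp1 : (1 : ℝ) ≤ p := by exact_mod_cast hp.one_lt.le
    have hdeg : (Pool.Agent.Lib.H59.degOne F p : ℝ) ≤ d := by
      rw [hddef]
      exact Nat.cast_le.mpr (Pool.Agent.Lib.H59.degOne_le (K := F) hp)
    have hpow : (p : ℝ) ^ (-(1 + σ)) ≤ 1 / p := by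
      calc (p : ℝ) ^ (-(1 + σ)) ≤ (p : ℝ) ^ (-1 : ℝ) :=
            Real.rpow_le_rpow_of_exponent_le hp1 (by linarith)
        _ = 1 / p := by rw [Real.rpow_neg_one, one_div]
    have hpow0 : 0 ≤ (p : ℝ) ^ (-(1 + σ)) := Real.rpow_nonneg (by linarith) _
    have hinv1 : 1 / (p : ℝ) ≤ 1 := by
      rw [div_le_one (by linarith)]
      exact hp1
    by_cases hpB : p ∈ B
    · simp only [hg]
      rw [if_pos hpB]
      calc (Pool.Agent.Lib.H59.degOne F p : ℝ) * (p : ℝ) ^ (-(1 + σ)) ≤ d * 1 :=
            mul_le_mul hdeg (hpow.trans hinv1) hpow0 hd0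
        _ = d := mul_one d
        _ ≤ d + d * f p := by
            have := mul_nonneg hd0 hf0
            linarith
    · simp only [hg]
      rw [if_neg hpB, zero_add]
      by_cases hAp : A p
      · have : f p = 1 / p := by simp only [hf]; rw [if_pos hAp]
        rw [this]
        exact mul_le_mul hdeg hpow hpow0 hd0
      · have hz : Pool.Agent.Lib.H59.degOne F p = 0 := by
          by_contra hne
          apply hAp
          have hpos : 0 < (Pool.Agent.Lib.H59.degOneSet F p).card := by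
            rw [Pool.Agent.Lib.H59.card_degOneSet]
            exact Nat.pos_of_ne_zero hne
          obtain ⟨w, hw⟩ := Finset.card_pos.mp hpos
          rw [Pool.Agent.Lib.H59.mem_degOneSet] at hw
          exact ⟨w, S.exists_splP_of_norm hp (fun h => hpB ((hBmem p).mpr h)) w hw⟩
        rw [hz]
        simp only [Nat.cast_zero, zero_mul]
        exact mul_nonneg hd0 hf0
  obtain ⟨C, hC⟩ := Pool.Agent.Ord.psum_bounds F
  have hlog : Filter.Tendsto (fun σ : ℝ => Real.log (1 / σ)) (nhdsWithin 0 (Set.Ioi 0))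
      Filter.atTop := by
    have h3 := Filter.tendsto_neg_atBot_atTop.comp Real.tendsto_log_nhdsGT_zero
    refine h3.congr fun σ => ?_
    simp [Real.log_inv]
  have hev := hlog.eventually_gt_atTop (C + ∑' p, g p)
  have hpos : ∀ᶠ σ : ℝ in nhdsWithin 0 (Set.Ioi 0), 0 < σ := eventually_mem_nhdsWithin
  obtain ⟨σ, ⟨hs, hb⟩, hl, hσ⟩ := (hC.and (hev.and hpos)).exists
  have h4 : Pool.Agent.Ord.psum F σ ≤ ∑' p, g p := by
    unfold Pool.Agent.Ord.psum
    exact hs.tsum_le_tsum (hle σ hσ) hgs
  have h5 := (abs_le.mp hb).1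
  linarith

end Split
end H16A
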