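import Pool.Agent.Lib.H16A.N7

/-!
# N9 (M): elements of `ℚ[θ]` that become squares in `K[θ]`, `K = ℚ(δ)`

Let `h = γ²` in `K[θ]`.  Choose an algebraically closed (or any) field `Ω` containing `F` and `K` (e.g.
the algebraic closure of `F`).  Evaluate at `e_i`: `h(e_i) = γ(e_i)²` with `h(e_i) ∈ F`,
`γ(e_i) ∈ K(e_i) ⊆ F + δ F` (`K = ℚ + δ ℚ` because `[K:ℚ] = 2` and `δ ∉ ℚ`, `D` not being a square:
`p ∥ D` for some `p ∈ T`; if `T` is empty there is nothing to prove).  `δ ∉ F`: otherwise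
`2 ord w δ = ord w D = 1` at `w = w_p`.  Write `γ(e_i) = x + y δ`, `x, y ∈ F`; `γ(e_i)² ∈ F` gives
`2 x y = 0`, so `h(e_i) = x²` or `h(e_i) = D y²`.  Put `ρ_i = 0` in the first case, `1` in the second:
`ord (w p) (h(e_i))` is even, respectively odd (`ord (w p) D = 1`: `SplP.ord_int`), for all `p ∈ T`.
-/

open Polynomial IsDedekindDomain NumberField

namespace H16A

/-- evaluation of an element of `K[θ]` at an element `t` of `Ω`: it lies in any subring that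
contains the image of `K` and `t` -/
theorem n9_evAt_mem {E : Cub} {K Ω : Type} [Field K] [Field Ω] (ψ : K →+* Ω) (t : Ω)
    (ht : E.val t = 0) (R : Subring Ω) (h1 : ∀ x, ψ x ∈ R) (h2 : t ∈ R) (g : E.Alg K) :
    E.evAt ψ t ht g ∈ R := by
  obtain ⟨g, rfl⟩ := AdjoinRoot.mk_surjective g
  unfold Cub.evAt
  rw [AdjoinRoot.lift_mk, eval₂_eq_sum_range]
  exact Subring.sum_mem _ fun n _ => Subring.mul_mem _ (h1 _) (Subring.pow_mem _ h2 _)

/-- the subring `F + δ F` -/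
def n9_ring {F Ω : Type} [Field F] [Field Ω] (ι : F →+* Ω) (d : Ω) (D : ℤ) (hd : d ^ 2 = (D : Ω)) :
    Subring Ω where
  carrier := {z | ∃ x y : F, z = ι x + ι y * d}
  mul_mem' := by
    rintro _ _ ⟨x, y, rfl⟩ ⟨x', y', rfl⟩
    refine ⟨x * x' + y * y' * D, x * y' + y * x', ?_⟩
    simp only [map_add, map_mul, map_intCast]
    linear_combination (ι y * ι y') * hd
  one_mem' := ⟨1, 0, by simp⟩
  add_mem' := by
    rintro _ _ ⟨x, y, rfl⟩ ⟨x', y', rfl⟩
    exact ⟨x + x', y + y', by simp only [map_add]; ring⟩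
  zero_mem' := ⟨0, 0, by simp⟩
  neg_mem' := by
    rintro _ ⟨x, y, rfl⟩
    exact ⟨-x, -y, by simp only [map_neg]; ring⟩

/-- if `[K : ℚ] = 2` and `δ ∉ ℚ` then `K = ℚ + ℚ δ` -/
theorem n9_span {K : Type} [Field K] [NumberField K] (hK : Module.finrank ℚ K = 2) (δ : K)
    (hδ : ∀ q : ℚ, algebraMap ℚ K q ≠ δ) (x : K) :
    ∃ a b : ℚ, x = algebraMap ℚ K a + algebraMap ℚ K b * δ := by
  have hli : LinearIndependent ℚ ![(1 : K), δ] := by
    rw [LinearIndependent.pair_iff]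
    intro s t hst
    by_cases ht : t = 0
    · subst ht
      refine ⟨?_, rfl⟩
      simpa using hst
    · exfalso
      apply hδ (-s / t)
      have ht' : algebraMap ℚ K t ≠ 0 := (_root_.map_ne_zero _).2 ht
      rw [Algebra.smul_def, Algebra.smul_def] at hst
      rw [map_div₀, map_neg, div_eq_iff ht']
      linear_combination -hst
  have hsp := hli.span_eq_top_of_card_eq_finrank (by simp [hK])
  have hx : x ∈ Submodule.span ℚ (Set.range ![(1 : K), δ]) := by rw [hsp]; trivial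
  rw [Matrix.range_cons, Matrix.range_cons, Matrix.range_empty, Set.union_empty,
    Set.singleton_union, Submodule.mem_span_pair] at hx
  obtain ⟨a, b, rfl⟩ := hx
  exact ⟨a, b, by rw [Algebra.smul_def, Algebra.smul_def, mul_one]⟩

namespace Split

variable {E : Cub} {F : Type} [Field F] [NumberField F] (S : Split E F)

theorem n9_comp {Ω : Type} [Field Ω] {K : Type} [Field K] [NumberField K] (ι : F →+* Ω)
    (ψ : K →+* Ω) (i : Fin 3) (he : E.val (ι (S.e i)) = 0) (h : E.Alg ℚ) :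
    E.evAt ψ (ι (S.e i)) he (E.algMap (algebraMap ℚ K) h) = ι (S.ev i h) := by
  have H : (E.evAt ψ (ι (S.e i)) he).comp (E.algMap (algebraMap ℚ K)) = ι.comp (S.ev i) := by
    apply AdjoinRoot.ringHom_ext
    · exact RingHom.ext_rat _ _
    · simp only [RingHom.comp_apply]
      unfold Cub.algMap Split.ev Cub.evAt
      rw [AdjoinRoot.map_root, AdjoinRoot.lift_root, AdjoinRoot.lift_root]
  exact congrArg (fun f => f h) H

/-- `δ` is not in `F` -/
theorem n9_notMem {D : ℤ} {p : ℕ} {w : HeightOneSpectrum (𝓞 F)} (hp : S.SplP p w)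
    (h1 : (p : ℤ) ∣ D) (h2 : ¬ (p : ℤ) ^ 2 ∣ D) (d : F) : d ^ 2 ≠ (D : F) := by
  intro h
  have h3 := hp.ord_int h1 h2
  rw [← h, ord_pow] at h3
  push_cast at h3
  omega

/-- the dichotomy -/
theorem n9_dich {K : Type} [Field K] [NumberField K] (hK : Module.finrank ℚ K = 2) (δ : K)
    (D : ℤ) (hδ : δ ^ 2 = (D : K)) (hF : ∀ d : F, d ^ 2 ≠ (D : F)) (h : (E.Alg ℚ)ˣ)
    (hsq : E.uMap (algebraMap ℚ K) h ∈ sqSub (E.Alg K)) (i : Fin 3) :
    ∃ x : F, S.ev i (h : E.Alg ℚ) = x ^ 2 ∨ (x ≠ 0 ∧ S.ev i (h : E.Alg ℚ) = D * x ^ 2) := by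
  rw [mem_sqSub_iff] at hsq
  obtain ⟨γ, hγ⟩ := hsq
  let ι : F →+* AlgebraicClosure F := algebraMap F (AlgebraicClosure F)
  have : Algebra.IsAlgebraic ℚ K := inferInstance
  let ψ : K →+* AlgebraicClosure F :=
    ((IsAlgClosed.lift : K →ₐ[ℚ] AlgebraicClosure F) : K →+* AlgebraicClosure F)
  have he : E.val (ι (S.e i)) = 0 := by
    have h2 := congrArg ι (S.root i)
    simpa [Cub.val] using h2
  have hd : (ψ δ) ^ 2 = (D : AlgebraicClosure F) := by
    rw [← map_pow, hδ, map_intCast]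
  have hnot : ∀ d : F, ι d ≠ ψ δ := by
    intro d h
    apply hF d
    apply ι.injective
    rw [map_pow, h, hd, map_intCast]
  have hQ : ∀ q : ℚ, algebraMap ℚ K q ≠ δ := by
    intro q h
    apply hnot (algebraMap ℚ F q)
    rw [← h]
    exact RingHom.congr_fun (RingHom.ext_rat (ι.comp (algebraMap ℚ F)) (ψ.comp (algebraMap ℚ K))) q
  have hmem : E.evAt ψ (ι (S.e i)) he γ ∈ n9_ring ι (ψ δ) D hd := by
    apply n9_evAt_mem
    · intro x
      obtain ⟨a, b, rfl⟩ := n9_span hK δ hQ x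
      refine ⟨algebraMap ℚ F a, algebraMap ℚ F b, ?_⟩
      have hc : ∀ q : ℚ, ψ (algebraMap ℚ K q) = ι (algebraMap ℚ F q) := fun q =>
        RingHom.congr_fun (RingHom.ext_rat (ψ.comp (algebraMap ℚ K)) (ι.comp (algebraMap ℚ F))) q
      rw [map_add, map_mul, hc, hc]
    · exact ⟨S.e i, 0, by simp⟩
  obtain ⟨x, y, hxy⟩ := hmem
  have key : ι (S.ev i (h : E.Alg ℚ)) = (ι x + ι y * ψ δ) ^ 2 := by
    rw [← S.n9_comp ι ψ i he, ← hxy]
    have h5 : E.algMap (algebraMap ℚ K) (h : E.Alg ℚ) = γ * γ := hγ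
    rw [h5, map_mul, pow_two]
  have key2 : ι (S.ev i (h : E.Alg ℚ)) = ι (x ^ 2 + y ^ 2 * D) + ι (2 * x * y) * ψ δ := by
    rw [key]
    simp only [map_add, map_mul, map_pow, map_intCast, map_ofNat]
    linear_combination (ι y) ^ 2 * hd
  have hzero : 2 * x * y = 0 := by
    by_contra hne
    apply hnot ((S.ev i (h : E.Alg ℚ) - (x ^ 2 + y ^ 2 * D)) / (2 * x * y))
    have hne' : ι (2 * x * y) ≠ 0 := (_root_.map_ne_zero ι).2 hne
    rw [map_div₀, map_sub, div_eq_iff hne']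
    linear_combination key2
  rw [hzero, map_zero, zero_mul, add_zero] at key2
  have key3 := ι.injective key2
  by_cases hy : y = 0
  · exact ⟨x, Or.inl (by rw [key3, hy]; ring)⟩
  · have hx : x = 0 := by
      rcases mul_eq_zero.1 hzero with h6 | h6
      · rcases mul_eq_zero.1 h6 with h7 | h7
        · exact absurd h7 two_ne_zero
        · exact h7
      · exact absurd h6 hy
    exact ⟨y, Or.inr ⟨hy, by rw [key3, hx]; ring⟩⟩

theorem parity_const (K : Type) [Field K] [NumberField K] (hK : Module.finrank ℚ K = 2) (δ : K)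
    (D : ℤ) (hδ : δ ^ 2 = (D : K)) (T : Finset ℕ) (w : ℕ → HeightOneSpectrum (𝓞 F))
    (hT : ∀ p ∈ T, S.SplP p (w p) ∧ (p : ℤ) ∣ D ∧ ¬ (p : ℤ) ^ 2 ∣ D) (h : (E.Alg ℚ)ˣ)
    (hsq : E.uMap (algebraMap ℚ K) h ∈ sqSub (E.Alg K)) :
    ∃ ρ : Fin 3 → Fin 2, ∀ p ∈ T, ∀ i, Even (ord (w p) (S.ev i (h : E.Alg ℚ)) - (ρ i : ℕ)) := by
  classical
  by_cases hTe : T = ∅
  · subst hTe
    exact ⟨fun _ => 0, fun p hp => absurd hp (Finset.notMem_empty p)⟩
  obtain ⟨p₀, hp₀⟩ := Finset.nonempty_iff_ne_empty.2 hTe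
  have hF : ∀ d : F, d ^ 2 ≠ (D : F) :=
    S.n9_notMem (hT p₀ hp₀).1 (hT p₀ hp₀).2.1 (hT p₀ hp₀).2.2
  have hex : ∀ i : Fin 3, ∃ ρ : Fin 2, ∀ p ∈ T, Even (ord (w p) (S.ev i (h : E.Alg ℚ)) - (ρ : ℕ)) := by
    intro i
    obtain ⟨x, hx | ⟨hx0, hx⟩⟩ := S.n9_dich hK δ D hδ hF h hsq i
    · refine ⟨0, fun p hp => ?_⟩
      rw [hx, ord_pow]
      simp
    · refine ⟨1, fun p hp => ?_⟩
      have hD0 : (D : F) ≠ 0 := fun h0 => hF 0 (by rw [h0]; simp)
      rw [hx, ord_mul _ hD0 (pow_ne_zero 2 hx0), ord_pow,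
        (hT p hp).1.ord_int (hT p hp).2.1 (hT p hp).2.2]
      simp
  choose ρ hρ using hex
  exact ⟨ρ, fun p hp i => hρ i p hp⟩

end Split
end H16A
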