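import Pool.Agent.Lib.H16A.H3

/-!
# S1 (M): the complex places

* `isComplex_of_neg`: if `v` were real, `v.embedding δ` would be a real number with negative square.
* `mem_imSub_complex`: `K_v ≅ ℂ` (`InfinitePlace.Completion.ringEquivComplexOfIsComplex`) is
  algebraically closed, so every unit `u` of `K_v[θ]` is a square (`isSquare_iff_local` of H2: every
  surjective `φ : K_v[θ] → M` to a field has `M` algebraic over `K_v`, so `M = K_v`; or split `f` and use
  the Chinese remainder theorem), and squares lie in `imSub` (`sqSub_le_imSub`).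
-/

open Polynomial IsDedekindDomain NumberField

namespace H16A
namespace Cub

variable (E : Cub)

theorem s1_isAlgClosed {L : Type*} [Field L] (e : L ≃+* ℂ) : IsAlgClosed L := by
  apply IsAlgClosed.of_exists_root
  intro p _ hirr
  have hdeg : (p.map (e : L →+* ℂ)).degree ≠ 0 := by
    rw [degree_map]
    exact hirr.degree_pos.ne'
  obtain ⟨x, hx⟩ := IsAlgClosed.exists_root (p.map (e : L →+* ℂ)) hdeg
  refine ⟨e.symm x, ?_⟩
  apply e.injective
  have h := Polynomial.eval_map_apply (f := (e : L →+* ℂ)) (p := p) (e.symm x)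
  rw [RingHom.coe_coe, RingEquiv.apply_symm_apply] at h
  rw [map_zero, ← h]
  exact hx

theorem s1_isSquare_of_isAlgClosed {L : Type*} [Field L] [IsAlgClosed L]
    (hd : ((E.disc : ℤ) : L) ≠ 0) (u : E.Alg L) : IsSquare u := by
  rw [E.isSquare_iff_local hd]
  intro M _ φ hφ
  letI : Algebra L M := (φ.comp (algebraMap L (E.Alg L))).toAlgebra
  have hfin : Module.Finite L (E.Alg L) := (E.poly_monic L).finite_adjoinRoot
  let φ' : E.Alg L →ₐ[L] M := { φ with commutes' := fun _ => rfl }
  have hfinM : Module.Finite L M :=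
    Module.Finite.of_surjective φ'.toLinearMap hφ
  have hbij := IsAlgClosed.algebraMap_bijective_of_isIntegral (k := L) (K := M)
  obtain ⟨l, hl⟩ := hbij.2 (φ u)
  obtain ⟨z, hz⟩ := IsAlgClosed.exists_eq_mul_self l
  exact ⟨algebraMap L M z, by rw [← map_mul, ← hz, hl]⟩

theorem mem_imSub_complex (K : Type*) [Field K] [NumberField K] (v : InfinitePlace K)
    (hv : v.IsComplex) (hd : E.disc ≠ 0) (u : (E.Alg v.Completion)ˣ) : u ∈ E.imSub v.Completion := by
  have e := InfinitePlace.Completion.ringEquivComplexOfIsComplex hv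
  have hac : IsAlgClosed v.Completion := s1_isAlgClosed e
  have hch : CharZero v.Completion := charZero_of_injective_ringHom
    (f := (e.symm : ℂ →+* v.Completion)) e.symm.injective
  have hd' : ((E.disc : ℤ) : v.Completion) ≠ 0 := by exact_mod_cast hd
  apply E.sqSub_le_imSub
  rw [mem_sqSub_iff]
  exact E.s1_isSquare_of_isAlgClosed hd' _

theorem isComplex_of_neg (K : Type*) [Field K] [NumberField K] (δ : K) (D : ℤ) (hD : D < 0)
    (hδ : δ ^ 2 = (D : K)) (v : InfinitePlace K) : v.IsComplex := by
  rw [← InfinitePlace.not_isReal_iff_isComplex]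
  intro hv
  have h1 := congrArg (InfinitePlace.embedding_of_isReal hv) hδ
  rw [map_pow, map_intCast] at h1
  have h2 : ((D : ℤ) : ℝ) < 0 := by exact_mod_cast hD
  have h3 := sq_nonneg (InfinitePlace.embedding_of_isReal hv δ)
  linarith

end Cub
end H16A
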