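import Pool.Agent.Lib.H16A.N1
import Pool.Agent.Lib.H16A.V2

/-!
# U1 (M): the map `β_D : E^D(ℚ) → (Fˣ/squares)³`

`D ≠ 0`; `D e_i` are the roots of the cubic of `E^D` in `F`.
* `beta_add`: `dl_add` (H1) over `F` for the curve `E.twist D`, and `ptMap` is additive.
* `beta_prod`: `∏ (x - D e_i) = y²`; at the point `(D e_0, 0)`:
  `f_D'(D e_0) (D e_0 - D e_1)(D e_0 - D e_2) = f_D'(D e_0)²` (`der_eq_of_roots`).
* `beta_galois`: `σ(x - D e_i) = x - D e_{σ i}` for `x ∈ ℚ`; if `x = D e_i` then `e_i` is rational and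
  `σ i = i` (`e` is injective), `f_D'(D e_i)` rational.
* `mem_G_iff`: the image of `β_D` is a subgroup.
* `par_beta`: let `w` lie above `p`, `p ∤ 2 disc`, `p ∤ D`.  `P = (x, y)`.  `ord (D e_i - D e_j) = 0` for
  `i ≠ j`, `ord (D e_i) ≥ 0`.  If `ord x < 0` then `ord (x - D e_i) = ord x` for all `i`, and
  `3 ord x = 2 ord y`, so it is even.  If `ord x ≥ 0` (or `x = 0`), at most one of the `x - D e_i` has positive order,
  the others have order `0`, and the sum of the three orders is `2 ord y`.  If `x = D e_i`: the other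
  differences and `f_D'(D e_i)` have order `0`.
* `G_le_Hs`: from these.
-/

open Polynomial IsDedekindDomain NumberField

namespace H16A

section General

variable (E : Cub) {M : Type*} [Field M]

theorem u1_coef {r : Fin 3 → M} (hr : E.poly M = ∏ i, (X - C (r i))) :
    E.poly M = (X - C (r 0)) * (X - C (r 1)) * (X - C (r 2)) := by
  rw [hr, Fin.prod_univ_three]

theorem u1_val {r : Fin 3 → M} (hr : E.poly M = ∏ i, (X - C (r i))) (x : M) :
    E.val x = (x - r 0) * (x - r 1) * (x - r 2) := by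
  rw [← E.eval_poly, u1_coef E hr]
  simp only [eval_mul, eval_sub, eval_X, eval_C]

theorem u1_eqn {x y : M} (h : (WeierstrassCurve.Affine.baseChange E.W M).Nonsingular x y) :
    y ^ 2 = E.val x := by
  have h1 := (WeierstrassCurve.Affine.equation_iff _ _).1 h.1
  have ha1 : (WeierstrassCurve.Affine.baseChange E.W M).a₁ = 0 := by simp [Cub.W]
  have ha2 : (WeierstrassCurve.Affine.baseChange E.W M).a₂ = (E.a : M) := by simp [Cub.W]
  have ha3 : (WeierstrassCurve.Affine.baseChange E.W M).a₃ = 0 := by simp [Cub.W]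
  have ha4 : (WeierstrassCurve.Affine.baseChange E.W M).a₄ = (E.b : M) := by simp [Cub.W]
  have ha6 : (WeierstrassCurve.Affine.baseChange E.W M).a₆ = (E.c : M) := by simp [Cub.W]
  rw [ha1, ha2, ha3, ha4, ha6] at h1
  unfold Cub.val
  linear_combination h1

theorem u1_prod {r : Fin 3 → M} (hr : E.poly M = ∏ i, (X - C (r i)))
    (hinj : Function.Injective r) (P : E.Pt M) : ∏ i, E.dl (r i) P = 1 := by
  classical
  rcases P with _ | ⟨x, y, h⟩
  · exact Finset.prod_eq_one fun i _ => rfl
  · have h01 : r 0 ≠ r 1 := fun h => absurd (hinj h) (by decide)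
    have h02 : r 0 ≠ r 2 := fun h => absurd (hinj h) (by decide)
    have h12 : r 1 ≠ r 2 := fun h => absurd (hinj h) (by decide)
    obtain ⟨d0, d1, d2⟩ := E.der_eq_of_roots (u1_coef E hr)
    rw [Fin.prod_univ_three, Cub.h1_dl_some, Cub.h1_dl_some, Cub.h1_dl_some]
    by_cases c0 : x = r 0
    · subst c0
      rw [if_pos rfl, if_neg h01, if_neg h02, d0,
        cls_mul (sub_ne_zero.2 h01) (sub_ne_zero.2 h02), mul_assoc, sqC_mul_self]
    · by_cases c1 : x = r 1
      · subst c1
        rw [if_pos rfl, if_neg h01.symm, if_neg h12, d1,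
          cls_mul (sub_ne_zero.2 h01.symm) (sub_ne_zero.2 h12), ← mul_assoc (cls _),
          sqC_mul_self, one_mul, sqC_mul_self]
      · by_cases c2 : x = r 2
        · subst c2
          rw [if_pos rfl, if_neg h02.symm, if_neg h12.symm, d2,
            cls_mul (sub_ne_zero.2 h02.symm) (sub_ne_zero.2 h12.symm), sqC_mul_self]
        · rw [if_neg c0, if_neg c1, if_neg c2,
            ← cls_mul (sub_ne_zero.2 c0) (sub_ne_zero.2 c1),
            ← cls_mul (mul_ne_zero (sub_ne_zero.2 c0) (sub_ne_zero.2 c1)) (sub_ne_zero.2 c2),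
            cls_eq_one_iff (mul_ne_zero (mul_ne_zero (sub_ne_zero.2 c0) (sub_ne_zero.2 c1))
              (sub_ne_zero.2 c2)), ← u1_val E hr]
          exact ⟨y, by rw [← u1_eqn E h, pow_two]⟩

end General

section Ord

variable {F : Type*} [Field F] [NumberField F] (w : HeightOneSpectrum (𝓞 F))

theorem u1_sub_nonneg {x y : F} (hx : 0 ≤ ord w x) (hy : 0 ≤ ord w y) : 0 ≤ ord w (x - y) := by
  by_cases h : x - y = 0
  · rw [h, v1_ord_zero]
  by_cases hx0 : x = 0
  · rw [hx0, zero_sub, ord_neg]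
    exact hy
  by_cases hy0 : y = 0
  · rw [hy0, sub_zero]
    exact hx
  · rw [sub_eq_add_neg] at h ⊢
    have h1 := le_ord_add w h hx0 (neg_ne_zero.2 hy0)
    rw [ord_neg] at h1
    exact le_trans (le_min hx hy) h1

theorem u1_sub_of_neg {x y : F} (hx : ord w x < 0) (hy : 0 ≤ ord w y) :
    ord w (x - y) = ord w x := by
  have hx0 : x ≠ 0 := by
    rintro rfl
    rw [v1_ord_zero] at hx
    exact lt_irrefl _ hx
  by_cases hy0 : y = 0
  · rw [hy0, sub_zero]
  · rw [sub_eq_add_neg]
    exact (ord_add_of_lt w hx0 (neg_ne_zero.2 hy0) (by rw [ord_neg]; omega)).2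

theorem u1_par (E : Cub) {r : Fin 3 → F} (hr : E.poly F = ∏ i, (X - C (r i)))
    (hinj : Function.Injective r) (h0 : ∀ i, 0 ≤ ord w (r i))
    (h1 : ∀ i j, i ≠ j → ord w (r i - r j) = 0) (P : E.Pt F) (i : Fin 3) :
    par w (E.dl (r i) P) = 1 := by
  classical
  rcases P with _ | ⟨x, y, h⟩
  · exact map_one _
  · obtain ⟨d0, d1, d2⟩ := E.der_eq_of_roots (u1_coef E hr)
    have hne : ∀ i j : Fin 3, i ≠ j → r i - r j ≠ 0 := fun i j hij =>
      sub_ne_zero.2 fun h => hij (hinj h)
    have hder : ∀ i, E.der (r i) ≠ 0 ∧ ord w (E.der (r i)) = 0 := by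
      intro i
      fin_cases i
      · change E.der (r 0) ≠ 0 ∧ ord w (E.der (r 0)) = 0
        have a := hne 0 1 (by decide)
        have b := hne 0 2 (by decide)
        rw [d0, ord_mul w a b, h1 0 1 (by decide), h1 0 2 (by decide)]
        exact ⟨mul_ne_zero a b, rfl⟩
      · change E.der (r 1) ≠ 0 ∧ ord w (E.der (r 1)) = 0
        have a := hne 1 0 (by decide)
        have b := hne 1 2 (by decide)
        rw [d1, ord_mul w a b, h1 1 0 (by decide), h1 1 2 (by decide)]
        exact ⟨mul_ne_zero a b, rfl⟩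
      · change E.der (r 2) ≠ 0 ∧ ord w (E.der (r 2)) = 0
        have a := hne 2 0 (by decide)
        have b := hne 2 1 (by decide)
        rw [d2, ord_mul w a b, h1 2 0 (by decide), h1 2 1 (by decide)]
        exact ⟨mul_ne_zero a b, rfl⟩
    rw [Cub.h1_dl_some]
    by_cases hx : x = r i
    · rw [if_pos hx, par_cls_eq_one_iff w (hder i).1, (hder i).2]
      exact Even.zero
    · rw [if_neg hx, par_cls_eq_one_iff w (sub_ne_zero.2 hx)]
      by_cases hj : ∃ j, x = r j
      · obtain ⟨j, hj⟩ := hj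
        have hji : j ≠ i := by
          rintro rfl
          exact hx hj
        rw [hj, h1 j i hji]
        exact Even.zero
      · push Not at hj
        have hprod : y ^ 2 = (x - r 0) * (x - r 1) * (x - r 2) := by
          rw [u1_eqn E h, u1_val E hr]
        have n0 := sub_ne_zero.2 (hj 0)
        have n1 := sub_ne_zero.2 (hj 1)
        have n2 := sub_ne_zero.2 (hj 2)
        have hsum : 2 * ord w y = ord w (x - r 0) + ord w (x - r 1) + ord w (x - r 2) := by
          have h2 := congrArg (ord w) hprod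
          rw [ord_pow, ord_mul w (mul_ne_zero n0 n1) n2, ord_mul w n0 n1] at h2
          exact_mod_cast h2
        by_cases hxn : ord w x < 0
        · rw [u1_sub_of_neg w hxn (h0 i)]
          rw [u1_sub_of_neg w hxn (h0 0), u1_sub_of_neg w hxn (h0 1),
            u1_sub_of_neg w hxn (h0 2)] at hsum
          exact ⟨ord w y - ord w x, by omega⟩
        · push Not at hxn
          have hnn : ∀ j, 0 ≤ ord w (x - r j) := fun j => u1_sub_nonneg w hxn (h0 j)
          have hone : ∀ j k : Fin 3, j ≠ k → 0 < ord w (x - r j) → ord w (x - r k) = 0 := by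
            intro j k hjk hpos
            by_contra hk
            have hk' : 0 < ord w (x - r k) := lt_of_le_of_ne (hnn k) (Ne.symm hk)
            have h3 : r j - r k = (x - r k) + -(x - r j) := by ring
            have h4 : (x - r k) + -(x - r j) ≠ 0 := h3 ▸ hne j k hjk
            have h5 := le_ord_add w h4 (sub_ne_zero.2 (hj k)) (neg_ne_zero.2 (sub_ne_zero.2 (hj j)))
            rw [← h3, h1 j k hjk, ord_neg] at h5
            rcases min_le_iff.1 h5 with h6 | h6 <;> omega
          have a0 := hnn 0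
          have a1 := hnn 1
          have a2 := hnn 2
          have b01 := hone 0 1 (by decide)
          have b02 := hone 0 2 (by decide)
          have b10 := hone 1 0 (by decide)
          have b12 := hone 1 2 (by decide)
          have b20 := hone 2 0 (by decide)
          have b21 := hone 2 1 (by decide)
          fin_cases i
          · change Even (ord w (x - r 0))
            rcases eq_or_lt_of_le a0 with h6 | h6
            · rw [← h6]; exact Even.zero
            · exact ⟨ord w y, by have := b01 h6; have := b02 h6; omega⟩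
          · change Even (ord w (x - r 1))
            rcases eq_or_lt_of_le a1 with h6 | h6
            · rw [← h6]; exact Even.zero
            · exact ⟨ord w y, by have := b10 h6; have := b12 h6; omega⟩
          · change Even (ord w (x - r 2))
            rcases eq_or_lt_of_le a2 with h6 | h6
            · rw [← h6]; exact Even.zero
            · exact ⟨ord w y, by have := b20 h6; have := b21 h6; omega⟩

theorem u1_ord_intCast {p : ℕ} (hp : p.Prime) (hw : (p : 𝓞 F) ∈ w.asIdeal) {n : ℤ}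
    (hn : ¬ (p : ℤ) ∣ n) : ord w (n : F) = 0 := by
  have h1 := ord_rat w hp hw (n : ℚ)
  rw [Rat.cast_intCast, padicValRat.of_int, padicValInt.eq_zero_of_not_dvd hn] at h1
  rw [h1]
  simp

end Ord

namespace Split

variable {E : Cub} {F : Type} [Field F] [NumberField F] (S : Split E F)

theorem twist_poly (D : ℤ) :
    (E.twist D).poly F = ∏ i, (X - C ((D : F) * S.e i)) := by
  have h := S.poly_eq
  rw [Fin.prod_univ_three, Cub.h1_coeffs, Cubic.prod_X_sub_C_eq, Cubic.toPoly_injective] at h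
  simp only [Cubic.mk.injEq, true_and] at h
  obtain ⟨k1, k2, k3⟩ := h
  rw [Fin.prod_univ_three, Cub.h1_coeffs, Cubic.prod_X_sub_C_eq, Cubic.toPoly_injective]
  simp only [Cubic.mk.injEq, true_and, Cub.twist]
  push_cast
  rw [k1, k2, k3]
  refine ⟨by ring, by ring, by ring⟩

theorem u1_inj {D : ℤ} (hD : D ≠ 0) : Function.Injective fun i => (D : F) * S.e i := by
  intro i j h
  exact S.inj (mul_left_cancel₀ (Int.cast_ne_zero.2 hD) h)

theorem beta_zero (D : ℤ) : S.beta D 0 = 1 := by
  funext i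
  unfold beta
  rw [map_zero]
  rfl

include S in
theorem u1_disc {D : ℤ} (hD : D ≠ 0) : (((E.twist D).disc : ℤ) : F) ≠ 0 := by
  rw [Int.cast_ne_zero, Cub.disc_twist]
  exact mul_ne_zero S.disc_ne_zero (pow_ne_zero _ hD)

theorem u1_root (D : ℤ) (i : Fin 3) : (E.twist D).val ((D : F) * S.e i) = 0 := by
  rw [← Cub.eval_poly, S.twist_poly, eval_prod]
  exact Finset.prod_eq_zero (Finset.mem_univ i) (by simp)

theorem beta_add {D : ℤ} (hD : D ≠ 0) (P Q : (E.twist D).Pt ℚ) :
    S.beta D (P + Q) = S.beta D P * S.beta D Q := by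
  classical
  funext i
  change S.beta D (P + Q) i = S.beta D P i * S.beta D Q i
  unfold beta
  rw [map_add]
  exact Cub.dl_add _ two_ne_zero _ (S.u1_root D i)
    (Cub.der_ne_zero _ (S.u1_root D i) (S.u1_disc hD)) _ _

theorem mem_G_iff {D : ℤ} (hD : D ≠ 0) (b : Fin 3 → SqC F) :
    b ∈ S.G D ↔ ∃ P, S.beta D P = b := by
  constructor
  · intro h
    unfold G at h
    induction h using Subgroup.closure_induction with
    | mem x hx => exact hx
    | one => exact ⟨0, S.beta_zero D⟩
    | mul x y _ _ hx hy =>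
      obtain ⟨P, rfl⟩ := hx
      obtain ⟨Q, rfl⟩ := hy
      exact ⟨P + Q, S.beta_add hD P Q⟩
    | inv x _ hx =>
      obtain ⟨P, rfl⟩ := hx
      refine ⟨P, ?_⟩
      funext i
      rw [Pi.inv_apply, eq_inv_iff_mul_eq_one]
      exact sqC_mul_self _
  · rintro ⟨P, rfl⟩
    exact Subgroup.subset_closure ⟨P, rfl⟩

theorem beta_prod {D : ℤ} (hD : D ≠ 0) (P : (E.twist D).Pt ℚ) : ∏ i, S.beta D P i = 1 := by
  unfold beta
  exact u1_prod (E.twist D) (S.twist_poly D) (S.u1_inj hD) _

open Classical in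
theorem u1_ptMap (E' : Cub) (σ : F ≃ₐ[ℚ] F) (P : E'.Pt ℚ) :
    E'.ptMap (σ : F →+* F) (E'.ptMap (algebraMap ℚ F) P) = E'.ptMap (algebraMap ℚ F) P := by
  rcases P with _ | ⟨x, y, h⟩
  · rfl
  · unfold Cub.ptMap
    rw [WeierstrassCurve.Affine.Point.map_some, WeierstrassCurve.Affine.Point.map_some]
    have hx : ∀ z : ℚ, ((σ : F →+* F).toIntAlgHom : F → F) ((algebraMap ℚ F).toIntAlgHom z) =
        (algebraMap ℚ F).toIntAlgHom z := fun z => σ.commutes z
    simp only [hx]

theorem beta_galois {D : ℤ} (hD : D ≠ 0) (P : (E.twist D).Pt ℚ) (σ : F ≃ₐ[ℚ] F) (i : Fin 3) :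
    sqMap (σ : F →+* F) (S.beta D P i) = S.beta D P (S.perm σ i) := by
  classical
  unfold beta
  rw [← Cub.dl_ptMap, u1_ptMap]
  have h : (σ : F →+* F) ((D : F) * S.e i) = (D : F) * S.e (S.perm σ i) := by
    rw [map_mul, map_intCast]
    congr 1
    exact S.perm_spec σ i
  rw [h]

theorem u1_diff_ord {p : ℕ} (hp : p.Prime)
    (hgood : ¬ (p : ℤ) ∣ 2 * E.disc) {w : HeightOneSpectrum (𝓞 F)}
    (hw : (p : 𝓞 F) ∈ w.asIdeal) (i j : Fin 3) (hij : i ≠ j) : ord w (S.e i - S.e j) = 0 := by
  have hpd : ¬ (p : ℤ) ∣ E.disc := fun h => hgood (Dvd.dvd.mul_left h 2)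
  have hd := u1_ord_intCast w hp hw hpd
  have hint : ∀ i, 0 ≤ ord w (S.e i) := by
    intro i
    obtain ⟨a, ha⟩ := S.e_integral i
    rw [← ha]
    exact ord_int_nonneg w a
  have hne : ∀ i j : Fin 3, i ≠ j → S.e i - S.e j ≠ 0 := fun i j hij =>
    sub_ne_zero.2 fun h => hij (S.inj h)
  have n01 := hne 0 1 (by decide)
  have n02 := hne 0 2 (by decide)
  have n12 := hne 1 2 (by decide)
  have a01 := u1_sub_nonneg w (hint 0) (hint 1)
  have a02 := u1_sub_nonneg w (hint 0) (hint 2)
  have a12 := u1_sub_nonneg w (hint 1) (hint 2)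
  rw [S.disc_eq, ord_pow, ord_mul w (mul_ne_zero n01 n02) n12, ord_mul w n01 n02] at hd
  push_cast at hd
  have k01 : ord w (S.e 0 - S.e 1) = 0 := by omega
  have k02 : ord w (S.e 0 - S.e 2) = 0 := by omega
  have k12 : ord w (S.e 1 - S.e 2) = 0 := by omega
  have k10 : ord w (S.e 1 - S.e 0) = 0 := by rw [← neg_sub, ord_neg]; exact k01
  have k20 : ord w (S.e 2 - S.e 0) = 0 := by rw [← neg_sub, ord_neg]; exact k02
  have k21 : ord w (S.e 2 - S.e 1) = 0 := by rw [← neg_sub, ord_neg]; exact k12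
  fin_cases i <;> fin_cases j
  · exact absurd rfl hij
  · exact k01
  · exact k02
  · exact k10
  · exact absurd rfl hij
  · exact k12
  · exact k20
  · exact k21
  · exact absurd rfl hij

theorem par_beta {D : ℤ} (hD : D ≠ 0) (P : (E.twist D).Pt ℚ) {p : ℕ} (hp : p.Prime)
    (hgood : ¬ (p : ℤ) ∣ 2 * E.disc) (hpD : ¬ (p : ℤ) ∣ D) {w : HeightOneSpectrum (𝓞 F)}
    (hw : (p : 𝓞 F) ∈ w.asIdeal) (i : Fin 3) : par w (S.beta D P i) = 1 := by
  have hDF : (D : F) ≠ 0 := Int.cast_ne_zero.2 hD
  unfold beta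
  refine u1_par w (E.twist D) (S.twist_poly D) (S.u1_inj hD) (fun i => ?_) (fun i j hij => ?_) _ i
  · obtain ⟨a, ha⟩ := S.e_integral i
    have h1 : (D : F) * S.e i = (((D : 𝓞 F) * a : 𝓞 F) : F) := by
      rw [← ha]
      push_cast
      rfl
    rw [h1]
    exact ord_int_nonneg w _
  · have h2 : (D : F) * S.e i - (D : F) * S.e j = (D : F) * (S.e i - S.e j) := by ring
    rw [h2, ord_mul w hDF (sub_ne_zero.2 fun h => hij (S.inj h)), u1_ord_intCast w hp hw hpD,
      S.u1_diff_ord hp hgood hw i j hij]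
    rfl

theorem G_le_Hs {D : ℤ} (hD : D ≠ 0) (T : Finset ℕ)
    (hT : ∀ p : ℕ, p.Prime → (p : ℤ) ∣ D → ¬ (p : ℤ) ∣ 2 * E.disc → p ∈ T) : S.G D ≤ S.Hs T := by
  intro b hb
  obtain ⟨P, rfl⟩ := (S.mem_G_iff hD b).1 hb
  refine ⟨S.beta_prod hD P, fun σ i => S.beta_galois hD P σ i, fun w hw i => ?_⟩
  obtain ⟨p, hp, hpw⟩ := exists_prime_mem w
  obtain ⟨h1, h2⟩ := hw p hp hpw
  exact S.par_beta hD P hp h1 (fun h => h2 (hT p hp h h1)) hpw i

end Split
end H16A
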