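import Pool.Agent.Lib.H16A.U1
import Pool.Agent.Lib.H16A.N7

/-!
# U2 (M/L): the local analysis at a prime `p ∥ D`, and the key lemma

`hw : S.SplP p w`, `p ∥ D`, `P = (x, y) ∈ E^D(ℚ)`.  `ord w D = 1`.
`beta_ram`: either all three components of `β_D(P)` have even order at `w`, or there is `i` such that
for all `j ≠ i` the component `j` has odd order (and the component `i` even order) and it is the class of
`D (e_i - e_j) t` with `t ∈ F`, `ord w (t - 1) > 0` (or `t = 1`).
Proof.  * `x = 0` or `ord x ≥ 1`: `x = D x'`, `x' ∈ ℚ`, `ord x' ≥ 0` (or `x' = 0`), `x - D e_i = D (x' - e_i)`,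
  `D³ ∏ (x' - e_i) = y²`.  If `x' = e_i` for some `i` (2-torsion): the components `j ≠ i` are the classes of
  `D (e_i - e_j)`.  Otherwise `3 + Σ ord (x' - e_i) = 2 ord y`, so the sum is odd, and exactly one
  `x' - e_i` has positive order (the differences `e_i - e_j` have order `0`), it is odd, and for `j ≠ i`
  `x' - e_j = (e_i - e_j) t`, `t - 1 = (x' - e_i)/(e_i - e_j)`.
* `ord x ≤ 0`: `ord (x - D e_i) = ord x` for all `i`, `3 ord x = 2 ord y`: even.
Here orders of components: `par_cls_eq_one_iff` (V1).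

`key`: `D = D' q`, `p ∥ D`, `p ∥ D'` (so `p ∤ q`), `q` not a square mod `p`, `b ∈ G_D ∩ G_{D'}`.  Then all
`par w (b_i) = 1`.  Otherwise apply `beta_ram` to both: the index `i` is the same (the component with even
order), and for `j ≠ i`: `D (e_i - e_j) t ~ D' (e_i - e_j) t'` modulo squares, i.e. `q t t' = s²` up to
squares (multiply by squares), so `q (1 + small) = square`, contradiction to `isSquare_of_ord` (N7).
`inter_le`: by `key`, the Galois equivariance, and transitivity on the primes above `p` (`exists_cj`,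
`ord_cj`), an element of `G_D ∩ G_{D'}` has trivial parities at all primes above such `p`.
-/

open Polynomial IsDedekindDomain NumberField

namespace H16A
namespace Split

variable {E : Cub} {F : Type} [Field F] [NumberField F] (S : Split E F)

theorem u2_all {P : Fin 3 → Prop} (h0 : P 0) (h1 : P 1) (h2 : P 2) : ∀ i, P i := by
  intro i
  fin_cases i
  · exact h0
  · exact h1
  · exact h2

theorem u2_int (w : HeightOneSpectrum (𝓞 F)) (i : Fin 3) : 0 ≤ ord w (S.e i) := by
  obtain ⟨a, ha⟩ := S.e_integral i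
  rw [← ha]
  exact ord_int_nonneg w a

theorem u2_ram {D : ℤ} {p : ℕ} {w : HeightOneSpectrum (𝓞 F)} (hw : S.SplP p w)
    (h1 : (p : ℤ) ∣ D) (h2 : ¬ (p : ℤ) ^ 2 ∣ D) (P : (E.twist D).Pt F) :
    (∀ i, par w ((E.twist D).dl ((D : F) * S.e i) P) = 1) ∨
    ∃ i, par w ((E.twist D).dl ((D : F) * S.e i) P) = 1 ∧
      ∀ j, j ≠ i → par w ((E.twist D).dl ((D : F) * S.e j) P) ≠ 1 ∧
      ∃ t : F, (t = 1 ∨ 0 < ord w (t - 1)) ∧ t ≠ 0 ∧
        (E.twist D).dl ((D : F) * S.e j) P = cls ((D : F) * (S.e i - S.e j) * t) := by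
  classical
  have hD1 : ord w (D : F) = 1 := hw.ord_int h1 h2
  have hD : (D : F) ≠ 0 := by
    intro h
    rw [h, v1_ord_zero] at hD1
    exact absurd hD1 (by norm_num)
  have hDz : D ≠ 0 := by
    intro h
    apply hD
    rw [h, Int.cast_zero]
  have he := S.u2_int w
  have hd : ∀ i j, i ≠ j → ord w (S.e i - S.e j) = 0 := fun i j hij => hw.ord_sub hij
  have hne : ∀ i j, i ≠ j → S.e i - S.e j ≠ 0 := fun i j hij =>
    sub_ne_zero.2 fun h => hij (S.inj h)
  rcases P with _ | ⟨x, y, h⟩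
  · exact Or.inl fun i => map_one _
  have hr := S.twist_poly D
  have hy : y ^ 2 = ∏ i, (x - (D : F) * S.e i) := by
    rw [u1_eqn (E.twist D) h, u1_val (E.twist D) hr, Fin.prod_univ_three]
  have hsome : ∀ i, (E.twist D).dl ((D : F) * S.e i)
      (WeierstrassCurve.Affine.Point.some x y h : (E.twist D).Pt F) =
      if x = (D : F) * S.e i then cls ((E.twist D).der ((D : F) * S.e i))
      else cls (x - (D : F) * S.e i) := fun i => Cub.h1_dl_some _ _ _ _ _
  by_cases hA : x ≠ 0 ∧ ord w x ≤ 0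
  · -- case A
    obtain ⟨hx0, hx⟩ := hA
    left
    have ha : ∀ i, x - (D : F) * S.e i ≠ 0 ∧ ord w (x - (D : F) * S.e i) = ord w x := by
      intro i
      by_cases hei : S.e i = 0
      · rw [hei, mul_zero, sub_zero]
        exact ⟨hx0, rfl⟩
      · rw [sub_eq_add_neg]
        apply ord_add_of_lt w hx0 (neg_ne_zero.2 (mul_ne_zero hD hei))
        rw [ord_neg, ord_mul w hD hei, hD1]
        have := he i
        omega
    have hy0 : y ≠ 0 := by
      intro h0
      rw [h0, zero_pow two_ne_zero] at hy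
      exact Finset.prod_ne_zero_iff.2 (fun i _ => (ha i).1) hy.symm
    have h3 : 2 * ord w y = 3 * ord w x := by
      have h4 := congrArg (ord w) hy
      rw [ord_pow, ord_prod w _ _ (fun i _ => (ha i).1), Finset.sum_congr rfl
        (fun i _ => (ha i).2), Finset.sum_const, Finset.card_univ, Fintype.card_fin] at h4
      simpa using h4
    intro i
    rw [hsome i, if_neg (fun h0 => (ha i).1 (sub_eq_zero.2 h0)), par_cls_eq_one_iff w (ha i).1,
      (ha i).2]
    exact ⟨ord w y - ord w x, by omega⟩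
  · -- case B
    right
    obtain ⟨x', hx'⟩ : ∃ x', x' = x / (D : F) := ⟨_, rfl⟩
    have hxx : x = (D : F) * x' := by rw [hx']; field_simp
    have hx'0 : 0 ≤ ord w x' := by
      by_cases hx0 : x = 0
      · rw [hx', hx0, zero_div, v1_ord_zero]
      · have hx : 0 < ord w x := by
          by_contra hcon
          exact hA ⟨hx0, not_lt.1 hcon⟩
        rw [hx', ord_div w hx0 hD, hD1]
        omega
    by_cases hB : ∃ i0, x' = S.e i0
    · obtain ⟨i0, hi0⟩ := hB
      refine ⟨i0, ?_, ?_⟩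
      · rw [hsome i0, if_pos (by rw [hxx, hi0])]
        have hder : ∀ i, ∃ j k, i ≠ j ∧ i ≠ k ∧ (E.twist D).der ((D : F) * S.e i) =
            ((D : F) * (S.e i - S.e j)) * ((D : F) * (S.e i - S.e k)) := by
          obtain ⟨d0, d1, d2⟩ := (E.twist D).der_eq_of_roots (u1_coef (E.twist D) hr)
          apply u2_all
          · exact ⟨1, 2, by decide, by decide, by rw [d0]; ring⟩
          · exact ⟨0, 2, by decide, by decide, by rw [d1]; ring⟩
          · exact ⟨0, 1, by decide, by decide, by rw [d2]; ring⟩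
        obtain ⟨j, k, hj, hk, hder⟩ := hder i0
        have n1 := mul_ne_zero hD (hne i0 j hj)
        have n2 := mul_ne_zero hD (hne i0 k hk)
        rw [hder, par_cls_eq_one_iff w (mul_ne_zero n1 n2), ord_mul w n1 n2,
          ord_mul w hD (hne i0 j hj), ord_mul w hD (hne i0 k hk), hD1, hd i0 j hj, hd i0 k hk]
        exact ⟨1, by norm_num⟩
      · intro j hj
        have hne' : x ≠ (D : F) * S.e j := by
          rw [hxx, hi0]
          intro h0
          exact hj (S.inj (mul_left_cancel₀ hD h0)).symm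
        have e1 : x - (D : F) * S.e j = (D : F) * (S.e i0 - S.e j) := by
          rw [hxx, hi0]
          ring
        have n1 := mul_ne_zero hD (hne i0 j hj.symm)
        rw [hsome j, if_neg hne', e1]
        refine ⟨?_, 1, Or.inl rfl, one_ne_zero, by rw [mul_one]⟩
        rw [Ne, par_cls_eq_one_iff w n1, ord_mul w hD (hne i0 j hj.symm), hD1, hd i0 j hj.symm]
        decide
    · push Not at hB
      have hxe : ∀ i, x' - S.e i ≠ 0 := fun i => sub_ne_zero.2 (hB i)
      have e1 : ∀ i, x - (D : F) * S.e i = (D : F) * (x' - S.e i) := by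
        intro i
        rw [hxx]
        ring
      have n1 : ∀ i, x - (D : F) * S.e i ≠ 0 := by
        intro i
        rw [e1]
        exact mul_ne_zero hD (hxe i)
      have ho : ∀ i, ord w (x - (D : F) * S.e i) = 1 + ord w (x' - S.e i) := by
        intro i
        rw [e1, ord_mul w hD (hxe i), hD1]
      have hnn : ∀ i, 0 ≤ ord w (x' - S.e i) := fun i => u1_sub_nonneg w hx'0 (he i)
      have hy0 : y ≠ 0 := by
        intro h0
        rw [h0, zero_pow two_ne_zero] at hy
        exact Finset.prod_ne_zero_iff.2 (fun i _ => n1 i) hy.symm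
      have h3 : 2 * ord w y = 3 + ∑ i, ord w (x' - S.e i) := by
        have h4 := congrArg (ord w) hy
        rw [ord_pow, ord_prod w _ _ (fun i _ => n1 i), Finset.sum_congr rfl
          (fun i _ => ho i), Finset.sum_add_distrib, Finset.sum_const, Finset.card_univ,
          Fintype.card_fin] at h4
        simpa using h4
      have hex : ∃ i0, 0 < ord w (x' - S.e i0) := by
        by_contra hcon
        push Not at hcon
        have h4 : ∑ i, ord w (x' - S.e i) = 0 :=
          Finset.sum_eq_zero fun i _ => le_antisymm (hcon i) (hnn i)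
        rw [h4] at h3
        omega
      obtain ⟨i0, hi0⟩ := hex
      have hz : ∀ j, j ≠ i0 → ord w (x' - S.e j) = 0 := by
        intro j hj
        have h4 := (ord_add_of_lt w (hne i0 j hj.symm) (hxe i0)
          (by rw [hd i0 j hj.symm]; exact hi0)).2
        have h5 : S.e i0 - S.e j + (x' - S.e i0) = x' - S.e j := by ring
        rw [h5, hd i0 j hj.symm] at h4
        exact h4
      have hsum : ∑ i, ord w (x' - S.e i) = ord w (x' - S.e i0) :=
        Finset.sum_eq_single i0 (fun j _ hj => hz j hj) (fun h0 => absurd (Finset.mem_univ _) h0)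
      rw [hsum] at h3
      refine ⟨i0, ?_, ?_⟩
      · rw [hsome i0, if_neg (fun h0 => n1 i0 (sub_eq_zero.2 h0)), par_cls_eq_one_iff w (n1 i0), ho]
        exact ⟨ord w y - 1, by omega⟩
      · intro j hj
        rw [hsome j, if_neg (fun h0 => n1 j (sub_eq_zero.2 h0))]
        refine ⟨?_, (x' - S.e j) / (S.e i0 - S.e j), Or.inr ?_, ?_, ?_⟩
        · rw [Ne, par_cls_eq_one_iff w (n1 j), ho, hz j hj]
          decide
        · have e2 : (x' - S.e j) / (S.e i0 - S.e j) - 1 = (x' - S.e i0) / (S.e i0 - S.e j) := by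
            have := hne i0 j hj.symm
            field_simp
            ring
          rw [e2, ord_div w (hxe i0) (hne i0 j hj.symm), hd i0 j hj.symm, sub_zero]
          exact hi0
        · exact div_ne_zero (hxe j) (hne i0 j hj.symm)
        · congr 1
          rw [e1]
          have := hne i0 j hj.symm
          field_simp

theorem beta_ram {D : ℤ} {p : ℕ} {w : HeightOneSpectrum (𝓞 F)} (hw : S.SplP p w)
    (h1 : (p : ℤ) ∣ D) (h2 : ¬ (p : ℤ) ^ 2 ∣ D) (P : (E.twist D).Pt ℚ) :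
    (∀ i, par w (S.beta D P i) = 1) ∨
    ∃ i, par w (S.beta D P i) = 1 ∧ ∀ j, j ≠ i → par w (S.beta D P j) ≠ 1 ∧
      ∃ t : F, (t = 1 ∨ 0 < ord w (t - 1)) ∧ t ≠ 0 ∧
        S.beta D P j = cls ((D : F) * (S.e i - S.e j) * t) := by
  classical
  unfold beta
  exact S.u2_ram hw h1 h2 _

theorem u2_unit {w : HeightOneSpectrum (𝓞 F)} {t : F} (ht0 : t ≠ 0)
    (ht : t = 1 ∨ 0 < ord w (t - 1)) : ord w t = 0 := by
  rcases ht with rfl | ht
  · exact ord_one w
  · have h1 : t - 1 ≠ 0 := by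
      intro h
      rw [h, v1_ord_zero] at ht
      exact lt_irrefl _ ht
    have h2 := (ord_add_of_lt w (one_ne_zero (α := F)) h1 (by rw [ord_one]; exact ht)).2
    rw [ord_one] at h2
    have h3 : (1 : F) + (t - 1) = t := by ring
    rw [h3] at h2
    exact h2

theorem u2_mul {w : HeightOneSpectrum (𝓞 F)} {t t' : F} (ht0 : t ≠ 0) (ht0' : t' ≠ 0)
    (ht : t = 1 ∨ 0 < ord w (t - 1)) (ht' : t' = 1 ∨ 0 < ord w (t' - 1)) :
    t * t' = 1 ∨ 0 < ord w (t * t' - 1) := by
  have hu' := u2_unit ht0' ht'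
  rcases ht with rfl | ht
  · rw [one_mul]
    exact ht'
  rcases ht' with rfl | ht'
  · rw [mul_one]
    exact Or.inr ht
  by_cases h0 : t * t' - 1 = 0
  · exact Or.inl (sub_eq_zero.1 h0)
  · right
    have h1 : t - 1 ≠ 0 := by
      intro h
      rw [h, v1_ord_zero] at ht
      exact lt_irrefl _ ht
    have h1' : t' - 1 ≠ 0 := by
      intro h
      rw [h, v1_ord_zero] at ht'
      exact lt_irrefl _ ht'
    have e1 : t * t' - 1 = (t - 1) * t' + (t' - 1) := by ring
    rw [e1] at h0 ⊢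
    have h2 := le_ord_add w h0 (mul_ne_zero h1 ht0') h1'
    rw [ord_mul w h1 ht0', hu', add_zero] at h2
    exact lt_of_lt_of_le (lt_min ht ht') h2

theorem key {D D' : ℤ} {q : ℤ} (hDq : D = D' * q) {p : ℕ} {w : HeightOneSpectrum (𝓞 F)}
    (hw : S.SplP p w) (h1 : (p : ℤ) ∣ D') (h2 : ¬ (p : ℤ) ^ 2 ∣ D)
    (hq : ¬ IsSquare ((q : ℤ) : ZMod p)) {b : Fin 3 → SqC F} (hb : b ∈ S.G D) (hb' : b ∈ S.G D')
    (i : Fin 3) : par w (b i) = 1 := by
  have hD0 : D ≠ 0 := by
    rintro rfl
    exact h2 (dvd_zero _)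
  have hD0' : D' ≠ 0 := by
    rintro rfl
    rw [zero_mul] at hDq
    exact hD0 hDq
  have hq0 : q ≠ 0 := by
    rintro rfl
    rw [mul_zero] at hDq
    exact hD0 hDq
  have hpD : (p : ℤ) ∣ D := by
    rw [hDq]
    exact Dvd.dvd.mul_right h1 q
  have h2' : ¬ (p : ℤ) ^ 2 ∣ D' := by
    intro h
    apply h2
    rw [hDq]
    exact Dvd.dvd.mul_right h q
  have hpq : ¬ (p : ℤ) ∣ q := by
    intro h
    apply h2
    rw [hDq, sq]
    exact mul_dvd_mul h1 h
  by_contra hcon
  obtain ⟨P, hP⟩ := (S.mem_G_iff hD0 b).1 hb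
  obtain ⟨P', hP'⟩ := (S.mem_G_iff hD0' b).1 hb'
  rcases S.beta_ram hw hpD h2 P with h | ⟨i0, hi0, hj⟩
  · rw [← hP] at hcon
    exact hcon (h i)
  rcases S.beta_ram hw h1 h2' P' with h | ⟨i1, hi1, hj'⟩
  · rw [← hP'] at hcon
    exact hcon (h i)
  rw [hP] at hi0 hj
  rw [hP'] at hi1 hj'
  have hii : i0 = i1 := by
    by_contra hne
    exact (hj' i0 hne).1 hi0
  subst hii
  obtain ⟨j, hji⟩ : ∃ j, j ≠ i0 := by
    by_contra hall
    push Not at hall
    exact absurd ((hall 0).trans (hall 1).symm) (by decide)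
  obtain ⟨-, t, ht, ht0, hbt⟩ := hj j hji
  obtain ⟨-, t', ht', ht0', hbt'⟩ := hj' j hji
  have hne : S.e i0 - S.e j ≠ 0 := sub_ne_zero.2 fun h => hji (S.inj h).symm
  have hDF : (D : F) ≠ 0 := Int.cast_ne_zero.2 hD0
  have hDF' : (D' : F) ≠ 0 := Int.cast_ne_zero.2 hD0'
  have hqF : (q : F) ≠ 0 := Int.cast_ne_zero.2 hq0
  have hcls : cls ((D : F) * (S.e i0 - S.e j) * t) = cls ((D' : F) * (S.e i0 - S.e j) * t') := by
    rw [← hbt, ← hbt']
  rw [cls_eq_cls_iff (mul_ne_zero (mul_ne_zero hDF hne) ht0)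
    (mul_ne_zero (mul_ne_zero hDF' hne) ht0')] at hcls
  obtain ⟨s, hs⟩ := hcls
  have hDF2 : (D : F) = (D' : F) * (q : F) := by
    rw [hDq]
    push_cast
    rfl
  have hs0 : s ≠ 0 := by
    rintro rfl
    rw [mul_zero] at hs
    exact mul_ne_zero (mul_ne_zero (mul_ne_zero hDF hne) ht0)
      (mul_ne_zero (mul_ne_zero hDF' hne) ht0') hs
  apply hq
  apply hw.isSquare_of_ord hpq (t := (D' : F) * (S.e i0 - S.e j) * (t * t') / s)
  have e1 : (q : F) * ((D' : F) * (S.e i0 - S.e j) * (t * t') / s) ^ 2 = t * t' := by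
    rw [hDF2] at hs
    rw [div_pow, mul_div_assoc', div_eq_iff (pow_ne_zero 2 hs0)]
    linear_combination (t * t') * hs
  rw [e1]
  exact u2_mul ht0 ht0' ht ht'

/-- equivariance: trivial parity at `w` implies trivial parity at all primes above `p` -/
theorem par_of_galois {p : ℕ} (hp : p.Prime) {w w' : HeightOneSpectrum (𝓞 F)}
    (hw : (p : 𝓞 F) ∈ w.asIdeal) (hw' : (p : 𝓞 F) ∈ w'.asIdeal) {b : Fin 3 → SqC F}
    (hb : ∀ (σ : F ≃ₐ[ℚ] F) (i : Fin 3), sqMap (σ : F →+* F) (b i) = b (S.perm σ i))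
    (h : ∀ i, par w (b i) = 1) (i : Fin 3) : par w' (b i) = 1 := by
  have hG := S.isGalois
  obtain ⟨σ, rfl⟩ := exists_cj hp hw hw'
  obtain ⟨x, hx0, hx⟩ := cls_surj (b i)
  have h1 := h (S.perm σ i)
  rw [← hb σ i, ← hx, sqMap_cls] at h1
  have hσx : (σ : F →+* F) x ≠ 0 := (_root_.map_ne_zero _).2 hx0
  rw [par_cls_eq_one_iff w hσx] at h1
  rw [← hx, par_cls_eq_one_iff (cj σ w) hx0, ord_cj]
  exact h1

theorem u2_dvd_prod {T : Finset ℕ} (hT : ∀ p ∈ T, p.Prime) {p : ℕ} (hp : p.Prime)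
    (h : (p : ℤ) ∣ -(∏ q ∈ T, (q : ℤ))) : p ∈ T := by
  rw [dvd_neg] at h
  have h1 : Prime (p : ℤ) := Nat.prime_iff_prime_int.1 hp
  obtain ⟨q, hq, hpq⟩ := (h1.dvd_finsetProd_iff _).1 h
  have h2 : p ∣ q := by exact_mod_cast hpq
  rw [(Nat.prime_dvd_prime_iff_eq hp (hT q hq)).1 h2]
  exact hq

/-- `T` a set of split primes, `q ∈ T`, `D = -∏T`, `D' = -∏(T - q)` -/
theorem inter_le (T : Finset ℕ) (w : ℕ → HeightOneSpectrum (𝓞 F))
    (hT : ∀ p ∈ T, S.SplP p (w p)) {q : ℕ} (hq : q ∈ T) :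
    S.G (-(∏ p ∈ T, (p : ℤ))) ⊓ S.G (-(∏ p ∈ T.erase q, (p : ℤ))) ≤
      S.Hs ((T.erase q).filter (fun p => jacobiSym q p ≠ -1)) := by
  classical
  have hTp : ∀ p ∈ T, p.Prime := fun p hp => (hT p hp).prime
  have hTp' : ∀ p ∈ T.erase q, p.Prime := fun p hp => hTp p (Finset.mem_of_mem_erase hp)
  have hD0 : -(∏ p ∈ T, (p : ℤ)) ≠ 0 :=
    neg_ne_zero.2 (Finset.prod_ne_zero_iff.2 fun p hp => by exact_mod_cast (hTp p hp).ne_zero)
  have hD0' : -(∏ p ∈ T.erase q, (p : ℤ)) ≠ 0 :=
    neg_ne_zero.2 (Finset.prod_ne_zero_iff.2 fun p hp => by exact_mod_cast (hTp' p hp).ne_zero)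
  intro b hb
  obtain ⟨hb1, hb2⟩ := Subgroup.mem_inf.1 hb
  obtain ⟨P, hP⟩ := (S.mem_G_iff hD0 b).1 hb1
  obtain ⟨P', hP'⟩ := (S.mem_G_iff hD0' b).1 hb2
  have hgal : ∀ (σ : F ≃ₐ[ℚ] F) (i : Fin 3), sqMap (σ : F →+* F) (b i) = b (S.perm σ i) := by
    intro σ i
    rw [← hP]
    exact S.beta_galois hD0 P σ i
  refine ⟨?_, hgal, ?_⟩
  · rw [← hP]
    exact S.beta_prod hD0 P
  · intro w' hw' i
    obtain ⟨p, hp, hpw⟩ := exists_prime_mem w'
    obtain ⟨hgood, hpT⟩ := hw' p hp hpw
    by_cases c1 : p ∈ T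
    · by_cases c2 : p = q
      · rw [← hP']
        apply S.par_beta hD0' P' hp hgood ?_ hpw i
        intro h
        have := u2_dvd_prod hTp' hp h
        rw [c2] at this
        exact Finset.notMem_erase q T this
      · have h3 : p ∈ T.erase q := Finset.mem_erase.2 ⟨c2, c1⟩
        have h4 : jacobiSym q p = -1 := by
          by_contra h
          exact hpT (Finset.mem_filter.2 ⟨h3, h⟩)
        have h5 : ¬ IsSquare (((q : ℤ) : ℤ) : ZMod p) := ZMod.nonsquare_of_jacobiSym_eq_neg_one h4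
        have hdiv : (p : ℤ) ∣ -(∏ p ∈ T.erase q, (p : ℤ)) := by
          rw [dvd_neg]
          exact Finset.dvd_prod_of_mem (fun n : ℕ => (n : ℤ)) h3
        have hsq : ¬ (p : ℤ) ^ 2 ∣ -(∏ p ∈ T, (p : ℤ)) := by
          intro h
          rw [dvd_neg, ← Finset.mul_prod_erase T (fun n : ℕ => (n : ℤ)) c1, sq] at h
          have hp0 : (p : ℤ) ≠ 0 := by exact_mod_cast hp.ne_zero
          have h6 := (mul_dvd_mul_iff_left hp0).1 h
          rw [← dvd_neg] at h6
          have h7 := u2_dvd_prod (T := T.erase p)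
            (fun n hn => hTp n (Finset.mem_of_mem_erase hn)) hp h6
          exact Finset.notMem_erase p T h7
        have hDq : -(∏ p ∈ T, (p : ℤ)) = -(∏ p ∈ T.erase q, (p : ℤ)) * (q : ℤ) := by
          rw [← Finset.mul_prod_erase T (fun n : ℕ => (n : ℤ)) hq]
          ring
        exact S.par_of_galois hp (hT p c1).mem hpw hgal
          (fun i => S.key hDq (hT p c1) hdiv hsq h5 hb1 hb2 i) i
    · rw [← hP]
      apply S.par_beta hD0 P hp hgood ?_ hpw i
      intro h
      exact c1 (u2_dvd_prod hTp hp h)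

end Split
end H16A
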