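import Pool.Agent.Lib.H16A.V1

/-!
# U3 (M): finiteness of the group of square classes unramified outside a finite set

`F` a number field, `B` a finite set of primes.  The subgroup `{x ∈ Fˣ/squares : par w x = 1 for all
w ∉ B}` is finite.  Proof.  The map to `(ℤ/2)^B` (parities at `B`) has finite target; its kernel consists
of the classes of `x` with all orders even: `(x) = J²`, and the class of `J` is in the finite group
`ClassGroup (𝓞 F)`; if `J` and `J'` are in the same class then `x/x' = (unit) · square`, and the group of units modulo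
squares is finite (`NumberField.Units`: finitely generated).  (Mathlib: `IsDedekindDomain.selmerGroup`,
`fromUnit`.)  Equivalently: the subgroup `F⟮B, 2⟯` is finite.
-/

open Polynomial IsDedekindDomain NumberField

namespace H16A

variable (F : Type*) [Field F] [NumberField F]

open Classical in
theorem U3_ord_eq_count (w : HeightOneSpectrum (𝓞 F)) (a : 𝓞 F) (ha : a ≠ 0) :
    ord w (a : F) =
      ((Associates.mk w.asIdeal).count (Associates.mk (Ideal.span {a})).factors : ℤ) := by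
  unfold ord
  have h : w.valuation F (a : F) = w.intValuation a := w.valuation_of_algebraMap a
  rw [h, w.intValuation_if_neg ha, WithZero.log_exp, neg_neg]

open Classical in
theorem U3_even_sq (a : 𝓞 F) (ha : a ≠ 0)
    (h : ∀ w : HeightOneSpectrum (𝓞 F), Even (ord w (a : F))) :
    ∃ J : Ideal (𝓞 F), J ≠ 0 ∧ Ideal.span {a} = J ^ 2 := by
  set I : Ideal (𝓞 F) := Ideal.span {a} with hI
  have hI0 : I ≠ 0 := by
    rw [hI, Ideal.zero_eq_bot, Ne, Ideal.span_singleton_eq_bot]
    exact ha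
  set n : HeightOneSpectrum (𝓞 F) → ℕ := fun w =>
    (Associates.mk w.asIdeal).count (Associates.mk I).factors with hn
  have hev : ∀ w, Even (n w) := by
    intro w
    have := h w
    rw [U3_ord_eq_count F w a ha] at this
    exact_mod_cast this
  have hfin : (Function.mulSupport fun w : HeightOneSpectrum (𝓞 F) =>
      w.asIdeal ^ (n w / 2)).Finite := by
    have h1 := Associates.finite_factors hI0
    rw [Filter.eventually_cofinite] at h1
    refine h1.subset ?_
    intro w hw
    rw [Function.mem_mulSupport] at hw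
    intro h2
    apply hw
    have h3 : n w = 0 := by exact_mod_cast h2
    rw [h3]
    simp
  have hJ : I = (∏ᶠ w : HeightOneSpectrum (𝓞 F), w.asIdeal ^ (n w / 2)) ^ 2 := by
    rw [finprod_pow hfin]
    conv_lhs => rw [← Ideal.finprod_heightOneSpectrum_factorization hI0]
    refine finprod_congr fun w => ?_
    rw [← pow_mul, Nat.div_mul_cancel (hev w).two_dvd]
    rfl
  refine ⟨_, ?_, hJ⟩
  intro h0
  apply hI0
  rw [hJ, h0]
  simp

/-- the homomorphism from the units of the ring of integers to the square classes -/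
noncomputable def U3_unitMap : (𝓞 F)ˣ →* SqC F :=
  (sqMk F).comp (Units.map (algebraMap (𝓞 F) F : 𝓞 F →* F))

theorem U3_unitMap_eq (u : (𝓞 F)ˣ) : U3_unitMap F u = cls ((u : 𝓞 F) : F) := by
  have h : ((u : 𝓞 F) : F) ≠ 0 := by
    simp
  rw [cls_eq h]
  unfold U3_unitMap
  rw [MonoidHom.comp_apply]
  congr 1
  ext
  rfl

theorem U3_range_finite : (Set.range (U3_unitMap F)).Finite := by
  have h1 : Monoid.FG (U3_unitMap F).range := by
    have h2 : Group.FG (𝓞 F)ˣ := by
      rw [Group.fg_iff_monoid_fg]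
      infer_instance
    have h3 : Group.FG (U3_unitMap F).range := Group.fg_range _
    rwa [Group.fg_iff_monoid_fg] at h3
  have h4 : Group.FG (U3_unitMap F).range := by
    rwa [Group.fg_iff_monoid_fg]
  have h5 : Finite (U3_unitMap F).range := by
    refine CommGroup.finite_of_fg_isMulTorsion _ ?_
    rintro ⟨x, hx⟩
    rw [isOfFinOrder_iff_pow_eq_one]
    refine ⟨2, by norm_num, ?_⟩
    ext
    simp [pow_two, sqC_mul_self]
  exact Set.toFinite ((U3_unitMap F).range : Set (SqC F))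

theorem U3_exists_int (x : SqC F) : ∃ a : 𝓞 F, a ≠ 0 ∧ cls (a : F) = x := by
  obtain ⟨m, hm, rfl⟩ := cls_surj x
  obtain ⟨a, b, hb, hab⟩ := IsFractionRing.div_surjective (A := 𝓞 F) m
  have hb0 : b ≠ 0 := nonZeroDivisors.ne_zero hb
  have hb1 : (b : F) ≠ 0 := by
    simpa using hb0
  have hab' : (a : F) / (b : F) = m := hab
  have ha1 : (a : F) ≠ 0 := by
    intro h
    rw [h, zero_div] at hab'
    exact hm hab'.symm
  have ha0 : a ≠ 0 := by
    intro h
    rw [h] at ha1
    simp at ha1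
  refine ⟨a * b, mul_ne_zero ha0 hb0, ?_⟩
  have h2 : (((a * b : 𝓞 F)) : F) = (a : F) * (b : F) := by simp
  rw [h2, cls_eq_cls_iff (mul_ne_zero ha1 hb1) hm, ← hab']
  exact ⟨(a : F), by field_simp⟩

theorem U3_kernel_finite : {x : SqC F | ∀ w, par w x = 1}.Finite := by
  classical
  have hcover : {x : SqC F | ∀ w, par w x = 1} ⊆
      ⋃ c : ClassGroup (𝓞 F), {x : SqC F | ∃ (J : nonZeroDivisors (Ideal (𝓞 F))) (a : 𝓞 F),
        ClassGroup.mk0 J = c ∧ a ≠ 0 ∧ cls (a : F) = x ∧ Ideal.span {a} = (J : Ideal (𝓞 F)) ^ 2} := by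
    intro x hx
    obtain ⟨a, ha, rfl⟩ := U3_exists_int F x
    have ha1 : (a : F) ≠ 0 := by simpa using ha
    obtain ⟨J, hJ, hJ2⟩ := U3_even_sq F a ha fun w => (par_cls_eq_one_iff w ha1).mp (hx w)
    rw [Set.mem_iUnion]
    exact ⟨ClassGroup.mk0 ⟨J, mem_nonZeroDivisors_of_ne_zero hJ⟩, ⟨J, mem_nonZeroDivisors_of_ne_zero hJ⟩,
      a, rfl, ha, rfl, hJ2⟩
  refine Set.Finite.subset (Set.finite_iUnion fun c => ?_) hcover
  rcases Set.eq_empty_or_nonempty {x : SqC F | ∃ (J : nonZeroDivisors (Ideal (𝓞 F))) (a : 𝓞 F),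
        ClassGroup.mk0 J = c ∧ a ≠ 0 ∧ cls (a : F) = x ∧
          Ideal.span {a} = (J : Ideal (𝓞 F)) ^ 2} with h | ⟨x0, J0, a0, hJ0, ha0, hx0, hs0⟩
  · rw [h]
    exact Set.finite_empty
  · refine ((U3_range_finite F).image (fun u => x0 * u)).subset ?_
    rintro x ⟨J, a, hJ, ha, hx, hs⟩
    obtain ⟨y, z, hy, hz, hyz⟩ := (ClassGroup.mk0_eq_mk0_iff).mp (hJ0.trans hJ.symm)
    have h1 : Ideal.span {y ^ 2 * a0} = Ideal.span {z ^ 2 * a} := by
      rw [← Ideal.span_singleton_mul_span_singleton, ← Ideal.span_singleton_mul_span_singleton,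
        ← Ideal.span_singleton_pow, ← Ideal.span_singleton_pow, hs0, hs, ← mul_pow, ← mul_pow, hyz]
    obtain ⟨u, hu⟩ := Ideal.span_singleton_eq_span_singleton.mp h1
    refine ⟨U3_unitMap F u, ⟨u, rfl⟩, ?_⟩
    have hy1 : (y : F) ≠ 0 := by simpa using hy
    have hz1 : (z : F) ≠ 0 := by simpa using hz
    have ha1 : (a : F) ≠ 0 := by simpa using ha
    have ha01 : (a0 : F) ≠ 0 := by simpa using ha0
    have hu1 : ((u : 𝓞 F) : F) ≠ 0 := by
      simp
    have hu' : (y : F) ^ 2 * (a0 : F) * ((u : 𝓞 F) : F) = (z : F) ^ 2 * (a : F) := by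
      exact_mod_cast congrArg (fun t : 𝓞 F => (t : F)) hu
    change x0 * U3_unitMap F u = x
    rw [← hx0, ← hx, U3_unitMap_eq, ← cls_mul ha01 hu1, cls_eq_cls_iff (mul_ne_zero ha01 hu1) ha1]
    refine ⟨(z : F) * (a : F) / (y : F), ?_⟩
    field_simp
    linear_combination hu'

theorem finite_unramified (B : Set (HeightOneSpectrum (𝓞 F))) (hB : B.Finite) :
    {x : SqC F | ∀ w, w ∉ B → par w x = 1}.Finite := by
  classical
  have : Finite B := hB.to_subtype
  have hcover : {x : SqC F | ∀ w, w ∉ B → par w x = 1} ⊆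
      ⋃ f : B → Multiplicative (ZMod 2), {x : SqC F | (∀ w, w ∉ B → par w x = 1) ∧
        ∀ w : B, par w.1 x = f w} := by
    intro x hx
    rw [Set.mem_iUnion]
    exact ⟨fun w => par w.1 x, hx, fun w => rfl⟩
  refine Set.Finite.subset (Set.finite_iUnion fun f => ?_) hcover
  rcases Set.eq_empty_or_nonempty {x : SqC F | (∀ w, w ∉ B → par w x = 1) ∧
        ∀ w : B, par w.1 x = f w} with h | ⟨x0, h0, h0'⟩
  · rw [h]
    exact Set.finite_empty
  · refine ((U3_kernel_finite F).image (fun u => x0 * u)).subset ?_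
    rintro x ⟨hx, hx'⟩
    refine ⟨x0⁻¹ * x, ?_, by simp⟩
    intro w
    rw [map_mul, map_inv]
    by_cases hw : w ∈ B
    · rw [h0' ⟨w, hw⟩, hx' ⟨w, hw⟩, inv_mul_cancel]
    · rw [h0 w hw, hx w hw, inv_mul_cancel]

/-- finitely many primes above the divisors of a nonzero integer -/
theorem finite_above {n : ℤ} (hn : n ≠ 0) :
    {w : HeightOneSpectrum (𝓞 F) | ∃ p : ℕ, p.Prime ∧ (p : 𝓞 F) ∈ w.asIdeal ∧ (p : ℤ) ∣ n}.Finite := by
  have hn0 : ((n : ℤ) : 𝓞 F) ≠ 0 := by exact_mod_cast hn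
  have hI : Ideal.span {((n : ℤ) : 𝓞 F)} ≠ 0 := by
    rw [Ideal.zero_eq_bot, Ne, Ideal.span_singleton_eq_bot]
    exact hn0
  refine (Ideal.finite_factors hI).subset ?_
  rintro w ⟨p, -, hp, k, hk⟩
  rw [Set.mem_ofPred_eq, Ideal.dvd_span_singleton, hk]
  push_cast
  exact Ideal.mul_mem_right _ _ hp

end H16A
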