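import Pool.Agent.Lib.H16A.U2
import Pool.Agent.Lib.H16A.U3

/-!
# U4 (M): the size of `Hs T`

`T` a finite set of primes; choose a prime `w p` of `F` above every `p ∈ T`.  Map `b ∈ Hs T` to the parities
`(par (w p) (b i))_{p ∈ T, i = 0, 1}`: `4^{|T|}` values; since `∏ b_i = 1` they determine the parity for
`i = 2`.  The kernel consists of triples with trivial parities at all `w p`, hence (`par_of_galois`, U2) at all
primes above `T`, so every component is unramified outside `2 disc`: the kernel is contained in the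
cube of a finite group (U3: `finite_unramified` for the set `finite_above` of the primes above
`2 disc`) of order `N`.  `K₆ = N³`.
-/

open Polynomial IsDedekindDomain NumberField

namespace H16A

/-- counting by the fibres of a homomorphism -/
theorem u4_card {A B C : Type*} [Group A] [Group B] [Finite B] [Finite C] (φ : A →* B)
    (g : A → C) (hg : ∀ a a' : A, φ a = 1 → φ a' = 1 → g a = g a' → a = a') :
    Finite A ∧ Nat.card A ≤ Nat.card B * Nat.card C := by
  classical
  let s : B → A := fun b => if h : ∃ a, φ a = b then h.choose else 1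
  have hs : ∀ a, φ (s (φ a)) = φ a := by
    intro a
    have h : ∃ a', φ a' = φ a := ⟨a, rfl⟩
    have h1 : s (φ a) = h.choose := dif_pos h
    rw [h1]
    exact h.choose_spec
  let Ψ : A → B × C := fun a => (φ a, g (a * (s (φ a))⁻¹))
  have hΨ : Function.Injective Ψ := by
    intro a a' h
    have h1 : φ a = φ a' := congrArg Prod.fst h
    have h2 : g (a * (s (φ a))⁻¹) = g (a' * (s (φ a'))⁻¹) := congrArg Prod.snd h
    have h3 : ∀ a, φ (a * (s (φ a))⁻¹) = 1 := by
      intro a
      rw [map_mul, map_inv, hs, mul_inv_cancel]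
    have h4 := hg _ _ (h3 a) (h3 a') h2
    rw [h1] at h4
    exact mul_right_cancel h4
  refine ⟨Finite.of_injective Ψ hΨ, ?_⟩
  rw [← Nat.card_prod]
  exact Nat.card_le_card_of_injective Ψ hΨ

theorem u4_exists_above (F : Type*) [Field F] [NumberField F] {p : ℕ} (hp : p.Prime) :
    ∃ w : HeightOneSpectrum (𝓞 F), (p : 𝓞 F) ∈ w.asIdeal := by
  have hmax : (Ideal.span {(p : ℤ)}).IsMaximal :=
    PrincipalIdealRing.isMaximal_of_irreducible (Nat.prime_iff_prime_int.1 hp).irreducible
  obtain ⟨P, hP, hover⟩ := Ideal.exists_maximal_ideal_liesOver_of_isIntegral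
    (S := 𝓞 F) (Ideal.span {(p : ℤ)})
  have hmem : (p : 𝓞 F) ∈ P := by
    have h1 : (p : ℤ) ∈ P.under ℤ := by
      rw [← hover.over]
      exact Ideal.mem_span_singleton_self _
    have h2 : algebraMap ℤ (𝓞 F) (p : ℤ) ∈ P := h1
    simpa using h2
  refine ⟨⟨P, hP.isPrime, ?_⟩, hmem⟩
  rintro rfl
  exact Nat.cast_ne_zero.2 hp.ne_zero ((Ideal.mem_bot).1 hmem)

namespace Split

variable {E : Cub} {F : Type} [Field F] [NumberField F] (S : Split E F)

theorem card_Hs : ∃ K₆ : ℕ, 0 < K₆ ∧
    ∀ T : Finset ℕ, (∀ p ∈ T, p.Prime) →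
    Finite (S.Hs T) ∧ Nat.card (S.Hs T) ≤ K₆ * 4 ^ T.card := by
  classical
  have hn : (2 * E.disc : ℤ) ≠ 0 := mul_ne_zero two_ne_zero S.disc_ne_zero
  have hB := finite_above F hn
  obtain ⟨B, hBdef⟩ : ∃ B : Set (HeightOneSpectrum (𝓞 F)), B = {w : HeightOneSpectrum (𝓞 F) |
    ∃ p : ℕ, p.Prime ∧ (p : 𝓞 F) ∈ w.asIdeal ∧ (p : ℤ) ∣ 2 * E.disc} := ⟨_, rfl⟩
  rw [← hBdef] at hB
  have hU := finite_unramified F B hB
  obtain ⟨U, hUdef⟩ : ∃ U : Set (SqC F), U = {x : SqC F | ∀ w, w ∉ B → par w x = 1} := ⟨_, rfl⟩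
  rw [← hUdef] at hU
  have hUfin : Finite U := hU
  have h1U : (1 : SqC F) ∈ U := by
    rw [hUdef]
    intro w _
    exact map_one _
  have hUne : Nonempty U := ⟨⟨1, h1U⟩⟩
  choose wp hwp using fun p : {p : ℕ // p.Prime} => u4_exists_above F p.2
  refine ⟨Nat.card (Fin 3 → U), Nat.card_pos, fun T hT => ?_⟩
  let φ : S.Hs T →* (T → Fin 2 → Multiplicative (ZMod 2)) :=
    { toFun := fun b p i => par (wp ⟨p.1, hT p.1 p.2⟩) (b.1 (Fin.castSucc i))
      map_one' := by
        funext p i
        exact map_one _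
      map_mul' := by
        intro b c
        funext p i
        exact map_mul _ _ _ }
  let g : S.Hs T → (Fin 3 → U) := fun b i =>
    if h : b.1 i ∈ U then ⟨b.1 i, h⟩ else ⟨1, h1U⟩
  have hker : ∀ b : S.Hs T, φ b = 1 → ∀ i, b.1 i ∈ U := by
    intro b hb i
    obtain ⟨b1, b2, b3⟩ := b.2
    rw [hUdef]
    intro w hw
    obtain ⟨p, hp, hpw⟩ := exists_prime_mem w
    have hgood : ¬ (p : ℤ) ∣ 2 * E.disc := by
      intro h
      apply hw
      rw [hBdef]
      exact ⟨p, hp, hpw, h⟩
    by_cases hpT : p ∈ T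
    · have k : ∀ j : Fin 2, par (wp ⟨p, hp⟩) (b.1 (Fin.castSucc j)) = 1 := by
        intro j
        exact congrFun (congrFun hb ⟨p, hpT⟩) j
      have k0 : par (wp ⟨p, hp⟩) (b.1 0) = 1 := k 0
      have k1 : par (wp ⟨p, hp⟩) (b.1 1) = 1 := k 1
      have k2 : par (wp ⟨p, hp⟩) (b.1 2) = 1 := by
        have h := congrArg (par (wp ⟨p, hp⟩)) b1
        rw [Fin.prod_univ_three, map_mul, map_mul, k0, k1, map_one, one_mul, one_mul] at h
        exact h
      have k3 : ∀ j : Fin 3, par (wp ⟨p, hp⟩) (b.1 j) = 1 := by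
        intro j
        fin_cases j
        · exact k0
        · exact k1
        · exact k2
      exact S.par_of_galois hp (hwp ⟨p, hp⟩) hpw b2 k3 i
    · refine b3 w (fun q hq hqw => ?_) i
      have hqp : q = p := prime_mem_unique w hq hp hqw hpw
      subst hqp
      exact ⟨hgood, hpT⟩
  have hg : ∀ b c : S.Hs T, φ b = 1 → φ c = 1 → g b = g c → b = c := by
    intro b c hb hc h
    apply Subtype.ext
    funext i
    have h1 := congrArg Subtype.val (congrFun h i)
    have h2 : (g b i).1 = b.1 i := by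
      simp only [g, dif_pos (hker b hb i)]
    have h3 : (g c i).1 = c.1 i := by
      simp only [g, dif_pos (hker c hc i)]
    rw [← h2, ← h3]
    exact h1
  obtain ⟨h1, h2⟩ := u4_card φ g hg
  refine ⟨h1, le_trans h2 ?_⟩
  rw [Nat.card_pi]
  simp only [Nat.card_eq_fintype_card, Fintype.card_pi, Finset.prod_const, Finset.card_univ,
    Fintype.card_fin, Fintype.card_coe, Fintype.card_multiplicative, ZMod.card]
  rw [mul_comm]
  norm_num

end Split
end H16A
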