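import Pool.Agent.Lib.H16A.Defs

/-!
# V0 (S): square classes, basic API

Elementary: `cls m` is the class of `m ≠ 0` in `Mˣ / squares`; use `sqMk_eq_one_iff`,
`sqMk_surjective`, `sqMap_mk` of `Defs.lean`.
-/

open Polynomial IsDedekindDomain NumberField

namespace H16A

section Classes

variable {M : Type*} [Field M]

theorem cls_eq {m : M} (h : m ≠ 0) : cls m = sqMk M (Units.mk0 m h) := by
  simp [cls, h]

theorem v0_cls_zero : cls (0 : M) = 1 := by
  simp [cls]

theorem cls_mul {m n : M} (hm : m ≠ 0) (hn : n ≠ 0) : cls (m * n) = cls m * cls n := by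
  rw [cls_eq hm, cls_eq hn, cls_eq (mul_ne_zero hm hn), ← map_mul]
  congr 1
  exact Units.ext rfl

theorem cls_eq_one_iff {m : M} (hm : m ≠ 0) : cls m = 1 ↔ IsSquare m := by
  rw [cls_eq hm, sqMk_eq_one_iff, Units.val_mk0]

theorem sqC_mul_self (x : SqC M) : x * x = 1 := by
  obtain ⟨u, rfl⟩ := sqMk_surjective M x
  rw [← map_mul, sqMk_eq_one_iff]
  exact ⟨(u : M), Units.val_mul u u⟩

/-- `m` and `n` have the same class iff `m n` is a square -/
theorem cls_eq_cls_iff {m n : M} (hm : m ≠ 0) (hn : n ≠ 0) : cls m = cls n ↔ IsSquare (m * n) := by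
  rw [← cls_eq_one_iff (mul_ne_zero hm hn), cls_mul hm hn]
  constructor
  · intro h
    rw [h, sqC_mul_self]
  · intro h
    have h1 := congrArg (fun z => z * cls n) h
    simp only [mul_assoc, sqC_mul_self, mul_one, one_mul] at h1
    exact h1

theorem cls_surj (x : SqC M) : ∃ m : M, m ≠ 0 ∧ cls m = x := by
  obtain ⟨u, rfl⟩ := sqMk_surjective M x
  refine ⟨(u : M), u.ne_zero, ?_⟩
  rw [cls_eq u.ne_zero, Units.mk0_val]

theorem sqMap_cls {L : Type*} [Field L] (φ : M →+* L) (m : M) : sqMap φ (cls m) = cls (φ m) := by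
  by_cases h : m = 0
  · subst h
    rw [map_zero, v0_cls_zero, v0_cls_zero, map_one]
  · have h' : φ m ≠ 0 := (map_ne_zero φ).2 h
    rw [cls_eq h, cls_eq h', sqMap_mk]
    congr 1
    exact Units.ext rfl

theorem mem_sqSub_iff {A : Type*} [CommRing A] (u : Aˣ) : u ∈ sqSub A ↔ IsSquare (u : A) := by
  unfold sqSub
  rw [MonoidHom.mem_range]
  constructor
  · rintro ⟨v, rfl⟩
    exact ⟨(v : A), by simp [powMonoidHom, pow_two]⟩
  · rintro ⟨a, ha⟩
    have h1 : IsUnit (a * a) := ha ▸ u.isUnit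
    have h2 : IsUnit a := isUnit_of_mul_isUnit_left h1
    obtain ⟨v, rfl⟩ := h2
    exact ⟨v, Units.ext (by simp [powMonoidHom, pow_two, ha])⟩

end Classes

end H16A
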