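import Mathlib

/-!
# W1 (M): the filtration bound (finite abelian groups)

`X` a finite abelian group, `T` a finite set, `lam p : X → H p` homomorphisms, `G q ≤ X` subgroups,
`n = |T|`.  For `s ⊆ T` put `X_s = ⋂_{p ∈ s} ker (lam p)`.
CLAIM (induction on `s ⊆ T`, `log = log₂` of cardinalities):
 `∑_q log|G_q| ≤ ∑_q log|G_q ∩ X_s| + (n/2)(log|X| - log|X_s|) + ∑_{p ∈ s} |σ_p| + 6|s|`,
 `σ_p = ∑_{q ∈ T, q ≠ p} ± 1` (`+1` if `c q p`, `-1` otherwise).
Step `s → s ∪ {p}`: for every subgroup `A ≤ X`, `|A ∩ X_s| = |lam_p(A ∩ X_s)| · |A ∩ X_{s ∪ p}|`.  Let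
 `g = log|lam_p(X_s)| = log|X_s| - log|X_{s ∪ p}|`.  For `q = p`: `log|lam_p(G_p ∩ X_s)| ≤ log 64 = 6`.
 For `q ≠ p`: let `a` be the maximum of `log|lam_p(G_q ∩ X_s)|` over the `q` with `c q p`, `b` the maximum over
 the `q` without (`0` if there is none), `n₁`, `n₀` the numbers of these `q`.  `a, b ≤ 2` (`ha`), and `a + b ≤ g`:
 the two subgroups of `lam_p(X_s)` meet trivially (`hb`), so the product of their orders is at most
 `|lam_p(X_s)|`.  Hence
 `∑_{q ≠ p} log|lam_p(G_q ∩ X_s)| ≤ a n₁ + b n₀ = (a+b)(n₁+n₀)/2 + (a-b)(n₁-n₀)/2 ≤ g n/2 + |n₁ - n₀|`.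
At the end `s = T`: `|G_q ∩ X_T| ≤ |X_T| ≤ X₀`, and `log|X_T| ≥ 0`.
-/

namespace H16A

theorem w1_card_split {X : Type*} [CommGroup X] [Finite X] {K : Type*} [CommGroup K]
    (f : X →* K) (A : Subgroup X) :
    Nat.card A = Nat.card (A.map f) * Nat.card (A ⊓ f.ker : Subgroup X) := by
  have h1 : f.ker.relIndex A = Nat.card (A.map f) := Subgroup.relIndex_ker A f
  have h2 : (⊥ : Subgroup X).relIndex (A ⊓ f.ker) * (A ⊓ f.ker).relIndex A =
      (⊥ : Subgroup X).relIndex A :=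
    Subgroup.relIndex_mul_relIndex _ _ _ bot_le inf_le_left
  rw [Subgroup.relIndex_bot_left, Subgroup.relIndex_bot_left, inf_comm,
    Subgroup.inf_relIndex_right, h1] at h2
  rw [← h2, mul_comm, inf_comm]

theorem w1_log_split {X : Type*} [CommGroup X] [Finite X] {K : Type*} [CommGroup K] [Finite K]
    (f : X →* K) (A : Subgroup X) :
    Real.logb 2 (Nat.card A) = Real.logb 2 (Nat.card (A.map f)) +
      Real.logb 2 (Nat.card (A ⊓ f.ker : Subgroup X)) := by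
  rw [w1_card_split f A, Nat.cast_mul, Real.logb_mul]
  · exact_mod_cast Nat.card_pos.ne'
  · exact_mod_cast Nat.card_pos.ne'

theorem w1_card_mul_le {K : Type*} [CommGroup K] [Finite K] (B C D : Subgroup K)
    (hB : B ≤ D) (hC : C ≤ D) (h : B ⊓ C = ⊥) : Nat.card B * Nat.card C ≤ Nat.card D := by
  rw [← Nat.card_prod]
  refine Nat.card_le_card_of_injective
    (fun x : B × C => (⟨(x.1 : K) * x.2, D.mul_mem (hB x.1.2) (hC x.2.2)⟩ : D)) ?_
  intro x y hxy
  apply Subgroup.mul_injective_of_disjoint (disjoint_iff.mpr h)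
  exact congrArg (fun d : D => (d : K)) hxy

theorem w1_logb_le {a b : ℕ} (ha : 0 < a) (h : a ≤ b) :
    Real.logb 2 (a : ℝ) ≤ Real.logb 2 (b : ℝ) := by
  apply Real.logb_le_logb_of_le (by norm_num)
  · exact_mod_cast ha
  · exact_mod_cast h

theorem w1_logb_nonneg {a : ℕ} (ha : 0 < a) : 0 ≤ Real.logb 2 (a : ℝ) := by
  apply Real.logb_nonneg (by norm_num)
  exact_mod_cast ha

theorem w1_exists_max {ι : Type*} (E : Finset ι) (m : ι → ℝ) (h0 : ∀ q ∈ E, 0 ≤ m q) :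
    ∃ a : ℝ, (∀ q ∈ E, m q ≤ a) ∧ ((a = 0 ∧ E = ∅) ∨ ∃ q ∈ E, m q = a) := by
  rcases E.eq_empty_or_nonempty with rfl | hE
  · exact ⟨0, by simp, Or.inl ⟨rfl, rfl⟩⟩
  · obtain ⟨q, hq, hmax⟩ := E.exists_max_image m hE
    exact ⟨m q, hmax, Or.inr ⟨q, hq, rfl⟩⟩

theorem w1_real_bound {ι : Type*} [DecidableEq ι] (E : Finset ι) (m : ι → ℝ) (c : ι → Bool)
    (g : ℝ) (hg : 0 ≤ g) (h0 : ∀ q ∈ E, 0 ≤ m q) (h2 : ∀ q ∈ E, m q ≤ 2) (h1 : ∀ q ∈ E, m q ≤ g)
    (hp : ∀ q ∈ E, ∀ q' ∈ E, c q ≠ c q' → m q + m q' ≤ g) :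
    ∑ q ∈ E, m q ≤ g * (E.card : ℝ) / 2 + |∑ q ∈ E, (if c q then (1 : ℝ) else -1)| := by
  set E1 := E.filter (fun q => c q = true) with hE1
  set E0 := E.filter (fun q => ¬ (c q = true)) with hE0
  obtain ⟨a, ha, ha'⟩ := w1_exists_max E1 m (fun q hq => h0 q (Finset.mem_filter.mp hq).1)
  obtain ⟨b, hb, hb'⟩ := w1_exists_max E0 m (fun q hq => h0 q (Finset.mem_filter.mp hq).1)
  have hsum : ∑ q ∈ E, m q = ∑ q ∈ E1, m q + ∑ q ∈ E0, m q :=
    (Finset.sum_filter_add_sum_filter_not E _ _).symm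
  have hcard : (E.card : ℝ) = E1.card + E0.card := by
    have := Finset.card_filter_add_card_filter_not (s := E) (fun q => c q = true)
    exact_mod_cast this.symm
  have hs : ∑ q ∈ E, (if c q then (1 : ℝ) else -1) = E1.card - E0.card := by
    rw [← Finset.sum_filter_add_sum_filter_not E (fun q => c q = true)]
    have e1 : ∑ q ∈ E with c q = true, (if c q then (1 : ℝ) else -1) = E1.card := by
      rw [Finset.sum_congr rfl (g := fun _ => (1 : ℝ))]
      · simp [hE1]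
      · intro q hq
        simp [(Finset.mem_filter.mp hq).2]
    have e0 : ∑ q ∈ E with ¬ (c q = true), (if c q then (1 : ℝ) else -1) = - (E0.card : ℝ) := by
      rw [Finset.sum_congr rfl (g := fun _ => (-1 : ℝ))]
      · simp [hE0]
      · intro q hq
        simp [(Finset.mem_filter.mp hq).2]
    rw [e1, e0]
    ring
  have hA : ∑ q ∈ E1, m q ≤ a * E1.card := by
    calc ∑ q ∈ E1, m q ≤ ∑ q ∈ E1, a := Finset.sum_le_sum ha
      _ = a * E1.card := by rw [Finset.sum_const, nsmul_eq_mul, mul_comm]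
  have hB : ∑ q ∈ E0, m q ≤ b * E0.card := by
    calc ∑ q ∈ E0, m q ≤ ∑ q ∈ E0, b := Finset.sum_le_sum hb
      _ = b * E0.card := by rw [Finset.sum_const, nsmul_eq_mul, mul_comm]
  have ha2 : 0 ≤ a ∧ a ≤ 2 ∧ a ≤ g := by
    rcases ha' with ⟨h, _⟩ | ⟨q, hq, h⟩
    · exact ⟨h.ge, by linarith, by linarith⟩
    · have hq' := (Finset.mem_filter.mp hq).1
      exact ⟨h ▸ h0 q hq', h ▸ h2 q hq', h ▸ h1 q hq'⟩
  have hb2 : 0 ≤ b ∧ b ≤ 2 ∧ b ≤ g := by
    rcases hb' with ⟨h, _⟩ | ⟨q, hq, h⟩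
    · exact ⟨h.ge, by linarith, by linarith⟩
    · have hq' := (Finset.mem_filter.mp hq).1
      exact ⟨h ▸ h0 q hq', h ▸ h2 q hq', h ▸ h1 q hq'⟩
  have hab : a + b ≤ g := by
    rcases ha' with ⟨h, _⟩ | ⟨q, hq, h⟩
    · linarith [hb2.2.2]
    · rcases hb' with ⟨h', _⟩ | ⟨q', hq', h'⟩
      · linarith [ha2.2.2]
      · rw [← h, ← h']
        refine hp q (Finset.mem_filter.mp hq).1 q' (Finset.mem_filter.mp hq').1 ?_
        intro hc
        exact (Finset.mem_filter.mp hq').2 (hc ▸ (Finset.mem_filter.mp hq).2)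
  have hn1 : (0 : ℝ) ≤ E1.card := Nat.cast_nonneg _
  have hn0 : (0 : ℝ) ≤ E0.card := Nat.cast_nonneg _
  rw [hsum, hs, hcard]
  have key : a * E1.card + b * E0.card ≤ g * ((E1.card : ℝ) + E0.card) / 2 +
      |(E1.card : ℝ) - E0.card| := by
    have e : a * E1.card + b * E0.card =
        (a + b) * ((E1.card : ℝ) + E0.card) / 2 + (a - b) / 2 * ((E1.card : ℝ) - E0.card) := by
      ring
    have h3 : (a + b) * ((E1.card : ℝ) + E0.card) / 2 ≤ g * ((E1.card : ℝ) + E0.card) / 2 := by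
      have := mul_le_mul_of_nonneg_right hab (add_nonneg hn1 hn0)
      linarith
    have h4 : (a - b) / 2 * ((E1.card : ℝ) - E0.card) ≤ |(E1.card : ℝ) - E0.card| := by
      have h5 : |(a - b) / 2| ≤ 1 := by
        rw [abs_le]
        constructor <;> linarith [ha2.1, ha2.2.1, hb2.1, hb2.2.1]
      calc (a - b) / 2 * ((E1.card : ℝ) - E0.card)
          ≤ |(a - b) / 2 * ((E1.card : ℝ) - E0.card)| := le_abs_self _
        _ = |(a - b) / 2| * |(E1.card : ℝ) - E0.card| := abs_mul _ _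
        _ ≤ 1 * |(E1.card : ℝ) - E0.card| := mul_le_mul_of_nonneg_right h5 (abs_nonneg _)
        _ = |(E1.card : ℝ) - E0.card| := one_mul _
    linarith
  linarith

theorem w1_induction {X : Type*} [CommGroup X] [Finite X] {ι : Type*} [DecidableEq ι]
    (T : Finset ι) {H : ι → Type*} [∀ p, CommGroup (H p)] [∀ p, Finite (H p)]
    (lam : ∀ p, X →* H p) (G : ι → Subgroup X) (c : ι → ι → Bool)
    (ha : ∀ p ∈ T, ∀ q ∈ T, q ≠ p → Nat.card ((G q).map (lam p)) ≤ 4)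
    (hb : ∀ p ∈ T, ∀ q ∈ T, ∀ q' ∈ T, q ≠ p → q' ≠ p → c q p ≠ c q' p →
      (G q).map (lam p) ⊓ (G q').map (lam p) = ⊥)
    (hc : ∀ p ∈ T, Nat.card (H p) ≤ 64) (s : Finset ι) (hs : s ⊆ T) :
    ∑ q ∈ T, Real.logb 2 (Nat.card (G q)) ≤
      ∑ q ∈ T, Real.logb 2 (Nat.card (G q ⊓ (⨅ p ∈ s, (lam p).ker) : Subgroup X)) +
      (T.card : ℝ) / 2 * (Real.logb 2 (Nat.card X) -
        Real.logb 2 (Nat.card (⨅ p ∈ s, (lam p).ker : Subgroup X))) +
      ∑ p ∈ s, |∑ q ∈ T.erase p, (if c q p then (1 : ℝ) else -1)| +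
      6 * (s.card : ℝ) := by
  induction s using Finset.induction_on with
  | empty => simp
  | insert p s hps ih =>
    have hsT : s ⊆ T := fun x hx => hs (Finset.mem_insert_of_mem hx)
    have hpT : p ∈ T := hs (Finset.mem_insert_self p s)
    have ih := ih hsT
    set Xs : Subgroup X := ⨅ p ∈ s, (lam p).ker with hXs
    have hins : (⨅ p' ∈ insert p s, (lam p').ker : Subgroup X) = Xs ⊓ (lam p).ker := by
      rw [Finset.iInf_insert, inf_comm]
    rw [hins, Finset.sum_insert hps, Finset.card_insert_of_notMem hps]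
    have hsplit : ∀ A : Subgroup X, Real.logb 2 (Nat.card (A ⊓ Xs : Subgroup X)) =
        Real.logb 2 (Nat.card ((A ⊓ Xs).map (lam p))) +
        Real.logb 2 (Nat.card (A ⊓ (Xs ⊓ (lam p).ker) : Subgroup X)) := by
      intro A
      rw [w1_log_split (lam p) (A ⊓ Xs), inf_assoc]
    have hsplitX : Real.logb 2 (Nat.card Xs) =
        Real.logb 2 (Nat.card (Xs.map (lam p))) +
        Real.logb 2 (Nat.card (Xs ⊓ (lam p).ker : Subgroup X)) := w1_log_split (lam p) Xs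
    set g : ℝ := Real.logb 2 (Nat.card (Xs.map (lam p))) with hgdef
    have hg0 : 0 ≤ g := w1_logb_nonneg Nat.card_pos
    set m : ι → ℝ := fun q => Real.logb 2 (Nat.card ((G q ⊓ Xs).map (lam p))) with hm
    have hm0 : ∀ q, 0 ≤ m q := fun q => w1_logb_nonneg Nat.card_pos
    have hm1 : ∀ q, m q ≤ g := by
      intro q
      apply w1_logb_le Nat.card_pos
      exact Subgroup.card_le_of_le (Subgroup.map_mono inf_le_right)
    have hm2 : ∀ q ∈ T.erase p, m q ≤ 2 := by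
      intro q hq
      have hq' := Finset.mem_erase.mp hq
      have h4 : Nat.card ((G q ⊓ Xs).map (lam p)) ≤ 4 :=
        le_trans (Subgroup.card_le_of_le (Subgroup.map_mono inf_le_left)) (ha p hpT q hq'.2 hq'.1)
      have h5 : Real.logb 2 ((4 : ℕ) : ℝ) = 2 := by
        have : ((4 : ℕ) : ℝ) = 2 ^ (2 : ℝ) := by norm_num
        rw [this, Real.logb_rpow (by norm_num) (by norm_num)]
      calc m q ≤ Real.logb 2 ((4 : ℕ) : ℝ) := w1_logb_le Nat.card_pos h4
        _ = 2 := h5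
    have hmp : m p ≤ 6 := by
      have h4 : Nat.card ((G p ⊓ Xs).map (lam p)) ≤ 64 :=
        le_trans (Subgroup.card_le_card_group _) (hc p hpT)
      have h5 : Real.logb 2 ((64 : ℕ) : ℝ) = 6 := by
        have : ((64 : ℕ) : ℝ) = 2 ^ (6 : ℝ) := by norm_num
        rw [this, Real.logb_rpow (by norm_num) (by norm_num)]
      calc m p ≤ Real.logb 2 ((64 : ℕ) : ℝ) := w1_logb_le Nat.card_pos h4
        _ = 6 := h5
    have hmpair : ∀ q ∈ T.erase p, ∀ q' ∈ T.erase p, c q p ≠ c q' p → m q + m q' ≤ g := by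
      intro q hq q' hq' hcc
      have hq := Finset.mem_erase.mp hq
      have hq' := Finset.mem_erase.mp hq'
      have h6 := w1_card_mul_le ((G q ⊓ Xs).map (lam p)) ((G q' ⊓ Xs).map (lam p)) (Xs.map (lam p))
        (Subgroup.map_mono inf_le_right) (Subgroup.map_mono inf_le_right) (by
          rw [eq_bot_iff, ← hb p hpT q hq.2 q' hq'.2 hq.1 hq'.1 hcc]
          exact inf_le_inf (Subgroup.map_mono inf_le_left) (Subgroup.map_mono inf_le_left))
      have h7 : m q + m q' = Real.logb 2 ((Nat.card ((G q ⊓ Xs).map (lam p)) *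
          Nat.card ((G q' ⊓ Xs).map (lam p)) : ℕ) : ℝ) := by
        rw [Nat.cast_mul, Real.logb_mul]
        · exact_mod_cast Nat.card_pos.ne'
        · exact_mod_cast Nat.card_pos.ne'
      rw [h7]
      exact w1_logb_le (Nat.mul_pos Nat.card_pos Nat.card_pos) h6
    have hreal := w1_real_bound (T.erase p) m (fun q => c q p) g hg0 (fun q _ => hm0 q) hm2
      (fun q _ => hm1 q) hmpair
    have hsumT : ∑ q ∈ T, m q = m p + ∑ q ∈ T.erase p, m q :=
      (Finset.add_sum_erase T m hpT).symm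
    have hcard : (((T.erase p).card : ℕ) : ℝ) ≤ T.card := by
      exact_mod_cast Finset.card_le_card (Finset.erase_subset p T)
    have hgc : g * ((T.erase p).card : ℝ) / 2 ≤ (T.card : ℝ) / 2 * g := by
      have := mul_le_mul_of_nonneg_left hcard hg0
      linarith
    have hsumsplit : ∑ q ∈ T, Real.logb 2 (Nat.card (G q ⊓ Xs : Subgroup X)) =
        ∑ q ∈ T, m q +
        ∑ q ∈ T, Real.logb 2 (Nat.card (G q ⊓ (Xs ⊓ (lam p).ker) : Subgroup X)) := by
      rw [← Finset.sum_add_distrib]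
      exact Finset.sum_congr rfl (fun q _ => hsplit (G q))
    have hgX : Real.logb 2 (Nat.card Xs) = g +
        Real.logb 2 (Nat.card (Xs ⊓ (lam p).ker : Subgroup X)) := hsplitX
    push_cast
    rw [hsumsplit, hgX] at ih
    have e : (T.card : ℝ) / 2 * (Real.logb 2 (Nat.card X) -
        (g + Real.logb 2 (Nat.card (Xs ⊓ (lam p).ker : Subgroup X)))) =
        (T.card : ℝ) / 2 * (Real.logb 2 (Nat.card X) -
        Real.logb 2 (Nat.card (Xs ⊓ (lam p).ker : Subgroup X))) - (T.card : ℝ) / 2 * g := by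
      ring
    rw [e] at ih
    linarith

theorem filtration_bound {X : Type*} [CommGroup X] [Finite X] {ι : Type*} [DecidableEq ι]
    (T : Finset ι) {H : ι → Type*} [∀ p, CommGroup (H p)] [∀ p, Finite (H p)]
    (lam : ∀ p, X →* H p) (G : ι → Subgroup X) (c : ι → ι → Bool)
    (ha : ∀ p ∈ T, ∀ q ∈ T, q ≠ p → Nat.card ((G q).map (lam p)) ≤ 4)
    (hb : ∀ p ∈ T, ∀ q ∈ T, ∀ q' ∈ T, q ≠ p → q' ≠ p → c q p ≠ c q' p →
      (G q).map (lam p) ⊓ (G q').map (lam p) = ⊥)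
    (hc : ∀ p ∈ T, Nat.card (H p) ≤ 64) (X₀ : ℕ)
    (h0 : Nat.card (⨅ p ∈ T, (lam p).ker : Subgroup X) ≤ X₀) :
    ∑ q ∈ T, Real.logb 2 (Nat.card (G q)) ≤
      (T.card : ℝ) / 2 * Real.logb 2 (Nat.card X) +
      ∑ p ∈ T, |∑ q ∈ T.erase p, (if c q p then (1 : ℝ) else -1)| +
      6 * (T.card : ℝ) + (T.card : ℝ) * Real.logb 2 X₀ := by
  have h := w1_induction T lam G c ha hb hc T (Finset.Subset.refl T)
  have h1 : ∑ q ∈ T, Real.logb 2 (Nat.card (G q ⊓ (⨅ p ∈ T, (lam p).ker) : Subgroup X)) ≤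
      (T.card : ℝ) * Real.logb 2 X₀ := by
    calc ∑ q ∈ T, Real.logb 2 (Nat.card (G q ⊓ (⨅ p ∈ T, (lam p).ker) : Subgroup X))
        ≤ ∑ q ∈ T, Real.logb 2 X₀ := by
          apply Finset.sum_le_sum
          intro q hq
          exact w1_logb_le Nat.card_pos (le_trans (Subgroup.card_le_of_le inf_le_right) h0)
      _ = (T.card : ℝ) * Real.logb 2 X₀ := by rw [Finset.sum_const, nsmul_eq_mul]
  have h2 : 0 ≤ Real.logb 2 (Nat.card (⨅ p ∈ T, (lam p).ker : Subgroup X)) :=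
    w1_logb_nonneg Nat.card_pos
  have h3 : (T.card : ℝ) / 2 * (Real.logb 2 (Nat.card X) -
      Real.logb 2 (Nat.card (⨅ p ∈ T, (lam p).ker : Subgroup X))) ≤
      (T.card : ℝ) / 2 * Real.logb 2 (Nat.card X) := by
    apply mul_le_mul_of_nonneg_left _ (by positivity)
    linarith
  linarith

end H16A
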