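import Pool.Agent.Lib.H16A.U2

/-!
# W2 (M): the local character at a split prime, and the local image of `β_D`

`hw : S.SplP p w`, `φ : 𝓞 F → ℤ/p` with kernel `w`.
* `exists_lam`: `ord w (p) = 1`, so every `x ∈ Fˣ` is `p^k u`, `k = ord w x`, `ord w u = 0`,
  `u = a/b` with `a, b ∈ 𝓞 F` outside `w` (`exists_div_of_ord_nonneg`), and
  `x ↦ (k mod 2, χ(φ(a) φ(b)))`, `χ` the quadratic character of `ℤ/p` (`quadraticChar (ZMod p)`, values as units `± 1`), is a well
  defined homomorphism `Fˣ → ℤ/2 × {± 1}`, trivial on squares.  (The second component is well defined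
  because `a b' ≡ a' b` mod `w` if `a/b = a'/b'`.)  The three properties: the first component is the parity;
  elements `≡ 1` mod `w` go to `1`; for an integer `q` prime to `p` the second component is trivial iff
  `q` is a square mod `p`.
* `beta_loc`: for `p ∥ D` either all `lam(β_D(P)_i)` are `1`, or there is `i` with
  `lam(β_D(P)_j) = lam(cls (D (e_i - e_j)))` for all `j ≠ i`.  By `beta_ram` (U2) the second case is
  clear (`t ≡ 1` mod `w`).  It remains to see that if all parities are trivial then all `lam` are `1`.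
  Repeat the analysis of U2: if `x = 0` or `ord x ≥ 1` then two parities are odd.  So `x ≠ 0`,
  `ord w x ≤ 0`, `x - D e_i = x (1 - D e_i/x)` with `ord (D e_i/x) > 0` (or `e_i = 0`), so all the three `lam`
  are equal to `lam(cls x)`, and their product is `1` (`beta_prod`), so `lam(cls x)^3 = 1`, hence
  `lam(cls x) = 1` (the target has exponent `2`).
* `card_image_le`: the triples `(lam(b_i))_i`, `b ∈ G_D`, take at most `4` values: `1` and three others (the component `i` is the product of the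
  other two, by `beta_prod`).
* `inter_image`: `D = D' r`, `p ∥ D`, `p ∥ D'`... see the statement: if `lam(b) = lam(b')` for `b ∈ G_D`, `b' ∈ G_{D'}`
  and the classes `lam(D) ≠ lam(D')`, then `lam(b) = 1`: otherwise the index `i` is the same (it is the one with trivial parity, the other two have
  nontrivial parity) and `lam(D (e_i - e_j)) = lam(D' (e_i - e_j))`.
-/

open Polynomial IsDedekindDomain NumberField

namespace H16A

section Lift

/-- a homomorphism of exponent two factors through the square classes -/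
noncomputable def w2_lift {M : Type*} [Field M] {A : Type*} [CommGroup A] (f : Mˣ →* A)
    (h : ∀ u, f u ^ 2 = 1) : SqC M →* A :=
  let g : (Mˣ ⧸ (powMonoidHom 2 : Mˣ →* Mˣ).range) →* A :=
    QuotientGroup.lift _ f (by
      rintro _ ⟨u, rfl⟩
      rw [MonoidHom.mem_ker, powMonoidHom_apply, map_pow, h])
  { toFun := g
    map_one' := map_one g
    map_mul' := map_mul g }

theorem w2_lift_mk {M : Type*} [Field M] {A : Type*} [CommGroup A] (f : Mˣ →* A)
    (h : ∀ u, f u ^ 2 = 1) (u : Mˣ) : w2_lift f h (sqMk M u) = f u := rfl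

theorem w2_lift_cls {M : Type*} [Field M] {A : Type*} [CommGroup A] (f : Mˣ →* A)
    (h : ∀ u, f u ^ 2 = 1) {x : M} (hx : x ≠ 0) : w2_lift f h (cls x) = f (Units.mk0 x hx) := by
  rw [cls_eq hx]
  rfl

variable {p : ℕ} [Fact p.Prime]

/-- the quadratic character with values in the units -/
noncomputable def w2_psi (z : ZMod p) : ℤˣ :=
  open Classical in
  if h : z = 0 then 1 else (quadraticChar (ZMod p)).toUnitHom (Units.mk0 z h)

theorem w2_psi_mul {z z' : ZMod p} (h : z ≠ 0) (h' : z' ≠ 0) :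
    w2_psi (z * z') = w2_psi z * w2_psi z' := by
  unfold w2_psi
  rw [dif_neg h, dif_neg h', dif_neg (mul_ne_zero h h'), ← map_mul]
  congr 1
  exact Units.ext rfl

theorem w2_psi_one : w2_psi (1 : ZMod p) = 1 := by
  unfold w2_psi
  rw [dif_neg one_ne_zero]
  have h1 : Units.mk0 (1 : ZMod p) one_ne_zero = 1 := Units.ext rfl
  rw [h1, map_one]

theorem w2_psi_eq_one_iff {z : ZMod p} (h : z ≠ 0) : w2_psi z = 1 ↔ IsSquare z := by
  unfold w2_psi
  rw [dif_neg h, ← quadraticChar_one_iff_isSquare h, ← Units.val_inj, MulChar.coe_toUnitHom]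
  rfl

end Lift

section Rep

variable {F : Type} [Field F] [NumberField F]

theorem w2_ord_zpow (w : HeightOneSpectrum (𝓞 F)) (x : F) (k : ℤ) :
    ord w (x ^ k) = k * ord w x := by
  obtain ⟨n, rfl | rfl⟩ := k.eq_nat_or_neg
  · rw [zpow_natCast, ord_pow]
  · rw [zpow_neg, zpow_natCast, ord_inv, ord_pow]
    ring

variable {p : ℕ} [Fact p.Prime] {w : HeightOneSpectrum (𝓞 F)} (φ : 𝓞 F →+* ZMod p)

include φ in
theorem w2_coe_ne {a : 𝓞 F} (ha : φ a ≠ 0) : (a : F) ≠ 0 := by
  intro h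
  apply ha
  have h1 : a = 0 := RingOfIntegers.ext h
  rw [h1, map_zero]

theorem w2_rep (hφ : RingHom.ker φ = w.asIdeal) (hp : ord w (p : F) = 1) {x : F} (hx : x ≠ 0) :
    ∃ a b : 𝓞 F, φ a ≠ 0 ∧ φ b ≠ 0 ∧ x = (p : F) ^ (ord w x) * ((a : F) / (b : F)) := by
  have hp0 : (p : F) ≠ 0 := Nat.cast_ne_zero.2 (Fact.out : p.Prime).ne_zero
  have hpk : (p : F) ^ (ord w x) ≠ 0 := zpow_ne_zero _ hp0
  have h0 : ord w (x / (p : F) ^ (ord w x)) = 0 := by
    rw [ord_div w hx hpk, w2_ord_zpow, hp]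
    ring
  obtain ⟨a, b, hb, hab⟩ := exists_div_of_ord_nonneg w (le_of_eq h0.symm)
  have hφb : φ b ≠ 0 := by
    intro h
    apply hb
    rw [← hφ]
    exact h
  have hbF := w2_coe_ne φ hφb
  have hx' : x / (p : F) ^ (ord w x) ≠ 0 := div_ne_zero hx hpk
  have haF : (a : F) ≠ 0 := by
    intro h
    rw [h, zero_div] at hab
    exact hx' hab
  have ha0 : a ≠ 0 := by
    rintro rfl
    exact haF rfl
  refine ⟨a, b, ?_, hφb, ?_⟩
  · intro h
    have h1 : a ∈ w.asIdeal := by
      rw [← hφ]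
      exact h
    rw [← ord_int_pos_iff w ha0] at h1
    rw [hab, ord_div w haF hbF, Split.n7_ord_of_phi φ hφ hφb] at h0
    omega
  · rw [← hab]
    field_simp

theorem w2_ord_rep (hφ : RingHom.ker φ = w.asIdeal) (hp : ord w (p : F) = 1) {k : ℤ} {a b : 𝓞 F}
    (ha : φ a ≠ 0) (hb : φ b ≠ 0) : ord w ((p : F) ^ k * ((a : F) / (b : F))) = k := by
  have hp0 : (p : F) ≠ 0 := Nat.cast_ne_zero.2 (Fact.out : p.Prime).ne_zero
  have haF := w2_coe_ne φ ha
  have hbF := w2_coe_ne φ hb
  rw [ord_mul w (zpow_ne_zero _ hp0) (div_ne_zero haF hbF), ord_div w haF hbF,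
    Split.n7_ord_of_phi φ hφ ha, Split.n7_ord_of_phi φ hφ hb, w2_ord_zpow, hp]
  ring

theorem w2_welldef (hφ : RingHom.ker φ = w.asIdeal) (hp : ord w (p : F) = 1) {k k' : ℤ}
    {a b a' b' : 𝓞 F} (ha : φ a ≠ 0) (hb : φ b ≠ 0) (ha' : φ a' ≠ 0) (hb' : φ b' ≠ 0)
    (h : (p : F) ^ k * ((a : F) / (b : F)) = (p : F) ^ k' * ((a' : F) / (b' : F))) :
    w2_psi (φ a) * w2_psi (φ b) = w2_psi (φ a') * w2_psi (φ b') := by
  have hp0 : (p : F) ≠ 0 := Nat.cast_ne_zero.2 (Fact.out : p.Prime).ne_zero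
  have hk := congrArg (ord w) h
  rw [w2_ord_rep φ hφ hp ha hb, w2_ord_rep φ hφ hp ha' hb'] at hk
  subst hk
  have h1 := mul_left_cancel₀ (zpow_ne_zero _ hp0) h
  have haF := w2_coe_ne φ ha
  have hbF := w2_coe_ne φ hb
  have hbF' := w2_coe_ne φ hb'
  rw [div_eq_div_iff hbF hbF'] at h1
  have h2 : a * b' = a' * b := by
    apply RingOfIntegers.ext
    push_cast
    exact h1
  have h3 := congrArg φ h2
  rw [map_mul, map_mul] at h3
  have h4 := congrArg w2_psi h3
  rw [w2_psi_mul ha hb', w2_psi_mul ha' hb] at h4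
  have h5 : ∀ u : ℤˣ, u * u = 1 := Int.units_mul_self
  calc w2_psi (φ a) * w2_psi (φ b)
      = (w2_psi (φ a) * w2_psi (φ b')) * (w2_psi (φ b') * w2_psi (φ b)) := by
        rw [mul_mul_mul_comm, mul_comm (w2_psi (φ b')) (w2_psi (φ b)), ← mul_assoc,
          mul_assoc _ (w2_psi (φ b')) (w2_psi (φ b)), mul_comm (w2_psi (φ b')) (w2_psi (φ b)),
          mul_assoc, mul_assoc, h5, mul_one]
    _ = (w2_psi (φ a') * w2_psi (φ b)) * (w2_psi (φ b') * w2_psi (φ b)) := by rw [h4]
    _ = w2_psi (φ a') * w2_psi (φ b') := by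
        rw [mul_assoc, mul_comm (w2_psi (φ b')) (w2_psi (φ b)), ← mul_assoc (w2_psi (φ b)),
          h5, one_mul]

end Rep

namespace Split

variable {E : Cub} {F : Type} [Field F] [NumberField F] (S : Split E F)

theorem exists_lam {p : ℕ} {w : HeightOneSpectrum (𝓞 F)} (hw : S.SplP p w) :
    ∃ lam : SqC F →* Multiplicative (ZMod 2) × ℤˣ,
      (∀ x, (lam x).1 = par w x) ∧
      (∀ t : F, t ≠ 0 → (t = 1 ∨ 0 < ord w (t - 1)) → lam (cls t) = 1) ∧
      ∀ q : ℤ, ¬ (p : ℤ) ∣ q → ((lam (cls (q : F))).2 = 1 ↔ IsSquare ((q : ℤ) : ZMod p)) := by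
  classical
  haveI : Fact p.Prime := ⟨hw.prime⟩
  obtain ⟨φ, hφ⟩ := hw.ker
  have hp := hw.ord_p
  have hp0 : (p : F) ≠ 0 := Nat.cast_ne_zero.2 hw.prime.ne_zero
  choose! a b ha hb hab using fun (x : F) (hx : x ≠ 0) => w2_rep φ hφ hp hx
  -- the value at a presented element
  have hval : ∀ (x : F) (hx : x ≠ 0) (k : ℤ) (c d : 𝓞 F), φ c ≠ 0 → φ d ≠ 0 →
      x = (p : F) ^ k * ((c : F) / (d : F)) →
      w2_psi (φ (a x)) * w2_psi (φ (b x)) = w2_psi (φ c) * w2_psi (φ d) := by
    intro x hx k c d hc hd hcd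
    exact w2_welldef φ hφ hp (ha x hx) (hb x hx) hc hd ((hab x hx).symm.trans hcd)
  have hmul : ∀ (x y : F) (hx : x ≠ 0) (hy : y ≠ 0),
      w2_psi (φ (a (x * y))) * w2_psi (φ (b (x * y))) =
      (w2_psi (φ (a x)) * w2_psi (φ (b x))) * (w2_psi (φ (a y)) * w2_psi (φ (b y))) := by
    intro x y hx hy
    have hbx := w2_coe_ne φ (hb x hx)
    have hby := w2_coe_ne φ (hb y hy)
    rw [hval (x * y) (mul_ne_zero hx hy) (ord w x + ord w y) (a x * a y) (b x * b y)
      (by rw [map_mul]; exact mul_ne_zero (ha x hx) (ha y hy))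
      (by rw [map_mul]; exact mul_ne_zero (hb x hx) (hb y hy)) ?_, map_mul, map_mul,
      w2_psi_mul (ha x hx) (ha y hy), w2_psi_mul (hb x hx) (hb y hy), mul_mul_mul_comm]
    rw [zpow_add₀ hp0]
    conv_lhs => rw [hab x hx, hab y hy]
    push_cast
    field_simp
  let q : Fˣ →* ℤˣ :=
    { toFun := fun u => w2_psi (φ (a (u : F))) * w2_psi (φ (b (u : F)))
      map_one' := by
        rw [hval _ (Units.ne_zero 1) 0 1 1 (by rw [map_one]; exact one_ne_zero)
          (by rw [map_one]; exact one_ne_zero) (by simp), map_one, w2_psi_one, mul_one]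
      map_mul' := fun u v => by
        rw [Units.val_mul]
        exact hmul _ _ u.ne_zero v.ne_zero }
  have hq2 : ∀ u, q u ^ 2 = 1 := fun u => by rw [pow_two]; exact Int.units_mul_self _
  refine ⟨(par w).prod (w2_lift q hq2), fun x => rfl, ?_, ?_⟩
  · intro t ht0 ht
    have ho := u2_unit ht0 ht
    have h1 : par w (cls t) = 1 := by
      rw [par_cls_eq_one_iff w ht0, ho]
      exact Even.zero
    have h2 : w2_lift q hq2 (cls t) = 1 := by
      rw [w2_lift_cls q hq2 ht0]
      change w2_psi (φ (a t)) * w2_psi (φ (b t)) = 1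
      have h3 := hab t ht0
      rw [ho, zpow_zero, one_mul] at h3
      have hbF := w2_coe_ne φ (hb t ht0)
      have h4 : φ (a t) = φ (b t) := by
        by_contra hne
        have h5 : φ (a t - b t) ≠ 0 := by
          rw [map_sub]
          exact sub_ne_zero.2 hne
        have h6 := n7_ord_of_phi φ hφ h5
        have h7 : ((a t - b t : 𝓞 F) : F) = (t - 1) * (b t : F) := by
          have h8 : t * (b t : F) = (a t : F) := ((div_eq_iff hbF).1 h3.symm).symm
          push_cast
          rw [sub_mul, one_mul, h8]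
        rw [h7] at h6
        rcases ht with ht | ht
        · apply hne
          have h8 : (a t - b t : 𝓞 F) = 0 := by
            apply RingOfIntegers.ext
            rw [h7, ht, sub_self, zero_mul]
            rfl
          rw [sub_eq_zero.1 h8]
        · have h9 : t - 1 ≠ 0 := by
            intro h
            rw [h, v1_ord_zero] at ht
            exact lt_irrefl _ ht
          rw [ord_mul w h9 hbF, n7_ord_of_phi φ hφ (hb t ht0)] at h6
          omega
      rw [h4]
      exact Int.units_mul_self _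
    exact Prod.ext h1 h2
  · intro r hr
    have hφr : φ (r : 𝓞 F) ≠ 0 := by
      rw [map_intCast, Ne, ZMod.intCast_zmod_eq_zero_iff_dvd]
      exact hr
    have hr0 : (r : F) ≠ 0 := by
      have := w2_coe_ne φ hφr
      rwa [n7_coe_int] at this
    change w2_lift q hq2 (cls (r : F)) = 1 ↔ _
    rw [w2_lift_cls q hq2 hr0]
    change w2_psi (φ (a (r : F))) * w2_psi (φ (b (r : F))) = 1 ↔ _
    rw [hval (r : F) hr0 0 (r : 𝓞 F) 1 hφr (by rw [map_one]; exact one_ne_zero)
      (by rw [n7_coe_int]; simp), map_one, w2_psi_one, mul_one, w2_psi_eq_one_iff hφr, map_intCast]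

theorem w2_sq_one (a : Multiplicative (ZMod 2) × ℤˣ) : a * a = 1 := by
  revert a
  decide

theorem w2_cube {a : Multiplicative (ZMod 2) × ℤˣ} (h : a * a * a = 1) : a = 1 := by
  rw [w2_sq_one, one_mul] at h
  exact h

/-- `beta_loc` with the parities -/
theorem w2_loc {D : ℤ} {p : ℕ} {w : HeightOneSpectrum (𝓞 F)} (hw : S.SplP p w)
    (h1 : (p : ℤ) ∣ D) (h2 : ¬ (p : ℤ) ^ 2 ∣ D) (lam : SqC F →* Multiplicative (ZMod 2) × ℤˣ)
    (hl2 : ∀ t : F, t ≠ 0 → (t = 1 ∨ 0 < ord w (t - 1)) → lam (cls t) = 1)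
    (P : (E.twist D).Pt F) (hprod : ∏ i, (E.twist D).dl ((D : F) * S.e i) P = 1) :
    (∀ i, lam ((E.twist D).dl ((D : F) * S.e i) P) = 1) ∨
    ∃ i, par w ((E.twist D).dl ((D : F) * S.e i) P) = 1 ∧
      ∀ j, j ≠ i → par w ((E.twist D).dl ((D : F) * S.e j) P) ≠ 1 ∧
      lam ((E.twist D).dl ((D : F) * S.e j) P) = lam (cls ((D : F) * (S.e i - S.e j))) := by
  classical
  have hD1 : ord w (D : F) = 1 := hw.ord_int h1 h2
  have hD : (D : F) ≠ 0 := by
    intro h
    rw [h, v1_ord_zero] at hD1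
    exact absurd hD1 (by norm_num)
  have he := S.u2_int w
  have hne : ∀ i j, i ≠ j → S.e i - S.e j ≠ 0 := fun i j hij =>
    sub_ne_zero.2 fun h => hij (S.inj h)
  rcases S.u2_ram hw h1 h2 P with hA | ⟨i, hi, hj⟩
  · left
    rcases P with _ | ⟨x, y, h⟩
    · exact fun i => map_one _
    have hsome : ∀ i, (E.twist D).dl ((D : F) * S.e i)
        (WeierstrassCurve.Affine.Point.some x y h : (E.twist D).Pt F) =
        if x = (D : F) * S.e i then cls ((E.twist D).der ((D : F) * S.e i))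
        else cls (x - (D : F) * S.e i) := fun i => Cub.h1_dl_some _ _ _ _ _
    have hx : x ≠ 0 ∧ ord w x ≤ 0 := by
      by_contra hcon
      obtain ⟨x', hx'⟩ : ∃ x', x' = x / (D : F) := ⟨_, rfl⟩
      have hxx : x = (D : F) * x' := by rw [hx']; field_simp
      have hx'0 : 0 ≤ ord w x' := by
        by_cases hx0 : x = 0
        · rw [hx', hx0, zero_div, v1_ord_zero]
        · have hx : 0 < ord w x := by
            by_contra hcon'
            exact hcon ⟨hx0, not_lt.1 hcon'⟩
          rw [hx', ord_div w hx0 hD, hD1]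
          omega
      have hone : ∃ j, x' - S.e j ≠ 0 ∧ ord w (x' - S.e j) = 0 := by
        by_contra hall
        push Not at hall
        have hall' : ∀ j, x' - S.e j = 0 ∨ 0 < ord w (x' - S.e j) := by
          intro j
          by_cases h0 : x' - S.e j = 0
          · exact Or.inl h0
          · exact Or.inr (lt_of_le_of_ne (u1_sub_nonneg w hx'0 (he j)) (Ne.symm (hall j h0)))
        have h01 := hw.ord_sub (i := 1) (j := 0) (by decide)
        have hn := hne 1 0 (by decide)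
        have e1 : S.e 1 - S.e 0 = (x' - S.e 0) + -(x' - S.e 1) := by ring
        rcases hall' 0 with h0 | h0
        · rcases hall' 1 with h3 | h3
          · rw [e1, h0, h3, neg_zero, add_zero] at hn
            exact hn rfl
          · rw [e1, h0, zero_add, ord_neg] at h01
            omega
        · rcases hall' 1 with h3 | h3
          · rw [e1, h3, neg_zero, add_zero] at h01
            omega
          · have a0 : x' - S.e 0 ≠ 0 := by
              intro h4
              rw [h4, v1_ord_zero] at h0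
              exact lt_irrefl _ h0
            have a1 : x' - S.e 1 ≠ 0 := by
              intro h4
              rw [h4, v1_ord_zero] at h3
              exact lt_irrefl _ h3
            rw [e1] at hn
            have h5 := le_ord_add w hn a0 (neg_ne_zero.2 a1)
            rw [← e1, h01, ord_neg] at h5
            rcases min_le_iff.1 h5 with h6 | h6 <;> omega
      obtain ⟨j, hj0, hj⟩ := hone
      have e2 : x - (D : F) * S.e j = (D : F) * (x' - S.e j) := by
        rw [hxx]
        ring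
      have n2 : x - (D : F) * S.e j ≠ 0 := by
        rw [e2]
        exact mul_ne_zero hD hj0
      have h3 := hA j
      rw [hsome j, if_neg (fun h0 => n2 (sub_eq_zero.2 h0)), par_cls_eq_one_iff w n2, e2,
        ord_mul w hD hj0, hD1, hj] at h3
      exact absurd h3 (by decide)
    obtain ⟨hx0, hx⟩ := hx
    have hv : ∀ i, lam ((E.twist D).dl ((D : F) * S.e i)
        (WeierstrassCurve.Affine.Point.some x y h : (E.twist D).Pt F)) = lam (cls x) := by
      intro i
      have hsm : (D : F) * S.e i = 0 ∨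
          ((D : F) * S.e i ≠ 0 ∧ ord w x < ord w ((D : F) * S.e i)) := by
        by_cases hei : S.e i = 0
        · exact Or.inl (by rw [hei, mul_zero])
        · right
          refine ⟨mul_ne_zero hD hei, ?_⟩
          rw [ord_mul w hD hei, hD1]
          have := he i
          omega
      have n3 : x - (D : F) * S.e i ≠ 0 := by
        rcases hsm with h0 | h0
        · rw [h0, sub_zero]
          exact hx0
        · intro h4
          have h5 := h0.2
          rw [← sub_eq_zero.1 h4] at h5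
          exact lt_irrefl _ h5
      rw [hsome i, if_neg (fun h0 => n3 (sub_eq_zero.2 h0))]
      have e3 : x - (D : F) * S.e i = x * ((x - (D : F) * S.e i) / x) := by field_simp
      have n4 : (x - (D : F) * S.e i) / x ≠ 0 := div_ne_zero n3 hx0
      rw [e3, cls_mul hx0 n4, map_mul, hl2 _ n4 ?_, mul_one]
      rcases hsm with h0 | h0
      · left
        rw [h0, sub_zero, div_self hx0]
      · right
        obtain ⟨n5, h0⟩ := h0
        have e4 : (x - (D : F) * S.e i) / x - 1 = -((D : F) * S.e i / x) := by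
          field_simp
          ring
        rw [e4, ord_neg, ord_div w n5 hx0]
        omega
    rw [Fin.prod_univ_three] at hprod
    have h5 := congrArg lam hprod
    rw [map_mul, map_mul, map_one, hv 0, hv 1, hv 2] at h5
    intro i
    rw [hv i]
    exact w2_cube h5
  · right
    refine ⟨i, hi, fun j hji => ⟨(hj j hji).1, ?_⟩⟩
    obtain ⟨t, ht, ht0, hb⟩ := (hj j hji).2
    rw [hb, cls_mul (mul_ne_zero hD (hne i j hji.symm)) ht0, map_mul, hl2 t ht0 ht, mul_one]

theorem w2_beta_loc {D : ℤ} {p : ℕ} {w : HeightOneSpectrum (𝓞 F)} (hw : S.SplP p w)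
    (h1 : (p : ℤ) ∣ D) (h2 : ¬ (p : ℤ) ^ 2 ∣ D) (lam : SqC F →* Multiplicative (ZMod 2) × ℤˣ)
    (hl2 : ∀ t : F, t ≠ 0 → (t = 1 ∨ 0 < ord w (t - 1)) → lam (cls t) = 1)
    (P : (E.twist D).Pt ℚ) :
    (∀ i, lam (S.beta D P i) = 1) ∨
    ∃ i, par w (S.beta D P i) = 1 ∧ ∀ j, j ≠ i → par w (S.beta D P j) ≠ 1 ∧
      lam (S.beta D P j) = lam (cls ((D : F) * (S.e i - S.e j))) := by
  classical
  have hD0 : D ≠ 0 := by
    rintro rfl
    exact h2 (dvd_zero _)
  have h3 := S.beta_prod hD0 P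
  unfold beta at h3 ⊢
  exact S.w2_loc hw h1 h2 lam hl2 _ h3

theorem beta_loc {D : ℤ} {p : ℕ} {w : HeightOneSpectrum (𝓞 F)} (hw : S.SplP p w)
    (h1 : (p : ℤ) ∣ D) (h2 : ¬ (p : ℤ) ^ 2 ∣ D) (lam : SqC F →* Multiplicative (ZMod 2) × ℤˣ)
    (hl1 : ∀ x, (lam x).1 = par w x)
    (hl2 : ∀ t : F, t ≠ 0 → (t = 1 ∨ 0 < ord w (t - 1)) → lam (cls t) = 1)
    (P : (E.twist D).Pt ℚ) :
    (∀ i, lam (S.beta D P i) = 1) ∨
    ∃ i, ∀ j, j ≠ i → lam (S.beta D P j) = lam (cls ((D : F) * (S.e i - S.e j))) := by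
  rcases S.w2_beta_loc hw h1 h2 lam hl2 P with h | ⟨i, _, h⟩
  · exact Or.inl h
  · exact Or.inr ⟨i, fun j hj => (h j hj).2⟩

/-- the three components of `lam` -/
noncomputable def lam3 (lam : SqC F →* Multiplicative (ZMod 2) × ℤˣ) :
    (Fin 3 → SqC F) →* (Fin 3 → Multiplicative (ZMod 2) × ℤˣ) where
  toFun b i := lam (b i)
  map_one' := by funext i; exact map_one lam
  map_mul' b c := by funext i; exact map_mul lam (b i) (c i)

theorem w2_mem_range (lam : SqC F →* Multiplicative (ZMod 2) × ℤˣ) {D : ℤ} (hD : D ≠ 0)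
    {v : Fin 3 → Multiplicative (ZMod 2) × ℤˣ} (hv : v ∈ (S.G D).map (lam3 lam)) :
    ∃ P, ∀ i, v i = lam (S.beta D P i) := by
  obtain ⟨b, hb, rfl⟩ := hv
  obtain ⟨P, rfl⟩ := (S.mem_G_iff hD b).1 hb
  exact ⟨P, fun i => rfl⟩

theorem w2_ne_zero {D : ℤ} {p : ℕ} (h2 : ¬ (p : ℤ) ^ 2 ∣ D) : D ≠ 0 := by
  rintro rfl
  exact h2 (dvd_zero _)

theorem w2_fin : ∀ i : Fin 3, i + 1 ≠ i ∧ i + 2 ≠ i := by decide

/-- the triple with given components at `j ≠ i`, of product one -/
noncomputable def w2_tri (lam : SqC F →* Multiplicative (ZMod 2) × ℤˣ) (D : ℤ) (i : Fin 3) :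
    Fin 3 → Multiplicative (ZMod 2) × ℤˣ := fun j =>
  if j = i then lam (cls ((D : F) * (S.e i - S.e (i + 1)))) *
    lam (cls ((D : F) * (S.e i - S.e (i + 2))))
  else lam (cls ((D : F) * (S.e i - S.e j)))

theorem w2_tri_eq (v : Fin 3 → Multiplicative (ZMod 2) × ℤˣ) (h : ∏ i, v i = 1) (i : Fin 3) :
    v i = v (i + 1) * v (i + 2) := by
  rw [Fin.prod_univ_three] at h
  have h4 : ∀ a b c : Multiplicative (ZMod 2) × ℤˣ, a * b * c = 1 → a = b * c := by decide
  fin_cases i
  · exact h4 _ _ _ h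
  · change v 1 = v 2 * v 0
    apply h4
    rw [← h, mul_assoc, mul_assoc, mul_comm (v 0), mul_assoc]
  · change v 2 = v 0 * v 1
    apply h4
    rw [← h, mul_assoc, mul_comm (v 2)]

theorem card_image_le {D : ℤ} {p : ℕ} {w : HeightOneSpectrum (𝓞 F)} (hw : S.SplP p w)
    (h1 : (p : ℤ) ∣ D) (h2 : ¬ (p : ℤ) ^ 2 ∣ D) (lam : SqC F →* Multiplicative (ZMod 2) × ℤˣ)
    (hl1 : ∀ x, (lam x).1 = par w x)
    (hl2 : ∀ t : F, t ≠ 0 → (t = 1 ∨ 0 < ord w (t - 1)) → lam (cls t) = 1) :
    Nat.card ((S.G D).map (lam3 lam)) ≤ 4 := by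
  classical
  have hD0 : D ≠ 0 := w2_ne_zero h2
  have hsub : ((S.G D).map (lam3 lam) : Set (Fin 3 → Multiplicative (ZMod 2) × ℤˣ)) ⊆
      (({1, S.w2_tri lam D 0, S.w2_tri lam D 1, S.w2_tri lam D 2} :
        Finset (Fin 3 → Multiplicative (ZMod 2) × ℤˣ)) : Set _) := by
    intro v hv
    obtain ⟨P, hP⟩ := S.w2_mem_range lam hD0 hv
    have hprod : ∏ i, v i = 1 := by
      rw [Finset.prod_congr rfl (fun i _ => hP i), ← map_prod, S.beta_prod hD0, map_one]
    rcases S.w2_beta_loc hw h1 h2 lam hl2 P with h | ⟨i, _, h⟩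
    · have : v = 1 := by
        funext i
        rw [hP i, h i]
        rfl
      rw [this]
      simp
    · have hvi : v = S.w2_tri lam D i := by
        funext j
        unfold w2_tri
        by_cases hj : j = i
        · rw [if_pos hj, hj, w2_tri_eq v hprod i, hP, hP, (h (i + 1) (w2_fin i).1).2,
            (h (i + 2) (w2_fin i).2).2]
        · rw [if_neg hj, hP, (h j hj).2]
      rw [hvi]
      fin_cases i <;> simp
  have h3 := Nat.card_mono (Finset.finite_toSet _) hsub
  refine le_trans h3 ?_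
  rw [Nat.card_coe_set_eq, Set.ncard_coe_finset]
  exact Finset.card_le_four

theorem inter_image {D D' : ℤ} {p : ℕ} {w : HeightOneSpectrum (𝓞 F)} (hw : S.SplP p w)
    (h1 : (p : ℤ) ∣ D) (h2 : ¬ (p : ℤ) ^ 2 ∣ D) (h1' : (p : ℤ) ∣ D') (h2' : ¬ (p : ℤ) ^ 2 ∣ D')
    (lam : SqC F →* Multiplicative (ZMod 2) × ℤˣ)
    (hl1 : ∀ x, (lam x).1 = par w x)
    (hl2 : ∀ t : F, t ≠ 0 → (t = 1 ∨ 0 < ord w (t - 1)) → lam (cls t) = 1)
    (hDD : lam (cls (D : F)) ≠ lam (cls (D' : F))) :
    (S.G D).map (lam3 lam) ⊓ (S.G D').map (lam3 lam) = ⊥ := by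
  rw [eq_bot_iff]
  rintro v ⟨hv, hv'⟩
  rw [Subgroup.mem_bot]
  obtain ⟨P, hP⟩ := S.w2_mem_range lam (w2_ne_zero h2) hv
  obtain ⟨P', hP'⟩ := S.w2_mem_range lam (w2_ne_zero h2') hv'
  rcases S.w2_beta_loc hw h1 h2 lam hl2 P with h | ⟨i, hi, h⟩
  · funext i
    rw [hP i, h i]
    rfl
  rcases S.w2_beta_loc hw h1' h2' lam hl2 P' with h' | ⟨i', hi', h'⟩
  · funext i
    rw [hP' i, h' i]
    rfl
  exfalso
  have hpar : ∀ j, par w (S.beta D P j) = par w (S.beta D' P' j) := by
    intro j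
    rw [← hl1, ← hl1, ← hP, ← hP']
  have hii : i = i' := by
    by_contra hne
    apply (h' i hne).1
    rw [← hpar, hi]
  subst hii
  have hDF : (D : F) ≠ 0 := Int.cast_ne_zero.2 (w2_ne_zero h2)
  have hDF' : (D' : F) ≠ 0 := Int.cast_ne_zero.2 (w2_ne_zero h2')
  obtain ⟨j, hj⟩ : ∃ j : Fin 3, j ≠ i := ⟨i + 1, (w2_fin i).1⟩
  have hne : S.e i - S.e j ≠ 0 := sub_ne_zero.2 fun h => hj (S.inj h).symm
  have h5 := (h j hj).2
  rw [← hP, hP', (h' j hj).2, cls_mul hDF hne, cls_mul hDF' hne, map_mul, map_mul] at h5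
  exact hDD (mul_right_cancel h5).symm

end Split
end H16A
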