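import Pool.Agent.Lib.H16A.W1
import Pool.Agent.Lib.H16A.W2
import Pool.Agent.Lib.H16A.U4
import Pool.Agent.Lib.H16A.U7
import Pool.Agent.Lib.H16A.U8

/-!
# W4 (M/L): some `D` has a group `G_D` of rank at most `(1 + ε)|T|`  (improves U8)

`T` a set of split primes `≤ x`, `n = |T| ≥ x^(4/5)`, `D_q = -∏(T - q)`.  Apply W1 to `X = Hs T` (finite, order
`≤ K₆ 4^n`, U4), `G q = G_{D_q}` (`≤ Hs (T - q) ≤ Hs T`, `G_le_Hs`; as subgroups of `Hs T`, `subgroupOf`),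
`lam p = lam3 (lam_p)` restricted to `Hs T`, `lam_p` from `exists_lam` (W2), `H p = Fin 3 → Multiplicative (ZMod 2) × ℤˣ` of order `64`,
`c q p = (jacobiSym q p = -1)`.
* `ha`: `card_image_le` for `D = D_q`, `p ≠ q`.
* `hb`: `inter_image`: `D_q q = D_{q'} q' = D`, so `lam(D_q) lam(D_{q'}) = lam(q) lam(q')`, and its second component is
  nontrivial iff exactly one of `q`, `q'` is a square mod `p` (exponent two).
* `X₀ = K₆`: an element of `Hs T` with `lam_p = 1` for all `p ∈ T` has trivial parities at the `w p`, hence at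
  all primes above `T` (`par_of_galois`), so it is in `Hs ∅`, of order `≤ K₆`.
* The sum: for `q ≠ p` in `T` the symbol `(q/p)` is `± 1`, so `|∑_{q ≠ p} ± 1| = |∑_{q ∈ T} (q/p)|`, and by `bilinear_aux` (U7)
  `∑_p |..| ≤ (18 n^8 x^3)^(1/6) ≤ (18 n^(47/4))^(1/6) = o(n²)`.
So `∑_q log₂|G_{D_q}| ≤ (n/2)(2n + log₂ K₆) + o(n²) + 6 n + n log₂ K₆ ≤ (2 - κ) n²` for large `n`, since `2 - κ > 1`, and some
`q ∈ T` has `log₂|G_{D_q}| ≤ (2 - κ) n`; `T' = T - q`.
-/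

open Polynomial IsDedekindDomain NumberField

namespace H16A

theorem w4_S {η : ℝ} (hη : 0 < η) : ∃ x₁ : ℕ, ∀ x : ℕ, x₁ ≤ x → ∀ T : Finset ℕ,
    (∀ p ∈ T, p.Prime ∧ p ≠ 2 ∧ p ≤ x) → (x : ℝ) ^ ((4 : ℝ) / 5) ≤ (T.card : ℝ) →
    ∑ p ∈ T, |∑ q ∈ T, (jacobiSym (q : ℤ) p : ℝ)| ≤ η * (T.card : ℝ) ^ 2 := by
  have ht : Filter.Tendsto (fun x : ℕ => (x : ℝ) ^ ((4 : ℝ) / 5)) Filter.atTop Filter.atTop :=
    (tendsto_rpow_atTop (by norm_num)).comp tendsto_natCast_atTop_atTop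
  obtain ⟨x₁, hx₁⟩ := Filter.eventually_atTop.1
    (ht.eventually_ge_atTop (18 ^ 4 / η ^ 24 + 1))
  refine ⟨x₁, fun x hx T hT hcard => ?_⟩
  have hB := (hx₁ x hx).trans hcard
  set P : ℝ := (T.card : ℝ) with hP
  set S : ℝ := ∑ p ∈ T, |∑ q ∈ T, (jacobiSym (q : ℤ) p : ℝ)| with hS
  have hb2 : 0 < 18 ^ 4 / η ^ 24 := by positivity
  have hP0 : 0 < P := by linarith
  have hP2 : 18 ^ 4 ≤ η ^ 24 * P := by
    have : 18 ^ 4 / η ^ 24 ≤ P := by linarith
    rw [div_le_iff₀ (by positivity)] at this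
    linarith
  have haux := bilinear_aux x T hT
  rw [← hS, ← hP] at haux
  have hS0 : 0 ≤ S := Finset.sum_nonneg fun p _ => abs_nonneg _
  have hx4 : (x : ℝ) ^ 4 ≤ P ^ 5 := by
    have h1 : ((x : ℝ) ^ ((4 : ℝ) / 5)) ^ 5 ≤ P ^ 5 := pow_le_pow_left₀ (by positivity) hcard 5
    have h2 : ((x : ℝ) ^ ((4 : ℝ) / 5)) ^ 5 = (x : ℝ) ^ 4 := by
      rw [← Real.rpow_natCast, ← Real.rpow_mul (by positivity)]
      norm_num
    rwa [h2] at h1
  have hS24 : S ^ 24 ≤ 18 ^ 4 * P ^ 47 := by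
    calc S ^ 24 = (S ^ 6) ^ 4 := by ring
      _ ≤ (18 * P ^ 8 * (x : ℝ) ^ 3) ^ 4 := pow_le_pow_left₀ (by positivity) haux 4
      _ = 18 ^ 4 * P ^ 32 * ((x : ℝ) ^ 4) ^ 3 := by ring
      _ ≤ 18 ^ 4 * P ^ 32 * (P ^ 5) ^ 3 := by
          refine mul_le_mul_of_nonneg_left ?_ (by positivity)
          exact pow_le_pow_left₀ (by positivity) hx4 3
      _ = 18 ^ 4 * P ^ 47 := by ring
  by_contra hcon
  push Not at hcon
  have h1 : (η * P ^ 2) ^ 24 < S ^ 24 := pow_lt_pow_left₀ hcon (by positivity) (by norm_num)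
  have h2 : (η * P ^ 2) ^ 24 = (η ^ 24 * P) * P ^ 47 := by ring
  have h3 : 18 ^ 4 * P ^ 47 ≤ (η ^ 24 * P) * P ^ 47 :=
    mul_le_mul_of_nonneg_right hP2 (by positivity)
  linarith

/-- the signs and the Legendre symbols -/
theorem w4_sign (T : Finset ℕ) (hT : ∀ p ∈ T, p.Prime) {p : ℕ} (hp : p ∈ T) :
    |∑ q ∈ T.erase p, (if decide (jacobiSym (q : ℤ) p = -1) then (1 : ℝ) else -1)| =
      |∑ q ∈ T, (jacobiSym (q : ℤ) p : ℝ)| := by
  have h2 : (jacobiSym (p : ℤ) p : ℝ) = 0 := by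
    have hne : NeZero p := ⟨(hT p hp).ne_zero⟩
    have : jacobiSym (p : ℤ) p = 0 := by
      rw [jacobiSym.eq_zero_iff_not_coprime]
      simpa using (hT p hp).ne_one
    rw [this]; simp
  rw [← Finset.add_sum_erase T _ hp, h2, zero_add, ← abs_neg, ← Finset.sum_neg_distrib]
  congr 1
  refine Finset.sum_congr rfl fun q hq => ?_
  rw [Finset.mem_erase] at hq
  have hgcd : ((q : ℤ)).gcd p = 1 := by
    rw [Int.gcd_natCast_natCast]
    exact (Nat.coprime_primes (hT q hq.2) (hT p hp)).2 hq.1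
  rcases jacobiSym.eq_one_or_neg_one hgcd with h | h
  · rw [h]
    norm_num
  · rw [h]
    norm_num

theorem w4_num {κ η L : ℝ} {n : ℕ} {S Z : ℝ} (hη : η = (1 - κ) / 2) (hκ : κ < 1)
    (hS : S ≤ η * (n : ℝ) ^ 2) (hL : 0 ≤ L)
    (hZ : Z ≤ (n : ℝ) / 2 * (L + 2 * n) + S + 6 * n + n * L)
    (hbig : (n : ℝ) * ((2 - κ) * n) ≤ Z) (hn : (3 / 2 * L + 6) / η < n) (hn0 : 0 < (n : ℝ)) :
    False := by
  have hη0 : 0 < η := by rw [hη]; linarith
  rw [div_lt_iff₀ hη0] at hn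
  have h1 : (n : ℝ) * ((2 - κ) * n) ≤ (n : ℝ) / 2 * (L + 2 * n) + η * (n : ℝ) ^ 2 + 6 * n + n * L := by
    linarith
  have h2 : (n : ℝ) * ((2 - κ) * n) - n ^ 2 - η * n ^ 2 = n * (n * η) := by
    rw [hη]
    ring
  have h3 : (n : ℝ) * (n * η) ≤ n * (3 / 2 * L + 6) := by
    rw [← h2]
    linarith
  have h4 := le_of_mul_le_mul_left h3 hn0
  linarith

namespace Split

variable {E : Cub} {F : Type} [Field F] [NumberField F] (S : Split E F)

theorem w4_not_sq (T : Finset ℕ) (hT : ∀ p ∈ T, p.Prime) {p : ℕ} (hp : p ∈ T) :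
    ¬ (p : ℤ) ^ 2 ∣ -(∏ p ∈ T, (p : ℤ)) := by
  intro h
  rw [dvd_neg, ← Finset.mul_prod_erase T (fun n : ℕ => (n : ℤ)) hp, sq] at h
  have hp0 : (p : ℤ) ≠ 0 := by exact_mod_cast (hT p hp).ne_zero
  have h6 := (mul_dvd_mul_iff_left hp0).1 h
  rw [← dvd_neg] at h6
  have h7 := u2_dvd_prod (T := T.erase p)
    (fun n hn => hT n (Finset.mem_of_mem_erase hn)) (hT p hp) h6
  exact Finset.notMem_erase p T h7

theorem w4_map (lam : SqC F →* Multiplicative (ZMod 2) × ℤˣ) {D : ℤ} {T : Finset ℕ}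
    (h : S.G D ≤ S.Hs T) :
    ((S.G D).subgroupOf (S.Hs T)).map ((lam3 lam).comp (S.Hs T).subtype) =
      (S.G D).map (lam3 lam) := by
  rw [← Subgroup.map_map, Subgroup.subgroupOf_map_subtype, inf_eq_left.2 h]

theorem w4_bound (K : ℕ) (hK : 0 < K) (hcard : ∀ T : Finset ℕ, (∀ p ∈ T, p.Prime) →
    Finite (S.Hs T) ∧ Nat.card (S.Hs T) ≤ K * 4 ^ T.card)
    (T : Finset ℕ) (w : ℕ → HeightOneSpectrum (𝓞 F)) (hT : ∀ p ∈ T, S.SplP p (w p)) :
    ∑ q ∈ T, Real.logb 2 (Nat.card (S.G (-(∏ p ∈ T.erase q, (p : ℤ))))) ≤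
      (T.card : ℝ) / 2 * (Real.logb 2 K + 2 * T.card) +
      ∑ p ∈ T, |∑ q ∈ T, (jacobiSym (q : ℤ) p : ℝ)| +
      6 * (T.card : ℝ) + (T.card : ℝ) * Real.logb 2 K := by
  classical
  have hTp : ∀ p ∈ T, p.Prime := fun p hp => (hT p hp).prime
  have hle : ∀ q, S.G (-(∏ p ∈ T.erase q, (p : ℤ))) ≤ S.Hs T := fun q =>
    S.u8_le _ T hTp (Finset.erase_subset _ _)
  haveI := (hcard T hTp).1
  have hex : ∀ p, ∃ lam : SqC F →* Multiplicative (ZMod 2) × ℤˣ, p ∈ T →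
      (∀ x, (lam x).1 = par (w p) x) ∧
      (∀ t : F, t ≠ 0 → (t = 1 ∨ 0 < ord (w p) (t - 1)) → lam (cls t) = 1) ∧
      ∀ q : ℤ, ¬ (p : ℤ) ∣ q → ((lam (cls (q : F))).2 = 1 ↔ IsSquare ((q : ℤ) : ZMod p)) := by
    intro p
    by_cases hp : p ∈ T
    · obtain ⟨lam, h⟩ := S.exists_lam (hT p hp)
      exact ⟨lam, fun _ => h⟩
    · exact ⟨1, fun h => absurd h hp⟩
  choose lam hlam using hex
  have hdiv : ∀ p ∈ T, ∀ q ∈ T, q ≠ p → (p : ℤ) ∣ -(∏ p ∈ T.erase q, (p : ℤ)) := by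
    intro p hp q hq hqp
    rw [dvd_neg]
    exact Finset.dvd_prod_of_mem (fun n : ℕ => (n : ℤ)) (Finset.mem_erase.2 ⟨hqp.symm, hp⟩)
  have hnsq : ∀ p ∈ T, ∀ q ∈ T, q ≠ p → ¬ (p : ℤ) ^ 2 ∣ -(∏ p ∈ T.erase q, (p : ℤ)) := by
    intro p hp q hq hqp
    exact w4_not_sq (T.erase q) (fun n hn => hTp n (Finset.mem_of_mem_erase hn))
      (Finset.mem_erase.2 ⟨hqp.symm, hp⟩)
  have hprod : ∀ q ∈ T, -(∏ p ∈ T, (p : ℤ)) = -(∏ p ∈ T.erase q, (p : ℤ)) * (q : ℤ) := by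
    intro q hq
    rw [← Finset.mul_prod_erase T (fun n : ℕ => (n : ℤ)) hq]
    ring
  have hmain := filtration_bound (X := S.Hs T) T
    (H := fun _ => Fin 3 → Multiplicative (ZMod 2) × ℤˣ)
    (fun p => (lam3 (lam p)).comp (S.Hs T).subtype)
    (fun q => (S.G (-(∏ p ∈ T.erase q, (p : ℤ)))).subgroupOf (S.Hs T))
    (fun q p => decide (jacobiSym (q : ℤ) p = -1))
    (by
      intro p hp q hq hqp
      rw [S.w4_map (lam p) (hle q)]
      obtain ⟨a1, a2, a3⟩ := hlam p hp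
      exact S.card_image_le (hT p hp) (hdiv p hp q hq hqp) (hnsq p hp q hq hqp) (lam p) a1 a2)
    (by
      intro p hp q hq q' hq' hqp hqp' hc
      rw [S.w4_map (lam p) (hle q), S.w4_map (lam p) (hle q')]
      obtain ⟨a1, a2, a3⟩ := hlam p hp
      refine S.inter_image (hT p hp) (hdiv p hp q hq hqp) (hnsq p hp q hq hqp)
        (hdiv p hp q' hq' hqp') (hnsq p hp q' hq' hqp') (lam p) a1 a2 ?_
      intro heq
      have hnd : ∀ r ∈ T, r ≠ p → ¬ (p : ℤ) ∣ (r : ℤ) := by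
        intro r hr hrp h
        have h1 : p ∣ r := by exact_mod_cast h
        exact hrp ((Nat.prime_dvd_prime_iff_eq (hTp p hp) (hTp r hr)).1 h1).symm
      have hiff : ∀ r ∈ T, r ≠ p →
          ((lam p (cls ((r : ℤ) : F))).2 = 1 ↔ ¬ jacobiSym (r : ℤ) p = -1) := by
        intro r hr hrp
        rw [a3 _ (hnd r hr hrp)]
        haveI : Fact p.Prime := ⟨hTp p hp⟩
        constructor
        · intro h h1
          exact ZMod.nonsquare_of_jacobiSym_eq_neg_one h1 h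
        · intro h
          have hgcd : ((r : ℤ)).gcd p = 1 := by
            rw [Int.gcd_natCast_natCast]
            exact (Nat.coprime_primes (hTp r hr) (hTp p hp)).2 hrp
          have h1 : jacobiSym (r : ℤ) p = 1 := (jacobiSym.eq_one_or_neg_one hgcd).resolve_right h
          have h2 : ((r : ℤ) : ZMod p) ≠ 0 := by
            rw [Ne, ZMod.intCast_zmod_eq_zero_iff_dvd]
            exact hnd r hr hrp
          rw [← jacobiSym.legendreSym.to_jacobiSym] at h1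
          exact (legendreSym.eq_one_iff p h2).1 h1
      have hDF : ∀ r ∈ T, ((-(∏ p ∈ T.erase r, (p : ℤ)) : ℤ) : F) ≠ 0 := by
        intro r hr
        rw [Int.cast_ne_zero]
        exact neg_ne_zero.2 (Finset.prod_ne_zero_iff.2 fun n hn => by
          exact_mod_cast (hTp n (Finset.mem_of_mem_erase hn)).ne_zero)
      have hrF : ∀ r ∈ T, ((r : ℤ) : F) ≠ 0 := by
        intro r hr
        rw [Int.cast_ne_zero]
        exact_mod_cast (hTp r hr).ne_zero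
      have e : ∀ r ∈ T, lam p (cls ((-(∏ p ∈ T, (p : ℤ)) : ℤ) : F)) =
          lam p (cls ((-(∏ p ∈ T.erase r, (p : ℤ)) : ℤ) : F)) * lam p (cls ((r : ℤ) : F)) := by
        intro r hr
        rw [← map_mul, ← cls_mul (hDF r hr) (hrF r hr), hprod r hr, Int.cast_mul]
      have e1 := e q hq
      rw [e q' hq', heq] at e1
      have e2 := mul_left_cancel e1
      have e3 := hiff q hq hqp
      rw [← e2, hiff q' hq' hqp'] at e3
      apply hc
      have e4 := not_iff_not.1 e3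
      exact (decide_eq_decide.2 e4).symm)
    (by
      intro p hp
      rw [Nat.card_eq_fintype_card]
      decide +kernel)
    K
    (by
      have h1 := (hcard ∅ (fun p hp => absurd hp (Finset.notMem_empty p)))
      rw [Finset.card_empty, pow_zero, mul_one] at h1
      haveI := h1.1
      refine le_trans ?_ h1.2
      have hmem : ∀ b : S.Hs T, b ∈ (⨅ p ∈ T, ((lam3 (lam p)).comp (S.Hs T).subtype).ker :
          Subgroup (S.Hs T)) → b.1 ∈ S.Hs ∅ := by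
        intro b hb
        obtain ⟨b1, b2, b3⟩ := b.2
        refine ⟨b1, b2, ?_⟩
        intro w' hw' i
        obtain ⟨p, hp, hpw⟩ := exists_prime_mem w'
        obtain ⟨hgood, -⟩ := hw' p hp hpw
        by_cases hpT : p ∈ T
        · obtain ⟨a1, a2, a3⟩ := hlam p hpT
          have h2 : b ∈ ((lam3 (lam p)).comp (S.Hs T).subtype).ker := by
            have h3 := Subgroup.mem_iInf.1 hb p
            exact Subgroup.mem_iInf.1 h3 hpT
          have h4 : ∀ i, par (w p) (b.1 i) = 1 := by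
            intro i
            have h5 : lam p (b.1 i) = 1 := congrFun h2 i
            rw [← a1, h5]
            rfl
          exact S.par_of_galois hp (hT p hpT).mem hpw b2 h4 i
        · refine b3 w' (fun r hr hrw => ?_) i
          have hrp : r = p := prime_mem_unique w' hr hp hrw hpw
          subst hrp
          exact ⟨hgood, hpT⟩
      exact Nat.card_le_card_of_injective
        (fun b => (⟨b.1.1, hmem b.1 b.2⟩ : S.Hs ∅))
        (fun b c hbc => by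
          have h7 : b.1.1 = c.1.1 := by
            simpa using hbc
          exact Subtype.ext (Subtype.ext h7)))
  have hlhs : ∑ q ∈ T, Real.logb 2 (Nat.card ((S.G (-(∏ p ∈ T.erase q, (p : ℤ)))).subgroupOf
      (S.Hs T))) = ∑ q ∈ T, Real.logb 2 (Nat.card (S.G (-(∏ p ∈ T.erase q, (p : ℤ))))) := by
    refine Finset.sum_congr rfl fun q _ => ?_
    rw [Nat.card_congr (Subgroup.subgroupOfEquivOfLe (hle q)).toEquiv]
  rw [hlhs, Finset.sum_congr rfl (fun p hp => w4_sign T hTp hp)] at hmain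
  refine hmain.trans ?_
  have hX : Real.logb 2 (Nat.card (S.Hs T)) ≤ Real.logb 2 K + 2 * T.card := by
    have h1 : (Nat.card (S.Hs T) : ℝ) ≤ (K : ℝ) * 4 ^ T.card := by
      exact_mod_cast (hcard T hTp).2
    have h2 : (0 : ℝ) < Nat.card (S.Hs T) := by
      exact_mod_cast Nat.card_pos
    have hK' : (0 : ℝ) < (K : ℝ) := by exact_mod_cast hK
    have h3 := Real.logb_le_logb_of_le one_lt_two h2 h1
    rw [Real.logb_mul hK'.ne' (by positivity), Real.logb_pow] at h3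
    have h4 : Real.logb 2 (4 : ℝ) = 2 := by
      rw [show (4 : ℝ) = 2 ^ (2 : ℝ) by norm_num, Real.logb_rpow (by norm_num) (by norm_num)]
    rw [h4] at h3
    linarith
  have hn : (0 : ℝ) ≤ (T.card : ℝ) / 2 := by positivity
  have := mul_le_mul_of_nonneg_left hX hn
  linarith

theorem exists_small' {κ : ℝ} (hκ : κ < 1) : ∃ x₂ : ℕ, ∀ x : ℕ, x₂ ≤ x →
    ∀ (T : Finset ℕ) (w : ℕ → HeightOneSpectrum (𝓞 F)), (∀ p ∈ T, S.SplP p (w p) ∧ p ≤ x) →
    (x : ℝ) ^ ((4 : ℝ) / 5) ≤ (T.card : ℝ) →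
    ∃ T' ⊆ T, T.card ≤ T'.card + 1 ∧ Finite (S.G (-(∏ p ∈ T', (p : ℤ)))) ∧
      (Nat.card (S.G (-(∏ p ∈ T', (p : ℤ)))) : ℝ) ≤ 2 ^ ((2 - κ) * (T.card : ℝ)) := by
  obtain ⟨K, hK, hcard⟩ := S.card_Hs
  obtain ⟨η, hη⟩ : ∃ η : ℝ, η = (1 - κ) / 2 := ⟨_, rfl⟩
  have hη0 : 0 < η := by rw [hη]; linarith
  obtain ⟨x₁, hx₁⟩ := w4_S hη0
  have hlim : Filter.Tendsto (fun x : ℕ => (x : ℝ) ^ ((4 : ℝ) / 5)) Filter.atTop Filter.atTop :=
    (tendsto_rpow_atTop (by norm_num)).comp tendsto_natCast_atTop_atTop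
  obtain ⟨x₃, hx₃⟩ := Filter.eventually_atTop.1
    (hlim.eventually_gt_atTop (max 0 ((3 / 2 * Real.logb 2 K + 6) / η)))
  refine ⟨max x₁ x₃, fun x hx T w hT hTx => ?_⟩
  have hprime : ∀ p ∈ T, p.Prime := fun p hp => (hT p hp).1.prime
  have hodd : ∀ p ∈ T, p.Prime ∧ p ≠ 2 ∧ p ≤ x := by
    intro p hp
    refine ⟨hprime p hp, ?_, (hT p hp).2⟩
    rintro rfl
    exact (hT 2 hp).1.good ⟨E.disc, by push_cast; ring⟩
  have hfin : ∀ T' ⊆ T, Finite (S.G (-(∏ p ∈ T', (p : ℤ)))) := by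
    intro T' hT'
    haveI := (hcard T hprime).1
    exact Finite.of_injective _ (Subgroup.inclusion_injective (S.u8_le T' T hprime hT'))
  by_contra hcon
  have hn := hx₃ x ((le_max_right _ _).trans hx)
  have hn1 : max 0 ((3 / 2 * Real.logb 2 K + 6) / η) < (T.card : ℝ) := hn.trans_le hTx
  have hn0 : (0 : ℝ) < T.card := (le_max_left _ _).trans_lt hn1
  have hbig : ∀ q ∈ T, (2 - κ) * (T.card : ℝ) ≤
      Real.logb 2 (Nat.card (S.G (-(∏ p ∈ T.erase q, (p : ℤ))))) := by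
    intro q hq
    by_contra h3
    push Not at h3
    apply hcon
    haveI := hfin (T.erase q) (Finset.erase_subset _ _)
    have hce : (T.erase q).card + 1 = T.card := Finset.card_erase_add_one hq
    refine ⟨T.erase q, Finset.erase_subset _ _, by omega, this, ?_⟩
    have h4 : (0 : ℝ) < Nat.card (S.G (-(∏ p ∈ T.erase q, (p : ℤ)))) := by
      exact_mod_cast Nat.card_pos
    have h5 := (Real.logb_le_iff_le_rpow one_lt_two h4).1 h3.le
    exact h5
  have hb := S.w4_bound K hK hcard T w (fun p hp => (hT p hp).1)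
  have hsum : (T.card : ℝ) * ((2 - κ) * T.card) ≤
      ∑ q ∈ T, Real.logb 2 (Nat.card (S.G (-(∏ p ∈ T.erase q, (p : ℤ))))) := by
    rw [← nsmul_eq_mul]
    exact Finset.card_nsmul_le_sum _ _ _ hbig
  have hL : 0 ≤ Real.logb 2 (K : ℝ) := Real.logb_nonneg one_lt_two (by exact_mod_cast hK)
  exact w4_num hη hκ (hx₁ x ((le_max_left _ _).trans hx) T hodd hTx) hL hb hsum
    ((le_max_right _ _).trans_lt hn1) hn0

end Split
end H16A
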