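import Pool.Agent.Lib.H16A.V2
import Pool.Agent.Lib.H16A.H5

/-!
# X1 (L): Selmer classes are unramified outside `2 disc`

`K → L` number fields (`φ`), `f = ∏ (X - e_i)` in `L`, `W` a prime of `L` above `p`, `p ∤ 2 disc f`,
`u ∈ selSub K`.  Claim: `ord W (u(e_i))` is even for all `i`.

Let `v` be the prime of `K` below `W` (`ord W (φ x) = e · ord v x`, `e ≥ 1`).  `u` goes to `imSub K_v`, so
(`mem_imSub_iff`) there is `P ∈ E(K_v)` with `Rel (uMap u) P`, and `N(u)` is a square in `K`
(`selSub ≤ normSq`), so `∑_i ord W (u(e_i)) = ord W (φ N(u))` is even (`N(u) = ∏ u(e_i)`: `norm_eq`).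
APPROXIMATION: `K` is dense in `K_v`; if `q ∈ K[X]` has coefficients of `v`-order `≥ n` then
`ord W (q(e_i)) ≥ e n` (`e_i` is an algebraic integer).
* `P = 0`: `u = s²` in `K_v[θ]`.  Choose `s₀ ∈ K[θ]` with coordinates close to those of `s`; `u - s₀²` has
  small coordinates, so `u(e_i) - s₀(e_i)²` has order larger than `ord W (u(e_i))`, and
  `ord W (u(e_i)) = 2 ord W (s₀(e_i))`.
* `P = (x, y)`: `u z² = x - θ`.  Choose `z₀ ∈ K[θ]`, `x₀ ∈ K` close to `z`, `x`:
  `u(e_i) z₀(e_i)² = (x₀ - e_i) + (very small)`.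
  - `y ≠ 0`: for `x₀` close to `x`, `f(x₀)` and `f(x) = y²` have the same order, so
    `∑_i ord W (x₀ - e_i) = ord W (f(x₀)) = 2 e v(y)` is even and independent of `x₀`.  If
    `ord W x₀ < 0` then all `ord W (x₀ - e_i) = ord W x₀`, `3 ord W x₀` even.  If `ord W x₀ ≥ 0`
    at most one of the three is positive (`ord W (e_i - e_j) = 0`).  So all three are even and bounded, and
    `ord W (u(e_i)) + 2 ord W (z₀(e_i)) = ord W (x₀ - e_i)`.
  - `y = 0`: `f(x) = 0`, `x` integral at `v`; for `x₀` close to `x` exactly one `i` has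
    `ord W (x₀ - e_i) > 0` (`f(x₀)` is small); for the two other indices `ord W (x₀ - e_j) = 0`, so
    `ord W (u(e_j))` is even, and for `i` use that the sum of the three orders is even.
-/

open Polynomial IsDedekindDomain NumberField

namespace H16A

section X1

variable {K L : Type*} [Field K] [NumberField K] [Field L] [NumberField L]

/-- the prime below -/
noncomputable def x1_below (φ : K →+* L) (W : HeightOneSpectrum (𝓞 L)) :
    HeightOneSpectrum (𝓞 K) where
  asIdeal := W.asIdeal.comap (RingOfIntegers.mapRingHom φ)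
  isPrime := by
    have := W.isPrime
    exact Ideal.comap_isPrime _ _
  ne_bot := by
    obtain ⟨p, hp, hpW⟩ := exists_prime_mem W
    intro h
    have h1 : (p : 𝓞 K) ∈ W.asIdeal.comap (RingOfIntegers.mapRingHom φ) := by
      rw [Ideal.mem_comap, map_natCast]
      exact hpW
    rw [h, Ideal.mem_bot] at h1
    exact hp.ne_zero (Nat.cast_eq_zero.1 h1)

theorem x1_mem (φ : K →+* L) (W : HeightOneSpectrum (𝓞 L)) (x : 𝓞 K) :
    x ∈ (x1_below φ W).asIdeal ↔ RingOfIntegers.mapRingHom φ x ∈ W.asIdeal := Iff.rfl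

theorem x1_coe (φ : K →+* L) (x : 𝓞 K) :
    ((RingOfIntegers.mapRingHom φ x : 𝓞 L) : L) = φ (x : K) := rfl

theorem x1_ord_zero (φ : K →+* L) (W : HeightOneSpectrum (𝓞 L)) {x : 𝓞 K}
    (hx : x ∉ (x1_below φ W).asIdeal) : ord W (φ (x : K)) = 0 := by
  have h0 : RingOfIntegers.mapRingHom φ x ≠ 0 := by
    intro h
    apply hx
    rw [x1_mem, h]
    exact Ideal.zero_mem _
  have h1 := ord_int_nonneg W (RingOfIntegers.mapRingHom φ x)
  have h2 : ¬ 0 < ord W ((RingOfIntegers.mapRingHom φ x : 𝓞 L) : L) := by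
    rw [ord_int_pos_iff W h0]
    exact hx
  rw [x1_coe] at h1 h2
  omega

theorem x1_ord_unit (φ : K →+* L) (W : HeightOneSpectrum (𝓞 L)) {u : K} (hu0 : u ≠ 0)
    (hu : ord (x1_below φ W) u = 0) : ord W (φ u) = 0 := by
  obtain ⟨a, b, hb, rfl⟩ := exists_div_of_ord_nonneg (x1_below φ W) (le_of_eq hu.symm)
  have hb0 : (b : K) ≠ 0 := by
    intro h
    rw [h, div_zero] at hu0
    exact hu0 rfl
  have ha0 : (a : K) ≠ 0 := by
    intro h
    rw [h, zero_div] at hu0
    exact hu0 rfl
  have ha : a ∉ (x1_below φ W).asIdeal := by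
    intro ha
    have ha0' : a ≠ 0 := fun h => ha0 (by rw [h]; exact v2_coe_zero)
    have hb0' : b ≠ 0 := fun h => hb0 (by rw [h]; exact v2_coe_zero)
    have h1 := (ord_int_pos_iff (x1_below φ W) ha0').2 ha
    have h2 : ¬ 0 < ord (x1_below φ W) (b : K) := by
      rw [ord_int_pos_iff _ hb0']
      exact hb
    have h3 := ord_int_nonneg (x1_below φ W) b
    rw [ord_div _ ha0 hb0] at hu
    omega
  rw [map_div₀, ord_div W ((map_ne_zero φ).2 ha0) ((map_ne_zero φ).2 hb0), x1_ord_zero φ W ha,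
    x1_ord_zero φ W hb, sub_zero]

theorem x1_ord_zpow (w : HeightOneSpectrum (𝓞 L)) (x : L) (n : ℤ) :
    ord w (x ^ n) = n * ord w x := by
  unfold ord
  rw [map_zpow₀, WithZero.log_zpow, smul_eq_mul]
  ring

theorem x1_exists_e (φ : K →+* L) (W : HeightOneSpectrum (𝓞 L)) :
    ∃ e : ℕ, 1 ≤ e ∧ ∀ x : K, ord W (φ x) = e * ord (x1_below φ W) x := by
  obtain ⟨π, hπ0, hπ⟩ := exists_ord_eq_one (x1_below φ W)
  have hpos : 0 < ord W (φ π) := by
    obtain ⟨a, b, hb, hab⟩ := exists_div_of_ord_nonneg (x1_below φ W) (x := π) (by omega)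
    have hb0 : (b : K) ≠ 0 := by
      intro h
      rw [h, div_zero] at hab
      exact hπ0 hab
    have ha0 : (a : K) ≠ 0 := by
      intro h
      rw [h, zero_div] at hab
      exact hπ0 hab
    have ha0' : a ≠ 0 := fun h => ha0 (by rw [h]; exact v2_coe_zero)
    have ha : a ∈ (x1_below φ W).asIdeal := by
      rw [← ord_int_pos_iff (x1_below φ W) ha0']
      have h1 : (a : K) = π * b := by
        rw [hab, div_mul_cancel₀ _ hb0]
      rw [h1, ord_mul _ hπ0 hb0, hπ]
      have := ord_int_nonneg (x1_below φ W) b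
      omega
    rw [hab, map_div₀, ord_div W ((map_ne_zero φ).2 ha0) ((map_ne_zero φ).2 hb0),
      x1_ord_zero φ W hb, sub_zero, ← x1_coe]
    rw [ord_int_pos_iff W]
    · exact ha
    · intro h
      have := congrArg (fun z : 𝓞 L => (z : L)) h
      simp only [x1_coe] at this
      exact (map_ne_zero φ).2 ha0 (this.trans v2_coe_zero)
  refine ⟨(ord W (φ π)).toNat, by omega, fun x => ?_⟩
  rw [Int.toNat_of_nonneg hpos.le]
  by_cases hx : x = 0
  · rw [hx, map_zero, v1_ord_zero, v1_ord_zero, mul_zero]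
  · set n := ord (x1_below φ W) x with hn
    have hu0 : x * (π ^ n)⁻¹ ≠ 0 := mul_ne_zero hx (inv_ne_zero (zpow_ne_zero _ hπ0))
    have hu : ord (x1_below φ W) (x * (π ^ n)⁻¹) = 0 := by
      rw [ord_mul _ hx (inv_ne_zero (zpow_ne_zero _ hπ0)), ord_inv, x1_ord_zpow, hπ, ← hn]
      ring
    have h1 := x1_ord_unit φ W hu0 hu
    have h2 : φ x = φ (x * (π ^ n)⁻¹) * φ π ^ n := by
      rw [← map_zpow₀, ← map_mul, mul_assoc, inv_mul_cancel₀ (zpow_ne_zero _ hπ0), mul_one]
    rw [h2, ord_mul W ((map_ne_zero φ).2 hu0) (zpow_ne_zero _ ((map_ne_zero φ).2 hπ0)), h1,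
      x1_ord_zpow, zero_add]
    ring

/-- the prime of `K` below a prime of `L` -/
theorem exists_below {K L : Type*} [Field K] [NumberField K] [Field L] [NumberField L]
    (φ : K →+* L) (W : HeightOneSpectrum (𝓞 L)) :
    ∃ (v : HeightOneSpectrum (𝓞 K)) (e : ℕ), 1 ≤ e ∧ (∀ x : K, ord W (φ x) = e * ord v x) ∧
      ∀ n : ℕ, (n : 𝓞 L) ∈ W.asIdeal ↔ (n : 𝓞 K) ∈ v.asIdeal := by
  obtain ⟨e, he, hx⟩ := x1_exists_e φ W
  refine ⟨x1_below φ W, e, he, hx, fun n => ?_⟩
  rw [x1_mem, map_natCast]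

/-- there is a prime of `L` above every prime of `K` -/
theorem exists_above {K L : Type*} [Field K] [NumberField K] [Field L] [NumberField L]
    (φ : K →+* L) (v : HeightOneSpectrum (𝓞 K)) :
    ∃ (W : HeightOneSpectrum (𝓞 L)) (e : ℕ), 1 ≤ e ∧ (∀ x : K, ord W (φ x) = e * ord v x) ∧
      ∀ n : ℕ, (n : 𝓞 L) ∈ W.asIdeal ↔ (n : 𝓞 K) ∈ v.asIdeal := by
  let := φ.toAlgebra
  have hint : Algebra.IsIntegral (𝓞 K) (𝓞 L) := inferInstance
  have hinj : Function.Injective (algebraMap (𝓞 K) (𝓞 L)) := FaithfulSMul.algebraMap_injective _ _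
  have := v.isPrime
  obtain ⟨Q, hQ, hQv⟩ := Ideal.exists_ideal_over_prime_of_isIntegral_of_isDomain
    (S := 𝓞 L) v.asIdeal (by
      rw [(RingHom.injective_iff_ker_eq_bot _).1 hinj]
      exact bot_le)
  have hQb : Q ≠ ⊥ := by
    rintro rfl
    apply v.ne_bot
    rw [← hQv, ← RingHom.ker_eq_comap_bot]
    exact (RingHom.injective_iff_ker_eq_bot _).1 hinj
  have hbel : x1_below φ ⟨Q, hQ, hQb⟩ = v := by
    apply HeightOneSpectrum.ext
    rw [← hQv]
    rfl
  obtain ⟨e, he, hx⟩ := x1_exists_e φ ⟨Q, hQ, hQb⟩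
  refine ⟨⟨Q, hQ, hQb⟩, e, he, ?_, fun n => ?_⟩
  · rw [hbel] at hx
    exact hx
  · rw [← hbel, x1_mem, map_natCast]

/-- the homomorphism of the completions -/
theorem x1_completion (φ : K →+* L) (W : HeightOneSpectrum (𝓞 L)) :
    ∃ ι : (x1_below φ W).adicCompletion K →+* W.adicCompletion L,
      ∀ x : K, ι (algebraMap K ((x1_below φ W).adicCompletion K) x) =
        algebraMap L (W.adicCompletion L) (φ x) := by
  let := φ.toAlgebra
  have hlies : W.asIdeal.LiesOver (x1_below φ W).asIdeal := ⟨rfl⟩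
  have hc := HeightOneSpectrum.uniformContinuous_algebraMap_liesOver (K := K) L
    (x1_below φ W) W
  let f : (x1_below φ W).adicCompletion K →+* W.adicCompletion L :=
    ((HeightOneSpectrum.adicCompletion.equiv L W).symm.toRingHom.comp
      (UniformSpace.Completion.mapRingHom _ hc.continuous)).comp
      (HeightOneSpectrum.adicCompletion.equiv K (x1_below φ W)).toRingHom
  refine ⟨f, fun x => ?_⟩
  have h1 : algebraMap K ((x1_below φ W).adicCompletion K) x =
      HeightOneSpectrum.adicCompletion.ofCompletion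
        (((WithVal.equiv ((x1_below φ W).valuation K)).symm x :
          WithVal ((x1_below φ W).valuation K)) : UniformSpace.Completion _) := by
    rw [HeightOneSpectrum.algebraMap_adicCompletion]
    rfl
  have h2 : algebraMap L (W.adicCompletion L) (φ x) =
      HeightOneSpectrum.adicCompletion.ofCompletion
        (((WithVal.equiv (W.valuation L)).symm (φ x) :
          WithVal (W.valuation L)) : UniformSpace.Completion _) := by
    rw [HeightOneSpectrum.algebraMap_adicCompletion]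
    rfl
  rw [h1, h2]
  change HeightOneSpectrum.adicCompletion.ofCompletion
    (UniformSpace.Completion.mapRingHom _ hc.continuous
      (((WithVal.equiv ((x1_below φ W).valuation K)).symm x :
          WithVal ((x1_below φ W).valuation K)) : UniformSpace.Completion _)) = _
  rw [UniformSpace.Completion.mapRingHom_coe]
  rfl

/-- valuations of the differences `X - e i` when their product is a square -/
theorem x1_val_sq {M Γ : Type*} [Field M] [LinearOrderedCommGroupWithZero Γ] (w : Valuation M Γ)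
    (e : Fin 3 → M) (he : ∀ i, w (e i) ≤ 1) (hd : ∀ i j, i ≠ j → w (e i - e j) = 1) (X Y : M)
    (hY : Y ^ 2 = (X - e 0) * (X - e 1) * (X - e 2)) (i : Fin 3) (hX : X ≠ e i) :
    IsSquare (w (X - e i)) := by
  have hw : w Y ^ 2 = w (X - e 0) * w (X - e 1) * w (X - e 2) := by
    rw [← map_pow, hY, map_mul, map_mul]
  by_cases h1 : 1 < w X
  · have h2 : ∀ j, w (X - e j) = w X := fun j =>
      Valuation.map_sub_eq_of_lt_left _ ((he j).trans_lt h1)
    rw [h2, h2, h2] at hw
    rw [h2]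
    have h0 : w X ≠ 0 := (zero_lt_one.trans h1).ne'
    refine ⟨w Y / w X, ?_⟩
    rw [div_mul_div_comm, ← pow_two, hw]
    field_simp
  · have h1' : w X ≤ 1 := not_lt.1 h1
    have h2 : ∀ j, w (X - e j) ≤ 1 := fun j => (w.map_sub _ _).trans (max_le h1' (he j))
    rcases eq_or_lt_of_le (h2 i) with h3 | h3
    · rw [h3]
      exact ⟨1, (mul_one 1).symm⟩
    · have h4 : ∀ j, j ≠ i → w (X - e j) = 1 := by
        intro j hj
        have h5 : X - e j = (X - e i) + (e i - e j) := by ring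
        have h6 := hd i j hj.symm
        rw [h5, Valuation.map_add_eq_of_lt_right, h6]
        rw [h6]
        exact h3
      refine ⟨w Y, ?_⟩
      rw [← pow_two, hw]
      fin_cases i
      · rw [h4 1 (by decide), h4 2 (by decide), mul_one, mul_one]
        rfl
      · rw [h4 0 (by decide), h4 2 (by decide), mul_one, one_mul]
        rfl
      · rw [h4 0 (by decide), h4 1 (by decide), one_mul, one_mul]
        rfl

theorem x1_evAt_th {E : Cub} {K M : Type*} [Field K] [Field M] (φ : K →+* M) (e : M)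
    (he : E.val e = 0) : E.evAt φ e he (E.th K) = e := AdjoinRoot.lift_root _

theorem x1_evAt_alg {E : Cub} {K M : Type*} [Field K] [Field M] (φ : K →+* M) (e : M)
    (he : E.val e = 0) (x : K) : E.evAt φ e he (algebraMap K (E.Alg K) x) = φ x :=
  AdjoinRoot.lift_of _

theorem x1_evAt_coords {E : Cub} {K M : Type*} [Field K] [Field M] (φ : K →+* M) (e : M)
    (he : E.val e = 0) (α β γ : K) :
    E.evAt φ e he (algebraMap K (E.Alg K) α + algebraMap K (E.Alg K) β * E.th K +
      algebraMap K (E.Alg K) γ * E.th K ^ 2) = φ α + φ β * e + φ γ * e ^ 2 := by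
  simp only [map_add, map_mul, map_pow, x1_evAt_th, x1_evAt_alg]

theorem x1_evAt_map {E : Cub} {K L K' M : Type*} [Field K] [Field L] [Field K'] [Field M]
    (φ : K →+* L) (j : K →+* K') (ι : K' →+* M) (ρ : L →+* M)
    (hc : ∀ x, ι (j x) = ρ (φ x)) (e : L) (he : E.val e = 0) (he' : E.val (ρ e) = 0)
    (u : E.Alg K) : ρ (E.evAt φ e he u) = E.evAt ι (ρ e) he' (E.algMap j u) := by
  obtain ⟨α, β, γ, rfl⟩ := E.exists_coords u
  have h3 : E.algMap j (algebraMap K (E.Alg K) α + algebraMap K (E.Alg K) β * E.th K +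
      algebraMap K (E.Alg K) γ * E.th K ^ 2) = algebraMap K' (E.Alg K') (j α) +
        algebraMap K' (E.Alg K') (j β) * E.th K' + algebraMap K' (E.Alg K') (j γ) * E.th K' ^ 2 := by
    simp only [map_add, map_mul, map_pow, E.algMap_th, E.algMap_algebraMap]
  rw [h3, x1_evAt_coords, x1_evAt_coords, hc, hc, hc]
  simp only [map_add, map_mul, map_pow]

theorem x1_symm {E : Cub} {L : Type*} [Field L] (e : Fin 3 → L)
    (hp3 : E.poly L = ∏ i, (X - C (e i))) :
    (E.a : L) = -(e 0 + e 1 + e 2) ∧ (E.b : L) = e 0 * e 1 + e 0 * e 2 + e 1 * e 2 ∧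
      (E.c : L) = -(e 0 * e 1 * e 2) := by
  rw [Fin.prod_univ_three, Cub.h1_coeffs, Cubic.prod_X_sub_C_eq, Cubic.toPoly_injective] at hp3
  simp only [Cubic.mk.injEq, true_and] at hp3
  exact ⟨hp3.1, hp3.2.1, hp3.2.2⟩

theorem x1_norm {E : Cub} {K L : Type*} [Field K] [Field L] (φ : K →+* L) (e : Fin 3 → L)
    (he : ∀ i, E.val (e i) = 0) (hp3 : E.poly L = ∏ i, (X - C (e i))) (u : E.Alg K) :
    φ (Algebra.norm K u) = E.evAt φ (e 0) (he 0) u * E.evAt φ (e 1) (he 1) u *
      E.evAt φ (e 2) (he 2) u := by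
  obtain ⟨α, β, γ, rfl⟩ := E.exists_coords u
  rw [E.norm_eq, x1_evAt_coords, x1_evAt_coords, x1_evAt_coords]
  obtain ⟨ha, hb, hc⟩ := x1_symm e hp3
  simp only [map_add, map_sub, map_mul, map_pow, map_intCast, map_ofNat]
  rw [ha, hb, hc]
  ring

/-- the differences of the roots are units at `W` -/
theorem x1_roots {E : Cub} (e : Fin 3 → L) (he : ∀ i, E.val (e i) = 0)
    (hp3 : E.poly L = ∏ i, (X - C (e i))) (W : HeightOneSpectrum (𝓞 L)) {p : ℕ} (hp : p.Prime)
    (hW : (p : 𝓞 L) ∈ W.asIdeal) (hgood : ¬ (p : ℤ) ∣ 2 * E.disc) :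
    (∀ i, W.valuation L (e i) ≤ 1) ∧ ∀ i j, i ≠ j → W.valuation L (e i - e j) = 1 := by
  have hint : ∀ i, ∃ a : 𝓞 L, (a : L) = e i := by
    intro i
    refine ⟨⟨e i, ⟨E.poly ℤ, E.poly_monic ℤ, ?_⟩⟩, rfl⟩
    rw [← Polynomial.eval_map, E.poly_map, E.eval_poly]
    exact he i
  choose a ha using hint
  have hle : ∀ i, W.valuation L (e i) ≤ 1 := by
    intro i
    rw [← ha i]
    exact W.valuation_le_one (a i)
  refine ⟨hle, ?_⟩
  have hdisc : (E.disc : L) = ((e 0 - e 1) * (e 0 - e 2) * (e 1 - e 2)) ^ 2 := by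
    apply Cub.disc_eq_of_roots
    rw [hp3, Fin.prod_univ_three]
  have hdv : W.valuation L (E.disc : L) = 1 := by
    have h1 : ¬ p ∣ E.disc.natAbs := by
      intro h
      apply hgood
      exact Dvd.dvd.mul_left (Int.natCast_dvd.2 h) 2
    have h2 := v2_notMem W hp hW h1
    have h3 : ((E.disc : ℤ) : 𝓞 L) ∉ W.asIdeal := by
      intro h
      apply h2
      rcases Int.natAbs_eq E.disc with h4 | h4
      · rw [h4] at h
        simpa using h
      · rw [h4] at h
        have := W.asIdeal.neg_mem h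
        simpa using this
    have h4 : ¬ W.valuation L (((E.disc : ℤ) : 𝓞 L) : L) < 1 := by
      rw [HeightOneSpectrum.valuation_lt_one_iff_mem]
      exact h3
    have h5 : W.valuation L (((E.disc : ℤ) : 𝓞 L) : L) ≤ 1 := W.valuation_le_one _
    have h6 : (((E.disc : ℤ) : 𝓞 L) : L) = (E.disc : L) := map_intCast (algebraMap (𝓞 L) L) _
    rw [← h6]
    exact le_antisymm h5 (not_lt.1 h4)
  rw [hdisc, map_pow, map_mul, map_mul] at hdv
  have hsub : ∀ i j, W.valuation L (e i - e j) ≤ 1 := fun i j =>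
    ((W.valuation L).map_sub _ _).trans (max_le (hle i) (hle j))
  have hx : W.valuation L (e 0 - e 1) * W.valuation L (e 0 - e 2) * W.valuation L (e 1 - e 2)
      = 1 := by
    have h := (pow_eq_one_iff_of_nonneg zero_le two_ne_zero).1 hdv
    exact h
  have h01 : W.valuation L (e 0 - e 1) = 1 := by
    refine le_antisymm (hsub 0 1) ?_
    rw [← hx]
    calc _ ≤ W.valuation L (e 0 - e 1) * 1 * 1 :=
          mul_le_mul' (mul_le_mul' le_rfl (hsub 0 2)) (hsub 1 2)
      _ = _ := by rw [mul_one, mul_one]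
  have h02 : W.valuation L (e 0 - e 2) = 1 := by
    refine le_antisymm (hsub 0 2) ?_
    rw [← hx]
    calc _ ≤ 1 * W.valuation L (e 0 - e 2) * 1 :=
          mul_le_mul' (mul_le_mul' (hsub 0 1) le_rfl) (hsub 1 2)
      _ = _ := by rw [mul_one, one_mul]
  have h12 : W.valuation L (e 1 - e 2) = 1 := by
    refine le_antisymm (hsub 1 2) ?_
    rw [← hx]
    calc _ ≤ 1 * 1 * W.valuation L (e 1 - e 2) :=
          mul_le_mul' (mul_le_mul' (hsub 0 1) (hsub 0 2)) le_rfl
      _ = _ := by rw [one_mul, one_mul]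
  have hsymm : ∀ i j, W.valuation L (e i - e j) = W.valuation L (e j - e i) := fun i j =>
    Valuation.map_sub_swap _ _ _
  intro i j hij
  have h10 : W.valuation L (e 1 - e 0) = 1 := by rw [hsymm]; exact h01
  have h20 : W.valuation L (e 2 - e 0) = 1 := by rw [hsymm]; exact h02
  have h21 : W.valuation L (e 2 - e 1) = 1 := by rw [hsymm]; exact h12
  fin_cases i <;> fin_cases j <;>
    first
      | exact absurd rfl hij
      | exact h01
      | exact h02
      | exact h12
      | exact h10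
      | exact h20
      | exact h21

theorem x1_sq_of_mul {Γ : Type*} [CommGroupWithZero Γ] {a b : Γ} (hb : b ≠ 0)
    (h : IsSquare (a * b)) (hsb : IsSquare b) : IsSquare a := by
  have h1 : a = a * b / b := by rw [mul_div_cancel_right₀ _ hb]
  rw [h1]
  exact h.div hsb

theorem x1_even (W : HeightOneSpectrum (𝓞 L)) {x : L} (hx : x ≠ 0)
    (h : IsSquare (W.valuation L x)) : Even (ord W x) := by
  obtain ⟨r, hr⟩ := h
  have h0 : W.valuation L x ≠ 0 := v1_ne W hx
  have hr0 : r ≠ 0 := by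
    rintro rfl
    rw [mul_zero] at hr
    exact h0 hr
  refine ⟨-(r.log), ?_⟩
  unfold ord
  rw [hr, WithZero.log_mul hr0 hr0]
  ring

end X1

namespace Cub

variable (E : Cub)

theorem even_ord_of_mem_selSub (hd : E.disc ≠ 0) {K L : Type*} [Field K] [NumberField K] [Field L]
    [NumberField L] (φ : K →+* L) (e : Fin 3 → L) (he : ∀ i, E.val (e i) = 0)
    (hp3 : E.poly L = ∏ i, (X - C (e i))) (W : HeightOneSpectrum (𝓞 L)) {p : ℕ} (hp : p.Prime)
    (hW : (p : 𝓞 L) ∈ W.asIdeal) (hgood : ¬ (p : ℤ) ∣ 2 * E.disc) (u : (E.Alg K)ˣ)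
    (hu : u ∈ E.selSub K) (i : Fin 3) :
    Even (ord W (E.evAt φ (e i) (he i) (u : E.Alg K))) := by
  classical
  obtain ⟨hroot1, hroot2⟩ := x1_roots e he hp3 W hp hW hgood
  obtain ⟨ι, hι⟩ := x1_completion φ W
  have hne : ∀ j, E.evAt φ (e j) (he j) (u : E.Alg K) ≠ 0 := fun j =>
    (u.isUnit.map (E.evAt φ (e j) (he j))).ne_zero
  obtain ⟨ρ, hρ⟩ : ∃ ρ : L →+* W.adicCompletion L, ρ = algebraMap L (W.adicCompletion L) :=
    ⟨_, rfl⟩
  have hval : ∀ x : L, Valued.v (ρ x) = W.valuation L x := by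
    intro x
    rw [hρ, HeightOneSpectrum.algebraMap_adicCompletion]
    exact HeightOneSpectrum.valuedAdicCompletion_eq_valuation' W x
  rw [← hρ] at hι
  obtain ⟨w, hw⟩ : ∃ w : Valuation (W.adicCompletion L) (WithZero (Multiplicative ℤ)),
      w = Valued.v := ⟨_, rfl⟩
  rw [← hw] at hval
  have he' : ∀ j, E.val (ρ (e j)) = 0 := by
    intro j
    have h := congrArg ρ (he j)
    simpa [Cub.val] using h
  have key : ∀ j, ρ (E.evAt φ (e j) (he j) (u : E.Alg K)) =
      E.evAt ι (ρ (e j)) (he' j) (E.algMap (algebraMap K ((x1_below φ W).adicCompletion K))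
        (u : E.Alg K)) := fun j => x1_evAt_map φ _ ι ρ hι (e j) (he j) (he' j) u
  have hcv : CharZero ((x1_below φ W).adicCompletion K) :=
    charZero_of_injective_algebraMap
      (algebraMap K ((x1_below φ W).adicCompletion K)).injective
  have hloc := Subgroup.mem_iInf.1 hu.2.1 (x1_below φ W)
  rw [Subgroup.mem_comap] at hloc
  obtain ⟨P, hP⟩ := (E.mem_imSub_iff two_ne_zero (Int.cast_ne_zero.2 hd) _).1 hloc
  apply x1_even W (hne i)
  rw [← hval]
  cases P with
  | zero =>
    obtain ⟨s, hs⟩ := hP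
    change E.algMap (algebraMap K ((x1_below φ W).adicCompletion K)) (u : E.Alg K) = s * s at hs
    rw [key, hs, map_mul, map_mul]
    exact ⟨_, rfl⟩
  | some x y hn =>
    obtain ⟨-, z, hz⟩ := hP
    change E.algMap (algebraMap K ((x1_below φ W).adicCompletion K)) (u : E.Alg K) * z ^ 2 = _
      at hz
    have heq : y ^ 2 = E.val x := (E.h4_eq_iff x y).1 hn.1
    have hfac : ι y ^ 2 = (ι x - ρ (e 0)) * (ι x - ρ (e 1)) * (ι x - ρ (e 2)) := by
      rw [← map_pow, heq]
      have h1 : ι (E.val x) = E.val (ι x) := by simp [Cub.val]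
      have h2 : E.poly (W.adicCompletion L) = ∏ i, (X - C (ρ (e i))) := by
        rw [← E.poly_map ρ, hp3, Polynomial.map_prod]
        simp
      rw [h1, ← E.eval_poly, h2, Polynomial.eval_prod, Fin.prod_univ_three]
      simp
    have hmain : ∀ j, ι x ≠ ρ (e j) →
        IsSquare (w (ρ (E.evAt φ (e j) (he j) (u : E.Alg K)))) := by
      intro j hj
      have h1 := x1_val_sq w (fun j => ρ (e j)) (fun j => by rw [hval]; exact hroot1 j)
        (fun a b hab => by rw [← map_sub, hval]; exact hroot2 a b hab) (ι x) (ι y) hfac j hj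
      have h2 := congrArg (E.evAt ι (ρ (e j)) (he' j)) hz
      rw [map_mul, ← key, map_pow, map_sub, x1_evAt_alg, x1_evAt_th] at h2
      have h3 : w (ρ (E.evAt φ (e j) (he j) (u : E.Alg K))) *
          w (E.evAt ι (ρ (e j)) (he' j) z) ^ 2 = w (ι x - ρ (e j)) := by
        rw [← map_pow, ← map_mul, h2]
      have h4 : w (ι x - ρ (e j)) ≠ 0 := (Valuation.ne_zero_iff _).2 (sub_ne_zero.2 hj)
      have h5 : w (E.evAt ι (ρ (e j)) (he' j) z) ^ 2 ≠ 0 := by
        intro h0
        rw [h0, mul_zero] at h3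
        exact h4 h3.symm
      refine x1_sq_of_mul h5 ?_ ⟨_, pow_two _⟩
      rw [h3]
      exact h1
    by_cases hX : ι x = ρ (e i)
    · have hinj : ∀ a b, a ≠ b → ρ (e a) ≠ ρ (e b) := by
        intro a b hab h
        have h1 := hroot2 a b hab
        rw [ρ.injective h, sub_self, map_zero] at h1
        exact zero_ne_one h1
      have hother : ∀ j, j ≠ i → IsSquare (w (ρ (E.evAt φ (e j) (he j) (u : E.Alg K)))) := by
        intro j hj
        apply hmain
        rw [hX]
        exact hinj i j hj.symm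
      have hne' : ∀ j, w (ρ (E.evAt φ (e j) (he j) (u : E.Alg K))) ≠ 0 := fun j =>
        (Valuation.ne_zero_iff _).2 ((map_ne_zero ρ).2 (hne j))
      obtain ⟨r, hr⟩ := hu.1
      have hprod : IsSquare (w (ρ (E.evAt φ (e 0) (he 0) (u : E.Alg K))) *
          w (ρ (E.evAt φ (e 1) (he 1) (u : E.Alg K))) *
          w (ρ (E.evAt φ (e 2) (he 2) (u : E.Alg K)))) := by
        rw [← map_mul, ← map_mul, ← map_mul, ← map_mul, ← x1_norm φ e he hp3, hr, map_mul,
          map_mul, map_mul]
        exact ⟨_, rfl⟩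
      fin_cases i
      · exact x1_sq_of_mul (hne' 1) (x1_sq_of_mul (hne' 2) hprod (hother 2 (by decide)))
          (hother 1 (by decide))
      · refine x1_sq_of_mul (hne' 0) ?_ (hother 0 (by decide))
        rw [mul_comm]
        exact x1_sq_of_mul (hne' 2) hprod (hother 2 (by decide))
      · refine x1_sq_of_mul (hne' 0) ?_ (hother 0 (by decide))
        refine x1_sq_of_mul (hne' 1) ?_ (hother 1 (by decide))
        have h1 : w (ρ (E.evAt φ (e 2) (he 2) (u : E.Alg K))) *
            w (ρ (E.evAt φ (e 0) (he 0) (u : E.Alg K))) *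
            w (ρ (E.evAt φ (e 1) (he 1) (u : E.Alg K))) =
            w (ρ (E.evAt φ (e 0) (he 0) (u : E.Alg K))) *
            w (ρ (E.evAt φ (e 1) (he 1) (u : E.Alg K))) *
            w (ρ (E.evAt φ (e 2) (he 2) (u : E.Alg K))) := by
          rw [mul_comm (w (ρ (E.evAt φ (e 2) (he 2) (u : E.Alg K)))), mul_assoc, mul_assoc,
            mul_comm (w (ρ (E.evAt φ (e 2) (he 2) (u : E.Alg K))))]
        exact h1 ▸ hprod
    · exact hmain i hX

end Cub

end H16A
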