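import Pool.Agent.Lib.H16A.X1

/-!
# X2 (M/L): quadratic extensions `L = F(δ)` of number fields

`ψ : F → L`, `δ ∈ L`, `δ² = D ∈ ℤ`, `L = ψ(F) + ψ(F) δ`, `δ ∉ ψ(F)`, `τ` the automorphism of `L` with
`τ ∘ ψ = ψ`, `τ δ = -δ`.
* `hilbert90`: `x τ(x) = ψ(γ)²`: put `y = x/ψ(γ)`, `y τ(y) = 1`.  If `y = -1`, `x = -ψ(γ)`.  Otherwise
  `z = 1 + y`, `τ z = z/y`, `x = ψ(γ) z/τ(z) = ψ(γ) z τ(z)/τ(z)²`, and `z τ(z) ∈ ψ(F)`.
* `isSquare_or`: if `ψ(a) = s²`, `s = x + y δ`, then `2 x y δ ∈ ψ(F)`, so `x y = 0`, `a = x²` or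
  `a = D y²`.
* `unramified`: `W` above `p`, `p ∤ 2D`: `e = 1`, where `ord W ∘ ψ = e · ord w`.  First
  `e ≤ 2` (`e ≤ [L:F]`; in fact we only need that `e` is odd...): suppose `e = 2`; then `W` is the only prime above `w`
  (`Σ e f = 2`) so `τ` fixes `W`.  Take `z = x + y δ` with `ord W z = 1`; `ord W (τ z) = 1`; so
  `ord W (2x) ≥ 1` and `ord W (2 y δ) ≥ 1`; `ord W 2 = ord W δ = 0`; orders of elements of `F` are even, so
  `ord W x, ord W (y δ) ≥ 2`, contradiction.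
* `even_norm`: if `ord W x` is even for all `W` above the prime `p`, then the order of the norm
  `n ∈ F`, `ψ n = x τ(x)`, is even at all `w` above `p`.  If `e(W/w) = 1`: `ord w n = ord W (x) +
  ord W (τ x)`, and `ord W ∘ τ` is the order at another prime above `p`.  If `e = 2`: `τ W = W` and
  `2 ord w n = ord W (ψ n) = 2 ord W x`.
-/

open Polynomial IsDedekindDomain NumberField

namespace H16A

/-- a quadratic extension `L = F(δ)` of number fields, `δ² = D ∈ ℤ` -/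
structure Quad (F L : Type) [Field F] [NumberField F] [Field L] [NumberField L] (D : ℤ) where
  /-- the embedding -/
  ψ : F →+* L
  /-- the square root -/
  δ : L
  sq : δ ^ 2 = (D : L)
  span : ∀ z : L, ∃ x y : F, z = ψ x + ψ y * δ
  notin : δ ∉ Set.range ψ
  /-- the conjugation -/
  τ : L ≃+* L
  τ_ψ : ∀ x, τ (ψ x) = ψ x
  τ_δ : τ δ = -δ

namespace Quad

variable {F L : Type} [Field F] [NumberField F] [Field L] [NumberField L] {D : ℤ} (Q : Quad F L D)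

theorem x2_ψ_inj : Function.Injective Q.ψ := Q.ψ.injective

theorem norm_mem (x : L) : ∃ n : F, Q.ψ n = x * Q.τ x := by
  obtain ⟨a, b, rfl⟩ := Q.span x
  refine ⟨a ^ 2 - D * b ^ 2, ?_⟩
  rw [map_add, map_mul, Q.τ_ψ, Q.τ_ψ, Q.τ_δ, map_sub, map_mul, map_pow, map_pow, map_intCast,
    ← Q.sq]
  ring

theorem hilbert90 {x : L} (hx : x ≠ 0) {γ : F} (h : x * Q.τ x = Q.ψ γ ^ 2) :
    ∃ (a : F) (s : L), a ≠ 0 ∧ s ≠ 0 ∧ x = Q.ψ a * s ^ 2 := by
  have hτx : Q.τ x ≠ 0 := (map_ne_zero_iff _ Q.τ.injective).2 hx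
  have hγ : γ ≠ 0 := by
    rintro rfl
    rw [map_zero] at h
    exact mul_ne_zero hx hτx (by rw [h]; ring)
  have hψγ : Q.ψ γ ≠ 0 := (_root_.map_ne_zero _).2 hγ
  by_cases h1 : x + Q.ψ γ = 0
  · refine ⟨-γ, 1, neg_ne_zero.2 hγ, one_ne_zero, ?_⟩
    rw [map_neg]
    linear_combination h1
  · set z := x + Q.ψ γ with hz
    have hτz : Q.τ z = Q.τ x + Q.ψ γ := by rw [hz, map_add, Q.τ_ψ]
    have hτz0 : Q.τ z ≠ 0 := (map_ne_zero_iff _ Q.τ.injective).2 h1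
    have h2 : x * Q.τ z = Q.ψ γ * z := by
      rw [hτz, hz]
      linear_combination h
    obtain ⟨n, hn⟩ := Q.norm_mem z
    have hn0 : n ≠ 0 := by
      rintro rfl
      rw [map_zero] at hn
      exact mul_ne_zero h1 hτz0 hn.symm
    refine ⟨γ * n, (Q.τ z)⁻¹, mul_ne_zero hγ hn0, inv_ne_zero hτz0, ?_⟩
    rw [map_mul, hn]
    field_simp
    linear_combination h2

theorem isSquare_or {a : F} (h : IsSquare (Q.ψ a)) : IsSquare a ∨ IsSquare ((D : F) * a) := by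
  obtain ⟨s, hs⟩ := h
  obtain ⟨x, y, rfl⟩ := Q.span s
  have h1 : Q.ψ (a - x ^ 2 - D * y ^ 2) = Q.ψ (2 * x * y) * Q.δ := by
    rw [map_sub, map_sub, map_mul, map_mul, map_mul, map_pow, map_pow, map_intCast, map_ofNat, hs,
      ← Q.sq]
    ring
  have hxy : 2 * x * y = 0 := by
    by_contra hne
    apply Q.notin
    refine ⟨(a - x ^ 2 - D * y ^ 2) / (2 * x * y), ?_⟩
    rw [map_div₀, h1]
    have hne' : Q.ψ (2 * x * y) ≠ 0 := (_root_.map_ne_zero _).2 hne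
    field_simp
  rw [hxy, map_zero, zero_mul] at h1
  have h2 : a - x ^ 2 - D * y ^ 2 = 0 := (_root_.map_eq_zero _).1 h1
  rcases mul_eq_zero.1 hxy with h3 | h3
  · have hx0 : x = 0 := by
      rcases mul_eq_zero.1 h3 with h4 | h4
      · exact absurd h4 two_ne_zero
      · exact h4
    right
    refine ⟨D * y, ?_⟩
    rw [hx0] at h2
    linear_combination (D : F) * h2
  · left
    refine ⟨x, ?_⟩
    rw [h3] at h2
    linear_combination h2

/-- the conjugation as an automorphism over `ℚ` -/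
noncomputable def x2_σ : L ≃ₐ[ℚ] L := AlgEquiv.ofRingEquiv (f := Q.τ) (fun r => by
  rw [eq_ratCast, map_ratCast])

theorem x2_σ_apply (z : L) : Q.x2_σ z = Q.τ z := rfl

theorem x2_exists_split {W W' : HeightOneSpectrum (𝓞 L)} (h : W ≠ W') :
    ∃ z : L, z ≠ 0 ∧ ord W z = 1 ∧ ord W' z = 0 := by
  obtain ⟨π, hπ⟩ := W.intValuation_exists_uniformizer
  have hπ0 : π ≠ 0 := by
    rintro rfl
    rw [map_zero] at hπ
    exact WithZero.exp_ne_zero hπ.symm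
  have hπ0' : (π : L) ≠ 0 := fun h => hπ0 (RingOfIntegers.ext h)
  have hπ1 : ord W (π : L) = 1 := by
    unfold ord
    have h1 : W.valuation L (π : L) = W.intValuation π := W.valuation_of_algebraMap π
    rw [h1, hπ, WithZero.log_exp, neg_neg]
  have hmax : W.asIdeal ⊔ W'.asIdeal = ⊤ :=
    Ideal.IsMaximal.coprime_of_ne W.isMaximal W'.isMaximal
      (fun h' => h (HeightOneSpectrum.ext h'))
  have hco : IsCoprime (W.asIdeal ^ 2) W'.asIdeal :=
    (Ideal.isCoprime_iff_sup_eq.2 hmax).pow_left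
  obtain ⟨a, ha, b, hb, hab⟩ := Ideal.isCoprime_iff_exists.1 hco
  have hπW : π ∈ W.asIdeal := (ord_int_pos_iff W hπ0).1 (by rw [hπ1]; norm_num)
  have hπW2 : π ∉ W.asIdeal ^ 2 := by
    intro hm
    have := (v2_le_iff W hπ0 2).2 hm
    rw [hπ1] at this
    norm_num at this
  have hzW : π * b + a ∈ W.asIdeal :=
    Ideal.add_mem _ (Ideal.mul_mem_right _ _ hπW) (Ideal.pow_le_self two_ne_zero ha)
  have hzW2 : π * b + a ∉ W.asIdeal ^ 2 := by
    intro hm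
    apply hπW2
    have h1 : π = (π * b + a) - a + π * a := by
      linear_combination -π * hab
    rw [h1]
    exact Ideal.add_mem _ (Ideal.sub_mem _ hm ha) (Ideal.mul_mem_left _ _ ha)
  have hzW' : π * b + a ∉ W'.asIdeal := by
    intro hm
    have h1 : a ∈ W'.asIdeal := by
      have h2 : a = (π * b + a) - π * b := by ring
      rw [h2]
      exact Ideal.sub_mem _ hm (Ideal.mul_mem_left _ _ hb)
    have h3 : (1 : 𝓞 L) ∈ W'.asIdeal := by
      rw [← hab]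
      exact Ideal.add_mem _ h1 hb
    exact W'.isPrime.ne_top ((Ideal.eq_top_iff_one _).2 h3)
  have hz0 : π * b + a ≠ 0 := by
    intro h0
    rw [h0] at hzW2
    exact hzW2 (Ideal.zero_mem _)
  refine ⟨((π * b + a : 𝓞 L) : L), fun h0 => hz0 (RingOfIntegers.ext h0), ?_, ?_⟩
  · have h1 := (ord_int_pos_iff W hz0).2 hzW
    have h2 : ¬ ((2 : ℕ) : ℤ) ≤ ord W ((π * b + a : 𝓞 L) : L) := fun hm =>
      hzW2 ((v2_le_iff W hz0 2).1 hm)
    rw [Nat.cast_ofNat] at h2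
    omega
  · have h1 := ord_int_nonneg W' (π * b + a)
    have h2 : ¬ 0 < ord W' ((π * b + a : 𝓞 L) : L) := fun hm =>
      hzW' ((ord_int_pos_iff W' hz0).1 hm)
    omega

theorem x2_ord_norm {W : HeightOneSpectrum (𝓞 L)} {z : L} (hz : z ≠ 0) {n : F}
    (hn : Q.ψ n = z * Q.τ z) : ord W (Q.ψ n) = ord W z + ord (cj Q.x2_σ W) z := by
  have hτz : Q.τ z ≠ 0 := (map_ne_zero_iff _ Q.τ.injective).2 hz
  rw [hn, ord_mul W hz hτz, ord_cj, Q.x2_σ_apply]

/-- the ramification index is `1`, or it is `2` and `W` is fixed -/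
theorem x2_ram {W : HeightOneSpectrum (𝓞 L)} {w : HeightOneSpectrum (𝓞 F)} {e : ℕ}
    (he : ∀ x : F, ord W (Q.ψ x) = e * ord w x) : e = 1 ∨ (e = 2 ∧ cj Q.x2_σ W = W) := by
  by_cases hc : cj Q.x2_σ W = W
  · obtain ⟨z, hz0, hz1⟩ := exists_ord_eq_one W
    obtain ⟨n, hn⟩ := Q.norm_mem z
    have h1 := Q.x2_ord_norm (W := W) hz0 hn
    rw [hc, hz1, he] at h1
    have h2 : (e : ℤ) ∣ 2 := ⟨ord w n, by rw [h1]; norm_num⟩
    have h3 : e ∣ 2 := by exact_mod_cast h2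
    rcases (Nat.dvd_prime Nat.prime_two).1 h3 with h4 | h4
    · exact Or.inl h4
    · exact Or.inr ⟨h4, hc⟩
  · left
    obtain ⟨z, hz0, hz1, hz2⟩ := x2_exists_split (L := L) (W := W) (W' := cj Q.x2_σ W)
      (fun h => hc h.symm)
    obtain ⟨n, hn⟩ := Q.norm_mem z
    have h1 := Q.x2_ord_norm (W := W) hz0 hn
    rw [hz1, hz2, he] at h1
    have h2 : (e : ℤ) ∣ 1 := ⟨ord w n, by rw [h1]; norm_num⟩
    have h3 : e ∣ 1 := by exact_mod_cast h2
    exact Nat.dvd_one.1 h3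

theorem x2_ord_int {W : HeightOneSpectrum (𝓞 L)} {p : ℕ} (hp : p.Prime)
    (hW : (p : 𝓞 L) ∈ W.asIdeal) {m : ℤ} (hm : ¬ (p : ℤ) ∣ m) : ord W (m : L) = 0 := by
  have h1 : ¬ p ∣ m.natAbs := fun h => hm (Int.natCast_dvd.2 h)
  have h2 := v2_notMem W hp hW h1
  have h3 : ord W ((m.natAbs : ℕ) : L) = 0 := by
    have h4 : ((m.natAbs : ℕ) : 𝓞 L) ≠ 0 := by
      intro h0
      rw [h0] at h2
      exact h2 (Ideal.zero_mem _)
    have h5 : ¬ 0 < ord W (((m.natAbs : ℕ) : 𝓞 L) : L) := fun h =>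
      h2 ((ord_int_pos_iff W h4).1 h)
    have h6 := ord_int_nonneg W ((m.natAbs : ℕ) : 𝓞 L)
    rw [v2_coe_nat] at h5 h6
    omega
  rcases Int.natAbs_eq m with h4 | h4
  · rw [h4, Int.cast_natCast]
    exact h3
  · rw [h4, Int.cast_neg, Int.cast_natCast, ord_neg]
    exact h3

theorem unramified {W : HeightOneSpectrum (𝓞 L)} {w : HeightOneSpectrum (𝓞 F)} {e : ℕ}
    (he : ∀ x : F, ord W (Q.ψ x) = e * ord w x) {p : ℕ} (hp : p.Prime)
    (hW : (p : 𝓞 L) ∈ W.asIdeal) (hpD : ¬ (p : ℤ) ∣ 2 * D) : e = 1 := by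
  rcases Q.x2_ram he with h | ⟨h2, hc⟩
  · exact h
  exfalso
  subst h2
  have hp2 : ¬ (p : ℤ) ∣ 2 := fun h => hpD (h.mul_right _)
  have hpD' : ¬ (p : ℤ) ∣ D := fun h => hpD (h.mul_left _)
  have o2 : ord W (2 : L) = 0 := by
    have := x2_ord_int (L := L) hp hW hp2
    rwa [Int.cast_ofNat] at this
  have hD0 : (D : L) ≠ 0 := by
    intro h0
    apply hpD'
    have : D = 0 := by exact_mod_cast h0
    rw [this]
    exact dvd_zero _
  have hδ0 : Q.δ ≠ 0 := by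
    intro h0
    apply hD0
    rw [← Q.sq, h0]
    ring
  have oδ : ord W Q.δ = 0 := by
    have h1 := x2_ord_int (L := L) hp hW hpD'
    rw [← Q.sq, ord_pow] at h1
    push_cast at h1
    omega
  obtain ⟨z, hz0, hz1⟩ := exists_ord_eq_one W
  have hτz0 : Q.τ z ≠ 0 := (map_ne_zero_iff _ Q.τ.injective).2 hz0
  have hz2 : ord W (Q.τ z) = 1 := by
    rw [← Q.x2_σ_apply, ← ord_cj, hc, hz1]
  obtain ⟨x, y, hxy⟩ := Q.span z
  have hτz : Q.τ z = Q.ψ x - Q.ψ y * Q.δ := by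
    rw [hxy, map_add, map_mul, Q.τ_ψ, Q.τ_ψ, Q.τ_δ]
    ring
  have hsum : z + Q.τ z = 2 * Q.ψ x := by
    rw [hτz, hxy]
    ring
  have hdiff : z + -Q.τ z = 2 * (Q.ψ y * Q.δ) := by
    rw [hτz, hxy]
    ring
  have hx2 : x ≠ 0 → 2 ≤ ord W (Q.ψ x) := by
    intro hx0
    have hψx : Q.ψ x ≠ 0 := (_root_.map_ne_zero _).2 hx0
    have hne : z + Q.τ z ≠ 0 := by
      rw [hsum]
      exact mul_ne_zero two_ne_zero hψx
    have h1 := le_ord_add W hne hz0 hτz0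
    rw [hsum, ord_mul W two_ne_zero hψx, o2, hz1, hz2, min_self, zero_add] at h1
    rw [he] at h1 ⊢
    push_cast at h1 ⊢
    omega
  have hy2 : y ≠ 0 → 2 ≤ ord W (Q.ψ y * Q.δ) := by
    intro hy0
    have hψy : Q.ψ y ≠ 0 := (_root_.map_ne_zero _).2 hy0
    have hyδ : Q.ψ y * Q.δ ≠ 0 := mul_ne_zero hψy hδ0
    have hne : z + -Q.τ z ≠ 0 := by
      rw [hdiff]
      exact mul_ne_zero two_ne_zero hyδ
    have h1 := le_ord_add W hne hz0 (neg_ne_zero.2 hτz0)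
    rw [hdiff, ord_mul W two_ne_zero hyδ, o2, hz1, ord_neg, hz2, min_self, zero_add,
      ord_mul W hψy hδ0, oδ, add_zero] at h1
    rw [ord_mul W hψy hδ0, oδ, add_zero]
    rw [he] at h1 ⊢
    push_cast at h1 ⊢
    omega
  by_cases hx0 : x = 0
  · have hy0 : y ≠ 0 := by
      rintro rfl
      apply hz0
      rw [hxy, hx0]
      simp
    have h1 := hy2 hy0
    rw [hxy, hx0, map_zero, zero_add] at hz1
    omega
  · by_cases hy0 : y = 0
    · have h1 := hx2 hx0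
      rw [hxy, hy0, map_zero, zero_mul, add_zero] at hz1
      omega
    · have h1 := hx2 hx0
      have h2 := hy2 hy0
      have hψx : Q.ψ x ≠ 0 := (_root_.map_ne_zero _).2 hx0
      have hyδ : Q.ψ y * Q.δ ≠ 0 := mul_ne_zero ((_root_.map_ne_zero _).2 hy0) hδ0
      have h3 := le_ord_add W (x := Q.ψ x) (y := Q.ψ y * Q.δ) (by rw [← hxy]; exact hz0) hψx hyδ
      rw [← hxy, hz1] at h3
      have h4 := le_min h1 h2
      omega

theorem even_norm {p : ℕ} (hp : p.Prime) {x : L} (hx : x ≠ 0)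
    (h : ∀ W : HeightOneSpectrum (𝓞 L), (p : 𝓞 L) ∈ W.asIdeal → Even (ord W x))
    {n : F} (hn : Q.ψ n = x * Q.τ x) (w : HeightOneSpectrum (𝓞 F)) (hw : (p : 𝓞 F) ∈ w.asIdeal) :
    Even (ord w n) := by
  obtain ⟨W, e, he1, he, hmem⟩ := exists_above Q.ψ w
  have hW : (p : 𝓞 L) ∈ W.asIdeal := (hmem p).2 hw
  have h1 := Q.x2_ord_norm (W := W) hx hn
  rw [he] at h1
  have hW' : (p : 𝓞 L) ∈ (cj Q.x2_σ W).asIdeal := (mem_cj_iff W Q.x2_σ p).2 hW
  obtain ⟨k, hk⟩ := h W hW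
  obtain ⟨l, hl⟩ := h _ hW'
  rcases Q.x2_ram he with h2 | ⟨h2, hc⟩
  · subst h2
    rw [hk, hl] at h1
    refine ⟨k + l, ?_⟩
    push_cast at h1
    linarith
  · subst h2
    rw [hc, hk] at h1
    refine ⟨k, ?_⟩
    push_cast at h1
    linarith

end Quad
end H16A
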