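import Pool.Agent.Lib.H16A.D3
import Pool.Agent.Lib.H16A.X2

/-!
# X4 (M): the compositum of `F` and `K = ℚ(δ)`

`K` quadratic, `δ² = D`, `δ ∉ ℚ`, and `D` is not a square in `F`.  `L = F[X]/(X² - D)` is a number
field, quadratic over `F`; `φ : K → L`, `δ ↦ X` (`K = ℚ + ℚ δ`).  The conjugation `τ`; every
automorphism `σ` of `F` extends to `σ'` of `L` with `σ' δ = δ`, so `σ' ∘ φ = φ`.
-/

open Polynomial IsDedekindDomain NumberField

namespace H16A

/-- the quadratic extension -/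
theorem x4_ext (F : Type) [Field F] (D : F) (hF : ∀ x : F, x ^ 2 ≠ D) :
    ∃ (L : Type) (_ : Field L) (_ : Algebra F L) (δ : L), Module.Finite F L ∧
      Module.finrank F L = 2 ∧ δ ^ 2 = algebraMap F L D ∧
      (∀ z : L, ∃ x y : F, z = algebraMap F L x + algebraMap F L y * δ) ∧
      δ ∉ Set.range (algebraMap F L) ∧
      ∀ (g : F ≃+* F) (s : L), (s = δ ∨ s = -δ) → g D = D →
        ∃ σ : L ≃+* L, (∀ x, σ (algebraMap F L x) = algebraMap F L (g x)) ∧ σ δ = s := by
  have hm : (X ^ 2 - C D).Monic := monic_X_pow_sub_C _ (by norm_num)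
  have hd : (X ^ 2 - C D).natDegree = 2 := natDegree_X_pow_sub_C
  have hirr : Irreducible (X ^ 2 - C D) := by
    rw [hm.irreducible_iff_roots_eq_zero_of_degree_le_three (by rw [hd]) (by rw [hd]; norm_num)]
    rw [Multiset.eq_zero_iff_forall_notMem]
    intro r hr1
    rw [mem_roots hm.ne_zero, IsRoot.def, eval_sub, eval_pow, eval_X, eval_C, sub_eq_zero] at hr1
    exact hF r hr1
  have hf : Fact (Irreducible (X ^ 2 - C D)) := ⟨hirr⟩
  set L := AdjoinRoot (X ^ 2 - C D) with hL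
  have hδ : (AdjoinRoot.root (X ^ 2 - C D)) ^ 2 = algebraMap F L D := by
    have h1 := AdjoinRoot.eval₂_root (X ^ 2 - C D)
    rw [eval₂_sub, eval₂_pow, eval₂_X, eval₂_C, sub_eq_zero] at h1
    exact h1
  have hfin : Module.Finite F L := (AdjoinRoot.powerBasis hirr.ne_zero).finite
  have hrank : Module.finrank F L = 2 := by
    rw [(AdjoinRoot.powerBasis hirr.ne_zero).finrank, AdjoinRoot.powerBasis_dim, hd]
  have hspan : ∀ z : L, ∃ x y : F, z = algebraMap F L x +
      algebraMap F L y * AdjoinRoot.root (X ^ 2 - C D) := by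
    intro z
    obtain ⟨p, rfl⟩ := AdjoinRoot.mk_surjective z
    have h1 : AdjoinRoot.mk (X ^ 2 - C D) p = AdjoinRoot.mk (X ^ 2 - C D) (p %ₘ (X ^ 2 - C D)) := by
      rw [AdjoinRoot.mk_eq_mk]
      exact ⟨p /ₘ (X ^ 2 - C D), by
        have := modByMonic_add_div p (X ^ 2 - C D)
        linear_combination (-1 : F[X]) * this⟩
    have h2 : (p %ₘ (X ^ 2 - C D)).natDegree < 2 := by
      have h3 := natDegree_modByMonic_lt p hm (by
        intro h
        rw [h, natDegree_one] at hd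
        omega)
      rw [hd] at h3
      exact h3
    refine ⟨(p %ₘ (X ^ 2 - C D)).coeff 0, (p %ₘ (X ^ 2 - C D)).coeff 1, ?_⟩
    rw [h1]
    conv_lhs => rw [as_sum_range' (p %ₘ (X ^ 2 - C D)) 2 h2]
    rw [Finset.sum_range_succ, Finset.sum_range_one, map_add]
    congr 1
    rw [← C_mul_X_pow_eq_monomial, pow_one, map_mul, AdjoinRoot.mk_X, AdjoinRoot.mk_C]
    rfl
  have hnot : AdjoinRoot.root (X ^ 2 - C D) ∉ Set.range (algebraMap F L) := by
    rintro ⟨r, hr⟩
    rw [← hr, ← map_pow] at hδ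
    exact hF r ((algebraMap F L).injective hδ)
  have hlift : ∀ (g : F ≃+* F) (s : L), (s = AdjoinRoot.root (X ^ 2 - C D) ∨
      s = -AdjoinRoot.root (X ^ 2 - C D)) → g D = D → ∃ σ : L →+* L,
      (∀ x, σ (algebraMap F L x) = algebraMap F L (g x)) ∧
        σ (AdjoinRoot.root (X ^ 2 - C D)) = s := by
    intro g s hs hg
    have h0 : (X ^ 2 - C D).eval₂ ((algebraMap F L).comp (g : F →+* F)) s = 0 := by
      rw [eval₂_sub, eval₂_pow, eval₂_X, eval₂_C, sub_eq_zero]
      have h1 : ((algebraMap F L).comp (g : F →+* F)) D = algebraMap F L D := by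
        rw [RingHom.comp_apply]
        exact congrArg _ hg
      rw [h1, ← hδ]
      rcases hs with rfl | rfl
      · rfl
      · ring
    refine ⟨AdjoinRoot.lift ((algebraMap F L).comp (g : F →+* F)) s h0, fun x => ?_, ?_⟩
    · exact AdjoinRoot.lift_of h0
    · exact AdjoinRoot.lift_root h0
  refine ⟨L, inferInstance, inferInstance, AdjoinRoot.root (X ^ 2 - C D), hfin, hrank, hδ, hspan,
    hnot, fun g s hs hg => ?_⟩
  obtain ⟨σ, h1, h2⟩ := hlift g s hs hg
  have hg' : g.symm D = D := by rw [RingEquiv.symm_apply_eq]; exact hg.symm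
  obtain ⟨σ', h1', h2'⟩ := hlift g.symm s hs hg'
  have key : ∀ z, σ' (σ z) = z ∧ σ (σ' z) = z := by
    intro z
    obtain ⟨x, y, rfl⟩ := hspan z
    have k1 : σ' (σ (AdjoinRoot.root (X ^ 2 - C D))) = AdjoinRoot.root (X ^ 2 - C D) := by
      rw [h2]
      rcases hs with rfl | rfl
      · exact h2'
      · rw [map_neg, h2', neg_neg]
    have k2 : σ (σ' (AdjoinRoot.root (X ^ 2 - C D))) = AdjoinRoot.root (X ^ 2 - C D) := by
      rw [h2']
      rcases hs with rfl | rfl
      · exact h2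
      · rw [map_neg, h2, neg_neg]
    simp only [map_add, map_mul, h1, h1', k1, k2, RingEquiv.symm_apply_apply,
      RingEquiv.apply_symm_apply, and_self]
  refine ⟨RingEquiv.ofRingHom σ σ' ?_ ?_, fun x => h1 x, h2⟩
  · exact RingHom.ext fun z => (key z).2
  · exact RingHom.ext fun z => (key z).1

theorem x4_pb (K : Type*) [Field K] [NumberField K]
    (hK : Module.finrank ℚ K = 2) (δ : K) (D : ℤ) (hδ : δ ^ 2 = (D : K))
    (hδQ : δ ∉ Set.range (algebraMap ℚ K)) :
    ∃ pb : PowerBasis ℚ K, pb.gen = δ := by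
  have hi : IsIntegral ℚ δ := IsIntegral.of_finite ℚ δ
  have h1 : IntermediateField.adjoin ℚ {δ} = ⊤ := by
    apply IntermediateField.eq_of_le_of_finrank_eq le_top
    rw [IntermediateField.adjoin.finrank hi, d3_minpoly D hδ hδQ, natDegree_X_pow_sub_C,
      IntermediateField.finrank_top', hK]
  have h2 : Algebra.adjoin ℚ {δ} = ⊤ := by
    rw [← IntermediateField.adjoin_simple_toSubalgebra_of_isAlgebraic hi.isAlgebraic, h1,
      IntermediateField.top_toSubalgebra]
  exact ⟨PowerBasis.ofAdjoinEqTop' hi h2, PowerBasis.ofAdjoinEqTop'_gen hi h2⟩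

theorem x4_embed (L : Type*) [Field L] [CharZero L] (K : Type*) [Field K] [NumberField K]
    (hK : Module.finrank ℚ K = 2) (δ : K) (D : ℤ) (hδ : δ ^ 2 = (D : K))
    (hδQ : δ ∉ Set.range (algebraMap ℚ K)) (x : L) (hx : x ^ 2 = (D : L)) :
    ∃ φ : K →+* L, φ δ = x := by
  obtain ⟨pb, rfl⟩ := x4_pb K hK δ D hδ hδQ
  have h0 : aeval x (minpoly ℚ pb.gen) = 0 := by
    rw [d3_minpoly D hδ hδQ, map_sub, map_pow, aeval_X, aeval_C, hx]
    simp
  exact ⟨(pb.lift x h0 : K →+* L), pb.lift_gen x h0⟩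

theorem exists_quad (F : Type) [Field F] [NumberField F] (K : Type) [Field K] [NumberField K]
    (hK : Module.finrank ℚ K = 2) (δ : K) (D : ℤ) (hδ : δ ^ 2 = (D : K))
    (hδQ : δ ∉ Set.range (algebraMap ℚ K)) (hF : ∀ x : F, x ^ 2 ≠ (D : F)) :
    ∃ (L : Type) (_ : Field L) (_ : NumberField L) (Q : Quad F L D) (φ : K →+* L), φ δ = Q.δ ∧
      Module.finrank ℚ L = 2 * Module.finrank ℚ F ∧
      ∀ σ : F ≃ₐ[ℚ] F, ∃ σ' : L ≃+* L, (∀ x, σ' (Q.ψ x) = Q.ψ (σ x)) ∧ ∀ x, σ' (φ x) = φ x := by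
  obtain ⟨L, hL1, hL2, d, hfin, hrank, hd, hspan, hnot, hlift⟩ := x4_ext F (D : F) hF
  have hchar : CharZero L := charZero_of_injective_algebraMap (algebraMap F L).injective
  have hst : IsScalarTower ℚ F L := IsScalarTower.of_algebraMap_eq fun q => by
    rw [eq_ratCast, eq_ratCast, map_ratCast]
  have hfinQ : Module.Finite ℚ L := Module.Finite.trans F L
  have hNF : NumberField L := { to_charZero := hchar, to_finiteDimensional := hfinQ }
  have hd' : d ^ 2 = (D : L) := by rw [hd, map_intCast]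
  obtain ⟨τ, hτ1, hτ2⟩ := hlift (RingEquiv.refl F) (-d) (Or.inr rfl) rfl
  obtain ⟨φ, hφ⟩ := x4_embed L K hK δ D hδ hδQ d hd'
  refine ⟨L, hL1, hNF, ⟨algebraMap F L, d, hd', hspan, hnot, τ, hτ1, hτ2⟩, φ, hφ, ?_, ?_⟩
  · rw [← Module.finrank_mul_finrank ℚ F L, hrank, mul_comm]
  · intro σ
    obtain ⟨σ', h1, h2⟩ := hlift (σ : F ≃+* F) d (Or.inl rfl) (map_intCast _ D)
    refine ⟨σ', fun x => h1 x, fun x => ?_⟩
    obtain ⟨pb, hpb⟩ := x4_pb K hK δ D hδ hδQ
    have h3 : ((σ' : L →+* L).comp φ).toRatAlgHom = φ.toRatAlgHom := by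
      apply pb.algHom_ext
      rw [hpb]
      change σ' (φ δ) = φ δ
      rw [hφ, h2]
    exact DFunLike.congr_fun h3 x

/-- if `D` is a square in `F`, then `K` embeds in `F` -/
theorem exists_embed (F : Type) [Field F] [NumberField F] (K : Type) [Field K] [NumberField K]
    (hK : Module.finrank ℚ K = 2) (δ : K) (D : ℤ) (hδ : δ ^ 2 = (D : K))
    (hδQ : δ ∉ Set.range (algebraMap ℚ K)) (x : F) (hF : x ^ 2 = (D : F)) :
    ∃ φ : K →+* F, φ δ = x :=
  x4_embed F K hK δ D hδ hδQ x hF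

end H16A
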