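import Pool.Agent.Lib.H16A.H2

/-!
# X5 (M): elements of `K[θ]` that become squares in `L`

`K → L` number fields (`φ`), `[L : ℚ] ≤ n`, `f` splits in `L` with roots `e_i`.  A set `Ψ` of units of
`K[θ]`, pairwise inequivalent modulo squares, such that all `u(e_i)`, `u ∈ Ψ`, are squares in `L`, has at
most `(2^n)^3` elements.
Proof.  Let `K_i = K(e_i) ⊆ L` (the image of `evAt φ e_i`).  `u ∈ K[θ]` is a square iff `u(e_i)` is a square in
`K_i` for `i = 0, 1, 2` (`isSquare_iff_local`: every surjection of `K[θ]` to a field is, up to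
isomorphism, the evaluation at some `e_i` onto `K_i`).  So it is enough that for each `i` the set of the
classes `a ∈ K_i^×/squares` with `a` a square in `L` has at most `2^n` elements: `a = γ²`; for the
`[L : K_i] ≤ n` embeddings `s` of `L` into an algebraic closure over `K_i` let `s(γ) = ± ι(γ)`; if `a, a'` give the same
signs then `γ γ'` is fixed by all the embeddings, so `γ γ' ∈ K_i` and `a a'` is a square in `K_i`.
-/

open Polynomial IsDedekindDomain NumberField

namespace H16A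

/-- An element with the same image under all the embeddings over `M` lies in `M`. -/
theorem X5_descend {M L : Type*} [Field M] [NumberField M] [Field L] [NumberField L]
    (j : M →+* L) (ι : L →+* ℂ) (z : L)
    (h : ∀ σ : L →+* ℂ, (∀ m, σ (j m) = ι (j m)) → σ z = ι z) : ∃ m : M, j m = z := by
  letI : Algebra M L := j.toAlgebra
  letI : Algebra M ℂ := (ι.comp j).toAlgebra
  have hfin : Module.Finite M L := Module.Finite.of_restrictScalars_finite ℚ M L
  have h1 := trace_eq_sum_embeddings (K := M) (L := L) ℂ (x := z)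
  have h2 : ∀ σ : L →ₐ[M] ℂ, σ z = ι z := by
    intro σ
    refine h (σ : L →+* ℂ) fun m => ?_
    exact σ.commutes m
  rw [Finset.sum_congr rfl fun σ _ => h2 σ, Finset.sum_const, Finset.card_univ, AlgHom.card,
    nsmul_eq_mul] at h1
  have hn : (Module.finrank M L : ℂ) ≠ 0 := by
    exact_mod_cast (Module.finrank_pos (R := M) (M := L)).ne'
  have hnM : (Module.finrank M L : M) ≠ 0 := by
    exact_mod_cast (Module.finrank_pos (R := M) (M := L)).ne'
  refine ⟨Algebra.trace M L z / Module.finrank M L, ι.injective ?_⟩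
  have h3 : ι (j (Algebra.trace M L z)) = Module.finrank M L * ι z := h1
  rw [map_div₀, map_natCast, map_div₀, map_natCast, h3]
  field_simp

/-- The signs of a square root. -/
noncomputable def X5_sgn {L : Type*} [Field L] (ι : L →+* ℂ) (γ : L) : (L →+* ℂ) → Bool :=
  open Classical in fun σ => decide (σ γ = ι γ)

theorem X5_mul_mem {M L : Type*} [Field M] [NumberField M] [Field L] [NumberField L]
    (j : M →+* L) (ι : L →+* ℂ) {γ γ' : L} {a a' : M} (h1 : γ ^ 2 = j a) (h2 : γ' ^ 2 = j a')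
    (h : X5_sgn ι γ = X5_sgn ι γ') : ∃ m : M, j m = γ * γ' := by
  classical
  apply X5_descend j ι
  intro σ hσ
  have h3 := congrFun h σ
  simp only [X5_sgn, decide_eq_decide] at h3
  have key : ∀ (g : L) (b : M), g ^ 2 = j b → σ g = ι g ∨ σ g = -ι g := by
    intro g b hg
    have h4 : (σ g) ^ 2 = (ι g) ^ 2 := by rw [← map_pow, ← map_pow, hg, hσ]
    exact sq_eq_sq_iff_eq_or_eq_neg.1 h4
  rw [map_mul, map_mul]
  by_cases hc : σ γ = ι γ
  · rw [hc, h3.1 hc]
  · have h5 := (key γ a h1).resolve_left hc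
    have h6 := (key γ' a' h2).resolve_left fun h' => hc (h3.2 h')
    rw [h5, h6]
    ring

theorem X5_card_fun (L : Type*) [Field L] [NumberField L] :
    Nat.card ((L →+* ℂ) → Bool) = 2 ^ Module.finrank ℚ L := by
  classical
  rw [Nat.card_eq_fintype_card, Fintype.card_fun, Fintype.card_bool, NumberField.Embeddings.card]

theorem X5_card_le {α β : Type*} [Finite β] (s : Finset α) (f : α → β)
    (h : Set.InjOn f s) : s.card ≤ Nat.card β := by
  classical
  have := Fintype.ofFinite β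
  rw [Nat.card_eq_fintype_card, ← Finset.card_univ]
  exact Finset.card_le_card_of_injOn f (fun _ _ => Finset.mem_univ _) h

theorem card_becoming_square {M L : Type*} [Field M] [NumberField M] [Field L] [NumberField L]
    (j : M →+* L) (s : Finset (SqC M)) (hs : ∀ x ∈ s, sqMap j x = 1) :
    s.card ≤ 2 ^ Module.finrank ℚ L := by
  classical
  obtain ⟨ι⟩ : Nonempty (L →+* ℂ) := inferInstance
  have h1 : ∀ x : SqC M, ∃ (a : M) (γ : L), a ≠ 0 ∧ cls a = x ∧ (x ∈ s → γ ^ 2 = j a) := by
    intro x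
    obtain ⟨a, ha, hax⟩ := cls_surj x
    by_cases hx : x ∈ s
    · have h2 := hs x hx
      rw [← hax, sqMap_cls, cls_eq_one_iff ((map_ne_zero j).2 ha)] at h2
      obtain ⟨γ, hγ⟩ := h2
      exact ⟨a, γ, ha, hax, fun _ => by rw [hγ, sq]⟩
    · exact ⟨a, 0, ha, hax, fun h => absurd h hx⟩
  choose a γ ha hax hγ using h1
  rw [← X5_card_fun L]
  apply X5_card_le s (fun x => X5_sgn ι (γ x))
  intro x hx y hy hxy
  obtain ⟨m, hm⟩ := X5_mul_mem j ι (hγ x hx) (hγ y hy) hxy
  rw [← hax x, ← hax y, cls_eq_cls_iff (ha x) (ha y)]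
  refine ⟨m, j.injective ?_⟩
  rw [map_mul, map_mul, hm, ← hγ x hx, ← hγ y hy]
  ring

namespace Cub

variable (E : Cub)

theorem X5_evAt_mk {K L : Type*} [Field K] [Field L] (φ : K →+* L) (e : L) (he : E.val e = 0)
    (p : K[X]) : E.evAt φ e he (AdjoinRoot.mk (E.poly K) p) = p.eval₂ φ e := by
  unfold evAt
  exact AdjoinRoot.lift_mk _ p

/-- A square at all the roots is a square. -/
theorem X5_isSquare (hd : E.disc ≠ 0) {K L : Type} [Field K] [NumberField K] [Field L]
    [NumberField L] (φ : K →+* L) (e : Fin 3 → L) (he : ∀ i, E.val (e i) = 0)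
    (hp3 : E.poly L = ∏ i, (X - C (e i))) (u : E.Alg K)
    (h : ∀ i, ∃ w, E.evAt φ (e i) (he i) u = E.evAt φ (e i) (he i) w ^ 2) : IsSquare u := by
  have hd' : ((E.disc : ℤ) : K) ≠ 0 := by exact_mod_cast hd
  rw [E.isSquare_iff_local hd']
  intro M _ ψ hψ
  set Ω := AlgebraicClosure L
  letI : Algebra K Ω := ((algebraMap L Ω).comp φ).toAlgebra
  letI : Algebra K M := (ψ.comp (algebraMap K (E.Alg K))).toAlgebra
  have hfA : Module.Finite K (E.Alg K) := (E.poly_monic K).finite_adjoinRoot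
  let ψl : E.Alg K →ₐ[K] M := { ψ with commutes' := fun r => rfl }
  have hfM : Module.Finite K M := Module.Finite.of_surjective ψl.toLinearMap hψ
  have halg : Algebra.IsAlgebraic K M := Algebra.IsAlgebraic.of_finite K M
  let s : M →ₐ[K] Ω := IsAlgClosed.lift
  -- the image of `θ` is a root of `f`
  have hroot : E.val (s (ψ (E.th K))) = 0 := by
    have h3 := congrArg s (congrArg ψ (E.h2_th_rel (L := K)))
    unfold val
    simpa using h3
  have hprod : ∏ i, (s (ψ (E.th K)) - algebraMap L Ω (e i)) = 0 := by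
    have h4 : E.poly Ω = ∏ i, (X - C (algebraMap L Ω (e i))) := by
      rw [← E.poly_map (algebraMap L Ω), hp3, Polynomial.map_prod]
      refine Finset.prod_congr rfl fun i _ => ?_
      rw [Polynomial.map_sub, Polynomial.map_X, Polynomial.map_C]
    have h5 := congrArg (Polynomial.eval (s (ψ (E.th K)))) h4
    rw [E.eval_poly, hroot, Polynomial.eval_prod] at h5
    rw [h5]
    refine Finset.prod_congr rfl fun i _ => ?_
    rw [Polynomial.eval_sub, Polynomial.eval_X, Polynomial.eval_C]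
  obtain ⟨i, -, hi⟩ := Finset.prod_eq_zero_iff.1 hprod
  have hcomp : (s : M →+* Ω).comp ψ = (algebraMap L Ω).comp (E.evAt φ (e i) (he i)) := by
    apply AdjoinRoot.ringHom_ext
    · ext x
      have h6 : s (algebraMap K M x) = algebraMap K Ω x := s.commutes x
      have h7 : E.evAt φ (e i) (he i) (AdjoinRoot.of (E.poly K) x) = φ x := by
        unfold evAt
        exact AdjoinRoot.lift_of _
      simp only [RingHom.comp_apply]
      rw [h7]
      exact h6
    · have h7 : E.evAt φ (e i) (he i) (AdjoinRoot.root (E.poly K)) = e i := by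
        unfold evAt
        exact AdjoinRoot.lift_root _
      simp only [RingHom.comp_apply]
      rw [h7]
      exact sub_eq_zero.1 hi
  obtain ⟨w, hw⟩ := h i
  refine ⟨ψ w, (s : M →+* Ω).injective ?_⟩
  have h8 := RingHom.congr_fun hcomp u
  have h9 := RingHom.congr_fun hcomp w
  simp only [RingHom.comp_apply] at h8 h9
  have h8' : s (ψ u) = algebraMap L Ω (E.evAt φ (e i) (he i) u) := h8
  have h9' : s (ψ w) = algebraMap L Ω (E.evAt φ (e i) (he i) w) := h9
  have h10 : s (ψ u) = s (ψ w * ψ w) := by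
    rw [map_mul, h8', h9', hw, map_pow, sq]
  exact h10

/-- One root. -/
theorem X5_one {K L : Type} [Field K] [NumberField K] [Field L]
    [NumberField L] (φ : K →+* L) (e : L) (he : E.val e = 0) (ι : L →+* ℂ) {u v : E.Alg K}
    {γ γ' : L} (h1 : γ ^ 2 = E.evAt φ e he u) (h2 : γ' ^ 2 = E.evAt φ e he v)
    (h : X5_sgn ι γ = X5_sgn ι γ') : ∃ w, γ * γ' = E.evAt φ e he w := by
  letI : Algebra K L := φ.toAlgebra
  have hint : IsIntegral K e := by
    refine ⟨E.poly K, E.poly_monic K, ?_⟩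
    have h3 : (E.poly K).eval₂ (algebraMap K L) e = (E.poly L).eval e := by
      rw [← E.poly_map φ, Polynomial.eval_map]
      rfl
    rw [h3, E.eval_poly, he]
  have hadj : ∀ z : L, z ∈ IntermediateField.adjoin K {e} ↔ ∃ w, E.evAt φ e he w = z := by
    intro z
    rw [← IntermediateField.mem_toSubalgebra,
      IntermediateField.adjoin_simple_toSubalgebra_of_isAlgebraic hint.isAlgebraic,
      Algebra.adjoin_singleton_eq_range_aeval]
    constructor
    · rintro ⟨p, hp⟩
      refine ⟨AdjoinRoot.mk (E.poly K) p, ?_⟩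
      rw [E.X5_evAt_mk]
      exact hp
    · rintro ⟨w, hw⟩
      obtain ⟨p, rfl⟩ := AdjoinRoot.mk_surjective w
      rw [E.X5_evAt_mk] at hw
      exact ⟨p, hw⟩
  have hu := (hadj _).2 ⟨u, rfl⟩
  have hv := (hadj _).2 ⟨v, rfl⟩
  obtain ⟨m, hm⟩ := X5_mul_mem (algebraMap (IntermediateField.adjoin K {e}) L) ι
    (a := ⟨_, hu⟩) (a' := ⟨_, hv⟩) h1 h2 h
  obtain ⟨w, hw⟩ := (hadj _).1 m.2
  exact ⟨w, by rw [hw, ← hm]; rfl⟩

theorem kernel_bound (hd : E.disc ≠ 0) {K L : Type} [Field K] [NumberField K] [Field L]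
    [NumberField L] (φ : K →+* L) (e : Fin 3 → L) (he : ∀ i, E.val (e i) = 0)
    (hp3 : E.poly L = ∏ i, (X - C (e i))) (Ψ : Finset (E.Alg K)ˣ)
    (h1 : ∀ u ∈ Ψ, ∀ i, IsSquare (E.evAt φ (e i) (he i) (u : E.Alg K)))
    (h2 : ∀ u ∈ Ψ, ∀ v ∈ Ψ, u / v ∈ sqSub (E.Alg K) → u = v) :
    Ψ.card ≤ (2 ^ Module.finrank ℚ L) ^ 3 := by
  classical
  obtain ⟨ι⟩ : Nonempty (L →+* ℂ) := inferInstance
  have h3 : ∀ (u : (E.Alg K)ˣ) (i : Fin 3), ∃ γ : L, u ∈ Ψ →
      γ ^ 2 = E.evAt φ (e i) (he i) (u : E.Alg K) := by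
    intro u i
    by_cases hu : u ∈ Ψ
    · obtain ⟨γ, hγ⟩ := h1 u hu i
      exact ⟨γ, fun _ => by rw [hγ, sq]⟩
    · exact ⟨0, fun h => absurd h hu⟩
  choose γ hγ using h3
  have hcard : Nat.card (Fin 3 → ((L →+* ℂ) → Bool)) = (2 ^ Module.finrank ℚ L) ^ 3 := by
    rw [Nat.card_fun, X5_card_fun, Nat.card_eq_fintype_card, Fintype.card_fin]
  rw [← hcard]
  apply X5_card_le Ψ (fun u i => X5_sgn ι (γ u i))
  intro u hu v hv huv
  apply h2 u hu v hv
  have h4 : IsSquare ((u : E.Alg K) * (v : E.Alg K)) := by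
    apply E.X5_isSquare hd φ e he hp3
    intro i
    have h5 := congrFun huv i
    obtain ⟨w, hw⟩ := E.X5_one φ (e i) (he i) ι (hγ u i hu) (hγ v i hv) h5
    refine ⟨w, ?_⟩
    rw [← hw, map_mul, ← hγ u i hu, ← hγ v i hv]
    ring
  obtain ⟨w, hw⟩ := h4
  have hwu : IsUnit w := by
    have h6 : IsUnit (w * w) := by
      rw [← hw]
      exact (u * v).isUnit
    exact isUnit_of_mul_isUnit_left h6
  obtain ⟨w', rfl⟩ := hwu
  refine ⟨w' / v, ?_⟩
  rw [powMonoidHom_apply, div_pow]
  have h7 : u * v = w' ^ 2 := Units.ext (by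
    rw [Units.val_mul, Units.val_pow_eq_pow_val, hw, sq])
  rw [← h7, sq, mul_div_mul_right_eq_div]

end Cub
end H16A
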