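import Pool.Agent.Lib.H16A.X4
import Pool.Agent.Lib.H16A.X5
import Pool.Agent.Lib.H16A.U4

/-!
# X6 (L): the upper bound for the Selmer group over quadratic fields

`S : Split E F`, `A₀` = the finite group of the square classes of `F` unramified outside `2 disc` (U3),
`n₀ = |A₀|`, `g = [F : ℚ]`.  `K` quadratic, `D, δ` from `exists_sqrt_of_quadratic` (D3).  `Ψ ⊆ selSub K`,
pairwise inequivalent modulo squares.

CASE 1: `D` is a square in `F`.  `L = F`, `φ : K → F` (`exists_embed`).  For `u ∈ Ψ` all `u(e_i)` are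
unramified outside `2 disc` (X1), so the triple of classes `cls u(e_i)` lies in `A₀³`; for a given
triple there are at most `(2^g)^3` elements (X5 applied to the quotients by a fixed one).
So `|Ψ| ≤ n₀³ 2^{3g}`.

CASE 2: `D` is not a square in `F`.  `L`, `Q`, `φ` from `exists_quad` (X4); `u_i = u(e_i) ∈ L` (the
roots `ψ(e_i)`), even orders at all `W` above `p ∤ 2 disc` (X1).
* Step A.  `ν(u)_i` = class of the norm `n_i ∈ F` of `u_i` is in `A₀` (`even_norm`); fix the value of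
  `ν(u) ∈ A₀³` and a reference element `u*` with this value; for `t = u/u*` the norms of the `t_i` are
  squares in `F`, so (`hilbert90`) `t_i = ψ(a_i) s_i²`.
* Step B.  The norm `N(t)` is a square in `K` (`selSub ≤ normSq`), so `∏ ψ(a_i)` is a square in `L`, and
  `∏ a_i` is a square or `D` times a square (`isSquare_or`); multiplying `a_0` by `D` we may assume
  that `∏ a_i` is a square.  For `σ` in the Galois group, `σ'(t_i) = t_{σ i}` (`σ'` from X4), so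
  `σ(a_i) a_{σ i}` is a square or `D` times a square: fix these `3g` bits, and again a reference element.
  For two elements with the same bits the quotients `b_i = a_i/a_i'` satisfy: `∏ cls b_i = 1`,
  `σ (cls b_i) = cls b_{σ i}`, and `b_i` has even order at `w` above `p ∤ 2 disc D` (`unramified`: `e = 1`,
  X1).  So `(cls b_i) ∈ Hs T_D`, `T_D` = the primes dividing `D` (prime to `2 disc` if you like), and `|Hs T_D| ≤ K₆ 4^|T_D|`.
* Step C.  If the triples `(cls b_i)` coincide for two elements, then the `t_i` differ by squares of `L`, and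
  X5 bounds the number of such elements by `(2^{2g})^3`.
Total: `|Ψ| ≤ n₀³ · 2^{3g} · K₆ 4^{|T_D|} · 2^{6g}`, and `|T_D| ≤ 1 + ω(disc K)` (D3).
-/

open Polynomial IsDedekindDomain NumberField

namespace H16A

/-- Every finite set of elements of `H`, pairwise inequivalent modulo `Z`, has at most `R`
elements. -/
def x6_Bnd {A : Type*} [CommGroup A] (Z : Subgroup A) (H : Set A) (R : ℕ) : Prop :=
  ∀ Ψ : Finset A, (∀ u ∈ Ψ, u ∈ H) → (∀ u ∈ Ψ, ∀ v ∈ Ψ, u / v ∈ Z → u = v) → Ψ.card ≤ R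

theorem x6_step {A C : Type*} [CommGroup A] (Z : Subgroup A) {H' H : Set A} {R n : ℕ}
    (f : A → C) (t : Set C) (ht : t.Finite) (hn : t.ncard ≤ n) (hft : ∀ u ∈ H', f u ∈ t)
    (h : ∀ u ∈ H', ∀ v ∈ H', f u = f v → u / v ∈ H) (hb : x6_Bnd Z H R) :
    x6_Bnd Z H' (n * R) := by
  classical
  intro Ψ h1 h2
  have himg : (Ψ.image f).card ≤ n := by
    refine le_trans ?_ hn
    rw [← Set.ncard_coe_finset]
    apply Set.ncard_le_ncard _ ht
    intro c hc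
    rw [Finset.mem_coe, Finset.mem_image] at hc
    obtain ⟨u, hu, rfl⟩ := hc
    exact hft u (h1 u hu)
  have hfib : ∀ c ∈ Ψ.image f, (Ψ.filter (fun u => f u = c)).card ≤ R := by
    intro c hc
    rw [Finset.mem_image] at hc
    obtain ⟨u₀, hu₀, rfl⟩ := hc
    have hinj : Function.Injective (fun u : A => u / u₀) := div_left_injective
    rw [← Finset.card_image_of_injective _ hinj]
    apply hb
    · intro x hx
      rw [Finset.mem_image] at hx
      obtain ⟨u, hu, rfl⟩ := hx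
      rw [Finset.mem_filter] at hu
      exact h u (h1 u hu.1) u₀ (h1 u₀ hu₀) hu.2
    · intro x hx y hy hxy
      rw [Finset.mem_image] at hx hy
      obtain ⟨u, hu, rfl⟩ := hx
      obtain ⟨v, hv, rfl⟩ := hy
      rw [Finset.mem_filter] at hu hv
      have h3 : u / u₀ / (v / u₀) = u / v := div_div_div_cancel_right u v u₀
      rw [h3] at hxy
      rw [h2 u hu.1 v hv.1 hxy]
  calc Ψ.card ≤ R * (Ψ.image f).card := Finset.card_le_mul_card_image Ψ R hfib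
    _ ≤ R * n := Nat.mul_le_mul_left R himg
    _ = n * R := mul_comm _ _

theorem x6_val {E : Cub} {F L : Type*} [Field F] [Field L] (ψ : F →+* L) (x : F) :
    E.val (ψ x) = ψ (E.val x) := by
  simp [Cub.val]

/-- The square classes unramified outside `2 disc`. -/
def x6_A (E : Cub) (F : Type*) [Field F] [NumberField F] : Set (SqC F) :=
  {x : SqC F | ∀ w : HeightOneSpectrum (𝓞 F),
    w ∉ {w : HeightOneSpectrum (𝓞 F) | ∃ p : ℕ, p.Prime ∧ (p : 𝓞 F) ∈ w.asIdeal ∧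
      (p : ℤ) ∣ 2 * E.disc} → par w x = 1}

theorem x6_A_finite (E : Cub) (hd : E.disc ≠ 0) (F : Type*) [Field F] [NumberField F] :
    (x6_A E F).Finite :=
  finite_unramified F _ (finite_above F (mul_ne_zero two_ne_zero hd))

theorem x6_mem_A {E : Cub} {F : Type*} [Field F] [NumberField F] {x : F} (hx : x ≠ 0)
    (h : ∀ (p : ℕ) (w : HeightOneSpectrum (𝓞 F)), p.Prime → (p : 𝓞 F) ∈ w.asIdeal →
      ¬ (p : ℤ) ∣ 2 * E.disc → Even (ord w x)) : cls x ∈ x6_A E F := by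
  intro w hw
  obtain ⟨p, hp, hpw⟩ := exists_prime_mem w
  rw [par_cls_eq_one_iff w hx]
  exact h p w hp hpw (fun hd => hw ⟨p, hp, hpw, hd⟩)

namespace Split

variable {E : Cub} {F : Type} [Field F] [NumberField F] (S : Split E F)

theorem x6_triple_finite (hd : E.disc ≠ 0) :
    {g : Fin 3 → SqC F | ∀ i, g i ∈ x6_A E F}.Finite := by
  have h1 := Set.Finite.pi' (fun _ : Fin 3 => x6_A_finite E hd F)
  exact h1

include S in
/-- CASE 1. -/
theorem x6_case1 (hd : E.disc ≠ 0) (K : Type) [Field K] [NumberField K] (φ : K →+* F) :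
    x6_Bnd (sqSub (E.Alg K)) (E.selSub K : Set (E.Alg K)ˣ)
      ({g : Fin 3 → SqC F | ∀ i, g i ∈ x6_A E F}.ncard * (2 ^ Module.finrank ℚ F) ^ 3) := by
  have hne : ∀ (u : (E.Alg K)ˣ) i, E.evAt φ (S.e i) (S.root i) (u : E.Alg K) ≠ 0 := fun u i =>
    (u.isUnit.map (E.evAt φ (S.e i) (S.root i))).ne_zero
  have hdiv : ∀ (u v : (E.Alg K)ˣ) i, E.evAt φ (S.e i) (S.root i) ((u / v : (E.Alg K)ˣ) : E.Alg K) *
      E.evAt φ (S.e i) (S.root i) (v : E.Alg K) =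
      E.evAt φ (S.e i) (S.root i) (u : E.Alg K) := by
    intro u v i
    rw [← map_mul, ← Units.val_mul, div_mul_cancel]
  refine x6_step (H := {u : (E.Alg K)ˣ | ∀ i, IsSquare (E.evAt φ (S.e i) (S.root i)
      (u : E.Alg K))}) _
    (fun (u : (E.Alg K)ˣ) i => cls (E.evAt φ (S.e i) (S.root i) (u : E.Alg K))) _
    (x6_triple_finite hd) le_rfl ?_ ?_ ?_
  · intro u hu i
    apply x6_mem_A (hne u i)
    intro p w hp hw hpd
    exact E.even_ord_of_mem_selSub hd φ S.e S.root S.poly_eq w hp hw hpd u hu i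
  · intro u hu v hv huv i
    have h1 := congrFun huv i
    rw [cls_eq_cls_iff (hne u i) (hne v i), ← hdiv u v i] at h1
    obtain ⟨r, hr⟩ := h1
    refine ⟨r / E.evAt φ (S.e i) (S.root i) (v : E.Alg K), ?_⟩
    rw [div_mul_div_comm, ← hr]
    have := hne v i
    field_simp
  · intro Ψ h1 h2
    exact E.kernel_bound hd φ S.e S.root S.poly_eq Ψ h1 h2

section case2

variable {D : ℤ} {L : Type} [Field L] [NumberField L] (Q : Quad F L D) {K : Type} [Field K]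
  [NumberField K] (φ : K →+* L)

theorem x6_root (i : Fin 3) : E.val (Q.ψ (S.e i)) = 0 := by
  rw [x6_val, S.root, map_zero]

theorem x6_poly : E.poly L = ∏ i, (X - C (Q.ψ (S.e i))) := by
  rw [← E.poly_map Q.ψ, S.poly_eq, Polynomial.map_prod]
  apply Finset.prod_congr rfl
  intro i _
  rw [Polynomial.map_sub, Polynomial.map_X, Polynomial.map_C]

/-- The components of `u` in `L`. -/
noncomputable def x6_t (i : Fin 3) (u : (E.Alg K)ˣ) : L :=
  E.evAt φ (Q.ψ (S.e i)) (S.x6_root Q i) (u : E.Alg K)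

theorem x6_t_ne (i : Fin 3) (u : (E.Alg K)ˣ) : S.x6_t Q φ i u ≠ 0 :=
  (u.isUnit.map (E.evAt φ (Q.ψ (S.e i)) (S.x6_root Q i))).ne_zero

theorem x6_t_div (i : Fin 3) (u v : (E.Alg K)ˣ) :
    S.x6_t Q φ i (u / v) = S.x6_t Q φ i u / S.x6_t Q φ i v := by
  rw [eq_div_iff (S.x6_t_ne Q φ i v)]
  unfold x6_t
  rw [← map_mul, ← Units.val_mul, div_mul_cancel]

include Q in
theorem x6_D_ne : (D : F) ≠ 0 := by
  intro h
  have h1 : Q.δ ^ 2 = 0 := by
    rw [Q.sq]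
    have h2 := congrArg Q.ψ h
    rw [map_intCast, map_zero] at h2
    exact h2
  have h2 : Q.δ = 0 := by simpa using h1
  exact Q.notin ⟨0, by rw [map_zero, h2]⟩

theorem x6_conj (u : (E.Alg K)ˣ) (σ : F ≃ₐ[ℚ] F) (σ' : L ≃+* L)
    (h1 : ∀ x, σ' (Q.ψ x) = Q.ψ (σ x)) (h2 : ∀ x, σ' (φ x) = φ x) (i : Fin 3) :
    σ' (S.x6_t Q φ i u) = S.x6_t Q φ (S.perm σ i) u := by
  unfold x6_t
  obtain ⟨α, β, γ, h⟩ := E.exists_coords (u : E.Alg K)
  rw [h, x1_evAt_coords, x1_evAt_coords, map_add, map_add, map_mul, map_mul, map_pow, h2, h2, h2,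
    h1, S.perm_spec]

/-- The elements of the Selmer group whose components are elements of `F` up to squares. -/
def x6_H1 : Set (E.Alg K)ˣ :=
  {u | u ∈ E.selSub K ∧ ∀ i, ∃ (a : F) (s : L), a ≠ 0 ∧ s ≠ 0 ∧ S.x6_t Q φ i u = Q.ψ a * s ^ 2}

/-- Compatible components. -/
def x6_H2 : Set (E.Alg K)ˣ :=
  {u | u ∈ E.selSub K ∧ ∃ b : Fin 3 → F, (∀ i, b i ≠ 0) ∧
    (∀ i, ∃ s : L, s ≠ 0 ∧ S.x6_t Q φ i u = Q.ψ (b i) * s ^ 2) ∧ IsSquare (∏ i, b i) ∧
    ∀ (σ : F ≃ₐ[ℚ] F) (i : Fin 3), IsSquare (σ (b i) * b (S.perm σ i))}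

theorem x6_bnd3 (hd : E.disc ≠ 0) : x6_Bnd (sqSub (E.Alg K))
    {u : (E.Alg K)ˣ | ∀ i, IsSquare (S.x6_t Q φ i u)} ((2 ^ Module.finrank ℚ L) ^ 3) := by
  intro Ψ h1 h2
  exact E.kernel_bound hd φ (fun i => Q.ψ (S.e i)) (S.x6_root Q) (S.x6_poly Q) Ψ h1 h2

/-- Step A. -/
theorem x6_stepA (hd : E.disc ≠ 0) {R : ℕ}
    (hb : x6_Bnd (sqSub (E.Alg K)) (S.x6_H1 Q φ) R) :
    x6_Bnd (sqSub (E.Alg K)) (E.selSub K : Set (E.Alg K)ˣ)
      ({g : Fin 3 → SqC F | ∀ i, g i ∈ x6_A E F}.ncard * R) := by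
  have hn : ∀ x : L, ∃ n : F, Q.ψ n = x * Q.τ x := Q.norm_mem
  choose nm hnm using hn
  have hnm0 : ∀ x : L, x ≠ 0 → nm x ≠ 0 := by
    intro x hx h0
    have h1 := hnm x
    rw [h0, map_zero] at h1
    exact mul_ne_zero hx ((map_ne_zero_iff _ Q.τ.injective).2 hx) h1.symm
  refine x6_step (H := S.x6_H1 Q φ) _ (fun u i => cls (nm (S.x6_t Q φ i u))) _
    (x6_triple_finite hd) le_rfl ?_ ?_ hb
  · intro u hu i
    apply x6_mem_A (hnm0 _ (S.x6_t_ne Q φ i u))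
    intro p w hp hw hpd
    refine Q.even_norm hp (S.x6_t_ne Q φ i u) ?_ (hnm _) w hw
    intro W hW
    exact E.even_ord_of_mem_selSub hd φ (fun i => Q.ψ (S.e i)) (S.x6_root Q) (S.x6_poly Q)
      W hp hW hpd u hu i
  · intro u hu v hv huv
    refine ⟨(E.selSub K).div_mem hu hv, fun i => ?_⟩
    have h1 := congrFun huv i
    have hu0 := hnm0 _ (S.x6_t_ne Q φ i u)
    have hv0 := hnm0 _ (S.x6_t_ne Q φ i v)
    rw [cls_eq_cls_iff hu0 hv0] at h1
    obtain ⟨r, hr⟩ := h1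
    refine Q.hilbert90 (S.x6_t_ne Q φ i _) (γ := r / nm (S.x6_t Q φ i v)) ?_
    rw [x6_t_div, map_div₀, map_div₀, div_pow, ← map_pow, sq r, ← hr, map_mul, hnm, hnm]
    have h3 := S.x6_t_ne Q φ i v
    have h4 : Q.τ (S.x6_t Q φ i v) ≠ 0 := (map_ne_zero_iff _ Q.τ.injective).2 h3
    field_simp

/-- The choice of the components. -/
theorem x6_choose {u : (E.Alg K)ˣ} (hu : u ∈ S.x6_H1 Q φ) :
    ∃ a : Fin 3 → F, (∀ i, a i ≠ 0) ∧
      (∀ i, ∃ s : L, s ≠ 0 ∧ S.x6_t Q φ i u = Q.ψ (a i) * s ^ 2) ∧ IsSquare (∏ i, a i) := by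
  obtain ⟨hsel, h⟩ := hu
  choose a s ha hs has using h
  obtain ⟨r, hr⟩ : IsSquare (Algebra.norm K (u : E.Alg K)) := hsel.1
  have h1 := x1_norm φ (fun i => Q.ψ (S.e i)) (S.x6_root Q) (S.x6_poly Q) (u : E.Alg K)
  have h2 : φ (Algebra.norm K (u : E.Alg K)) = S.x6_t Q φ 0 u * S.x6_t Q φ 1 u * S.x6_t Q φ 2 u :=
    h1
  rw [has 0, has 1, has 2, hr, map_mul] at h2
  have h3 : IsSquare (Q.ψ (∏ i, a i)) := by
    refine ⟨φ r / (s 0 * s 1 * s 2), ?_⟩
    have hs0 := hs 0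
    have hs1 := hs 1
    have hs2 := hs 2
    rw [Fin.prod_univ_three, map_mul, map_mul, div_mul_div_comm, h2]
    field_simp
  rcases Q.isSquare_or h3 with h4 | h4
  · exact ⟨a, ha, fun i => ⟨s i, hs i, has i⟩, h4⟩
  · have hD : (D : F) ≠ 0 := x6_D_ne Q
    have hδ : Q.δ ≠ 0 := by
      intro h
      exact Q.notin ⟨0, by rw [map_zero, h]⟩
    refine ⟨![(D : F) * a 0, a 1, a 2], ?_, ?_, ?_⟩
    · intro i
      fin_cases i
      · exact mul_ne_zero hD (ha 0)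
      · exact ha 1
      · exact ha 2
    · intro i
      fin_cases i
      · refine ⟨s 0 / Q.δ, div_ne_zero (hs 0) hδ, ?_⟩
        show S.x6_t Q φ 0 u = Q.ψ ((D : F) * a 0) * (s 0 / Q.δ) ^ 2
        rw [has 0, map_mul, map_intCast, ← Q.sq]
        field_simp
      · exact ⟨s 1, hs 1, has 1⟩
      · exact ⟨s 2, hs 2, has 2⟩
    · rw [Fin.prod_univ_three] at h4 ⊢
      simp only [Matrix.cons_val_zero, Matrix.cons_val_one, Matrix.cons_val]
      rwa [mul_assoc, mul_assoc, ← mul_assoc (a 0)]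

/-- Step B. -/
theorem x6_stepB (hconj : ∀ σ : F ≃ₐ[ℚ] F, ∃ σ' : L ≃+* L, (∀ x, σ' (Q.ψ x) = Q.ψ (σ x)) ∧
      ∀ x, σ' (φ x) = φ x) {R : ℕ}
    (hb : x6_Bnd (sqSub (E.Alg K)) (S.x6_H2 Q φ) R) :
    x6_Bnd (sqSub (E.Alg K)) (S.x6_H1 Q φ)
      (Nat.card ((F ≃ₐ[ℚ] F) × Fin 3 → Bool) * R) := by
  classical
  have hex : ∀ u : (E.Alg K)ˣ, ∃ a : Fin 3 → F, u ∈ S.x6_H1 Q φ → (∀ i, a i ≠ 0) ∧
      (∀ i, ∃ s : L, s ≠ 0 ∧ S.x6_t Q φ i u = Q.ψ (a i) * s ^ 2) ∧ IsSquare (∏ i, a i) := by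
    intro u
    by_cases hu : u ∈ S.x6_H1 Q φ
    · obtain ⟨a, ha⟩ := S.x6_choose Q φ hu
      exact ⟨a, fun _ => ha⟩
    · exact ⟨0, fun h => absurd h hu⟩
  choose a ha using hex
  have hor : ∀ u ∈ S.x6_H1 Q φ, ∀ (σ : F ≃ₐ[ℚ] F) (i : Fin 3),
      IsSquare (σ (a u i) * a u (S.perm σ i)) ∨
        IsSquare ((D : F) * (σ (a u i) * a u (S.perm σ i))) := by
    intro u hu σ i
    apply Q.isSquare_or
    obtain ⟨σ', h1, h2⟩ := hconj σ
    obtain ⟨h3, h4, -⟩ := ha u hu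
    obtain ⟨s, hs, hs'⟩ := h4 i
    obtain ⟨s2, hs2, hs2'⟩ := h4 (S.perm σ i)
    have h5 := S.x6_conj Q φ u σ σ' h1 h2 i
    rw [hs', hs2', map_mul, map_pow, h1] at h5
    have h6 : σ' s ≠ 0 := (map_ne_zero_iff _ σ'.injective).2 hs
    refine ⟨Q.ψ (a u (S.perm σ i)) * s2 / σ' s, ?_⟩
    rw [map_mul, div_mul_div_comm, eq_div_iff (mul_ne_zero h6 h6)]
    linear_combination Q.ψ (a u (S.perm σ i)) * h5
  have hfin : (Set.univ : Set ((F ≃ₐ[ℚ] F) × Fin 3 → Bool)).Finite := Set.finite_univ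
  refine x6_step (H := S.x6_H2 Q φ) _
    (fun u (z : (F ≃ₐ[ℚ] F) × Fin 3) => decide (IsSquare (z.1 (a u z.2) * a u (S.perm z.1 z.2))))
    Set.univ hfin (by rw [Set.ncard_univ]) (fun u _ => Set.mem_univ _) ?_ hb
  intro u hu v hv huv
  obtain ⟨hu1, hu2, hu3⟩ := ha u hu
  obtain ⟨hv1, hv2, hv3⟩ := ha v hv
  refine ⟨(E.selSub K).div_mem hu.1 hv.1, fun i => a u i / a v i,
    fun i => div_ne_zero (hu1 i) (hv1 i), fun i => ?_, ?_, fun σ i => ?_⟩
  · obtain ⟨s, hs, hs'⟩ := hu2 i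
    obtain ⟨s2, hs2, hs2'⟩ := hv2 i
    refine ⟨s / s2, div_ne_zero hs hs2, ?_⟩
    rw [x6_t_div, hs', hs2', map_div₀, div_pow, div_mul_div_comm]
  · rw [Finset.prod_div_distrib]
    exact hu3.div hv3
  · have h1 := congrFun huv (σ, i)
    simp only [decide_eq_decide] at h1
    have h2 : σ (a u i / a v i) * (a u (S.perm σ i) / a v (S.perm σ i)) =
        (σ (a u i) * a u (S.perm σ i)) / (σ (a v i) * a v (S.perm σ i)) := by
      rw [map_div₀, div_mul_div_comm]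
    rw [h2]
    by_cases h3 : IsSquare (σ (a u i) * a u (S.perm σ i))
    · exact h3.div (h1.1 h3)
    · have h4 := (hor u hu σ i).resolve_left h3
      have h5 := (hor v hv σ i).resolve_left (fun h => h3 (h1.2 h))
      have h6 := h4.div h5
      rwa [mul_div_mul_left _ _ (x6_D_ne Q)] at h6

/-- Step C. -/
theorem x6_stepC (hd : E.disc ≠ 0) (hD0 : D ≠ 0) {K₆ R : ℕ}
    (hK : ∀ T : Finset ℕ, (∀ p ∈ T, p.Prime) →
      Finite (S.Hs T) ∧ Nat.card (S.Hs T) ≤ K₆ * 4 ^ T.card)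
    (hb : x6_Bnd (sqSub (E.Alg K)) {u : (E.Alg K)ˣ | ∀ i, IsSquare (S.x6_t Q φ i u)} R) :
    x6_Bnd (sqSub (E.Alg K)) (S.x6_H2 Q φ)
      (K₆ * 4 ^ D.natAbs.primeFactors.card * R) := by
  classical
  obtain ⟨hf, hc⟩ := hK D.natAbs.primeFactors (fun p hp => Nat.prime_of_mem_primeFactors hp)
  have hex : ∀ u : (E.Alg K)ˣ, ∃ b : Fin 3 → F, u ∈ S.x6_H2 Q φ → (∀ i, b i ≠ 0) ∧
    (∀ i, ∃ s : L, s ≠ 0 ∧ S.x6_t Q φ i u = Q.ψ (b i) * s ^ 2) ∧ IsSquare (∏ i, b i) ∧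
    ∀ (σ : F ≃ₐ[ℚ] F) (i : Fin 3), IsSquare (σ (b i) * b (S.perm σ i)) := by
    intro u
    by_cases hu : u ∈ S.x6_H2 Q φ
    · obtain ⟨-, b, hb⟩ := hu
      exact ⟨b, fun _ => hb⟩
    · exact ⟨0, fun h => absurd h hu⟩
  choose b hb' using hex
  have hfin : (S.Hs D.natAbs.primeFactors : Set (Fin 3 → SqC F)).Finite := Set.toFinite _
  refine x6_step (H := {u : (E.Alg K)ˣ | ∀ i, IsSquare (S.x6_t Q φ i u)}) _
    (fun u i => cls (b u i)) (S.Hs D.natAbs.primeFactors : Set (Fin 3 → SqC F)) hfin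
    (by
      rw [← Nat.card_coe_set_eq]
      exact hc) ?_ ?_ hb
  · intro u hu
    obtain ⟨h1, h2, h3, h4⟩ := hb' u hu
    refine ⟨?_, fun σ i => ?_, fun w hw i => ?_⟩
    · rw [Fin.prod_univ_three] at h3 ⊢
      rw [← cls_mul (h1 0) (h1 1), ← cls_mul (mul_ne_zero (h1 0) (h1 1)) (h1 2),
        cls_eq_one_iff (mul_ne_zero (mul_ne_zero (h1 0) (h1 1)) (h1 2))]
      exact h3
    · rw [sqMap_cls]
      change cls (σ (b u i)) = cls (b u (S.perm σ i))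
      rw [cls_eq_cls_iff ((_root_.map_ne_zero _).2 (h1 i)) (h1 _)]
      exact h4 σ i
    · rw [par_cls_eq_one_iff w (h1 i)]
      obtain ⟨p, hp, hpw⟩ := exists_prime_mem w
      obtain ⟨hp1, hp2⟩ := hw p hp hpw
      obtain ⟨W, e, he1, he, hmem⟩ := exists_above Q.ψ w
      have hW : (p : 𝓞 L) ∈ W.asIdeal := (hmem p).2 hpw
      have hpD : ¬ (p : ℤ) ∣ 2 * D := by
        intro h
        have hpp : Prime (p : ℤ) := Nat.prime_iff_prime_int.1 hp
        rcases hpp.dvd_or_dvd h with h5 | h5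
        · exact hp1 (h5.mul_right _)
        · apply hp2
          rw [Nat.mem_primeFactors]
          exact ⟨hp, Int.natCast_dvd.1 h5, Int.natAbs_ne_zero.2 hD0⟩
      have he' : e = 1 := Q.unramified he hp hW hpD
      obtain ⟨s, hs, hs'⟩ := h2 i
      have h6 : Even (ord W (S.x6_t Q φ i u)) :=
        E.even_ord_of_mem_selSub hd φ (fun i => Q.ψ (S.e i)) (S.x6_root Q) (S.x6_poly Q)
          W hp hW hp1 u hu.1 i
      have hψ : Q.ψ (b u i) ≠ 0 := (_root_.map_ne_zero _).2 (h1 i)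
      rw [hs', ord_mul W hψ (pow_ne_zero _ hs), ord_pow, he, he'] at h6
      push_cast at h6
      rw [one_mul] at h6
      have h7 : Even ((2 : ℤ) * ord W s) := even_two_mul _
      exact (Int.even_add.1 h6).2 h7
  · intro u hu v hv huv i
    obtain ⟨hu1, hu2, hu3, hu4⟩ := hb' u hu
    obtain ⟨hv1, hv2, hv3, hv4⟩ := hb' v hv
    have h1 := congrFun huv i
    rw [cls_eq_cls_iff (hu1 i) (hv1 i)] at h1
    obtain ⟨r, hr⟩ := h1
    obtain ⟨s, hs, hs'⟩ := hu2 i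
    obtain ⟨s2, hs2, hs2'⟩ := hv2 i
    have hψ : Q.ψ (b v i) ≠ 0 := (_root_.map_ne_zero _).2 (hv1 i)
    have hr' := congrArg Q.ψ hr
    rw [map_mul, map_mul] at hr'
    change IsSquare (S.x6_t Q φ i (u / v))
    refine ⟨Q.ψ r * s / (Q.ψ (b v i) * s2), ?_⟩
    rw [x6_t_div, hs', hs2', div_mul_div_comm, div_eq_div_iff
      (mul_ne_zero hψ (pow_ne_zero _ hs2)) (mul_ne_zero (mul_ne_zero hψ hs2) (mul_ne_zero hψ hs2))]
    linear_combination (s ^ 2 * Q.ψ (b v i) * s2 ^ 2) * hr'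

end case2

theorem sel_upper (hd : E.disc ≠ 0) : ∃ C₀ : ℕ, 0 < C₀ ∧
    ∀ (K : Type) [Field K] [NumberField K], Module.finrank ℚ K = 2 →
    ∀ Ψ : Finset (E.Alg K)ˣ, (∀ u ∈ Ψ, u ∈ E.selSub K) →
    (∀ u ∈ Ψ, ∀ v ∈ Ψ, u / v ∈ sqSub (E.Alg K) → u = v) →
    Ψ.card ≤ C₀ * 4 ^ (discr K).natAbs.primeFactors.card := by
  classical
  obtain ⟨F, iF1, iF2, ⟨S⟩⟩ := exists_split E hd
  obtain ⟨K₆, hK₆, hcard⟩ := S.card_Hs
  set nA := {g : Fin 3 → SqC F | ∀ i, g i ∈ x6_A E F}.ncard with hnA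
  set g := Module.finrank ℚ F with hg
  set nG := Nat.card ((F ≃ₐ[ℚ] F) × Fin 3 → Bool) with hnG
  refine ⟨nA * (2 ^ g) ^ 3 + nA * (nG * (K₆ * 4 * (2 ^ (2 * g)) ^ 3)) + 1, by omega, ?_⟩
  intro K _ _ hK Ψ h1 h2
  have hpow : 1 ≤ 4 ^ (discr K).natAbs.primeFactors.card := Nat.one_le_pow _ _ (by norm_num)
  obtain ⟨D, δ, hDsf, hD1, hδ, hδQ, hDp⟩ := exists_sqrt_of_quadratic K hK
  by_cases hF : ∃ x : F, x ^ 2 = (D : F)
  · obtain ⟨x, hx⟩ := hF
    obtain ⟨φ, -⟩ := exists_embed F K hK δ D hδ hδQ x hx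
    have h3 := S.x6_case1 hd K φ Ψ h1 h2
    calc Ψ.card ≤ nA * (2 ^ g) ^ 3 := h3
      _ ≤ (nA * (2 ^ g) ^ 3 + nA * (nG * (K₆ * 4 * (2 ^ (2 * g)) ^ 3)) + 1) * 1 := by omega
      _ ≤ _ := Nat.mul_le_mul_left _ hpow
  · push Not at hF
    obtain ⟨L, iL1, iL2, Q, φ, hφ, hrank, hconj⟩ := exists_quad F K hK δ D hδ hδQ hF
    have hD0 : D ≠ 0 := hDsf.ne_zero
    have h3 := S.x6_stepA Q φ hd (S.x6_stepB Q φ hconj
      (S.x6_stepC Q φ hd hD0 hcard (S.x6_bnd3 Q φ hd))) Ψ h1 h2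
    rw [hrank] at h3
    have hT : D.natAbs.primeFactors ⊆ insert 2 (discr K).natAbs.primeFactors := by
      intro p hp
      rw [Nat.mem_primeFactors] at hp
      rw [Finset.mem_insert, Nat.mem_primeFactors]
      by_cases hp2 : p = 2
      · exact Or.inl hp2
      · right
        refine ⟨hp.1, ?_, Int.natAbs_ne_zero.2 (NumberField.discr_ne_zero K)⟩
        exact Int.natCast_dvd.1 (hDp p hp.1 hp2 (Int.natCast_dvd.2 hp.2.1))
    have hTc : D.natAbs.primeFactors.card ≤ (discr K).natAbs.primeFactors.card + 1 :=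
      (Finset.card_le_card hT).trans (Finset.card_insert_le _ _)
    have h4 : 4 ^ D.natAbs.primeFactors.card ≤ 4 ^ (discr K).natAbs.primeFactors.card * 4 := by
      rw [← pow_succ]
      exact Nat.pow_le_pow_right (by norm_num) hTc
    calc Ψ.card ≤ nA * (nG * (K₆ * 4 ^ D.natAbs.primeFactors.card * (2 ^ (2 * g)) ^ 3)) := h3
      _ ≤ nA * (nG * (K₆ * (4 ^ (discr K).natAbs.primeFactors.card * 4) * (2 ^ (2 * g)) ^ 3)) := by
          gcongr
      _ = nA * (nG * (K₆ * 4 * (2 ^ (2 * g)) ^ 3)) * 4 ^ (discr K).natAbs.primeFactors.card := by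
          ring
      _ ≤ _ := Nat.mul_le_mul_right _ (by omega)

end Split
end H16A
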