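import Pool.Agent.Lib.H16A.X6

/-!
# X7 (M): finiteness and asymptotic form of the upper bound

* `relIndex_sel`: if every finite set of pairwise inequivalent elements of `selSub K` has at most `B`
  elements then the relative index of `sqSub` in `selSub K` is nonzero and at most `B`
  (`Subgroup.relIndex`, `Nat.card` of the quotient).
* `finite_sha2`: `Sha2 K` is a quotient of `selSub/sqSub` (`sqSub ≤ imSub ≤ selSub`), with at most as many
  elements.
* `omega_le`: for every `ε > 0` there is `B` with `ω(n) ≤ (1 + ε) log n/loglog n` for `n ≥ B`: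
  `n ≥ ∏_{p | n} p ≥ (ω + 1)!`, so `log n ≥ ω log ω - ω`; if `ω ≥ (1 + ε) log n/loglog n` then
  `log ω ≥ loglog n - logloglog n`, and `ω (log ω - 1) > log n` for large `n`, contradiction.
  (Look in the pool for an existing version: grep for `primeFactors.card` and `log (log`.)
* `sel_upper_asymp`: combine: `log₂ (C₀ 4^ω) = 2 ω + log₂ C₀ ≤ (2 + ε) log|disc|/loglog|disc|`.
-/

open Polynomial IsDedekindDomain NumberField

namespace H16A

theorem X7_factorial_le (s : Finset ℕ) : (∀ x ∈ s, 1 ≤ x) → s.card.factorial ≤ ∏ x ∈ s, x := by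
  induction s using Finset.induction_on_max with
  | empty => simp
  | insert a s ha ih =>
    intro h
    have hna : a ∉ s := fun h' => lt_irrefl a (ha a h')
    rw [Finset.card_insert_of_notMem hna, Finset.prod_insert hna, Nat.factorial_succ]
    apply Nat.mul_le_mul
    · have h1 : s ⊆ Finset.Ico 1 a := by
        intro x hx
        rw [Finset.mem_Ico]
        exact ⟨h x (Finset.mem_insert_of_mem hx), ha x hx⟩
      have h2 := Finset.card_le_card h1
      rw [Nat.card_Ico] at h2
      have h3 := h a (Finset.mem_insert_self a s)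
      omega
    · exact ih fun x hx => h x (Finset.mem_insert_of_mem hx)

theorem X7_log_ge (n : ℕ) (hn : n ≠ 0) :
    (n.primeFactors.card : ℝ) * (Real.log n.primeFactors.card - 1) ≤ Real.log n := by
  set k := n.primeFactors.card with hk
  rcases Nat.eq_zero_or_pos k with h0 | h0
  · rw [h0]
    simp only [Nat.cast_zero, zero_mul]
    exact Real.log_natCast_nonneg n
  have h1 : k.factorial ≤ n := by
    refine (X7_factorial_le n.primeFactors fun x hx =>
      (Nat.prime_of_mem_primeFactors hx).one_le).trans ?_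
    exact Nat.le_of_dvd (Nat.pos_of_ne_zero hn) (Nat.prod_primeFactors_dvd n)
  have h2 : (k : ℝ) ^ k / k.factorial ≤ Real.exp k := Real.pow_div_factorial_le_exp k (by positivity) k
  have hk0 : (0 : ℝ) < k := by exact_mod_cast h0
  have hf0 : (0 : ℝ) < k.factorial := by exact_mod_cast Nat.factorial_pos k
  have h3 := Real.log_le_log (by positivity) h2
  rw [Real.log_exp, Real.log_div (by positivity) (by positivity), Real.log_pow] at h3
  have h4 : Real.log k.factorial ≤ Real.log n := Real.log_le_log hf0 (by exact_mod_cast h1)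
  linarith

theorem omega_le {ε : ℝ} (hε : 0 < ε) : ∃ B : ℕ, ∀ n : ℕ, B ≤ n →
    (n.primeFactors.card : ℝ) ≤ (1 + ε) * (Real.log n / Real.log (Real.log n)) := by
  -- for large `l`: `ε l ≥ (1 + ε) (log l + 1)` and `l - log l - 1 > 0`
  have h1 : ∀ᶠ l : ℝ in Filter.atTop, Real.log l + 1 ≤ (ε / (1 + ε)) / 2 * l + l / 4 * 0 +
      (ε / (1 + ε)) / 2 * l := by
    have h2 : ∀ᶠ l : ℝ in Filter.atTop, ‖Real.log l‖ ≤ ((ε / (1 + ε)) / 2) * ‖l‖ :=
      Real.isLittleO_log_id_atTop.def (by positivity)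
    have h3 : ∀ᶠ l : ℝ in Filter.atTop, 1 / ((ε / (1 + ε)) / 2) ≤ l :=
      Filter.eventually_ge_atTop _
    filter_upwards [h2, h3, Filter.eventually_ge_atTop (1 : ℝ)] with l h2 h3 h4
    rw [Real.norm_of_nonneg (Real.log_nonneg h4), Real.norm_of_nonneg (by linarith)] at h2
    rw [div_le_iff₀ (by positivity)] at h3
    nlinarith
  have h2 : ∀ᶠ l : ℝ in Filter.atTop, Real.log l + 1 < l := by
    have h2 : ∀ᶠ l : ℝ in Filter.atTop, ‖Real.log l‖ ≤ (1 / 2) * ‖l‖ :=
      Real.isLittleO_log_id_atTop.def (by positivity)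
    filter_upwards [h2, Filter.eventually_ge_atTop (3 : ℝ)] with l h2 h4
    rw [Real.norm_of_nonneg (Real.log_nonneg (by linarith)),
      Real.norm_of_nonneg (by linarith)] at h2
    linarith
  have h3 : Filter.Tendsto (fun n : ℕ => Real.log (Real.log n)) Filter.atTop Filter.atTop :=
    Real.tendsto_log_atTop.comp (Real.tendsto_log_atTop.comp tendsto_natCast_atTop_atTop)
  have h4 := h3.eventually (h1.and (h2.and (Filter.eventually_ge_atTop (1 : ℝ))))
  obtain ⟨B, hB⟩ := Filter.eventually_atTop.1 (h4.and (Filter.eventually_ge_atTop 1))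
  refine ⟨B, fun n hn => ?_⟩
  obtain ⟨⟨g1, g2, g3⟩, g4⟩ := hB n hn
  set L := Real.log n with hL
  set l := Real.log L with hl
  have hl0 : 0 < l := by linarith
  have hL0 : 0 < L := by
    by_contra hcon
    push Not at hcon
    have h5 : (0 : ℝ) ≤ L := Real.log_natCast_nonneg n
    have h6 : L = 0 := le_antisymm hcon h5
    rw [hl, h6, Real.log_zero] at hl0
    exact lt_irrefl _ hl0
  by_contra hcon
  push Not at hcon
  have hk := X7_log_ge n (by omega)
  set k : ℝ := (n.primeFactors.card : ℝ) with hkdef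
  have hK0 : 0 < (1 + ε) * (L / l) := by positivity
  have hlog : l - Real.log l ≤ Real.log k := by
    have h7 : L / l ≤ (1 + ε) * (L / l) := by
      have : 0 < L / l := by positivity
      nlinarith
    have h8 := Real.log_le_log (by positivity : 0 < L / l) (h7.trans hcon.le)
    rwa [Real.log_div hL0.ne' hl0.ne'] at h8
  have h9 : (1 + ε) * (L / l) * (l - Real.log l - 1) < k * (Real.log k - 1) := by
    calc (1 + ε) * (L / l) * (l - Real.log l - 1) < k * (l - Real.log l - 1) :=
          mul_lt_mul_of_pos_right hcon (by linarith)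
      _ ≤ k * (Real.log k - 1) := mul_le_mul_of_nonneg_left (by linarith) (by positivity)
  have h10 : L ≤ (1 + ε) * (L / l) * (l - Real.log l - 1) := by
    have h11 : l ≤ (1 + ε) * (l - Real.log l - 1) := by
      have h12 : (1 + ε) * (Real.log l + 1) ≤ ε * l := by
        have h13 : Real.log l + 1 ≤ (ε / (1 + ε)) * l := by linarith
        calc (1 + ε) * (Real.log l + 1) ≤ (1 + ε) * ((ε / (1 + ε)) * l) :=
              mul_le_mul_of_nonneg_left h13 (by positivity)
          _ = ε * l := by field_simp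
      linarith
    calc L = (L / l) * l := by field_simp
      _ ≤ (L / l) * ((1 + ε) * (l - Real.log l - 1)) :=
          mul_le_mul_of_nonneg_left h11 (by positivity)
      _ = _ := by ring
  linarith

namespace Cub

variable (E : Cub)

theorem relIndex_sel {K : Type} [Field K] [NumberField K] (B : ℕ)
    (h : ∀ Ψ : Finset (E.Alg K)ˣ, (∀ u ∈ Ψ, u ∈ E.selSub K) →
      (∀ u ∈ Ψ, ∀ v ∈ Ψ, u / v ∈ sqSub (E.Alg K) → u = v) → Ψ.card ≤ B) :
    (sqSub (E.Alg K)).relIndex (E.selSub K) ≠ 0 ∧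
      (sqSub (E.Alg K)).relIndex (E.selSub K) ≤ B := by
  classical
  have hex : ∀ q : ↥(E.selSub K) ⧸ (sqSub (E.Alg K)).subgroupOf (E.selSub K),
      ∃ x : ↥(E.selSub K), QuotientGroup.mk x = q := fun q => Quotient.exists_rep q
  choose f hf using hex
  have hout : ∀ q r, ((f q : E.selSub K) : (E.Alg K)ˣ) / ((f r : E.selSub K) : (E.Alg K)ˣ) ∈
        sqSub (E.Alg K) → q = r := by
    intro q r hqr
    rw [← hf q, ← hf r]
    rw [QuotientGroup.eq, Subgroup.mem_subgroupOf]
    have h1 := (sqSub (E.Alg K)).inv_mem hqr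
    rw [inv_div, div_eq_inv_mul] at h1
    exact h1
  have key : ∀ s : Finset (↥(E.selSub K) ⧸ (sqSub (E.Alg K)).subgroupOf (E.selSub K)),
      s.card ≤ B := by
    intro s
    have hinj : Function.Injective (fun q => ((f q : E.selSub K) : (E.Alg K)ˣ)) := by
      intro q r hqr
      apply hout
      have h1 : ((f q : E.selSub K) : (E.Alg K)ˣ) = ((f r : E.selSub K) : (E.Alg K)ˣ) := hqr
      rw [h1, div_self']
      exact (sqSub (E.Alg K)).one_mem
    have h2 := h (s.image fun q => ((f q : E.selSub K) : (E.Alg K)ˣ)) (by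
      intro u hu
      obtain ⟨q, _, rfl⟩ := Finset.mem_image.1 hu
      exact (f q : E.selSub K).2) (by
      intro u hu v hv huv
      obtain ⟨q, _, rfl⟩ := Finset.mem_image.1 hu
      obtain ⟨r, _, rfl⟩ := Finset.mem_image.1 hv
      rw [hout q r huv])
    rwa [Finset.card_image_of_injective _ hinj] at h2
  have hfin : Finite (↥(E.selSub K) ⧸ (sqSub (E.Alg K)).subgroupOf (E.selSub K)) := by
    by_contra hinf
    rw [not_finite_iff_infinite] at hinf
    obtain ⟨s, hs⟩ := Infinite.exists_subset_card_eq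
      (↥(E.selSub K) ⧸ (sqSub (E.Alg K)).subgroupOf (E.selSub K)) (B + 1)
    have := key s
    omega
  have hcard : (sqSub (E.Alg K)).relIndex (E.selSub K) =
      Nat.card (↥(E.selSub K) ⧸ (sqSub (E.Alg K)).subgroupOf (E.selSub K)) := rfl
  rw [hcard]
  constructor
  · exact Nat.card_pos.ne'
  · have := Fintype.ofFinite (↥(E.selSub K) ⧸ (sqSub (E.Alg K)).subgroupOf (E.selSub K))
    rw [Nat.card_eq_fintype_card]
    exact key Finset.univ

theorem finite_sha2 {K : Type} [Field K] [NumberField K] [DecidableEq K] (hd : E.disc ≠ 0)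
    (h : (sqSub (E.Alg K)).relIndex (E.selSub K) ≠ 0) :
    Finite (E.Sha2 K) ∧ (twoG (E.Pt K)).index ≠ 0 ∧
      Nat.card (E.Sha2 K) * (twoG (E.Pt K)).index = (sqSub (E.Alg K)).relIndex (E.selSub K) := by
  have hd' : ((E.disc : ℤ) : K) ≠ 0 := by exact_mod_cast hd
  have h1 := Subgroup.relIndex_mul_relIndex (sqSub (E.Alg K)) (E.imSub K) (E.selSub K)
    (E.sqSub_le_imSub) (E.imSub_le_selSub K)
  rw [E.relIndex_eq two_ne_zero hd'] at h1
  have h2 : (E.imSub K).relIndex (E.selSub K) = Nat.card (E.Sha2 K) := rfl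
  rw [h2, mul_comm] at h1
  have h3 : Nat.card (E.Sha2 K) ≠ 0 := by
    intro h0
    rw [h0, zero_mul] at h1
    exact h h1.symm
  have h4 : (twoG (E.Pt K)).index ≠ 0 := by
    intro h0
    rw [h0, mul_zero] at h1
    exact h h1.symm
  exact ⟨Nat.finite_of_card_ne_zero h3, h4, h1⟩

theorem sel_upper_asymp (hd : E.disc ≠ 0) {ε : ℝ} (hε : 0 < ε) : ∃ B : ℝ,
    ∀ (K : Type) [Field K] [NumberField K], Module.finrank ℚ K = 2 → B ≤ |(discr K : ℝ)| →
    (sqSub (E.Alg K)).relIndex (E.selSub K) ≠ 0 ∧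
    ((sqSub (E.Alg K)).relIndex (E.selSub K) : ℝ) ≤
      2 ^ ((2 + ε) * (Real.log |(discr K : ℝ)| / Real.log (Real.log |(discr K : ℝ)|))) := by
  have hupper : ∃ C₀ : ℕ, 0 < C₀ ∧
    ∀ (K : Type) [Field K] [NumberField K], Module.finrank ℚ K = 2 →
    ∀ Ψ : Finset (E.Alg K)ˣ, (∀ u ∈ Ψ, u ∈ E.selSub K) →
    (∀ u ∈ Ψ, ∀ v ∈ Ψ, u / v ∈ sqSub (E.Alg K) → u = v) →
    Ψ.card ≤ C₀ * 4 ^ (discr K).natAbs.primeFactors.card := by
    obtain ⟨F, _, _, ⟨S⟩⟩ := exists_split E hd
    first
      | exact Split.sel_upper hd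
      | exact Split.sel_upper S hd
  obtain ⟨C₀, hC₀, hsel⟩ := hupper
  obtain ⟨B₁, hB₁⟩ := omega_le (ε := ε / 4) (by positivity)
  have hC₀' : (0 : ℝ) < C₀ := by exact_mod_cast hC₀
  obtain ⟨M, hM⟩ : ∃ M : ℝ, M = |Real.logb 2 C₀| / (ε / 2) + 1 := ⟨_, rfl⟩
  have hM0 : 0 < M := by
    rw [hM]
    positivity
  have h1 : ∀ᶠ y : ℝ in Filter.atTop, M ≤ y / Real.log y := by
    have h2 : ∀ᶠ y : ℝ in Filter.atTop, ‖Real.log y‖ ≤ (1 / M) * ‖y‖ :=
      Real.isLittleO_log_id_atTop.def (by positivity)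
    filter_upwards [h2, Filter.eventually_ge_atTop (3 : ℝ)] with y h2 h3
    have hl : 0 < Real.log y := Real.log_pos (by linarith)
    rw [Real.norm_of_nonneg hl.le, Real.norm_of_nonneg (by linarith)] at h2
    rw [le_div_iff₀ hl]
    calc M * Real.log y ≤ M * ((1 / M) * y) := mul_le_mul_of_nonneg_left h2 hM0.le
      _ = y := by field_simp
  have h2 := (Real.tendsto_log_atTop.eventually h1).and (Filter.eventually_ge_atTop (B₁ : ℝ))
  obtain ⟨B, hB⟩ := Filter.eventually_atTop.1 h2
  refine ⟨B, fun K _ _ hK hdK => ?_⟩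
  obtain ⟨g1, g2⟩ := hB _ hdK
  have hn : (((discr K).natAbs : ℕ) : ℝ) = |(discr K : ℝ)| := by
    rw [Nat.cast_natAbs, Int.cast_abs]
  rw [← hn] at g1 g2 ⊢
  have g2' : B₁ ≤ (discr K).natAbs := by exact_mod_cast g2
  have hω := hB₁ _ g2'
  obtain ⟨r1, r2⟩ := E.relIndex_sel (K := K) _ (hsel K hK)
  refine ⟨r1, ?_⟩
  set n := (discr K).natAbs with hndef
  set Y : ℝ := Real.log n / Real.log (Real.log n) with hY
  have r3 : ((sqSub (E.Alg K)).relIndex (E.selSub K) : ℝ) ≤ C₀ * 4 ^ n.primeFactors.card := by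
    exact_mod_cast r2
  refine r3.trans ?_
  have e1 : (C₀ : ℝ) = (2 : ℝ) ^ (Real.logb 2 C₀) :=
    (Real.rpow_logb (by norm_num) (by norm_num) hC₀').symm
  have e2 : (4 : ℝ) ^ n.primeFactors.card = (2 : ℝ) ^ (2 * (n.primeFactors.card : ℝ)) := by
    rw [Real.rpow_mul (by norm_num), Real.rpow_natCast]
    norm_num
  rw [e2]
  conv_lhs => rw [e1]
  rw [← Real.rpow_add (by norm_num)]
  apply Real.rpow_le_rpow_of_exponent_le (by norm_num)
  have g3 : Real.logb 2 C₀ ≤ ε / 2 * Y := by
    have g4 : |Real.logb 2 C₀| / (ε / 2) ≤ Y := by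
      have : |Real.logb 2 C₀| / (ε / 2) ≤ M := by rw [hM]; linarith
      exact this.trans g1
    rw [div_le_iff₀ (by positivity)] at g4
    linarith [le_abs_self (Real.logb 2 C₀)]
  nlinarith

end Cub
end H16A
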